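import Pool.Agent.Helper927.DLDefs
set_option autoImplicit false
set_option maxHeartbeats 4000000
open Module Submodule

namespace Pool.Agent.DihLaman.J390
open Pool.Agent.DihLaman

section RadoAux
variable {W I : Type} [AddCommGroup W] [Module ℂ W] [FiniteDimensional ℂ W]
    [DecidableEq I]

/-- common kernel in X of the allowed functionals with index in J -/
def KK (φ : I → Bool → (W →ₗ[ℂ] ℂ)) (X : Submodule ℂ W) (A : I → Finset Bool) (J : Finset I) :
    Submodule ℂ W := X ⊓ (⨅ i ∈ J, ⨅ b ∈ A i, LinearMap.ker (φ i b))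

omit [FiniteDimensional ℂ W] [DecidableEq I] in
theorem mem_KK (φ : I → Bool → (W →ₗ[ℂ] ℂ)) (X : Submodule ℂ W) (A : I → Finset Bool) (J : Finset I)
    (x : W) : x ∈ KK φ X A J ↔ x ∈ X ∧ ∀ i ∈ J, ∀ b ∈ A i, φ i b x = 0 := by
  simp [KK, Submodule.mem_inf, Submodule.mem_iInf, LinearMap.mem_ker]

theorem rado_ker_fin [Fintype I] (φ : I → Bool → (W →ₗ[ℂ] ℂ)) (X : Submodule ℂ W) (m : ℕ)
    (T : Finset I) (N : ℕ) : ∀ (A : I → Finset Bool), (∑ i ∈ T, (A i).card = N) →
    (∀ i, (A i).Nonempty) →
    (∀ J : Finset I, J ⊆ T → finrank ℂ (KK φ X A J) + J.card ≤ m) →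
    ∃ c : I → Bool, (∀ i, c i ∈ A i) ∧
      finrank ℂ (X ⊓ (⨅ i ∈ T, LinearMap.ker (φ i (c i))) : Submodule ℂ W) + T.card ≤ m := by
  induction N using Nat.strong_induction_on with
  | _ N ih =>
    intro A hN hA h
    by_cases hs : ∀ i ∈ T, (A i).card = 1
    · choose c hc using hA
      refine ⟨c, hc, ?_⟩
      have e : (X ⊓ (⨅ i ∈ T, LinearMap.ker (φ i (c i))) : Submodule ℂ W) = KK φ X A T := by
        ext x
        rw [mem_KK]
        simp only [Submodule.mem_inf, Submodule.mem_iInf, LinearMap.mem_ker]
        constructor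
        · rintro ⟨hx, h2⟩
          refine ⟨hx, fun i hi b hb => ?_⟩
          have h3 : b = c i := Finset.card_le_one.mp (hs i hi).le b hb (c i) (hc i)
          rw [h3]
          exact h2 i hi
        · rintro ⟨hx, h2⟩
          exact ⟨hx, fun i hi => h2 i hi (c i) (hc i)⟩
      rw [e]
      exact h T (Finset.Subset.refl _)
    · push Not at hs
      obtain ⟨i, hiT, hi⟩ := hs
      have hi2 : (A i).card = 2 := by
        have h1 : (A i).card ≤ 2 := by
          have := Finset.card_le_univ (A i)
          simpa using this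
        have h2 : 0 < (A i).card := Finset.card_pos.mpr (hA i)
        omega
      have huniv : ∀ b, b ∈ A i := by
        have : A i = Finset.univ := Finset.eq_univ_of_card _ (by simpa using hi2)
        intro b
        rw [this]
        exact Finset.mem_univ b
      -- reduction at a given value
      have hred : ∀ v : Bool, (∀ J : Finset I, J ⊆ T →
            finrank ℂ (KK φ X (Function.update A i {v}) J) + J.card ≤ m) →
          ∃ c : I → Bool, (∀ i, c i ∈ A i) ∧
            finrank ℂ (X ⊓ (⨅ i ∈ T, LinearMap.ker (φ i (c i))) : Submodule ℂ W) + T.card ≤ m := by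
        intro v hv
        have hlt : ∑ j ∈ T, ((Function.update A i {v}) j).card < N := by
          rw [← hN]
          apply Finset.sum_lt_sum
          · intro j hj
            by_cases hji : j = i
            · subst hji
              simp [hi2]
            · rw [Function.update_of_ne hji]
          · refine ⟨i, hiT, ?_⟩
            simp [hi2]
        have hne : ∀ j, ((Function.update A i {v}) j).Nonempty := by
          intro j
          by_cases hji : j = i
          · subst hji
            simp
          · rw [Function.update_of_ne hji]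
            exact hA j
        obtain ⟨c, hc1, hc2⟩ := ih _ hlt (Function.update A i {v}) rfl hne hv
        refine ⟨c, fun j => ?_, hc2⟩
        by_cases hji : j = i
        · subst hji
          exact huniv _
        · have := hc1 j
          rw [Function.update_of_ne hji] at this
          exact this
      by_contra hcon
      have h1 : ¬ (∀ J : Finset I, J ⊆ T →
            finrank ℂ (KK φ X (Function.update A i {false}) J) + J.card ≤ m) :=
        fun hh => hcon (hred false hh)
      have h2 : ¬ (∀ J : Finset I, J ⊆ T →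
            finrank ℂ (KK φ X (Function.update A i {true}) J) + J.card ≤ m) :=
        fun hh => hcon (hred true hh)
      push Not at h1 h2
      obtain ⟨J1, hJ1T, hJ1⟩ := h1
      obtain ⟨J2, hJ2T, hJ2⟩ := h2
      have hmem : ∀ (v : Bool) (J : Finset I), J ⊆ T →
          m < finrank ℂ (KK φ X (Function.update A i {v}) J) + J.card → i ∈ J := by
        intro v J hJT hJ
        by_contra hiJ
        have e : KK φ X (Function.update A i {v}) J = KK φ X A J := by
          ext x
          rw [mem_KK, mem_KK]
          constructor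
          · rintro ⟨hx, h3⟩
            refine ⟨hx, fun j hj b hb => h3 j hj b ?_⟩
            have hji : j ≠ i := fun he => hiJ (he ▸ hj)
            rw [Function.update_of_ne hji]
            exact hb
          · rintro ⟨hx, h3⟩
            refine ⟨hx, fun j hj b hb => h3 j hj b ?_⟩
            have hji : j ≠ i := fun he => hiJ (he ▸ hj)
            rw [Function.update_of_ne hji] at hb
            exact hb
        rw [e] at hJ
        have := h J hJT
        omega
      have hi1 := hmem false J1 hJ1T hJ1
      have hi2' := hmem true J2 hJ2T hJ2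
      have hinf : KK φ X (Function.update A i {false}) J1 ⊓ KK φ X (Function.update A i {true}) J2
          ≤ KK φ X A (J1 ∪ J2) := by
        intro x hx
        rw [Submodule.mem_inf, mem_KK, mem_KK] at hx
        obtain ⟨⟨hxX, hx1⟩, -, hx2⟩ := hx
        rw [mem_KK]
        refine ⟨hxX, fun j hj b hb => ?_⟩
        by_cases hji : j = i
        · subst hji
          cases b
          · exact hx1 j hi1 false (by simp)
          · exact hx2 j hi2' true (by simp)
        · rcases Finset.mem_union.mp hj with hj | hj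
          · exact hx1 j hj b (by rw [Function.update_of_ne hji]; exact hb)
          · exact hx2 j hj b (by rw [Function.update_of_ne hji]; exact hb)
      have hsup : KK φ X (Function.update A i {false}) J1 ⊔ KK φ X (Function.update A i {true}) J2
          ≤ KK φ X A ((J1 ∩ J2).erase i) := by
        apply sup_le
        · intro x hx
          rw [mem_KK] at hx ⊢
          refine ⟨hx.1, fun j hj b hb => ?_⟩
          rw [Finset.mem_erase, Finset.mem_inter] at hj
          exact hx.2 j hj.2.1 b (by rw [Function.update_of_ne hj.1]; exact hb)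
        · intro x hx
          rw [mem_KK] at hx ⊢
          refine ⟨hx.1, fun j hj b hb => ?_⟩
          rw [Finset.mem_erase, Finset.mem_inter] at hj
          exact hx.2 j hj.2.2 b (by rw [Function.update_of_ne hj.1]; exact hb)
      have f1 := Submodule.finrank_mono hinf
      have f2 := Submodule.finrank_mono hsup
      have f3 := Submodule.finrank_sup_add_finrank_inf_eq (KK φ X (Function.update A i {false}) J1)
        (KK φ X (Function.update A i {true}) J2)
      have f4 := h (J1 ∪ J2) (Finset.union_subset hJ1T hJ2T)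
      have f5 := h ((J1 ∩ J2).erase i)
        ((Finset.erase_subset _ _).trans (Finset.inter_subset_left.trans hJ1T))
      have f6 := Finset.card_union_add_card_inter J1 J2
      have f7 : ((J1 ∩ J2).erase i).card + 1 = (J1 ∩ J2).card :=
        Finset.card_erase_add_one (Finset.mem_inter.mpr ⟨hi1, hi2'⟩)
      omega

omit [DecidableEq I] in
theorem cut_one (Y : Submodule ℂ W) (f : W →ₗ[ℂ] ℂ) :
    finrank ℂ Y ≤ finrank ℂ (Y ⊓ LinearMap.ker f : Submodule ℂ W) + 1 := by
  have h1 := Submodule.finrank_sup_add_finrank_inf_eq Y (LinearMap.ker f)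
  have h2 := LinearMap.finrank_range_add_finrank_ker f
  have h3 : finrank ℂ (LinearMap.range f) ≤ 1 := by
    have := Submodule.finrank_le (LinearMap.range f)
    rwa [Module.finrank_self] at this
  have h4 := Submodule.finrank_le (Y ⊔ LinearMap.ker f)
  omega

theorem cut_many (Y : Submodule ℂ W) (f : I → (W →ₗ[ℂ] ℂ)) (S : Finset I) :
    finrank ℂ Y ≤ finrank ℂ (Y ⊓ (⨅ i ∈ S, LinearMap.ker (f i)) : Submodule ℂ W) + S.card := by
  induction S using Finset.induction_on with
  | empty =>
    have e : (Y ⊓ (⨅ i ∈ (∅ : Finset I), LinearMap.ker (f i)) : Submodule ℂ W) = Y := by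
      ext x
      simp [Submodule.mem_inf, Submodule.mem_iInf]
    rw [e]
    omega
  | insert a S ha ih =>
    have h1 := cut_one (Y ⊓ (⨅ i ∈ S, LinearMap.ker (f i))) (f a)
    have e : (Y ⊓ (⨅ i ∈ insert a S, LinearMap.ker (f i)) : Submodule ℂ W)
        = (Y ⊓ (⨅ i ∈ S, LinearMap.ker (f i))) ⊓ LinearMap.ker (f a) := by
      rw [Finset.iInf_insert, inf_comm (LinearMap.ker (f a)), inf_assoc]
    rw [e, Finset.card_insert_of_notMem ha]
    omega

end RadoAux

/-- Kernel form of Rado's theorem: every index i has two linear functionals φ i true, φ i false, of which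
only those b with b ∈ A i are allowed.  If for every J the common kernel in X of all allowed functionals with
index in J has dimension at most m - |J|, then one can choose one allowed functional per index such that the
common kernel of the chosen ones in X has dimension at most m - |I|. -/
theorem rado_ker {W I : Type} [AddCommGroup W] [Module ℂ W] [FiniteDimensional ℂ W]
    [Fintype I] [DecidableEq I] (φ : I → Bool → (W →ₗ[ℂ] ℂ)) (X : Submodule ℂ W) (m : ℕ)
    (A : I → Finset Bool) (hA : ∀ i, (A i).Nonempty)
    (h : ∀ J : Finset I,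
      finrank ℂ (X ⊓ (⨅ i ∈ J, ⨅ b ∈ A i, LinearMap.ker (φ i b)) : Submodule ℂ W) + J.card ≤ m) :
    ∃ c : I → Bool, (∀ i, c i ∈ A i) ∧
      finrank ℂ (X ⊓ (⨅ i, LinearMap.ker (φ i (c i))) : Submodule ℂ W) + Fintype.card I ≤ m := by
  obtain ⟨c, hc1, hc2⟩ := rado_ker_fin φ X m Finset.univ _ A rfl hA (fun J _ => h J)
  refine ⟨c, hc1, ?_⟩
  have e : (⨅ i, LinearMap.ker (φ i (c i))) = ⨅ i ∈ (Finset.univ : Finset I), LinearMap.ker (φ i (c i)) := by
    simp
  rw [e]
  exact hc2

/-- Exchange lemma. `Nice` marks some of the functionals. We start with an index j0 and a choice c0 of nice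
functionals for all other indices which is independent on X (dimension count hind), where finrank X ≤ |I| and
there is a nonzero vector `one` in X killed by everything. Then either some other such state (j, c) has a
non-nice functional at its exceptional index j, or there is a set J containing j0 all of whose functionals are
nice and which is tight. -/
theorem exchange {W I : Type} [AddCommGroup W] [Module ℂ W] [FiniteDimensional ℂ W]
    [Fintype I] [DecidableEq I] (φ : I → Bool → (W →ₗ[ℂ] ℂ)) (X : Submodule ℂ W)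
    (hX : finrank ℂ X ≤ Fintype.card I)
    (one : W) (h1X : one ∈ X) (h10 : one ≠ 0) (h1 : ∀ i b, φ i b one = 0)
    (Nice : I → Bool → Prop) (j0 : I) (c0 : I → Bool) (hc0 : ∀ i, i ≠ j0 → Nice i (c0 i))
    (hind : finrank ℂ (X ⊓ (⨅ i, ⨅ (_ : i ≠ j0), LinearMap.ker (φ i (c0 i))) : Submodule ℂ W)
      + Fintype.card I ≤ finrank ℂ X + 1) :
    (∃ (j : I) (c : I → Bool), (∀ i, i ≠ j → Nice i (c i)) ∧
      finrank ℂ (X ⊓ (⨅ i, ⨅ (_ : i ≠ j), LinearMap.ker (φ i (c i))) : Submodule ℂ W)
        + Fintype.card I ≤ finrank ℂ X + 1 ∧ ∃ b, ¬ Nice j b) ∨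
    (∃ J : Finset I, j0 ∈ J ∧ (∀ i ∈ J, ∀ b, Nice i b) ∧
      finrank ℂ X + 1 ≤
        finrank ℂ (X ⊓ (⨅ i ∈ J, ⨅ b, LinearMap.ker (φ i b)) : Submodule ℂ W) + J.card) := by
  classical
  by_cases hfirst : (∃ (j : I) (c : I → Bool), (∀ i, i ≠ j → Nice i (c i)) ∧
      finrank ℂ (X ⊓ (⨅ i, ⨅ (_ : i ≠ j), LinearMap.ker (φ i (c i))) : Submodule ℂ W)
        + Fintype.card I ≤ finrank ℂ X + 1 ∧ ∃ b, ¬ Nice j b)
  · exact Or.inl hfirst
  right
  push Not at hfirst
  have hst : ∀ (j : I) (c : I → Bool), (∀ i, i ≠ j → Nice i (c i)) →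
      finrank ℂ (X ⊓ (⨅ i, ⨅ (_ : i ≠ j), LinearMap.ker (φ i (c i))) : Submodule ℂ W)
        + Fintype.card I ≤ finrank ℂ X + 1 → ∀ b, Nice j b := hfirst
  have hj0 : ∀ b, Nice j0 b := hst j0 c0 hc0 hind
  set m := finrank ℂ X with hm
  set A : I → Finset Bool := fun i => Finset.univ.filter (fun b => Nice i b) with hAdef
  have memA : ∀ i b, b ∈ A i ↔ Nice i b := by
    intro i b
    simp [hAdef]
  have hA : ∀ i, (A i).Nonempty := by
    intro i
    by_cases hi : i = j0
    · exact ⟨true, (memA i true).mpr (hi ▸ hj0 true)⟩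
    · exact ⟨c0 i, (memA i _).mpr (hc0 i hi)⟩
  have hcardpos : 1 ≤ Fintype.card I := Fintype.card_pos_iff.mpr ⟨j0⟩
  have bound0 : ∀ J : Finset I, j0 ∉ J → finrank ℂ (KK φ X A J) + J.card ≤ m := by
    intro J hJ
    have hle : KK φ X A J ≤ X ⊓ (⨅ i ∈ J, LinearMap.ker (φ i (c0 i))) := by
      intro x hx
      rw [mem_KK] at hx
      simp only [Submodule.mem_inf, Submodule.mem_iInf, LinearMap.mem_ker]
      refine ⟨hx.1, fun i hi => hx.2 i hi _ ((memA i _).mpr (hc0 i ?_))⟩
      rintro rfl
      exact hJ hi
    have f1 := Submodule.finrank_mono hle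
    have f2 := cut_many (X ⊓ (⨅ i ∈ J, LinearMap.ker (φ i (c0 i)))) (fun i => φ i (c0 i))
      ((Finset.univ.erase j0) \ J)
    have hle2 : (X ⊓ (⨅ i ∈ J, LinearMap.ker (φ i (c0 i)))) ⊓
        (⨅ i ∈ (Finset.univ.erase j0) \ J, LinearMap.ker (φ i (c0 i)))
        ≤ X ⊓ (⨅ i, ⨅ (_ : i ≠ j0), LinearMap.ker (φ i (c0 i))) := by
      intro x hx
      simp only [Submodule.mem_inf, Submodule.mem_iInf, LinearMap.mem_ker, Finset.mem_sdiff,
        Finset.mem_erase, Finset.mem_univ, and_true] at hx ⊢
      refine ⟨hx.1.1, fun i hi => ?_⟩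
      by_cases hiJ : i ∈ J
      · exact hx.1.2 i hiJ
      · exact hx.2 i ⟨hi, hiJ⟩
    have f3 := Submodule.finrank_mono hle2
    have hsub : J ⊆ Finset.univ.erase j0 := by
      intro i hi
      rw [Finset.mem_erase]
      exact ⟨fun he => hJ (he ▸ hi), Finset.mem_univ _⟩
    have f4 : ((Finset.univ.erase j0) \ J).card + J.card = (Finset.univ.erase j0).card :=
      Finset.card_sdiff_add_card_eq_card hsub
    have f5 : (Finset.univ.erase j0 : Finset I).card + 1 = Fintype.card I :=
      Finset.card_erase_add_one (Finset.mem_univ _)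
    omega
  have bound1 : ∀ J : Finset I, finrank ℂ (KK φ X A J) + J.card ≤ m + 1 := by
    intro J
    by_cases hJ : j0 ∈ J
    · have hle : KK φ X A J ≤ KK φ X A (J.erase j0) := by
        intro x hx
        rw [mem_KK] at hx ⊢
        exact ⟨hx.1, fun i hi => hx.2 i (Finset.mem_of_mem_erase hi)⟩
      have f1 := Submodule.finrank_mono hle
      have f2 := bound0 (J.erase j0) (Finset.notMem_erase _ _)
      have f3 := Finset.card_erase_add_one hJ
      omega
    · have := bound0 J hJ
      omega
  have huniv : m + 1 ≤ finrank ℂ (KK φ X A Finset.univ) + (Finset.univ : Finset I).card := by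
    have hone : one ∈ KK φ X A Finset.univ := by
      rw [mem_KK]
      exact ⟨h1X, fun i _ b _ => h1 i b⟩
    have hpos : 0 < finrank ℂ (KK φ X A Finset.univ) := by
      rw [Module.finrank_pos_iff_exists_ne_zero]
      refine ⟨⟨one, hone⟩, ?_⟩
      intro he
      exact h10 (congrArg Subtype.val he)
    rw [Finset.card_univ]
    omega
  -- minimal tight set
  have hexists : ((Finset.univ : Finset (Finset I)).filter
      (fun J => j0 ∈ J ∧ m + 1 ≤ finrank ℂ (KK φ X A J) + J.card)).Nonempty :=
    ⟨Finset.univ, by simp only [Finset.mem_filter, Finset.mem_univ, true_and]; exact huniv⟩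
  obtain ⟨J0, hJ0mem, hJ0min⟩ := Finset.exists_min_image _ (fun J : Finset I => J.card) hexists
  simp only [Finset.mem_filter, Finset.mem_univ, true_and] at hJ0mem hJ0min
  obtain ⟨hj0J0, hJ0t⟩ := hJ0mem
  have hall : ∀ i ∈ J0, ∀ b, Nice i b := by
    intro i hi
    by_cases hij : i = j0
    · rw [hij]; exact hj0
    by_cases hyp : ∀ J : Finset I, J ⊆ Finset.univ.erase i → finrank ℂ (KK φ X A J) + J.card ≤ m
    · obtain ⟨c, hc1, hc2⟩ := rado_ker_fin φ X m (Finset.univ.erase i) _ A rfl hA hyp
      apply hst i c (fun j _ => (memA j _).mp (hc1 j))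
      have e : (⨅ j, ⨅ (_ : j ≠ i), LinearMap.ker (φ j (c j)))
          = ⨅ j ∈ (Finset.univ.erase i : Finset I), LinearMap.ker (φ j (c j)) := by
        simp
      rw [e]
      have f5 : (Finset.univ.erase i : Finset I).card + 1 = Fintype.card I :=
        Finset.card_erase_add_one (Finset.mem_univ _)
      omega
    · exfalso
      push Not at hyp
      obtain ⟨J, hJi, hJ⟩ := hyp
      have hiJ : i ∉ J := by
        intro h
        have := hJi h
        rw [Finset.mem_erase] at this
        exact this.1 rfl
      have hj0J : j0 ∈ J := by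
        by_contra h
        have := bound0 J h
        omega
      have hinf : KK φ X A J ⊓ KK φ X A J0 ≤ KK φ X A (J ∪ J0) := by
        intro x hx
        rw [Submodule.mem_inf, mem_KK, mem_KK] at hx
        rw [mem_KK]
        refine ⟨hx.1.1, fun j hj b hb => ?_⟩
        rcases Finset.mem_union.mp hj with hj | hj
        · exact hx.1.2 j hj b hb
        · exact hx.2.2 j hj b hb
      have hsup : KK φ X A J ⊔ KK φ X A J0 ≤ KK φ X A (J ∩ J0) := by
        apply sup_le
        · intro x hx
          rw [mem_KK] at hx ⊢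
          exact ⟨hx.1, fun j hj => hx.2 j (Finset.mem_inter.mp hj).1⟩
        · intro x hx
          rw [mem_KK] at hx ⊢
          exact ⟨hx.1, fun j hj => hx.2 j (Finset.mem_inter.mp hj).2⟩
      have f1 := Submodule.finrank_mono hinf
      have f2 := Submodule.finrank_mono hsup
      have f3 := Submodule.finrank_sup_add_finrank_inf_eq (KK φ X A J) (KK φ X A J0)
      have f4 := bound1 (J ∪ J0)
      have f6 := Finset.card_union_add_card_inter J J0
      have f7 : m + 1 ≤ finrank ℂ (KK φ X A (J ∩ J0)) + (J ∩ J0).card := by omega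
      have f8 := hJ0min (J ∩ J0) ⟨Finset.mem_inter.mpr ⟨hj0J, hj0J0⟩, f7⟩
      have f9 : (J ∩ J0).card < J0.card := by
        apply Finset.card_lt_card
        refine ⟨Finset.inter_subset_right, fun hsub => ?_⟩
        exact hiJ (Finset.mem_inter.mp (hsub hi)).1
      omega
  refine ⟨J0, hj0J0, hall, ?_⟩
  have e : (X ⊓ (⨅ i ∈ J0, ⨅ b, LinearMap.ker (φ i b)) : Submodule ℂ W) = KK φ X A J0 := by
    ext x
    rw [mem_KK]
    simp only [Submodule.mem_inf, Submodule.mem_iInf, LinearMap.mem_ker]
    constructor
    · rintro ⟨hx, h2⟩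
      exact ⟨hx, fun i hi b _ => h2 i hi b⟩
    · rintro ⟨hx, h2⟩
      exact ⟨hx, fun i hi b => h2 i hi b ((memA i b).mpr (hall i hi b))⟩
  rw [e]
  exact hJ0t

end Pool.Agent.DihLaman.J390
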