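import Pool.Agent.Helper927.DLDefs
set_option autoImplicit false
set_option maxHeartbeats 4000000
open Module Submodule

namespace Pool.Agent.DihLaman.J411
open Pool.Agent.DihLaman

/-- The kernel dimension of a linear pencil is upper semicontinuous: it exceeds the value at 0 only finitely often. -/
theorem pencil {W W' : Type} [AddCommGroup W] [Module ℂ W] [FiniteDimensional ℂ W]
    [AddCommGroup W'] [Module ℂ W'] (A B : W →ₗ[ℂ] W') :
    {z : ℂ | finrank ℂ (LinearMap.ker A) < finrank ℂ (LinearMap.ker (A + z • B))}.Finite := by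
  obtain ⟨C, hC⟩ := Submodule.exists_isCompl (LinearMap.ker A)
  -- A restricted to C is injective
  have hinj : LinearMap.ker (A ∘ₗ C.subtype) = ⊥ := by
    rw [LinearMap.ker_eq_bot']
    intro c hc
    have h1 : (c : W) ∈ LinearMap.ker A := by simpa using hc
    have h2 : (c : W) ∈ LinearMap.ker A ⊓ C := ⟨h1, c.2⟩
    rw [hC.inf_eq_bot] at h2
    exact Subtype.ext (by simpa using h2)
  obtain ⟨g, hg⟩ := LinearMap.exists_leftInverse_of_injective (A ∘ₗ C.subtype) hinj
  let M : Module.End ℂ C := g ∘ₗ B ∘ₗ C.subtype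
  have hfin : Set.Finite {μ : ℂ | M.HasEigenvalue μ} := Module.End.finite_hasEigenvalue M
  have hfin2 : Set.Finite ((fun z : ℂ => -z⁻¹) ⁻¹' {μ : ℂ | M.HasEigenvalue μ}) := by
    refine hfin.preimage ?_
    intro a _ b _ hab
    simpa using hab
  refine hfin2.subset ?_
  intro z hz
  simp only [Set.mem_ofPred_eq] at hz
  by_contra hne
  simp only [Set.mem_preimage, Set.mem_ofPred_eq] at hne
  apply absurd hz
  rw [not_lt]
  by_cases hz0 : z = 0
  · rw [hz0, zero_smul, add_zero]
  -- (A + zB) injective on C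
  have hbot : LinearMap.ker (A + z • B) ⊓ C = ⊥ := by
    rw [Submodule.eq_bot_iff]
    rintro w ⟨hw1, hw2⟩
    by_contra hw0
    apply hne
    have hg' : g (A w) = ⟨w, hw2⟩ := by
      have := LinearMap.congr_fun hg ⟨w, hw2⟩
      simpa using this
    have h3 : A w + z • B w = 0 := by simpa using hw1
    have h4 : (⟨w, hw2⟩ : C) + z • M ⟨w, hw2⟩ = 0 := by
      have h5 : g (A w + z • B w) = 0 := by rw [h3, map_zero]
      rw [map_add, map_smul, hg'] at h5
      exact h5
    refine Module.End.hasEigenvalue_of_hasEigenvector (x := ⟨w, hw2⟩) ⟨?_, ?_⟩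
    · rw [Module.End.mem_eigenspace_iff]
      have h6 : z • M ⟨w, hw2⟩ = -(⟨w, hw2⟩ : C) := by
        rw [eq_neg_iff_add_eq_zero, add_comm]; exact h4
      calc M ⟨w, hw2⟩ = z⁻¹ • (z • M ⟨w, hw2⟩) := by rw [smul_smul, inv_mul_cancel₀ hz0, one_smul]
        _ = (-z⁻¹) • (⟨w, hw2⟩ : C) := by rw [h6, smul_neg, neg_smul]
    · intro h; exact hw0 (by simpa using congrArg Subtype.val h)
  have hsum : finrank ℂ (LinearMap.ker (A + z • B)) + finrank ℂ C ≤ finrank ℂ W := by
    have := Submodule.finrank_sup_add_finrank_inf_eq (LinearMap.ker (A + z • B)) C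
    rw [hbot, finrank_bot] at this
    have h7 := Submodule.finrank_le (LinearMap.ker (A + z • B) ⊔ C)
    omega
  have hsum2 : finrank ℂ (LinearMap.ker A) + finrank ℂ C = finrank ℂ W :=
    Submodule.finrank_add_eq_of_isCompl hC
  omega

/-- Finitely many linear families of linear maps, each having small kernel at some parameter, all have small
kernel at a common parameter. -/
theorem combine {P : Type} [AddCommGroup P] [Module ℂ P] {ι : Type} [Finite ι]
    (W W' : ι → Type) [∀ i, AddCommGroup (W i)] [∀ i, Module ℂ (W i)] [∀ i, FiniteDimensional ℂ (W i)]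
    [∀ i, AddCommGroup (W' i)] [∀ i, Module ℂ (W' i)]
    (L : ∀ i, P →ₗ[ℂ] (W i →ₗ[ℂ] W' i)) (k : ι → ℕ)
    (h : ∀ i, ∃ D, finrank ℂ (LinearMap.ker (L i D)) ≤ k i) :
    ∃ D, ∀ i, finrank ℂ (LinearMap.ker (L i D)) ≤ k i := by
  classical
  cases nonempty_fintype ι
  suffices H : ∀ s : Finset ι, ∃ D, ∀ i ∈ s, finrank ℂ (LinearMap.ker (L i D)) ≤ k i by
    obtain ⟨D, hD⟩ := H Finset.univ
    exact ⟨D, fun i => hD i (Finset.mem_univ i)⟩
  intro s
  induction s using Finset.induction_on with
  | empty => exact ⟨0, by simp⟩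
  | insert j s hj ih =>
    obtain ⟨D1, hD1⟩ := ih
    obtain ⟨D2, hD2⟩ := h j
    have hS1 : Set.Finite (⋃ i ∈ s, {z : ℂ | finrank ℂ (LinearMap.ker (L i D1)) <
        finrank ℂ (LinearMap.ker (L i D1 + z • L i (D2 - D1)))}) :=
      Set.Finite.biUnion s.finite_toSet fun i _ => pencil _ _
    have hS2 : Set.Finite ((fun z : ℂ => 1 - z) ⁻¹' {z : ℂ | finrank ℂ (LinearMap.ker (L j D2)) <
        finrank ℂ (LinearMap.ker (L j D2 + z • L j (D1 - D2)))}) := by
      refine (pencil _ _).preimage ?_
      intro a _ b _ hab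
      simpa using hab
    obtain ⟨z, hz⟩ := (hS1.union hS2).infinite_compl.nonempty
    simp only [Set.mem_compl_iff, Set.mem_union, Set.mem_iUnion, Set.mem_ofPred_eq, Set.mem_preimage,
      not_or, not_exists, not_lt] at hz
    refine ⟨D1 + z • (D2 - D1), ?_⟩
    intro i hi
    rw [Finset.mem_insert] at hi
    rcases hi with rfl | hi
    · have h1 := hz.2
      have h2 : L i (D1 + z • (D2 - D1)) = L i D2 + (1 - z) • L i (D1 - D2) := by
        rw [← map_smul, ← map_add]
        congr 1
        module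
      rw [h2]
      exact h1.trans hD2
    · have h1 := hz.1 i hi
      have h2 : L i (D1 + z • (D2 - D1)) = L i D1 + z • L i (D2 - D1) := by
        rw [map_add, map_smul]
      rw [h2]
      exact h1.trans (hD1 i hi)

end Pool.Agent.DihLaman.J411
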