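import Pool.Agent.Helper927.DLDefs
set_option autoImplicit false
set_option maxHeartbeats 4000000
open Module Submodule

namespace Pool.Agent.DihLaman.J419
open Pool.Agent.DihLaman

theorem orth_eqs (A : Matrix (Fin 2) (Fin 2) ℝ) (hA : A ∈ Matrix.orthogonalGroup (Fin 2) ℝ) :
    A 0 0 ^ 2 + A 0 1 ^ 2 = 1 ∧ A 1 0 ^ 2 + A 1 1 ^ 2 = 1 ∧ A 0 0 * A 1 0 + A 0 1 * A 1 1 = 0 := by
  rw [Matrix.mem_orthogonalGroup_iff] at hA
  have h00 := congrFun (congrFun hA 0) 0
  have h11 := congrFun (congrFun hA 1) 1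
  have h01 := congrFun (congrFun hA 0) 1
  simp [Matrix.mul_apply, Fin.sum_univ_two, Matrix.star_apply] at h00 h11 h01
  refine ⟨by nlinarith, by nlinarith, by nlinarith⟩

theorem orth_det (A : Matrix (Fin 2) (Fin 2) ℝ) (hA : A ∈ Matrix.orthogonalGroup (Fin 2) ℝ) :
    A.det = 1 ∨ A.det = -1 := by
  obtain ⟨h1, h2, h3⟩ := orth_eqs A hA
  have h4 : A.det ^ 2 = 1 := by
    rw [Matrix.det_fin_two]
    have : (A 0 0 * A 1 1 - A 0 1 * A 1 0) ^ 2 =
      (A 0 0 ^ 2 + A 0 1 ^ 2) * (A 1 0 ^ 2 + A 1 1 ^ 2) - (A 0 0 * A 1 0 + A 0 1 * A 1 1) ^ 2 := by ring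
    rw [this, h1, h2, h3]; norm_num
  exact sq_eq_one_iff_of_ne_zero_or h4
where
  sq_eq_one_iff_of_ne_zero_or {x : ℝ} (h : x ^ 2 = 1) : x = 1 ∨ x = -1 := by
    have : (x - 1) * (x + 1) = 0 := by ring_nf; linarith
    rcases mul_eq_zero.1 this with h | h
    · left; linarith
    · right; linarith

theorem orth_rot (A : Matrix (Fin 2) (Fin 2) ℝ) (hA : A ∈ Matrix.orthogonalGroup (Fin 2) ℝ)
    (hd : A.det = 1) : A 1 1 = A 0 0 ∧ A 0 1 = -A 1 0 ∧ A 0 0 ^ 2 + A 1 0 ^ 2 = 1 := by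
  obtain ⟨h1, h2, h3⟩ := orth_eqs A hA
  rw [Matrix.det_fin_two] at hd
  have h4 : (A 0 0 - A 1 1) ^ 2 + (A 0 1 + A 1 0) ^ 2 = 0 := by nlinarith
  have h5 : A 0 0 - A 1 1 = 0 := by nlinarith [sq_nonneg (A 0 0 - A 1 1), sq_nonneg (A 0 1 + A 1 0)]
  have h6 : A 0 1 + A 1 0 = 0 := by nlinarith [sq_nonneg (A 0 0 - A 1 1), sq_nonneg (A 0 1 + A 1 0)]
  have h7 : A 1 1 = A 0 0 := by linarith
  have h8 : A 0 1 = -A 1 0 := by linarith
  refine ⟨h7, h8, ?_⟩
  rw [h8] at h1; nlinarith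

theorem orth_refl (A : Matrix (Fin 2) (Fin 2) ℝ) (hA : A ∈ Matrix.orthogonalGroup (Fin 2) ℝ)
    (hd : A.det = -1) : A 1 1 = -A 0 0 ∧ A 0 1 = A 1 0 ∧ A 0 0 ^ 2 + A 1 0 ^ 2 = 1 := by
  obtain ⟨h1, h2, h3⟩ := orth_eqs A hA
  rw [Matrix.det_fin_two] at hd
  have h4 : (A 0 0 + A 1 1) ^ 2 + (A 0 1 - A 1 0) ^ 2 = 0 := by nlinarith
  have h5 : A 0 0 + A 1 1 = 0 := by nlinarith [sq_nonneg (A 0 0 + A 1 1), sq_nonneg (A 0 1 - A 1 0)]
  have h6 : A 0 1 - A 1 0 = 0 := by nlinarith [sq_nonneg (A 0 0 + A 1 1), sq_nonneg (A 0 1 - A 1 0)]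
  have h7 : A 1 1 = -A 0 0 := by linarith
  have h8 : A 0 1 = A 1 0 := by linarith
  refine ⟨h7, h8, ?_⟩
  rw [h8] at h1; nlinarith

/-- A group of order 4 or 6 acting faithfully on the plane by orthogonal maps, not all of determinant one, is
the dihedral group generated by a rotation r of order n = 2 or 3 and a reflection s. The last conclusions describe
the action in the complex coordinate x 0 + x 1 i. -/
theorem extract (Γ : Type) [Group Γ] [Fintype Γ] (τ : Γ →* Matrix.orthogonalGroup (Fin 2) ℝ)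
    (hinj : Function.Injective τ) (hcard : Fintype.card Γ = 4 ∨ Fintype.card Γ = 6)
    (hrefl : ∃ γ : Γ, ((τ γ).1).det = -1) :
    ∃ (n : ℕ) (r s : Γ) (ζ e : ℂ), (n = 2 ∨ n = 3) ∧ Fintype.card Γ = 2 * n ∧ r ^ n = 1 ∧ r ≠ 1 ∧
      s * s = 1 ∧ s * r * s = r⁻¹ ∧ (∀ k : ℕ, s ≠ r ^ k) ∧
      (∀ g : Γ, ∃ k : ℕ, k < n ∧ (g = r ^ k ∨ g = r ^ k * s)) ∧
      ζ ^ n = 1 ∧ ζ ≠ 1 ∧ e * (starRingEnd ℂ) e = 1 ∧
      (∀ x : Fin 2 → ℝ, ((Matrix.mulVec (τ r).1 x 0 : ℝ) : ℂ) + ((Matrix.mulVec (τ r).1 x 1 : ℝ) : ℂ) * Complex.I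
        = ζ * ((x 0 : ℂ) + (x 1 : ℂ) * Complex.I)) ∧
      (∀ x : Fin 2 → ℝ, ((Matrix.mulVec (τ s).1 x 0 : ℝ) : ℂ) + ((Matrix.mulVec (τ s).1 x 1 : ℝ) : ℂ) * Complex.I
        = e * (starRingEnd ℂ) ((x 0 : ℂ) + (x 1 : ℂ) * Complex.I)) ∧
      (∀ k : ℕ, 0 < k → k < n → ((τ (r ^ k)).1).det = 1 ∧
        Matrix.trace (τ (r ^ k)).1 = (if n = 2 then (-2 : ℝ) else -1)) ∧
      (∀ k : ℕ, ((τ (r ^ k * s)).1).det = -1 ∧ Matrix.trace (τ (r ^ k * s)).1 = 0) := by
  classical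
  obtain ⟨s, hs⟩ := hrefl
  have hmulv : ∀ a b : Γ, (τ (a * b)).1 = (τ a).1 * (τ b).1 := fun a b => by rw [map_mul]; rfl
  have hDmul : ∀ a b : Γ, ((τ (a * b)).1).det = ((τ a).1).det * ((τ b).1).det := fun a b => by
    rw [hmulv, Matrix.det_mul]
  have hone : (τ (1 : Γ)).1 = 1 := by rw [map_one]; rfl
  have hD1 : ((τ (1 : Γ)).1).det = 1 := by rw [hone, Matrix.det_one]
  have hDpm : ∀ g : Γ, ((τ g).1).det = 1 ∨ ((τ g).1).det = -1 := fun g => orth_det _ (τ g).2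
  -- the rotation subgroup
  let N : Subgroup Γ :=
    { carrier := {g | ((τ g).1).det = 1}
      mul_mem' := by
        intro a b ha hb
        simp only [Set.mem_ofPred_eq] at *
        rw [hDmul, ha, hb, one_mul]
      one_mem' := hD1
      inv_mem' := by
        intro a ha
        simp only [Set.mem_ofPred_eq] at *
        have h := hDmul a a⁻¹
        rw [mul_inv_cancel, hD1, ha, one_mul] at h
        exact h.symm }
  have hN : ∀ g, g ∈ N ↔ ((τ g).1).det = 1 := fun g => Iff.rfl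
  have hidx : N.index = 2 := by
    rw [Subgroup.index_eq_two_iff]
    refine ⟨s, fun b => ?_⟩
    rw [hN, hN, hDmul, hs]
    rcases hDpm b with h | h
    · right; rw [h]; exact ⟨rfl, by norm_num⟩
    · left; rw [h]; exact ⟨by norm_num, by norm_num⟩
  have hcN : Nat.card N * 2 = Fintype.card Γ := by
    have := N.card_mul_index
    rw [hidx, Nat.card_eq_fintype_card (α := Γ)] at this
    exact this
  obtain ⟨n, hn, hnN⟩ : ∃ n : ℕ, (n = 2 ∨ n = 3) ∧ Nat.card N = n := by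
    rcases hcard with h | h
    · exact ⟨2, Or.inl rfl, by omega⟩
    · exact ⟨3, Or.inr rfl, by omega⟩
  have hnp : n.Prime := by
    rcases hn with rfl | rfl
    · exact Nat.prime_two
    · exact Nat.prime_three
  haveI : Fact n.Prime := ⟨hnp⟩
  have hnt : Nontrivial N := by
    rw [← Finite.one_lt_card_iff_nontrivial, hnN]
    exact hnp.one_lt
  obtain ⟨r', hr'⟩ := exists_ne (1 : N)
  have hr'n : r' ^ n = 1 := by rw [← hnN]; exact pow_card_eq_one'
  have hord : orderOf r' = n := orderOf_eq_prime hr'n hr'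
  set r : Γ := (r' : Γ) with hr_def
  have hDr : ((τ r).1).det = 1 := r'.2
  have hr1 : r ≠ 1 := fun h => hr' (Subtype.ext h)
  have hrn : r ^ n = 1 := by
    have := congrArg Subtype.val hr'n
    simpa using this
  have hDrk : ∀ k : ℕ, ((τ (r ^ k)).1).det = 1 := by
    intro k
    induction k with
    | zero => rw [pow_zero]; exact hD1
    | succ k ih => rw [pow_succ, hDmul, ih, hDr, one_mul]
  have hrk1 : ∀ k : ℕ, 0 < k → k < n → r ^ k ≠ 1 := by
    intro k h0 hk h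
    have h' : r' ^ k = 1 := Subtype.ext (by simpa using h)
    exact pow_ne_one_of_lt_orderOf h0.ne' (by rw [hord]; exact hk) h'
  have hmemN : ∀ g, ((τ g).1).det = 1 → ∃ k : ℕ, k < n ∧ g = r ^ k := by
    intro g hg
    obtain ⟨k, hk⟩ := mem_powers_of_prime_card hnN hr' (g' := (⟨g, hg⟩ : N))
    have hk' : r ^ k = g := by
      have := congrArg Subtype.val hk
      simpa using this
    refine ⟨k % n, Nat.mod_lt _ hnp.pos, ?_⟩
    rw [← hk']
    conv_lhs => rw [← Nat.div_add_mod k n, pow_add, pow_mul, hrn, one_pow, one_mul]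
  -- reflections are involutions
  have hinv : ∀ g : Γ, ((τ g).1).det = -1 → g * g = 1 := by
    intro g hg
    apply hinj
    apply Subtype.ext
    rw [hmulv, hone]
    obtain ⟨h1, h2, h3⟩ := orth_refl _ (τ g).2 hg
    ext i j
    fin_cases i <;> fin_cases j <;> simp [Matrix.mul_apply, Fin.sum_univ_two, h1, h2] <;> nlinarith
  have hss : s * s = 1 := hinv s hs
  have hDsr : ((τ (s * r)).1).det = -1 := by rw [hDmul, hs, hDr, mul_one]
  have hsrs : s * r * s = r⁻¹ := by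
    have h := hinv (s * r) hDsr
    have h' : (s * r * s) * r = 1 := by rw [← h]; group
    exact eq_inv_of_mul_eq_one_left h'
  -- the complex coordinate
  let Z : Γ → ℂ := fun g => (((τ g).1 0 0 : ℝ) : ℂ) + (((τ g).1 1 0 : ℝ) : ℂ) * Complex.I
  have hZre : ∀ g, (Z g).re = (τ g).1 0 0 := fun g => by simp [Z]
  have hZim : ∀ g, (Z g).im = (τ g).1 1 0 := fun g => by simp [Z]
  have hZmul : ∀ a b : Γ, ((τ a).1).det = 1 → Z (a * b) = Z a * Z b := by
    intro a b ha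
    obtain ⟨h1, h2, -⟩ := orth_rot _ (τ a).2 ha
    apply Complex.ext
    · rw [Complex.mul_re, hZre, hZre, hZre, hZim, hZim, hmulv, Matrix.mul_apply, Fin.sum_univ_two, h2]
      ring
    · rw [Complex.mul_im, hZim, hZre, hZre, hZim, hZim, hmulv, Matrix.mul_apply, Fin.sum_univ_two, h1]
      ring
  have hZ1 : Z 1 = 1 := by
    apply Complex.ext
    · rw [hZre, hone]; simp
    · rw [hZim, hone]; simp
  have hZne : ∀ g : Γ, ((τ g).1).det = 1 → g ≠ 1 → Z g ≠ 1 := by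
    intro g hg hg1 h
    apply hg1
    apply hinj
    apply Subtype.ext
    rw [hone]
    obtain ⟨h1, h2, -⟩ := orth_rot _ (τ g).2 hg
    have hr0 : (τ g).1 0 0 = 1 := by rw [← hZre, h]; simp
    have hi0 : (τ g).1 1 0 = 0 := by rw [← hZim, h]; simp
    ext i j
    fin_cases i <;> fin_cases j <;> simp [h1, h2, hr0, hi0]
  have hZpow : ∀ (g : Γ) (m : ℕ), ((τ g).1).det = 1 → Z (g ^ m) = Z g ^ m ∧ ((τ (g ^ m)).1).det = 1 := by
    intro g m hg
    induction m with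
    | zero => rw [pow_zero, pow_zero]; exact ⟨hZ1, hD1⟩
    | succ m ih =>
      rw [pow_succ, pow_succ]
      exact ⟨by rw [hZmul _ _ ih.2, ih.1], by rw [hDmul, ih.2, hg, one_mul]⟩
  have hZnorm : ∀ g : Γ, (τ g).1 0 0 ^ 2 + (τ g).1 1 0 ^ 2 = 1 := by
    intro g
    rcases hDpm g with h | h
    · exact (orth_rot _ (τ g).2 h).2.2
    · exact (orth_refl _ (τ g).2 h).2.2
  have htrace : ∀ k : ℕ, 0 < k → k < n → Matrix.trace (τ (r ^ k)).1 = (if n = 2 then (-2 : ℝ) else -1) := by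
    intro k h0 hk
    have hdet := hDrk k
    obtain ⟨h1, h2, h3⟩ := orth_rot _ (τ (r ^ k)).2 hdet
    have hne := hZne _ hdet (hrk1 k h0 hk)
    have hpow : Z (r ^ k) ^ n = 1 := by
      rw [← (hZpow (r ^ k) n hdet).1, ← pow_mul, mul_comm, pow_mul, hrn, one_pow, hZ1]
    rw [Matrix.trace_fin_two, h1, ← hZre]
    set w := Z (r ^ k) with hw
    rcases hn with rfl | rfl
    · have : (w - 1) * (w + 1) = 0 := by linear_combination hpow
      rcases mul_eq_zero.1 this with h | h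
      · exact absurd (sub_eq_zero.1 h) hne
      · have : w = -1 := eq_neg_of_add_eq_zero_left h
        rw [this]; norm_num
    · have : (w - 1) * (w ^ 2 + w + 1) = 0 := by linear_combination hpow
      rcases mul_eq_zero.1 this with h | h
      · exact absurd (sub_eq_zero.1 h) hne
      · have hre := congrArg Complex.re h
        have him := congrArg Complex.im h
        simp [pow_two, Complex.mul_re, Complex.mul_im] at hre him
        have hf : w.im * (2 * w.re + 1) = 0 := by linarith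
        rcases mul_eq_zero.1 hf with h0' | h0'
        · rw [h0'] at hre
          nlinarith [sq_nonneg (w.re + 1 / 2)]
        · rw [if_neg (by norm_num)]; linarith
  refine ⟨n, r, s, Z r, Z s, hn, by omega, hrn, hr1, hss, hsrs, ?_, ?_, ?_, ?_, ?_, ?_, ?_, ?_, ?_⟩
  · intro k h
    have := hDrk k
    rw [← h, hs] at this
    norm_num at this
  · intro g
    rcases hDpm g with h | h
    · obtain ⟨k, hk, hg⟩ := hmemN g h
      exact ⟨k, hk, Or.inl hg⟩
    · have h' : ((τ (g * s)).1).det = 1 := by rw [hDmul, h, hs]; norm_num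
      obtain ⟨k, hk, hg⟩ := hmemN (g * s) h'
      refine ⟨k, hk, Or.inr ?_⟩
      rw [← hg, mul_assoc, hss, mul_one]
  · rw [← (hZpow r n hDr).1, hrn, hZ1]
  · exact hZne r hDr hr1
  · rw [Complex.mul_conj]
    have : Complex.normSq (Z s) = 1 := by
      rw [Complex.normSq_apply, hZre, hZim]
      have := hZnorm s
      nlinarith
    rw [this]; norm_num
  · intro x
    obtain ⟨h1, h2, -⟩ := orth_rot _ (τ r).2 hDr
    simp only [Matrix.mulVec, dotProduct, Fin.sum_univ_two, h1, h2, Z]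
    push_cast
    linear_combination (-((τ r).1 1 0 : ℂ) * (x 1 : ℂ)) * Complex.I_sq
  · intro x
    obtain ⟨h1, h2, -⟩ := orth_refl _ (τ s).2 hs
    simp only [Matrix.mulVec, dotProduct, Fin.sum_univ_two, h1, h2, Z, map_add, map_mul, Complex.conj_ofReal,
      Complex.conj_I]
    push_cast
    linear_combination (((τ s).1 1 0 : ℂ) * (x 1 : ℂ)) * Complex.I_sq
  · intro k h0 hk
    exact ⟨hDrk k, htrace k h0 hk⟩
  · intro k
    have hdet : ((τ (r ^ k * s)).1).det = -1 := by rw [hDmul, hDrk k, hs, one_mul]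
    refine ⟨hdet, ?_⟩
    obtain ⟨h1, -, -⟩ := orth_refl _ (τ (r ^ k * s)).2 hdet
    rw [Matrix.trace_fin_two, h1]; ring

end Pool.Agent.DihLaman.J419
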