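import Pool.Agent.Helper927.DLDefs
import Pool.Agent.Helper927.DL411
set_option autoImplicit false
set_option maxHeartbeats 4000000
open Module Submodule

namespace Pool.Agent.DihLaman.J434
open Pool.Agent.DihLaman
open Pool.Agent.DihLaman.J411 (pencil)

/-- The generalized rigidity map as a linear map. -/
def Lmap {V : Type} (G : SimpleGraph V) [DecidableRel G.Adj] (S : V → V) (y : V → ℂ) :
    ((V → ℂ) × (V → ℂ)) →ₗ[ℂ] (V × V → ℂ) where
  toFun x := fun ab => if G.Adj ab.1 ab.2 then
    (y (S ab.1) - y (S ab.2)) * (x.1 ab.1 - x.1 ab.2) + (y ab.1 - y ab.2) * (x.2 ab.1 - x.2 ab.2)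
    else 0
  map_add' := by
    intro x x'
    funext ab
    simp only [Prod.fst_add, Prod.snd_add, Pi.add_apply]
    split_ifs
    · ring
    · simp
  map_smul' := by
    intro c x
    funext ab
    simp only [Prod.smul_fst, Prod.smul_snd, Pi.smul_apply, smul_eq_mul, RingHom.id_apply]
    split_ifs
    · ring
    · simp

theorem ker_Lmap {V : Type} (G : SimpleGraph V) [DecidableRel G.Adj] (S : V → V) (y : V → ℂ) :
    LinearMap.ker (Lmap G S y) = KerM G (fun a b => y (S a) - y (S b)) (fun a b => y a - y b) := by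
  ext x
  rw [LinearMap.mem_ker]
  constructor
  · intro h a b hab
    have := congrFun h (a, b)
    simp only [Lmap, LinearMap.coe_mk, AddHom.coe_mk, Pi.zero_apply, if_pos hab] at this
    exact this
  · intro h
    funext ab
    simp only [Lmap, LinearMap.coe_mk, AddHom.coe_mk, Pi.zero_apply]
    split_ifs with hab
    · exact h ab.1 ab.2 hab
    · rfl

theorem Lmap_add_smul {V : Type} (G : SimpleGraph V) [DecidableRel G.Adj] (S : V → V) (y y' : V → ℂ)
    (w : ℂ) : Lmap G S (fun v => y v + w * y' v) = Lmap G S y + w • Lmap G S y' := by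
  ext x ab
  · simp only [Lmap, LinearMap.coe_comp, LinearMap.coe_inl, Function.comp_apply, LinearMap.coe_mk,
      AddHom.coe_mk, LinearMap.add_apply, LinearMap.smul_apply, Pi.add_apply, Pi.smul_apply,
      smul_eq_mul]
    split_ifs
    · ring
    · simp
  · simp only [Lmap, LinearMap.coe_comp, LinearMap.coe_inr, Function.comp_apply, LinearMap.coe_mk,
      AddHom.coe_mk, LinearMap.add_apply, LinearMap.smul_apply, Pi.add_apply, Pi.smul_apply,
      smul_eq_mul]
    split_ifs
    · ring
    · simp

/-- choice of a real parameter -/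
theorem exists_real {V : Type} [Fintype V] (G : SimpleGraph V) [DecidableRel G.Adj] (S : V → V)
    (z1 z2 z : V → ℂ) (hz : ∀ v, z v = z1 v + Complex.I * z2 v)
    (hk : finrank ℂ (LinearMap.ker (Lmap G S z)) ≤ 3) :
    ∃ w : ℝ, finrank ℂ (LinearMap.ker (Lmap G S (fun v => z1 v + (w : ℂ) * z2 v))) ≤ 3 := by
  have hfin := pencil (Lmap G S z) (Lmap G S z2)
  have hinj : Function.Injective (fun w : ℝ => (w : ℂ) - Complex.I) := by
    intro a b hab
    simp only at hab
    have : (a : ℂ) = b := by linear_combination hab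
    exact_mod_cast this
  have hfin2 := hfin.preimage (f := fun w : ℝ => (w : ℂ) - Complex.I) hinj.injOn
  obtain ⟨w, hw⟩ := hfin2.exists_notMem
  refine ⟨w, ?_⟩
  have h1 : Lmap G S (fun v => z1 v + (w : ℂ) * z2 v) = Lmap G S z + ((w : ℂ) - Complex.I) • Lmap G S z2 := by
    rw [← Lmap_add_smul]
    congr 1
    funext v
    rw [hz v]; ring
  rw [h1]
  have h2 : ¬ (finrank ℂ (LinearMap.ker (Lmap G S z)) <
      finrank ℂ (LinearMap.ker (Lmap G S z + ((w : ℂ) - Complex.I) • Lmap G S z2))) := hw
  omega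

/-- the rigidity matrix -/
def Rig {V : Type} [DecidableEq V] (G : SimpleGraph V) [DecidableRel G.Adj] (q : V → Fin 2 → ℝ) :
    Matrix (V × V) (V × Fin 2) ℝ :=
  Matrix.of (fun (e : V × V) (c : V × Fin 2) =>
              if G.Adj e.1 e.2 then
                (if c.1 = e.1 then q e.1 c.2 - q e.2 c.2
                 else if c.1 = e.2 then q e.2 c.2 - q e.1 c.2 else 0)
              else 0)

theorem Rig_mulVec {V : Type} [Fintype V] [DecidableEq V] (G : SimpleGraph V) [DecidableRel G.Adj]
    (q : V → Fin 2 → ℝ) (m : V × Fin 2 → ℝ) (a b : V) (hab : G.Adj a b) :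
    (Rig G q).mulVec m (a, b) = (q a 0 - q b 0) * (m (a, 0) - m (b, 0)) +
      (q a 1 - q b 1) * (m (a, 1) - m (b, 1)) := by
  have hne : a ≠ b := hab.ne
  unfold Matrix.mulVec dotProduct
  rw [Fintype.sum_prod_type]
  have h1 : ∀ x : V, (∑ y : Fin 2, Rig G q (a, b) (x, y) * m (x, y)) =
      (if x = a then ((q a 0 - q b 0) * m (a, 0) + (q a 1 - q b 1) * m (a, 1)) else 0) +
      (if x = b then ((q b 0 - q a 0) * m (b, 0) + (q b 1 - q a 1) * m (b, 1)) else 0) := by
    intro x
    simp only [Rig, Matrix.of_apply, if_pos hab, Fin.sum_univ_two]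
    by_cases hx : x = a
    · subst hx
      simp [hne]
    · by_cases hx' : x = b
      · subst hx'
        simp [hx]
      · simp [hx, hx']
  rw [Finset.sum_congr rfl (fun x _ => h1 x), Finset.sum_add_distrib, Finset.sum_ite_eq',
    Finset.sum_ite_eq']
  simp only [Finset.mem_univ, if_true]
  ring

/-- the rank bound -/
theorem rank_bound {V : Type} [Fintype V] [DecidableEq V] (G : SimpleGraph V) [DecidableRel G.Adj]
    (S : V → V) (e : ℂ) (he : e * (starRingEnd ℂ) e = 1) (p : V → ℂ)
    (hp : ∀ v, p (S v) = e * (starRingEnd ℂ) (p v))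
    (hk : finrank ℂ (KerM G (fun a b => p (S a) - p (S b)) (fun a b => p a - p b)) ≤ 3) :
    2 * Fintype.card V ≤ (Rig G (fun v => ![(p v).re, (p v).im])).rank + 3 := by
  have he0 : e ≠ 0 := by
    rintro rfl
    simp at he
  set q : V → Fin 2 → ℝ := fun v => ![(p v).re, (p v).im] with hq
  set M := Rig G q with hM
  have hrn := LinearMap.finrank_range_add_finrank_ker M.mulVecLin
  have hcard : finrank ℝ (V × Fin 2 → ℝ) = 2 * Fintype.card V := by
    rw [Module.finrank_fintype_fun_eq_card, Fintype.card_prod, Fintype.card_fin, mul_comm]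
  rw [hcard] at hrn
  have hrank : M.rank = finrank ℝ (LinearMap.range M.mulVecLin) := rfl
  have hker : finrank ℝ (LinearMap.ker M.mulVecLin) ≤ 3 := by
    refine le_trans ?_ hk
    let bas := Module.finBasis ℝ (LinearMap.ker M.mulVecLin)
    let mv : Fin (finrank ℝ (LinearMap.ker M.mulVecLin)) → (V × Fin 2 → ℝ) := fun j => (bas j : V × Fin 2 → ℝ)
    let μ : Fin (finrank ℝ (LinearMap.ker M.mulVecLin)) → V → ℂ :=
      fun j v => (mv j (v, 0) : ℂ) + (mv j (v, 1) : ℂ) * Complex.I
    have hmem : ∀ j, ((fun v => e⁻¹ * μ j v, fun v => (starRingEnd ℂ) (μ j v)) : (V → ℂ) × (V → ℂ)) ∈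
        KerM G (fun a b => p (S a) - p (S b)) (fun a b => p a - p b) := by
      intro j a b hab
      have h1 : M.mulVec (mv j) = 0 := by
        have := (bas j).2
        rw [LinearMap.mem_ker, Matrix.mulVecLin_apply] at this
        exact this
      have h2 := congrFun h1 (a, b)
      rw [hM, Rig_mulVec G q (mv j) a b hab] at h2
      simp only [hq, Matrix.cons_val_zero, Matrix.cons_val_one, Pi.zero_apply] at h2
      show (p (S a) - p (S b)) * (e⁻¹ * μ j a - e⁻¹ * μ j b) +
        (p a - p b) * ((starRingEnd ℂ) (μ j a) - (starRingEnd ℂ) (μ j b)) = 0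
      rw [hp a, hp b]
      have h3 : (e * (starRingEnd ℂ) (p a) - e * (starRingEnd ℂ) (p b)) * (e⁻¹ * μ j a - e⁻¹ * μ j b)
          = ((starRingEnd ℂ) (p a) - (starRingEnd ℂ) (p b)) * (μ j a - μ j b) := by
        field_simp
      rw [h3]
      apply Complex.ext
      · simp [μ]
        linear_combination 2 * h2
      · simp [μ]
        ring
    have hli : LinearIndependent ℂ (fun j => (⟨_, hmem j⟩ :
        KerM G (fun a b => p (S a) - p (S b)) (fun a b => p a - p b))) := by
      rw [Fintype.linearIndependent_iff]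
      intro c hc
      have hc' := congrArg Subtype.val hc
      rw [AddSubmonoidClass.coe_finsetSum] at hc'
      have hA : ∀ v, ∑ j, c j * μ j v = 0 := by
        intro v
        have h1 := congrFun (congrArg Prod.fst hc') v
        rw [Prod.fst_sum, Finset.sum_apply] at h1
        simp only [Submodule.coe_smul, Prod.smul_fst, Pi.smul_apply, smul_eq_mul,
          ZeroMemClass.coe_zero, Prod.fst_zero, Pi.zero_apply] at h1
        have h2 : e * ∑ j, c j * (e⁻¹ * μ j v) = ∑ j, c j * μ j v := by
          rw [Finset.mul_sum]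
          apply Finset.sum_congr rfl
          intro j _
          field_simp
        rw [← h2, h1, mul_zero]
      have hB : ∀ v, ∑ j, (starRingEnd ℂ) (c j) * μ j v = 0 := by
        intro v
        have h1 := congrFun (congrArg Prod.snd hc') v
        rw [Prod.snd_sum, Finset.sum_apply] at h1
        simp only [Submodule.coe_smul, Prod.smul_snd, Pi.smul_apply, smul_eq_mul,
          ZeroMemClass.coe_zero, Prod.snd_zero, Pi.zero_apply] at h1
        have h2 := congrArg (starRingEnd ℂ) h1
        rw [map_sum, map_zero] at h2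
        rw [← h2]
        apply Finset.sum_congr rfl
        intro j _
        rw [map_mul, Complex.conj_conj]
      have hreal : ∀ d : Fin (finrank ℝ (LinearMap.ker M.mulVecLin)) → ℝ,
          (∀ v, ∑ j, (d j : ℂ) * μ j v = 0) → ∀ j, d j = 0 := by
        intro d hd
        have hb := bas.linearIndependent
        rw [Fintype.linearIndependent_iff] at hb
        apply hb d
        apply Subtype.ext
        rw [AddSubmonoidClass.coe_finsetSum]
        funext vc
        obtain ⟨v, cc⟩ := vc
        rw [Finset.sum_apply]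
        simp only [Submodule.coe_smul, Pi.smul_apply, smul_eq_mul, ZeroMemClass.coe_zero,
          Pi.zero_apply]
        have h1 := hd v
        have hre := congrArg Complex.re h1
        have him := congrArg Complex.im h1
        rw [Complex.re_sum] at hre
        rw [Complex.im_sum] at him
        simp [μ] at hre him
        fin_cases cc
        · exact hre
        · exact him
      have hRe := hreal (fun j => (c j).re) (by
        intro v
        have h1 : (2:ℂ) * ∑ j, (((c j).re : ℝ) : ℂ) * μ j v =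
            ∑ j, c j * μ j v + ∑ j, (starRingEnd ℂ) (c j) * μ j v := by
          rw [Finset.mul_sum, ← Finset.sum_add_distrib]
          apply Finset.sum_congr rfl
          intro j _
          have := Complex.add_conj (c j)
          push_cast at this
          linear_combination (-(μ j v)) * this
        rw [hA v, hB v, add_zero] at h1
        exact (mul_eq_zero.mp h1).resolve_left two_ne_zero)
      have hIm := hreal (fun j => (c j).im) (by
        intro v
        have h1 : (2 * Complex.I) * ∑ j, (((c j).im : ℝ) : ℂ) * μ j v =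
            ∑ j, c j * μ j v - ∑ j, (starRingEnd ℂ) (c j) * μ j v := by
          rw [Finset.mul_sum, ← Finset.sum_sub_distrib]
          apply Finset.sum_congr rfl
          intro j _
          have := Complex.sub_conj (c j)
          push_cast at this
          linear_combination (-(μ j v)) * this
        rw [hA v, hB v, sub_zero] at h1
        exact (mul_eq_zero.mp h1).resolve_left (mul_ne_zero two_ne_zero Complex.I_ne_zero))
      intro j
      exact Complex.ext (hRe j) (hIm j)
    have := hli.fintype_card_le_finrank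
    simpa using this
  rw [hrank]
  omega

/-- TARGET. From a complexified symmetric placement z whose kernel is 3-dimensional we get a real symmetric
placement q with rigidity rank at least 2|V| - 3. -/
theorem transfer {V : Type} [Fintype V] [DecidableEq V] (G : SimpleGraph V) [DecidableRel G.Adj]
    {Γ : Type} [Group Γ] [Fintype Γ]
    (θ : Γ →* Equiv.Perm V) (τ : Γ →* Matrix.orthogonalGroup (Fin 2) ℝ)
    (hG : ∀ (γ : Γ) (u v : V), G.Adj u v ↔ G.Adj (θ γ u) (θ γ v))
    (n : ℕ) (hn : 0 < n) (r s : Γ) (ζ e : ℂ)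
    (gen : ∀ g : Γ, ∃ k : ℕ, k < n ∧ (g = r ^ k ∨ g = r ^ k * s))
    (hrn : r ^ n = 1) (hss : s * s = 1) (hsrs : s * r * s = r⁻¹) (hζ : ζ ^ n = 1)
    (he : e * (starRingEnd ℂ) e = 1)
    (hr : ∀ x : Fin 2 → ℝ,
      ((Matrix.mulVec (τ r).1 x 0 : ℝ) : ℂ) + ((Matrix.mulVec (τ r).1 x 1 : ℝ) : ℂ) * Complex.I
        = ζ * ((x 0 : ℂ) + (x 1 : ℂ) * Complex.I))
    (hs : ∀ x : Fin 2 → ℝ,
      ((Matrix.mulVec (τ s).1 x 0 : ℝ) : ℂ) + ((Matrix.mulVec (τ s).1 x 1 : ℝ) : ℂ) * Complex.I
        = e * (starRingEnd ℂ) ((x 0 : ℂ) + (x 1 : ℂ) * Complex.I))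
    (z : V → ℂ) (hz : ∀ v, z (θ r v) = ζ * z v)
    (hk : finrank ℂ (KerM G (fun a b => z (θ s a) - z (θ s b)) (fun a b => z a - z b)) ≤ 3) :
    ∃ q : V → Fin 2 → ℝ, (∀ (γ : Γ) (v : V), q (θ γ v) = Matrix.mulVec (τ γ).1 (q v)) ∧
      2 * Fintype.card V ≤ (Matrix.of (fun (e : V × V) (c : V × Fin 2) =>
              if G.Adj e.1 e.2 then
                (if c.1 = e.1 then q e.1 c.2 - q e.2 c.2
                 else if c.1 = e.2 then q e.2 c.2 - q e.1 c.2 else 0)
              else 0)).rank + 3 := by
  set S : V → V := fun v => θ s v with hS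
  set R : V → V := fun v => θ r v with hR
  have hSS : ∀ v, S (S v) = v := by
    intro v
    have : (θ s * θ s) v = v := by rw [← map_mul, hss, map_one]; rfl
    exact this
  have hnorm : ‖ζ‖ = 1 := by
    have h1 : ‖ζ‖ ^ n = 1 := by rw [← norm_pow, hζ, norm_one]
    exact (pow_eq_one_iff_of_nonneg (norm_nonneg _) hn.ne').mp h1
  have hζ0 : ζ ≠ 0 := by
    intro h; rw [h, norm_zero] at hnorm; exact zero_ne_one hnorm
  have hζc : (starRingEnd ℂ) ζ⁻¹ = ζ := by
    have h1 : ζ * (starRingEnd ℂ) ζ = 1 := by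
      rw [Complex.mul_conj, Complex.normSq_eq_norm_sq, hnorm]; simp
    have h2 : (starRingEnd ℂ) ζ = ζ⁻¹ := eq_inv_of_mul_eq_one_right h1
    rw [map_inv₀, h2, inv_inv]
  have hSR : ∀ v, S (R v) = (θ r)⁻¹ (S v) := by
    intro v
    have h1 : s * r = r⁻¹ * s := by
      have : s * r * s * s = r⁻¹ * s := by rw [hsrs]
      rw [mul_assoc, hss, mul_one] at this
      exact this
    have h2 : (θ s * θ r) v = ((θ r)⁻¹ * θ s) v := by
      rw [← map_mul, h1, map_mul, map_inv]
    exact h2
  have hzinv : ∀ v, z ((θ r)⁻¹ v) = ζ⁻¹ * z v := by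
    intro v
    have h1 := hz ((θ r)⁻¹ v)
    rw [show θ r ((θ r)⁻¹ v) = v from (θ r).apply_symm_apply v] at h1
    rw [h1]
    field_simp
  set z1 : V → ℂ := fun v => (z v + e * (starRingEnd ℂ) (z (S v))) / 2 with hz1
  set z2 : V → ℂ := fun v => (z v - e * (starRingEnd ℂ) (z (S v))) / (2 * Complex.I) with hz2
  have hI := Complex.I_ne_zero
  have hII := Complex.I_mul_I
  have hzz : ∀ v, z v = z1 v + Complex.I * z2 v := by
    intro v
    simp only [hz1, hz2]
    field_simp
    ring
  have hk' : finrank ℂ (LinearMap.ker (Lmap G S z)) ≤ 3 := by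
    rw [ker_Lmap]; exact hk
  obtain ⟨w, hw⟩ := exists_real G S z1 z2 z hzz hk'
  set p : V → ℂ := fun v => z1 v + (w : ℂ) * z2 v with hp
  have hpS : ∀ v, p (S v) = e * (starRingEnd ℂ) (p v) := by
    intro v
    simp only [hp, hz1, hz2, hSS, map_add, map_sub, map_mul, map_div₀, Complex.conj_conj,
      Complex.conj_ofReal, Complex.conj_I, map_ofNat]
    field_simp
    linear_combination (-(Complex.I + w) * z (S v)) * he
  have hpR : ∀ v, p (R v) = ζ * p v := by
    intro v
    have h1 : z (S (R v)) = ζ⁻¹ * z (S v) := by rw [hSR, hzinv]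
    simp only [hp, hz1, hz2]
    rw [h1, map_mul, hζc]
    have h2 : z (R v) = ζ * z v := hz v
    rw [h2]
    ring
  set q : V → Fin 2 → ℝ := fun v => ![(p v).re, (p v).im] with hq
  have hqp : ∀ v, ((q v 0 : ℝ) : ℂ) + ((q v 1 : ℝ) : ℂ) * Complex.I = p v := by
    intro v
    simp only [hq, Matrix.cons_val_zero, Matrix.cons_val_one]
    exact Complex.re_add_im (p v)
  have hcomp : ∀ (v : V) (y : Fin 2 → ℝ), ((y 0 : ℝ) : ℂ) + ((y 1 : ℝ) : ℂ) * Complex.I = p v →
      q v = y := by
    intro v y hy
    have hre := congrArg Complex.re hy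
    have him := congrArg Complex.im hy
    simp at hre him
    funext i
    fin_cases i
    · simp [hq, hre]
    · simp [hq, him]
  have hPr : ∀ v, q (θ r v) = Matrix.mulVec (τ r).1 (q v) := by
    intro v
    apply hcomp
    rw [hr, hqp]
    exact (hpR v).symm
  have hPs : ∀ v, q (θ s v) = Matrix.mulVec (τ s).1 (q v) := by
    intro v
    apply hcomp
    rw [hs, hqp]
    exact (hpS v).symm
  have hmul : ∀ γ δ : Γ, (∀ v, q (θ γ v) = Matrix.mulVec (τ γ).1 (q v)) →
      (∀ v, q (θ δ v) = Matrix.mulVec (τ δ).1 (q v)) →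
      ∀ v, q (θ (γ * δ) v) = Matrix.mulVec (τ (γ * δ)).1 (q v) := by
    intro γ δ h1 h2 v
    have e1 : θ (γ * δ) v = θ γ (θ δ v) := by rw [map_mul]; rfl
    have e2 : (τ (γ * δ)).1 = (τ γ).1 * (τ δ).1 := by rw [map_mul]; rfl
    rw [e1, h1, h2, e2, Matrix.mulVec_mulVec]
  have hpow : ∀ k : ℕ, ∀ v, q (θ (r ^ k) v) = Matrix.mulVec (τ (r ^ k)).1 (q v) := by
    intro k
    induction k with
    | zero =>
      intro v
      rw [pow_zero, map_one, map_one]
      show q v = Matrix.mulVec (1 : Matrix (Fin 2) (Fin 2) ℝ) (q v)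
      rw [Matrix.one_mulVec]
    | succ k ih =>
      rw [pow_succ]
      exact hmul _ _ ih hPr
  refine ⟨q, ?_, ?_⟩
  · intro γ
    obtain ⟨k, -, h | h⟩ := gen γ
    · rw [h]; exact hpow k
    · rw [h]; exact hmul _ _ (hpow k) hPs
  · have := rank_bound G S e he p hpS (by rw [← ker_Lmap]; exact hw)
    exact this

end Pool.Agent.DihLaman.J434
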