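import Pool.Agent.Helper927.DLDefs
set_option autoImplicit false
set_option maxHeartbeats 4000000
open Module Submodule

namespace Pool.Agent.DihLaman.J444
open Pool.Agent.DihLaman

section aux

variable {V : Type} [Fintype V] [DecidableEq V] (G : SimpleGraph V) [DecidableRel G.Adj]

/-- u maps to (u, e u ∘ S) -/
def iotaE (S : Equiv.Perm V) (e : ℂ) : (V → ℂ) →ₗ[ℂ] (V → ℂ) × (V → ℂ) where
  toFun u := (u, fun v => e * u (S v))
  map_add' := by
    intro x y
    ext v <;> simp [mul_add]
  map_smul' := by
    intro c x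
    ext v
    · simp
    · simp; ring

/-- (u,w) maps to (w ∘ S, u ∘ S) -/
def swapS (S : Equiv.Perm V) : (V → ℂ) × (V → ℂ) →ₗ[ℂ] (V → ℂ) × (V → ℂ) where
  toFun x := (fun v => x.2 (S v), fun v => x.1 (S v))
  map_add' := by
    intro x y
    ext v <;> simp
  map_smul' := by
    intro c x
    ext v <;> simp

theorem mem_KerM (P Q : V → V → ℂ) (x : (V → ℂ) × (V → ℂ)) :
    x ∈ KerM G P Q ↔ ∀ a b, G.Adj a b → P a b * (x.1 a - x.1 b) + Q a b * (x.2 a - x.2 b) = 0 :=
  Iff.rfl

theorem mem_KerE (R S : V → V) (D : V → V → ℂ) (ε η : ℂ) (u : V → ℂ) :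
    u ∈ KerE G R S D ε η ↔ (∀ v, u (R v) = η * u v) ∧
    ∀ a b, G.Adj a b → D (S a) (S b) * (u a - u b) + ε * D a b * (u (S a) - u (S b)) = 0 :=
  Iff.rfl

theorem mem_KerF (R S : V → V) (D : V → V → ℂ) (ζ : ℂ) (x : (V → ℂ) × (V → ℂ)) :
    x ∈ KerF G R S D ζ ↔ (∀ v, x.1 (R v) = ζ ^ 2 * x.1 v) ∧ (∀ v, x.2 (R v) = x.2 v) ∧
    ∀ a b, G.Adj a b → D (S a) (S b) * (x.1 a - x.1 b) + D a b * (x.2 a - x.2 b) = 0 :=
  Iff.rfl

/-- lower bound for the dimension of the kernel -/
theorem finrank_KerM_ge (P Q : V → V → ℂ)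
    (hP : ∀ a b, P b a = - P a b) (hQ : ∀ a b, Q b a = - Q a b)
    (hcount : (Finset.univ.filter (fun x : V × V => G.Adj x.1 x.2)).card + 6 = 4 * Fintype.card V) :
    3 ≤ finrank ℂ (KerM G P Q) := by
  classical
  have hE : (Finset.univ.filter (fun x : V × V => G.Adj x.1 x.2)).card = 2 * G.edgeFinset.card := by
    rw [← SimpleGraph.sum_degrees_eq_twice_card_edges]
    rw [Finset.card_filter, ← Finset.univ_product_univ, Finset.sum_product]
    refine Finset.sum_congr rfl fun v _ => ?_
    rw [← Finset.card_filter, ← SimpleGraph.card_neighborFinset_eq_degree]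
    congr 1
    ext w
    simp
  let L : ((V → ℂ) × (V → ℂ)) →ₗ[ℂ] (G.edgeFinset → ℂ) :=
    { toFun := fun x e => P (Quot.out e.1).1 (Quot.out e.1).2 * (x.1 (Quot.out e.1).1 - x.1 (Quot.out e.1).2)
        + Q (Quot.out e.1).1 (Quot.out e.1).2 * (x.2 (Quot.out e.1).1 - x.2 (Quot.out e.1).2)
      map_add' := by
        intro x y
        ext e
        simp only [Prod.fst_add, Prod.snd_add, Pi.add_apply]
        ring
      map_smul' := by
        intro c x
        ext e
        simp only [Prod.smul_fst, Prod.smul_snd, Pi.smul_apply, smul_eq_mul, RingHom.id_apply]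
        ring }
  have hker : LinearMap.ker L ≤ KerM G P Q := by
    intro x hx
    rw [mem_KerM]
    intro a b hab
    have hmem : s(a, b) ∈ G.edgeFinset := by
      rw [SimpleGraph.mem_edgeFinset]; exact hab
    have h1 : L x ⟨s(a, b), hmem⟩ = 0 := by
      rw [LinearMap.mem_ker] at hx
      rw [hx]; rfl
    have h2 : P (Quot.out s(a, b)).1 (Quot.out s(a, b)).2 * (x.1 (Quot.out s(a, b)).1 - x.1 (Quot.out s(a, b)).2)
        + Q (Quot.out s(a, b)).1 (Quot.out s(a, b)).2 * (x.2 (Quot.out s(a, b)).1 - x.2 (Quot.out s(a, b)).2) = 0 := h1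
    have h3 : s((Quot.out s(a, b)).1, (Quot.out s(a, b)).2) = s(a, b) := Quot.out_eq s(a, b)
    rw [Sym2.eq_iff] at h3
    rcases h3 with ⟨h4, h5⟩ | ⟨h4, h5⟩
    · rw [h4, h5] at h2; exact h2
    · rw [h4, h5, hP a b, hQ a b] at h2
      linear_combination h2
  have h1 : finrank ℂ (LinearMap.ker L) ≤ finrank ℂ (KerM G P Q) := Submodule.finrank_mono hker
  have h2 : finrank ℂ (LinearMap.range L) + finrank ℂ (LinearMap.ker L) = finrank ℂ ((V → ℂ) × (V → ℂ)) :=
    LinearMap.finrank_range_add_finrank_ker L
  have h3 : finrank ℂ (LinearMap.range L) ≤ finrank ℂ (G.edgeFinset → ℂ) := Submodule.finrank_le _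
  rw [Module.finrank_prod, Module.finrank_fintype_fun_eq_card] at h2
  rw [Module.finrank_fintype_fun_eq_card, Fintype.card_coe] at h3
  omega

end aux

/-- TARGET. A generic direction assignment D with small reduced kernels yields a complexified symmetric
placement z with 3-dimensional kernel. -/
theorem exists_placement {V : Type} [Fintype V] [DecidableEq V] (G : SimpleGraph V) [DecidableRel G.Adj]
    (n : ℕ) (R S : Equiv.Perm V) (ζ : ℂ) (hRn : R ^ n = 1) (hSS : S * S = 1) (hSRS : S * R * S = R⁻¹)
    (hGR : ∀ a b, G.Adj (R a) (R b) ↔ G.Adj a b) (hGS : ∀ a b, G.Adj (S a) (S b) ↔ G.Adj a b)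
    (hζ : ζ ^ n = 1) (hζ1 : ζ ≠ 1)
    (hcount : (Finset.univ.filter (fun x : V × V => G.Adj x.1 x.2)).card + 6 = 4 * Fintype.card V)
    (D : V → V → ℂ) (hanti : ∀ a b, D b a = - D a b) (heq : ∀ a b, D (R a) (R b) = ζ * D a b)
    (hnz : ∀ a b, G.Adj a b → D a b ≠ 0)
    (h0 : KerE G R S D 1 ζ = ⊥)
    (hγ : ∀ a b, G.Adj a b → ∀ u ∈ KerE G R S D (-1) ζ, u a = u b → u (S a) = u (S b) → u = 0)
    (hrest : (n = 2 ∧ finrank ℂ (KerE G R S D 1 1) ≤ 1 ∧ finrank ℂ (KerE G R S D (-1) 1) ≤ 1) ∨
      (n = 3 ∧ finrank ℂ (KerF G R S D ζ) ≤ 1)) :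
    ∃ z : V → ℂ, (∀ v, z (R v) = ζ * z v) ∧
      finrank ℂ (KerM G (fun a b => z (S a) - z (S b)) (fun a b => z a - z b)) ≤ 3 := by
  classical
  have hRS : ∀ v, S (R v) = R⁻¹ (S v) := by
    intro v
    have h := congrArg (fun (p : Equiv.Perm V) => p (S v)) hSRS
    have h2 : S (S v) = v := by
      have := congrArg (fun (p : Equiv.Perm V) => p v) hSS
      simpa using this
    simp only [Equiv.Perm.mul_apply, h2] at h
    exact h
  have hSSv : ∀ v, S (S v) = v := by
    intro v
    have := congrArg (fun (p : Equiv.Perm V) => p v) hSS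
    simpa using this
  have hRinv : ∀ v, R (R⁻¹ v) = v := fun v => by simp
  have hζ0 : ζ ≠ 0 := by
    intro h0
    rcases hrest with ⟨hn, _⟩ | ⟨hn, _⟩ <;> rw [hn, h0] at hζ <;> norm_num at hζ
  have hDinv : ∀ a b, D (S (R a)) (S (R b)) = ζ⁻¹ * D (S a) (S b) := by
    intro a b
    rw [hRS, hRS]
    have h := heq (R⁻¹ (S a)) (R⁻¹ (S b))
    rw [hRinv, hRinv] at h
    rw [h]
    field_simp
  -- the kernel K
  set K := KerM G (fun a b => D (S a) (S b)) D with hK
  have hmemK : ∀ x : (V → ℂ) × (V → ℂ), x ∈ K ↔ ∀ a b, G.Adj a b →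
      D (S a) (S b) * (x.1 a - x.1 b) + D a b * (x.2 a - x.2 b) = 0 := fun x => Iff.rfl
  have hρ : ∀ x ∈ K, ((fun v => ζ⁻¹ * x.1 (R v), fun v => ζ * x.2 (R v)) : (V → ℂ) × (V → ℂ)) ∈ K := by
    intro x hx
    rw [hmemK] at hx ⊢
    intro a b hab
    have h := hx (R a) (R b) ((hGR a b).2 hab)
    rw [hDinv, heq] at h
    simp only
    linear_combination h
  have hσ : ∀ x ∈ K, ((fun v => x.2 (S v), fun v => x.1 (S v)) : (V → ℂ) × (V → ℂ)) ∈ K := by
    intro x hx
    rw [hmemK] at hx ⊢
    intro a b hab
    have h := hx (S a) (S b) ((hGS a b).2 hab)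
    rw [hSSv, hSSv] at h
    simp only
    linear_combination h
  -- splitting of a typed kernel element
  have hsplit : ∀ η : ℂ, η ≠ 0 → ∀ x ∈ K, (∀ v, x.1 (R v) = η * x.1 v) → (∀ v, x.2 (R v) = η⁻¹ * x.2 v) →
      x ∈ Submodule.map (iotaE S 1) (KerE G R S D 1 η) ⊔ Submodule.map (iotaE S (-1)) (KerE G R S D (-1) η) := by
    intro η hη x hx h1 h2
    have h2S : ∀ v, x.2 (S (R v)) = η * x.2 (S v) := by
      intro v
      rw [hRS]
      have h := h2 (R⁻¹ (S v))
      rw [hRinv] at h
      rw [h]; field_simp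
    have hs := hσ x hx
    rw [hmemK] at hx hs
    simp only at hs
    rw [Submodule.mem_sup]
    refine ⟨iotaE S 1 (fun v => (x.1 v + x.2 (S v)) / 2), ⟨_, ?_, rfl⟩,
      iotaE S (-1) (fun v => (x.1 v - x.2 (S v)) / 2), ⟨_, ?_, rfl⟩, ?_⟩
    · rw [SetLike.mem_coe, mem_KerE]
      refine ⟨fun v => by simp only [h1 v, h2S v]; ring, fun a b hab => ?_⟩
      have e1 := hx a b hab
      have e2 := hs a b hab
      simp only [hSSv]
      linear_combination (1/2) * e1 + (1/2) * e2
    · rw [SetLike.mem_coe, mem_KerE]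
      refine ⟨fun v => by simp only [h1 v, h2S v]; ring, fun a b hab => ?_⟩
      have e1 := hx a b hab
      have e2 := hs a b hab
      simp only [hSSv]
      linear_combination (1/2) * e1 - (1/2) * e2
    · ext v
      · simp only [iotaE, LinearMap.coe_mk, AddHom.coe_mk, Prod.fst_add, Pi.add_apply]
        ring
      · simp only [iotaE, LinearMap.coe_mk, AddHom.coe_mk, Prod.snd_add, Pi.add_apply, hSSv]
        ring
  have hmap1 : Submodule.map (iotaE S 1) (KerE G R S D 1 ζ) = ⊥ := by
    rw [h0, Submodule.map_bot]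
  -- upper bound
  have hupper : finrank ℂ K ≤ finrank ℂ (KerE G R S D (-1) ζ) + 2 := by
    rcases hrest with ⟨hn, hE1, hE2⟩ | ⟨hn, hF⟩
    · subst hn
      have hζ2 : ζ = -1 := by
        have h : (ζ - 1) * (ζ + 1) = 0 := by linear_combination hζ
        rcases mul_eq_zero.1 h with h | h
        · exact absurd (by linear_combination h) hζ1
        · linear_combination h
      have hRR : ∀ v, R (R v) = v := by
        intro v
        have := congrArg (fun (p : Equiv.Perm V) => p v) hRn
        simpa [pow_two] using this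
      have hle : K ≤ (Submodule.map (iotaE S 1) (KerE G R S D 1 ζ) ⊔
          Submodule.map (iotaE S (-1)) (KerE G R S D (-1) ζ)) ⊔
          (Submodule.map (iotaE S 1) (KerE G R S D 1 1) ⊔
          Submodule.map (iotaE S (-1)) (KerE G R S D (-1) 1)) := by
        intro x hx
        have hr := hρ x hx
        rw [Submodule.mem_sup]
        refine ⟨(fun v => (x.1 v - x.1 (R v)) / 2, fun v => (x.2 v - x.2 (R v)) / 2),
          hsplit ζ hζ0 _ ?_ ?_ ?_,
          (fun v => (x.1 v + x.1 (R v)) / 2, fun v => (x.2 v + x.2 (R v)) / 2),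
          hsplit 1 one_ne_zero _ ?_ ?_ ?_, ?_⟩
        · rw [hmemK] at hx hr ⊢
          intro a b hab
          have e1 := hx a b hab
          have e2 := hr a b hab
          rw [hζ2] at e2
          simp only at e2 ⊢
          have e3 : D (S a) (S b) * (x.1 (R a) - x.1 (R b)) + D a b * (x.2 (R a) - x.2 (R b)) = 0 := by
            rw [show ((-1 : ℂ))⁻¹ = -1 by norm_num] at e2
            linear_combination -e2
          linear_combination (1/2) * e1 - (1/2) * e3
        · intro v; simp only [hRR, hζ2]; ring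
        · intro v; simp only [hRR, hζ2]; rw [show ((-1 : ℂ))⁻¹ = -1 by norm_num]; ring
        · rw [hmemK] at hx hr ⊢
          intro a b hab
          have e1 := hx a b hab
          have e2 := hr a b hab
          rw [hζ2] at e2
          simp only at e2 ⊢
          have e3 : D (S a) (S b) * (x.1 (R a) - x.1 (R b)) + D a b * (x.2 (R a) - x.2 (R b)) = 0 := by
            rw [show ((-1 : ℂ))⁻¹ = -1 by norm_num] at e2
            linear_combination -e2
          linear_combination (1/2) * e1 + (1/2) * e3
        · intro v; simp only [hRR]; ring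
        · intro v; simp only [hRR]; ring
        · ext v
          · simp only [Prod.fst_add, Pi.add_apply]; ring
          · simp only [Prod.snd_add, Pi.add_apply]; ring
      rw [hmap1, bot_sup_eq] at hle
      have b1 := Submodule.finrank_mono hle
      have b2 := Submodule.finrank_add_le_finrank_add_finrank (Submodule.map (iotaE S (-1)) (KerE G R S D (-1) ζ))
        (Submodule.map (iotaE S 1) (KerE G R S D 1 1) ⊔
          Submodule.map (iotaE S (-1)) (KerE G R S D (-1) 1))
      have b3 := Submodule.finrank_add_le_finrank_add_finrank (Submodule.map (iotaE S 1) (KerE G R S D 1 1))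
          (Submodule.map (iotaE S (-1)) (KerE G R S D (-1) 1))
      have c1 := Submodule.finrank_map_le (iotaE S (-1)) (KerE G R S D (-1) ζ)
      have c2 := Submodule.finrank_map_le (iotaE S 1) (KerE G R S D 1 1)
      have c3 := Submodule.finrank_map_le (iotaE S (-1)) (KerE G R S D (-1) 1)
      omega
    · subst hn
      have hζ3 : ζ ^ 2 + ζ + 1 = 0 := by
        have h : (ζ - 1) * (ζ ^ 2 + ζ + 1) = 0 := by linear_combination hζ
        rcases mul_eq_zero.1 h with h | h
        · exact absurd (by linear_combination h) hζ1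
        · exact h
      have hζi : ζ⁻¹ = ζ ^ 2 := by
        field_simp
        linear_combination -hζ
      have hRRR : ∀ v, R (R (R v)) = v := by
        intro v
        have := congrArg (fun (p : Equiv.Perm V) => p v) hRn
        simpa [pow_succ] using this
      have hle : K ≤ (Submodule.map (iotaE S 1) (KerE G R S D 1 ζ) ⊔
          Submodule.map (iotaE S (-1)) (KerE G R S D (-1) ζ)) ⊔
          (KerF G R S D ζ ⊔ Submodule.map (swapS S) (KerF G R S D ζ)) := by
        intro x hx
        have hr := hρ x hx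
        have hrr := hρ _ hr
        have key : ∀ a b, G.Adj a b →
            (D (S a) (S b) * (x.1 a - x.1 b) + D a b * (x.2 a - x.2 b) = 0) ∧
            (ζ ^ 2 * D (S a) (S b) * (x.1 (R a) - x.1 (R b)) + ζ * D a b * (x.2 (R a) - x.2 (R b)) = 0) ∧
            (ζ * D (S a) (S b) * (x.1 (R (R a)) - x.1 (R (R b))) + ζ ^ 2 * D a b * (x.2 (R (R a)) - x.2 (R (R b))) = 0) := by
          intro a b hab
          rw [hmemK] at hx hr hrr
          have e1 := hx a b hab
          have e2 := hr a b hab
          have e3 := hrr a b hab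
          rw [hζi] at e2 e3
          simp only at e2 e3
          refine ⟨e1, by linear_combination e2, ?_⟩
          linear_combination e3 - ζ * D (S a) (S b) * (x.1 (R (R a)) - x.1 (R (R b))) * hζ
        rw [Submodule.mem_sup]
        refine ⟨(fun v => (x.1 v + ζ ^ 2 * x.1 (R v) + ζ * x.1 (R (R v))) / 3,
            fun v => (x.2 v + ζ * x.2 (R v) + ζ ^ 2 * x.2 (R (R v))) / 3),
          hsplit ζ hζ0 _ ?_ ?_ ?_,
          (fun v => (2 * x.1 v - ζ ^ 2 * x.1 (R v) - ζ * x.1 (R (R v))) / 3,
            fun v => (2 * x.2 v - ζ * x.2 (R v) - ζ ^ 2 * x.2 (R (R v))) / 3), ?_, ?_⟩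
        · rw [hmemK]
          intro a b hab
          obtain ⟨e1, e2, e3⟩ := key a b hab
          simp only
          linear_combination (1/3) * (e1 + e2 + e3)
        · intro v; simp only [hRRR]
          linear_combination (-(1/3) * x.1 (R v)) * hζ
        · intro v; simp only [hRRR, hζi]
          linear_combination (-(1/3) * x.2 (R v) - (1/3) * ζ * x.2 (R (R v))) * hζ
        · rw [Submodule.mem_sup]
          refine ⟨(fun v => (x.1 v + ζ * x.1 (R v) + ζ ^ 2 * x.1 (R (R v))) / 3,
            fun v => (x.2 v + x.2 (R v) + x.2 (R (R v))) / 3), ?_,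
            (fun v => (x.1 v + x.1 (R v) + x.1 (R (R v))) / 3,
            fun v => (x.2 v + ζ ^ 2 * x.2 (R v) + ζ * x.2 (R (R v))) / 3), ?_, ?_⟩
          · rw [mem_KerF]
            refine ⟨?_, ?_, ?_⟩
            · intro v; simp only [hRRR]
              linear_combination (-(1/3) * x.1 (R v) - (1/3) * ζ * x.1 (R (R v))) * hζ
            · intro v; simp only [hRRR]; ring
            · intro a b hab
              obtain ⟨e1, e2, e3⟩ := key a b hab
              simp only
              linear_combination (1/3) * (e1 + ζ ^ 2 * e2 + ζ * e3) +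
                (-(1/3) * ζ * D (S a) (S b) * (x.1 (R a) - x.1 (R b)) - (1/3) * D a b * (x.2 (R a) - x.2 (R b)) - (1/3) * D a b * (x.2 (R (R a)) - x.2 (R (R b)))) * hζ
          · refine ⟨(fun v => (x.2 (S v) + ζ ^ 2 * x.2 (R (S v)) + ζ * x.2 (R (R (S v)))) / 3,
              fun v => (x.1 (S v) + x.1 (R (S v)) + x.1 (R (R (S v)))) / 3), ?_, ?_⟩
            · have hi : ∀ v, R⁻¹ v = R (R v) := by
                intro v
                rw [Equiv.Perm.inv_eq_iff_eq]
                exact (hRRR v).symm
              rw [SetLike.mem_coe, mem_KerF]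
              refine ⟨?_, ?_, ?_⟩
              · intro v; simp only [hRS, hi, hRRR]
                linear_combination (-(1/3) * x.2 (R (R (S v))) - (1/3) * ζ * x.2 (R (S v))) * hζ
              · intro v; simp only [hRS, hi, hRRR]; ring
              · intro a b hab
                obtain ⟨e1, e2, e3⟩ := key (S a) (S b) ((hGS a b).2 hab)
                simp only [hSSv] at e1 e2 e3
                simp only
                linear_combination (1/3) * (e1 + ζ * e2 + ζ ^ 2 * e3) +
                  (-(1/3) * D a b * (x.1 (R (S a)) - x.1 (R (S b))) - (1/3) * D a b * (x.1 (R (R (S a))) - x.1 (R (R (S b)))) - (1/3) * ζ * D (S a) (S b) * (x.2 (R (R (S a))) - x.2 (R (R (S b))))) * hζ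
            · ext v
              · simp only [swapS, LinearMap.coe_mk, AddHom.coe_mk, hSSv]
              · simp only [swapS, LinearMap.coe_mk, AddHom.coe_mk, hSSv]
          · ext v
            · simp only [Prod.fst_add, Pi.add_apply]
              linear_combination ((1/3) * x.1 (R v) + (1/3) * x.1 (R (R v))) * hζ3
            · simp only [Prod.snd_add, Pi.add_apply]
              linear_combination ((1/3) * x.2 (R v) + (1/3) * x.2 (R (R v))) * hζ3
        · ext v
          · simp only [Prod.fst_add, Pi.add_apply]; ring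
          · simp only [Prod.snd_add, Pi.add_apply]; ring
      rw [hmap1, bot_sup_eq] at hle
      have b1 := Submodule.finrank_mono hle
      have b2 := Submodule.finrank_add_le_finrank_add_finrank (Submodule.map (iotaE S (-1)) (KerE G R S D (-1) ζ))
        (KerF G R S D ζ ⊔ Submodule.map (swapS S) (KerF G R S D ζ))
      have b3 := Submodule.finrank_add_le_finrank_add_finrank (KerF G R S D ζ)
          (Submodule.map (swapS S) (KerF G R S D ζ))
      have c1 := Submodule.finrank_map_le (iotaE S (-1)) (KerE G R S D (-1) ζ)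
      have c2 := Submodule.finrank_map_le (swapS S) (KerF G R S D ζ)
      omega
  have hlower : 3 ≤ finrank ℂ K := by
    refine finrank_KerM_ge G _ _ ?_ hanti hcount
    intro a b
    exact hanti _ _
  -- an edge
  obtain ⟨a, b, hab⟩ : ∃ a b, G.Adj a b := by
    by_contra hcon
    push Not at hcon
    have hz : (Finset.univ.filter (fun x : V × V => G.Adj x.1 x.2)).card = 0 := by
      rw [Finset.card_eq_zero, Finset.filter_eq_empty_iff]
      intro x _
      exact hcon x.1 x.2
    omega
  have hone : finrank ℂ (KerE G R S D (-1) ζ) ≤ 1 := by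
    let f : (KerE G R S D (-1) ζ) →ₗ[ℂ] ℂ :=
      { toFun := fun u => u.1 a - u.1 b
        map_add' := by
          intro x y
          simp only [Submodule.coe_add, Pi.add_apply]; ring
        map_smul' := by
          intro c x
          simp only [Submodule.coe_smul, Pi.smul_apply, smul_eq_mul, RingHom.id_apply]; ring }
    have hf : Function.Injective f := by
      rw [injective_iff_map_eq_zero]
      intro u hu
      have hu' : u.1 a - u.1 b = 0 := hu
      have h1 := (((mem_KerE G R S D (-1) ζ u.1).1 u.2).2) a b hab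
      have h2 : D a b * (u.1 (S a) - u.1 (S b)) = 0 := by
        rw [hu'] at h1
        linear_combination -h1
      rcases mul_eq_zero.1 h2 with h3 | h3
      · exact absurd h3 (hnz a b hab)
      · have h4 := hγ a b hab u.1 u.2 (by linear_combination hu') (by linear_combination h3)
        exact Subtype.ext h4
    have := LinearMap.finrank_le_finrank_of_injective hf
    simpa using this
  have hne : KerE G R S D (-1) ζ ≠ ⊥ := by
    intro hbot
    rw [hbot, finrank_bot] at hupper
    omega
  obtain ⟨z, hz, hz0⟩ := Submodule.exists_mem_ne_zero_of_ne_bot hne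
  have hz' := (mem_KerE G R S D (-1) ζ z).1 hz
  refine ⟨z, hz'.1, ?_⟩
  have hle : KerM G (fun a b => z (S a) - z (S b)) (fun a b => z a - z b) ≤ K := by
    intro x hx
    rw [mem_KerM] at hx
    rw [hmemK]
    intro a b hab
    have h1 := hx a b hab
    have h2 := hz'.2 a b hab
    have hD := hnz a b hab
    set c := (z a - z b) / D a b with hc
    have e1 : z a - z b = c * D a b := by rw [hc]; field_simp
    have e2 : z (S a) - z (S b) = c * D (S a) (S b) := by
      have h3 : D a b * ((z (S a) - z (S b)) - c * D (S a) (S b)) = 0 := by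
        rw [e1] at h2
        linear_combination -h2
      rcases mul_eq_zero.1 h3 with h4 | h4
      · exact absurd h4 hD
      · linear_combination h4
    have hc0 : c ≠ 0 := by
      intro h0
      rw [h0] at e1 e2
      exact hz0 (hγ a b hab z hz (by linear_combination e1) (by linear_combination e2))
    have h5 : c * (D (S a) (S b) * (x.1 a - x.1 b) + D a b * (x.2 a - x.2 b)) = 0 := by
      rw [e1, e2] at h1
      linear_combination h1
    rcases mul_eq_zero.1 h5 with h6 | h6
    · exact absurd h6 hc0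
    · exact h6
  have h1 := Submodule.finrank_mono hle
  omega

end Pool.Agent.DihLaman.J444
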