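import Pool.Agent.Helper927.DLDefs
set_option autoImplicit false
set_option maxHeartbeats 4000000
open Module Submodule

namespace Pool.Agent.DihLaman.J468
open Pool.Agent.DihLaman

theorem free_dvd {G α : Type} [Group G] [Fintype G] [DecidableEq α] (Ψ : G →* Equiv.Perm α)
    (D : Finset α) (hD : ∀ g, ∀ d ∈ D, Ψ g d ∈ D) (hf : ∀ g, ∀ d ∈ D, Ψ g d = d → g = 1) :
    Fintype.card G ∣ D.card := by
  classical
  let f : α → Finset α := fun d => Finset.univ.image (fun g => Ψ g d)
  have hfib : ∀ d ∈ D, (D.filter (fun e => f e = f d)).card = Fintype.card G := by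
    intro d hd
    have h1 : D.filter (fun e => f e = f d) = f d := by
      ext e
      rw [Finset.mem_filter]
      constructor
      · rintro ⟨he, h⟩
        rw [← h]
        exact Finset.mem_image.2 ⟨1, Finset.mem_univ _, by simp⟩
      · intro he
        obtain ⟨g, -, rfl⟩ := Finset.mem_image.1 he
        refine ⟨hD g d hd, ?_⟩
        ext y
        simp only [f, Finset.mem_image, Finset.mem_univ, true_and]
        constructor
        · rintro ⟨h, rfl⟩
          exact ⟨h * g, by rw [map_mul]; rfl⟩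
        · rintro ⟨h, rfl⟩
          refine ⟨h * g⁻¹, ?_⟩
          rw [map_mul, map_inv, Equiv.Perm.mul_apply]
          exact congrArg (Ψ h) (Equiv.symm_apply_apply (Ψ g) d)
    rw [h1]
    have h2 : Function.Injective (fun g => Ψ g d) := by
      intro g h hgh
      have h3 : Ψ (h⁻¹ * g) d = d := by
        rw [map_mul, map_inv, Equiv.Perm.mul_apply]
        show (Ψ h)⁻¹ (Ψ g d) = d
        have : Ψ g d = Ψ h d := hgh
        rw [this]
        exact Equiv.symm_apply_apply (Ψ h) d
      have h4 := hf _ d hd h3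
      exact (inv_mul_eq_one.mp h4).symm
    rw [Finset.card_image_of_injective _ h2, Finset.card_univ]
  rw [Finset.card_eq_sum_card_image f D]
  apply Finset.dvd_sum
  intro b hb
  obtain ⟨d, hd, rfl⟩ := Finset.mem_image.1 hb
  rw [hfib d hd]

/-- the homomorphism from the cyclic group sending the generator to `x` -/
noncomputable def cyc {G : Type} [Group G] (n : ℕ) (x : G) (hx : x ^ n = 1) :
    Multiplicative (ZMod n) →* G :=
  AddMonoidHom.toMultiplicativeLeft (ZMod.lift n ⟨zmultiplesHom (Additive G) (Additive.ofMul x), by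
    simp only [zmultiplesHom_apply]
    rw [natCast_zsmul, ← ofMul_pow, hx]; rfl⟩)

theorem cyc_apply {G : Type} [Group G] (n : ℕ) (x : G) (hx : x ^ n = 1) (k : ℕ) :
    cyc n x hx (Multiplicative.ofAdd (k : ZMod n)) = x ^ k := by
  have h : (ZMod.lift n ⟨zmultiplesHom (Additive G) (Additive.ofMul x), by
    simp only [zmultiplesHom_apply]
    rw [natCast_zsmul, ← ofMul_pow, hx]; rfl⟩) ((k : ℤ) : ZMod n) = Additive.ofMul (x ^ k) := by
    rw [ZMod.lift_coe]
    show zmultiplesHom (Additive G) (Additive.ofMul x) (k : ℤ) = _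
    rw [zmultiplesHom_apply, natCast_zsmul, ← ofMul_pow]
  rw [Int.cast_natCast] at h
  show Additive.toMul _ = _
  exact congrArg Additive.toMul h

theorem two_cases (a : Multiplicative (ZMod 2)) : a = 1 ∨ a = Multiplicative.ofAdd ((1 : ℕ) : ZMod 2) := by
  revert a; decide

theorem four_dvd {α : Type} [DecidableEq α] (f g : Equiv.Perm α) (ff : f * f = 1) (gg : g * g = 1)
    (fg : f * g = g * f) (D : Finset α) (hfD : ∀ d ∈ D, f d ∈ D) (hgD : ∀ d ∈ D, g d ∈ D)
    (h1 : ∀ d ∈ D, f d ≠ d) (h2 : ∀ d ∈ D, g d ≠ d) (h3 : ∀ d ∈ D, f (g d) ≠ d) : 4 ∣ D.card := by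
  have hf2 : f ^ 2 = 1 := by rw [pow_two, ff]
  have hg2 : g ^ 2 = 1 := by rw [pow_two, gg]
  have cf : cyc 2 f hf2 (Multiplicative.ofAdd ((1 : ℕ) : ZMod 2)) = f := by
    rw [cyc_apply, pow_one]
  have cg : cyc 2 g hg2 (Multiplicative.ofAdd ((1 : ℕ) : ZMod 2)) = g := by
    rw [cyc_apply, pow_one]
  have comm : ∀ a b, Commute (cyc 2 f hf2 a) (cyc 2 g hg2 b) := by
    intro a b
    rcases two_cases a with rfl | rfl <;> rcases two_cases b with rfl | rfl
    · rw [map_one]; exact Commute.one_left _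
    · rw [map_one]; exact Commute.one_left _
    · rw [map_one]; exact Commute.one_right _
    · rw [cf, cg]; exact fg
  have key := free_dvd (MonoidHom.noncommCoprod (cyc 2 f hf2) (cyc 2 g hg2) comm) D ?_ ?_
  · simpa using key
  · rintro ⟨a, b⟩ d hd
    rw [MonoidHom.noncommCoprod_apply]
    rcases two_cases a with rfl | rfl <;> rcases two_cases b with rfl | rfl
    · simpa using hd
    · rw [map_one, one_mul, cg]; exact hgD d hd
    · rw [map_one, mul_one, cf]; exact hfD d hd
    · rw [cf, cg]; exact hfD _ (hgD d hd)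
  · rintro ⟨a, b⟩ d hd
    rw [MonoidHom.noncommCoprod_apply]
    rcases two_cases a with rfl | rfl <;> rcases two_cases b with rfl | rfl
    · intro _; rfl
    · intro h; rw [map_one, one_mul, cg] at h; exact absurd h (h2 d hd)
    · intro h; rw [map_one, mul_one, cf] at h; exact absurd h (h1 d hd)
    · intro h; rw [cf, cg] at h; exact absurd h (h3 d hd)

theorem eight_dvd {α : Type} [DecidableEq α] (f g e : Equiv.Perm α) (ff : f * f = 1) (gg : g * g = 1)
    (ee : e * e = 1) (fg : f * g = g * f) (fe : f * e = e * f) (ge : g * e = e * g)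
    (D : Finset α) (hfD : ∀ d ∈ D, f d ∈ D) (hgD : ∀ d ∈ D, g d ∈ D) (heD : ∀ d ∈ D, e d ∈ D)
    (h1 : ∀ d ∈ D, f d ≠ d) (h2 : ∀ d ∈ D, g d ≠ d) (h3 : ∀ d ∈ D, f (g d) ≠ d)
    (h4 : ∀ d ∈ D, e d ≠ d) (h5 : ∀ d ∈ D, f (e d) ≠ d) (h6 : ∀ d ∈ D, g (e d) ≠ d)
    (h7 : ∀ d ∈ D, f (g (e d)) ≠ d) : 8 ∣ D.card := by
  have hf2 : f ^ 2 = 1 := by rw [pow_two, ff]
  have hg2 : g ^ 2 = 1 := by rw [pow_two, gg]
  have he2 : e ^ 2 = 1 := by rw [pow_two, ee]
  have cf : cyc 2 f hf2 (Multiplicative.ofAdd ((1 : ℕ) : ZMod 2)) = f := by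
    rw [cyc_apply, pow_one]
  have cg : cyc 2 g hg2 (Multiplicative.ofAdd ((1 : ℕ) : ZMod 2)) = g := by
    rw [cyc_apply, pow_one]
  have ce : cyc 2 e he2 (Multiplicative.ofAdd ((1 : ℕ) : ZMod 2)) = e := by
    rw [cyc_apply, pow_one]
  have comm : ∀ a b, Commute (cyc 2 g hg2 a) (cyc 2 e he2 b) := by
    intro a b
    rcases two_cases a with rfl | rfl <;> rcases two_cases b with rfl | rfl
    · rw [map_one]; exact Commute.one_left _
    · rw [map_one]; exact Commute.one_left _
    · rw [map_one]; exact Commute.one_right _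
    · rw [cg, ce]; exact ge
  have comm2 : ∀ a b, Commute (cyc 2 f hf2 a)
      (MonoidHom.noncommCoprod (cyc 2 g hg2) (cyc 2 e he2) comm b) := by
    rintro a ⟨b, c⟩
    rw [MonoidHom.noncommCoprod_apply]
    rcases two_cases a with rfl | rfl
    · rw [map_one]; exact Commute.one_left _
    · rw [cf]
      apply Commute.mul_right
      · rcases two_cases b with rfl | rfl
        · rw [map_one]; exact Commute.one_right _
        · rw [cg]; exact fg
      · rcases two_cases c with rfl | rfl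
        · rw [map_one]; exact Commute.one_right _
        · rw [ce]; exact fe
  have key := free_dvd (MonoidHom.noncommCoprod (cyc 2 f hf2)
    (MonoidHom.noncommCoprod (cyc 2 g hg2) (cyc 2 e he2) comm) comm2) D ?_ ?_
  · simpa using key
  · rintro ⟨a, b, c⟩ d hd
    rw [MonoidHom.noncommCoprod_apply, MonoidHom.noncommCoprod_apply]
    rcases two_cases a with rfl | rfl <;> rcases two_cases b with rfl | rfl <;>
      rcases two_cases c with rfl | rfl <;>
      simp only [map_one, one_mul, mul_one, cf, cg, ce, Equiv.Perm.mul_apply, Equiv.Perm.one_apply]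
    · exact hd
    · exact heD _ hd
    · exact hgD _ hd
    · exact hgD _ (heD _ hd)
    · exact hfD _ hd
    · exact hfD _ (heD _ hd)
    · exact hfD _ (hgD _ hd)
    · exact hfD _ (hgD _ (heD _ hd))
  · rintro ⟨a, b, c⟩ d hd
    rw [MonoidHom.noncommCoprod_apply, MonoidHom.noncommCoprod_apply]
    rcases two_cases a with rfl | rfl <;> rcases two_cases b with rfl | rfl <;>
      rcases two_cases c with rfl | rfl <;>
      simp only [map_one, one_mul, mul_one, cf, cg, ce, Equiv.Perm.mul_apply, Equiv.Perm.one_apply] <;>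
      intro h
    · rfl
    · exact absurd h (h4 d hd)
    · exact absurd h (h2 d hd)
    · exact absurd h (h6 d hd)
    · exact absurd h (h1 d hd)
    · exact absurd h (h5 d hd)
    · exact absurd h (h3 d hd)
    · exact absurd h (h7 d hd)

/-- a permutation of prime order `n` without fixed points in `D` -/
theorem n_dvd {α : Type} [DecidableEq α] (n : ℕ) (hn : n = 2 ∨ n = 3) (f : Equiv.Perm α)
    (hfn : f ^ n = 1) (D : Finset α) (hfD : ∀ d ∈ D, f d ∈ D) (h1 : ∀ d ∈ D, f d ≠ d) :
    n ∣ D.card := by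
  have : NeZero n := ⟨by rcases hn with rfl | rfl <;> norm_num⟩
  have key := free_dvd (cyc n f hfn) D ?_ ?_
  · simpa using key
  · intro g d hd
    obtain ⟨k, hk⟩ : ∃ k : ℕ, g = Multiplicative.ofAdd ((k : ℕ) : ZMod n) :=
      ⟨(Multiplicative.toAdd g).val, by simp⟩
    rw [hk, cyc_apply]
    clear hk
    induction k with
    | zero => simpa using hd
    | succ m ih =>
      rw [pow_succ', Equiv.Perm.mul_apply]
      exact hfD _ ih
  · intro g d hd
    rcases hn with rfl | rfl
    · rcases two_cases g with rfl | rfl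
      · intro _; rfl
      · intro h; rw [cyc_apply, pow_one] at h; exact absurd h (h1 d hd)
    · have h3 : ∀ g : Multiplicative (ZMod 3), g = 1 ∨ g = Multiplicative.ofAdd ((1 : ℕ) : ZMod 3) ∨
        g = Multiplicative.ofAdd ((2 : ℕ) : ZMod 3) := by decide
      rcases h3 g with rfl | rfl | rfl
      · intro _; rfl
      · intro h; rw [cyc_apply, pow_one] at h; exact absurd h (h1 d hd)
      · intro h
        rw [cyc_apply] at h
        exfalso
        apply h1 d hd
        have h4 : (f ^ 3) d = d := by rw [hfn]; rfl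
        rw [pow_succ', Equiv.Perm.mul_apply, h] at h4
        exact h4





section comp

variable {V : Type} [Fintype V] [DecidableEq V]

/-- the equivalence generated by `U` (for symmetric `U`) -/
def sim (U : V → V → Prop) (a b : V) : Prop := Relation.ReflTransGen U a b

/-- the equivalence generated by `U` and `R` -/
def apx (R : Equiv.Perm V) (U : V → V → Prop) (a b : V) : Prop := ∃ k : ℕ, sim U ((R ^ k) a) b

theorem sim_refl (U : V → V → Prop) (a : V) : sim U a a := Relation.ReflTransGen.refl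

theorem sim_symm {U : V → V → Prop} (hUsym : ∀ a b, U a b → U b a) {a b : V} (h : sim U a b) :
    sim U b a := by
  induction h with
  | refl => exact Relation.ReflTransGen.refl
  | tail _ h2 ih => exact Relation.ReflTransGen.head (hUsym _ _ h2) ih

theorem sim_trans {U : V → V → Prop} {a b c : V} (h : sim U a b) (h' : sim U b c) : sim U a c :=
  Relation.ReflTransGen.trans h h'

theorem sim_of {U : V → V → Prop} {a b : V} (h : U a b) : sim U a b :=
  Relation.ReflTransGen.single h

theorem sim_map {U : V → V → Prop} {f : V → V} (hf : ∀ a b, U a b → U (f a) (f b)) {a b : V}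
    (h : sim U a b) : sim U (f a) (f b) := by
  induction h with
  | refl => exact Relation.ReflTransGen.refl
  | tail _ h2 ih => exact Relation.ReflTransGen.tail ih (hf _ _ h2)

theorem sim_pow {R : Equiv.Perm V} {U : V → V → Prop} (hUR : ∀ a b, U a b → U (R a) (R b)) (k : ℕ)
    {a b : V} (h : sim U a b) : sim U ((R ^ k) a) ((R ^ k) b) := by
  induction k with
  | zero => simpa using h
  | succ m ih =>
    rw [pow_succ', Equiv.Perm.mul_apply, Equiv.Perm.mul_apply]
    exact sim_map hUR ih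

theorem U_pow {R : Equiv.Perm V} {U : V → V → Prop} (hUR : ∀ a b, U a b → U (R a) (R b)) (k : ℕ)
    {a b : V} (h : U a b) : U ((R ^ k) a) ((R ^ k) b) := by
  induction k with
  | zero => simpa using h
  | succ m ih =>
    rw [pow_succ', Equiv.Perm.mul_apply, Equiv.Perm.mul_apply]
    exact hUR _ _ ih

/-- inverse of a power as a power -/
theorem inv_pow_ex {R : Equiv.Perm V} {n : ℕ} (hn0 : 0 < n) (hRn : R ^ n = 1) (k : ℕ) :
    ∃ m : ℕ, R ^ m * R ^ k = 1 := by
  refine ⟨k * (n - 1), ?_⟩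
  rw [← pow_add]
  have : k * (n - 1) + k = n * k := by
    obtain ⟨j, rfl⟩ : ∃ j, n = j + 1 := ⟨n - 1, by omega⟩
    simp only [Nat.add_sub_cancel]; ring
  rw [this, pow_mul, hRn, one_pow]

theorem apx_refl (R : Equiv.Perm V) (U : V → V → Prop) (a : V) : apx R U a a :=
  ⟨0, by simpa using sim_refl U a⟩

theorem apx_symm {R : Equiv.Perm V} {U : V → V → Prop} {n : ℕ} (hn0 : 0 < n) (hRn : R ^ n = 1)
    (hUsym : ∀ a b, U a b → U b a) (hUR : ∀ a b, U a b → U (R a) (R b)) {a b : V}
    (h : apx R U a b) : apx R U b a := by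
  obtain ⟨k, hk⟩ := h
  obtain ⟨m, hm⟩ := inv_pow_ex hn0 hRn k
  refine ⟨m, ?_⟩
  have h1 := sim_pow hUR m hk
  rw [← Equiv.Perm.mul_apply, hm, Equiv.Perm.one_apply] at h1
  exact sim_symm hUsym h1

theorem apx_trans {R : Equiv.Perm V} {U : V → V → Prop} 
    (hUR : ∀ a b, U a b → U (R a) (R b)) {a b c : V}
    (h : apx R U a b) (h' : apx R U b c) : apx R U a c := by
  obtain ⟨k, hk⟩ := h
  obtain ⟨l, hl⟩ := h'
  refine ⟨l + k, ?_⟩
  rw [pow_add, Equiv.Perm.mul_apply]
  exact sim_trans (sim_pow hUR l hk) hl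

theorem apx_of {R : Equiv.Perm V} {U : V → V → Prop} {a b : V} (h : sim U a b) : apx R U a b :=
  ⟨0, by simpa using h⟩

theorem apx_R (R : Equiv.Perm V) (U : V → V → Prop) (a : V) : apx R U a (R a) :=
  ⟨1, by simpa using sim_refl U (R a)⟩

/-- reduce the exponent modulo `n` -/
theorem apx_lt {R : Equiv.Perm V} {U : V → V → Prop} {n : ℕ} (hn0 : 0 < n) (hRn : R ^ n = 1)
    {a b : V} (h : apx R U a b) : ∃ k < n, sim U ((R ^ k) a) b := by
  obtain ⟨k, hk⟩ := h
  refine ⟨k % n, Nat.mod_lt _ hn0, ?_⟩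
  rw [← pow_eq_pow_mod k hRn]
  exact hk

theorem bal_iff {R : Equiv.Perm V} {U : V → V → Prop} 
    (hUsym : ∀ a b, U a b → U b a) (hUR : ∀ a b, U a b → U (R a) (R b)) {a b : V}
    (h : apx R U a b) (ha : sim U a (R a)) : sim U b (R b) := by
  obtain ⟨k, hk⟩ := h
  have h1 := sim_pow hUR k ha
  have h2 : (R ^ k) (R a) = R ((R ^ k) a) := by
    rw [← Equiv.Perm.mul_apply, ← Equiv.Perm.mul_apply, ← pow_succ, ← pow_succ']
  rw [h2] at h1
  exact sim_trans (sim_symm hUsym hk) (sim_trans h1 (sim_map hUR hk))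

theorem unbal_pow {R : Equiv.Perm V} {U : V → V → Prop} 
    (hUR : ∀ a b, U a b → U (R a) (R b)) {a : V} (ha : sim U a (R a)) (k : ℕ) :
    sim U a ((R ^ k) a) := by
  induction k with
  | zero => simpa using sim_refl U a
  | succ m ih =>
    have h1 := sim_map hUR ih
    rw [pow_succ', Equiv.Perm.mul_apply]
    exact sim_trans ha h1

/-- in a balanced class the translates are different -/
theorem bal_ne {R : Equiv.Perm V} {U : V → V → Prop} {n : ℕ} (hn : n = 2 ∨ n = 3) (hRn : R ^ n = 1)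
    (hUsym : ∀ a b, U a b → U b a) (hUR : ∀ a b, U a b → U (R a) (R b)) {a : V}
    (ha : ¬ sim U a (R a)) {i j : ℕ} (hi : i < n) (hj : j < n)
    (h : sim U ((R ^ i) a) ((R ^ j) a)) : i = j := by
  have hn0 : 0 < n := by omega
  -- reduce to `sim a (R^k a)`, `0<k<n`
  have main : ∀ k, 0 < k → k < n → ¬ sim U a ((R ^ k) a) := by
    intro k hk hkn h1
    rcases hn with rfl | rfl
    · have : k = 1 := by omega
      subst this
      exact ha (by simpa using h1)
    · have : k = 1 ∨ k = 2 := by omega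
      rcases this with rfl | rfl
      · exact ha (by simpa using h1)
      · apply ha
        have h2 := sim_map hUR h1
        rw [← Equiv.Perm.mul_apply, ← pow_succ', hRn] at h2
        exact sim_symm hUsym h2
  have red : ∀ i j, i < n → j < n → i < j → ¬ sim U ((R ^ i) a) ((R ^ j) a) := by
    intro i j hi hj hij h1
    obtain ⟨m, hm⟩ := inv_pow_ex hn0 hRn i
    have h2 := sim_pow hUR m h1
    rw [← Equiv.Perm.mul_apply, hm, Equiv.Perm.one_apply, ← Equiv.Perm.mul_apply] at h2
    have h3 : R ^ m * R ^ j = R ^ (j - i) := by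
      have : j = i + (j - i) := by omega
      conv_lhs => rw [this, pow_add, ← mul_assoc, hm, one_mul]
    rw [h3] at h2
    exact main (j - i) (by omega) (by omega) h2
  by_contra hne
  rcases Nat.lt_or_gt_of_ne hne with h1 | h1
  · exact red i j hi hj h1 h
  · exact red j i hj hi h1 (sim_symm hUsym h)

open Classical in
/-- the class of `a` under `sim` -/
noncomputable def cl (U : V → V → Prop) (a : V) : Finset V := Finset.univ.filter (fun b => sim U a b)

open Classical in
/-- the darts in the class of `a` -/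
noncomputable def dc (U : V → V → Prop) (a : V) : Finset (V × V) :=
  Finset.univ.filter (fun p => U p.1 p.2 ∧ sim U a p.1)

open Classical in
noncomputable def clx (R : Equiv.Perm V) (U : V → V → Prop) (a : V) : Finset V :=
  Finset.univ.filter (fun b => apx R U a b)

open Classical in
noncomputable def dcx (R : Equiv.Perm V) (U : V → V → Prop) (a : V) : Finset (V × V) :=
  Finset.univ.filter (fun p => U p.1 p.2 ∧ apx R U a p.1)

theorem mem_cl {U : V → V → Prop} {a b : V} : b ∈ cl U a ↔ sim U a b := by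
  simp [cl]

theorem mem_dc {U : V → V → Prop} {a : V} {p : V × V} :
    p ∈ dc U a ↔ U p.1 p.2 ∧ sim U a p.1 := by
  simp [dc]

theorem mem_clx {R : Equiv.Perm V} {U : V → V → Prop} {a b : V} : b ∈ clx R U a ↔ apx R U a b := by
  simp [clx]

theorem mem_dcx {R : Equiv.Perm V} {U : V → V → Prop} {a : V} {p : V × V} :
    p ∈ dcx R U a ↔ U p.1 p.2 ∧ apx R U a p.1 := by
  simp [dcx]

theorem dc_le (U : V → V → Prop) [DecidableRel U] (a : V) :
    (dc U a).card = ((cl U a ×ˢ cl U a).filter (fun x : V × V => U x.1 x.2)).card := by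
  congr 1
  ext p
  rw [mem_dc, Finset.mem_filter, Finset.mem_product, mem_cl, mem_cl]
  constructor
  · rintro ⟨h1, h2⟩
    exact ⟨⟨h2, sim_trans h2 (sim_of h1)⟩, h1⟩
  · rintro ⟨⟨h1, h2⟩, h3⟩
    exact ⟨h3, h1⟩

/-- sparsity of a class -/
theorem dc_sparse (U : V → V → Prop) [DecidableRel U] (hUirr : ∀ a, ¬ U a a)
    (hsparse : ∀ C : Finset V, 2 ≤ C.card →
      ((C ×ˢ C).filter (fun x : V × V => U x.1 x.2)).card + 6 ≤ 4 * C.card) (a : V) :
    ((cl U a).card = 1 ∧ (dc U a).card = 0) ∨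
      (2 ≤ (cl U a).card ∧ (dc U a).card + 6 ≤ 4 * (cl U a).card) := by
  have h0 : a ∈ cl U a := mem_cl.2 (sim_refl U a)
  have h1 : 0 < (cl U a).card := Finset.card_pos.2 ⟨a, h0⟩
  by_cases h2 : (cl U a).card = 1
  · left
    refine ⟨h2, ?_⟩
    obtain ⟨b, hb⟩ := Finset.card_eq_one.1 h2
    rw [dc_le, hb]
    rw [Finset.card_eq_zero, Finset.filter_eq_empty_iff]
    rintro ⟨x, y⟩ hxy
    rw [Finset.mem_product, Finset.mem_singleton, Finset.mem_singleton] at hxy
    obtain ⟨h3, h4⟩ := hxy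
    simp only at h3 h4 ⊢
    rw [h3, h4]
    exact hUirr b
  · right
    have h3 : 2 ≤ (cl U a).card := by omega
    refine ⟨h3, ?_⟩
    rw [dc_le]
    exact hsparse _ h3

theorem card_cl_pow {R : Equiv.Perm V} {U : V → V → Prop} {n : ℕ} (hn0 : 0 < n) (hRn : R ^ n = 1)
    (hUR : ∀ a b, U a b → U (R a) (R b)) (a : V) (k : ℕ) :
    (cl U ((R ^ k) a)).card = (cl U a).card := by
  obtain ⟨m, hm⟩ := inv_pow_ex hn0 hRn k
  have hm' : R ^ k * R ^ m = 1 := by rw [← pow_add, add_comm, pow_add, hm]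
  symm
  apply Finset.card_nbij' (fun x => (R ^ k) x) (fun x => (R ^ m) x)
  · intro x hx
    simp only [Finset.mem_coe, mem_cl] at hx ⊢
    exact sim_pow hUR k hx
  · intro x hx
    simp only [Finset.mem_coe, mem_cl] at hx ⊢
    have := sim_pow hUR m hx
    rwa [← Equiv.Perm.mul_apply, hm, Equiv.Perm.one_apply] at this
  · intro x _
    show (R ^ m) ((R ^ k) x) = x
    rw [← Equiv.Perm.mul_apply, hm, Equiv.Perm.one_apply]
  · intro x _
    show (R ^ k) ((R ^ m) x) = x
    rw [← Equiv.Perm.mul_apply, hm', Equiv.Perm.one_apply]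

theorem card_dc_pow {R : Equiv.Perm V} {U : V → V → Prop} {n : ℕ} (hn0 : 0 < n) (hRn : R ^ n = 1)
    (hUR : ∀ a b, U a b → U (R a) (R b)) (a : V) (k : ℕ) :
    (dc U ((R ^ k) a)).card = (dc U a).card := by
  obtain ⟨m, hm⟩ := inv_pow_ex hn0 hRn k
  have hm' : R ^ k * R ^ m = 1 := by rw [← pow_add, add_comm, pow_add, hm]
  symm
  apply Finset.card_nbij' (fun x => ((R ^ k) x.1, (R ^ k) x.2)) (fun x => ((R ^ m) x.1, (R ^ m) x.2))
  · intro x hx
    simp only [Finset.mem_coe, mem_dc] at hx ⊢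
    exact ⟨U_pow hUR k hx.1, sim_pow hUR k hx.2⟩
  · intro x hx
    simp only [Finset.mem_coe, mem_dc] at hx ⊢
    have := sim_pow hUR m hx.2
    rw [← Equiv.Perm.mul_apply, hm, Equiv.Perm.one_apply] at this
    exact ⟨U_pow hUR m hx.1, this⟩
  · intro x _
    simp only
    rw [← Equiv.Perm.mul_apply, ← Equiv.Perm.mul_apply, hm, Equiv.Perm.one_apply,
      Equiv.Perm.one_apply]
  · intro x _
    simp only
    rw [← Equiv.Perm.mul_apply, ← Equiv.Perm.mul_apply, hm', Equiv.Perm.one_apply,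
      Equiv.Perm.one_apply]

theorem bal_card {R : Equiv.Perm V} {U : V → V → Prop} {n : ℕ} (hn : n = 2 ∨ n = 3) (hRn : R ^ n = 1)
    (hUsym : ∀ a b, U a b → U b a) (hUR : ∀ a b, U a b → U (R a) (R b)) {a : V}
    (ha : ¬ sim U a (R a)) : (clx R U a).card = n * (cl U a).card := by
  have hn0 : 0 < n := by omega
  have h1 : clx R U a = (Finset.range n).biUnion (fun k => cl U ((R ^ k) a)) := by
    ext b
    rw [mem_clx, Finset.mem_biUnion]
    constructor
    · intro h
      obtain ⟨k, hk, h2⟩ := apx_lt hn0 hRn h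
      exact ⟨k, Finset.mem_range.2 hk, mem_cl.2 h2⟩
    · rintro ⟨k, -, h2⟩
      exact ⟨k, mem_cl.1 h2⟩
  rw [h1, Finset.card_biUnion]
  · rw [Finset.sum_congr rfl (fun k _ => card_cl_pow hn0 hRn hUR a k)]
    simp
  · intro i hi j hj hij
    show Disjoint _ _
    rw [Finset.disjoint_left]
    intro b hb hb'
    apply hij
    exact bal_ne hn hRn hUsym hUR ha (Finset.mem_range.1 hi) (Finset.mem_range.1 hj)
      (sim_trans (mem_cl.1 hb) (sim_symm hUsym (mem_cl.1 hb')))

theorem bal_dcard {R : Equiv.Perm V} {U : V → V → Prop} {n : ℕ} (hn : n = 2 ∨ n = 3) (hRn : R ^ n = 1)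
    (hUsym : ∀ a b, U a b → U b a) (hUR : ∀ a b, U a b → U (R a) (R b)) {a : V}
    (ha : ¬ sim U a (R a)) : (dcx R U a).card = n * (dc U a).card := by
  have hn0 : 0 < n := by omega
  have h1 : dcx R U a = (Finset.range n).biUnion (fun k => dc U ((R ^ k) a)) := by
    ext b
    rw [mem_dcx, Finset.mem_biUnion]
    constructor
    · rintro ⟨h0, h⟩
      obtain ⟨k, hk, h2⟩ := apx_lt hn0 hRn h
      exact ⟨k, Finset.mem_range.2 hk, mem_dc.2 ⟨h0, h2⟩⟩
    · rintro ⟨k, -, h2⟩
      exact ⟨(mem_dc.1 h2).1, k, (mem_dc.1 h2).2⟩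
  rw [h1, Finset.card_biUnion]
  · rw [Finset.sum_congr rfl (fun k _ => card_dc_pow hn0 hRn hUR a k)]
    simp
  · intro i hi j hj hij
    show Disjoint _ _
    rw [Finset.disjoint_left]
    intro b hb hb'
    apply hij
    exact bal_ne hn hRn hUsym hUR ha (Finset.mem_range.1 hi) (Finset.mem_range.1 hj)
      (sim_trans (mem_dc.1 hb).2 (sim_symm hUsym (mem_dc.1 hb').2))

theorem unbal_clx {R : Equiv.Perm V} {U : V → V → Prop} 
    (hUR : ∀ a b, U a b → U (R a) (R b)) {a : V}
    (ha : sim U a (R a)) : clx R U a = cl U a ∧ dcx R U a = dc U a := by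
  have key : ∀ b, apx R U a b ↔ sim U a b := by
    intro b
    constructor
    · rintro ⟨k, hk⟩
      exact sim_trans (unbal_pow hUR ha k) hk
    · exact apx_of
  constructor
  · ext b; rw [mem_clx, mem_cl, key]
  · ext p; rw [mem_dcx, mem_dc, key]

/-- the setoid of `apx` -/
def apxS {R : Equiv.Perm V} {U : V → V → Prop} {n : ℕ} (hn0 : 0 < n) (hRn : R ^ n = 1)
    (hUsym : ∀ a b, U a b → U b a) (hUR : ∀ a b, U a b → U (R a) (R b)) : Setoid V where
  r := apx R U
  iseqv := ⟨apx_refl R U, fun h => apx_symm hn0 hRn hUsym hUR h, fun h h' => apx_trans hUR h h'⟩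

open Classical in
theorem card_eq_sum {R : Equiv.Perm V} {U : V → V → Prop} {n : ℕ} (hn0 : 0 < n) (hRn : R ^ n = 1)
    (hUsym : ∀ a b, U a b → U b a) (hUR : ∀ a b, U a b → U (R a) (R b)) :
    Fintype.card V = ∑ q : Quotient (apxS hn0 hRn hUsym hUR), (clx R U q.out).card := by
  rw [← Finset.card_univ (α := V), Finset.card_eq_sum_card_fiberwise
    (f := fun v => (Quotient.mk (apxS hn0 hRn hUsym hUR) v)) (t := Finset.univ) (by intro x _; simp)]
  apply Finset.sum_congr rfl
  intro q _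
  congr 1
  ext v
  rw [mem_clx, Finset.mem_filter]
  constructor
  · rintro ⟨-, h⟩
    have : Quotient.mk (apxS hn0 hRn hUsym hUR) q.out = Quotient.mk _ v := by
      rw [Quotient.out_eq]; exact h.symm
    exact Quotient.exact this
  · intro h
    refine ⟨Finset.mem_univ _, ?_⟩
    rw [← Quotient.out_eq q]
    exact (Quotient.sound h).symm

open Classical in
theorem dcard_eq_sum {R : Equiv.Perm V} {U : V → V → Prop} [DecidableRel U] {n : ℕ} (hn0 : 0 < n)
    (hRn : R ^ n = 1)
    (hUsym : ∀ a b, U a b → U b a) (hUR : ∀ a b, U a b → U (R a) (R b)) :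
    (Finset.univ.filter (fun x : V × V => U x.1 x.2)).card
      = ∑ q : Quotient (apxS hn0 hRn hUsym hUR), (dcx R U q.out).card := by
  rw [Finset.card_eq_sum_card_fiberwise
    (f := fun p : V × V => (Quotient.mk (apxS hn0 hRn hUsym hUR) p.1)) (t := Finset.univ)
      (by intro x _; simp)]
  apply Finset.sum_congr rfl
  intro q _
  congr 1
  ext p
  rw [mem_dcx, Finset.mem_filter, Finset.mem_filter]
  constructor
  · rintro ⟨⟨-, h0⟩, h⟩
    have : Quotient.mk (apxS hn0 hRn hUsym hUR) q.out = Quotient.mk _ p.1 := by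
      rw [Quotient.out_eq]; exact h.symm
    exact ⟨h0, Quotient.exact this⟩
  · rintro ⟨h0, h⟩
    refine ⟨⟨Finset.mem_univ _, h0⟩, ?_⟩
    rw [← Quotient.out_eq q]
    exact (Quotient.sound h).symm

theorem apx_out {R : Equiv.Perm V} {U : V → V → Prop} {n : ℕ} (hn0 : 0 < n) (hRn : R ^ n = 1)
    (hUsym : ∀ a b, U a b → U b a) (hUR : ∀ a b, U a b → U (R a) (R b)) (v : V) :
    apx R U (Quotient.mk (apxS hn0 hRn hUsym hUR) v).out v := by
  have h := Quotient.exact (s := apxS hn0 hRn hUsym hUR)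
    (Quotient.out_eq (Quotient.mk (apxS hn0 hRn hUsym hUR) v))
  exact h

/-- diagonal action on pairs -/
def dg : Equiv.Perm V →* Equiv.Perm (V × V) where
  toFun g := Equiv.prodCongr g g
  map_one' := by ext p <;> rfl
  map_mul' g h := by ext p <;> rfl

/-- swap of darts -/
def sw : Equiv.Perm (V × V) := Equiv.prodComm V V

theorem dg_apply (g : Equiv.Perm V) (p : V × V) : dg g p = (g p.1, g p.2) := rfl
theorem sw_apply (p : V × V) : (sw : Equiv.Perm (V × V)) p = (p.2, p.1) := rfl
theorem sw_sw : (sw : Equiv.Perm (V × V)) * sw = 1 := by ext p <;> rfl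
theorem dg_sw (g : Equiv.Perm V) : dg g * (sw : Equiv.Perm (V × V)) = sw * dg g := by
  ext p <;> rfl

theorem dg_mem_dc {U : V → V → Prop} {a : V} {g : Equiv.Perm V}
    (hg : ∀ a b, U a b → U (g a) (g b)) (ha : sim U a (g a)) : ∀ d ∈ dc U a, dg g d ∈ dc U a := by
  intro d hd
  rw [mem_dc] at hd ⊢
  exact ⟨hg _ _ hd.1, sim_trans ha (sim_map hg hd.2)⟩

theorem sw_mem_dc {U : V → V → Prop} (hUsym : ∀ a b, U a b → U b a) {a : V} :
    ∀ d ∈ dc U a, (sw : Equiv.Perm (V × V)) d ∈ dc U a := by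
  intro d hd
  rw [mem_dc] at hd ⊢
  exact ⟨hUsym _ _ hd.1, sim_trans hd.2 (sim_of hd.1)⟩

/-- four divides the number of darts when an involution acts freely -/
theorem four_dvd_dc {U : V → V → Prop} (hUirr : ∀ a, ¬ U a a) (hUsym : ∀ a b, U a b → U b a)
    {a : V} {g : Equiv.Perm V} (gg : g * g = 1)
    (hg : ∀ a b, U a b → U (g a) (g b)) (ha : sim U a (g a))
    (hfix : ∀ a b, U a b → ¬ (g a = a ∧ g b = b) ∧ ¬ (g a = b ∧ g b = a)) :
    4 ∣ (dc U a).card := by
  apply four_dvd (dg g) sw (by rw [← map_mul, gg, map_one]) sw_sw (dg_sw g) (dc U a)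
    (dg_mem_dc hg ha) (sw_mem_dc hUsym)
  · intro d hd h
    rw [dg_apply] at h
    exact (hfix _ _ (mem_dc.1 hd).1).1 ⟨congrArg Prod.fst h, congrArg Prod.snd h⟩
  · intro d hd h
    rw [sw_apply] at h
    have h1 : d.2 = d.1 := congrArg Prod.fst h
    have h2 := (mem_dc.1 hd).1
    rw [h1] at h2
    exact hUirr _ h2
  · intro d hd h
    rw [sw_apply, dg_apply] at h
    exact (hfix _ _ (mem_dc.1 hd).1).2 ⟨congrArg Prod.snd h, congrArg Prod.fst h⟩

theorem unbal_two {R : Equiv.Perm V} {U : V → V → Prop} (hfree : ∀ v, R v ≠ v) {a : V}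
    (ha : sim U a (R a)) : 2 ≤ (cl U a).card := by
  have h1 : ({a, R a} : Finset V) ⊆ cl U a := by
    intro x hx
    rw [Finset.mem_insert, Finset.mem_singleton] at hx
    rcases hx with rfl | rfl
    · exact mem_cl.2 (sim_refl U _)
    · exact mem_cl.2 ha
  have h2 : ({a, R a} : Finset V).card = 2 := Finset.card_pair (fun h => hfree a h.symm)
  rw [← h2]
  exact Finset.card_le_card h1

theorem unbal_dvd {R : Equiv.Perm V} {U : V → V → Prop} {n : ℕ} (hn : n = 2 ∨ n = 3)
    (hRn : R ^ n = 1) (hfree : ∀ v, R v ≠ v) (hUR : ∀ a b, U a b → U (R a) (R b)) {a : V}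
    (ha : sim U a (R a)) : n ∣ (cl U a).card := by
  apply n_dvd n hn R hRn
  · intro d hd
    rw [mem_cl] at hd ⊢
    exact sim_trans ha (sim_map hUR hd)
  · intro d _
    exact hfree d

theorem typU_sim {R : Equiv.Perm V} {η : ℂ} {U : V → V → Prop} {u : V → ℂ} (hu : u ∈ TypU R η U)
    {a b : V} (h : sim U a b) : u a = u b := by
  induction h with
  | refl => rfl
  | tail _ h2 ih => rw [ih]; exact hu.2 _ _ h2

theorem typU_pow {R : Equiv.Perm V} {η : ℂ} {U : V → V → Prop} {u : V → ℂ} (hu : u ∈ TypU R η U)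
    (k : ℕ) (a : V) : u ((R ^ k) a) = η ^ k * u a := by
  induction k with
  | zero => simp
  | succ m ih =>
    rw [pow_succ', Equiv.Perm.mul_apply, hu.1, ih]; ring

theorem typU_zero {R : Equiv.Perm V} {η : ℂ} {U : V → V → Prop} {u : V → ℂ} (hu : u ∈ TypU R η U)
    {a b : V} (h : apx R U a b) (h0 : u a = 0) : u b = 0 := by
  obtain ⟨k, hk⟩ := h
  rw [← typU_sim hu hk, typU_pow hu, h0, mul_zero]

theorem typU_unbal {R : Equiv.Perm V} {η : ℂ} {U : V → V → Prop} {u : V → ℂ} (hu : u ∈ TypU R η U)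
    (hη1 : η ≠ 1) {a : V} (h : sim U a (R a)) : u a = 0 := by
  have h1 := typU_sim hu h
  rw [hu.1] at h1
  have h2 : (1 - η) * u a = 0 := by linear_combination h1
  rcases mul_eq_zero.1 h2 with h3 | h3
  · exact absurd (by linear_combination -h3) hη1
  · exact h3

open Classical in
theorem rank_U {R : Equiv.Perm V} {U : V → V → Prop} {n : ℕ} (hn0 : 0 < n) (hRn : R ^ n = 1)
    (hUsym : ∀ a b, U a b → U b a) (hUR : ∀ a b, U a b → U (R a) (R b)) (η : ℂ) (hη1 : η ≠ 1) :
    finrank ℂ (TypU R η U) ≤ ∑ q : Quotient (apxS hn0 hRn hUsym hUR),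
      (if sim U q.out (R q.out) then 0 else 1) := by
  let B := {q : Quotient (apxS hn0 hRn hUsym hUR) // ¬ sim U q.out (R q.out)}
  let f : TypU R η U →ₗ[ℂ] (B → ℂ) :=
    (LinearMap.funLeft ℂ ℂ (fun q : B => q.1.out)).comp (TypU R η U).subtype
  have hinj : Function.Injective f := by
    rw [← LinearMap.ker_eq_bot, LinearMap.ker_eq_bot']
    intro u hu
    have h1 : ∀ q : B, u.1 q.1.out = 0 := fun q => congrFun hu q
    have h2 : ∀ q : Quotient (apxS hn0 hRn hUsym hUR), u.1 q.out = 0 := by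
      intro q
      by_cases hq : sim U q.out (R q.out)
      · exact typU_unbal u.2 hη1 hq
      · exact h1 ⟨q, hq⟩
    ext v
    have h3 : apx R U (Quotient.mk (apxS hn0 hRn hUsym hUR) v).out v :=
      apx_out hn0 hRn hUsym hUR v
    exact typU_zero u.2 h3 (h2 _)
  have h4 := LinearMap.finrank_le_finrank_of_injective hinj
  rw [Module.finrank_fintype_fun_eq_card] at h4
  refine h4.trans (le_of_eq ?_)
  rw [Fintype.card_subtype, Finset.card_filter]
  apply Finset.sum_congr rfl
  intro q _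
  by_cases hq : sim U q.out (R q.out) <;> simp [hq]

open Classical in
theorem rank_U1 {R : Equiv.Perm V} {U : V → V → Prop} {n : ℕ} (hn0 : 0 < n) (hRn : R ^ n = 1)
    (hUsym : ∀ a b, U a b → U b a) (hUR : ∀ a b, U a b → U (R a) (R b)) (η : ℂ) :
    finrank ℂ (TypU R η U) ≤ ∑ q : Quotient (apxS hn0 hRn hUsym hUR), 1 := by
  let B := Quotient (apxS hn0 hRn hUsym hUR)
  let f : TypU R η U →ₗ[ℂ] (B → ℂ) :=
    (LinearMap.funLeft ℂ ℂ (fun q : B => q.out)).comp (TypU R η U).subtype
  have hinj : Function.Injective f := by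
    rw [← LinearMap.ker_eq_bot, LinearMap.ker_eq_bot']
    intro u hu
    have h2 : ∀ q : B, u.1 q.out = 0 := fun q => congrFun hu q
    ext v
    have h3 : apx R U (Quotient.mk (apxS hn0 hRn hUsym hUR) v).out v :=
      apx_out hn0 hRn hUsym hUR v
    exact typU_zero u.2 h3 (h2 _)
  have h4 := LinearMap.finrank_le_finrank_of_injective hinj
  rw [Module.finrank_fintype_fun_eq_card] at h4
  refine h4.trans (le_of_eq ?_)
  simp [B]


theorem S_pow {R S : Equiv.Perm V} (hSS : S * S = 1) (hSRS : S * R * S = R⁻¹) (k : ℕ) :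
    S * R ^ k * S = (R ^ k)⁻¹ := by
  induction k with
  | zero => rw [pow_zero, mul_one, hSS, inv_one]
  | succ m ih =>
    calc S * R ^ (m + 1) * S = S * R ^ m * (S * S) * R * S := by rw [hSS, mul_one, pow_succ]; group
      _ = (S * R ^ m * S) * (S * R * S) := by simp only [mul_assoc]
      _ = (R ^ m)⁻¹ * R⁻¹ := by rw [ih, hSRS]
      _ = (R ^ (m + 1))⁻¹ := by rw [pow_succ', mul_inv_rev]

theorem apx_S {R S : Equiv.Perm V} {U : V → V → Prop} {n : ℕ} (hn0 : 0 < n) (hRn : R ^ n = 1)
    (hSS : S * S = 1) (hSRS : S * R * S = R⁻¹) (hUS : ∀ a b, U a b → U (S a) (S b)) {a b : V}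
    (h : apx R U a b) : apx R U (S a) (S b) := by
  obtain ⟨k, hk⟩ := h
  obtain ⟨m, hm⟩ := inv_pow_ex hn0 hRn k
  refine ⟨m, ?_⟩
  have h1 := sim_map hUS hk
  have h2 : S * R ^ k = R ^ m * S := by
    have h3 : R ^ m = (R ^ k)⁻¹ := eq_inv_of_mul_eq_one_left hm
    rw [h3, ← S_pow hSS hSRS k, mul_assoc, mul_assoc, hSS, mul_one]
  rw [← Equiv.Perm.mul_apply, h2, Equiv.Perm.mul_apply] at h1
  exact h1

/-- the contribution of a class -/
theorem A_half {n : ℕ} (hn : n = 2 ∨ n = 3)
    (R : Equiv.Perm V) (hRn : R ^ n = 1) 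
    (hfree : ∀ v, R v ≠ v) (U : V → V → Prop) [DecidableRel U]
    (hUirr : ∀ a, ¬ U a a) (hUsym : ∀ a b, U a b → U b a)
    (hUR : ∀ a b, U a b → U (R a) (R b)) 
    (hsparse : ∀ C : Finset V, 2 ≤ C.card →
      ((C ×ˢ C).filter (fun x : V × V => U x.1 x.2)).card + 6 ≤ 4 * C.card) (a : V) :
    (sim U a (R a) → (dcx R U a).card + 2 * n ≤ 4 * (clx R U a).card) ∧
    (¬ sim U a (R a) → 4 * n + (dcx R U a).card ≤ 4 * (clx R U a).card ∧
      (0 < (dcx R U a).card → 4 * n + (dcx R U a).card + 2 * n ≤ 4 * (clx R U a).card)) := by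
  constructor
  · intro ha
    have h1 := unbal_two hfree ha
    rcases dc_sparse U hUirr hsparse a with ⟨h5, h6⟩ | ⟨h5, h6⟩
    · omega
    · rw [(unbal_clx hUR ha).1, (unbal_clx hUR ha).2]
      omega
  · intro ha
    rw [bal_card hn hRn hUsym hUR ha, bal_dcard hn hRn hUsym hUR ha]
    rcases dc_sparse U hUirr hsparse a with ⟨h5, h6⟩ | ⟨h5, h6⟩
    · rw [h5, h6]
      constructor
      · omega
      · intro h; simp at h
    · rcases hn with rfl | rfl
      · constructor
        · omega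
        · intro _; omega
      · constructor
        · omega
        · intro _; omega

theorem A_full {n : ℕ} (hn : n = 2 ∨ n = 3)
    (R S : Equiv.Perm V) (hRn : R ^ n = 1) (hSS : S * S = 1) (hSRS : S * R * S = R⁻¹)
    (hfree : ∀ v, R v ≠ v) (U : V → V → Prop) [DecidableRel U]
    (hUirr : ∀ a, ¬ U a a) (hUsym : ∀ a b, U a b → U b a)
    (hUR : ∀ a b, U a b → U (R a) (R b)) (hUS : ∀ a b, U a b → U (S a) (S b))
    (hfixS : ∀ a b, U a b → ∀ k : ℕ, ¬ ((R ^ k * S) a = a ∧ (R ^ k * S) b = b) ∧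
      ¬ ((R ^ k * S) a = b ∧ (R ^ k * S) b = a))
    (hfixR : ∀ a b, U a b → ∀ k : ℕ, ¬ ((R ^ k) a = b ∧ (R ^ k) b = a))
    (hsparse : ∀ C : Finset V, 2 ≤ C.card →
      ((C ×ˢ C).filter (fun x : V × V => U x.1 x.2)).card + 6 ≤ 4 * C.card) (a : V)
    (hpos : 0 < (dcx R U a).card) (haS : apx R U a (S a)) :
    (sim U a (R a) → (dcx R U a).card + 4 * n ≤ 4 * (clx R U a).card) ∧
    (¬ sim U a (R a) → 4 * n + (dcx R U a).card + 4 * n ≤ 4 * (clx R U a).card) := by
  have hn0 : 0 < n := by omega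
  constructor
  · intro ha
    have h1 := unbal_two hfree ha
    have h2 := unbal_dvd hn hRn hfree hUR ha
    rw [(unbal_clx hUR ha).1, (unbal_clx hUR ha).2]
    -- S preserves the class
    have hS : sim U a (S a) := by
      obtain ⟨k, hk⟩ := haS
      exact sim_trans (unbal_pow hUR ha k) hk
    have h3 : 4 * n ∣ (dc U a).card := by
      have hfixS0 : ∀ x y, U x y → ¬ (S x = x ∧ S y = y) ∧ ¬ (S x = y ∧ S y = x) := by
        intro x y hxy
        have := hfixS x y hxy 0
        simpa using this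
      rcases hn with rfl | rfl
      · have hRR : R * R = 1 := by rw [← pow_two, hRn]
        have hRS : R * S = S * R := by
          have h4 : R⁻¹ = R := inv_eq_of_mul_eq_one_left hRR
          rw [h4] at hSRS
          calc R * S = (S * R * S) * S := by rw [hSRS]
            _ = S * R := by rw [mul_assoc, hSS, mul_one]
        apply eight_dvd (dg R) (dg S) sw (by rw [← map_mul, hRR, map_one])
          (by rw [← map_mul, hSS, map_one]) sw_sw (by rw [← map_mul, ← map_mul, hRS]) (dg_sw R)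
          (dg_sw S) (dc U a) (dg_mem_dc hUR ha) (dg_mem_dc hUS hS) (sw_mem_dc hUsym)
        · intro d hd h
          rw [dg_apply] at h
          exact hfree _ (congrArg Prod.fst h)
        · intro d hd h
          rw [dg_apply] at h
          exact (hfixS0 _ _ (mem_dc.1 hd).1).1 ⟨congrArg Prod.fst h, congrArg Prod.snd h⟩
        · intro d hd h
          rw [dg_apply, dg_apply] at h
          have := (hfixS _ _ (mem_dc.1 hd).1 1).1
          rw [pow_one] at this
          exact this ⟨congrArg Prod.fst h, congrArg Prod.snd h⟩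
        · intro d hd h
          rw [sw_apply] at h
          have h1 : d.2 = d.1 := congrArg Prod.fst h
          have h2 := (mem_dc.1 hd).1
          rw [h1] at h2
          exact hUirr _ h2
        · intro d hd h
          rw [sw_apply, dg_apply] at h
          have := (hfixR _ _ (mem_dc.1 hd).1 1)
          rw [pow_one] at this
          exact this ⟨congrArg Prod.snd h, congrArg Prod.fst h⟩
        · intro d hd h
          rw [sw_apply, dg_apply] at h
          exact (hfixS0 _ _ (mem_dc.1 hd).1).2 ⟨congrArg Prod.snd h, congrArg Prod.fst h⟩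
        · intro d hd h
          rw [sw_apply, dg_apply, dg_apply] at h
          have := (hfixS _ _ (mem_dc.1 hd).1 1).2
          rw [pow_one] at this
          exact this ⟨congrArg Prod.snd h, congrArg Prod.fst h⟩
      · have h4 : 4 ∣ (dc U a).card := four_dvd_dc hUirr hUsym hSS hUS hS hfixS0
        have h5 : 3 ∣ (dc U a).card := by
          apply n_dvd 3 (Or.inr rfl) (dg R) (by rw [← map_pow, hRn, map_one]) (dc U a)
            (dg_mem_dc hUR ha)
          intro d hd h
          rw [dg_apply] at h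
          exact hfree _ (congrArg Prod.fst h)
        omega
    rcases dc_sparse U hUirr hsparse a with ⟨h5, h6⟩ | ⟨h5, h6⟩
    · omega
    · rcases hn with rfl | rfl <;> omega
  · intro ha
    rw [bal_dcard hn hRn hUsym hUR ha] at hpos
    rw [bal_card hn hRn hUsym hUR ha, bal_dcard hn hRn hUsym hUR ha]
    obtain ⟨k, hk⟩ := haS
    obtain ⟨m, hm⟩ := inv_pow_ex hn0 hRn k
    have h1 := sim_pow hUR m hk
    rw [← Equiv.Perm.mul_apply, hm, Equiv.Perm.one_apply, ← Equiv.Perm.mul_apply] at h1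
    have h2 : (R ^ m * S) * (R ^ m * S) = 1 := by
      calc (R ^ m * S) * (R ^ m * S) = R ^ m * (S * R ^ m * S) := by simp only [mul_assoc]
        _ = 1 := by rw [S_pow hSS hSRS, mul_inv_cancel]
    have h3 : 4 ∣ (dc U a).card := four_dvd_dc hUirr hUsym h2
      (fun x y hxy => by
        rw [Equiv.Perm.mul_apply, Equiv.Perm.mul_apply]
        exact U_pow hUR m (hUS _ _ hxy)) h1 (fun x y hxy => hfixS x y hxy m)
    rcases dc_sparse U hUirr hsparse a with ⟨h5, h6⟩ | ⟨h5, h6⟩
    · rw [h6] at hpos; simp at hpos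
    · rcases hn with rfl | rfl <;> omega


end comp

/-- TARGET. Component count for symmetric sparse dart sets U under a dihedral group of order 2n. -/
theorem count_A {V : Type} [Fintype V] [DecidableEq V] (n : ℕ) (hn : n = 2 ∨ n = 3)
    (R S : Equiv.Perm V) (hRn : R ^ n = 1) (hSS : S * S = 1) (hSRS : S * R * S = R⁻¹)
    (hfree : ∀ v, R v ≠ v) (U : V → V → Prop) [DecidableRel U]
    (hUirr : ∀ a, ¬ U a a) (hUsym : ∀ a b, U a b → U b a)
    (hUR : ∀ a b, U a b → U (R a) (R b)) (hUS : ∀ a b, U a b → U (S a) (S b))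
    (hfixS : ∀ a b, U a b → ∀ k : ℕ, ¬ ((R ^ k * S) a = a ∧ (R ^ k * S) b = b) ∧
      ¬ ((R ^ k * S) a = b ∧ (R ^ k * S) b = a))
    (hfixR : ∀ a b, U a b → ∀ k : ℕ, ¬ ((R ^ k) a = b ∧ (R ^ k) b = a))
    (hsparse : ∀ C : Finset V, 2 ≤ C.card →
      ((C ×ˢ C).filter (fun x : V × V => U x.1 x.2)).card + 6 ≤ 4 * C.card)
    (hne : ∃ a b, U a b) (η : ℂ) (hη : η ^ n = 1) (hη1 : η ≠ 1) :
    4 * n * finrank ℂ (TypU R η U) + (Finset.univ.filter (fun x : V × V => U x.1 x.2)).card + 4 * n
      ≤ 4 * Fintype.card V := by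
  classical
  have hn0 : 0 < n := by omega
  have h1 := rank_U (R := R) (U := U) hn0 hRn hUsym hUR η hη1
  have h2 := card_eq_sum (R := R) (U := U) hn0 hRn hUsym hUR
  have h3 := dcard_eq_sum (R := R) (U := U) hn0 hRn hUsym hUR
  set b : V → ℤ := fun a => if sim U a (R a) then 0 else 1 with hb
  set t : V → ℤ := fun a => 4 * ((clx R U a).card : ℤ) - 4 * n * b a - ((dcx R U a).card : ℤ) with ht
  have hhalf := A_half hn R hRn hfree U hUirr hUsym hUR hsparse
  have t0 : ∀ a, 0 ≤ t a := by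
    intro a
    simp only [ht, hb]
    by_cases ha : sim U a (R a)
    · rw [if_pos ha]
      have := (hhalf a).1 ha
      omega
    · rw [if_neg ha]
      have := ((hhalf a).2 ha).1
      omega
  have t1 : ∀ a, 0 < (dcx R U a).card → 2 * (n : ℤ) ≤ t a := by
    intro a hpos
    simp only [ht, hb]
    by_cases ha : sim U a (R a)
    · rw [if_pos ha]
      have := (hhalf a).1 ha
      omega
    · rw [if_neg ha]
      have := ((hhalf a).2 ha).2 hpos
      omega
  have t2 : ∀ a, 0 < (dcx R U a).card → apx R U a (S a) → 4 * (n : ℤ) ≤ t a := by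
    intro a hpos haS
    have hf := A_full hn R S hRn hSS hSRS hfree U hUirr hUsym hUR hUS hfixS hfixR hsparse a hpos haS
    simp only [ht, hb]
    by_cases ha : sim U a (R a)
    · rw [if_pos ha]
      have := hf.1 ha
      omega
    · rw [if_neg ha]
      have := hf.2 ha
      omega
  have hsum : 4 * (n : ℤ) ≤ ∑ q : Quotient (apxS hn0 hRn hUsym hUR), t q.out := by
    obtain ⟨x, y, hxy⟩ := hne
    set q1 := Quotient.mk (apxS hn0 hRn hUsym hUR) x with hq1
    set q2 := Quotient.mk (apxS hn0 hRn hUsym hUR) (S x) with hq2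
    have e1 : apx R U q1.out x := apx_out hn0 hRn hUsym hUR x
    have e2 : apx R U q2.out (S x) := apx_out hn0 hRn hUsym hUR (S x)
    have p1 : 0 < (dcx R U q1.out).card := Finset.card_pos.2 ⟨(x, y), mem_dcx.2 ⟨hxy, e1⟩⟩
    have p2 : 0 < (dcx R U q2.out).card :=
      Finset.card_pos.2 ⟨(S x, S y), mem_dcx.2 ⟨hUS _ _ hxy, e2⟩⟩
    by_cases hq : q1 = q2
    · have e3 : apx R U q1.out (S q1.out) := by
        have h5 : apx R U (S q1.out) (S x) := apx_S hn0 hRn hSS hSRS hUS e1
        rw [← hq] at e2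
        exact apx_trans hUR e2 (apx_symm hn0 hRn hUsym hUR h5)
      calc 4 * (n : ℤ) ≤ t q1.out := t2 _ p1 e3
        _ ≤ _ := Finset.single_le_sum (f := fun q : Quotient (apxS hn0 hRn hUsym hUR) => t q.out)
          (fun q _ => t0 _) (Finset.mem_univ q1)
    · have h6 : ∑ q ∈ ({q1, q2} : Finset (Quotient (apxS hn0 hRn hUsym hUR))), t q.out
          ≤ ∑ q : Quotient (apxS hn0 hRn hUsym hUR), t q.out :=
        Finset.sum_le_sum_of_subset_of_nonneg (Finset.subset_univ _) (fun q _ _ => t0 _)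
      rw [Finset.sum_pair hq] at h6
      have h7 := t1 _ p1
      have h8 := t1 _ p2
      linarith
  have h4 : (finrank ℂ (TypU R η U) : ℤ) ≤ ∑ q : Quotient (apxS hn0 hRn hUsym hUR), b q.out := by
    have h5 : ((∑ q : Quotient (apxS hn0 hRn hUsym hUR),
      (if sim U q.out (R q.out) then 0 else 1) : ℕ) : ℤ)
        = ∑ q : Quotient (apxS hn0 hRn hUsym hUR), b q.out := by
      rw [Nat.cast_sum]
      apply Finset.sum_congr rfl
      intro q _
      simp only [hb]
      split_ifs <;> simp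
    rw [← h5]
    exact_mod_cast h1
  have h5 : ∑ q : Quotient (apxS hn0 hRn hUsym hUR), t q.out
      = 4 * (Fintype.card V : ℤ) - 4 * n * (∑ q : Quotient (apxS hn0 hRn hUsym hUR), b q.out)
        - ((Finset.univ.filter (fun x : V × V => U x.1 x.2)).card : ℤ) := by
    rw [h2, h3]
    simp only [ht]
    rw [Finset.sum_sub_distrib, Finset.sum_sub_distrib, ← Finset.mul_sum, ← Finset.mul_sum]
    push_cast
    ring
  have h6 : 4 * (n : ℤ) * finrank ℂ (TypU R η U)
      ≤ 4 * n * (∑ q : Quotient (apxS hn0 hRn hUsym hUR), b q.out) := by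
    apply mul_le_mul_of_nonneg_left h4
    positivity
  have h7 : 4 * (n : ℤ) * finrank ℂ (TypU R η U)
      + ((Finset.univ.filter (fun x : V × V => U x.1 x.2)).card : ℤ) + 4 * n
      ≤ 4 * (Fintype.card V : ℤ) := by
    linarith
  exact_mod_cast h7

end Pool.Agent.DihLaman.J468
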