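import Pool.Agent.Helper927.DLDefs
set_option autoImplicit false
set_option maxHeartbeats 4000000
open Module Submodule

namespace Pool.Agent.DihLaman.J502
open Pool.Agent.DihLaman

theorem op_ff {V : Type} (R S : Equiv.Perm V) (k : ℕ) (x : V × V) :
    op R S k false false x = ((R ^ k) x.1, (R ^ k) x.2) := by simp [op]
theorem op_ft {V : Type} (R S : Equiv.Perm V) (k : ℕ) (x : V × V) :
    op R S k false true x = ((R ^ k) x.2, (R ^ k) x.1) := by simp [op]
theorem op_tf {V : Type} (R S : Equiv.Perm V) (k : ℕ) (x : V × V) :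
    op R S k true false x = ((R ^ k) (S x.1), (R ^ k) (S x.2)) := by simp [op]
theorem op_tt {V : Type} (R S : Equiv.Perm V) (k : ℕ) (x : V × V) :
    op R S k true true x = ((R ^ k) (S x.2), (R ^ k) (S x.1)) := by simp [op]

theorem pow_mod_eq {V : Type} (R : Equiv.Perm V) (n : ℕ) (hRn : R ^ n = 1) (k : ℕ) :
    R ^ (k % n) = R ^ k := by
  conv_rhs => rw [← Nat.mod_add_div k n, pow_add, pow_mul, hRn, one_pow, mul_one]

theorem op_mod {V : Type} (R S : Equiv.Perm V) (n : ℕ) (hRn : R ^ n = 1) (k : ℕ) (ε δ : Bool)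
    (x : V × V) : op R S (k % n) ε δ x = op R S k ε δ x := by
  simp only [op, pow_mod_eq R n hRn k]

/-- swapping once more -/
theorem op_swap {V : Type} (R S : Equiv.Perm V) (k : ℕ) (ε δ : Bool) (x : V × V) :
    ((op R S k ε δ x).2, (op R S k ε δ x).1) = op R S k ε (!δ) x := by
  cases ε <;> cases δ <;> simp [op]

theorem op_R {V : Type} (R S : Equiv.Perm V) (j k : ℕ) (ε δ : Bool) (x : V × V) :
    ((R ^ j) (op R S k ε δ x).1, (R ^ j) (op R S k ε δ x).2) = op R S (j + k) ε δ x := by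
  cases ε <;> cases δ <;> simp [op, pow_add, Equiv.Perm.mul_apply]

theorem S_R_pow {V : Type} (R S : Equiv.Perm V) (hSS : S * S = 1) (hSRS : S * R * S = R⁻¹)
    (k : ℕ) : S * R ^ k = (R⁻¹) ^ k * S := by
  have h1 : S * R = R⁻¹ * S := by
    rw [← hSRS, mul_assoc, hSS, mul_one]
  induction k with
  | zero => simp
  | succ k ih =>
    rw [pow_succ, ← mul_assoc, ih, mul_assoc, h1, ← mul_assoc, ← pow_succ]

theorem inv_pow_eq {V : Type} (R : Equiv.Perm V) (n : ℕ) (hn : 0 < n) (hRn : R ^ n = 1) (k : ℕ) :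
    (R⁻¹) ^ k = R ^ ((n - 1) * k) := by
  have h1 : R⁻¹ = R ^ (n - 1) := by
    rw [inv_eq_iff_mul_eq_one, ← pow_succ', Nat.sub_add_cancel hn, hRn]
  rw [h1, ← pow_mul]

theorem op_S {V : Type} (n : ℕ) (hn : 0 < n)
    (R S : Equiv.Perm V) (hRn : R ^ n = 1) (hSS : S * S = 1) (hSRS : S * R * S = R⁻¹)
    (k : ℕ) (ε δ : Bool) (x : V × V) :
    (S (op R S k ε δ x).1, S (op R S k ε δ x).2) = op R S ((n - 1) * k) (!ε) δ x := by
  have h1 : ∀ a : V, S ((R ^ k) a) = (R ^ ((n - 1) * k)) (S a) := by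
    intro a
    have := congrArg (fun p : Equiv.Perm V => p a) (S_R_pow R S hSS hSRS k)
    simpa [Equiv.Perm.mul_apply, inv_pow_eq R n hn hRn k] using this
  have h2 : ∀ a : V, S (S a) = a := by
    intro a
    have := congrArg (fun p : Equiv.Perm V => p a) hSS
    simpa [Equiv.Perm.mul_apply] using this
  cases ε <;> cases δ <;> simp [op, h1, h2]

/-- reachability is transitive -/
theorem op_comp {V : Type} (n : ℕ) (hn : 0 < n)
    (R S : Equiv.Perm V) (hRn : R ^ n = 1) (hSS : S * S = 1) (hSRS : S * R * S = R⁻¹)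
    (k k' : ℕ) (ε ε' δ δ' : Bool) (x : V × V) :
    ∃ k'' : ℕ, op R S k' ε' δ' (op R S k ε δ x) = op R S k'' (xor ε ε') (xor δ δ') x := by
  set y := op R S k ε δ x with hy
  obtain ⟨a, ha⟩ : ∃ a : ℕ, (if ε' then (S y.1, S y.2) else y) = op R S a (xor ε ε') δ x := by
    cases ε'
    · exact ⟨k, by simp [hy]⟩
    · refine ⟨(n - 1) * k, ?_⟩
      have := op_S n hn R S hRn hSS hSRS k ε δ x
      simpa [hy] using this
  refine ⟨k' + a, ?_⟩
  have hb := op_R R S k' a (xor ε ε') δ x
  rw [← ha] at hb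
  cases δ'
  · simp only [Bool.xor_false]
    rw [← hb]
    simp [op]
  · simp only [Bool.xor_true]
    rw [← op_swap, ← hb]
    simp [op]

/-- reachability is symmetric -/
theorem op_inv {V : Type} (n : ℕ) (hn : 0 < n)
    (R S : Equiv.Perm V) (hRn : R ^ n = 1) (hSS : S * S = 1) (hSRS : S * R * S = R⁻¹)
    (k : ℕ) (ε δ : Bool) (x : V × V) :
    ∃ k'' : ℕ, op R S k'' ε δ (op R S k ε δ x) = x := by
  have h2 : ∀ a : V, S (S a) = a := by
    intro a
    have := congrArg (fun p : Equiv.Perm V => p a) hSS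
    simpa [Equiv.Perm.mul_apply] using this
  have h0 : ∀ a : V, (R ^ ((n - 1) * k)) ((R ^ k) a) = a := by
    intro a
    rw [← Equiv.Perm.mul_apply, ← pow_add]
    have : (n - 1) * k + k = n * k := by
      obtain ⟨m, rfl⟩ : ∃ m, n = m + 1 := ⟨n - 1, by omega⟩
      simp; ring
    rw [this, pow_mul, hRn]; simp
  cases ε
  · refine ⟨(n - 1) * k, ?_⟩
    cases δ <;> simp [op, h0]
  · -- op true is an involution up to the power
    refine ⟨k, ?_⟩
    have h1 : ∀ a : V, (R ^ k) (S ((R ^ k) a)) = S a := by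
      intro a
      have := congrArg (fun p : Equiv.Perm V => p a) (S_R_pow R S hSS hSRS k)
      simp only [Equiv.Perm.mul_apply] at this
      rw [this, ← Equiv.Perm.mul_apply, inv_pow, mul_inv_cancel]; simp
    cases δ <;> simp [op, h1, h2]

theorem op_mem {V : Type} (R S : Equiv.Perm V)
    (Z : Finset (V × V)) (hZR : ∀ a b, (a, b) ∈ Z → (R a, R b) ∈ Z)
    (hZS : ∀ a b, (a, b) ∈ Z → (S a, S b) ∈ Z) (hZsw : ∀ a b, (a, b) ∈ Z → (b, a) ∈ Z)
    (k : ℕ) (ε δ : Bool) (x : V × V) (hx : x ∈ Z) : op R S k ε δ x ∈ Z := by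
  have h1 : ∀ (j : ℕ) (y : V × V), y ∈ Z → ((R ^ j) y.1, (R ^ j) y.2) ∈ Z := by
    intro j
    induction j with
    | zero => intro y hy; simpa using hy
    | succ j ih =>
      intro y hy
      have := ih (R y.1, R y.2) (hZR _ _ hy)
      simpa [pow_succ, Equiv.Perm.mul_apply] using this
  have h2 : (if ε then (S x.1, S x.2) else x) ∈ Z := by
    cases ε
    · simpa using hx
    · simpa using hZS _ _ hx
  have h3 := h1 k _ h2
  cases δ
  · simpa [op] using h3
  · simpa [op] using hZsw _ _ h3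

/-- uniqueness on a single point -/
theorem op_uniq {V : Type} (n : ℕ) (hn : 0 < n)
    (R S : Equiv.Perm V) (hRn : R ^ n = 1) (hSS : S * S = 1)
    (Z : Finset (V × V))
    (hZS : ∀ a b, (a, b) ∈ Z → (S a, S b) ∈ Z)
    (hfree : ∀ x ∈ Z, ∀ k : ℕ, k < n → ∀ ε δ : Bool, op R S k ε δ x = x → k = 0 ∧ ε = false ∧ δ = false)
    (x : V × V) (hx : x ∈ Z) (k k' : ℕ) (hk : k < n) (hk' : k' < n) (ε ε' δ δ' : Bool)
    (h : op R S k ε δ x = op R S k' ε' δ' x) : k = k' ∧ ε = ε' ∧ δ = δ' := by
  have h2 : ∀ a : V, S (S a) = a := by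
    intro a
    have := congrArg (fun p : Equiv.Perm V => p a) hSS
    simpa [Equiv.Perm.mul_apply] using this
  have key : ∀ y ∈ Z, ∀ (ε δ δ' : Bool), op R S k ε δ y = op R S k' false δ' y →
      k = k' ∧ ε = false ∧ δ = δ' := by
    intro y hy ε δ δ' h
    have h3 : op R S ((n - k') + k) ε (xor δ δ') y = y := by
      have h4 : op R S k ε (xor δ δ') y = ((R ^ k') y.1, (R ^ k') y.2) := by
        cases δ'
        · simpa [op_ff] using h
        · have h5 := congrArg (fun p : V × V => (p.2, p.1)) h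
          simp only [op_swap] at h5
          simpa [op_ff] using h5
      rw [← op_R, h4]
      have h6 : ∀ a : V, (R ^ (n - k')) ((R ^ k') a) = a := by
        intro a
        rw [← Equiv.Perm.mul_apply, ← pow_add, Nat.sub_add_cancel hk'.le, hRn]; simp
      simp [h6]
    rw [← op_mod R S n hRn] at h3
    obtain ⟨h4, h5, h6⟩ := hfree y hy _ (Nat.mod_lt _ hn) _ _ h3
    refine ⟨?_, h5, ?_⟩
    · obtain ⟨q, hq⟩ := Nat.dvd_of_mod_eq_zero h4
      have hq1 : q = 1 := by
        have h7 : 0 < q := by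
          rcases Nat.eq_zero_or_pos q with h | h
          · subst h; simp at hq; omega
          · exact h
        have h8 : q < 2 := by
          by_contra hcon
          push Not at hcon
          have : n * 2 ≤ n * q := Nat.mul_le_mul_left n hcon
          omega
        omega
      subst hq1
      omega
    · revert h6; cases δ <;> cases δ' <;> simp
  cases ε'
  · exact key x hx ε δ δ' h
  · have hy : (S x.1, S x.2) ∈ Z := hZS _ _ hx
    have := key (S x.1, S x.2) hy (!ε) δ δ' (by
      cases ε <;> cases δ <;> cases δ' <;> simpa [op, h2] using h)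
    obtain ⟨h3, h4, h5⟩ := this
    refine ⟨h3, ?_, h5⟩
    revert h4; cases ε <;> simp

/-- TARGET 1. Orbit representatives for a free invariant finite set of pairs. -/
theorem exists_index {V : Type} [Fintype V] [DecidableEq V] (n : ℕ) (hn : 0 < n)
    (R S : Equiv.Perm V) (hRn : R ^ n = 1) (hSS : S * S = 1) (hSRS : S * R * S = R⁻¹)
    (Z : Finset (V × V)) (hZR : ∀ a b, (a, b) ∈ Z → (R a, R b) ∈ Z)
    (hZS : ∀ a b, (a, b) ∈ Z → (S a, S b) ∈ Z) (hZsw : ∀ a b, (a, b) ∈ Z → (b, a) ∈ Z)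
    (hfree : ∀ x ∈ Z, ∀ k : ℕ, k < n → ∀ ε δ : Bool, op R S k ε δ x = x → k = 0 ∧ ε = false ∧ δ = false) :
    ∃ (m : ℕ) (rep : Fin m → V × V), (∀ i, rep i ∈ Z) ∧
      (∀ x ∈ Z, ∃ k : ℕ, k < n ∧ ∃ (ε δ : Bool) (i : Fin m), x = op R S k ε δ (rep i)) ∧
      (∀ k k' : ℕ, k < n → k' < n → ∀ (ε ε' δ δ' : Bool) (i i' : Fin m),
        op R S k ε δ (rep i) = op R S k' ε' δ' (rep i') → k = k' ∧ ε = ε' ∧ δ = δ' ∧ i = i') ∧
      (∀ J : Finset (Fin m), (Finset.univ.filter (fun x : V × V =>
        ∃ i ∈ J, ∃ k : ℕ, k < n ∧ ∃ ε δ : Bool, x = op R S k ε δ (rep i))).card = 4 * n * J.card) ∧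
      Z.card = 4 * n * m := by
  classical
  let st : Setoid {x // x ∈ Z} :=
    { r := fun x y => ∃ (k : ℕ) (ε δ : Bool), y.1 = op R S k ε δ x.1
      iseqv := by
        refine ⟨fun x => ⟨0, false, false, by simp [op]⟩, ?_, ?_⟩
        · rintro x y ⟨k, ε, δ, h⟩
          obtain ⟨k'', h2⟩ := op_inv n hn R S hRn hSS hSRS k ε δ x.1
          exact ⟨k'', ε, δ, by rw [h, h2]⟩
        · rintro x y z ⟨k, ε, δ, h⟩ ⟨k', ε', δ', h'⟩
          obtain ⟨k'', h2⟩ := op_comp n hn R S hRn hSS hSRS k k' ε ε' δ δ' x.1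
          exact ⟨k'', _, _, by rw [h', h, h2]⟩ }
  let Q := Quotient st
  have : Fintype Q := inferInstance
  let e : Fin (Fintype.card Q) ≃ Q := (Fintype.equivFin Q).symm
  let rep : Fin (Fintype.card Q) → V × V := fun i => (Quotient.out (e i)).1
  have hrep : ∀ i, rep i ∈ Z := fun i => (Quotient.out (e i)).2
  have hcov : ∀ x ∈ Z, ∃ k : ℕ, k < n ∧ ∃ (ε δ : Bool) (i : Fin (Fintype.card Q)),
      x = op R S k ε δ (rep i) := by
    intro x hx
    let q : Q := Quotient.mk st ⟨x, hx⟩
    have h1 : st.r (Quotient.out (e (e.symm q))) ⟨x, hx⟩ := by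
      rw [Equiv.apply_symm_apply]
      exact Quotient.exact (Quotient.out_eq q)
    obtain ⟨k, ε, δ, h⟩ := h1
    exact ⟨k % n, Nat.mod_lt _ hn, ε, δ, e.symm q, by rw [op_mod R S n hRn]; exact h⟩
  have huniq : ∀ k k' : ℕ, k < n → k' < n → ∀ (ε ε' δ δ' : Bool) (i i' : Fin (Fintype.card Q)),
        op R S k ε δ (rep i) = op R S k' ε' δ' (rep i') → k = k' ∧ ε = ε' ∧ δ = δ' ∧ i = i' := by
    intro k k' hk hk' ε ε' δ δ' i i' h
    have hii : i = i' := by
      have hm : op R S k ε δ (rep i) ∈ Z := op_mem R S Z hZR hZS hZsw k ε δ _ (hrep i)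
      have h1 : st.r (Quotient.out (e i)) ⟨op R S k ε δ (rep i), hm⟩ := ⟨k, ε, δ, rfl⟩
      have h2 : st.r (Quotient.out (e i')) ⟨op R S k ε δ (rep i), hm⟩ := ⟨k', ε', δ', h⟩
      have h3 : st.r (Quotient.out (e i)) (Quotient.out (e i')) :=
        st.iseqv.trans h1 (st.iseqv.symm h2)
      have h4 : (Quotient.mk st (Quotient.out (e i))) = Quotient.mk st (Quotient.out (e i')) :=
        Quotient.sound h3
      rw [Quotient.out_eq, Quotient.out_eq] at h4
      exact e.injective h4
    subst hii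
    obtain ⟨h1, h2, h3⟩ := op_uniq n hn R S hRn hSS Z hZS hfree (rep i) (hrep i) k k' hk hk' ε ε' δ δ' h
    exact ⟨h1, h2, h3, rfl⟩
  have hJ : ∀ J : Finset (Fin (Fintype.card Q)), (Finset.univ.filter (fun x : V × V =>
        ∃ i ∈ J, ∃ k : ℕ, k < n ∧ ∃ ε δ : Bool, x = op R S k ε δ (rep i))).card = 4 * n * J.card := by
    intro J
    have himg : (Finset.univ.filter (fun x : V × V =>
        ∃ i ∈ J, ∃ k : ℕ, k < n ∧ ∃ ε δ : Bool, x = op R S k ε δ (rep i))) =
        ((Finset.range n ×ˢ J) ×ˢ (Finset.univ : Finset (Bool × Bool))).image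
          (fun t => op R S t.1.1 t.2.1 t.2.2 (rep t.1.2)) := by
      ext x
      simp only [Finset.mem_filter, Finset.mem_univ, true_and, Finset.mem_image,
        Finset.mem_product, Finset.mem_range, and_true]
      constructor
      · rintro ⟨i, hi, k, hk, ε, δ, h⟩
        exact ⟨((k, i), (ε, δ)), ⟨hk, hi⟩, h.symm⟩
      · rintro ⟨⟨⟨k, i⟩, ⟨ε, δ⟩⟩, ⟨hk, hi⟩, h⟩
        exact ⟨i, hi, k, hk, ε, δ, h.symm⟩
    rw [himg, Finset.card_image_of_injOn]
    · rw [Finset.card_product, Finset.card_product, Finset.card_range]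
      simp only [Finset.card_univ, Fintype.card_prod, Fintype.card_bool]
      ring
    · rintro ⟨⟨k, i⟩, ⟨ε, δ⟩⟩ ht ⟨⟨k', i'⟩, ⟨ε', δ'⟩⟩ ht' h
      simp only [Finset.coe_product, Set.mem_prod, Finset.mem_coe, Finset.mem_range,
        Finset.mem_univ, and_true] at ht ht'
      obtain ⟨h1, h2, h3, h4⟩ := huniq k k' ht.1 ht'.1 ε ε' δ δ' i i' h
      subst h1 h2 h3 h4
      rfl
  refine ⟨Fintype.card Q, rep, hrep, hcov, huniq, hJ, ?_⟩
  have h1 := hJ Finset.univ
  have h2 : (Finset.univ.filter (fun x : V × V =>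
        ∃ i ∈ (Finset.univ : Finset (Fin (Fintype.card Q))), ∃ k : ℕ, k < n ∧ ∃ ε δ : Bool, x = op R S k ε δ (rep i))) = Z := by
    ext x
    simp only [Finset.mem_filter, Finset.mem_univ, true_and]
    constructor
    · rintro ⟨i, k, _, ε, δ, rfl⟩
      exact op_mem R S Z hZR hZS hZsw k ε δ _ (hrep i)
    · intro hx
      obtain ⟨k, hk, ε, δ, i, h⟩ := hcov x hx
      exact ⟨i, k, hk, ε, δ, h⟩
  rw [h2] at h1
  simpa using h1

/-- TARGET 2. Antisymmetric ζ-equivariant functions with prescribed values at representatives. -/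
theorem exists_dir {V : Type} [Fintype V] [DecidableEq V] (n : ℕ) (hn : 0 < n)
    (R S : Equiv.Perm V) (hRn : R ^ n = 1) (ζ : ℂ) (hζ : ζ ^ n = 1) (m : ℕ) (rep : Fin m → V × V)
    (huniq : ∀ k k' : ℕ, k < n → k' < n → ∀ (ε ε' δ δ' : Bool) (i i' : Fin m),
        op R S k ε δ (rep i) = op R S k' ε' δ' (rep i') → k = k' ∧ ε = ε' ∧ δ = δ' ∧ i = i')
    (d d' : Fin m → ℂ) :
    ∃ D : V → V → ℂ, (∀ a b, D b a = - D a b) ∧ (∀ a b, D (R a) (R b) = ζ * D a b) ∧
      (∀ i, D (rep i).1 (rep i).2 = d i) ∧ (∀ i, D (S (rep i).1) (S (rep i).2) = d' i) := by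
  classical
  let g : V → V → ℂ := fun x y => ∑ i, ((if (x, y) = rep i then d i else 0) +
    (if (x, y) = (S (rep i).1, S (rep i).2) then d' i else 0))
  let h : V → V → ℂ := fun x y => g x y - g y x
  let D : V → V → ℂ := fun x y => ∑ k ∈ Finset.range n, ζ ^ (n - k) * h ((R ^ k) x) ((R ^ k) y)
  have e0 : ∀ j, rep j = op R S 0 false false (rep j) := by intro j; simp [op]
  have e1 : ∀ j, (S (rep j).1, S (rep j).2) = op R S 0 true false (rep j) := by intro j; simp [op]
  -- general evaluation of g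
  have hg : ∀ (k : ℕ), k < n → ∀ (ε δ : Bool) (i : Fin m),
      g (op R S k ε δ (rep i)).1 (op R S k ε δ (rep i)).2 =
        if k = 0 ∧ δ = false then (if ε then d' i else d i) else 0 := by
    intro k hk ε δ i
    simp only [g, Prod.mk.eta]
    have h1 : ∀ j, (if op R S k ε δ (rep i) = rep j then d j else 0) =
        if j = i then (if k = 0 ∧ δ = false ∧ ε = false then d i else 0) else 0 := by
      intro j
      by_cases hc : op R S k ε δ (rep i) = rep j
      · rw [if_pos hc]
        rw [e0 j] at hc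
        obtain ⟨h1, h2, h3, h4⟩ := huniq _ _ hk hn _ _ _ _ _ _ hc
        subst h1 h2 h3 h4
        simp
      · rw [if_neg hc]
        by_cases hj : j = i
        · subst hj
          rw [if_pos rfl]
          by_cases hq : k = 0 ∧ δ = false ∧ ε = false
          · exfalso
            obtain ⟨h1, h2, h3⟩ := hq
            subst h1 h2 h3
            exact hc (e0 j).symm
          · rw [if_neg hq]
        · rw [if_neg hj]
    have h2 : ∀ j, (if op R S k ε δ (rep i) = (S (rep j).1, S (rep j).2) then d' j else 0) =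
        if j = i then (if k = 0 ∧ δ = false ∧ ε = true then d' i else 0) else 0 := by
      intro j
      by_cases hc : op R S k ε δ (rep i) = (S (rep j).1, S (rep j).2)
      · rw [if_pos hc]
        rw [e1 j] at hc
        obtain ⟨h1, h2, h3, h4⟩ := huniq _ _ hk hn _ _ _ _ _ _ hc
        subst h1 h2 h3 h4
        simp
      · rw [if_neg hc]
        by_cases hj : j = i
        · subst hj
          rw [if_pos rfl]
          by_cases hq : k = 0 ∧ δ = false ∧ ε = true
          · exfalso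
            obtain ⟨h1, h2, h3⟩ := hq
            subst h1 h2 h3
            exact hc (e1 j).symm
          · rw [if_neg hq]
        · rw [if_neg hj]
    simp only [h1, h2, Finset.sum_add_distrib, Finset.sum_ite_eq', Finset.mem_univ, if_true]
    cases ε <;> cases δ <;> by_cases hk0 : k = 0 <;> simp [hk0]
  -- value of h
  have hh : ∀ (k : ℕ), k < n → ∀ (ε : Bool) (i : Fin m),
      h (op R S k ε false (rep i)).1 (op R S k ε false (rep i)).2 =
        if k = 0 then (if ε then d' i else d i) else 0 := by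
    intro k hk ε i
    have h1 := hg k hk ε false i
    have h2 := hg k hk ε true i
    have h3 : op R S k ε true (rep i) = ((op R S k ε false (rep i)).2, (op R S k ε false (rep i)).1) := by
      have := op_swap R S k ε false (rep i)
      simpa using this.symm
    rw [h3] at h2
    simp only [h]
    rw [h1]
    simp only at h2
    rw [h2]
    simp
  have hval : ∀ (ε : Bool) (i : Fin m),
      D (op R S 0 ε false (rep i)).1 (op R S 0 ε false (rep i)).2 = if ε then d' i else d i := by
    intro ε i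
    simp only [D]
    have : ∀ k ∈ Finset.range n, ζ ^ (n - k) * h ((R ^ k) (op R S 0 ε false (rep i)).1) ((R ^ k) (op R S 0 ε false (rep i)).2) =
        if k = 0 then (if ε then d' i else d i) else 0 := by
      intro k hk
      have hk' : k < n := by simpa using hk
      have h4 := op_R R S k 0 ε false (rep i)
      have h5 := hh k hk' ε i
      rw [add_zero] at h4
      rw [← h4] at h5
      simp only at h5
      rw [h5]
      by_cases hk0 : k = 0
      · subst hk0; simp [hζ]
      · simp [hk0]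
    rw [Finset.sum_congr rfl this]
    rw [Finset.sum_ite_eq' (Finset.range n) 0]
    simp [hn]
  refine ⟨D, ?_, ?_, ?_, ?_⟩
  · intro a b
    simp only [D, h]
    rw [← Finset.sum_neg_distrib]
    refine Finset.sum_congr rfl fun k _ => ?_
    ring
  · intro a b
    simp only [D]
    have h1 : ∀ k : ℕ, ∀ c : V, (R ^ k) (R c) = (R ^ (k + 1)) c := by
      intro k c
      rw [pow_succ, Equiv.Perm.mul_apply]
    simp only [h1]
    rw [Finset.mul_sum]
    let F : ℕ → ℂ := fun k => ζ ^ (n + 1 - k) * h ((R ^ k) a) ((R ^ k) b)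
    have hL : ∑ k ∈ Finset.range n, ζ ^ (n - k) * h ((R ^ (k + 1)) a) ((R ^ (k + 1)) b) =
        ∑ k ∈ Finset.range n, F (k + 1) := by
      refine Finset.sum_congr rfl fun k _ => ?_
      simp only [F]
      rw [show n + 1 - (k + 1) = n - k by omega]
    have hR' : ∑ k ∈ Finset.range n, ζ * (ζ ^ (n - k) * h ((R ^ k) a) ((R ^ k) b)) =
        ∑ k ∈ Finset.range n, F k := by
      refine Finset.sum_congr rfl fun k hk => ?_
      have hk' : k < n := by simpa using hk
      simp only [F]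
      rw [show n + 1 - k = (n - k) + 1 by omega, pow_succ]
      ring
    rw [hL, hR']
    have h3 := Finset.sum_range_succ F n
    have h4 := Finset.sum_range_succ' F n
    have h5 : F n = F 0 := by
      simp only [F, hRn, pow_zero]
      rw [show n + 1 - n = 1 by omega, show n + 1 - 0 = n + 1 by omega, pow_one, pow_succ ζ n, hζ,
        one_mul]
    rw [h3] at h4
    rw [h5] at h4
    exact (add_right_cancel h4).symm
  · intro i
    have := hval false i
    rw [← e0 i] at this
    simpa using this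
  · intro i
    have := hval true i
    rw [← e1 i] at this
    simpa using this

end Pool.Agent.DihLaman.J502
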