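import Pool.Agent.Helper927.DLDefs
set_option autoImplicit false
set_option maxHeartbeats 4000000
open Module Submodule

namespace Pool.Agent.DihLaman.J599
open Pool.Agent.DihLaman

/-- number of darts from `A` to `B` -/
def dd {V : Type} (G : SimpleGraph V) [DecidableRel G.Adj] (A B : Finset V) : ℕ :=
  ∑ a ∈ A, ∑ b ∈ B, if G.Adj a b then 1 else 0

lemma dd_eq {V : Type} [DecidableEq V] (G : SimpleGraph V) [DecidableRel G.Adj] (A B : Finset V) :
    ((A ×ˢ B).filter (fun x : V × V => G.Adj x.1 x.2)).card = dd G A B := by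
  rw [Finset.card_filter, Finset.sum_product]
  rfl

lemma dd_left {V : Type} [DecidableEq V] (G : SimpleGraph V) [DecidableRel G.Adj]
    {A B : Finset V} (h : Disjoint A B) (X : Finset V) : dd G (A ∪ B) X = dd G A X + dd G B X := by
  rw [dd, Finset.sum_union h]; rfl

lemma dd_right {V : Type} [DecidableEq V] (G : SimpleGraph V) [DecidableRel G.Adj]
    {A B : Finset V} (h : Disjoint A B) (X : Finset V) : dd G X (A ∪ B) = dd G X A + dd G X B := by
  simp only [dd]
  rw [← Finset.sum_add_distrib]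
  exact Finset.sum_congr rfl fun a _ => Finset.sum_union h

lemma dd_zero {V : Type} [DecidableEq V] {G : SimpleGraph V} [DecidableRel G.Adj]
    {A B : Finset V} (h : dd G A B = 0) : ∀ a ∈ A, ∀ b ∈ B, ¬ G.Adj a b := by
  intro a ha b hb hab
  have h1 := Finset.sum_eq_zero_iff.1 h a ha
  have h2 := Finset.sum_eq_zero_iff.1 h1 b hb
  rw [if_pos hab] at h2
  exact absurd h2 one_ne_zero

lemma dd_zero_of {V : Type} [DecidableEq V] {G : SimpleGraph V} [DecidableRel G.Adj]
    {A B : Finset V} (h : ∀ a ∈ A, ∀ b ∈ B, ¬ G.Adj a b) : dd G A B = 0 :=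
  Finset.sum_eq_zero fun a ha => Finset.sum_eq_zero fun b hb => if_neg (h a ha b hb)

lemma dd_small {V : Type} [DecidableEq V] (G : SimpleGraph V) [DecidableRel G.Adj]
    (hsparse : ∀ C : Finset V, 2 ≤ C.card →
      ((C ×ˢ C).filter (fun x : V × V => G.Adj x.1 x.2)).card + 6 ≤ 4 * C.card)
    (A : Finset V) (hA : A.Nonempty) : dd G A A + 4 ≤ 4 * A.card := by
  by_cases h : 2 ≤ A.card
  · have := hsparse A h
    rw [dd_eq] at this
    omega
  · have h1 : A.card = 1 := by
      have := hA.card_pos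
      omega
    obtain ⟨a, rfl⟩ := Finset.card_eq_one.1 h1
    simp [dd]

/-- a tight set does not split -/
lemma no_split {V : Type} [DecidableEq V] (G : SimpleGraph V) [DecidableRel G.Adj]
    (hsparse : ∀ C : Finset V, 2 ≤ C.card →
      ((C ×ˢ C).filter (fun x : V × V => G.Adj x.1 x.2)).card + 6 ≤ 4 * C.card)
    (A B : Finset V) (hA : A.Nonempty) (hB : B.Nonempty) (hd : Disjoint A B)
    (hno : ∀ a ∈ A, ∀ b ∈ B, ¬ G.Adj a b)
    (ht : dd G (A ∪ B) (A ∪ B) + 6 = 4 * (A ∪ B).card) : False := by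
  rw [dd_left G hd, dd_right G hd, dd_right G hd, dd_zero_of hno,
    dd_zero_of (A := B) (B := A) (fun b hb a ha h => hno a ha b hb h.symm),
    Finset.card_union_of_disjoint hd] at ht
  have h1 := dd_small G hsparse A hA
  have h2 := dd_small G hsparse B hB
  omega

/-- TARGET 1. Two tight sets meeting in at least two vertices: union and intersection are tight. -/
theorem tight_union {V : Type} [Fintype V] [DecidableEq V] (G : SimpleGraph V) [DecidableRel G.Adj]
    (hsparse : ∀ C : Finset V, 2 ≤ C.card →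
      ((C ×ˢ C).filter (fun x : V × V => G.Adj x.1 x.2)).card + 6 ≤ 4 * C.card)
    (K K' : Finset V) (hK : ((K ×ˢ K).filter (fun x : V × V => G.Adj x.1 x.2)).card + 6 = 4 * K.card)
    (hK' : ((K' ×ˢ K').filter (fun x : V × V => G.Adj x.1 x.2)).card + 6 = 4 * K'.card)
    (hKK : 2 ≤ (K ∩ K').card) :
    (((K ∪ K') ×ˢ (K ∪ K')).filter (fun x : V × V => G.Adj x.1 x.2)).card + 6 = 4 * (K ∪ K').card ∧
    (((K ∩ K') ×ˢ (K ∩ K')).filter (fun x : V × V => G.Adj x.1 x.2)).card + 6 = 4 * (K ∩ K').card ∧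
    (∀ a ∈ K, ∀ b ∈ K', a ∉ K' → b ∉ K → ¬ G.Adj a b) := by
  have hU := hsparse (K ∪ K') (by
    refine hKK.trans (Finset.card_le_card ?_)
    exact Finset.inter_subset_left.trans Finset.subset_union_left)
  have hI := hsparse (K ∩ K') hKK
  have hc := Finset.card_union_add_card_inter K K'
  rw [dd_eq] at hK hK' hU hI ⊢
  rw [dd_eq]
  have d1 : Disjoint (K \ K') (K ∩ K') := by
    rw [Finset.disjoint_left]; intro x hx hx'
    exact (Finset.mem_sdiff.1 hx).2 (Finset.mem_inter.1 hx').2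
  have d2 : Disjoint (K' \ K) (K ∩ K') := by
    rw [Finset.disjoint_left]; intro x hx hx'
    exact (Finset.mem_sdiff.1 hx).2 (Finset.mem_inter.1 hx').1
  have d3 : Disjoint ((K \ K') ∪ (K ∩ K')) (K' \ K) := by
    rw [Finset.disjoint_left]; intro x hx hx'
    rcases Finset.mem_union.1 hx with h | h
    · exact (Finset.mem_sdiff.1 hx').2 (Finset.mem_sdiff.1 h).1
    · exact (Finset.mem_sdiff.1 hx').2 (Finset.mem_inter.1 h).1
  have e1 : K = (K \ K') ∪ (K ∩ K') := by
    ext x; simp only [Finset.mem_union, Finset.mem_sdiff, Finset.mem_inter]; tauto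
  have e2 : K' = (K' \ K) ∪ (K ∩ K') := by
    ext x; simp only [Finset.mem_union, Finset.mem_sdiff, Finset.mem_inter]; tauto
  have e3 : K ∪ K' = ((K \ K') ∪ (K ∩ K')) ∪ (K' \ K) := by
    ext x; simp only [Finset.mem_union, Finset.mem_sdiff, Finset.mem_inter]; tauto
  have f1 : dd G K K = dd G (K \ K') (K \ K') + dd G (K \ K') (K ∩ K') +
      (dd G (K ∩ K') (K \ K') + dd G (K ∩ K') (K ∩ K')) := by
    conv_lhs => rw [e1]
    rw [dd_left G d1, dd_right G d1, dd_right G d1]
  have f2 : dd G K' K' = dd G (K' \ K) (K' \ K) + dd G (K' \ K) (K ∩ K') +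
      (dd G (K ∩ K') (K' \ K) + dd G (K ∩ K') (K ∩ K')) := by
    conv_lhs => rw [e2]
    rw [dd_left G d2, dd_right G d2, dd_right G d2]
  have f3 : dd G (K ∪ K') (K ∪ K') = dd G (K \ K') (K \ K') + dd G (K \ K') (K ∩ K') +
      dd G (K \ K') (K' \ K) + (dd G (K ∩ K') (K \ K') + dd G (K ∩ K') (K ∩ K') +
      dd G (K ∩ K') (K' \ K)) + (dd G (K' \ K) (K \ K') + dd G (K' \ K) (K ∩ K') +
      dd G (K' \ K) (K' \ K)) := by
    conv_lhs => rw [e3]
    rw [dd_left G d3, dd_left G d1, dd_right G d3, dd_right G d3, dd_right G d3, dd_right G d1,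
      dd_right G d1, dd_right G d1]
  have z : dd G (K \ K') (K' \ K) = 0 := by omega
  refine ⟨by omega, by omega, ?_⟩
  intro a ha b hb ha' hb'
  exact dd_zero z a (Finset.mem_sdiff.2 ⟨ha, ha'⟩) b (Finset.mem_sdiff.2 ⟨hb, hb'⟩)

lemma dd_image {V : Type} [DecidableEq V] (G : SimpleGraph V) [DecidableRel G.Adj]
    (S : Equiv.Perm V) (hGS : ∀ a b, G.Adj (S a) (S b) ↔ G.Adj a b) (K : Finset V) :
    dd G (K.image S) (K.image S) = dd G K K := by
  simp only [dd]
  rw [Finset.sum_image (fun a _ b _ h => S.injective h)]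
  refine Finset.sum_congr rfl fun a _ => ?_
  rw [Finset.sum_image (fun a _ b _ h => S.injective h)]
  refine Finset.sum_congr rfl fun b _ => ?_
  simp only [hGS]

lemma SS_apply {V : Type} {S : Equiv.Perm V} (hSS : S * S = 1) (v : V) : S (S v) = v := by
  have := congrArg (fun g : Equiv.Perm V => g v) hSS
  simpa using this

lemma mem_imageS {V : Type} [DecidableEq V] {S : Equiv.Perm V} (hSS : S * S = 1) (K : Finset V)
    (v : V) : v ∈ K.image S ↔ S v ∈ K := by
  rw [Finset.mem_image]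
  constructor
  · rintro ⟨k, hk, rfl⟩
    rw [SS_apply hSS]; exact hk
  · intro h
    exact ⟨S v, h, SS_apply hSS v⟩

lemma Rinv_mem {V : Type} [Fintype V] [DecidableEq V] {R : Equiv.Perm V} {K : Finset V}
    (h : ∀ v ∈ K, R v ∈ K) : ∀ v ∈ K, R⁻¹ v ∈ K := by
  have hsub : K.image R ⊆ K := by
    intro x hx
    obtain ⟨k, hk, rfl⟩ := Finset.mem_image.1 hx
    exact h k hk
  have heq : K.image R = K := Finset.eq_of_subset_of_card_le hsub (by
    rw [Finset.card_image_of_injective _ R.injective])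
  intro v hv
  rw [← heq] at hv
  obtain ⟨k, hk, rfl⟩ := Finset.mem_image.1 hv
  simpa using hk

lemma R_image {V : Type} [Fintype V] [DecidableEq V] {R S : Equiv.Perm V} (hSS : S * S = 1)
    (hSRS : S * R * S = R⁻¹) {K : Finset V} (h : ∀ v ∈ K, R v ∈ K) :
    ∀ v ∈ K.image S, R v ∈ K.image S := by
  intro v hv
  rw [mem_imageS hSS] at hv ⊢
  have h1 := congrArg (fun g : Equiv.Perm V => g (S v)) hSRS
  simp only [Equiv.Perm.mul_apply, SS_apply hSS] at h1
  rw [h1]
  exact Rinv_mem h _ hv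

lemma two_le {V : Type} [Fintype V] [DecidableEq V] {R : Equiv.Perm V} (hfree : ∀ v, R v ≠ v)
    {K : Finset V} (h : ∀ v ∈ K, R v ∈ K) (hn : K.Nonempty) : 2 ≤ K.card := by
  obtain ⟨v, hv⟩ := hn
  exact Finset.one_lt_card.2 ⟨R v, h v hv, v, hv, hfree v⟩

/-- TARGET 2. Intersecting blocks have a block as union. -/
theorem blk_union {V : Type} [Fintype V] [DecidableEq V] (G : SimpleGraph V) [DecidableRel G.Adj]
    (R S : Equiv.Perm V) (hSS : S * S = 1) (hSRS : S * R * S = R⁻¹)
    (hfree : ∀ v, R v ≠ v) (hGS : ∀ a b, G.Adj (S a) (S b) ↔ G.Adj a b)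
    (hsparse : ∀ C : Finset V, 2 ≤ C.card →
      ((C ×ˢ C).filter (fun x : V × V => G.Adj x.1 x.2)).card + 6 ≤ 4 * C.card)
    (K K' : Finset V) (hK : Blk G R S K) (hK' : Blk G R S K') (hKK : (K ∩ K').Nonempty) :
    Blk G R S (K ∪ K') := by
  obtain ⟨n1, r1, s1, t1⟩ := hK
  obtain ⟨n2, r2, s2, t2⟩ := hK'
  have rI : ∀ v ∈ K ∩ K', R v ∈ K ∩ K' := by
    intro v hv
    rw [Finset.mem_inter] at hv ⊢
    exact ⟨r1 v hv.1, r2 v hv.2⟩
  have rU : ∀ v ∈ K ∪ K', R v ∈ K ∪ K' := by
    intro v hv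
    rw [Finset.mem_union] at hv ⊢
    exact hv.imp (r1 v) (r2 v)
  obtain ⟨tU, _, hno⟩ := tight_union G hsparse K K' t1 t2 (two_le hfree rI hKK)
  have main : ∀ v, v ∈ K → S v ∈ K' → False := by
    intro v hv hSv
    -- the mirror image of the union
    have tSU : ((((K ∪ K').image S) ×ˢ ((K ∪ K').image S)).filter
        (fun x : V × V => G.Adj x.1 x.2)).card + 6 = 4 * ((K ∪ K').image S).card := by
      rw [dd_eq, dd_image G S hGS, Finset.card_image_of_injective _ S.injective, ← dd_eq]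
      exact tU
    have hvW : v ∈ (K ∪ K') ∩ (K ∪ K').image S := by
      rw [Finset.mem_inter, mem_imageS hSS, Finset.mem_union, Finset.mem_union]
      exact ⟨Or.inl hv, Or.inr hSv⟩
    have rW : ∀ v ∈ (K ∪ K') ∩ (K ∪ K').image S, R v ∈ (K ∪ K') ∩ (K ∪ K').image S := by
      intro w hw
      rw [Finset.mem_inter] at hw ⊢
      exact ⟨rU w hw.1, R_image hSS hSRS rU w hw.2⟩
    obtain ⟨_, tW, _⟩ := tight_union G hsparse (K ∪ K') ((K ∪ K').image S) tU tSU
      (two_le hfree rW ⟨v, hvW⟩)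
    rw [dd_eq] at tW
    have eW : (K ∪ K') ∩ (K ∪ K').image S = (K ∩ K'.image S) ∪ (K' ∩ K.image S) := by
      ext x
      simp only [Finset.mem_inter, Finset.mem_union, mem_imageS hSS]
      have a1 := s1 x
      have a2 := s2 x
      tauto
    rw [eW] at tW
    refine no_split G hsparse (K ∩ K'.image S) (K' ∩ K.image S) ⟨v, ?_⟩ ⟨S v, ?_⟩ ?_ ?_ tW
    · rw [Finset.mem_inter, mem_imageS hSS]; exact ⟨hv, hSv⟩
    · rw [Finset.mem_inter, mem_imageS hSS, SS_apply hSS]; exact ⟨hSv, hv⟩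
    · rw [Finset.disjoint_left]
      intro x hx hx'
      simp only [Finset.mem_inter, mem_imageS hSS] at hx hx'
      exact s1 x hx.1 hx'.2
    · intro a ha b hb
      simp only [Finset.mem_inter, mem_imageS hSS] at ha hb
      refine hno a ha.1 b hb.1 ?_ ?_
      · intro h; exact s2 a h ha.2
      · intro h; exact s1 b h hb.2
  refine ⟨n1.mono Finset.subset_union_left, rU, ?_, tU⟩
  intro v hv hSv
  rw [Finset.mem_union] at hv hSv
  rcases hv with hv | hv
  · rcases hSv with h | h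
    · exact s1 v hv h
    · exact main v hv h
  · rcases hSv with h | h
    · exact main (S v) h (by rw [SS_apply hSS]; exact hv)
    · exact s2 v hv h

/-- TARGET 3. The mirror image of a block is a block. -/
theorem blk_mirror {V : Type} [Fintype V] [DecidableEq V] (G : SimpleGraph V) [DecidableRel G.Adj]
    (R S : Equiv.Perm V) (hSS : S * S = 1) (hSRS : S * R * S = R⁻¹)
    (hGS : ∀ a b, G.Adj (S a) (S b) ↔ G.Adj a b) (K : Finset V) (hK : Blk G R S K) :
    Blk G R S (K.image S) := by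
  obtain ⟨n1, r1, s1, t1⟩ := hK
  refine ⟨n1.image _, R_image hSS hSRS r1, ?_, ?_⟩
  · intro v hv hv'
    rw [mem_imageS hSS] at hv hv'
    exact s1 _ hv hv'
  · rw [dd_eq, dd_image G S hGS, Finset.card_image_of_injective _ S.injective, ← dd_eq]
    exact t1

/-- TARGET 4. A tight set induces a connected subgraph: functions constant along its edges are constant. -/
theorem tight_conn {V : Type} [Fintype V] [DecidableEq V] (G : SimpleGraph V) [DecidableRel G.Adj]
    (hsparse : ∀ C : Finset V, 2 ≤ C.card →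
      ((C ×ˢ C).filter (fun x : V × V => G.Adj x.1 x.2)).card + 6 ≤ 4 * C.card)
    (K : Finset V) (hK : ((K ×ˢ K).filter (fun x : V × V => G.Adj x.1 x.2)).card + 6 = 4 * K.card)
    (f : V → ℂ) (hf : ∀ a ∈ K, ∀ b ∈ K, G.Adj a b → f a = f b) :
    ∀ a ∈ K, ∀ b ∈ K, f a = f b := by
  intro a ha b hb
  by_contra hab
  classical
  have e : K.filter (fun v => f v = f a) ∪ K.filter (fun v => ¬ f v = f a) = K :=
    Finset.filter_union_filter_not_eq _ K
  rw [dd_eq] at hK
  refine no_split G hsparse (K.filter fun v => f v = f a) (K.filter fun v => ¬ f v = f a)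
    ⟨a, Finset.mem_filter.2 ⟨ha, rfl⟩⟩ ⟨b, Finset.mem_filter.2 ⟨hb, fun h => hab h.symm⟩⟩
    (Finset.disjoint_filter_filter_not K K _) ?_ (by rw [e]; exact hK)
  intro x hx y hy hxy
  rw [Finset.mem_filter] at hx hy
  apply hy.2
  rw [← hf x hx.1 y hy.1 hxy]
  exact hx.2

end Pool.Agent.DihLaman.J599
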