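import Pool.Agent.Helper927.DLDefs
import Pool.Agent.Helper927.DL599
set_option autoImplicit false
set_option maxHeartbeats 4000000
open Module Submodule

namespace Pool.Agent.DihLaman.J600
open Pool.Agent.DihLaman
open Pool.Agent.DihLaman.J599 (blk_mirror)
open Pool.Agent.DihLaman.J599 (blk_union)

section help

theorem two_dvd_of {α : Type} [DecidableEq α] (f : α → α) (E : Finset α) (h1 : ∀ x ∈ E, f x ∈ E)
    (h2 : ∀ x ∈ E, f (f x) = x) (h3 : ∀ x ∈ E, f x ≠ x) : 2 ∣ E.card := by
  induction E using Finset.strongInduction with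
  | H E ih =>
    rcases E.eq_empty_or_nonempty with rfl | ⟨e, he⟩
    · simp
    · set T : Finset α := {e, f e} with hT
      have hTE : T ⊆ E := by
        intro x hx
        simp only [hT, Finset.mem_insert, Finset.mem_singleton] at hx
        rcases hx with rfl | rfl
        · exact he
        · exact h1 _ he
      have hTc : T.card = 2 := Finset.card_pair (h3 e he).symm
      have hss : E \ T ⊂ E := Finset.sdiff_ssubset hTE ⟨e, by simp [hT]⟩
      have hmem : ∀ x, x ∈ E \ T ↔ x ∈ E ∧ x ≠ e ∧ x ≠ f e := by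
        intro x; simp [hT, not_or]
      have := ih (E \ T) hss (by
        intro x hx
        rw [hmem] at hx ⊢
        obtain ⟨a, b, c⟩ := hx
        refine ⟨h1 x a, ?_, ?_⟩
        · intro h; apply c; rw [← h, h2 x a]
        · intro h; apply b
          have := congrArg f h
          rw [h2 x a, h2 e he] at this; exact this)
        (fun x hx => h2 x ((hmem x).1 hx).1) (fun x hx => h3 x ((hmem x).1 hx).1)
      have hc := Finset.card_sdiff_add_card_eq_card hTE
      omega

theorem three_dvd_of {α : Type} [DecidableEq α] (f : α → α) (E : Finset α) (h1 : ∀ x ∈ E, f x ∈ E)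
    (h2 : ∀ x ∈ E, f (f (f x)) = x) (h3 : ∀ x ∈ E, f x ≠ x) : 3 ∣ E.card := by
  induction E using Finset.strongInduction with
  | H E ih =>
    rcases E.eq_empty_or_nonempty with rfl | ⟨e, he⟩
    · simp
    · set T : Finset α := {e, f e, f (f e)} with hT
      have hTE : T ⊆ E := by
        intro x hx
        simp only [hT, Finset.mem_insert, Finset.mem_singleton] at hx
        rcases hx with rfl | rfl | rfl
        · exact he
        · exact h1 _ he
        · exact h1 _ (h1 _ he)
      have n1 : e ≠ f e := (h3 e he).symm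
      have n2 : f e ≠ f (f e) := (h3 _ (h1 _ he)).symm
      have n3 : e ≠ f (f e) := by
        intro h
        have := congrArg f h
        rw [h2 e he] at this
        exact h3 e he this
      have hTc : T.card = 3 := Finset.card_eq_three.2 ⟨e, f e, f (f e), n1, n3, n2, rfl⟩
      have hss : E \ T ⊂ E := Finset.sdiff_ssubset hTE ⟨e, by simp [hT]⟩
      have hmem : ∀ x, x ∈ E \ T ↔ x ∈ E ∧ x ≠ e ∧ x ≠ f e ∧ x ≠ f (f e) := by
        intro x; simp [hT, not_or]
      have := ih (E \ T) hss (by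
        intro x hx
        rw [hmem] at hx ⊢
        obtain ⟨a, b, c, d⟩ := hx
        have inj : ∀ y ∈ E, f x = f y → x = y := by
          intro y hy h
          have h' : f (f (f x)) = f (f (f y)) := congrArg (fun z => f (f z)) h
          rw [h2 x a, h2 y hy] at h'; exact h'
        refine ⟨h1 x a, ?_, ?_, ?_⟩
        · intro h; apply d
          exact inj _ (h1 _ (h1 _ he)) (by rw [h, h2 e he])
        · intro h; exact b (inj _ he h)
        · intro h; exact c (inj _ (h1 _ he) h))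
        (fun x hx => h2 x ((hmem x).1 hx).1) (fun x hx => h3 x ((hmem x).1 hx).1)
      have hc := Finset.card_sdiff_add_card_eq_card hTE
      omega

theorem four_dvd_of {α : Type} [DecidableEq α] (f g : α → α) (E : Finset α) (h1 : ∀ x ∈ E, f x ∈ E)
    (g1 : ∀ x ∈ E, g x ∈ E) (h2 : ∀ x ∈ E, f (f x) = x) (g2 : ∀ x ∈ E, g (g x) = x)
    (c : ∀ x ∈ E, f (g x) = g (f x)) (h3 : ∀ x ∈ E, f x ≠ x) (g3 : ∀ x ∈ E, g x ≠ x)
    (fg3 : ∀ x ∈ E, f x ≠ g x) : 4 ∣ E.card := by
  induction E using Finset.strongInduction with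
  | H E ih =>
    rcases E.eq_empty_or_nonempty with rfl | ⟨e, he⟩
    · simp
    · set T : Finset α := {e, f e, g e, f (g e)} with hT
      have hTE : T ⊆ E := by
        intro x hx
        simp only [hT, Finset.mem_insert, Finset.mem_singleton] at hx
        rcases hx with rfl | rfl | rfl | rfl
        · exact he
        · exact h1 _ he
        · exact g1 _ he
        · exact h1 _ (g1 _ he)
      have finj : ∀ x ∈ E, ∀ y ∈ E, f x = f y → x = y := by
        intro x hx y hy h
        have h' := congrArg f h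
        rw [h2 x hx, h2 y hy] at h'; exact h'
      have ginj : ∀ x ∈ E, ∀ y ∈ E, g x = g y → x = y := by
        intro x hx y hy h
        have h' := congrArg g h
        rw [g2 x hx, g2 y hy] at h'; exact h'
      have n1 : e ≠ f e := (h3 e he).symm
      have n2 : e ≠ g e := (g3 e he).symm
      have n3 : e ≠ f (g e) := by
        intro h
        have := congrArg f h
        rw [h2 _ (g1 _ he)] at this
        exact fg3 e he this
      have n4 : f e ≠ g e := fg3 e he
      have n5 : f e ≠ f (g e) := fun h => n2 (finj _ he _ (g1 _ he) h)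
      have n6 : g e ≠ f (g e) := (h3 _ (g1 _ he)).symm
      have hTc : T.card = 4 := by
        rw [hT, Finset.card_insert_of_notMem, Finset.card_insert_of_notMem,
          Finset.card_insert_of_notMem, Finset.card_singleton]
        · simpa using n6
        · simp only [Finset.mem_insert, Finset.mem_singleton, not_or]; exact ⟨n4, n5⟩
        · simp only [Finset.mem_insert, Finset.mem_singleton, not_or]; exact ⟨n1, n2, n3⟩
      have hss : E \ T ⊂ E := Finset.sdiff_ssubset hTE ⟨e, by simp [hT]⟩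
      have hmem : ∀ x, x ∈ E \ T ↔ x ∈ E ∧ x ≠ e ∧ x ≠ f e ∧ x ≠ g e ∧ x ≠ f (g e) := by
        intro x; simp [hT, not_or]
      have := ih (E \ T) hss (by
        intro x hx
        rw [hmem] at hx ⊢
        obtain ⟨a, b1, b2, b3, b4⟩ := hx
        refine ⟨h1 x a, ?_, ?_, ?_, ?_⟩
        · intro h; apply b2
          rw [← h, h2 x a]
        · intro h; exact b1 (finj _ a _ he h)
        · intro h; apply b4; rw [← h, h2 x a]
        · intro h; exact b3 (finj _ a _ (g1 _ he) h))
        (by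
        intro x hx
        rw [hmem] at hx ⊢
        obtain ⟨a, b1, b2, b3, b4⟩ := hx
        refine ⟨g1 x a, ?_, ?_, ?_, ?_⟩
        · intro h; apply b3; rw [← h, g2 x a]
        · intro h; apply b4
          rw [c e he]
          rw [← h, g2 x a]
        · intro h; exact b1 (ginj _ a _ he h)
        · intro h; rw [c e he] at h; exact b2 (ginj _ a _ (h1 _ he) h))
        (fun x hx => h2 x ((hmem x).1 hx).1) (fun x hx => g2 x ((hmem x).1 hx).1)
        (fun x hx => c x ((hmem x).1 hx).1) (fun x hx => h3 x ((hmem x).1 hx).1)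
        (fun x hx => g3 x ((hmem x).1 hx).1) (fun x hx => fg3 x ((hmem x).1 hx).1)
      have hc := Finset.card_sdiff_add_card_eq_card hTE
      omega

/-- the generating relation -/
def grel {V : Type} (R S : V → V) (B U : V → V → Prop) (a b : V) : Prop :=
  b = R a ∨ B a b ∨ U a b ∨ (B a a ∧ b = S a)

/-- the equivalence relation generated -/
def gs {V : Type} (R S : V → V) (B U : V → V → Prop) : Setoid V := Relation.EqvGen.setoid (grel R S B U)

theorem gs_of {V : Type} {R S : V → V} {B U : V → V → Prop} {a b : V} (h : grel R S B U a b) :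
    gs R S B U a b := Relation.EqvGen.rel _ _ h

theorem mem_Yq_iff {V : Type} (R S : V → V) (B U : V → V → Prop) (u : V → ℂ) :
    u ∈ Yq R S B U ↔ ∀ a b, gs R S B U a b → u a = u b := by
  constructor
  · rintro ⟨h1, h2, h3, h4⟩ a b hab
    have hab' : Relation.EqvGen (grel R S B U) a b := hab
    induction hab' with
    | rel x y h =>
      rcases h with rfl | h | h | ⟨h, rfl⟩
      · exact (h1 x).symm
      · exact h2 _ _ h
      · exact h4 _ _ h
      · exact (h3 x h).symm
    | refl x => rfl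
    | symm x y h ih => exact (ih h).symm
    | trans x y z h h' ih ih' => exact (ih h).trans (ih' h')
  · intro h
    refine ⟨fun v => ?_, fun a b hab => ?_, fun v hv => ?_, fun a b hab => ?_⟩
    · exact (h v (R v) (gs_of (Or.inl rfl))).symm
    · exact h a b (gs_of (Or.inr (Or.inl hab)))
    · exact (h v (S v) (gs_of (Or.inr (Or.inr (Or.inr ⟨hv, rfl⟩))))).symm
    · exact h a b (gs_of (Or.inr (Or.inr (Or.inl hab))))

/-- functions on classes -/
noncomputable def YqEquiv {V : Type} (R S : V → V) (B U : V → V → Prop) :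
    (Quotient (gs R S B U) → ℂ) ≃ₗ[ℂ] Yq R S B U where
  toFun f := ⟨fun v => f (Quotient.mk _ v), (mem_Yq_iff R S B U _).2 (fun a b h => by
    rw [Quotient.sound h])⟩
  map_add' f g := rfl
  map_smul' c f := rfl
  invFun u := fun q => Quotient.lift u.1 ((mem_Yq_iff R S B U _).1 u.2) q
  left_inv f := by
    funext q
    induction q using Quotient.inductionOn
    rfl
  right_inv _ := rfl

theorem finrank_Yq {V : Type} [Fintype V] (R S : V → V) (B U : V → V → Prop)
    [Fintype (Quotient (gs R S B U))] :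
    finrank ℂ (Yq R S B U) = Fintype.card (Quotient (gs R S B U)) := by
  rw [← (YqEquiv R S B U).finrank_eq, Module.finrank_fintype_fun_eq_card]

/-- a class as a finset -/
noncomputable def cls {V : Type} [Fintype V] (s : Setoid V) [DecidableEq (Quotient s)] (q : Quotient s) :
    Finset V := Finset.univ.filter (fun v => Quotient.mk s v = q)

theorem card_cls {V : Type} [Fintype V] (s : Setoid V) [DecidableEq (Quotient s)] [Fintype (Quotient s)] :
    Fintype.card V = ∑ q : Quotient s, (cls s q).card :=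
  Finset.card_eq_sum_card_fiberwise (fun x _ => Finset.mem_univ _)

theorem darts_cls {V : Type} [Fintype V] [DecidableEq V] (s : Setoid V) [DecidableEq (Quotient s)]
    [Fintype (Quotient s)] (D : V → V → Prop) [DecidableRel D] (hD : ∀ a b, D a b → s a b) :
    (Finset.univ.filter (fun x : V × V => D x.1 x.2)).card =
      ∑ q : Quotient s, ((cls s q ×ˢ cls s q).filter (fun x : V × V => D x.1 x.2)).card := by
  rw [Finset.card_eq_sum_card_fiberwise (f := fun x : V × V => Quotient.mk s x.1) (t := Finset.univ)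
    (fun x _ => Finset.mem_univ _)]
  refine Finset.sum_congr rfl (fun q _ => ?_)
  congr 1
  ext ⟨a, b⟩
  simp only [Finset.mem_filter, Finset.mem_univ, true_and, Finset.mem_product, cls]
  constructor
  · rintro ⟨h1, h2⟩
    exact ⟨⟨h2, by rw [← h2]; exact (Quotient.sound (hD _ _ h1)).symm⟩, h1⟩
  · rintro ⟨⟨h1, h2⟩, h3⟩
    exact ⟨h3, h1⟩

/-- basic facts about the data -/
structure Fx {V : Type} [Fintype V] [DecidableEq V] (G : SimpleGraph V) [DecidableRel G.Adj]
    (R S : Equiv.Perm V) (B : V → V → Prop) : Prop where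
  r3 : ∀ v, R (R (R v)) = v
  s2 : ∀ v, S (S v) = v
  sr : ∀ v, S (R v) = R (R (S v))
  fr : ∀ v, R v ≠ v
  sym : ∀ a b, B a b → B b a
  l : ∀ a b, B a b → B a a
  BR : ∀ a b, B a b → B (R a) (R b)
  BS : ∀ a b, B a b → B (S a) (S b)
  ne : ∀ a b, B a b → S a ≠ b

theorem mkFx {V : Type} [Fintype V] [DecidableEq V] (G : SimpleGraph V) [DecidableRel G.Adj]
    (R S : Equiv.Perm V) (hR3 : R ^ 3 = 1) (hSS : S * S = 1) (hSRS : S * R * S = R⁻¹)
    (hfree : ∀ v, R v ≠ v) (hGS : ∀ a b, G.Adj (S a) (S b) ↔ G.Adj a b)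
    (B : V → V → Prop) (hB : ∀ a b, B a b ↔ ∃ K, Blk G R S K ∧ a ∈ K ∧ b ∈ K) : Fx G R S B := by
  have r3 : ∀ v, R (R (R v)) = v := by
    intro v
    have := congrArg (fun f : Equiv.Perm V => f v) hR3
    simpa [pow_succ, Equiv.Perm.mul_apply] using this
  have s2 : ∀ v, S (S v) = v := by
    intro v
    have := congrArg (fun f : Equiv.Perm V => f v) hSS
    simpa [Equiv.Perm.mul_apply] using this
  have sr : ∀ v, S (R v) = R (R (S v)) := by
    intro v
    have h1 := congrArg (fun f : Equiv.Perm V => f (S v)) hSRS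
    simp only [Equiv.Perm.mul_apply] at h1
    rw [s2] at h1
    rw [h1, Equiv.Perm.inv_eq_iff_eq, r3]
  refine ⟨r3, s2, sr, hfree, ?_, ?_, ?_, ?_, ?_⟩
  · intro a b h
    rw [hB] at h ⊢
    obtain ⟨K, h1, h2, h3⟩ := h
    exact ⟨K, h1, h3, h2⟩
  · intro a b h
    rw [hB] at h ⊢
    obtain ⟨K, h1, h2, h3⟩ := h
    exact ⟨K, h1, h2, h2⟩
  · intro a b h
    rw [hB] at h ⊢
    obtain ⟨K, h1, h2, h3⟩ := h
    exact ⟨K, h1, h1.2.1 _ h2, h1.2.1 _ h3⟩
  · intro a b h
    rw [hB] at h ⊢
    obtain ⟨K, h1, h2, h3⟩ := h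
    exact ⟨K.image S, blk_mirror G R S hSS hSRS hGS K h1, Finset.mem_image_of_mem _ h2,
      Finset.mem_image_of_mem _ h3⟩
  · intro a b h hab
    rw [hB] at h
    obtain ⟨K, h1, h2, h3⟩ := h
    exact h1.2.2.1 a h2 (hab ▸ h3)

theorem gs_S {V : Type} [Fintype V] [DecidableEq V] {G : SimpleGraph V} [DecidableRel G.Adj]
    {R S : Equiv.Perm V} {B : V → V → Prop} (F : Fx G R S B) (U : V → V → Prop)
    (hUS : ∀ a b, U a b → U (S a) (S b)) {a b : V} (h : gs R S B U a b) :
    gs R S B U (S a) (S b) := by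
  have h' : Relation.EqvGen (grel R S B U) a b := h
  clear h
  induction h' with
  | rel x y h =>
    rcases h with rfl | h | h | ⟨h, rfl⟩
    · refine (gs R S B U).symm ?_
      refine gs_of (Or.inl ?_)
      rw [F.sr, F.r3]
    · exact gs_of (Or.inr (Or.inl (F.BS _ _ h)))
    · exact gs_of (Or.inr (Or.inr (Or.inl (hUS _ _ h))))
    · rw [F.s2]
      exact (gs R S B U).symm (gs_of (Or.inr (Or.inr (Or.inr ⟨h, rfl⟩))))
  | refl x => exact (gs R S B U).refl _
  | symm x y h ih => exact (gs R S B U).symm ih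
  | trans x y z h h' ih ih' => exact (gs R S B U).trans ih ih'

theorem class_bound1 {V : Type} [Fintype V] [DecidableEq V] (G : SimpleGraph V) [DecidableRel G.Adj]
    (R S : Equiv.Perm V) (hGR : ∀ a b, G.Adj (R a) (R b) ↔ G.Adj a b)
    (hGS : ∀ a b, G.Adj (S a) (S b) ↔ G.Adj a b)
    (hsparse : ∀ C : Finset V, 2 ≤ C.card →
      ((C ×ˢ C).filter (fun x : V × V => G.Adj x.1 x.2)).card + 6 ≤ 4 * C.card)
    (B : V → V → Prop) [DecidableRel B] (hB : ∀ a b, B a b ↔ ∃ K, Blk G R S K ∧ a ∈ K ∧ b ∈ K)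
    (F : Fx G R S B)
    (U : V → V → Prop) [DecidableRel U] (hUadj : ∀ a b, U a b → G.Adj a b)
    (hUsym : ∀ a b, U a b → U b a)
    (hUR : ∀ a b, U a b → U (R a) (R b)) (hUS : ∀ a b, U a b → U (S a) (S b))
    (hfixS : ∀ a b, U a b → ∀ k : ℕ, ¬ ((R ^ k * S) a = a ∧ (R ^ k * S) b = b) ∧
      ¬ ((R ^ k * S) a = b ∧ (R ^ k * S) b = a))
    [DecidableEq (Quotient (gs R S B U))] (q : Quotient (gs R S B U)) :
    12 + ((cls _ q ×ˢ cls _ q).filter
      (fun x : V × V => (G.Adj x.1 x.2 ∧ B x.1 x.2) ∨ U x.1 x.2)).card ≤ 4 * (cls _ q).card := by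
  obtain ⟨v, rfl⟩ := Quotient.exists_rep q
  have my : ∀ w, w ∈ cls (gs R S B U) (Quotient.mk (gs R S B U) v) ↔ gs R S B U w v := by
    intro w
    simp only [cls, Finset.mem_filter, Finset.mem_univ, true_and]
    exact Quotient.eq
  generalize cls (gs R S B U) (Quotient.mk (gs R S B U) v) = y at my ⊢
  set s := gs R S B U with hs
  have hvy : v ∈ y := (my v).2 (s.refl v)
  have yR : ∀ w ∈ y, R w ∈ y := by
    intro w hw
    rw [my] at hw ⊢
    exact s.trans (s.symm (gs_of (Or.inl rfl))) hw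
  have h3y : 3 ∣ y.card := three_dvd_of R y yR (fun w _ => F.r3 w) (fun w _ => F.fr w)
  have hpos : 0 < y.card := Finset.card_pos.2 ⟨v, hvy⟩
  have h2y : 2 ≤ y.card := by omega
  have hsp := hsparse y h2y
  set E := (y ×ˢ y).filter (fun x : V × V => (G.Adj x.1 x.2 ∧ B x.1 x.2) ∨ U x.1 x.2) with hE
  have mE : ∀ a b, (a, b) ∈ E ↔ (a ∈ y ∧ b ∈ y) ∧ ((G.Adj a b ∧ B a b) ∨ U a b) := by
    intro a b
    simp only [hE, Finset.mem_filter, Finset.mem_product]
  have hEadj : E ⊆ (y ×ˢ y).filter (fun x : V × V => G.Adj x.1 x.2) := by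
    rintro ⟨a, b⟩ hab
    rw [mE] at hab
    simp only [Finset.mem_filter, Finset.mem_product]
    refine ⟨hab.1, ?_⟩
    rcases hab.2 with h | h
    · exact h.1
    · exact hUadj _ _ h
  have hle := Finset.card_le_card hEadj
  have hadj : ∀ a b, (a, b) ∈ E → G.Adj a b := by
    intro a b hab
    have := hEadj hab
    simp only [Finset.mem_filter, Finset.mem_product] at this
    exact this.2
  have E3 : 3 ∣ E.card := by
    refine three_dvd_of (fun x : V × V => (R x.1, R x.2)) E ?_ ?_ ?_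
    · rintro ⟨a, b⟩ hab
      rw [mE] at hab ⊢
      refine ⟨⟨yR _ hab.1.1, yR _ hab.1.2⟩, ?_⟩
      rcases hab.2 with h | h
      · exact Or.inl ⟨(hGR _ _).2 h.1, F.BR _ _ h.2⟩
      · exact Or.inr (hUR _ _ h)
    · rintro ⟨a, b⟩ _
      exact Prod.ext (F.r3 a) (F.r3 b)
    · rintro ⟨a, b⟩ _ h
      exact F.fr a (congrArg Prod.fst h)
  have hswap : ∀ x ∈ E, x.swap ∈ E := by
    rintro ⟨a, b⟩ hab
    show (b, a) ∈ E
    rw [mE] at hab ⊢
    refine ⟨⟨hab.1.2, hab.1.1⟩, ?_⟩
    rcases hab.2 with h | h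
    · exact Or.inl ⟨h.1.symm, F.sym _ _ h.2⟩
    · exact Or.inr (hUsym _ _ h)
  have hswapne : ∀ x ∈ E, x.swap ≠ x := by
    rintro ⟨a, b⟩ hab h
    have h1 : b = a := congrArg Prod.fst h
    have := hadj a b hab
    rw [h1] at this
    exact G.irrefl this
  change 12 + E.card ≤ 4 * y.card
  by_cases hSy : ∃ w ∈ y, S w ∈ y
  · obtain ⟨w, hw, hSw⟩ := hSy
    have yS : ∀ a ∈ y, S a ∈ y := by
      intro a ha
      rw [my] at ha hw hSw ⊢
      have h1 : s a w := s.trans ha (s.symm hw)
      have h2 : s (S a) (S w) := gs_S F U hUS h1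
      exact s.trans h2 hSw
    have E4 : 4 ∣ E.card := by
      refine four_dvd_of (fun x : V × V => (S x.1, S x.2)) Prod.swap E ?_ hswap ?_ ?_ ?_ ?_ hswapne ?_
      · rintro ⟨a, b⟩ hab
        rw [mE] at hab ⊢
        refine ⟨⟨yS _ hab.1.1, yS _ hab.1.2⟩, ?_⟩
        rcases hab.2 with h | h
        · exact Or.inl ⟨(hGS _ _).2 h.1, F.BS _ _ h.2⟩
        · exact Or.inr (hUS _ _ h)
      · rintro ⟨a, b⟩ _
        exact Prod.ext (F.s2 a) (F.s2 b)
      · rintro ⟨a, b⟩ _
        rfl
      · rintro ⟨a, b⟩ _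
        rfl
      · rintro ⟨a, b⟩ hab h
        rw [mE] at hab
        have h1 : S a = a := congrArg Prod.fst h
        have h2 : S b = b := congrArg Prod.snd h
        rcases hab.2 with h' | h'
        · exact F.ne _ _ (F.l _ _ h'.2) h1
        · exact (hfixS a b h' 0).1 (by simp [h1, h2])
      · rintro ⟨a, b⟩ hab h
        rw [mE] at hab
        have h1 : S a = b := congrArg Prod.fst h
        have h2 : S b = a := congrArg Prod.snd h
        rcases hab.2 with h' | h'
        · exact F.ne _ _ h'.2 h1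
        · exact (hfixS a b h' 0).2 (by simp [h1, h2])
    omega
  · have E2 : 2 ∣ E.card := two_dvd_of Prod.swap E hswap (fun x _ => by simp) hswapne
    by_contra hcon
    have htight : ((y ×ˢ y).filter (fun x : V × V => G.Adj x.1 x.2)).card + 6 = 4 * y.card := by
      omega
    have hblk : Blk G R S y := by
      refine ⟨⟨v, hvy⟩, yR, ?_, htight⟩
      intro w hw hSw
      exact hSy ⟨w, hw, hSw⟩
    have hBv : B v v := (hB v v).2 ⟨y, hblk, hvy, hvy⟩
    apply hSy
    refine ⟨v, hvy, (my _).2 ?_⟩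
    exact s.symm (gs_of (Or.inr (Or.inr (Or.inr ⟨hBv, rfl⟩))))

theorem gs_free {V : Type} [Fintype V] [DecidableEq V] {G : SimpleGraph V} [DecidableRel G.Adj]
    {R S : Equiv.Perm V} {B : V → V → Prop} (F : Fx G R S B) {a b : V}
    (h : gs R S B (fun _ _ => False) a b) :
    (B a a ↔ B b b) ∧ (¬ B a a → b = a ∨ b = R a ∨ b = R (R a)) := by
  have h' : Relation.EqvGen (grel R S B (fun _ _ => False)) a b := h
  clear h
  induction h' with
  | rel x y h =>
    rcases h with rfl | h | h | ⟨h, rfl⟩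
    · refine ⟨⟨F.BR x x, fun h => ?_⟩, fun _ => Or.inr (Or.inl rfl)⟩
      have := F.BR _ _ (F.BR _ _ h)
      rwa [F.r3] at this
    · have h1 := F.l _ _ h
      have h2 := F.l _ _ (F.sym _ _ h)
      exact ⟨⟨fun _ => h2, fun _ => h1⟩, fun h3 => absurd h1 h3⟩
    · exact h.elim
    · exact ⟨⟨fun _ => F.BS _ _ h, fun _ => h⟩, fun h3 => absurd h h3⟩
  | refl x => exact ⟨Iff.rfl, fun _ => Or.inl rfl⟩
  | symm x y h ih =>
    refine ⟨ih.1.symm, fun hy => ?_⟩
    rcases ih.2 (fun hx => hy (ih.1.1 hx)) with rfl | rfl | rfl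
    · exact Or.inl rfl
    · right; right; rw [F.r3]
    · right; left; rw [F.r3]
  | trans x y z h h' ih ih' =>
    refine ⟨ih.1.trans ih'.1, fun hx => ?_⟩
    have hy : ¬ B y y := fun hy => hx (ih.1.2 hy)
    rcases ih.2 hx with rfl | rfl | rfl <;> rcases ih'.2 hy with rfl | rfl | rfl
    · exact Or.inl rfl
    · exact Or.inr (Or.inl rfl)
    · exact Or.inr (Or.inr rfl)
    · exact Or.inr (Or.inl rfl)
    · exact Or.inr (Or.inr rfl)
    · left; rw [F.r3]
    · exact Or.inr (Or.inr rfl)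
    · left; rw [F.r3]
    · right; left; rw [F.r3]

theorem class_bound0 {V : Type} [Fintype V] [DecidableEq V] (G : SimpleGraph V) [DecidableRel G.Adj]
    (R S : Equiv.Perm V) (hSS : S * S = 1) (hSRS : S * R * S = R⁻¹)
    (hfree : ∀ v, R v ≠ v)
    (hGS : ∀ a b, G.Adj (S a) (S b) ↔ G.Adj a b)
    (hsparse : ∀ C : Finset V, 2 ≤ C.card →
      ((C ×ˢ C).filter (fun x : V × V => G.Adj x.1 x.2)).card + 6 ≤ 4 * C.card)
    (B : V → V → Prop) [DecidableRel B] (hB : ∀ a b, B a b ↔ ∃ K, Blk G R S K ∧ a ∈ K ∧ b ∈ K)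
    (F : Fx G R S B)
    [DecidableEq (Quotient (gs R S B (fun _ _ => False)))] (q : Quotient (gs R S B (fun _ _ => False))) :
    4 * (cls _ q).card ≤ 12 + ((cls _ q ×ˢ cls _ q).filter
      (fun x : V × V => (G.Adj x.1 x.2 ∧ B x.1 x.2))).card := by
  classical
  obtain ⟨v, rfl⟩ := Quotient.exists_rep q
  have my : ∀ w, w ∈ cls (gs R S B (fun _ _ => False)) (Quotient.mk (gs R S B (fun _ _ => False)) v) ↔
      gs R S B (fun _ _ => False) w v := by
    intro w
    simp only [cls, Finset.mem_filter, Finset.mem_univ, true_and]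
    exact Quotient.eq
  generalize cls (gs R S B (fun _ _ => False)) (Quotient.mk (gs R S B (fun _ _ => False)) v) = y at my ⊢
  set s := gs R S B (fun _ _ => False) with hs
  have hvy : v ∈ y := (my v).2 (s.refl v)
  set E := (y ×ˢ y).filter (fun x : V × V => (G.Adj x.1 x.2 ∧ B x.1 x.2)) with hE
  have mE : ∀ a b, (a, b) ∈ E ↔ (a ∈ y ∧ b ∈ y) ∧ (G.Adj a b ∧ B a b) := by
    intro a b
    simp only [hE, Finset.mem_filter, Finset.mem_product]
  change 4 * y.card ≤ 12 + E.card
  by_cases hw : ∃ w ∈ y, B w w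
  · obtain ⟨w, hwy, hBw⟩ := hw
    obtain ⟨K0, hK0, hwK0, -⟩ := (hB w w).1 hBw
    obtain ⟨K, hK, hmax⟩ := Finset.exists_max_image
      ((Finset.univ : Finset (Finset V)).filter (fun K => Blk G R S K ∧ w ∈ K)) Finset.card
      ⟨K0, by simp [hK0, hwK0]⟩
    simp only [Finset.mem_filter, Finset.mem_univ, true_and] at hK hmax
    obtain ⟨hKb, hwK⟩ := hK
    have hsub : ∀ K' : Finset V, Blk G R S K' → (K ∩ K').Nonempty → K' ⊆ K := by
      intro K' hK' hne
      have h1 := blk_union G R S hSS hSRS hfree hGS hsparse K K' hKb hK' hne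
      have h2 := hmax (K ∪ K') ⟨h1, Finset.mem_union_left _ hwK⟩
      have h3 : K = K ∪ K' := Finset.eq_of_subset_of_card_le Finset.subset_union_left h2
      rw [h3]; exact Finset.subset_union_right
    have hSKb := blk_mirror G R S hSS hSRS hGS K hKb
    set T := K ∪ K.image S with hT
    have mI : ∀ L : Finset V, ∀ a, a ∈ L.image S ↔ S a ∈ L := by
      intro L a
      rw [Finset.mem_image]
      constructor
      · rintro ⟨b, hb, rfl⟩; rw [F.s2]; exact hb
      · intro h; exact ⟨S a, h, F.s2 a⟩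
    have mT : ∀ a, a ∈ T ↔ a ∈ K ∨ S a ∈ K := by
      intro a; rw [hT, Finset.mem_union, mI]
    have hsubT : ∀ K' : Finset V, Blk G R S K' → ∀ a ∈ K', a ∈ T → K' ⊆ T := by
      intro K' hK' a ha haT
      rcases (mT a).1 haT with h | h
      · exact (hsub K' hK' ⟨a, Finset.mem_inter.2 ⟨h, ha⟩⟩).trans Finset.subset_union_left
      · have h1 := hsub (K'.image S) (blk_mirror G R S hSS hSRS hGS K' hK')
          ⟨S a, Finset.mem_inter.2 ⟨h, (mI _ _).2 (by rw [F.s2]; exact ha)⟩⟩
        intro x hx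
        rw [mT]; right
        exact h1 ((mI _ _).2 (by rw [F.s2]; exact hx))
    have KR : ∀ L : Finset V, Blk G R S L → ∀ a, a ∈ L ↔ R a ∈ L := by
      intro L hL a
      refine ⟨hL.2.1 a, fun h => ?_⟩
      have := hL.2.1 _ (hL.2.1 _ h)
      rwa [F.r3] at this
    have hinv : ∀ a b, s a b → (a ∈ T ↔ b ∈ T) := by
      intro a b hab
      have h' : Relation.EqvGen (grel R S B (fun _ _ => False)) a b := hab
      clear hab
      induction h' with
      | rel x z h =>
        rcases h with rfl | h | h | ⟨h, rfl⟩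
        · rw [hT, Finset.mem_union, Finset.mem_union, ← KR K hKb x, ← KR _ hSKb x]
        · obtain ⟨K', hK', hx, hz⟩ := (hB _ _).1 h
          exact ⟨fun h => hsubT K' hK' x hx h hz, fun h => hsubT K' hK' z hz h hx⟩
        · exact h.elim
        · rw [mT, mT, F.s2]; exact Or.comm
      | refl x => exact Iff.rfl
      | symm x z h ih => exact ih.symm
      | trans x z u h h' ih ih' => exact ih.trans ih'
    have hyT : y ⊆ T := by
      intro u hu
      have h1 : s u w := s.trans ((my u).1 hu) (s.symm ((my w).1 hwy))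
      exact (hinv u w h1).2 ((mT w).2 (Or.inl hwK))
    have hKy : ∀ a ∈ K, a ∈ y := by
      intro a ha
      have h1 : B a w := (hB _ _).2 ⟨K, hKb, ha, hwK⟩
      exact (my a).2 (s.trans (gs_of (Or.inr (Or.inl h1))) ((my w).1 hwy))
    have hSKy : ∀ a ∈ K.image S, a ∈ y := by
      intro a ha
      have ha' := (mI _ _).1 ha
      have h1 : B (S a) (S a) := (hB _ _).2 ⟨K, hKb, ha', ha'⟩
      have h2 : s (S a) (S (S a)) := gs_of (Or.inr (Or.inr (Or.inr ⟨h1, rfl⟩)))
      rw [F.s2] at h2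
      exact (my a).2 (s.trans (s.symm h2) ((my _).1 (hKy _ ha')))
    have hcI : (K.image S).card = K.card := Finset.card_image_of_injective _ S.injective
    have hTc : y.card ≤ 2 * K.card := by
      have h1 := Finset.card_le_card hyT
      have h2 := Finset.card_union_le K (K.image S)
      rw [hcI, ← hT] at h2
      omega
    have hdart : ((K ×ˢ K).filter (fun x : V × V => G.Adj x.1 x.2)) ∪
        ((K.image S ×ˢ K.image S).filter (fun x : V × V => G.Adj x.1 x.2)) ⊆ E := by
      rintro ⟨a, b⟩ hab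
      rw [mE]
      rcases Finset.mem_union.1 hab with h | h <;>
        simp only [Finset.mem_filter, Finset.mem_product] at h
      · exact ⟨⟨hKy _ h.1.1, hKy _ h.1.2⟩, h.2, (hB _ _).2 ⟨K, hKb, h.1.1, h.1.2⟩⟩
      · exact ⟨⟨hSKy _ h.1.1, hSKy _ h.1.2⟩, h.2, (hB _ _).2 ⟨_, hSKb, h.1.1, h.1.2⟩⟩
    have hdis : Disjoint ((K ×ˢ K).filter (fun x : V × V => G.Adj x.1 x.2))
        ((K.image S ×ˢ K.image S).filter (fun x : V × V => G.Adj x.1 x.2)) := by
      rw [Finset.disjoint_left]
      rintro ⟨a, b⟩ h1 h2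
      simp only [Finset.mem_filter, Finset.mem_product] at h1 h2
      exact hKb.2.2.1 a h1.1.1 ((mI _ _).1 h2.1.1)
    have h1 := Finset.card_le_card hdart
    rw [Finset.card_union_of_disjoint hdis] at h1
    have h2 := hKb.2.2.2
    have h3 := hSKb.2.2.2
    rw [hcI] at h3
    omega
  · have hsub : y ⊆ {v, R v, R (R v)} := by
      intro u hu
      have h1 := gs_free F (s.symm ((my u).1 hu))
      have h2 := h1.2 (fun h => hw ⟨v, hvy, h⟩)
      simpa using h2
    have h1 := Finset.card_le_card hsub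
    have h2 : ({v, R v, R (R v)} : Finset V).card ≤ 3 := Finset.card_le_three
    omega

end help

/-- TARGET 1. -/
theorem count_E1 {V : Type} [Fintype V] [DecidableEq V] (G : SimpleGraph V) [DecidableRel G.Adj]
    (R S : Equiv.Perm V) (hR3 : R ^ 3 = 1) (hSS : S * S = 1) (hSRS : S * R * S = R⁻¹)
    (hfree : ∀ v, R v ≠ v) (hGR : ∀ a b, G.Adj (R a) (R b) ↔ G.Adj a b)
    (hGS : ∀ a b, G.Adj (S a) (S b) ↔ G.Adj a b)
    (hsparse : ∀ C : Finset V, 2 ≤ C.card →
      ((C ×ˢ C).filter (fun x : V × V => G.Adj x.1 x.2)).card + 6 ≤ 4 * C.card)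
    (B : V → V → Prop) [DecidableRel B] (hB : ∀ a b, B a b ↔ ∃ K, Blk G R S K ∧ a ∈ K ∧ b ∈ K)
    (U : V → V → Prop) [DecidableRel U] (hUadj : ∀ a b, U a b → G.Adj a b)
    (hUB : ∀ a b, U a b → ¬ B a b) (hUsym : ∀ a b, U a b → U b a)
    (hUR : ∀ a b, U a b → U (R a) (R b)) (hUS : ∀ a b, U a b → U (S a) (S b))
    (hfixS : ∀ a b, U a b → ∀ k : ℕ, ¬ ((R ^ k * S) a = a ∧ (R ^ k * S) b = b) ∧
      ¬ ((R ^ k * S) a = b ∧ (R ^ k * S) b = a)) :
    12 * finrank ℂ (Yq R S B U) + (Finset.univ.filter (fun x : V × V => G.Adj x.1 x.2 ∧ B x.1 x.2)).card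
      + (Finset.univ.filter (fun x : V × V => U x.1 x.2)).card ≤ 4 * Fintype.card V := by
  classical
  have F := mkFx G R S hR3 hSS hSRS hfree hGS B hB
  have : Fintype (Quotient (gs R S B U)) := Fintype.ofFinite _
  rw [finrank_Yq]
  have h1 : (Finset.univ.filter (fun x : V × V => G.Adj x.1 x.2 ∧ B x.1 x.2)).card
      + (Finset.univ.filter (fun x : V × V => U x.1 x.2)).card =
      (Finset.univ.filter (fun x : V × V => (G.Adj x.1 x.2 ∧ B x.1 x.2) ∨ U x.1 x.2)).card := by
    rw [Finset.filter_or, Finset.card_union_of_disjoint]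
    rw [Finset.disjoint_filter]
    rintro ⟨a, b⟩ _ h1 h2
    exact hUB _ _ h2 h1.2
  have h2 := darts_cls (gs R S B U) (fun a b => (G.Adj a b ∧ B a b) ∨ U a b) (by
    rintro a b (h | h)
    · exact gs_of (Or.inr (Or.inl h.2))
    · exact gs_of (Or.inr (Or.inr (Or.inl h))))
  have h3 := card_cls (gs R S B U)
  have h4 : ∑ q : Quotient (gs R S B U), (12 + ((cls (gs R S B U) q ×ˢ cls (gs R S B U) q).filter
      (fun x : V × V => (G.Adj x.1 x.2 ∧ B x.1 x.2) ∨ U x.1 x.2)).card)
      ≤ ∑ q : Quotient (gs R S B U), 4 * (cls (gs R S B U) q).card :=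
    Finset.sum_le_sum (fun q _ => class_bound1 G R S hGR hGS hsparse B hB F U hUadj hUsym hUR hUS
      hfixS q)
  rw [Finset.sum_add_distrib, ← Finset.mul_sum, ← h3, Finset.sum_const, Finset.card_univ,
    smul_eq_mul] at h4
  rw [add_assoc, h1, h2]
  have h5 : Fintype.card (Quotient (gs R S B U)) * 12 = 12 * Fintype.card (Quotient (gs R S B U)) :=
    mul_comm _ _
  rw [h5] at h4
  exact h4

/-- TARGET 2. -/
theorem count_E0 {V : Type} [Fintype V] [DecidableEq V] (G : SimpleGraph V) [DecidableRel G.Adj]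
    (R S : Equiv.Perm V) (hR3 : R ^ 3 = 1) (hSS : S * S = 1) (hSRS : S * R * S = R⁻¹)
    (hfree : ∀ v, R v ≠ v) (hGR : ∀ a b, G.Adj (R a) (R b) ↔ G.Adj a b)
    (hGS : ∀ a b, G.Adj (S a) (S b) ↔ G.Adj a b)
    (hsparse : ∀ C : Finset V, 2 ≤ C.card →
      ((C ×ˢ C).filter (fun x : V × V => G.Adj x.1 x.2)).card + 6 ≤ 4 * C.card)
    (B : V → V → Prop) [DecidableRel B] (hB : ∀ a b, B a b ↔ ∃ K, Blk G R S K ∧ a ∈ K ∧ b ∈ K) :
    4 * Fintype.card V ≤ 12 * finrank ℂ (Yq R S B (fun _ _ => False))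
      + (Finset.univ.filter (fun x : V × V => G.Adj x.1 x.2 ∧ B x.1 x.2)).card := by
  classical
  have F := mkFx G R S hR3 hSS hSRS hfree hGS B hB
  have : Fintype (Quotient (gs R S B (fun _ _ => False))) := Fintype.ofFinite _
  rw [finrank_Yq]
  have h2 := darts_cls (gs R S B (fun _ _ => False)) (fun a b => (G.Adj a b ∧ B a b)) (by
    rintro a b h
    exact gs_of (Or.inr (Or.inl h.2)))
  have h3 := card_cls (gs R S B (fun _ _ => False))
  have h4 : ∑ q : Quotient (gs R S B (fun _ _ => False)), 4 * (cls (gs R S B (fun _ _ => False)) q).card ≤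
      ∑ q : Quotient (gs R S B (fun _ _ => False)), (12 + ((cls (gs R S B (fun _ _ => False)) q ×ˢ
        cls (gs R S B (fun _ _ => False)) q).filter
      (fun x : V × V => (G.Adj x.1 x.2 ∧ B x.1 x.2))).card) :=
    Finset.sum_le_sum (fun q _ => class_bound0 G R S hSS hSRS hfree hGS hsparse B hB F q)
  rw [Finset.sum_add_distrib, ← Finset.mul_sum, ← h3, Finset.sum_const, Finset.card_univ,
    smul_eq_mul] at h4
  rw [h2]
  have h5 : Fintype.card (Quotient (gs R S B (fun _ _ => False))) * 12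
      = 12 * Fintype.card (Quotient (gs R S B (fun _ _ => False))) :=
    mul_comm _ _
  rw [h5] at h4
  exact h4

end Pool.Agent.DihLaman.J600
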