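import Pool.Agent.Helper927.DLDefs
import Pool.Agent.Helper927.DL599
set_option autoImplicit false
set_option maxHeartbeats 4000000
open Module Submodule

namespace Pool.Agent.DihLaman.J603
open Pool.Agent.DihLaman
open Pool.Agent.DihLaman.J599 (blk_mirror)
open Pool.Agent.DihLaman.J599 (blk_union)

theorem aux_two_dvd {X : Type} [DecidableEq X] (T : Finset X) (τ : X → X) (hτ : ∀ x ∈ T, τ x ∈ T)
    (hττ : ∀ x, τ (τ x) = x) (h2 : ∀ x ∈ T, τ x ≠ x) : 2 ∣ T.card := by
  rw [Finset.card_eq_sum_card_image (fun x => ({x, τ x} : Finset X)) T]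
  apply Finset.dvd_sum
  intro b hb
  obtain ⟨x0, hx0, rfl⟩ := Finset.mem_image.mp hb
  have h : (T.filter (fun a => ({a, τ a} : Finset X) = {x0, τ x0})) = {x0, τ x0} := by
    ext a
    simp only [Finset.mem_filter, Finset.mem_insert, Finset.mem_singleton]
    constructor
    · rintro ⟨_, h⟩
      have : a ∈ ({a, τ a} : Finset X) := by simp
      rw [h] at this
      simpa using this
    · rintro (rfl | rfl)
      · exact ⟨hx0, rfl⟩
      · refine ⟨hτ _ hx0, ?_⟩
        rw [hττ, Finset.pair_comm]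
  rw [h, Finset.card_pair (h2 x0 hx0).symm]

theorem aux_three_dvd {X : Type} [DecidableEq X] (T : Finset X) (ρ : X → X) (hρ : ∀ x ∈ T, ρ x ∈ T)
    (h3 : ∀ x, ρ (ρ (ρ x)) = x) (h1 : ∀ x ∈ T, ρ x ≠ x) : 3 ∣ T.card := by
  rw [Finset.card_eq_sum_card_image (fun x => ({x, ρ x, ρ (ρ x)} : Finset X)) T]
  apply Finset.dvd_sum
  intro b hb
  obtain ⟨x0, hx0, rfl⟩ := Finset.mem_image.mp hb
  have h : (T.filter (fun a => ({a, ρ a, ρ (ρ a)} : Finset X) = {x0, ρ x0, ρ (ρ x0)})) = {x0, ρ x0, ρ (ρ x0)} := by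
    ext a
    simp only [Finset.mem_filter, Finset.mem_insert, Finset.mem_singleton]
    constructor
    · rintro ⟨_, h⟩
      have : a ∈ ({a, ρ a, ρ (ρ a)} : Finset X) := by simp
      rw [h] at this
      simpa using this
    · rintro (rfl | rfl | rfl)
      · exact ⟨hx0, rfl⟩
      · refine ⟨hρ _ hx0, ?_⟩
        rw [h3]
        ext z
        simp only [Finset.mem_insert, Finset.mem_singleton]
        tauto
      · refine ⟨hρ _ (hρ _ hx0), ?_⟩
        rw [h3]
        ext z
        simp only [Finset.mem_insert, Finset.mem_singleton]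
        tauto
  have h12 : x0 ≠ ρ x0 := (h1 x0 hx0).symm
  have h23 : ρ x0 ≠ ρ (ρ x0) := (h1 _ (hρ _ hx0)).symm
  have h13 : x0 ≠ ρ (ρ x0) := by
    intro h
    have h' := h1 _ (hρ _ (hρ _ hx0))
    rw [h3] at h'
    exact h' h
  rw [h, Finset.card_insert_of_notMem, Finset.card_pair h23]
  simp only [Finset.mem_insert, Finset.mem_singleton, not_or]
  exact ⟨h12, h13⟩

theorem aux_four_dvd {X : Type} [DecidableEq X] (T : Finset X) (σ τ : X → X) (hσ : ∀ x ∈ T, σ x ∈ T)
    (hτ : ∀ x ∈ T, τ x ∈ T) (hσσ : ∀ x, σ (σ x) = x)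
    (hττ : ∀ x, τ (τ x) = x) (hc : ∀ x, σ (τ x) = τ (σ x)) (h1 : ∀ x ∈ T, σ x ≠ x) (h2 : ∀ x ∈ T, τ x ≠ x)
    (h3 : ∀ x ∈ T, σ (τ x) ≠ x) : 4 ∣ T.card := by
  rw [Finset.card_eq_sum_card_image (fun x => ({x, σ x, τ x, σ (τ x)} : Finset X)) T]
  apply Finset.dvd_sum
  intro b hb
  obtain ⟨x0, hx0, rfl⟩ := Finset.mem_image.mp hb
  have h : (T.filter (fun a => ({a, σ a, τ a, σ (τ a)} : Finset X) = {x0, σ x0, τ x0, σ (τ x0)})) = {x0, σ x0, τ x0, σ (τ x0)} := by
    ext a
    simp only [Finset.mem_filter, Finset.mem_insert, Finset.mem_singleton]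
    constructor
    · rintro ⟨_, h⟩
      have : a ∈ ({a, σ a, τ a, σ (τ a)} : Finset X) := by simp
      rw [h] at this
      simpa using this
    · rintro (rfl | rfl | rfl | rfl)
      · exact ⟨hx0, rfl⟩
      · refine ⟨hσ _ hx0, ?_⟩
        rw [hσσ, ← hc, hσσ]
        ext z
        simp only [Finset.mem_insert, Finset.mem_singleton]
        tauto
      · refine ⟨hτ _ hx0, ?_⟩
        rw [hττ]
        ext z
        simp only [Finset.mem_insert, Finset.mem_singleton]
        tauto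
      · refine ⟨hσ _ (hτ _ hx0), ?_⟩
        rw [hσσ, hc x0, hττ, hσσ]
        ext z
        simp only [Finset.mem_insert, Finset.mem_singleton]
        tauto
  rw [h]
  have a1 : x0 ≠ σ x0 := (h1 x0 hx0).symm
  have a2 : x0 ≠ τ x0 := (h2 x0 hx0).symm
  have a3 : x0 ≠ σ (τ x0) := (h3 x0 hx0).symm
  have a4 : σ x0 ≠ τ x0 := by
    intro h
    apply h3 x0 hx0
    rw [← h, hσσ]
  have a5 : σ x0 ≠ σ (τ x0) := by
    intro h
    apply a2
    have := congrArg σ h
    rwa [hσσ, hσσ] at this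
  have a6 : τ x0 ≠ σ (τ x0) := (h1 _ (hτ _ hx0)).symm
  rw [Finset.card_insert_of_notMem, Finset.card_insert_of_notMem, Finset.card_pair a6]
  · simp only [Finset.mem_insert, Finset.mem_singleton, not_or]
    exact ⟨a4, a5⟩
  · simp only [Finset.mem_insert, Finset.mem_singleton, not_or]
    exact ⟨a1, a2, a3⟩

/-- TARGET 1. -/
theorem count_E2 {V : Type} [Fintype V] [DecidableEq V] (G : SimpleGraph V) [DecidableRel G.Adj]
    (R S : Equiv.Perm V) (hR3 : R ^ 3 = 1) (hSS : S * S = 1) (hSRS : S * R * S = R⁻¹)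
    (hfree : ∀ v, R v ≠ v) (hGR : ∀ a b, G.Adj (R a) (R b) ↔ G.Adj a b)
    (hGS : ∀ a b, G.Adj (S a) (S b) ↔ G.Adj a b)
    (hsparse : ∀ C : Finset V, 2 ≤ C.card →
      ((C ×ˢ C).filter (fun x : V × V => G.Adj x.1 x.2)).card + 6 ≤ 4 * C.card)
    (B : V → V → Prop) [DecidableRel B] (hB : ∀ a b, B a b ↔ ∃ K, Blk G R S K ∧ a ∈ K ∧ b ∈ K)
    (U : V → V → Prop) [DecidableRel U] (hUadj : ∀ a b, U a b → G.Adj a b)
    (hUB : ∀ a b, U a b → ¬ B a b) (hUsym : ∀ a b, U a b → U b a)
    (hUR : ∀ a b, U a b → U (R a) (R b)) (hUS : ∀ a b, U a b → U (S a) (S b))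
    (hfixS : ∀ a b, U a b → ∀ k : ℕ, ¬ ((R ^ k * S) a = a ∧ (R ^ k * S) b = b) ∧
      ¬ ((R ^ k * S) a = b ∧ (R ^ k * S) b = a))
    (u0 v0 : V) (h0 : G.Adj u0 v0) (h0S : (S u0 = u0 ∧ S v0 = v0) ∨ (S u0 = v0 ∧ S v0 = u0))
    (h0u : ¬ B u0 u0) (h0v : ¬ B v0 v0) (h0R : ∀ k : ℕ, (R ^ k) u0 ≠ v0) :
    12 * finrank ℂ (Yq R S B U ⊓ LinearMap.ker (LinearMap.proj (R := ℂ) (φ := fun _ : V => ℂ) u0 - LinearMap.proj v0)
        : Submodule ℂ (V → ℂ))
      + (Finset.univ.filter (fun x : V × V => G.Adj x.1 x.2 ∧ B x.1 x.2)).card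
      + (Finset.univ.filter (fun x : V × V => U x.1 x.2)).card + 12 ≤ 4 * Fintype.card V ∨
    ∃ W : Finset V, u0 ∈ W ∧ v0 ∈ W ∧ (∀ v ∈ W, R v ∈ W) ∧ (∀ v ∈ W, S v ∈ W) ∧
      (∀ a ∈ W, ∀ b, B a b → b ∈ W) ∧
      ((W ×ˢ W).filter (fun x : V × V => G.Adj x.1 x.2)).card + 6 = 4 * W.card ∧
      (∀ a ∈ W, ∀ b ∈ W, G.Adj a b → ¬ B a b → U a b ∨
        ∃ k : ℕ, (a = (R ^ k) u0 ∧ b = (R ^ k) v0) ∨ (a = (R ^ k) v0 ∧ b = (R ^ k) u0)) := by
  classical
  have hRRR : ∀ v, R (R (R v)) = v := by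
    intro v
    have h := congrArg (fun f : Equiv.Perm V => f v) hR3
    simpa [pow_succ] using h
  have hSSv : ∀ v, S (S v) = v := fun v => congrArg (fun f : Equiv.Perm V => f v) hSS
  have hSR : ∀ v, S (R v) = R⁻¹ (S v) := by
    intro v
    have h := congrArg (fun f : Equiv.Perm V => f (S v)) hSRS
    have h' : S (R (S (S v))) = R⁻¹ (S v) := h
    rwa [hSSv] at h'
  have hRSR : ∀ v, R (S (R v)) = S v := by
    intro v
    rw [hSR]
    exact Equiv.apply_symm_apply R (S v)
  have hBS : ∀ a b, B a b → B (S a) (S b) := by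
    intro a b h
    obtain ⟨K, hK, ha, hb⟩ := (hB a b).mp h
    exact (hB _ _).mpr ⟨K.image S, blk_mirror G R S hSS hSRS hGS K hK,
      Finset.mem_image_of_mem _ ha, Finset.mem_image_of_mem _ hb⟩
  have hBR : ∀ a b, B a b → B (R a) (R b) := by
    intro a b h
    obtain ⟨K, hK, ha, hb⟩ := (hB a b).mp h
    exact (hB _ _).mpr ⟨K, hK, hK.2.1 _ ha, hK.2.1 _ hb⟩
  have hBsym : ∀ a b, B a b → B b a := by
    intro a b h
    obtain ⟨K, hK, ha, hb⟩ := (hB a b).mp h
    exact (hB _ _).mpr ⟨K, hK, hb, ha⟩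
  have hBrefl : ∀ a b, B a b → B a a := by
    intro a b h
    obtain ⟨K, hK, ha, hb⟩ := (hB a b).mp h
    exact (hB _ _).mpr ⟨K, hK, ha, ha⟩
  have hBS1 : ∀ a b, B a b → S a ≠ a ∧ S a ≠ b := by
    intro a b h
    obtain ⟨K, hK, ha, hb⟩ := (hB a b).mp h
    exact ⟨fun h' => hK.2.2.1 a ha (by rw [h']; exact ha), fun h' => hK.2.2.1 a ha (by rw [h']; exact hb)⟩
  -- the equivalence relation
  let r : V → V → Prop := fun a b => b = R a ∨ B a b ∨ U a b ∨ (B a a ∧ b = S a) ∨ (a = u0 ∧ b = v0)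
  let s : Setoid V := Relation.EqvGen.setoid r
  have hs : ∀ a b, r a b → s a b := fun a b h => Relation.EqvGen.rel a b h
  have hS : ∀ a b, s a b → s (S a) (S b) := by
    intro a b h
    induction h with
    | rel a b h =>
      rcases h with h | h | h | ⟨h, h'⟩ | ⟨h, h'⟩
      · rw [h]
        apply s.symm
        apply hs
        left
        exact (hRSR a).symm
      · exact hs _ _ (Or.inr (Or.inl (hBS _ _ h)))
      · exact hs _ _ (Or.inr (Or.inr (Or.inl (hUS _ _ h))))
      · rw [h']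
        exact hs _ _ (Or.inr (Or.inr (Or.inr (Or.inl ⟨hBS _ _ h, rfl⟩))))
      · rw [h, h']
        rcases h0S with ⟨e1, e2⟩ | ⟨e1, e2⟩
        · rw [e1, e2]
          exact hs _ _ (Or.inr (Or.inr (Or.inr (Or.inr ⟨rfl, rfl⟩))))
        · rw [e1, e2]
          exact s.symm (hs _ _ (Or.inr (Or.inr (Or.inr (Or.inr ⟨rfl, rfl⟩)))))
    | refl a => exact s.refl _
    | symm a b _ ih => exact s.symm ih
    | trans a b c _ _ ih1 ih2 => exact s.trans ih1 ih2
  let mk : V → Quotient s := Quotient.mk s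
  have hmk : ∀ a b, mk a = mk b ↔ s a b := fun a b => Quotient.eq
  have hmkR : ∀ a, mk (R a) = mk a := fun a => (hmk _ _).mpr (s.symm (hs _ _ (Or.inl rfl)))
  have hmkB : ∀ a b, B a b → mk b = mk a := fun a b h => (hmk _ _).mpr (s.symm (hs _ _ (Or.inr (Or.inl h))))
  have hmkU : ∀ a b, U a b → mk b = mk a := fun a b h => (hmk _ _).mpr (s.symm (hs _ _ (Or.inr (Or.inr (Or.inl h)))))
  have hmkBS : ∀ a, B a a → mk (S a) = mk a := fun a h =>
    (hmk _ _).mpr (s.symm (hs _ _ (Or.inr (Or.inr (Or.inr (Or.inl ⟨h, rfl⟩))))))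
  have hmk0 : mk v0 = mk u0 := (hmk _ _).mpr (s.symm (hs _ _ (Or.inr (Or.inr (Or.inr (Or.inr ⟨rfl, rfl⟩))))))
  have hmkS : ∀ a b, mk a = mk b → mk (S a) = mk (S b) := fun a b h => (hmk _ _).mpr (hS _ _ ((hmk _ _).mp h))
  let y : Quotient s → Finset V := fun q => Finset.univ.filter (fun v => mk v = q)
  have hy : ∀ q v, v ∈ y q ↔ mk v = q := fun q v => by simp [y]
  let Cn : V × V → Prop := fun x => (G.Adj x.1 x.2 ∧ B x.1 x.2) ∨ U x.1 x.2
  have hCnAdj : ∀ x, Cn x → G.Adj x.1 x.2 := by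
    rintro x (h | h)
    · exact h.1
    · exact hUadj _ _ h
  have hCnmk : ∀ x, Cn x → mk x.2 = mk x.1 := by
    rintro x (h | h)
    · exact hmkB _ _ h.2
    · exact hmkU _ _ h
  let D : Quotient s → Finset (V × V) := fun q => Finset.univ.filter (fun x : V × V => Cn x ∧ mk x.1 = q)
  have hD : ∀ q x, x ∈ D q ↔ Cn x ∧ mk x.1 = q := fun q x => by simp [D]
  have hDsub : ∀ q, D q ⊆ ((y q ×ˢ y q).filter (fun x : V × V => G.Adj x.1 x.2)) := by
    intro q x hx
    rw [hD] at hx
    rw [Finset.mem_filter, Finset.mem_product, hy, hy]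
    exact ⟨⟨hx.2, (hCnmk x hx.1).trans hx.2⟩, hCnAdj x hx.1⟩
  have hCnR : ∀ x, Cn x → Cn (R x.1, R x.2) := by
    rintro x (h | h)
    · exact Or.inl ⟨(hGR _ _).mpr h.1, hBR _ _ h.2⟩
    · exact Or.inr (hUR _ _ h)
  have hCnS : ∀ x, Cn x → Cn (S x.1, S x.2) := by
    rintro x (h | h)
    · exact Or.inl ⟨(hGS _ _).mpr h.1, hBS _ _ h.2⟩
    · exact Or.inr (hUS _ _ h)
  have hCnsw : ∀ x, Cn x → Cn (x.2, x.1) := by
    rintro x (h | h)
    · exact Or.inl ⟨h.1.symm, hBsym _ _ h.2⟩
    · exact Or.inr (hUsym _ _ h)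
  have hD3 : ∀ q, 3 ∣ (D q).card := by
    intro q
    apply aux_three_dvd (D q) (fun x => (R x.1, R x.2))
    · intro x hx
      rw [hD] at hx ⊢
      exact ⟨hCnR x hx.1, (hmkR _).trans hx.2⟩
    · intro x
      simp only [hRRR]
    · intro x _ h
      exact hfree x.1 (congrArg Prod.fst h)
  have hD2 : ∀ q, 2 ∣ (D q).card := by
    intro q
    apply aux_two_dvd (D q) (fun x => (x.2, x.1))
    · intro x hx
      rw [hD] at hx ⊢
      exact ⟨hCnsw x hx.1, (hCnmk x hx.1).trans hx.2⟩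
    · intro x
      rfl
    · intro x hx h
      rw [hD] at hx
      have := hCnAdj x hx.1
      rw [show x.2 = x.1 from congrArg Prod.fst h] at this
      exact G.irrefl this
  have hD4 : ∀ q, (∀ v, mk v = q → mk (S v) = q) → 4 ∣ (D q).card := by
    intro q hq
    apply aux_four_dvd (D q) (fun x => (S x.1, S x.2)) (fun x => (x.2, x.1))
    · intro x hx
      rw [hD] at hx ⊢
      exact ⟨hCnS x hx.1, hq _ hx.2⟩
    · intro x hx
      rw [hD] at hx ⊢
      exact ⟨hCnsw x hx.1, (hCnmk x hx.1).trans hx.2⟩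
    · intro x
      simp only [hSSv]
    · intro x
      rfl
    · intro x
      rfl
    · intro x hx h
      rw [hD] at hx
      have e1 : S x.1 = x.1 := congrArg Prod.fst h
      have e2 : S x.2 = x.2 := congrArg Prod.snd h
      rcases hx.1 with h' | h'
      · exact (hBS1 _ _ h'.2).1 e1
      · exact (hfixS _ _ h' 0).1 ⟨by simpa using e1, by simpa using e2⟩
    · intro x hx h
      rw [hD] at hx
      have := hCnAdj x hx.1
      rw [show x.2 = x.1 from congrArg Prod.fst h] at this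
      exact G.irrefl this
    · intro x hx h
      rw [hD] at hx
      have e1 : S x.2 = x.1 := congrArg Prod.fst h
      have e2 : S x.1 = x.2 := congrArg Prod.snd h
      rcases hx.1 with h' | h'
      · exact (hBS1 _ _ h'.2).2 e2
      · exact (hfixS _ _ h' 0).2 ⟨by simpa using e2, by simpa using e1⟩
  have hy3 : ∀ q, 3 ∣ (y q).card := by
    intro q
    apply aux_three_dvd (y q) R
    · intro x hx
      rw [hy] at hx ⊢
      exact (hmkR _).trans hx
    · exact hRRR
    · intro x _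
      exact hfree x
  have hyne : ∀ q, (y q).Nonempty := by
    intro q
    obtain ⟨v, hv⟩ := Quotient.exists_rep q
    exact ⟨v, (hy _ _).mpr hv⟩
  have hy2 : ∀ q, 2 ≤ (y q).card := by
    intro q
    have h1 := hy3 q
    have h2 := (hyne q).card_pos
    omega
  have hDle : ∀ q, (D q).card + 6 ≤ 4 * (y q).card := fun q =>
    le_trans (Nat.add_le_add_right (Finset.card_le_card (hDsub q)) 6) (hsparse _ (hy2 q))
  have hkeyS : ∀ q, (∀ v, mk v = q → mk (S v) = q) → (D q).card + 12 ≤ 4 * (y q).card := by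
    intro q hq
    have h1 := hD4 q hq
    have h2 := hD3 q
    have h3 := hy3 q
    have h4 := hDle q
    omega
  have hkey : ∀ q, (D q).card + 12 ≤ 4 * (y q).card := by
    intro q
    by_cases hq : ∀ v, mk v = q → mk (S v) = q
    · exact hkeyS q hq
    have hq' : ∀ v, mk v = q → mk (S v) ≠ q := by
      intro v hv hv'
      apply hq
      intro w hw
      rw [← hv', hmkS w v (hw.trans hv.symm)]
    have hnoB : ∀ v, mk v = q → ¬ B v v := by
      intro v hv h
      exact hq' v hv ((hmkBS v h).trans hv)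
    have h2 := hD2 q
    have h3 := hD3 q
    have h4 := hy3 q
    have h5 := hDle q
    have h6 : (D q).card + 6 ≠ 4 * (y q).card := by
      intro h
      have h7 : ((y q ×ˢ y q).filter (fun x : V × V => G.Adj x.1 x.2)).card + 6 = 4 * (y q).card := by
        have h8 := Finset.card_le_card (hDsub q)
        have h9 := hsparse _ (hy2 q)
        omega
      obtain ⟨v, hv⟩ := hyne q
      apply hnoB v ((hy _ _).mp hv)
      rw [hB]
      refine ⟨y q, ⟨⟨v, hv⟩, ?_, ?_, h7⟩, hv, hv⟩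
      · intro w hw
        rw [hy] at hw ⊢
        exact (hmkR _).trans hw
      · intro w hw
        rw [hy] at hw ⊢
        exact hq' w hw
    omega
  -- counting
  have hsumV : ∑ q, (y q).card = Fintype.card V := by
    rw [← Finset.card_univ, Finset.card_eq_sum_card_fiberwise (f := mk) (t := Finset.univ) (fun _ _ => Finset.mem_coe.mpr (Finset.mem_univ _))]
  have hsumD : ∑ q, (D q).card = (Finset.univ.filter (fun x : V × V => G.Adj x.1 x.2 ∧ B x.1 x.2)).card
      + (Finset.univ.filter (fun x : V × V => U x.1 x.2)).card := by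
    rw [← Finset.card_union_of_disjoint, ← Finset.filter_or,
      Finset.card_eq_sum_card_fiberwise (f := fun x : V × V => mk x.1) (t := Finset.univ) (fun _ _ => Finset.mem_coe.mpr (Finset.mem_univ _))]
    · apply Finset.sum_congr rfl
      intro q _
      congr 1
      ext x
      simp only [D, Cn, Finset.mem_filter, Finset.mem_univ, true_and]
    · rw [Finset.disjoint_left]
      intro x hx hx'
      rw [Finset.mem_filter] at hx hx'
      exact hUB _ _ hx'.2 hx.2.2
  have hfin : finrank ℂ (Yq R S B U ⊓ LinearMap.ker (LinearMap.proj (R := ℂ) (φ := fun _ : V => ℂ) u0 - LinearMap.proj v0)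
        : Submodule ℂ (V → ℂ)) ≤ Fintype.card (Quotient s) := by
    have hle : (Yq R S B U ⊓ LinearMap.ker (LinearMap.proj (R := ℂ) (φ := fun _ : V => ℂ) u0 - LinearMap.proj v0)
        : Submodule ℂ (V → ℂ)) ≤ LinearMap.range (LinearMap.funLeft ℂ ℂ mk) := by
      rintro f ⟨⟨h1, h2, h3, h4⟩, h5⟩
      have h5' : f u0 = f v0 := by
        have : f u0 - f v0 = 0 := h5
        exact sub_eq_zero.mp this
      have hconst : ∀ a b, s a b → f a = f b := by
        intro a b h
        induction h with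
        | rel a b h =>
          rcases h with h | h | h | ⟨h, h'⟩ | ⟨h, h'⟩
          · rw [h]; exact (h1 a).symm
          · exact h2 a b h
          · exact h4 a b h
          · rw [h']; exact (h3 a h).symm
          · rw [h, h']; exact h5'
        | refl a => rfl
        | symm a b _ ih => exact ih.symm
        | trans a b c _ _ ih1 ih2 => exact ih1.trans ih2
      refine ⟨fun q => Quotient.lift f hconst q, ?_⟩
      funext v
      rfl
    refine (Submodule.finrank_mono hle).trans ?_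
    refine (LinearMap.finrank_range_le _).trans ?_
    rw [Module.finrank_fintype_fun_eq_card]
  set q0 := mk u0 with hq0
  have hq0S : ∀ v, mk v = q0 → mk (S v) = q0 := by
    intro v hv
    rw [hmkS v u0 hv]
    rcases h0S with ⟨e1, _⟩ | ⟨e1, _⟩
    · rw [e1]
    · rw [e1]; exact hmk0
  by_cases h24 : (D q0).card + 24 ≤ 4 * (y q0).card
  · left
    have h1 : ∑ q, ((D q).card + 12) + 12 ≤ ∑ q, 4 * (y q).card := by
      rw [← Finset.sum_erase_add _ _ (Finset.mem_univ q0), ← Finset.sum_erase_add Finset.univ (fun q => 4 * (y q).card) (Finset.mem_univ q0)]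
      have h2 : ∑ q ∈ Finset.univ.erase q0, ((D q).card + 12) ≤ ∑ q ∈ Finset.univ.erase q0, 4 * (y q).card :=
        Finset.sum_le_sum (fun q _ => hkey q)
      omega
    rw [Finset.sum_add_distrib, hsumD, Finset.sum_const, Finset.card_univ, smul_eq_mul, ← Finset.mul_sum, hsumV] at h1
    omega
  · right
    have h12 := hkeyS q0 hq0S
    have h4 := hD4 q0 hq0S
    have h3 := hD3 q0
    have h3' := hy3 q0
    have heq : (D q0).card + 12 = 4 * (y q0).card := by omega
    -- special darts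
    let Sp : Finset (V × V) := Finset.univ.filter (fun x : V × V =>
      ∃ k : ℕ, (x.1 = (R ^ k) u0 ∧ x.2 = (R ^ k) v0) ∨ (x.1 = (R ^ k) v0 ∧ x.2 = (R ^ k) u0))
    have hSp : ∀ x, x ∈ Sp ↔ ∃ k : ℕ, (x.1 = (R ^ k) u0 ∧ x.2 = (R ^ k) v0) ∨ (x.1 = (R ^ k) v0 ∧ x.2 = (R ^ k) u0) :=
      fun x => by simp [Sp]
    have hmkRk : ∀ (k : ℕ) a, mk ((R ^ k) a) = mk a := by
      intro k a
      induction k with
      | zero => rfl
      | succ k ih =>
        rw [pow_succ', Equiv.Perm.mul_apply, hmkR, ih]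
    have hGRk : ∀ (k : ℕ) a b, G.Adj ((R ^ k) a) ((R ^ k) b) ↔ G.Adj a b := by
      intro k a b
      induction k with
      | zero => rfl
      | succ k ih =>
        rw [pow_succ', Equiv.Perm.mul_apply, Equiv.Perm.mul_apply, hGR, ih]
    have hSpAdj : ∀ x ∈ Sp, G.Adj x.1 x.2 := by
      intro x hx
      obtain ⟨k, ⟨h1, h2⟩ | ⟨h1, h2⟩⟩ := (hSp x).mp hx
      · rw [h1, h2, hGRk]; exact h0
      · rw [h1, h2, hGRk]; exact h0.symm
    have hSpmk : ∀ x ∈ Sp, mk x.1 = q0 ∧ mk x.2 = q0 := by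
      intro x hx
      obtain ⟨k, ⟨h1, h2⟩ | ⟨h1, h2⟩⟩ := (hSp x).mp hx
      · rw [h1, h2, hmkRk, hmkRk]; exact ⟨rfl, hmk0⟩
      · rw [h1, h2, hmkRk, hmkRk]; exact ⟨hmk0, rfl⟩
    have hRinv : ∀ (P : V → Prop), (∀ v, P v → P (R v)) → ∀ (k : ℕ) v, P ((R ^ k) v) → P v := by
      intro P hP k v
      induction k with
      | zero => exact id
      | succ k ih =>
        intro h
        rw [pow_succ', Equiv.Perm.mul_apply] at h
        apply ih
        have := hP _ (hP _ h)
        rwa [hRRR] at this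
    have hRinv2 : ∀ (P : V → V → Prop), (∀ v w, P v w → P (R v) (R w)) → ∀ (k : ℕ) v w, P ((R ^ k) v) ((R ^ k) w) → P v w := by
      intro P hP k v w
      induction k with
      | zero => exact id
      | succ k ih =>
        intro h
        rw [pow_succ', Equiv.Perm.mul_apply, Equiv.Perm.mul_apply] at h
        apply ih
        have := hP _ _ (hP _ _ h)
        rwa [hRRR, hRRR] at this
    have hnoU : ¬ U u0 v0 := by
      intro h
      rcases h0S with ⟨e1, e2⟩ | ⟨e1, e2⟩
      · exact (hfixS _ _ h 0).1 ⟨by simpa using e1, by simpa using e2⟩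
      · exact (hfixS _ _ h 0).2 ⟨by simpa using e1, by simpa using e2⟩
    have hSpnotC : ∀ x ∈ Sp, ¬ Cn x := by
      intro x hx hc
      obtain ⟨k, ⟨h1, h2⟩ | ⟨h1, h2⟩⟩ := (hSp x).mp hx
      · rcases hc with hc | hc
        · rw [h1, h2] at hc
          exact h0u (hBrefl _ _ (hRinv2 B hBR k _ _ hc.2))
        · rw [h1, h2] at hc
          exact hnoU (hRinv2 U hUR k _ _ hc)
      · rcases hc with hc | hc
        · rw [h1, h2] at hc
          exact h0v (hBrefl _ _ (hRinv2 B hBR k _ _ hc.2))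
        · rw [h1, h2] at hc
          exact hnoU (hUsym _ _ (hRinv2 U hUR k _ _ hc))
    have hSp3 : 3 ∣ Sp.card := by
      apply aux_three_dvd Sp (fun x => (R x.1, R x.2))
      · intro x hx
        obtain ⟨k, ⟨h1, h2⟩ | ⟨h1, h2⟩⟩ := (hSp x).mp hx
        · rw [hSp]
          exact ⟨k + 1, Or.inl ⟨by rw [pow_succ', Equiv.Perm.mul_apply, h1], by rw [pow_succ', Equiv.Perm.mul_apply, h2]⟩⟩
        · rw [hSp]
          exact ⟨k + 1, Or.inr ⟨by rw [pow_succ', Equiv.Perm.mul_apply, h1], by rw [pow_succ', Equiv.Perm.mul_apply, h2]⟩⟩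
      · intro x
        simp only [hRRR]
      · intro x _ h
        exact hfree x.1 (congrArg Prod.fst h)
    have hSp2 : 2 ∣ Sp.card := by
      apply aux_two_dvd Sp (fun x => (x.2, x.1))
      · intro x hx
        obtain ⟨k, h⟩ := (hSp x).mp hx
        rw [hSp]
        refine ⟨k, ?_⟩
        rcases h with ⟨h1, h2⟩ | ⟨h1, h2⟩
        · exact Or.inr ⟨h2, h1⟩
        · exact Or.inl ⟨h2, h1⟩
      · intro x
        rfl
      · intro x hx h
        have := hSpAdj x hx
        rw [show x.2 = x.1 from congrArg Prod.fst h] at this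
        exact G.irrefl this
    have hSpne : (u0, v0) ∈ Sp := (hSp _).mpr ⟨0, Or.inl ⟨rfl, rfl⟩⟩
    have hSppos : 0 < Sp.card := Finset.card_pos.mpr ⟨_, hSpne⟩
    have hdisj : Disjoint (D q0) Sp := by
      rw [Finset.disjoint_left]
      intro x hx hx'
      exact hSpnotC x hx' ((hD _ _).mp hx).1
    have hsub : D q0 ∪ Sp ⊆ ((y q0 ×ˢ y q0).filter (fun x : V × V => G.Adj x.1 x.2)) := by
      apply Finset.union_subset (hDsub q0)
      intro x hx
      rw [Finset.mem_filter, Finset.mem_product, hy, hy]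
      exact ⟨hSpmk x hx, hSpAdj x hx⟩
    have hcard := Finset.card_le_card hsub
    rw [Finset.card_union_of_disjoint hdisj] at hcard
    have hsp := hsparse _ (hy2 q0)
    have htight : ((y q0 ×ˢ y q0).filter (fun x : V × V => G.Adj x.1 x.2)).card + 6 = 4 * (y q0).card := by omega
    have hEq : D q0 ∪ Sp = ((y q0 ×ˢ y q0).filter (fun x : V × V => G.Adj x.1 x.2)) := by
      apply Finset.eq_of_subset_of_card_le hsub
      rw [Finset.card_union_of_disjoint hdisj]
      omega
    refine ⟨y q0, (hy _ _).mpr rfl, (hy _ _).mpr hmk0, ?_, ?_, ?_, htight, ?_⟩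
    · intro v hv
      rw [hy] at hv ⊢
      exact (hmkR _).trans hv
    · intro v hv
      rw [hy] at hv ⊢
      exact hq0S v hv
    · intro a ha b hab
      rw [hy] at ha ⊢
      exact (hmkB _ _ hab).trans ha
    · intro a ha b hb hadj hnB
      have hmem : (a, b) ∈ D q0 ∪ Sp := by
        rw [hEq, Finset.mem_filter, Finset.mem_product]
        exact ⟨⟨ha, hb⟩, hadj⟩
      rcases Finset.mem_union.mp hmem with h | h
      · rcases ((hD _ _).mp h).1 with h' | h'
        · exact absurd h'.2 hnB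
        · exact Or.inl h'
      · exact Or.inr ((hSp _).mp h)

/-- TARGET 2. -/
theorem count_E3 {V : Type} [Fintype V] [DecidableEq V] (G : SimpleGraph V) [DecidableRel G.Adj]
    (R S : Equiv.Perm V) (hR3 : R ^ 3 = 1) (hfree : ∀ v, R v ≠ v)
    (hsparse : ∀ C : Finset V, 2 ≤ C.card →
      ((C ×ˢ C).filter (fun x : V × V => G.Adj x.1 x.2)).card + 6 ≤ 4 * C.card)
    (B : V → V → Prop) [DecidableRel B] (hBr : ∀ a b, B a b → B a a ∧ B b b)
    (hBR : ∀ a, B (R a) (R a) → B a a)
    (u0 v0 : V) (h0u : ¬ B u0 u0) (h0v : ¬ B v0 v0) (h0R : ∀ k : ℕ, (R ^ k) u0 ≠ v0)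
    (W : Finset V) (hu : u0 ∈ W) (hv : v0 ∈ W) (hWR : ∀ v ∈ W, R v ∈ W) :
    ((W ×ˢ W).filter (fun x : V × V => G.Adj x.1 x.2 ∧ B x.1 x.2)).card + 24 ≤ 4 * W.card := by
  classical
  have hRRR : ∀ v, R (R (R v)) = v := by
    intro v
    have h := congrArg (fun f : Equiv.Perm V => f v) hR3
    simpa [pow_succ] using h
  have hu1 : u0 ≠ R u0 := (hfree u0).symm
  have hu2 : R u0 ≠ R (R u0) := (hfree (R u0)).symm
  have hu3 : u0 ≠ R (R u0) := by
    intro h
    apply hfree (R (R u0))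
    rw [hRRR, ← h]
  have hv1 : v0 ≠ R v0 := (hfree v0).symm
  have hv2 : R v0 ≠ R (R v0) := (hfree (R v0)).symm
  have hv3 : v0 ≠ R (R v0) := by
    intro h
    apply hfree (R (R v0))
    rw [hRRR, ← h]
  have hk0 : u0 ≠ v0 := h0R 0
  have hk1 : R u0 ≠ v0 := h0R 1
  have hk2 : R (R u0) ≠ v0 := h0R 2
  have hO : ({u0, R u0, R (R u0), v0, R v0, R (R v0)} : Finset V).card = 6 := by
    rw [Finset.card_insert_of_notMem, Finset.card_insert_of_notMem, Finset.card_insert_of_notMem,
      Finset.card_insert_of_notMem, Finset.card_insert_of_notMem, Finset.card_singleton]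
    · simpa using hv2
    · simp only [Finset.mem_insert, Finset.mem_singleton, not_or]
      exact ⟨hv1, hv3⟩
    · simp only [Finset.mem_insert, Finset.mem_singleton, not_or]
      refine ⟨hk2, fun h => hk1 (R.injective h), fun h => hk0 (R.injective (R.injective h))⟩
    · simp only [Finset.mem_insert, Finset.mem_singleton, not_or]
      refine ⟨hu2, hk1, fun h => hk0 (R.injective h), ?_⟩
      intro h
      apply hk2
      have := congrArg R (congrArg R (R.injective h))
      rwa [hRRR] at this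
    · simp only [Finset.mem_insert, Finset.mem_singleton, not_or]
      refine ⟨hu1, hu3, hk0, ?_, ?_⟩
      · intro h
        apply hk2
        have := congrArg R (congrArg R h)
        rwa [hRRR] at this
      · intro h
        apply hk1
        have := congrArg R h
        rwa [hRRR] at this
  set O : Finset V := {u0, R u0, R (R u0), v0, R v0, R (R v0)} with hOdef
  have hOW : O ⊆ W := by
    intro x hx
    rw [hOdef] at hx
    simp only [Finset.mem_insert, Finset.mem_singleton] at hx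
    rcases hx with rfl | rfl | rfl | rfl | rfl | rfl
    · exact hu
    · exact hWR _ hu
    · exact hWR _ (hWR _ hu)
    · exact hv
    · exact hWR _ hv
    · exact hWR _ (hWR _ hv)
  have hOB : ∀ x ∈ O, ¬ B x x := by
    intro x hx hBx
    rw [hOdef] at hx
    simp only [Finset.mem_insert, Finset.mem_singleton] at hx
    rcases hx with rfl | rfl | rfl | rfl | rfl | rfl
    · exact h0u hBx
    · exact h0u (hBR _ hBx)
    · exact h0u (hBR _ (hBR _ hBx))
    · exact h0v hBx
    · exact h0v (hBR _ hBx)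
    · exact h0v (hBR _ (hBR _ hBx))
  have hcardW : (W \ O).card + 6 = W.card := by
    rw [← hO]
    exact Finset.card_sdiff_add_card_eq_card hOW
  have hsub : ((W ×ˢ W).filter (fun x : V × V => G.Adj x.1 x.2 ∧ B x.1 x.2)) ⊆
      (((W \ O) ×ˢ (W \ O)).filter (fun x : V × V => G.Adj x.1 x.2)) := by
    intro x hx
    rw [Finset.mem_filter, Finset.mem_product] at hx
    rw [Finset.mem_filter, Finset.mem_product, Finset.mem_sdiff, Finset.mem_sdiff]
    have hb := hBr _ _ hx.2.2
    exact ⟨⟨⟨hx.1.1, fun h => hOB _ h hb.1⟩, ⟨hx.1.2, fun h => hOB _ h hb.2⟩⟩, hx.2.1⟩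
  have hle := Finset.card_le_card hsub
  rcases le_or_gt 2 (W \ O).card with h | h
  · have := hsparse _ h
    omega
  · have h0 : (((W \ O) ×ˢ (W \ O)).filter (fun x : V × V => G.Adj x.1 x.2)) = ∅ := by
      rw [Finset.filter_eq_empty_iff]
      rintro ⟨a, b⟩ hab hadj
      rw [Finset.mem_product] at hab
      have hab' := Finset.card_le_one.mp (Nat.lt_succ_iff.mp h) a hab.1 b hab.2
      simp only at hadj
      rw [hab'] at hadj
      exact G.irrefl hadj
    rw [h0, Finset.card_empty] at hle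
    omega

end Pool.Agent.DihLaman.J603
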