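import Pool.Agent.Helper927.DLDefs
import Pool.Agent.Helper927.DL411
set_option autoImplicit false
set_option maxHeartbeats 4000000
open Module Submodule

namespace Pool.Agent.DihLaman.J759
open Pool.Agent.DihLaman
open Pool.Agent.DihLaman.J411 (combine)

open Classical in
/-- the bilinear map of all rows -/
noncomputable def LX {V : Type} (S : V → V) (M : V → V → Prop)
    (X : Submodule ℂ ((V → ℂ) × (V → ℂ))) (Ds : Submodule ℂ (V → V → ℂ)) :
    ↥Ds →ₗ[ℂ] (↥X →ₗ[ℂ] (V × V → ℂ)) :=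
  LinearMap.mk₂ ℂ (fun D x => fun p => if M p.1 p.2 then
      D.1 (S p.1) (S p.2) * (x.1.1 p.1 - x.1.1 p.2) + D.1 p.1 p.2 * (x.1.2 p.1 - x.1.2 p.2) else 0)
    (by
      intro D D' x
      funext p
      simp only [Pi.add_apply, Submodule.coe_add]
      split_ifs
      · ring
      · simp)
    (by
      intro c D x
      funext p
      simp only [Pi.smul_apply, Submodule.coe_smul, smul_eq_mul]
      split_ifs
      · ring
      · simp)
    (by
      intro D x x'
      funext p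
      simp only [Pi.add_apply, Submodule.coe_add, Prod.fst_add, Prod.snd_add]
      split_ifs
      · ring
      · simp)
    (by
      intro c D x
      funext p
      simp only [Pi.smul_apply, Submodule.coe_smul, smul_eq_mul, Prod.smul_fst, Prod.smul_snd]
      split_ifs
      · ring
      · simp)

open Classical in
theorem KerX_eq {V : Type} (S : V → V) (M : V → V → Prop)
    (X : Submodule ℂ ((V → ℂ) × (V → ℂ))) (Ds : Submodule ℂ (V → V → ℂ)) (D : Ds) :
    KerX S M X D.1 = (LinearMap.ker (LX S M X Ds D)).map X.subtype := by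
  ext x
  rw [Submodule.mem_map]
  constructor
  · rintro ⟨hx, h⟩
    refine ⟨⟨x, hx⟩, ?_, rfl⟩
    rw [LinearMap.mem_ker]
    funext p
    show (if M p.1 p.2 then D.1 (S p.1) (S p.2) * (x.1 p.1 - x.1 p.2)
      + D.1 p.1 p.2 * (x.2 p.1 - x.2 p.2) else 0) = 0
    split_ifs with hM
    · exact h _ _ hM
    · rfl
  · rintro ⟨y, hy, rfl⟩
    refine ⟨y.2, fun a b hab => ?_⟩
    rw [LinearMap.mem_ker] at hy
    have h1 := congrFun hy (a, b)
    change (if M a b then D.1 (S a) (S b) * (y.1.1 a - y.1.1 b)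
      + D.1 a b * (y.1.2 a - y.1.2 b) else 0) = 0 at h1
    rw [if_pos hab] at h1
    exact h1

theorem finrank_KerX {V : Type} (S : V → V) (M : V → V → Prop)
    (X : Submodule ℂ ((V → ℂ) × (V → ℂ))) (Ds : Submodule ℂ (V → V → ℂ)) (D : Ds) :
    finrank ℂ (KerX S M X D.1) = finrank ℂ (LinearMap.ker (LX S M X Ds D)) := by
  rw [KerX_eq, Submodule.finrank_map_subtype_eq]

/-- TARGET 1. -/
theorem combineX {V : Type} [Fintype V] [DecidableEq V] {ι : Type} [Finite ι] (R S : V → V) (ζ : ℂ)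
    (M : ι → V → V → Prop) (X : ι → Submodule ℂ ((V → ℂ) × (V → ℂ))) (k : ι → ℕ)
    (h : ∀ i, ∃ D ∈ Dsp R ζ, finrank ℂ (KerX S (M i) (X i) D) ≤ k i) :
    ∃ D ∈ Dsp R ζ, ∀ i, finrank ℂ (KerX S (M i) (X i) D) ≤ k i := by
  obtain ⟨D, hD⟩ := combine (P := ↥(Dsp R ζ)) (fun i => ↥(X i)) (fun _ => (V × V → ℂ))
    (fun i => LX S (M i) (X i) (Dsp R ζ)) k (by
      intro i
      obtain ⟨D, hD, h1⟩ := h i
      refine ⟨⟨D, hD⟩, ?_⟩
      rw [← finrank_KerX]
      exact h1)
  refine ⟨D.1, D.2, fun i => ?_⟩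
  rw [finrank_KerX]
  exact hD i

end Pool.Agent.DihLaman.J759
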