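import Pool.Agent.Helper927.DLDefs
import Pool.Agent.Helper927.DL502
set_option autoImplicit false
set_option maxHeartbeats 4000000
open Module Submodule

namespace Pool.Agent.DihLaman.J760
open Pool.Agent.DihLaman
open Pool.Agent.DihLaman.J502 (exists_dir)

/-- Indicator function of the ordered pair (u0, v0) minus that of (v0, u0). -/
noncomputable def gsp {V : Type} [DecidableEq V] (u0 v0 a b : V) : ℂ :=
  (if (a = u0 ∧ b = v0) then 1 else 0) - (if (b = u0 ∧ a = v0) then 1 else 0)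

theorem gsp_anti {V : Type} [DecidableEq V] (u0 v0 a b : V) :
    gsp u0 v0 b a = - gsp u0 v0 a b := by
  unfold gsp; ring

/-- the special direction assignment -/
theorem exists_dsp {V : Type} [Fintype V] [DecidableEq V] (n : ℕ) (hn : n = 2 ∨ n = 3)
    (R S : Equiv.Perm V) (hRn : R ^ n = 1)
    (hfree : ∀ v, R v ≠ v) (ζ : ℂ) (hζ : ζ ^ n = 1) (hζ1 : ζ ≠ 1)
    (u0 v0 : V) (huv : u0 ≠ v0) (m : ℕ) (rep : Fin m → V × V)
    (hspec : ∀ (k : ℕ) (ε δ : Bool) (i : Fin m), op R S k ε δ (rep i) ≠ (u0, v0)) :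
    ∃ D ∈ Dsp R ζ, (∀ i, D (rep i).1 (rep i).2 = 0) ∧ (∀ i, D (S (rep i).1) (S (rep i).2) = 0) ∧
      D u0 v0 ≠ 0 := by
  have hv1 : ∀ (k : ℕ) (i : Fin m),
      gsp u0 v0 ((R ^ k) (rep i).1) ((R ^ k) (rep i).2) = 0 := by
    intro k i
    unfold gsp
    rw [if_neg, if_neg, sub_zero]
    · rintro ⟨h1, h2⟩
      exact hspec k false true i (by simp [op, h1, h2])
    · rintro ⟨h1, h2⟩
      exact hspec k false false i (by simp [op, h1, h2])
  have hv2 : ∀ (k : ℕ) (i : Fin m),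
      gsp u0 v0 ((R ^ k) (S (rep i).1)) ((R ^ k) (S (rep i).2)) = 0 := by
    intro k i
    unfold gsp
    rw [if_neg, if_neg, sub_zero]
    · rintro ⟨h1, h2⟩
      exact hspec k true true i (by simp [op, h1, h2])
    · rintro ⟨h1, h2⟩
      exact hspec k true false i (by simp [op, h1, h2])
  have hg0 : gsp u0 v0 u0 v0 = 1 := by
    unfold gsp
    rw [if_pos ⟨rfl, rfl⟩, if_neg, sub_zero]
    exact fun h => huv h.2
  rcases hn with rfl | rfl
  · have hζm : ζ = -1 := by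
      have : (ζ - 1) * (ζ + 1) = 0 := by linear_combination hζ
      rcases mul_eq_zero.1 this with h | h
      · exact absurd (by linear_combination h) hζ1
      · linear_combination h
    have hR2 : ∀ v, R (R v) = v := by
      intro v
      have := congrArg (fun f : Equiv.Perm V => f v) hRn
      simpa [pow_two] using this
    refine ⟨fun a b => gsp u0 v0 a b + ζ * gsp u0 v0 (R a) (R b), ⟨fun a b => ?_, fun a b => ?_⟩,
      fun i => ?_, fun i => ?_, ?_⟩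
    · show gsp u0 v0 b a + ζ * gsp u0 v0 (R b) (R a) = - (gsp u0 v0 a b + ζ * gsp u0 v0 (R a) (R b))
      rw [gsp_anti u0 v0 a b, gsp_anti u0 v0 (R a) (R b)]; ring
    · show gsp u0 v0 (R a) (R b) + ζ * gsp u0 v0 (R (R a)) (R (R b)) =
        ζ * (gsp u0 v0 a b + ζ * gsp u0 v0 (R a) (R b))
      rw [hR2, hR2]
      linear_combination (- gsp u0 v0 (R a) (R b)) * hζ
    · have h0 := hv1 0 i
      have h1 := hv1 1 i
      simp only [pow_zero, pow_one, Equiv.Perm.coe_one, id_eq] at h0 h1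
      show gsp u0 v0 _ _ + ζ * gsp u0 v0 _ _ = 0
      rw [h0, h1]; ring
    · have h0 := hv2 0 i
      have h1 := hv2 1 i
      simp only [pow_zero, pow_one, Equiv.Perm.coe_one, id_eq] at h0 h1
      show gsp u0 v0 _ _ + ζ * gsp u0 v0 _ _ = 0
      rw [h0, h1]; ring
    · show gsp u0 v0 u0 v0 + ζ * gsp u0 v0 (R u0) (R v0) ≠ 0
      rw [hg0, hζm]
      unfold gsp
      rw [if_neg (fun h => hfree u0 h.1)]
      split_ifs
      · norm_num
      · norm_num
  · have hR3 : ∀ v, R (R (R v)) = v := by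
      intro v
      have := congrArg (fun f : Equiv.Perm V => f v) hRn
      simpa [pow_succ] using this
    refine ⟨fun a b => gsp u0 v0 a b + ζ ^ 2 * gsp u0 v0 (R a) (R b) +
      ζ * gsp u0 v0 (R (R a)) (R (R b)), ⟨fun a b => ?_, fun a b => ?_⟩,
      fun i => ?_, fun i => ?_, ?_⟩
    · show gsp u0 v0 b a + ζ ^ 2 * gsp u0 v0 (R b) (R a) + ζ * gsp u0 v0 (R (R b)) (R (R a)) =
        - (gsp u0 v0 a b + ζ ^ 2 * gsp u0 v0 (R a) (R b) + ζ * gsp u0 v0 (R (R a)) (R (R b)))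
      rw [gsp_anti u0 v0 a b, gsp_anti u0 v0 (R a) (R b), gsp_anti u0 v0 (R (R a)) (R (R b))]; ring
    · show gsp u0 v0 (R a) (R b) + ζ ^ 2 * gsp u0 v0 (R (R a)) (R (R b)) +
        ζ * gsp u0 v0 (R (R (R a))) (R (R (R b))) =
        ζ * (gsp u0 v0 a b + ζ ^ 2 * gsp u0 v0 (R a) (R b) + ζ * gsp u0 v0 (R (R a)) (R (R b)))
      rw [hR3, hR3]
      linear_combination (- gsp u0 v0 (R a) (R b)) * hζ
    · have h0 := hv1 0 i
      have h1 := hv1 1 i
      have h2 := hv1 2 i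
      simp only [pow_zero, pow_one, Equiv.Perm.coe_one, id_eq, pow_two, Equiv.Perm.coe_mul,
        Function.comp_apply] at h0 h1 h2
      show gsp u0 v0 _ _ + ζ ^ 2 * gsp u0 v0 _ _ + ζ * gsp u0 v0 _ _ = 0
      rw [h0, h1, h2]; ring
    · have h0 := hv2 0 i
      have h1 := hv2 1 i
      have h2 := hv2 2 i
      simp only [pow_zero, pow_one, Equiv.Perm.coe_one, id_eq, pow_two, Equiv.Perm.coe_mul,
        Function.comp_apply] at h0 h1 h2
      show gsp u0 v0 _ _ + ζ ^ 2 * gsp u0 v0 _ _ + ζ * gsp u0 v0 _ _ = 0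
      rw [h0, h1, h2]; ring
    · show gsp u0 v0 u0 v0 + ζ ^ 2 * gsp u0 v0 (R u0) (R v0) +
        ζ * gsp u0 v0 (R (R u0)) (R (R v0)) ≠ 0
      have h1 : gsp u0 v0 (R u0) (R v0) = 0 := by
        unfold gsp
        rw [if_neg (fun h => hfree u0 h.1), if_neg, sub_zero]
        rintro ⟨h1, h2⟩
        have h3 := hR3 u0
        rw [h2, h1] at h3
        exact hfree v0 (by rw [h1]; exact (h2.symm.trans h3).symm)
      have h2 : gsp u0 v0 (R (R u0)) (R (R v0)) = 0 := by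
        unfold gsp
        rw [if_neg, if_neg, sub_zero]
        · rintro ⟨h1, h2⟩
          have h3 := hR3 u0
          rw [h2] at h3
          have h4 := hR3 v0
          rw [h1] at h4
          apply huv
          have h5 : R (R v0) = R u0 := congrArg R h3
          rw [← h1, h5, h4]
        · rintro ⟨h1, h2⟩
          have h3 := hR3 u0
          rw [h1] at h3
          exact hfree u0 h3
      rw [hg0, h1, h2]
      norm_num

/-- TARGET 1. -/
theorem exists_dir2 {V : Type} [Fintype V] [DecidableEq V] (n : ℕ) (hn : n = 2 ∨ n = 3)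
    (R S : Equiv.Perm V) (hRn : R ^ n = 1) (hSS : S * S = 1) (hSRS : S * R * S = R⁻¹)
    (hfree : ∀ v, R v ≠ v) (ζ : ℂ) (hζ : ζ ^ n = 1) (hζ1 : ζ ≠ 1)
    (u0 v0 : V) (huv : u0 ≠ v0) (m : ℕ) (rep : Fin m → V × V)
    (huniq : ∀ k k' : ℕ, k < n → k' < n → ∀ (ε ε' δ δ' : Bool) (i i' : Fin m),
        op R S k ε δ (rep i) = op R S k' ε' δ' (rep i') → k = k' ∧ ε = ε' ∧ δ = δ' ∧ i = i')
    (hspec : ∀ (k : ℕ) (ε δ : Bool) (i : Fin m), op R S k ε δ (rep i) ≠ (u0, v0))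
    (d d' : Fin m → ℂ) (d0 : ℂ) :
    ∃ D ∈ Dsp R ζ, (∀ i, D (rep i).1 (rep i).2 = d i) ∧ (∀ i, D (S (rep i).1) (S (rep i).2) = d' i) ∧
      D u0 v0 = d0 := by
  have hn0 : 0 < n := by rcases hn with rfl | rfl <;> norm_num
  obtain ⟨D1, ha, hR, h1, h2⟩ := exists_dir n hn0 R S hRn ζ hζ m rep huniq d d'
  obtain ⟨D2, hD2, k1, k2, k3⟩ := exists_dsp n hn R S hRn hfree ζ hζ hζ1 u0 v0 huv m rep hspec
  have hD1 : D1 ∈ Dsp R ζ := ⟨ha, hR⟩
  refine ⟨D1 + ((d0 - D1 u0 v0) / D2 u0 v0) • D2,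
    (Dsp R ζ).add_mem hD1 ((Dsp R ζ).smul_mem _ hD2), fun i => ?_, fun i => ?_, ?_⟩
  · simp only [Pi.add_apply, Pi.smul_apply, smul_eq_mul, h1 i, k1 i, mul_zero, add_zero]
  · simp only [Pi.add_apply, Pi.smul_apply, smul_eq_mul, h2 i, k2 i, mul_zero, add_zero]
  · simp only [Pi.add_apply, Pi.smul_apply, smul_eq_mul]
    field_simp
    ring

/-- TARGET 2. -/
theorem exists_dir3 {V : Type} [Fintype V] [DecidableEq V] (G : SimpleGraph V) [DecidableRel G.Adj]
    (n : ℕ) (R S : Equiv.Perm V) (ζ : ℂ) (u0 v0 : V) (m : ℕ) (rep : Fin m → V × V)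
    (h : Dat G n R S ζ u0 v0 m rep)
    (d d' : Fin m → ℂ) (d0 : ℂ) :
    ∃ D ∈ Dsp R ζ, (∀ i, D (rep i).1 (rep i).2 = d i) ∧ (∀ i, D (S (rep i).1) (S (rep i).2) = d' i) ∧
      D u0 v0 = d0 := by
  have hn0 : 0 < n := by rcases h.hn with h | h <;> omega
  have huv : u0 ≠ v0 := h.h0.ne
  have hinv : ∀ (k : ℕ) (x y : V), (R ^ k) x = y → x = (R ^ ((n - 1) * k)) y := by
    intro k x y hxy
    rw [← hxy, ← Equiv.Perm.mul_apply, ← pow_add]
    have : (n - 1) * k + k = n * k := by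
      obtain ⟨j, rfl⟩ : ∃ j, n = j + 1 := ⟨n - 1, by omega⟩
      simp; ring
    rw [this, pow_mul, h.hRn, one_pow]; rfl
  have hSc : ∀ (k : ℕ), S * R ^ k * S = (R ^ k)⁻¹ := by
    intro k
    induction k with
    | zero => simp [h.hSS]
    | succ k ih =>
      calc S * R ^ (k + 1) * S = (S * R ^ k * S) * (S * R * S) := by
            rw [pow_succ]
            calc S * (R ^ k * R) * S = S * R ^ k * 1 * R * S := by group
              _ = S * R ^ k * (S * S) * R * S := by rw [h.hSS]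
              _ = _ := by group
        _ = (R ^ (k + 1))⁻¹ := by rw [ih, h.hSRS, pow_succ', mul_inv_rev]
  have hS2 : ∀ (k : ℕ) (x y : V), (R ^ k) (S x) = y → x = (R ^ k) (S y) := by
    intro k x y hxy
    have h1 : (S * R ^ k * S) x = S y := by
      simp only [Equiv.Perm.coe_mul, Function.comp_apply, hxy]
    rw [hSc k] at h1
    rw [← h1]
    simp
  have hspec : ∀ (k : ℕ) (ε δ : Bool) (i : Fin m), op R S k ε δ (rep i) ≠ (u0, v0) := by
    intro k ε δ i he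
    apply h.hrepS i
    cases ε <;> cases δ <;> simp only [op, Bool.false_eq_true, if_false, if_true, Prod.mk.injEq] at he
    · exact ⟨_, Or.inl ⟨hinv _ _ _ he.1, hinv _ _ _ he.2⟩⟩
    · exact ⟨_, Or.inr ⟨hinv _ _ _ he.2, hinv _ _ _ he.1⟩⟩
    · have e1 := hS2 _ _ _ he.1
      have e2 := hS2 _ _ _ he.2
      rcases h.h0S with ⟨a1, a2⟩ | ⟨a1, a2⟩
      · rw [a1] at e1; rw [a2] at e2; exact ⟨k, Or.inl ⟨e1, e2⟩⟩
      · rw [a1] at e1; rw [a2] at e2; exact ⟨k, Or.inr ⟨e1, e2⟩⟩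
    · have e1 := hS2 _ _ _ he.1
      have e2 := hS2 _ _ _ he.2
      rcases h.h0S with ⟨a1, a2⟩ | ⟨a1, a2⟩
      · rw [a1] at e1; rw [a2] at e2; exact ⟨k, Or.inr ⟨e2, e1⟩⟩
      · rw [a1] at e1; rw [a2] at e2; exact ⟨k, Or.inl ⟨e2, e1⟩⟩
  exact exists_dir2 n h.hn R S h.hRn h.hSS h.hSRS h.hfree ζ h.hζ h.hζ1 u0 v0 huv m rep h.huniq
    hspec d d' d0

end Pool.Agent.DihLaman.J760
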