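import Pool.Agent.Helper927.DLDefs
import Pool.Agent.Helper927.DL502
set_option autoImplicit false
set_option maxHeartbeats 4000000
open Module Submodule

namespace Pool.Agent.DihLaman.J761
open Pool.Agent.DihLaman
open Pool.Agent.DihLaman.J502 (exists_index)

theorem inv_eq_pow_aux {V : Type} {n : ℕ} (hn : 0 < n) {R : Equiv.Perm V} (hRn : R ^ n = 1) :
    R⁻¹ = R ^ (n - 1) := by
  rw [inv_eq_iff_mul_eq_one, ← pow_succ', Nat.sub_add_cancel hn, hRn]

theorem S_mul_pow_aux {V : Type} {n : ℕ} (hn : 0 < n) {R S : Equiv.Perm V} (hRn : R ^ n = 1)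
    (hSS : S * S = 1) (hSRS : S * R * S = R⁻¹) (k : ℕ) :
    S * R ^ k = R ^ ((n - 1) * k) * S := by
  have hinv := inv_eq_pow_aux hn hRn
  have h1 : S * R = R ^ (n - 1) * S := by
    rw [← hinv, ← hSRS, mul_assoc (S * R) S S, hSS, mul_one]
  induction k with
  | zero => simp
  | succ k ih =>
    rw [pow_succ, ← mul_assoc, ih, mul_assoc, h1, ← mul_assoc, ← pow_add, Nat.mul_succ]

theorem S_pow_apply_aux {V : Type} {n : ℕ} (hn : 0 < n) {R S : Equiv.Perm V} (hRn : R ^ n = 1)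
    (hSS : S * S = 1) (hSRS : S * R * S = R⁻¹) (k : ℕ) (v : V) :
    S ((R ^ k) v) = (R ^ ((n - 1) * k)) (S v) := by
  have := congrArg (fun f : Equiv.Perm V => f v) (S_mul_pow_aux hn hRn hSS hSRS k)
  simpa [Equiv.Perm.mul_apply] using this

theorem pow_back_aux {V : Type} {n : ℕ} (hn : 0 < n) {R : Equiv.Perm V} (hRn : R ^ n = 1) (k : ℕ)
    (v : V) : (R ^ ((n - 1) * k)) ((R ^ k) v) = v := by
  rw [← Equiv.Perm.mul_apply, ← pow_add]
  have : (n - 1) * k + k = n * k := by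
    obtain ⟨m, rfl⟩ := Nat.exists_eq_succ_of_ne_zero hn.ne'
    simp only [Nat.succ_eq_add_one, Nat.add_sub_cancel]
    ring
  rw [this, pow_mul, hRn, one_pow, Equiv.Perm.one_apply]

theorem pow_add_apply_aux {V : Type} (R : Equiv.Perm V) (i j : ℕ) (v : V) :
    (R ^ (i + j)) v = (R ^ i) ((R ^ j) v) := by
  rw [pow_add, Equiv.Perm.mul_apply]

theorem SS_apply_aux {V : Type} {S : Equiv.Perm V} (hSS : S * S = 1) (v : V) : S (S v) = v := by
  rw [← Equiv.Perm.mul_apply, hSS, Equiv.Perm.one_apply]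

theorem spec_swap_aux {V : Type} {R : Equiv.Perm V} {u0 v0 a b : V} (h : Spec R u0 v0 a b) :
    Spec R u0 v0 b a := by
  obtain ⟨k, ⟨h1, h2⟩ | ⟨h1, h2⟩⟩ := h
  · exact ⟨k, Or.inr ⟨h2, h1⟩⟩
  · exact ⟨k, Or.inl ⟨h2, h1⟩⟩

/-- from a rotated pair back -/
theorem spec_pow_aux {V : Type} {n : ℕ} (hn : 0 < n) {R : Equiv.Perm V} (hRn : R ^ n = 1)
    {u0 v0 a b : V} (i : ℕ) (h : Spec R u0 v0 ((R ^ i) a) ((R ^ i) b)) : Spec R u0 v0 a b := by
  obtain ⟨k, ⟨h1, h2⟩ | ⟨h1, h2⟩⟩ := h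
  · refine ⟨(n - 1) * i + k, Or.inl ⟨?_, ?_⟩⟩
    · rw [pow_add_apply_aux, ← h1, pow_back_aux hn hRn]
    · rw [pow_add_apply_aux, ← h2, pow_back_aux hn hRn]
  · refine ⟨(n - 1) * i + k, Or.inr ⟨?_, ?_⟩⟩
    · rw [pow_add_apply_aux, ← h1, pow_back_aux hn hRn]
    · rw [pow_add_apply_aux, ← h2, pow_back_aux hn hRn]

theorem spec_R_aux {V : Type} {n : ℕ} (hn : 0 < n) {R : Equiv.Perm V} (hRn : R ^ n = 1)
    {u0 v0 a b : V} (h : Spec R u0 v0 (R a) (R b)) : Spec R u0 v0 a b :=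
  spec_pow_aux hn hRn 1 (by simpa using h)

theorem spec_S_aux {V : Type} {n : ℕ} (hn : 0 < n) {R S : Equiv.Perm V} (hRn : R ^ n = 1)
    (hSS : S * S = 1) (hSRS : S * R * S = R⁻¹) {u0 v0 a b : V}
    (h0S : (S u0 = u0 ∧ S v0 = v0) ∨ (S u0 = v0 ∧ S v0 = u0))
    (h : Spec R u0 v0 (S a) (S b)) : Spec R u0 v0 a b := by
  obtain ⟨k, ⟨h1, h2⟩ | ⟨h1, h2⟩⟩ := h
  · have e1 : a = (R ^ ((n - 1) * k)) (S u0) := by
      rw [← S_pow_apply_aux hn hRn hSS hSRS, ← h1, SS_apply_aux hSS]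
    have e2 : b = (R ^ ((n - 1) * k)) (S v0) := by
      rw [← S_pow_apply_aux hn hRn hSS hSRS, ← h2, SS_apply_aux hSS]
    rcases h0S with ⟨g1, g2⟩ | ⟨g1, g2⟩
    · exact ⟨(n - 1) * k, Or.inl ⟨by rw [e1, g1], by rw [e2, g2]⟩⟩
    · exact ⟨(n - 1) * k, Or.inr ⟨by rw [e1, g1], by rw [e2, g2]⟩⟩
  · have e1 : a = (R ^ ((n - 1) * k)) (S v0) := by
      rw [← S_pow_apply_aux hn hRn hSS hSRS, ← h1, SS_apply_aux hSS]
    have e2 : b = (R ^ ((n - 1) * k)) (S u0) := by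
      rw [← S_pow_apply_aux hn hRn hSS hSRS, ← h2, SS_apply_aux hSS]
    rcases h0S with ⟨g1, g2⟩ | ⟨g1, g2⟩
    · exact ⟨(n - 1) * k, Or.inr ⟨by rw [e1, g2], by rw [e2, g1]⟩⟩
    · exact ⟨(n - 1) * k, Or.inl ⟨by rw [e1, g2], by rw [e2, g1]⟩⟩

/-- a two element set of pairs closed under swapping -/
theorem pair2_aux {V : Type} [DecidableEq V] (F : Finset (V × V)) (hF : F.card = 2)
    (hs : ∀ a b, (a, b) ∈ F → (b, a) ∈ F) (hne : ∀ a b, (a, b) ∈ F → a ≠ b) {u v : V}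
    (huv : (u, v) ∈ F) : ∀ a b, (a, b) ∈ F → (a = u ∧ b = v) ∨ (a = v ∧ b = u) := by
  have hne' : (u, v) ≠ (v, u) := by
    intro h
    exact hne u v huv (Prod.ext_iff.1 h).1
  have hsub : ({(u, v), (v, u)} : Finset (V × V)) ⊆ F := by
    intro x hx
    rw [Finset.mem_insert, Finset.mem_singleton] at hx
    rcases hx with rfl | rfl
    · exact huv
    · exact hs _ _ huv
  have hcard : ({(u, v), (v, u)} : Finset (V × V)).card = 2 := Finset.card_pair hne'
  have heq := Finset.eq_of_subset_of_card_le hsub (by rw [hF, hcard])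
  intro a b hab
  rw [← heq, Finset.mem_insert, Finset.mem_singleton, Prod.ext_iff, Prod.ext_iff] at hab
  exact hab

theorem pair2_exists_aux {V : Type} [DecidableEq V] (F : Finset (V × V)) (hF : F.card = 2) :
    ∃ u v, (u, v) ∈ F := by
  have : F.Nonempty := by
    rw [← Finset.card_pos, hF]
    norm_num
  obtain ⟨⟨u, v⟩, h⟩ := this
  exact ⟨u, v, h⟩

theorem adj_pow_aux {V : Type} {G : SimpleGraph V} {R : Equiv.Perm V}
    (hGR : ∀ a b, G.Adj (R a) (R b) ↔ G.Adj a b) (k : ℕ) (a b : V) :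
    G.Adj ((R ^ k) a) ((R ^ k) b) ↔ G.Adj a b := by
  induction k with
  | zero => simp
  | succ k ih => rw [pow_succ', Equiv.Perm.mul_apply, Equiv.Perm.mul_apply, hGR, ih]

/-- what is needed about the special edge -/
structure SpecOK {V : Type} [Fintype V] [DecidableEq V] (G : SimpleGraph V) [DecidableRel G.Adj]
    (n : ℕ) (R S : Equiv.Perm V) (u0 v0 : V) (F : Finset (V × V)) : Prop where
  h0 : G.Adj u0 v0
  h0S : (S u0 = u0 ∧ S v0 = v0) ∨ (S u0 = v0 ∧ S v0 = u0)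
  h0R : n = 2 → R u0 = v0 ∧ R v0 = u0
  hSpS : ∀ a b, G.Adj a b → ∀ k : ℕ, (((R ^ k * S) a = a ∧ (R ^ k * S) b = b) ∨
    ((R ^ k * S) a = b ∧ (R ^ k * S) b = a)) → Spec R u0 v0 a b
  hSpR : ∀ a b, G.Adj a b → ∀ k : ℕ, ((R ^ k) a = b ∧ (R ^ k) b = a) → Spec R u0 v0 a b
  hFm : ∀ a b, (a, b) ∈ F ↔ (G.Adj a b ∧ Spec R u0 v0 a b)
  hF : 4 * n = F.card + 6

theorem specOK_two {V : Type} [Fintype V] [DecidableEq V] (G : SimpleGraph V) [DecidableRel G.Adj]
    (R S : Equiv.Perm V) (hRn : R ^ 2 = 1) (hSS : S * S = 1) (hSRS : S * R * S = R⁻¹)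
    (hGS : ∀ a b, G.Adj (S a) (S b) ↔ G.Adj a b)
    (hfixR : (∀ v, R v ≠ v) ∧
      (Finset.univ.filter (fun x : V × V => G.Adj x.1 x.2 ∧ ((R x.1 = x.1 ∧ R x.2 = x.2) ∨
        (R x.1 = x.2 ∧ R x.2 = x.1)))).card = 2)
    (hfixS : ∀ k : ℕ, (Finset.univ.filter (fun x : V × V => G.Adj x.1 x.2 ∧
      (((R ^ k * S) x.1 = x.1 ∧ (R ^ k * S) x.2 = x.2) ∨
        ((R ^ k * S) x.1 = x.2 ∧ (R ^ k * S) x.2 = x.1)))).card = 2) :
    ∃ (u0 v0 : V) (F : Finset (V × V)), SpecOK G 2 R S u0 v0 F := by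
  obtain ⟨hR1, hc⟩ := hfixR
  obtain ⟨u0, v0, huv⟩ := pair2_exists_aux _ hc
  have hFR := pair2_aux _ hc (by
    intro a b hab
    simp only [Finset.mem_filter, Finset.mem_univ, true_and] at hab ⊢
    obtain ⟨h1, h2 | h2⟩ := hab
    · exact absurd h2.1 (hR1 a)
    · exact ⟨h1.symm, Or.inr ⟨h2.2, h2.1⟩⟩) (by
    intro a b hab
    simp only [Finset.mem_filter, Finset.mem_univ, true_and] at hab
    exact hab.1.ne) huv
  simp only [Finset.mem_filter, Finset.mem_univ, true_and] at huv hFR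
  have hadj : G.Adj u0 v0 := huv.1
  have hRu : R u0 = v0 ∧ R v0 = u0 := by
    rcases huv.2 with h | h
    · exact absurd h.1 (hR1 u0)
    · exact h
  have hRS : ∀ v, R (S v) = S (R v) := by
    intro v
    have := S_pow_apply_aux (by norm_num) hRn hSS hSRS 1 v
    simp only [pow_one, Nat.mul_one] at this
    rw [this]
    norm_num
  have h0S : (S u0 = u0 ∧ S v0 = v0) ∨ (S u0 = v0 ∧ S v0 = u0) := by
    refine hFR (S u0) (S v0) ⟨(hGS _ _).2 hadj, Or.inr ⟨?_, ?_⟩⟩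
    · rw [hRS, hRu.1]
    · rw [hRS, hRu.2]
  have hRk : ∀ k : ℕ, ((R ^ k) u0 = u0 ∧ (R ^ k) v0 = v0) ∨ ((R ^ k) u0 = v0 ∧ (R ^ k) v0 = u0) := by
    intro k
    induction k with
    | zero => left; simp
    | succ k ih =>
      rw [pow_succ', Equiv.Perm.mul_apply, Equiv.Perm.mul_apply]
      rcases ih with ⟨h1, h2⟩ | ⟨h1, h2⟩
      · right; rw [h1, h2]; exact hRu
      · left; rw [h1, h2]; exact ⟨hRu.2, hRu.1⟩
  refine ⟨u0, v0, Finset.univ.filter (fun x : V × V => G.Adj x.1 x.2 ∧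
    ((R x.1 = x.1 ∧ R x.2 = x.2) ∨ (R x.1 = x.2 ∧ R x.2 = x.1))), hadj, h0S, fun _ => hRu,
    ?_, ?_, ?_, ?_⟩
  · intro a b hab k hk
    have hmem : ((u0, v0) : V × V) ∈ (Finset.univ.filter (fun x : V × V => G.Adj x.1 x.2 ∧
      (((R ^ k * S) x.1 = x.1 ∧ (R ^ k * S) x.2 = x.2) ∨
        ((R ^ k * S) x.1 = x.2 ∧ (R ^ k * S) x.2 = x.1)))) := by
      refine Finset.mem_filter.2 ⟨Finset.mem_univ _, hadj, ?_⟩
      simp only [Equiv.Perm.mul_apply]
      rcases h0S with ⟨h1, h2⟩ | ⟨h1, h2⟩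
      · rw [h1, h2]; exact hRk k
      · rw [h1, h2]
        rcases hRk k with ⟨h3, h4⟩ | ⟨h3, h4⟩
        · exact Or.inr ⟨h4, h3⟩
        · exact Or.inl ⟨h4, h3⟩
    have := pair2_aux _ (hfixS k) (by
      intro a b hab
      simp only [Finset.mem_filter, Finset.mem_univ, true_and] at hab ⊢
      obtain ⟨h1, h2 | h2⟩ := hab
      · exact ⟨h1.symm, Or.inl ⟨h2.2, h2.1⟩⟩
      · exact ⟨h1.symm, Or.inr ⟨h2.2, h2.1⟩⟩) (by
      intro a b hab
      simp only [Finset.mem_filter, Finset.mem_univ, true_and] at hab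
      exact hab.1.ne) hmem a b (by
        simp only [Finset.mem_filter, Finset.mem_univ, true_and]
        exact ⟨hab, hk⟩)
    refine ⟨0, ?_⟩
    simpa using this
  · intro a b hab k hk
    have hRk' : R ^ k = 1 ∨ R ^ k = R := by
      have : R ^ k = R ^ (k % 2) := pow_eq_pow_mod k hRn
      rcases Nat.mod_two_eq_zero_or_one k with h | h
      · left; rw [this, h, pow_zero]
      · right; rw [this, h, pow_one]
    rcases hRk' with h | h
    · rw [h] at hk
      exact absurd hk.1 hab.ne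
    · rw [h] at hk
      refine ⟨0, ?_⟩
      simpa using hFR a b ⟨hab, Or.inr hk⟩
  · intro a b
    simp only [Finset.mem_filter, Finset.mem_univ, true_and]
    constructor
    · intro h
      refine ⟨h.1, 0, ?_⟩
      simpa using hFR a b h
    · rintro ⟨h1, k, h2⟩
      refine ⟨h1, Or.inr ?_⟩
      rcases hRk k with ⟨h3, h4⟩ | ⟨h3, h4⟩
      · rw [h3, h4] at h2
        rcases h2 with ⟨rfl, rfl⟩ | ⟨rfl, rfl⟩
        · exact hRu
        · exact ⟨hRu.2, hRu.1⟩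
      · rw [h3, h4] at h2
        rcases h2 with ⟨rfl, rfl⟩ | ⟨rfl, rfl⟩
        · exact ⟨hRu.2, hRu.1⟩
        · exact hRu
  · rw [hc]

theorem specOK_three {V : Type} [Fintype V] [DecidableEq V] (G : SimpleGraph V)
    [DecidableRel G.Adj]
    (R S : Equiv.Perm V) (hRn : R ^ 3 = 1) (hSS : S * S = 1) (hSRS : S * R * S = R⁻¹)
    (hGR : ∀ a b, G.Adj (R a) (R b) ↔ G.Adj a b)
    (hR1 : ∀ v, R v ≠ v) (hR2 : ∀ v, (R ^ 2) v ≠ v)
    (hfixS : (Finset.univ.filter (fun x : V × V => G.Adj x.1 x.2 ∧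
      ((S x.1 = x.1 ∧ S x.2 = x.2) ∨ (S x.1 = x.2 ∧ S x.2 = x.1)))).card = 2) :
    ∃ (u0 v0 : V) (F : Finset (V × V)), SpecOK G 3 R S u0 v0 F := by
  obtain ⟨u0, v0, huv⟩ := pair2_exists_aux _ hfixS
  have hFS := pair2_aux _ hfixS (by
    intro a b hab
    simp only [Finset.mem_filter, Finset.mem_univ, true_and] at hab ⊢
    obtain ⟨h1, h2 | h2⟩ := hab
    · exact ⟨h1.symm, Or.inl ⟨h2.2, h2.1⟩⟩
    · exact ⟨h1.symm, Or.inr ⟨h2.2, h2.1⟩⟩) (by
    intro a b hab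
    simp only [Finset.mem_filter, Finset.mem_univ, true_and] at hab
    exact hab.1.ne) huv
  simp only [Finset.mem_filter, Finset.mem_univ, true_and] at huv hFS
  have hadj : G.Adj u0 v0 := huv.1
  -- no swap by a rotation
  have hnoswap : ∀ a b, a ≠ b → ∀ k : ℕ, ¬ ((R ^ k) a = b ∧ (R ^ k) b = a) := by
    rintro a b hab k ⟨h1, h2⟩
    have hk : R ^ k = R ^ (k % 3) := pow_eq_pow_mod k hRn
    rw [hk] at h1 h2
    have hlt : k % 3 < 3 := Nat.mod_lt _ (by norm_num)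
    generalize k % 3 = j at h1 h2 hlt
    interval_cases j
    · exact hab (by simpa using h1)
    · simp only [pow_one] at h1 h2
      apply hR2 a
      rw [pow_two, Equiv.Perm.mul_apply, h1, h2]
    · rw [← h1, ← Equiv.Perm.mul_apply, ← pow_add] at h2
      have : R ^ (2 + 2) = R := by
        rw [show 2 + 2 = 3 + 1 from rfl, pow_add, hRn, one_mul, pow_one]
      rw [this] at h2
      exact hR1 a h2
  have hfree : ∀ (v : V) (k : ℕ), k < 3 → ∀ j, j < 3 → (R ^ k) v = (R ^ j) v → k = j := by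
    have hR0 : ∀ v : V, v ≠ (R ^ 2) v := fun v h => hR2 v h.symm
    have hR0' : ∀ v : V, v ≠ R v := fun v h => hR1 v h.symm
    have h12 : ∀ v : V, R v ≠ (R ^ 2) v := by
      intro v h
      rw [pow_two, Equiv.Perm.mul_apply] at h
      exact hR0' _ h
    intro v k hk j hj h
    interval_cases k <;> interval_cases j <;>
      simp only [pow_zero, pow_one, Equiv.Perm.one_apply] at h <;>
      first
        | rfl
        | exact absurd h (hR0 v)
        | exact absurd h (hR0' v)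
        | exact absurd h (hR2 v)
        | exact absurd h (hR1 v)
        | exact absurd h (h12 v)
        | exact absurd h.symm (h12 v)
  refine ⟨u0, v0, Finset.univ.image (fun p : Fin 3 × Bool =>
    if p.2 then ((R ^ (p.1 : ℕ)) u0, (R ^ (p.1 : ℕ)) v0)
    else ((R ^ (p.1 : ℕ)) v0, (R ^ (p.1 : ℕ)) u0)), hadj, huv.2, ?_, ?_, ?_, ?_, ?_⟩
  · intro h
    exact absurd h (by norm_num)
  · intro a b hab k hk
    have key : ∀ x y : V, (R ^ k * S) x = y → S ((R ^ k) x) = (R ^ k) y := by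
      intro x y hxy
      rw [S_pow_apply_aux (by norm_num) hRn hSS hSRS, ← hxy, Equiv.Perm.mul_apply,
        ← pow_add_apply_aux]
      congr 2
      ring
    have hmem : G.Adj ((R ^ k) a) ((R ^ k) b) := (adj_pow_aux hGR k a b).2 hab
    apply spec_pow_aux (by norm_num) hRn k
    refine ⟨0, ?_⟩
    have := hFS ((R ^ k) a) ((R ^ k) b) ⟨hmem, by
      rcases hk with ⟨h1, h2⟩ | ⟨h1, h2⟩
      · exact Or.inl ⟨key _ _ h1, key _ _ h2⟩
      · exact Or.inr ⟨key _ _ h1, key _ _ h2⟩⟩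
    simpa using this
  · intro a b hab k hk
    exact absurd hk (hnoswap a b hab.ne k)
  · intro a b
    simp only [Finset.mem_image, Finset.mem_univ, true_and, Prod.exists, Bool.exists_bool]
    constructor
    · rintro ⟨k, h | h⟩
      · simp only [Bool.false_eq_true, if_false, Prod.mk.injEq] at h
        obtain ⟨h1, h2⟩ := h
        subst h1 h2
        exact ⟨((adj_pow_aux hGR k _ _).2 hadj).symm |> fun h => h, ⟨k, Or.inr ⟨rfl, rfl⟩⟩⟩
      · simp only [if_true, Prod.mk.injEq] at h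
        obtain ⟨h1, h2⟩ := h
        subst h1 h2
        exact ⟨(adj_pow_aux hGR k _ _).2 hadj, ⟨k, Or.inl ⟨rfl, rfl⟩⟩⟩
    · rintro ⟨-, k, h⟩
      have hk : R ^ k = R ^ (k % 3) := pow_eq_pow_mod k hRn
      rw [hk] at h
      refine ⟨⟨k % 3, Nat.mod_lt _ (by norm_num)⟩, ?_⟩
      rcases h with ⟨h1, h2⟩ | ⟨h1, h2⟩
      · right
        simp [h1, h2]
      · left
        simp [h1, h2]
  · rw [Finset.card_image_of_injective]
    · simp
    · rintro ⟨k, b⟩ ⟨j, c⟩ h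
      have hconv : ∀ i j : Fin 3, (R ^ (i : ℕ)) u0 = (R ^ (j : ℕ)) v0 →
          (R ^ (i : ℕ)) v0 = (R ^ (j : ℕ)) u0 → False := by
        intro i j h1 h2
        refine hnoswap u0 v0 hadj.ne ((3 - 1) * (j : ℕ) + i) ⟨?_, ?_⟩
        · rw [pow_add_apply_aux, h1, pow_back_aux (by norm_num) hRn]
        · rw [pow_add_apply_aux, h2, pow_back_aux (by norm_num) hRn]
      cases b <;> cases c
      · simp only [Bool.false_eq_true, if_false, Prod.mk.injEq] at h
        rw [Prod.mk.injEq]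
        exact ⟨Fin.ext (hfree v0 k k.2 j j.2 h.1), rfl⟩
      · simp only [Bool.false_eq_true, if_false, if_true, Prod.mk.injEq] at h
        exact (hconv k j h.2 h.1).elim
      · simp only [Bool.false_eq_true, if_false, if_true, Prod.mk.injEq] at h
        exact (hconv k j h.1 h.2).elim
      · simp only [if_true, Prod.mk.injEq] at h
        rw [Prod.mk.injEq]
        exact ⟨Fin.ext (hfree u0 k k.2 j j.2 h.1), rfl⟩

/-- TARGET 1. -/
theorem exists_dat {V : Type} [Fintype V] [DecidableEq V] (G : SimpleGraph V) [DecidableRel G.Adj]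
    (n : ℕ) (hn : n = 2 ∨ n = 3) (R S : Equiv.Perm V) (ζ : ℂ) (hRn : R ^ n = 1) (hSS : S * S = 1)
    (hSRS : S * R * S = R⁻¹) (hζ : ζ ^ n = 1) (hζ1 : ζ ≠ 1)
    (hGR : ∀ a b, G.Adj (R a) (R b) ↔ G.Adj a b) (hGS : ∀ a b, G.Adj (S a) (S b) ↔ G.Adj a b)
    (hsparse : ∀ C : Finset V, 2 ≤ C.card →
      ((C ×ˢ C).filter (fun x : V × V => G.Adj x.1 x.2)).card + 6 ≤ 4 * C.card)
    (hcount : (Finset.univ.filter (fun x : V × V => G.Adj x.1 x.2)).card + 6 = 4 * Fintype.card V)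
    (hfixR : ∀ k : ℕ, 0 < k → k < n → (∀ v, (R ^ k) v ≠ v) ∧
      (Finset.univ.filter (fun x : V × V => G.Adj x.1 x.2 ∧ (((R ^ k) x.1 = x.1 ∧ (R ^ k) x.2 = x.2) ∨
        ((R ^ k) x.1 = x.2 ∧ (R ^ k) x.2 = x.1)))).card = if n = 2 then 2 else 0)
    (hfixS : ∀ k : ℕ, (Finset.univ.filter (fun x : V × V => G.Adj x.1 x.2 ∧
      (((R ^ k * S) x.1 = x.1 ∧ (R ^ k * S) x.2 = x.2) ∨
        ((R ^ k * S) x.1 = x.2 ∧ (R ^ k * S) x.2 = x.1)))).card = 2) :
    ∃ (u0 v0 : V) (m : ℕ) (rep : Fin m → V × V), Dat G n R S ζ u0 v0 m rep := by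
  classical
  have hn0 : 0 < n := by rcases hn with h | h <;> omega
  have h1n : 1 < n := by rcases hn with h | h <;> omega
  have hR1 : ∀ v, R v ≠ v := by
    have := (hfixR 1 one_pos h1n).1
    simpa using this
  obtain ⟨u0, v0, F, hOK⟩ : ∃ (u0 v0 : V) (F : Finset (V × V)), SpecOK G n R S u0 v0 F := by
    rcases hn with rfl | rfl
    · refine specOK_two G R S hRn hSS hSRS hGS ⟨hR1, ?_⟩ hfixS
      have := (hfixR 1 one_pos h1n).2
      simpa using this
    · refine specOK_three G R S hRn hSS hSRS hGR hR1 (hfixR 2 (by norm_num) (by norm_num)).1 ?_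
      have := hfixS 0
      simpa using this
  obtain ⟨m, rep, hrep, hcov, huniq, hJ, hcardZ⟩ := exists_index n hn0 R S hRn hSS hSRS
    (Finset.univ.filter (fun x : V × V => G.Adj x.1 x.2) \ F) (by
      intro a b hab
      rw [Finset.mem_sdiff, Finset.mem_filter, hOK.hFm] at hab ⊢
      refine ⟨⟨Finset.mem_univ _, (hGR _ _).2 hab.1.2⟩, fun h => hab.2 ⟨hab.1.2, ?_⟩⟩
      exact spec_R_aux hn0 hRn h.2) (by
      intro a b hab
      rw [Finset.mem_sdiff, Finset.mem_filter, hOK.hFm] at hab ⊢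
      refine ⟨⟨Finset.mem_univ _, (hGS _ _).2 hab.1.2⟩, fun h => hab.2 ⟨hab.1.2, ?_⟩⟩
      exact spec_S_aux hn0 hRn hSS hSRS hOK.h0S h.2) (by
      intro a b hab
      rw [Finset.mem_sdiff, Finset.mem_filter, hOK.hFm] at hab ⊢
      refine ⟨⟨Finset.mem_univ _, hab.1.2.symm⟩, fun h => hab.2 ⟨hab.1.2, ?_⟩⟩
      exact spec_swap_aux h.2) (by
      rintro ⟨a, b⟩ hab k hk ε δ hop
      rw [Finset.mem_sdiff, Finset.mem_filter, hOK.hFm] at hab
      obtain ⟨⟨-, hadj⟩, hns⟩ := hab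
      have hns' : ¬ Spec R u0 v0 a b := fun h => hns ⟨hadj, h⟩
      cases ε <;> cases δ
      · simp only [op, Bool.false_eq_true, if_false, Prod.mk.injEq] at hop
        refine ⟨?_, rfl, rfl⟩
        by_contra hk0
        exact (hfixR k (Nat.pos_of_ne_zero hk0) hk).1 a hop.1
      · simp only [op, Bool.false_eq_true, if_false, if_true, Prod.mk.injEq] at hop
        exact absurd (hOK.hSpR a b hadj k ⟨hop.2, hop.1⟩) hns'
      · simp only [op, Bool.false_eq_true, if_false, if_true, Prod.mk.injEq] at hop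
        exact absurd (hOK.hSpS a b hadj k (Or.inl ⟨hop.1, hop.2⟩)) hns'
      · simp only [op, if_true, Prod.mk.injEq] at hop
        exact absurd (hOK.hSpS a b hadj k (Or.inr ⟨hop.2, hop.1⟩)) hns')
  have hFsub : F ⊆ Finset.univ.filter (fun x : V × V => G.Adj x.1 x.2) := by
    rintro ⟨a, b⟩ h
    rw [hOK.hFm] at h
    exact Finset.mem_filter.2 ⟨Finset.mem_univ _, h.1⟩
  have hcard := Finset.card_sdiff_add_card_eq_card hFsub
  refine ⟨u0, v0, m, rep, ?_⟩
  exact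
    { hn := hn
      hRn := hRn
      hSS := hSS
      hSRS := hSRS
      hζ := hζ
      hζ1 := hζ1
      hfree := hR1
      hGR := hGR
      hGS := hGS
      hsparse := hsparse
      hcount := hcount
      h0 := hOK.h0
      h0S := hOK.h0S
      h0R := hOK.h0R
      hSpS := hOK.hSpS
      hSpR := hOK.hSpR
      hrepA := fun i => (Finset.mem_filter.1 (Finset.mem_sdiff.1 (hrep i)).1).2
      hrepS := by
        intro i h
        have h1 := hrep i
        rw [Finset.mem_sdiff] at h1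
        apply h1.2
        have h2 := (Finset.mem_filter.1 h1.1).2
        have := (hOK.hFm (rep i).1 (rep i).2).2 ⟨h2, h⟩
        exact this
      hcov := by
        intro a b hab hns
        refine hcov (a, b) ?_
        rw [Finset.mem_sdiff, Finset.mem_filter, hOK.hFm]
        exact ⟨⟨Finset.mem_univ _, hab⟩, fun h => hns h.2⟩
      huniq := huniq
      hJ := hJ
      hV := by
        have h1 := hOK.hF
        have h2 : 4 * (n * (m + 1)) = 4 * Fintype.card V := by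
          have h3 : 4 * (n * (m + 1)) = 4 * n * m + 4 * n := by ring
          omega
        omega }

end Pool.Agent.DihLaman.J761
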