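import Pool.Agent.Helper927.DLDefs
import Pool.Agent.Helper927.DL390
import Pool.Agent.Helper927.DL468
import Pool.Agent.Helper927.DL469
import Pool.Agent.Helper927.DL760
set_option autoImplicit false
set_option maxHeartbeats 4000000
open Module Submodule

namespace Pool.Agent.DihLaman
open Pool.Agent.DihLaman
open Pool.Agent.DihLaman.J468 (count_A)
open Pool.Agent.DihLaman.J469 (count_B2)
open Pool.Agent.DihLaman.J760 (exists_dir3)
open Pool.Agent.DihLaman.J390 (rado_ker)

section helpers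
variable {V : Type} [Fintype V] [DecidableEq V] {G : SimpleGraph V} [DecidableRel G.Adj]
  {n : ℕ} {R S : Equiv.Perm V} {ζ : ℂ} {u0 v0 : V} {m : ℕ} {rep : Fin m → V × V}

lemma Dat.n_pos (h : Dat G n R S ζ u0 v0 m rep) : 0 < n := by
  rcases h.hn with h | h <;> omega

lemma Dat.pow_mod (h : Dat G n R S ζ u0 v0 m rep) (k : ℕ) : R ^ k = R ^ (k % n) := by
  conv_lhs => rw [← Nat.mod_add_div k n, pow_add, pow_mul, h.hRn, one_pow, mul_one]

lemma Dat.inv_eq (h : Dat G n R S ζ u0 v0 m rep) : R⁻¹ = R ^ (n - 1) := by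
  rw [inv_eq_iff_mul_eq_one, ← pow_succ']
  have : n - 1 + 1 = n := by have := h.n_pos; omega
  rw [this, h.hRn]

lemma Dat.SR (h : Dat G n R S ζ u0 v0 m rep) (k : ℕ) : S * R ^ k = R ^ ((n - 1) * k) * S := by
  have h1 : S * R = R ^ (n - 1) * S := by
    calc S * R = S * R * (S * S) := by rw [h.hSS, mul_one]
      _ = (S * R * S) * S := by simp only [mul_assoc]
      _ = _ := by rw [h.hSRS, h.inv_eq]
  induction k with
  | zero => simp
  | succ k ih =>
    rw [pow_succ, ← mul_assoc, ih, mul_assoc, h1, ← mul_assoc, ← pow_add]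
    congr 2

lemma Dat.SR_apply (h : Dat G n R S ζ u0 v0 m rep) (k : ℕ) (v : V) :
    S ((R ^ k) v) = (R ^ ((n - 1) * k)) (S v) := by
  have := h.SR k
  have h2 := congrArg (fun f : Equiv.Perm V => f v) this
  simpa [Equiv.Perm.mul_apply] using h2

lemma Dat.SS_apply (h : Dat G n R S ζ u0 v0 m rep) (v : V) : S (S v) = v := by
  have h2 := congrArg (fun f : Equiv.Perm V => f v) h.hSS
  simpa [Equiv.Perm.mul_apply] using h2

lemma Dat.RR_apply (h : Dat G n R S ζ u0 v0 m rep) (k : ℕ) (v : V) :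
    (R ^ ((n - 1) * k)) ((R ^ k) v) = v := by
  rw [← Equiv.Perm.mul_apply, ← pow_add]
  have : (n - 1) * k + k = n * k := by
    have := h.n_pos
    obtain ⟨j, rfl⟩ : ∃ j, n = j + 1 := ⟨n - 1, by omega⟩
    simp; ring
  rw [this, pow_mul, h.hRn, one_pow]; rfl

lemma spec_pow {a b : V} (hs : Spec R u0 v0 a b) (j : ℕ) :
    Spec R u0 v0 ((R ^ j) a) ((R ^ j) b) := by
  obtain ⟨k, ⟨rfl, rfl⟩ | ⟨rfl, rfl⟩⟩ := hs
  · exact ⟨j + k, Or.inl ⟨by rw [pow_add]; rfl, by rw [pow_add]; rfl⟩⟩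
  · exact ⟨j + k, Or.inr ⟨by rw [pow_add]; rfl, by rw [pow_add]; rfl⟩⟩

lemma Dat.spec_pow_inv (h : Dat G n R S ζ u0 v0 m rep) {a b : V} {j : ℕ}
    (hs : Spec R u0 v0 ((R ^ j) a) ((R ^ j) b)) : Spec R u0 v0 a b := by
  have := spec_pow hs ((n - 1) * j)
  rwa [h.RR_apply, h.RR_apply] at this

lemma spec_swap {a b : V} (hs : Spec R u0 v0 a b) : Spec R u0 v0 b a := by
  obtain ⟨k, ⟨rfl, rfl⟩ | ⟨rfl, rfl⟩⟩ := hs
  · exact ⟨k, Or.inr ⟨rfl, rfl⟩⟩
  · exact ⟨k, Or.inl ⟨rfl, rfl⟩⟩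

lemma Dat.spec_S (h : Dat G n R S ζ u0 v0 m rep) {a b : V}
    (hs : Spec R u0 v0 a b) : Spec R u0 v0 (S a) (S b) := by
  obtain ⟨k, ⟨rfl, rfl⟩ | ⟨rfl, rfl⟩⟩ := hs
  · rw [h.SR_apply, h.SR_apply]
    rcases h.h0S with ⟨h1, h2⟩ | ⟨h1, h2⟩
    · rw [h1, h2]; exact ⟨_, Or.inl ⟨rfl, rfl⟩⟩
    · rw [h1, h2]; exact ⟨_, Or.inr ⟨rfl, rfl⟩⟩
  · rw [h.SR_apply, h.SR_apply]
    rcases h.h0S with ⟨h1, h2⟩ | ⟨h1, h2⟩
    · rw [h1, h2]; exact ⟨_, Or.inr ⟨rfl, rfl⟩⟩
    · rw [h1, h2]; exact ⟨_, Or.inl ⟨rfl, rfl⟩⟩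

lemma Dat.spec_S_inv (h : Dat G n R S ζ u0 v0 m rep) {a b : V}
    (hs : Spec R u0 v0 (S a) (S b)) : Spec R u0 v0 a b := by
  have := h.spec_S hs
  rwa [h.SS_apply, h.SS_apply] at this

lemma Dat.spec_op (h : Dat G n R S ζ u0 v0 m rep) {k : ℕ} {e d : Bool} {x : V × V}
    (hs : Spec R u0 v0 (op R S k e d x).1 (op R S k e d x).2) : Spec R u0 v0 x.1 x.2 := by
  cases e <;> cases d <;> simp only [op] at hs
  · exact h.spec_pow_inv hs
  · exact h.spec_pow_inv (spec_swap hs)
  · exact h.spec_S_inv (h.spec_pow_inv hs)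
  · exact h.spec_S_inv (h.spec_pow_inv (spec_swap hs))

lemma Dat.adj_pow (h : Dat G n R S ζ u0 v0 m rep) (k : ℕ) (a b : V) :
    G.Adj ((R ^ k) a) ((R ^ k) b) ↔ G.Adj a b := by
  induction k with
  | zero => simp
  | succ k ih =>
    rw [pow_succ', Equiv.Perm.mul_apply, Equiv.Perm.mul_apply, h.hGR, ih]

lemma Dat.adj_op (h : Dat G n R S ζ u0 v0 m rep) {k : ℕ} {e d : Bool} {x : V × V} :
    G.Adj (op R S k e d x).1 (op R S k e d x).2 ↔ G.Adj x.1 x.2 := by
  cases e <;> cases d <;> simp only [op]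
  · exact h.adj_pow _ _ _
  · exact (h.adj_pow _ _ _).trans (G.adj_comm _ _)
  · exact (h.adj_pow _ _ _).trans (h.hGS _ _)
  · exact (h.adj_pow _ _ _).trans ((h.hGS _ _).trans (G.adj_comm _ _))

/-- the union of the orbits indexed by `J` -/
def UJ {V : Type} {m : ℕ} (n : ℕ) (R S : Equiv.Perm V) (rep : Fin m → V × V)
    (J : Finset (Fin m)) (a b : V) : Prop :=
  ∃ i ∈ J, ∃ k : ℕ, k < n ∧ ∃ ε δ : Bool, (a, b) = op R S k ε δ (rep i)

lemma Dat.UJ_of (h : Dat G n R S ζ u0 v0 m rep) {J : Finset (Fin m)} {a b : V} {i : Fin m}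
    (hi : i ∈ J) (k : ℕ) (e d : Bool) (hx : (a, b) = op R S k e d (rep i)) :
    UJ n R S rep J a b := by
  refine ⟨i, hi, k % n, Nat.mod_lt _ h.n_pos, e, d, ?_⟩
  rw [hx]
  unfold op
  rw [h.pow_mod k]

lemma Dat.UJ_adj (h : Dat G n R S ζ u0 v0 m rep) {J : Finset (Fin m)} {a b : V}
    (hU : UJ n R S rep J a b) : G.Adj a b := by
  obtain ⟨i, hi, k, hk, e, d, hx⟩ := hU
  have h1 : a = (op R S k e d (rep i)).1 := by rw [← hx]
  have h2 : b = (op R S k e d (rep i)).2 := by rw [← hx]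
  rw [h1, h2, h.adj_op]
  exact h.hrepA i

lemma Dat.UJ_not_spec (h : Dat G n R S ζ u0 v0 m rep) {J : Finset (Fin m)} {a b : V}
    (hU : UJ n R S rep J a b) : ¬ Spec R u0 v0 a b := by
  obtain ⟨i, hi, k, hk, e, d, hx⟩ := hU
  have h1 : a = (op R S k e d (rep i)).1 := by rw [← hx]
  have h2 : b = (op R S k e d (rep i)).2 := by rw [← hx]
  rw [h1, h2]
  intro hs
  exact h.hrepS i (h.spec_op hs)

lemma Dat.UJ_symm (h : Dat G n R S ζ u0 v0 m rep) {J : Finset (Fin m)} {a b : V}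
    (hU : UJ n R S rep J a b) : UJ n R S rep J b a := by
  obtain ⟨i, hi, k, hk, e, d, hx⟩ := hU
  refine ⟨i, hi, k, hk, e, !d, ?_⟩
  have h1 : a = (op R S k e d (rep i)).1 := by rw [← hx]
  have h2 : b = (op R S k e d (rep i)).2 := by rw [← hx]
  rw [h1, h2]
  cases d <;> simp [op]

lemma Dat.UJ_R (h : Dat G n R S ζ u0 v0 m rep) {J : Finset (Fin m)} {a b : V}
    (hU : UJ n R S rep J a b) : UJ n R S rep J (R a) (R b) := by
  obtain ⟨i, hi, k, hk, e, d, hx⟩ := hU
  apply h.UJ_of hi (k + 1) e d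
  have h1 : a = (op R S k e d (rep i)).1 := by rw [← hx]
  have h2 : b = (op R S k e d (rep i)).2 := by rw [← hx]
  rw [h1, h2]
  cases d <;> simp [op, pow_succ']

lemma Dat.UJ_S (h : Dat G n R S ζ u0 v0 m rep) {J : Finset (Fin m)} {a b : V}
    (hU : UJ n R S rep J a b) : UJ n R S rep J (S a) (S b) := by
  obtain ⟨i, hi, k, hk, e, d, hx⟩ := hU
  apply h.UJ_of hi ((n - 1) * k) (!e) d
  have h1 : a = (op R S k e d (rep i)).1 := by rw [← hx]
  have h2 : b = (op R S k e d (rep i)).2 := by rw [← hx]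
  rw [h1, h2]
  cases d <;> cases e <;> simp [op, h.SR_apply, h.SS_apply]

end helpers
section helpers2
variable {V : Type} [Fintype V] [DecidableEq V] {G : SimpleGraph V} [DecidableRel G.Adj]
  {n : ℕ} {R S : Equiv.Perm V} {ζ : ℂ} {u0 v0 : V} {m : ℕ} {rep : Fin m → V × V}

/-- functional -/
noncomputable def phi {V : Type} {m : ℕ} (S : V → V) (rep : Fin m → V × V) (i : Fin m) (b : Bool) :
    (V → ℂ) →ₗ[ℂ] ℂ :=
  (LinearMap.proj (R := ℂ) (φ := fun _ : V => ℂ) (pr S rep i b).1) -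
    (LinearMap.proj (R := ℂ) (φ := fun _ : V => ℂ) (pr S rep i b).2)

lemma mem_phi {V : Type} {m : ℕ} (S : V → V) (rep : Fin m → V × V) (i : Fin m) (b : Bool)
    (u : V → ℂ) : u ∈ LinearMap.ker (phi S rep i b) ↔ u (pr S rep i b).1 = u (pr S rep i b).2 := by
  rw [LinearMap.mem_ker]
  simp only [phi, LinearMap.sub_apply, LinearMap.proj_apply]
  exact sub_eq_zero

omit [Fintype V] [DecidableEq V] in
lemma typ_pow {η : ℂ} {u : V → ℂ} (hu : ∀ v, u (R v) = η * u v) (k : ℕ) (v : V) :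
    u ((R ^ k) v) = η ^ k * u v := by
  induction k with
  | zero => simp
  | succ k ih => rw [pow_succ', Equiv.Perm.mul_apply, hu, ih, pow_succ']; ring

lemma Dat.ker_le (h : Dat G n R S ζ u0 v0 m rep) {η : ℂ} (hη : η ≠ 0) (J : Finset (Fin m)) :
    (Typ R η ⊓ (⨅ i ∈ J, ⨅ b ∈ (Finset.univ : Finset Bool), LinearMap.ker (phi S rep i b)) :
      Submodule ℂ (V → ℂ)) ≤ TypU R η (UJ n R S rep J) := by
  intro u hu
  rw [Submodule.mem_inf] at hu
  obtain ⟨hu1, hu2⟩ := hu
  simp only [Submodule.mem_iInf] at hu2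
  refine ⟨hu1, ?_⟩
  rintro a b ⟨i, hi, k, hk, e, d, hx⟩
  have ht := (mem_phi S rep i true u).1 (hu2 i hi true (Finset.mem_univ _))
  have hf := (mem_phi S rep i false u).1 (hu2 i hi false (Finset.mem_univ _))
  simp only [pr] at ht hf
  have h1 : a = (op R S k e d (rep i)).1 := by rw [← hx]
  have h2 : b = (op R S k e d (rep i)).2 := by rw [← hx]
  rw [h1, h2]
  have hR : ∀ v, u ((R ^ k) v) = η ^ k * u v := fun v => typ_pow hu1 k v
  cases e <;> cases d <;> simp only [op, hR] <;> simp_all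

lemma Dat.card_UJ (h : Dat G n R S ζ u0 v0 m rep) (J : Finset (Fin m))
    [DecidableRel (UJ n R S rep J)] :
    (Finset.univ.filter (fun x : V × V => UJ n R S rep J x.1 x.2)).card = 4 * n * J.card := by
  rw [← h.hJ J]
  congr 1
  ext x
  constructor <;> intro hx <;> rw [Finset.mem_filter] at hx ⊢ <;>
    exact ⟨Finset.mem_univ _, hx.2⟩

lemma Dat.sparse_UJ (h : Dat G n R S ζ u0 v0 m rep) (J : Finset (Fin m))
    [DecidableRel (UJ n R S rep J)] (C : Finset V) (hC : 2 ≤ C.card) :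
      ((C ×ˢ C).filter (fun x : V × V => UJ n R S rep J x.1 x.2)).card + 6 ≤ 4 * C.card := by
  refine le_trans ?_ (h.hsparse C hC)
  apply Nat.add_le_add_right
  apply Finset.card_le_card
  intro x hx
  rw [Finset.mem_filter] at hx ⊢
  exact ⟨hx.1, h.UJ_adj hx.2⟩

lemma Dat.bound_A (h : Dat G n R S ζ u0 v0 m rep) (J : Finset (Fin m)) (hJ : J.Nonempty) :
    finrank ℂ (TypU R ζ (UJ n R S rep J)) + J.card ≤ m := by
  classical
  have hc := count_A n h.hn R S h.hRn h.hSS h.hSRS h.hfree (UJ n R S rep J)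
    (fun a ha => G.loopless.irrefl a (h.UJ_adj ha)) (fun a b hab => h.UJ_symm hab)
    (fun a b hab => h.UJ_R hab) (fun a b hab => h.UJ_S hab)
    (fun a b hab k => ⟨fun hk => h.UJ_not_spec hab (h.hSpS a b (h.UJ_adj hab) k (Or.inl hk)),
      fun hk => h.UJ_not_spec hab (h.hSpS a b (h.UJ_adj hab) k (Or.inr hk))⟩)
    (fun a b hab k hk => h.UJ_not_spec hab (h.hSpR a b (h.UJ_adj hab) k hk))
    (h.sparse_UJ J)
    (by
      obtain ⟨i, hi⟩ := hJ
      exact ⟨(rep i).1, (rep i).2, h.UJ_of hi 0 false false (by simp [op])⟩) ζ h.hζ h.hζ1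
  rw [h.card_UJ J, ← h.hV] at hc
  have hn := h.n_pos
  have : 4 * n * (finrank ℂ (TypU R ζ (UJ n R S rep J)) + J.card) ≤ 4 * n * m := by
    nlinarith
  exact Nat.le_of_mul_le_mul_left this (by omega)

lemma Dat.bound_B (h : Dat G 2 R S ζ u0 v0 m rep) (J : Finset (Fin m)) :
    finrank ℂ (TypU R 1 (UJ 2 R S rep J)) + J.card ≤ m + 1 := by
  classical
  have hRR : R * R = 1 := by rw [← pow_two]; exact h.hRn
  have hc := count_B2 R hRR h.hfree (UJ 2 R S rep J)
    (fun a ha => G.loopless.irrefl a (h.UJ_adj ha)) (fun a b hab => h.UJ_symm hab)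
    (fun a b hab => h.UJ_R hab)
    (fun a b hab hk => h.UJ_not_spec hab (h.hSpR a b (h.UJ_adj hab) 1 (by simpa using hk)))
    (h.sparse_UJ J)
  rw [h.card_UJ J, ← h.hV] at hc
  omega

/-- number of orbits -/
lemma Dat.card_quot (h : Dat G n R S ζ u0 v0 m rep) (s : Setoid V)
    (hs : ∀ a b, s.r a b ↔ R.SameCycle a b) [Fintype (Quotient s)] [DecidableEq (Quotient s)] :
    Fintype.card (Quotient s) ≤ m + 1 := by
  have h1 : ∀ q : Quotient s, n ≤ (Finset.univ.filter (fun v : V => (Quotient.mk s v) = q)).card := by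
    intro q
    obtain ⟨v, rfl⟩ := Quotient.exists_rep q
    have hmem : ∀ k : ℕ, (R ^ k) v ∈ Finset.univ.filter
        (fun w : V => (Quotient.mk s w) = Quotient.mk s v) := by
      intro k
      rw [Finset.mem_filter]
      refine ⟨Finset.mem_univ _, Quotient.sound ?_⟩
      show s.r _ _
      rw [hs]
      exact (Equiv.Perm.SameCycle.refl R v).symm.trans
        (by exact ⟨(k : ℤ), by simp⟩) |>.symm
    have hv := h.hfree v
    have hv2 := h.hfree (R v)
    rcases h.hn with hn | hn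
    · have hm0 := hmem 0
      have hm1 := hmem 1
      simp only [pow_zero, pow_one, Equiv.Perm.coe_one, id] at hm0 hm1
      have : ({v, R v} : Finset V) ⊆ Finset.univ.filter
        (fun w : V => (Quotient.mk s w) = Quotient.mk s v) := by
        intro x hx
        simp only [Finset.mem_insert, Finset.mem_singleton] at hx
        rcases hx with rfl | rfl
        · exact hm0
        · exact hm1
      have hc := Finset.card_le_card this
      rw [Finset.card_pair (Ne.symm hv)] at hc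
      omega
    · have hm0 := hmem 0
      have hm1 := hmem 1
      have hm2 := hmem 2
      simp only [pow_zero, pow_one, Equiv.Perm.coe_one, id, pow_two, Equiv.Perm.mul_apply]
        at hm0 hm1 hm2
      have h3 : R (R (R v)) = v := by
        have := h.hRn
        rw [hn] at this
        have h2 := congrArg (fun f : Equiv.Perm V => f v) this
        simpa [pow_succ, Equiv.Perm.mul_apply] using h2
      have hne : R (R v) ≠ v := by
        intro h4
        rw [h4] at h3
        exact hv h3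
      have : ({v, R v, R (R v)} : Finset V) ⊆ Finset.univ.filter
        (fun w : V => (Quotient.mk s w) = Quotient.mk s v) := by
        intro x hx
        simp only [Finset.mem_insert, Finset.mem_singleton] at hx
        rcases hx with rfl | rfl | rfl
        · exact hm0
        · exact hm1
        · exact hm2
      have hc := Finset.card_le_card this
      rw [Finset.card_eq_three.2 ⟨v, R v, R (R v), Ne.symm hv, Ne.symm hne, Ne.symm hv2, rfl⟩] at hc
      omega
  have h2 : Fintype.card V = ∑ q : Quotient s,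
      (Finset.univ.filter (fun v : V => (Quotient.mk s v) = q)).card := by
    rw [← Finset.card_univ]
    exact Finset.card_eq_sum_card_fiberwise (fun x _ => Finset.mem_coe.2 (Finset.mem_univ _))
  have h3 : n * Fintype.card (Quotient s) ≤ Fintype.card V := by
    rw [h2]
    calc n * Fintype.card (Quotient s) = ∑ q : Quotient s, n := by simp [mul_comm]
      _ ≤ _ := Finset.sum_le_sum (fun q _ => h1 q)
  rw [← h.hV] at h3
  exact Nat.le_of_mul_le_mul_left h3 h.n_pos

/-- the submodule of equivariant functions equal at `u0` and `v0` -/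
def TypE {V : Type} (R : V → V) (η : ℂ) (u0 v0 : V) : Submodule ℂ (V → ℂ) :=
  Typ R η ⊓ LinearMap.ker ((LinearMap.proj (R := ℂ) (φ := fun _ : V => ℂ) u0) -
    (LinearMap.proj (R := ℂ) (φ := fun _ : V => ℂ) v0))

lemma mem_TypE {V : Type} (R : V → V) (η : ℂ) (u0 v0 : V) (u : V → ℂ) :
    u ∈ TypE R η u0 v0 ↔ (∀ v, u (R v) = η * u v) ∧ u u0 = u v0 := by
  unfold TypE
  rw [Submodule.mem_inf, LinearMap.mem_ker]
  simp only [LinearMap.sub_apply, LinearMap.proj_apply, sub_eq_zero]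
  rfl

lemma Dat.zeta_pow (h : Dat G n R S ζ u0 v0 m rep) {k : ℕ} (hk : ζ ^ k = 1) : n ∣ k := by
  have hp : n.Prime := by rcases h.hn with h | h <;> rw [h] <;> norm_num
  have ho : orderOf ζ ∣ n := orderOf_dvd_of_pow_eq_one h.hζ
  rcases (Nat.dvd_prime hp).1 ho with h1 | h1
  · exact absurd (orderOf_eq_one_iff.1 h1) h.hζ1
  · rw [← h1]; exact orderOf_dvd_of_pow_eq_one hk

lemma Dat.zeta_ne (h : Dat G n R S ζ u0 v0 m rep) : ζ ≠ 0 := by
  intro h0
  have := h.hζ
  rw [h0, zero_pow h.n_pos.ne'] at this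
  exact zero_ne_one this

lemma Dat.bound_E (h : Dat G n R S ζ u0 v0 m rep) : finrank ℂ (TypE R ζ u0 v0) ≤ m := by
  classical
  let s : Setoid V := Equiv.Perm.SameCycle.setoid R
  have hs : ∀ a b, s.r a b ↔ R.SameCycle a b := fun a b => Iff.rfl
  have hcard := h.card_quot s hs
  let Q' := {q : Quotient s // q ≠ Quotient.mk s v0}
  have hQ' : Fintype.card Q' ≤ m := by
    have : Fintype.card Q' = Fintype.card (Quotient s) - 1 := by
      rw [Fintype.card_subtype_compl, Fintype.card_subtype_eq]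
    omega
  let L : TypE R ζ u0 v0 →ₗ[ℂ] (Q' → ℂ) :=
    { toFun := fun u q => u.1 q.1.out
      map_add' := fun u w => rfl
      map_smul' := fun c w => rfl }
  have hpow : ∀ (u : V → ℂ), (∀ v, u (R v) = ζ * u v) → ∀ a b, R.SameCycle a b →
      ∃ k : ℕ, b = (R ^ k) a ∧ u b = ζ ^ k * u a := by
    intro u hu a b hab
    obtain ⟨k, hk⟩ := hab.exists_nat_pow_eq
    exact ⟨k, hk.symm, by rw [← hk, typ_pow hu]⟩
  have hinj : Function.Injective L := by
    rw [injective_iff_map_eq_zero]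
    rintro ⟨u, hu⟩ hLu
    rw [mem_TypE] at hu
    obtain ⟨hu1, hu2⟩ := hu
    have hout : ∀ v : V, R.SameCycle (Quotient.mk s v).out v := by
      intro v
      rw [← hs]
      exact Quotient.exact (Quotient.out_eq _)
    have hvan : ∀ v : V, Quotient.mk s v ≠ Quotient.mk s v0 → u v = 0 := by
      intro v hv
      obtain ⟨k, hk, hk2⟩ := hpow u hu1 _ _ (hout v)
      have := congrFun hLu ⟨Quotient.mk s v, hv⟩
      have h0 : u (Quotient.mk s v).out = 0 := this
      rw [hk2, h0, mul_zero]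
    have hv0 : u v0 = 0 := by
      by_cases hc : Quotient.mk s u0 = Quotient.mk s v0
      · have hsc : R.SameCycle u0 v0 := (hs _ _).1 (Quotient.exact hc)
        obtain ⟨k, hk, hk2⟩ := hpow u hu1 _ _ hsc
        rw [hu2] at hk2
        have hne : ζ ^ k ≠ 1 := by
          intro hz
          obtain ⟨j, rfl⟩ := h.zeta_pow hz
          rw [pow_mul, h.hRn, one_pow] at hk
          apply G.ne_of_adj h.h0
          rw [hk]; rfl
        have : (1 - ζ ^ k) * u v0 = 0 := by linear_combination hk2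
        rcases mul_eq_zero.1 this with h3 | h3
        · exact absurd (sub_eq_zero.1 h3).symm hne
        · exact h3
      · rw [← hu2]; exact hvan u0 hc
    apply Subtype.ext
    funext v
    show u v = 0
    by_cases hv : Quotient.mk s v = Quotient.mk s v0
    · have hsc : R.SameCycle v0 v := ((hs _ _).1 (Quotient.exact hv)).symm
      obtain ⟨k, hk, hk2⟩ := hpow u hu1 _ _ hsc
      rw [hk2, hv0, mul_zero]
    · exact hvan v hv
  have := LinearMap.finrank_le_finrank_of_injective hinj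
  rw [Module.finrank_fintype_fun_eq_card] at this
  exact this.trans hQ'

end helpers2
section helpers3
variable {V : Type} [Fintype V] [DecidableEq V] {G : SimpleGraph V} [DecidableRel G.Adj]
  {n : ℕ} {R S : Equiv.Perm V} {ζ : ℂ} {u0 v0 : V} {m : ℕ} {rep : Fin m → V × V}

lemma Dat.exists_D (h : Dat G n R S ζ u0 v0 m rep) (c : Fin m → Bool) :
    ∃ D ∈ Dsp R ζ, (∀ i, D (pr S rep i (c i)).1 (pr S rep i (c i)).2 = 0) ∧
      (∀ i, D (S (pr S rep i (c i)).1) (S (pr S rep i (c i)).2) = 1) ∧ D u0 v0 = 1 := by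
  obtain ⟨D, hD, h1, h2, h3⟩ := exists_dir3 G n R S ζ u0 v0 m rep h
    (fun i => if c i = true then 0 else 1) (fun i => if c i = true then 1 else 0) 1
  refine ⟨D, hD, fun i => ?_, fun i => ?_, h3⟩
  · cases hc : c i
    · have := h2 i
      simpa [pr, hc] using this
    · have := h1 i
      simpa [pr, hc] using this
  · cases hc : c i
    · have := h1 i
      simpa [pr, hc, h.SS_apply] using this
    · have := h2 i
      simpa [pr, hc] using this

lemma Dat.red (h : Dat G n R S ζ u0 v0 m rep) (c : Fin m → Bool) (D : V → V → ℂ)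
    (hT : ∀ i, D (pr S rep i (c i)).1 (pr S rep i (c i)).2 = 0)
    (hM : ∀ i, D (S (pr S rep i (c i)).1) (S (pr S rep i (c i)).2) = 1)
    (ε η : ℂ) (Y : Submodule ℂ ((V → ℂ) × (V → ℂ))) (Z : Submodule ℂ (V → ℂ))
    (hY : Y ≤ XE R S ε η) (hZ : ∀ x ∈ KerX S G.Adj Y D, x.1 ∈ Z) :
    finrank ℂ (KerX S G.Adj Y D) ≤
      finrank ℂ (Z ⊓ (⨅ i, LinearMap.ker (phi S rep i (c i))) : Submodule ℂ (V → ℂ)) := by
  have hadj : ∀ i, G.Adj (pr S rep i (c i)).1 (pr S rep i (c i)).2 := by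
    intro i
    cases hc : c i
    · simpa [pr, h.hGS] using h.hrepA i
    · simpa [pr] using h.hrepA i
  let L : KerX S G.Adj Y D →ₗ[ℂ] (V → ℂ) := (LinearMap.fst ℂ _ _).comp (Submodule.subtype _)
  have hL : ∀ x, L x ∈ (Z ⊓ (⨅ i, LinearMap.ker (phi S rep i (c i))) : Submodule ℂ (V → ℂ)) := by
    rintro ⟨x, hx⟩
    rw [Submodule.mem_inf]
    refine ⟨hZ x hx, ?_⟩
    simp only [Submodule.mem_iInf]
    intro i
    rw [mem_phi]
    show x.1 _ = x.1 _
    have := hx.2 _ _ (hadj i)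
    rw [hT i, hM i] at this
    linear_combination this
  have hinj : Function.Injective (L.codRestrict _ hL) := by
    rw [injective_iff_map_eq_zero]
    rintro ⟨x, hx⟩ hLx
    have h1 : x.1 = 0 := congrArg Subtype.val hLx
    have h2 := (hY hx.1).2
    have h3 : x.2 = 0 := by
      funext v
      rw [h2 v, h1]; simp
    apply Subtype.ext
    exact Prod.ext h1 h3
  exact LinearMap.finrank_le_finrank_of_injective hinj

/-- rado with the special equation -/
lemma Dat.rado_E (h : Dat G n R S ζ u0 v0 m rep) :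
    ∃ c : Fin m → Bool, finrank ℂ (TypE R ζ u0 v0 ⊓ (⨅ i, LinearMap.ker (phi S rep i (c i))) :
      Submodule ℂ (V → ℂ)) ≤ 0 := by
  obtain ⟨c, -, hc⟩ := rado_ker (phi S rep) (TypE R ζ u0 v0) m (fun _ => Finset.univ)
    (fun _ => Finset.univ_nonempty) (by
      intro J
      rcases J.eq_empty_or_nonempty with hJ | hJ
      · rw [hJ]
        have := h.bound_E
        simp only [Finset.card_empty, add_zero]
        exact le_trans (Submodule.finrank_mono inf_le_left) this
      · refine le_trans ?_ (h.bound_A J hJ)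
        apply Nat.add_le_add_right
        apply Submodule.finrank_mono
        refine le_trans ?_ (h.ker_le h.zeta_ne J)
        exact inf_le_inf_right _ inf_le_left)
  rw [Fintype.card_fin] at hc
  exact ⟨c, by omega⟩

end helpers3

/-- TARGET 1. -/
theorem exists_alpha {V : Type} [Fintype V] [DecidableEq V] (G : SimpleGraph V) [DecidableRel G.Adj]
    (n : ℕ) (R S : Equiv.Perm V) (ζ : ℂ) (u0 v0 : V) (m : ℕ) (rep : Fin m → V × V)
    (h : Dat G n R S ζ u0 v0 m rep) :
    ∃ D ∈ Dsp R ζ, finrank ℂ (KerX S G.Adj (XE R S 1 ζ) D) ≤ 0 := by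
  obtain ⟨c, hc⟩ := h.rado_E
  obtain ⟨D, hD, hT, hM, h0⟩ := h.exists_D c
  refine ⟨D, hD, le_trans (h.red c D hT hM 1 ζ _ (TypE R ζ u0 v0) le_rfl ?_) hc⟩
  intro x hx
  rw [mem_TypE]
  refine ⟨hx.1.1, ?_⟩
  have hr := hx.2 u0 v0 h.h0
  have hx2 := hx.1.2
  rw [hx2 u0, hx2 v0, h0] at hr
  rcases h.h0S with ⟨h1, h2⟩ | ⟨h1, h2⟩
  · rw [h1, h2, h0] at hr
    linear_combination hr / 2
  · rw [h1, h2, hD.1 u0 v0, h0] at hr
    linear_combination -hr / 2

/-- TARGET 2. -/
theorem exists_gamma {V : Type} [Fintype V] [DecidableEq V] (G : SimpleGraph V) [DecidableRel G.Adj]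
    (n : ℕ) (R S : Equiv.Perm V) (ζ : ℂ) (u0 v0 : V) (m : ℕ) (rep : Fin m → V × V)
    (h : Dat G n R S ζ u0 v0 m rep)
    (a b : V) (hab : G.Adj a b) :
    ∃ D ∈ Dsp R ζ, finrank ℂ (KerX S G.Adj (XE R S (-1) ζ ⊓ Flat a b) D) ≤ 0 := by
  classical
  by_cases hsp : Spec R u0 v0 a b
  · obtain ⟨c, hc⟩ := h.rado_E
    obtain ⟨D, hD, hT, hM, h0⟩ := h.exists_D c
    refine ⟨D, hD, le_trans (h.red c D hT hM (-1) ζ _ (TypE R ζ u0 v0) inf_le_left ?_) hc⟩
    intro x hx
    rw [mem_TypE]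
    have hx1 : ∀ v, x.1 (R v) = ζ * x.1 v := hx.1.1.1
    refine ⟨hx1, ?_⟩
    have hfl : x.1 a = x.1 b := hx.1.2.1
    obtain ⟨k, ⟨rfl, rfl⟩ | ⟨rfl, rfl⟩⟩ := hsp
    · rw [typ_pow hx1, typ_pow hx1] at hfl
      exact mul_left_cancel₀ (pow_ne_zero _ h.zeta_ne) hfl
    · rw [typ_pow hx1, typ_pow hx1] at hfl
      exact (mul_left_cancel₀ (pow_ne_zero _ h.zeta_ne) hfl).symm
  · obtain ⟨k, hk, e, d, j, hop⟩ := h.hcov a b hab hsp
    obtain ⟨c, -, hc⟩ := rado_ker (fun i b => if i = j then 0 else phi S rep i b)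
      (Typ R ζ ⊓ (LinearMap.ker (phi S rep j true) ⊓ LinearMap.ker (phi S rep j false)))
      m (fun _ => Finset.univ) (fun _ => Finset.univ_nonempty) (by
        intro J
        refine le_trans ?_ (h.bound_A (insert j J) (Finset.insert_nonempty _ _))
        apply Nat.add_le_add _ (Finset.card_le_card (Finset.subset_insert _ _))
        apply Submodule.finrank_mono
        refine le_trans ?_ (h.ker_le h.zeta_ne (insert j J))
        intro u hu
        simp only [Submodule.mem_inf, Submodule.mem_iInf] at hu ⊢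
        obtain ⟨⟨hu1, hu2, hu3⟩, hu4⟩ := hu
        refine ⟨hu1, ?_⟩
        intro i hi b' _
        by_cases hij : i = j
        · rw [hij]
          cases b'
          · exact hu3
          · exact hu2
        · have := hu4 i (by
            rcases Finset.mem_insert.1 hi with h5 | h5
            · exact absurd h5 hij
            · exact h5) b' (Finset.mem_univ _)
          rwa [if_neg hij] at this)
    rw [Fintype.card_fin] at hc
    have hc0 := Nat.le_of_add_le_add_right (hc.trans (Nat.zero_add m).ge)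
    obtain ⟨D, hD, hT, hM, h0⟩ := h.exists_D c
    refine ⟨D, hD, le_trans (h.red c D hT hM (-1) ζ _
      (Typ R ζ ⊓ (LinearMap.ker (phi S rep j true) ⊓ LinearMap.ker (phi S rep j false)))
      inf_le_left ?_) (le_trans (Submodule.finrank_mono ?_) hc0)⟩
    · intro x hx
      have hx1 : ∀ v, x.1 (R v) = ζ * x.1 v := hx.1.1.1
      have hx2 : ∀ v, x.2 v = -1 * x.1 (S v) := hx.1.1.2
      have hf1 : x.1 a = x.1 b := hx.1.2.1
      have hf2 : x.1 (S a) = x.1 (S b) := by
        have := hx.1.2.2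
        rw [hx2, hx2] at this
        linear_combination -this
      have hz : ∀ k : ℕ, ζ ^ k ≠ 0 := fun k => pow_ne_zero _ h.zeta_ne
      have h1 : a = (op R S k e d (rep j)).1 := by rw [← hop]
      have h2 : b = (op R S k e d (rep j)).2 := by rw [← hop]
      simp only [Submodule.mem_inf, mem_phi]
      refine ⟨hx1, ?_⟩
      rw [h1, h2] at hf1 hf2
      have hR : ∀ (k : ℕ) v, x.1 ((R ^ k) v) = ζ ^ k * x.1 v := fun k v => typ_pow hx1 k v
      cases e <;> cases d <;>
        simp only [op, pr, h.SR_apply, h.SS_apply, hR, if_true, if_false, mul_eq_mul_left_iff, hz, or_false,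
          Bool.false_eq_true] at hf1 hf2 ⊢ <;> constructor <;> first
            | exact hf1 | exact hf2 | exact hf1.symm | exact hf2.symm
    · apply inf_le_inf_left
      apply iInf_mono
      intro i
      by_cases hij : i = j
      · simp [hij]
      · rw [if_neg hij]

/-- TARGET 3. -/
theorem exists_beta {V : Type} [Fintype V] [DecidableEq V] (G : SimpleGraph V) [DecidableRel G.Adj]
    (R S : Equiv.Perm V) (ζ : ℂ) (u0 v0 : V) (m : ℕ) (rep : Fin m → V × V)
    (h : Dat G 2 R S ζ u0 v0 m rep) (ε : ℂ) (hε : ε = 1 ∨ ε = -1) :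
    ∃ D ∈ Dsp R ζ, finrank ℂ (KerX S G.Adj (XE R S ε 1) D) ≤ 1 := by
  obtain ⟨c, -, hc⟩ := rado_ker (phi S rep) (Typ R 1) (m + 1) (fun _ => Finset.univ)
    (fun _ => Finset.univ_nonempty) (by
      intro J
      refine le_trans ?_ (h.bound_B J)
      apply Nat.add_le_add_right
      apply Submodule.finrank_mono
      exact h.ker_le one_ne_zero J)
  rw [Fintype.card_fin] at hc
  obtain ⟨D, hD, hT, hM, h0⟩ := h.exists_D c
  refine ⟨D, hD, le_trans (h.red c D hT hM ε 1 _ (Typ R 1) le_rfl ?_) (by omega)⟩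
  intro x hx
  exact hx.1.1

end Pool.Agent.DihLaman
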