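import Pool.Agent.Helper927.DLDefs
import Pool.Agent.Helper927.DL599
set_option autoImplicit false
set_option maxHeartbeats 4000000
open Module Submodule

namespace Pool.Agent.DihLaman.J763
open Pool.Agent.DihLaman
open Pool.Agent.DihLaman.J599 (blk_mirror)
open Pool.Agent.DihLaman.J599 (blk_union)

theorem blk_back {V : Type} [Fintype V] [DecidableEq V] (G : SimpleGraph V) [DecidableRel G.Adj]
    (R S : Equiv.Perm V) (K : Finset V) (hK : Blk G R S K) (v : V) (hv : R v ∈ K) : v ∈ K := by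
  have himg : K.image R = K := by
    apply Finset.eq_of_subset_of_card_le
    · intro x hx
      obtain ⟨y, hy, rfl⟩ := Finset.mem_image.mp hx
      exact hK.2.1 y hy
    · rw [Finset.card_image_of_injective _ R.injective]
  rw [← himg] at hv
  obtain ⟨w, hw, hwv⟩ := Finset.mem_image.mp hv
  rwa [← R.injective hwv]

theorem blk_back_pow {V : Type} [Fintype V] [DecidableEq V] (G : SimpleGraph V)
    [DecidableRel G.Adj] (R S : Equiv.Perm V) (K : Finset V) (hK : Blk G R S K) (k : ℕ) :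
    ∀ v : V, (R ^ k) v ∈ K → v ∈ K := by
  induction k with
  | zero => intro v hv; simpa using hv
  | succ k ih =>
    intro v hv
    rw [pow_succ, Equiv.Perm.mul_apply] at hv
    exact blk_back G R S K hK v (ih (R v) hv)

/-- TARGET 1. -/
theorem B_facts {V : Type} [Fintype V] [DecidableEq V] (G : SimpleGraph V) [DecidableRel G.Adj]
    (R S : Equiv.Perm V) (ζ : ℂ) (u0 v0 : V) (m : ℕ) (rep : Fin m → V × V)
    (h : Dat G 3 R S ζ u0 v0 m rep)
    (B : V → V → Prop) (hB : ∀ a b, B a b ↔ ∃ K, Blk G R S K ∧ a ∈ K ∧ b ∈ K) :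
    (∀ a b, B a b → B b a) ∧ (∀ a b c, B a b → B b c → B a c) ∧ (∀ a b, B a b → B (R a) (R b)) ∧
    (∀ a, B a a → B a (R a)) ∧ (∀ a b, B (R a) (R b) → B a b) ∧ (∀ a b, B (S a) (S b) ↔ B a b) ∧
    (∀ a, ¬ B a (S a)) ∧ (∀ a b, Spec R u0 v0 a b → ¬ B a b) := by
  have hSSv : ∀ v, S (S v) = v := by
    intro v
    have := congrArg (fun f : Equiv.Perm V => f v) h.hSS
    simpa using this
  refine ⟨?_, ?_, ?_, ?_, ?_, ?_, ?_, ?_⟩
  · intro a b hab
    rw [hB] at hab ⊢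
    obtain ⟨K, hK, ha, hb⟩ := hab
    exact ⟨K, hK, hb, ha⟩
  · intro a b c hab hbc
    rw [hB] at hab hbc ⊢
    obtain ⟨K, hK, ha, hb⟩ := hab
    obtain ⟨K', hK', hb', hc⟩ := hbc
    refine ⟨K ∪ K', blk_union G R S h.hSS h.hSRS h.hfree h.hGS h.hsparse K K' hK hK'
      ⟨b, Finset.mem_inter.mpr ⟨hb, hb'⟩⟩, Finset.mem_union_left _ ha, Finset.mem_union_right _ hc⟩
  · intro a b hab
    rw [hB] at hab ⊢
    obtain ⟨K, hK, ha, hb⟩ := hab
    exact ⟨K, hK, hK.2.1 a ha, hK.2.1 b hb⟩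
  · intro a haa
    rw [hB] at haa ⊢
    obtain ⟨K, hK, ha, _⟩ := haa
    exact ⟨K, hK, ha, hK.2.1 a ha⟩
  · intro a b hab
    rw [hB] at hab ⊢
    obtain ⟨K, hK, ha, hb⟩ := hab
    exact ⟨K, hK, blk_back G R S K hK a ha, blk_back G R S K hK b hb⟩
  · intro a b
    constructor
    · intro hab
      rw [hB] at hab ⊢
      obtain ⟨K, hK, ha, hb⟩ := hab
      refine ⟨K.image S, blk_mirror G R S h.hSS h.hSRS h.hGS K hK, ?_, ?_⟩
      · exact Finset.mem_image.mpr ⟨S a, ha, hSSv a⟩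
      · exact Finset.mem_image.mpr ⟨S b, hb, hSSv b⟩
    · intro hab
      rw [hB] at hab ⊢
      obtain ⟨K, hK, ha, hb⟩ := hab
      exact ⟨K.image S, blk_mirror G R S h.hSS h.hSRS h.hGS K hK,
        Finset.mem_image_of_mem _ ha, Finset.mem_image_of_mem _ hb⟩
  · intro a haS
    rw [hB] at haS
    obtain ⟨K, hK, ha, hSa⟩ := haS
    exact hK.2.2.1 a ha hSa
  · rintro a b ⟨k, hk⟩ hab
    rw [hB] at hab
    obtain ⟨K, hK, ha, hb⟩ := hab
    have huv : u0 ∈ K ∧ v0 ∈ K := by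
      rcases hk with ⟨h1, h2⟩ | ⟨h1, h2⟩
      · rw [h1] at ha
        rw [h2] at hb
        exact ⟨blk_back_pow G R S K hK k u0 ha, blk_back_pow G R S K hK k v0 hb⟩
      · rw [h1] at ha
        rw [h2] at hb
        exact ⟨blk_back_pow G R S K hK k u0 hb, blk_back_pow G R S K hK k v0 ha⟩
    have hS := hK.2.2.1 u0 huv.1
    rcases h.h0S with ⟨h1, _⟩ | ⟨h1, _⟩
    · rw [h1] at hS
      exact hS huv.1
    · rw [h1] at hS
      exact hS huv.2

end Pool.Agent.DihLaman.J763
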