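import Pool.Agent.Helper927.DLDefs
import Pool.Agent.Helper927.DL390
import Pool.Agent.Helper927.DL469
import Pool.Agent.Helper927.DL759
import Pool.Agent.Helper927.DL760
import Pool.Agent.Helper927.DL763
set_option autoImplicit false
set_option maxHeartbeats 4000000
open Module Submodule

namespace Pool.Agent.DihLaman.J764
open Pool.Agent.DihLaman
open Pool.Agent.DihLaman.J763 (B_facts)
open Pool.Agent.DihLaman.J759 (combineX)
open Pool.Agent.DihLaman.J469 (count_B3)
open Pool.Agent.DihLaman.J760 (exists_dir3)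
open Pool.Agent.DihLaman.J390 (rado_ker)

section h730

variable {V : Type} [Fintype V] [DecidableEq V] {G : SimpleGraph V} [DecidableRel G.Adj]
  {R S : Equiv.Perm V} {ζ : ℂ} {u0 v0 : V} {m : ℕ} {rep : Fin m → V × V}

omit [Fintype V] [DecidableEq V] in
lemma h730_Rmod (hR : R ^ 3 = 1) (k : ℕ) : R ^ k = R ^ (k % 3) := by
  conv_lhs => rw [← Nat.div_add_mod k 3, pow_add, pow_mul, hR, one_pow, one_mul]

omit [Fintype V] in
lemma h730_Rpow_mem (hR : R ^ 3 = 1) {K : Finset V} (hK : ∀ v ∈ K, R v ∈ K) (k : ℕ) (v : V) :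
    (R ^ k) v ∈ K ↔ v ∈ K := by
  have h1 : ∀ k : ℕ, ∀ v ∈ K, (R ^ k) v ∈ K := by
    intro k
    induction k with
    | zero => intro v hv; simpa using hv
    | succ k ih =>
      intro v hv
      rw [pow_succ', Equiv.Perm.mul_apply]
      exact hK _ (ih v hv)
  refine ⟨fun h => ?_, h1 k v⟩
  have h2 := h1 (2 * k) _ h
  have h3 : (R ^ (2 * k)) ((R ^ k) v) = v := by
    rw [← Equiv.Perm.mul_apply, ← pow_add, show 2 * k + k = 3 * k by ring, pow_mul, hR, one_pow]
    rfl
  rwa [h3] at h2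

/-- which of the two pairs lies in K -/
def h730_c0 (K : Finset V) (rep : Fin m → V × V) (i : Fin m) : Bool :=
  decide ((rep i).1 ∈ K ∧ (rep i).2 ∈ K)

def h730_I (K : Finset V) (S : Equiv.Perm V) (rep : Fin m → V × V) : Finset (Fin m) :=
  Finset.univ.filter fun i => ((rep i).1 ∈ K ∧ (rep i).2 ∈ K) ∨ (S (rep i).1 ∈ K ∧ S (rep i).2 ∈ K)

def h730_U (K : Finset V) (R S : Equiv.Perm V) (rep : Fin m → V × V) (J : Finset (Fin m)) (a b : V) : Prop :=
  a ∈ K ∧ b ∈ K ∧ ∃ i ∈ J, ∃ k : ℕ, ∃ ε δ : Bool, (a, b) = op R S k ε δ (rep i)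

omit [Fintype V] in
lemma h730_q_mem {K : Finset V} {i : Fin m} (hi : i ∈ h730_I K S rep) :
    (pr S rep i (h730_c0 K rep i)).1 ∈ K ∧ (pr S rep i (h730_c0 K rep i)).2 ∈ K := by
  unfold h730_I at hi
  rw [Finset.mem_filter] at hi
  by_cases h : (rep i).1 ∈ K ∧ (rep i).2 ∈ K
  · have : h730_c0 K rep i = true := by unfold h730_c0; exact decide_eq_true h
    rw [this]; simpa [pr] using h
  · have : h730_c0 K rep i = false := by unfold h730_c0; exact decide_eq_false h
    rw [this]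
    rcases hi.2 with h' | h'
    · exact absurd h' h
    · simpa [pr] using h'

omit [Fintype V] in
/-- membership of op in K x K -/
lemma h730_op_mem (hR : R ^ 3 = 1) {K : Finset V} (hK : ∀ v ∈ K, R v ∈ K) (k : ℕ) (ε δ : Bool) (i : Fin m) :
    ((op R S k ε δ (rep i)).1 ∈ K ∧ (op R S k ε δ (rep i)).2 ∈ K) ↔
    ((pr S rep i (!ε)).1 ∈ K ∧ (pr S rep i (!ε)).2 ∈ K) := by
  cases ε <;> cases δ <;> simp [op, pr, h730_Rpow_mem hR hK, and_comm]

omit [Fintype V] in
lemma h730_eps (hR : R ^ 3 = 1) {K : Finset V} (hK : ∀ v ∈ K, R v ∈ K) (hKS : ∀ v ∈ K, S v ∉ K)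
    {k : ℕ} {ε δ : Bool} {i : Fin m}
    (h : (op R S k ε δ (rep i)).1 ∈ K ∧ (op R S k ε δ (rep i)).2 ∈ K) :
    ε = !(h730_c0 K rep i) := by
  rw [h730_op_mem hR hK] at h
  cases ε
  · simp only [Bool.not_false, pr, if_true] at h
    have : h730_c0 K rep i = true := by unfold h730_c0; exact decide_eq_true h
    rw [this]; rfl
  · simp only [Bool.not_true, pr] at h
    have h1 : S (rep i).1 ∈ K := by simpa using h.1
    have : h730_c0 K rep i = false := by
      unfold h730_c0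
      apply decide_eq_false
      intro hc
      exact hKS _ hc.1 h1
    rw [this]; rfl

omit [Fintype V] in
lemma h730_I_of_mem (hR : R ^ 3 = 1) {K : Finset V} (hK : ∀ v ∈ K, R v ∈ K)
    {k : ℕ} {ε δ : Bool} {i : Fin m}
    (h : (op R S k ε δ (rep i)).1 ∈ K ∧ (op R S k ε δ (rep i)).2 ∈ K) :
    i ∈ h730_I K S rep := by
  rw [h730_op_mem hR hK] at h
  unfold h730_I
  rw [Finset.mem_filter]
  refine ⟨Finset.mem_univ _, ?_⟩
  cases ε
  · left; simpa [pr] using h
  · right; simpa [pr] using h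

/-- op in terms of q -/
lemma h730_op_eq (k : ℕ) (ε δ : Bool) (i : Fin m) :
    op R S k ε δ (rep i) = if δ then ((R ^ k) (pr S rep i (!ε)).2, (R ^ k) (pr S rep i (!ε)).1)
      else ((R ^ k) (pr S rep i (!ε)).1, (R ^ k) (pr S rep i (!ε)).2) := by
  cases ε <;> cases δ <;> simp [op, pr]

lemma h730_pow_adj (h : Dat G 3 R S ζ u0 v0 m rep) (k : ℕ) (a b : V) (hab : G.Adj a b) :
    G.Adj ((R ^ k) a) ((R ^ k) b) := by
  induction k with
  | zero => simpa using hab
  | succ k ih =>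
    rw [pow_succ', Equiv.Perm.mul_apply, Equiv.Perm.mul_apply]
    exact (h.hGR _ _).2 ih

lemma h730_pr_adj (h : Dat G 3 R S ζ u0 v0 m rep) (i : Fin m) (b : Bool) :
    G.Adj (pr S rep i b).1 (pr S rep i b).2 := by
  cases b
  · simp only [pr, Bool.false_eq_true, if_false]; exact (h.hGS _ _).2 (h.hrepA i)
  · simp only [pr, if_true]; exact h.hrepA i

lemma h730_op_adj (h : Dat G 3 R S ζ u0 v0 m rep) (k : ℕ) (ε δ : Bool) (i : Fin m) :
    G.Adj (op R S k ε δ (rep i)).1 (op R S k ε δ (rep i)).2 := by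
  rw [h730_op_eq]
  cases δ
  · simp only [Bool.false_eq_true, if_false]; exact h730_pow_adj h k _ _ (h730_pr_adj h i _)
  · simp only [if_true]; exact h730_pow_adj h k _ _ (h730_pr_adj h i _).symm

lemma h730_U_adj (h : Dat G 3 R S ζ u0 v0 m rep) {K : Finset V} {J : Finset (Fin m)} {a b : V}
    (hU : h730_U K R S rep J a b) : G.Adj a b := by
  obtain ⟨_, _, i, _, k, ε, δ, he⟩ := hU
  have := h730_op_adj h k ε δ i
  rw [← he] at this
  exact this

lemma h730_U_card (h : Dat G 3 R S ζ u0 v0 m rep) {K : Finset V} (hK : ∀ v ∈ K, R v ∈ K)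
    (hKS : ∀ v ∈ K, S v ∉ K) {J : Finset (Fin m)} (hJ : J ⊆ h730_I K S rep)
    (s : Finset (V × V)) (hs : ∀ x : V × V, x ∈ s ↔ h730_U K R S rep J x.1 x.2) :
    s.card = 6 * J.card := by
  have hR : R ^ 3 = 1 := h.hRn
  have himg : s = (J ×ˢ (Finset.range 3 ×ˢ (Finset.univ : Finset Bool))).image
      (fun t => op R S t.2.1 (!(h730_c0 K rep t.1)) t.2.2 (rep t.1)) := by
    ext x
    rw [hs, Finset.mem_image]
    constructor
    · rintro ⟨h1, h2, i, hi, k, ε, δ, he⟩
      have he' : x = op R S k ε δ (rep i) := he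
      have hm : (op R S k ε δ (rep i)).1 ∈ K ∧ (op R S k ε δ (rep i)).2 ∈ K := by
        rw [← he']; exact ⟨h1, h2⟩
      have hε := h730_eps hR hK hKS hm
      refine ⟨(i, k % 3, δ), ?_, ?_⟩
      · simp only [Finset.mem_product, Finset.mem_range, Finset.mem_univ, and_true]
        exact ⟨hi, Nat.mod_lt _ (by norm_num)⟩
      · simp only
        rw [he', ← hε]
        unfold op
        rw [← h730_Rmod hR k]
    · rintro ⟨⟨i, k, δ⟩, hm, rfl⟩
      simp only [Finset.mem_product, Finset.mem_range, Finset.mem_univ, and_true] at hm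
      have hmem : (op R S k (!(h730_c0 K rep i)) δ (rep i)).1 ∈ K ∧
          (op R S k (!(h730_c0 K rep i)) δ (rep i)).2 ∈ K := by
        rw [h730_op_mem hR hK, Bool.not_not]
        exact h730_q_mem (hJ hm.1)
      exact ⟨hmem.1, hmem.2, i, hm.1, k, _, δ, rfl⟩
  rw [himg, Finset.card_image_of_injOn]
  · simp only [Finset.card_product, Finset.card_range, Finset.card_univ, Fintype.card_bool]
    ring
  · rintro ⟨i, k, δ⟩ h1 ⟨i', k', δ'⟩ h2 he
    simp only [Finset.coe_product, Set.mem_prod, Finset.mem_coe, Finset.mem_range] at h1 h2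
    have := h.huniq k k' h1.2.1 h2.2.1 _ _ δ δ' i i' he
    obtain ⟨h3, _, h5, h6⟩ := this
    subst h3; subst h5; subst h6
    rfl

lemma h730_pow_u (x : V → ℂ) (η : ℂ) (hx : ∀ v, x (R v) = η * x v) (k : ℕ) (v : V) :
    x ((R ^ k) v) = η ^ k * x v := by
  induction k with
  | zero => simp
  | succ k ih => rw [pow_succ', Equiv.Perm.mul_apply, hx, ih, pow_succ]; ring

lemma h730_count (h : Dat G 3 R S ζ u0 v0 m rep) {K : Finset V} (hK : Blk G R S K)
    {J : Finset (Fin m)} (hJ : J ⊆ h730_I K S rep) :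
    finrank ℂ (TypK R (ζ ^ 2) K (h730_U K R S rep J)) + J.card ≤ (h730_I K S rep).card + 1 := by
  classical
  obtain ⟨hne, hKR, hKS, hcard⟩ := hK
  have hR : R ^ 3 = 1 := h.hRn
  have hB := B_facts G R S ζ u0 v0 m rep h (fun a b => ∃ K, Blk G R S K ∧ a ∈ K ∧ b ∈ K)
    (fun a b => Iff.rfl)
  have hspec := hB.2.2.2.2.2.2.2
  have h1 := h730_U_card h hKR hKS (Finset.Subset.refl (h730_I K S rep))
    ((K ×ˢ K).filter (fun x : V × V => G.Adj x.1 x.2)) (by
      intro x
      rw [Finset.mem_filter, Finset.mem_product]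
      constructor
      · rintro ⟨⟨hx1, hx2⟩, hadj⟩
        have hns : ¬ Spec R u0 v0 x.1 x.2 := fun hs =>
          hspec _ _ hs ⟨K, ⟨hne, hKR, hKS, hcard⟩, hx1, hx2⟩
        obtain ⟨k, _, ε, δ, i, he⟩ := h.hcov _ _ hadj hns
        have he' : x = op R S k ε δ (rep i) := he
        refine ⟨hx1, hx2, i, ?_, k, ε, δ, he⟩
        apply h730_I_of_mem hR hKR (k := k) (ε := ε) (δ := δ)
        rw [← he']; exact ⟨hx1, hx2⟩
      · rintro hU
        exact ⟨⟨hU.1, hU.2.1⟩, h730_U_adj h hU⟩)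
  have h2 := h730_U_card h hKR hKS hJ
    (Finset.univ.filter (fun x : V × V => h730_U K R S rep J x.1 x.2)) (by
      intro x; rw [Finset.mem_filter]; exact ⟨fun hx => hx.2, fun hx => ⟨Finset.mem_univ _, hx⟩⟩)
  have hη : (ζ ^ 2) ^ 3 = 1 := by rw [← pow_mul, show 2 * 3 = 3 * 2 by norm_num, pow_mul, h.hζ, one_pow]
  have hη1 : ζ ^ 2 ≠ 1 := by
    intro hc
    apply h.hζ1
    have : ζ ^ 3 = 1 := h.hζ
    calc ζ = ζ ^ 2 * ζ := by rw [hc, one_mul]
      _ = ζ ^ 3 := by ring
      _ = 1 := this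
  have h3 := count_B3 R hR h.hfree K hKR (h730_U K R S rep J) (fun a b hU => ⟨hU.1, hU.2.1⟩)
    (fun a hU => G.loopless.irrefl a (h730_U_adj h hU))
    (by
      rintro a b ⟨ha, hb, i, hi, k, ε, δ, he⟩
      refine ⟨hb, ha, i, hi, k, ε, !δ, ?_⟩
      rw [h730_op_eq] at he ⊢
      cases δ
      · simp only [Bool.false_eq_true, if_false, Prod.mk.injEq] at he
        simp only [Bool.not_false, if_true, he.1, he.2]
      · simp only [if_true, Prod.mk.injEq] at he
        simp only [Bool.not_true, Bool.false_eq_true, if_false, he.1, he.2])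
    (by
      rintro a b ⟨ha, hb, i, hi, k, ε, δ, he⟩
      refine ⟨hKR a ha, hKR b hb, i, hi, k + 1, ε, δ, ?_⟩
      rw [h730_op_eq] at he ⊢
      cases δ
      · simp only [Bool.false_eq_true, if_false, Prod.mk.injEq] at he
        simp only [Bool.false_eq_true, if_false, he.1, he.2, pow_succ', Equiv.Perm.mul_apply]
      · simp only [if_true, Prod.mk.injEq] at he
        simp only [if_true, he.1, he.2, pow_succ', Equiv.Perm.mul_apply])
    (by
      intro C hC
      refine le_trans (Nat.add_le_add_right (Finset.card_le_card ?_) 6) (h.hsparse C hC)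
      intro x hx
      rw [Finset.mem_filter] at hx ⊢
      exact ⟨hx.1, h730_U_adj h hx.2⟩)
    (ζ ^ 2) hη hη1
  rw [h2] at h3
  rw [h1] at hcard
  omega

/-- the difference functional at a pair -/
def h730_dif (b : Bool) (p : V × V) : ((V → ℂ) × (V → ℂ)) →ₗ[ℂ] ℂ where
  toFun x := if b then x.1 p.1 - x.1 p.2 else x.2 p.1 - x.2 p.2
  map_add' x y := by cases b <;> simp <;> ring
  map_smul' c x := by cases b <;> simp <;> ring

end h730

/-- TARGET 1. -/
theorem exists_blockgood {V : Type} [Fintype V] [DecidableEq V] (G : SimpleGraph V) [DecidableRel G.Adj]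
    (R S : Equiv.Perm V) (ζ : ℂ) (u0 v0 : V) (m : ℕ) (rep : Fin m → V × V)
    (h : Dat G 3 R S ζ u0 v0 m rep)
    (K : Finset V) (hK : Blk G R S K) :
    ∃ D ∈ Dsp R ζ, finrank ℂ (KerX S (fun a b => G.Adj a b ∧ a ∈ K ∧ b ∈ K) (XF R ζ ⊓ Supp K) D) ≤ 1 := by
  classical
  have hR : R ^ 3 = 1 := h.hRn
  have hSS : ∀ v, S (S v) = v := fun v => by
    rw [← Equiv.Perm.mul_apply, h.hSS]; rfl
  set I := h730_I K S rep with hI
  let q : Fin m → V × V := fun i => pr S rep i (h730_c0 K rep i)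
  let φ : Fin m → Bool → (((V → ℂ) × (V → ℂ)) →ₗ[ℂ] ℂ) := fun i b => if i ∈ I then h730_dif b (q i) else 0
  obtain ⟨c, _, hc⟩ := rado_ker φ (TypK R (ζ ^ 2) K (fun _ _ => False)) (m + 1) (fun _ => Finset.univ)
    (fun i => ⟨true, Finset.mem_univ _⟩) (by
      intro J
      have hle : (TypK R (ζ ^ 2) K (fun _ _ => False) ⊓ (⨅ i ∈ J, ⨅ b ∈ (Finset.univ : Finset Bool),
          LinearMap.ker (φ i b)) : Submodule ℂ ((V → ℂ) × (V → ℂ))) ≤
          TypK R (ζ ^ 2) K (h730_U K R S rep (J ∩ I)) := by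
        intro x hx
        obtain ⟨hx1, hx2⟩ := Submodule.mem_inf.1 hx
        obtain ⟨t1, t2, t3, _⟩ := hx1
        refine ⟨t1, t2, t3, ?_⟩
        rintro a b ⟨ha, hb, i, hi, k, ε, δ, he⟩
        have hiJ := (Finset.mem_inter.1 hi).1
        have hiI := (Finset.mem_inter.1 hi).2
        simp only [Submodule.mem_iInf] at hx2
        have e1 := hx2 i hiJ true (Finset.mem_univ _)
        have e2 := hx2 i hiJ false (Finset.mem_univ _)
        simp only [φ, if_pos hiI, LinearMap.mem_ker, h730_dif, LinearMap.coe_mk, AddHom.coe_mk, if_true,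
          Bool.false_eq_true, if_false] at e1 e2
        have e1' : x.1 (q i).1 = x.1 (q i).2 := sub_eq_zero.1 e1
        have e2' : x.2 (q i).1 = x.2 (q i).2 := sub_eq_zero.1 e2
        have he' : (a, b) = op R S k ε δ (rep i) := he
        have hε : ε = !(h730_c0 K rep i) := by
          apply h730_eps hR hK.2.1 hK.2.2.1 (k := k) (δ := δ)
          rw [← he']; exact ⟨ha, hb⟩
        have hq : pr S rep i (!ε) = q i := by rw [hε, Bool.not_not]
        rw [h730_op_eq, hq] at he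
        have p1 : ∀ v, x.1 ((R ^ k) v) = (ζ ^ 2) ^ k * x.1 v := h730_pow_u x.1 (ζ ^ 2) t1 k
        have p2 : ∀ v, x.2 ((R ^ k) v) = (1 : ℂ) ^ k * x.2 v :=
          h730_pow_u x.2 1 (fun v => by rw [one_mul]; exact t2 v) k
        cases δ
        · simp only [Bool.false_eq_true, if_false, Prod.mk.injEq] at he
          rw [he.1, he.2, p1, p1, p2, p2, e1', e2']
          exact ⟨rfl, rfl⟩
        · simp only [if_true, Prod.mk.injEq] at he
          rw [he.1, he.2, p1, p1, p2, p2, e1', e2']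
          exact ⟨rfl, rfl⟩
      have h1 := Submodule.finrank_mono hle
      have h2 := h730_count h hK (J := J ∩ I) Finset.inter_subset_right
      have h3 : J.card = (J ∩ I).card + (J \ I).card := (Finset.card_inter_add_card_sdiff J I).symm
      have h4 : I.card + (J \ I).card ≤ m := by
        have : (I ∪ (J \ I)).card ≤ (Finset.univ : Finset (Fin m)).card := Finset.card_le_card (Finset.subset_univ _)
        rw [Finset.card_union_of_disjoint Finset.disjoint_sdiff, Finset.card_univ, Fintype.card_fin] at this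
        exact this
      rw [← hI] at h2
      omega)
  rw [Fintype.card_fin] at hc
  have hc1 : finrank ℂ (TypK R (ζ ^ 2) K (fun _ _ => False) ⊓ (⨅ i, LinearMap.ker (φ i (c i))) :
      Submodule ℂ ((V → ℂ) × (V → ℂ))) ≤ 1 := by omega
  obtain ⟨D, hD, hd, hd', _⟩ := exists_dir3 G 3 R S ζ u0 v0 m rep h
    (fun i => if c i = h730_c0 K rep i then 0 else 1) (fun i => if c i = h730_c0 K rep i then 1 else 0) 0
  refine ⟨D, hD, le_trans (Submodule.finrank_mono ?_) hc1⟩
  rintro x ⟨hx, hrow⟩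
  obtain ⟨hx1, hx2⟩ := Submodule.mem_inf.1 hx
  refine Submodule.mem_inf.2 ⟨⟨hx1.1, hx1.2, hx2, fun a b hf => hf.elim⟩, ?_⟩
  rw [Submodule.mem_iInf]
  intro i
  rw [LinearMap.mem_ker]
  by_cases hi : i ∈ I
  · simp only [φ, if_pos hi]
    have hm := h730_q_mem hi
    have hadj := h730_pr_adj h i (h730_c0 K rep i)
    have hr := hrow (q i).1 (q i).2 ⟨hadj, hm.1, hm.2⟩
    have d1 := hd i
    have d2 := hd' i
    have hq1 : D (q i).1 (q i).2 = if c i then 0 else 1 := by
      cases hb : h730_c0 K rep i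
      · have : q i = (S (rep i).1, S (rep i).2) := by simp only [q, hb, pr]; simp
        rw [this]; simp only
        rw [d2, hb]; cases c i <;> simp
      · have : q i = rep i := by simp only [q, hb, pr]; simp
        rw [this]
        rw [d1, hb]
    have hq2 : D (S (q i).1) (S (q i).2) = if c i then 1 else 0 := by
      cases hb : h730_c0 K rep i
      · have : q i = (S (rep i).1, S (rep i).2) := by simp only [q, hb, pr]; simp
        rw [this]; simp only [hSS]
        rw [d1, hb]; cases c i <;> simp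
      · have : q i = rep i := by simp only [q, hb, pr]; simp
        rw [this]
        rw [d2, hb]
    rw [hq1, hq2] at hr
    cases hci : c i
    · simp only [hci, h730_dif, LinearMap.coe_mk, AddHom.coe_mk, Bool.false_eq_true, if_false] at hr ⊢
      linear_combination hr
    · simp only [hci, h730_dif, LinearMap.coe_mk, AddHom.coe_mk, if_true] at hr ⊢
      linear_combination hr
  · simp only [φ, if_neg hi, LinearMap.zero_apply]

/-- TARGET 2. -/
theorem exists_DB {V : Type} [Fintype V] [DecidableEq V] (G : SimpleGraph V) [DecidableRel G.Adj]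
    (R S : Equiv.Perm V) (ζ : ℂ) (u0 v0 : V) (m : ℕ) (rep : Fin m → V × V)
    (h : Dat G 3 R S ζ u0 v0 m rep)
    (B : V → V → Prop) (hB : ∀ a b, B a b ↔ ∃ K, Blk G R S K ∧ a ∈ K ∧ b ∈ K) :
    ∃ DB ∈ Dsp R ζ, ∀ x ∈ XF R ζ, (∀ a b, G.Adj a b → B a b →
      DB (S a) (S b) * (x.1 a - x.1 b) + DB a b * (x.2 a - x.2 b) = 0) → x ∈ Qb R ζ B := by
  classical
  have hR : R ^ 3 = 1 := h.hRn
  obtain ⟨DB, hDB, hfin⟩ := combineX (ι := {K : Finset V // Blk G R S K}) R S ζ
    (fun K a b => G.Adj a b ∧ a ∈ K.1 ∧ b ∈ K.1) (fun K => XF R ζ ⊓ Supp K.1) (fun _ => 1)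
    (fun K => exists_blockgood G R S ζ u0 v0 m rep h K.1 K.2)
  refine ⟨DB, hDB, ?_⟩
  intro x hx hrow
  have key : ∀ K, Blk G R S K → (∀ a ∈ K, x.1 a = 0) ∧ ∀ a ∈ K, ∀ b ∈ K, x.2 a = x.2 b := by
    intro K hK
    have hRK : ∀ v, R v ∈ K ↔ v ∈ K := fun v => by
      have := h730_Rpow_mem hR hK.2.1 1 v
      simpa using this
    have hf := hfin ⟨K, hK⟩
    simp only at hf
    let y : (V → ℂ) × (V → ℂ) := (fun v => if v ∈ K then x.1 v else 0, fun v => if v ∈ K then x.2 v else 0)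
    let z : (V → ℂ) × (V → ℂ) := (fun _ => 0, fun v => if v ∈ K then 1 else 0)
    have hy : y ∈ KerX S (fun a b => G.Adj a b ∧ a ∈ K ∧ b ∈ K) (XF R ζ ⊓ Supp K) DB := by
      refine ⟨Submodule.mem_inf.2 ⟨⟨?_, ?_⟩, ?_⟩, ?_⟩
      · intro v
        simp only [y, hRK]
        split_ifs
        · exact hx.1 v
        · simp
      · intro v
        simp only [y, hRK]
        split_ifs
        · exact hx.2 v
        · rfl
      · intro v hv
        simp only [y, if_neg hv, and_self]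
      · rintro a b ⟨hab, ha, hb⟩
        simp only [y, if_pos ha, if_pos hb]
        exact hrow a b hab ((hB a b).2 ⟨K, hK, ha, hb⟩)
    have hz : z ∈ KerX S (fun a b => G.Adj a b ∧ a ∈ K ∧ b ∈ K) (XF R ζ ⊓ Supp K) DB := by
      refine ⟨Submodule.mem_inf.2 ⟨⟨?_, ?_⟩, ?_⟩, ?_⟩
      · intro v; simp [z]
      · intro v; simp only [z, hRK]
      · intro v hv
        simp only [z, if_neg hv, and_self]
      · rintro a b ⟨hab, ha, hb⟩
        simp only [z, if_pos ha, if_pos hb]; ring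
    obtain ⟨v1, hv1⟩ := hK.1
    have hz0 : (⟨z, hz⟩ : KerX S (fun a b => G.Adj a b ∧ a ∈ K ∧ b ∈ K) (XF R ζ ⊓ Supp K) DB) ≠ 0 := by
      intro hc
      have h1 : z = 0 := congrArg Subtype.val hc
      have h2 : z.2 v1 = 0 := by rw [h1]; rfl
      simp only [z, if_pos hv1] at h2
      exact one_ne_zero h2
    obtain ⟨t, ht⟩ : ∃ t : ℂ, t • (⟨z, hz⟩ : KerX S (fun a b => G.Adj a b ∧ a ∈ K ∧ b ∈ K) (XF R ζ ⊓ Supp K) DB) =
        ⟨y, hy⟩ := by
      have hspan := finrank_le_one_iff.1 hf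
      obtain ⟨w, hw⟩ := hspan
      obtain ⟨c1, hc1⟩ := hw ⟨z, hz⟩
      obtain ⟨c2, hc2⟩ := hw ⟨y, hy⟩
      have hc10 : c1 ≠ 0 := by
        rintro rfl
        apply hz0
        rw [← hc1, zero_smul]
      refine ⟨c2 / c1, ?_⟩
      rw [← hc1, ← hc2, smul_smul, div_mul_cancel₀ _ hc10]
    have hyz : y = t • z := (congrArg Subtype.val ht).symm
    constructor
    · intro a ha
      have := congrFun (congrArg Prod.fst hyz) a
      simpa [y, z, ha] using this
    · intro a ha b hb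
      have e1 := congrFun (congrArg Prod.snd hyz) a
      have e2 := congrFun (congrArg Prod.snd hyz) b
      simp [y, z, ha] at e1
      simp [y, z, hb] at e2
      rw [e1, e2]
  refine ⟨hx, ?_, ?_⟩
  · intro a ha
    obtain ⟨K, hK, h1, _⟩ := (hB a a).1 ha
    exact (key K hK).1 a h1
  · intro a b hab
    obtain ⟨K, hK, h1, h2⟩ := (hB a b).1 hab
    exact (key K hK).2 a h1 b h2

end Pool.Agent.DihLaman.J764
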