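import Pool.Agent.Helper927.DLDefs
import Pool.Agent.Helper927.DL411
import Pool.Agent.Helper927.DL760
import Pool.Agent.Helper927.DL763
set_option autoImplicit false
set_option maxHeartbeats 4000000
open Module Submodule

namespace Pool.Agent.DihLaman.J765
open Pool.Agent.DihLaman
open Pool.Agent.DihLaman.J763 (B_facts)
open Pool.Agent.DihLaman.J760 (exists_dir3)
open Pool.Agent.DihLaman.J411 (pencil)

theorem Dsp_pow {V : Type} (R : Equiv.Perm V) (ζ : ℂ) (D : V → V → ℂ) (hD : D ∈ Dsp R ζ)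
    (k : ℕ) (a b : V) : D ((R ^ k) a) ((R ^ k) b) = ζ ^ k * D a b := by
  induction k with
  | zero => simp
  | succ k ih =>
    have h1 : ∀ x, (R ^ (k + 1)) x = R ((R ^ k) x) := by
      intro x
      rw [pow_succ', Equiv.Perm.mul_apply]
    rw [h1, h1, hD.2, ih, pow_succ]
    ring

theorem Dsp_op {V : Type} (R S : Equiv.Perm V) (ζ : ℂ) (D : V → V → ℂ) (hD : D ∈ Dsp R ζ)
    (k : ℕ) (ε δ : Bool) (p : V × V) :
    D (op R S k ε δ p).1 (op R S k ε δ p).2 =
      (if δ then -1 else 1) * (ζ ^ k * (if ε then D (S p.1) (S p.2) else D p.1 p.2)) := by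
  unfold op
  cases ε <;> cases δ
  · simp [Dsp_pow R ζ D hD]
  · simp only [if_true, Bool.false_eq_true, if_false]
    rw [hD.1, Dsp_pow R ζ D hD]; ring
  · simp [Dsp_pow R ζ D hD]
  · simp only [if_true]
    rw [hD.1, Dsp_pow R ζ D hD]; ring

theorem B_op {V : Type} (R S : Equiv.Perm V) (B : V → V → Prop)
    (hBs : ∀ a b, B a b → B b a) (hBR' : ∀ a b, B (R a) (R b) → B a b)
    (hBS : ∀ a b, B (S a) (S b) ↔ B a b) (k : ℕ) (ε δ : Bool) (p : V × V)
    (h : B (op R S k ε δ p).1 (op R S k ε δ p).2) : B p.1 p.2 := by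
  have hpow : ∀ k : ℕ, ∀ a b, B ((R ^ k) a) ((R ^ k) b) → B a b := by
    intro k
    induction k with
    | zero => intro a b h; simpa using h
    | succ k ih =>
      intro a b h
      have h1 : ∀ x, (R ^ (k + 1)) x = R ((R ^ k) x) := by
        intro x
        rw [pow_succ', Equiv.Perm.mul_apply]
      rw [h1, h1] at h
      exact ih a b (hBR' _ _ h)
  unfold op at h
  cases ε <;> cases δ
  · exact hpow k _ _ (by simpa using h)
  · exact hpow k _ _ (hBs _ _ (by simpa using h))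
  · exact (hBS _ _).mp (hpow k _ _ (by simpa using h))
  · exact (hBS _ _).mp (hpow k _ _ (hBs _ _ (by simpa using h)))

theorem Spec_mirror {V : Type} [Fintype V] [DecidableEq V] (G : SimpleGraph V) [DecidableRel G.Adj]
    (R S : Equiv.Perm V) (ζ : ℂ) (u0 v0 : V) (m : ℕ) (rep : Fin m → V × V)
    (h : Dat G 3 R S ζ u0 v0 m rep) (a b : V) (hs : Spec R u0 v0 (S a) (S b)) :
    Spec R u0 v0 a b := by
  have hRinv : R⁻¹ = R ^ 2 := by
    have h3 := h.hRn
    rw [inv_eq_iff_mul_eq_one, ← pow_succ']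
    exact h3
  have hconj : ∀ k : ℕ, S * R ^ k * S = R ^ (2 * k) := by
    intro k
    have hSinv : S⁻¹ = S := inv_eq_of_mul_eq_one_left h.hSS
    have h1 : S * R ^ k * S⁻¹ = (S * R * S⁻¹) ^ k := conj_pow.symm
    rw [hSinv, h.hSRS, hRinv, ← pow_mul] at h1
    exact h1
  have hSSx : ∀ x, S (S x) = x := by
    intro x
    rw [← Equiv.Perm.mul_apply, h.hSS, Equiv.Perm.one_apply]
  have hmv : ∀ (k : ℕ) (x y : V), S x = (R ^ k) y → x = (R ^ (2 * k)) (S y) := by
    intro k x y hxy
    rw [← hconj k, Equiv.Perm.mul_apply, Equiv.Perm.mul_apply, hSSx, ← hxy, hSSx]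
  obtain ⟨k, hk⟩ := hs
  refine ⟨2 * k, ?_⟩
  rcases hk with ⟨h1, h2⟩ | ⟨h1, h2⟩
  · have e1 := hmv k a u0 h1
    have e2 := hmv k b v0 h2
    rcases h.h0S with ⟨f1, f2⟩ | ⟨f1, f2⟩
    · rw [f1] at e1; rw [f2] at e2
      exact Or.inl ⟨e1, e2⟩
    · rw [f1] at e1; rw [f2] at e2
      exact Or.inr ⟨e1, e2⟩
  · have e1 := hmv k a v0 h1
    have e2 := hmv k b u0 h2
    rcases h.h0S with ⟨f1, f2⟩ | ⟨f1, f2⟩
    · rw [f2] at e1; rw [f1] at e2
      exact Or.inr ⟨e1, e2⟩
    · rw [f2] at e1; rw [f1] at e2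
      exact Or.inl ⟨e1, e2⟩

/-- first map of the pencil -/
noncomputable def limA {V : Type} {m : ℕ} (S : V → V) (rep : Fin m → V × V) (B : V → V → Prop)
    (c : Fin m → Bool) (τ : Fin m → ℂ) (Y : Submodule ℂ ((V → ℂ) × (V → ℂ))) :
    Y →ₗ[ℂ] (Fin m → ℂ) × (Fin m → ℂ) := by
  classical
  exact
  { toFun := fun y => (fun i => if B (rep i).1 (rep i).2 then 0 else
        (y.1.1 (pr S rep i (c i)).1 - y.1.1 (pr S rep i (c i)).2) +
          τ i * (y.1.2 (pr S rep i (c i)).1 - y.1.2 (pr S rep i (c i)).2),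
      fun i => if B (rep i).1 (rep i).2 then 0 else
        y.1.2 (S (pr S rep i (c i)).1) - y.1.2 (S (pr S rep i (c i)).2))
    map_add' := by
      intro x y
      ext i
      · simp only [Submodule.coe_add, Prod.fst_add, Prod.snd_add, Pi.add_apply]
        split_ifs
        · simp
        · ring
      · simp only [Submodule.coe_add, Prod.snd_add, Pi.add_apply]
        split_ifs
        · simp
        · ring
    map_smul' := by
      intro t x
      ext i
      · simp only [Submodule.coe_smul, Prod.smul_fst, Prod.smul_snd, Pi.smul_apply, smul_eq_mul,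
          RingHom.id_apply]
        split_ifs
        · simp
        · ring
      · simp only [Submodule.coe_smul, Prod.smul_snd, Pi.smul_apply, smul_eq_mul,
          RingHom.id_apply]
        split_ifs
        · simp
        · ring }

/-- second map of the pencil -/
noncomputable def limB {V : Type} {m : ℕ} (S : V → V) (rep : Fin m → V × V) (B : V → V → Prop)
    (c : Fin m → Bool) (τ : Fin m → ℂ) (Y : Submodule ℂ ((V → ℂ) × (V → ℂ))) :
    Y →ₗ[ℂ] (Fin m → ℂ) × (Fin m → ℂ) := by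
  classical
  exact
  { toFun := fun y => (0,
      fun i => if B (rep i).1 (rep i).2 then 0 else
        τ i * (y.1.1 (S (pr S rep i (c i)).1) - y.1.1 (S (pr S rep i (c i)).2)))
    map_add' := by
      intro x y
      ext i
      · simp
      · simp only [Submodule.coe_add, Prod.fst_add, Prod.snd_add, Pi.add_apply]
        split_ifs
        · simp
        · ring
    map_smul' := by
      intro t x
      ext i
      · simp
      · simp only [Submodule.coe_smul, Prod.smul_fst, Prod.smul_snd, Pi.smul_apply, smul_eq_mul,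
          RingHom.id_apply]
        split_ifs
        · simp
        · ring }

/-- TARGET 1. -/
theorem limit_lemma {V : Type} [Fintype V] [DecidableEq V] (G : SimpleGraph V) [DecidableRel G.Adj]
    (R S : Equiv.Perm V) (ζ : ℂ) (u0 v0 : V) (m : ℕ) (rep : Fin m → V × V)
    (h : Dat G 3 R S ζ u0 v0 m rep)
    (B : V → V → Prop) (hB : ∀ a b, B a b ↔ ∃ K, Blk G R S K ∧ a ∈ K ∧ b ∈ K)
    (DB : V → V → ℂ) (hDB : DB ∈ Dsp R ζ)
    (hgood : ∀ x ∈ XF R ζ, (∀ a b, G.Adj a b → B a b →
      DB (S a) (S b) * (x.1 a - x.1 b) + DB a b * (x.2 a - x.2 b) = 0) → x ∈ Qb R ζ B)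
    (Z : Submodule ℂ ((V → ℂ) × (V → ℂ))) (hZ : ∀ (c : ℂ), ∀ x ∈ Z, (c • x.1, x.2) ∈ Z)
    (c : Fin m → Bool) (τ : Fin m → ℂ) :
    ∃ D ∈ Dsp R ζ, finrank ℂ (KerX S (fun a b => G.Adj a b ∧ ¬ Spec R u0 v0 a b) (XF R ζ ⊓ Z) D)
      ≤ finrank ℂ (LimK S rep (fun i => ¬ B (rep i).1 (rep i).2) c τ (Qb R ζ B ⊓ Z)) := by
  classical
  obtain ⟨hBs, -, -, -, hBR', hBS, -, hSpB⟩ := B_facts G R S ζ u0 v0 m rep h B hB
  set Y : Submodule ℂ ((V → ℂ) × (V → ℂ)) := Qb R ζ B ⊓ Z with hY
  set A := limA S rep B c τ Y with hA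
  set B' := limB S rep B c τ Y with hB'
  have hbad := pencil A B'
  have hinj : Function.Injective (fun n : ℕ => ((n : ℂ) + 1) ^ 2) := by
    intro p q hpq
    simp only at hpq
    have h1 : ((((p + 1) ^ 2 : ℕ)) : ℂ) = (((q + 1) ^ 2 : ℕ) : ℂ) := by push_cast; exact hpq
    have h2 : (p + 1) ^ 2 = (q + 1) ^ 2 := by exact_mod_cast h1
    have h3 := Nat.pow_left_injective (n := 2) (by norm_num) h2
    omega
  obtain ⟨ρ, ⟨n0, hn0⟩, hρ⟩ := (Set.infinite_range_of_injective hinj).exists_notMem_finite hbad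
  simp only at hn0
  set σ : ℂ := (n0 : ℂ) + 1 with hσ
  have hσ0 : σ ≠ 0 := by
    rw [hσ]
    exact_mod_cast Nat.succ_ne_zero n0
  have hrank : finrank ℂ (LinearMap.ker (A + σ ^ 2 • B')) ≤ finrank ℂ (LinearMap.ker A) := by
    by_contra hcon
    apply hρ
    rw [← hn0]
    exact not_le.mp hcon
  -- the directions
  obtain ⟨D, hD, hd, hd', -⟩ := exists_dir3 G 3 R S ζ u0 v0 m rep h
    (fun i => if B (rep i).1 (rep i).2 then DB (rep i).1 (rep i).2 else
      if c i then σ * τ i else 1)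
    (fun i => if B (rep i).1 (rep i).2 then DB (S (rep i).1) (S (rep i).2) else
      if c i then 1 else σ * τ i) 0
  have hSSx : ∀ x, S (S x) = x := by
    intro x
    rw [← Equiv.Perm.mul_apply, h.hSS, Equiv.Perm.one_apply]
  have hDDB : ∀ a b, G.Adj a b → B a b → D a b = DB a b := by
    intro a b hab hBab
    have hns : ¬ Spec R u0 v0 a b := fun hs => hSpB a b hs hBab
    obtain ⟨k, -, ε, δ, i, hop⟩ := h.hcov a b hab hns
    have ea : a = (op R S k ε δ (rep i)).1 := by rw [← hop]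
    have eb : b = (op R S k ε δ (rep i)).2 := by rw [← hop]
    have hBi : B (rep i).1 (rep i).2 := by
      apply B_op R S B hBs hBR' hBS k ε δ (rep i)
      rw [← ea, ← eb]; exact hBab
    rw [ea, eb, Dsp_op R S ζ D hD, Dsp_op R S ζ DB hDB, hd i, hd' i, if_pos hBi, if_pos hBi]
  have hprA : ∀ i, G.Adj (pr S rep i (c i)).1 (pr S rep i (c i)).2 := by
    intro i
    unfold pr
    split_ifs
    · exact h.hrepA i
    · exact (h.hGS _ _).mpr (h.hrepA i)
  have hprS : ∀ i, ¬ Spec R u0 v0 (pr S rep i (c i)).1 (pr S rep i (c i)).2 := by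
    intro i
    unfold pr
    split_ifs
    · exact h.hrepS i
    · intro hs
      exact h.hrepS i (Spec_mirror G R S ζ u0 v0 m rep h _ _ hs)
  have hDpr : ∀ i, ¬ B (rep i).1 (rep i).2 →
      D (pr S rep i (c i)).1 (pr S rep i (c i)).2 = σ * τ i ∧
      D (S (pr S rep i (c i)).1) (S (pr S rep i (c i)).2) = 1 := by
    intro i hi
    have e1 := hd i
    have e2 := hd' i
    rw [if_neg hi] at e1 e2
    unfold pr
    cases hc : c i
    · simp only [hc, Bool.false_eq_true, if_false] at e1 e2 ⊢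
      rw [hSSx, hSSx]
      exact ⟨e2, e1⟩
    · simp only [hc, if_true] at e1 e2 ⊢
      exact ⟨e1, e2⟩
  refine ⟨D, hD, ?_⟩
  set KX := KerX S (fun a b => G.Adj a b ∧ ¬ Spec R u0 v0 a b) (XF R ζ ⊓ Z) D with hKX
  have hxQ : ∀ x ∈ KX, x ∈ Qb R ζ B := by
    intro x hx
    apply hgood x hx.1.1
    intro a b hab hBab
    have hns : ¬ Spec R u0 v0 a b := fun hs => hSpB a b hs hBab
    have h1 := hx.2 a b ⟨hab, hns⟩
    rw [hDDB a b hab hBab, hDDB (S a) (S b) ((h.hGS a b).mpr hab) ((hBS a b).mpr hBab)] at h1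
    exact h1
  have hscale : ∀ x ∈ KX, ((σ⁻¹ • x.1, x.2) : (V → ℂ) × (V → ℂ)) ∈ Y := by
    intro x hx
    refine ⟨?_, hZ _ _ hx.1.2⟩
    obtain ⟨⟨q1, q2⟩, q3, q4⟩ := hxQ x hx
    refine ⟨⟨fun v => ?_, q2⟩, fun a ha => ?_, q4⟩
    · simp only [Pi.smul_apply, smul_eq_mul]
      rw [q1 v]; ring
    · simp only [Pi.smul_apply, smul_eq_mul]
      rw [q3 a ha, mul_zero]
  let Φ : KX →ₗ[ℂ] Y :=
    { toFun := fun x => ⟨(σ⁻¹ • x.1.1, x.1.2), hscale x.1 x.2⟩
      map_add' := by
        intro x y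
        ext v
        · simp [mul_add]
        · simp
      map_smul' := by
        intro t x
        ext v
        · simp
          ring
        · simp }
  have hΦker : ∀ x : KX, Φ x ∈ LinearMap.ker (A + σ ^ 2 • B') := by
    intro x
    rw [LinearMap.mem_ker]
    ext i
    · simp only [LinearMap.add_apply, LinearMap.smul_apply, hA, hB', limA, limB, LinearMap.coe_mk,
        AddHom.coe_mk, Prod.fst_add, Prod.smul_fst, Pi.add_apply, Φ, smul_zero, Pi.zero_apply,
        Prod.fst_zero, add_zero]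
      split_ifs with hi
      · rfl
      · obtain ⟨e1, e2⟩ := hDpr i hi
        have h1 := x.2.2 _ _ ⟨hprA i, hprS i⟩
        rw [e1, e2] at h1
        simp only [Pi.smul_apply, smul_eq_mul]
        have h2 : σ⁻¹ * (1 * (x.1.1 (pr S rep i (c i)).1 - x.1.1 (pr S rep i (c i)).2) +
          σ * τ i * (x.1.2 (pr S rep i (c i)).1 - x.1.2 (pr S rep i (c i)).2)) = 0 := by
          rw [h1, mul_zero]
        rw [← h2]
        field_simp
    · simp only [LinearMap.add_apply, LinearMap.smul_apply, hA, hB', limA, limB, LinearMap.coe_mk,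
        AddHom.coe_mk, Prod.snd_add, Prod.smul_snd, Pi.add_apply, Φ, Pi.zero_apply,
        Prod.snd_zero, Pi.smul_apply, smul_eq_mul]
      split_ifs with hi
      · simp
      · obtain ⟨e1, e2⟩ := hDpr i hi
        have h1 := x.2.2 (S (pr S rep i (c i)).1) (S (pr S rep i (c i)).2)
          ⟨(h.hGS _ _).mpr (hprA i), fun hs => hprS i
            (Spec_mirror G R S ζ u0 v0 m rep h _ _ hs)⟩
        rw [hSSx, hSSx, e1, e2] at h1
        have h2 : σ * σ⁻¹ = 1 := mul_inv_cancel₀ hσ0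
        rw [← h1]
        linear_combination (σ * τ i * (x.1.1 (S (pr S rep i (c i)).1) -
          x.1.1 (S (pr S rep i (c i)).2))) * h2
  have hΦinj : Function.Injective Φ := by
    intro x y hxy
    have h1 := congrArg (fun z : Y => (z : (V → ℂ) × (V → ℂ))) hxy
    simp only [Φ, LinearMap.coe_mk, AddHom.coe_mk, Prod.mk.injEq] at h1
    apply Subtype.ext
    apply Prod.ext
    · exact smul_right_injective _ (inv_ne_zero hσ0) h1.1
    · exact h1.2
  have hfin1 : finrank ℂ KX ≤ finrank ℂ (LinearMap.ker (A + σ ^ 2 • B')) := by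
    have := LinearMap.finrank_le_finrank_of_injective
      (f := LinearMap.codRestrict (LinearMap.ker (A + σ ^ 2 • B')) Φ hΦker) (by
        intro x y hxy
        apply hΦinj
        have h1 := congrArg Subtype.val hxy
        simpa using h1)
    exact this
  have hfin2 : finrank ℂ (LinearMap.ker A) ≤
      finrank ℂ (LimK S rep (fun i => ¬ B (rep i).1 (rep i).2) c τ Y) := by
    have hmem : ∀ y : LinearMap.ker A, ((y : Y) : (V → ℂ) × (V → ℂ)) ∈
        LimK S rep (fun i => ¬ B (rep i).1 (rep i).2) c τ Y := by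
      intro y
      refine ⟨(y : Y).2, fun i hi => ?_⟩
      have hy := LinearMap.mem_ker.mp y.2
      have h1 := congrFun (congrArg Prod.fst hy) i
      have h2 := congrFun (congrArg Prod.snd hy) i
      simp only [hA, limA, LinearMap.coe_mk, AddHom.coe_mk, if_neg hi] at h1 h2
      refine ⟨h1, ?_⟩
      exact sub_eq_zero.mp h2
    let Ψ : LinearMap.ker A →ₗ[ℂ] LimK S rep (fun i => ¬ B (rep i).1 (rep i).2) c τ Y :=
      LinearMap.codRestrict _ (Y.subtype.comp (LinearMap.ker A).subtype) hmem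
    apply LinearMap.finrank_le_finrank_of_injective (f := Ψ)
    intro x y hxy
    have h1 : ((Ψ x : (V → ℂ) × (V → ℂ))) = Ψ y := by rw [hxy]
    apply Subtype.ext
    apply Subtype.ext
    exact h1
  exact hfin1.trans (hrank.trans hfin2)

end Pool.Agent.DihLaman.J765
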