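import Pool.Agent.Helper927.DLDefs
set_option autoImplicit false
set_option maxHeartbeats 4000000
open Module Submodule

namespace Pool.Agent.DihLaman.J766
open Pool.Agent.DihLaman

/-- A nowhere zero function of type ζ². -/
theorem gauge_phi0 {V : Type} (R : Equiv.Perm V) (hR3 : R ^ 3 = 1)
    (hfree : ∀ v, R v ≠ v) (ζ : ℂ) (hζ : ζ ^ 3 = 1) :
    ∃ φ : V → ℂ, (∀ v, φ v ≠ 0) ∧ (∀ v, φ (R v) = ζ ^ 2 * φ v) := by
  classical
  have hz0 : ζ ≠ 0 := by
    rintro rfl
    norm_num at hζ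
  let st : Setoid V :=
    { r := fun a b => ∃ k : ℕ, (R ^ k) a = b
      iseqv := by
        refine ⟨fun a => ⟨0, rfl⟩, ?_, ?_⟩
        · rintro a b ⟨k, rfl⟩
          refine ⟨2 * k, ?_⟩
          rw [← Equiv.Perm.mul_apply, ← pow_add, show 2 * k + k = 3 * k by ring, pow_mul, hR3, one_pow]
          rfl
        · rintro a b c ⟨k, rfl⟩ ⟨l, rfl⟩
          exact ⟨l + k, by rw [pow_add, Equiv.Perm.mul_apply]⟩ }
  let rep : V → V := fun v => (Quotient.mk st v).out
  have hrep : ∀ v, ∃ k : ℕ, (R ^ k) (rep v) = v := fun v => Quotient.exact (Quotient.out_eq (Quotient.mk st v))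
  choose k hk using hrep
  have hrepR : ∀ v, rep (R v) = rep v := by
    intro v
    have : Quotient.mk st (R v) = Quotient.mk st v := by
      apply Quotient.sound
      refine ⟨2, ?_⟩
      rw [← Equiv.Perm.mul_apply, ← pow_succ, hR3]
      rfl
    simp only [rep, this]
  have hmod : ∀ (x : V) (a b : ℕ), (R ^ a) x = (R ^ b) x → ζ ^ (2 * a) = ζ ^ (2 * b) := by
    have hred : ∀ (x : V) (a : ℕ), (R ^ a) x = (R ^ (a % 3)) x := by
      intro x a
      conv_lhs => rw [← Nat.mod_add_div a 3, pow_add, pow_mul, hR3, one_pow, mul_one]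
    have hredz : ∀ a : ℕ, ζ ^ (2 * a) = ζ ^ (2 * (a % 3)) := by
      intro a
      conv_lhs => rw [← Nat.mod_add_div a 3]
      rw [mul_add, pow_add, show 2 * (3 * (a / 3)) = 3 * (2 * (a / 3)) by ring, pow_mul ζ 3, hζ, one_pow, mul_one]
    intro x a b h
    rw [hred x a, hred x b] at h
    rw [hredz a, hredz b]
    have h2 : ∀ y : V, (R ^ 2) y ≠ y := by
      intro y hy
      have : (R ^ 3) y = R y := by
        rw [pow_succ', Equiv.Perm.mul_apply, hy]
      rw [hR3] at this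
      exact hfree y this.symm
    have ha : a % 3 < 3 := Nat.mod_lt _ (by norm_num)
    have hb : b % 3 < 3 := Nat.mod_lt _ (by norm_num)
    generalize a % 3 = a' at *
    generalize b % 3 = b' at *
    have h12 : R x ≠ (R ^ 2) x := by
      intro h
      rw [pow_two, Equiv.Perm.mul_apply] at h
      exact hfree x (R.injective h).symm
    interval_cases a' <;> interval_cases b' <;> first | rfl | (exfalso; simp only [pow_zero, pow_one, Equiv.Perm.one_apply] at h; first | exact hfree x h | exact hfree x h.symm | exact h2 x h | exact h2 x h.symm | exact h12 h | exact h12 h.symm)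
  refine ⟨fun v => ζ ^ (2 * k v), fun v => pow_ne_zero _ hz0, fun v => ?_⟩
  have h1 : (R ^ (k (R v))) (rep v) = (R ^ (k v + 1)) (rep v) := by
    have h2 := hk (R v)
    rw [hrepR] at h2
    rw [h2, pow_succ', Equiv.Perm.mul_apply, hk v]
  show ζ ^ (2 * k (R v)) = ζ ^ 2 * ζ ^ (2 * k v)
  rw [hmod _ _ _ h1, mul_add, pow_add, mul_one, mul_comm]

/-- TARGET 1. -/
theorem gauge {V : Type} [Fintype V] [DecidableEq V] (R : Equiv.Perm V) (hR3 : R ^ 3 = 1)
    (hfree : ∀ v, R v ≠ v) (ζ : ℂ) (hζ : ζ ^ 3 = 1) (Y : Submodule ℂ (V → ℂ))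
    (hY : ∀ g ∈ Y, ∀ v, g (R v) = g v) {ι : Type} [Fintype ι] (p : ι → V × V)
    (hdim : Fintype.card ι + 1 ≤ finrank ℂ Y)
    (hker : finrank ℂ (Y ⊓ (⨅ i, LinearMap.ker (LinearMap.proj (R := ℂ) (φ := fun _ : V => ℂ) (p i).1
      - LinearMap.proj (p i).2)) : Submodule ℂ (V → ℂ)) ≤ 1) :
    ∃ φ : V → ℂ, (∀ v, φ v ≠ 0) ∧ (∀ v, φ (R v) = ζ ^ 2 * φ v) ∧ ∀ i, φ (p i).1 = φ (p i).2 := by
  obtain ⟨φ0, h0, hR0⟩ := gauge_phi0 R hR3 hfree ζ hζ
  let E0 : (V → ℂ) →ₗ[ℂ] (ι → ℂ) := LinearMap.pi (fun i =>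
    (LinearMap.proj (R := ℂ) (φ := fun _ : V => ℂ) (p i).1 - LinearMap.proj (p i).2))
  let E : Y →ₗ[ℂ] (ι → ℂ) := E0.comp Y.subtype
  have hkE : finrank ℂ (LinearMap.ker E) ≤ 1 := by
    refine le_trans ?_ hker
    have hmem : ∀ x : LinearMap.ker E, ((x : Y) : V → ℂ) ∈ (Y ⊓ (⨅ i, LinearMap.ker (LinearMap.proj (R := ℂ) (φ := fun _ : V => ℂ) (p i).1
      - LinearMap.proj (p i).2)) : Submodule ℂ (V → ℂ)) := by
      intro x
      refine ⟨(x : Y).2, ?_⟩
      rw [SetLike.mem_coe, Submodule.mem_iInf]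
      intro i
      rw [LinearMap.mem_ker]
      have hx := x.2
      rw [LinearMap.mem_ker] at hx
      exact congrFun hx i
    let F : LinearMap.ker E →ₗ[ℂ] (Y ⊓ (⨅ i, LinearMap.ker (LinearMap.proj (R := ℂ) (φ := fun _ : V => ℂ) (p i).1
      - LinearMap.proj (p i).2)) : Submodule ℂ (V → ℂ)) :=
      { toFun := fun x => ⟨((x : Y) : V → ℂ), hmem x⟩
        map_add' := fun x y => rfl
        map_smul' := fun c x => rfl }
    apply LinearMap.finrank_le_finrank_of_injective (f := F)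
    intro x y hxy
    apply Subtype.ext
    apply Subtype.ext
    exact congrArg (fun z : (Y ⊓ (⨅ i, LinearMap.ker (LinearMap.proj (R := ℂ) (φ := fun _ : V => ℂ) (p i).1
      - LinearMap.proj (p i).2)) : Submodule ℂ (V → ℂ)) => (z : V → ℂ)) hxy
  have hrn := LinearMap.finrank_range_add_finrank_ker E
  have htop : LinearMap.range E = ⊤ := by
    apply Submodule.eq_top_of_finrank_eq
    apply le_antisymm (Submodule.finrank_le _)
    rw [Module.finrank_fintype_fun_eq_card]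
    omega
  have hsurj : Function.Surjective E := LinearMap.range_eq_top.mp htop
  obtain ⟨g, hg⟩ := hsurj (fun i => Complex.log (φ0 (p i).2 / φ0 (p i).1))
  refine ⟨fun v => φ0 v * Complex.exp ((g : V → ℂ) v), fun v => mul_ne_zero (h0 v) (Complex.exp_ne_zero _),
    fun v => ?_, fun i => ?_⟩
  · show φ0 (R v) * Complex.exp ((g : V → ℂ) (R v)) = _
    rw [hY g g.2 v, hR0 v]
    ring
  · have hgi : (g : V → ℂ) (p i).1 - (g : V → ℂ) (p i).2 = Complex.log (φ0 (p i).2 / φ0 (p i).1) := congrFun hg i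
    have h1 : (g : V → ℂ) (p i).1 = Complex.log (φ0 (p i).2 / φ0 (p i).1) + (g : V → ℂ) (p i).2 := by
      rw [← hgi]; ring
    show φ0 (p i).1 * Complex.exp ((g : V → ℂ) (p i).1) = φ0 (p i).2 * Complex.exp ((g : V → ℂ) (p i).2)
    rw [h1, Complex.exp_add, Complex.exp_log (div_ne_zero (h0 _) (h0 _))]
    have := h0 (p i).1
    field_simp

end Pool.Agent.DihLaman.J766
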