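import Pool.Agent.Helper927.DLDefs
import Pool.Agent.Helper927.DL760
set_option autoImplicit false
set_option maxHeartbeats 4000000
open Module Submodule

namespace Pool.Agent.DihLaman.J767
open Pool.Agent.DihLaman
open Pool.Agent.DihLaman.J760 (exists_dir3)

/-- The row functional. -/
def rowf {V : Type} (S : V → V) (D : V → V → ℂ) (x : (V → ℂ) × (V → ℂ)) (a b : V) : ℂ :=
  D (S a) (S b) * (x.1 a - x.1 b) + D a b * (x.2 a - x.2 b)

theorem rowf_swap {V : Type} (R : V → V) (S : V → V) (ζ : ℂ) (D : V → V → ℂ) (hD : D ∈ Dsp R ζ)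
    (x : (V → ℂ) × (V → ℂ)) (a b : V) : rowf S D x b a = rowf S D x a b := by
  unfold rowf
  rw [hD.1 (S a) (S b), hD.1 a b]
  ring

theorem rowf_R {V : Type} [Fintype V] [DecidableEq V] {G : SimpleGraph V} [DecidableRel G.Adj]
    {R S : Equiv.Perm V} {ζ : ℂ} {u0 v0 : V} {m : ℕ} {rep : Fin m → V × V}
    (h : Dat G 3 R S ζ u0 v0 m rep)
    {D : V → V → ℂ} (hD : D ∈ Dsp R ζ) {x : (V → ℂ) × (V → ℂ)} (hx : x ∈ XF R ζ) (a b : V) :
    rowf S D x (R a) (R b) = ζ * rowf S D x a b := by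
  have hSR : ∀ v, R (S (R v)) = S v := by
    intro v
    have h1 : R * S * R = S := by
      have h2 := h.hSRS
      have h3 := h.hSS
      calc R * S * R = R * S * R * (S * S) := by rw [h3, mul_one]
        _ = R * (S * R * S) * S := by group
        _ = R * R⁻¹ * S := by rw [h2]
        _ = S := by group
    have h4 := congrArg (fun p : Equiv.Perm V => p v) h1
    exact h4
  have h5 : D (S a) (S b) = ζ * D (S (R a)) (S (R b)) := by
    rw [← hD.2 (S (R a)) (S (R b)), hSR a, hSR b]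
  unfold rowf
  rw [h5, hD.2 a b, hx.1 a, hx.1 b, hx.2 a, hx.2 b]
  ring

theorem rowf_Rk {V : Type} [Fintype V] [DecidableEq V] {G : SimpleGraph V} [DecidableRel G.Adj]
    {R S : Equiv.Perm V} {ζ : ℂ} {u0 v0 : V} {m : ℕ} {rep : Fin m → V × V}
    (h : Dat G 3 R S ζ u0 v0 m rep)
    {D : V → V → ℂ} (hD : D ∈ Dsp R ζ) {x : (V → ℂ) × (V → ℂ)} (hx : x ∈ XF R ζ) (a b : V)
    (k : ℕ) : rowf S D x ((R ^ k) a) ((R ^ k) b) = ζ ^ k * rowf S D x a b := by
  induction k with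
  | zero => simp
  | succ k ih =>
    have e : ∀ v, (R ^ (k + 1)) v = R ((R ^ k) v) := by
      intro v
      rw [pow_succ']
      rfl
    rw [e, e, rowf_R h hD hx, ih]
    ring

theorem zeta_ne {V : Type} [Fintype V] [DecidableEq V] {G : SimpleGraph V} [DecidableRel G.Adj]
    {R S : Equiv.Perm V} {ζ : ℂ} {u0 v0 : V} {m : ℕ} {rep : Fin m → V × V}
    (h : Dat G 3 R S ζ u0 v0 m rep) : ζ ≠ 0 := by
  intro h0
  have := h.hζ
  rw [h0] at this
  norm_num at this

/-- kernel for all darts = kernel for the ordinary darts and the special row -/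
theorem mem_full_iff {V : Type} [Fintype V] [DecidableEq V] {G : SimpleGraph V}
    [DecidableRel G.Adj]
    {R S : Equiv.Perm V} {ζ : ℂ} {u0 v0 : V} {m : ℕ} {rep : Fin m → V × V}
    (h : Dat G 3 R S ζ u0 v0 m rep)
    {D : V → V → ℂ} (hD : D ∈ Dsp R ζ) (x : (V → ℂ) × (V → ℂ)) :
    x ∈ KerX S G.Adj (XF R ζ) D ↔
      x ∈ KerX S (fun a b => G.Adj a b ∧ ¬ Spec R u0 v0 a b) (XF R ζ) D ∧
        rowf S D x u0 v0 = 0 := by
  constructor
  · rintro ⟨h1, h2⟩
    exact ⟨⟨h1, fun a b hab => h2 a b hab.1⟩, h2 u0 v0 h.h0⟩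
  · rintro ⟨⟨h1, h2⟩, h3⟩
    refine ⟨h1, fun a b hab => ?_⟩
    by_cases hs : Spec R u0 v0 a b
    · obtain ⟨k, ⟨rfl, rfl⟩ | ⟨rfl, rfl⟩⟩ := hs
      · have h4 := rowf_Rk h hD h1 u0 v0 k
        rw [h3, mul_zero] at h4
        exact h4
      · have h4 := rowf_Rk h hD h1 v0 u0 k
        rw [rowf_swap (R : V → V) S ζ D hD x u0 v0, h3, mul_zero] at h4
        exact h4
    · exact h2 a b ⟨hab, hs⟩

/-- change of sign of the first component -/
def sg {V : Type} (x : (V → ℂ) × (V → ℂ)) : (V → ℂ) × (V → ℂ) := (-x.1, x.2)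

theorem sg_sg {V : Type} (x : (V → ℂ) × (V → ℂ)) : sg (sg x) = x := by
  unfold sg
  simp

theorem sg_XF {V : Type} {R : V → V} {ζ : ℂ} {x : (V → ℂ) × (V → ℂ)} (hx : x ∈ XF R ζ) :
    sg x ∈ XF R ζ := by
  refine ⟨fun v => ?_, hx.2⟩
  have := hx.1 v
  simp only [sg, Pi.neg_apply, this]
  ring

/-- the key comparison of rows at ordinary darts -/
theorem row_zero_iff {V : Type} [Fintype V] [DecidableEq V] {G : SimpleGraph V}
    [DecidableRel G.Adj]
    {R S : Equiv.Perm V} {ζ : ℂ} {u0 v0 : V} {m : ℕ} {rep : Fin m → V × V}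
    (h : Dat G 3 R S ζ u0 v0 m rep)
    {D D' : V → V → ℂ} (hD : D ∈ Dsp R ζ) (hD' : D' ∈ Dsp R ζ)
    (h1 : ∀ i, D' (rep i).1 (rep i).2 = - D (rep i).1 (rep i).2)
    (h2 : ∀ i, D' (S (rep i).1) (S (rep i).2) = D (S (rep i).1) (S (rep i).2))
    {x : (V → ℂ) × (V → ℂ)} (hx : x ∈ XF R ζ) (a b : V) (hab : G.Adj a b)
    (hs : ¬ Spec R u0 v0 a b) : rowf S D' x a b = 0 ↔ rowf S D (sg x) a b = 0 := by
  have hSS : ∀ v, S (S v) = v := by
    intro v
    have h3 := congrArg (fun p : Equiv.Perm V => p v) h.hSS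
    exact h3
  have hζ0 := zeta_ne h
  obtain ⟨k, -, ε, δ, i, hop⟩ := h.hcov a b hab hs
  -- base rows
  have base : ∀ ε : Bool, ∃ c : ℂ, c ≠ 0 ∧
      rowf S D' x (if ε then (S (rep i).1, S (rep i).2) else rep i).1
        (if ε then (S (rep i).1, S (rep i).2) else rep i).2 =
      c * rowf S D (sg x) (if ε then (S (rep i).1, S (rep i).2) else rep i).1
        (if ε then (S (rep i).1, S (rep i).2) else rep i).2 := by
    intro ε
    cases ε
    · refine ⟨-1, by norm_num, ?_⟩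
      simp only [Bool.false_eq_true, if_false, rowf, sg, Pi.neg_apply, h1, h2]
      ring
    · refine ⟨1, one_ne_zero, ?_⟩
      simp only [if_true, rowf, sg, Pi.neg_apply, hSS, h1, h2]
      ring
  obtain ⟨c, hc0, hc⟩ := base ε
  have hk : ζ ^ k ≠ 0 := pow_ne_zero _ hζ0
  have hx' := sg_XF hx
  unfold op at hop
  simp only at hop
  cases δ
  · simp only [Bool.false_eq_true, if_false, Prod.mk.injEq] at hop
    rw [hop.1, hop.2, rowf_Rk h hD' hx, rowf_Rk h hD hx', hc]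
    simp [hk, hc0]
  · simp only [if_true, Prod.mk.injEq] at hop
    rw [hop.1, hop.2, rowf_Rk h hD' hx, rowf_Rk h hD hx', rowf_swap (R : V → V) S ζ D' hD',
      rowf_swap (R : V → V) S ζ D hD, hc]
    simp [hk, hc0]

/-- TARGET 1. -/
theorem pm_trick {V : Type} [Fintype V] [DecidableEq V] (G : SimpleGraph V) [DecidableRel G.Adj]
    (R S : Equiv.Perm V) (ζ : ℂ) (u0 v0 : V) (m : ℕ) (rep : Fin m → V × V)
    (h : Dat G 3 R S ζ u0 v0 m rep)
    (D : V → V → ℂ) (hD : D ∈ Dsp R ζ) (hd0 : D u0 v0 ≠ 0)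
    (hE1 : finrank ℂ (KerX S (fun a b => G.Adj a b ∧ ¬ Spec R u0 v0 a b) (XF R ζ) D) ≤ 2)
    (hE2 : finrank ℂ (KerX S (fun a b => G.Adj a b ∧ ¬ Spec R u0 v0 a b) (XF R ζ ⊓ Flat u0 v0) D) ≤ 1) :
    ∃ D' ∈ Dsp R ζ, finrank ℂ (KerX S G.Adj (XF R ζ) D') ≤ 1 := by
  obtain ⟨D', hD', h1, h2, h3⟩ := exists_dir3 G 3 R S ζ u0 v0 m rep h
    (fun i => - D (rep i).1 (rep i).2) (fun i => D (S (rep i).1) (S (rep i).2)) (D u0 v0)
  obtain ⟨N, hN⟩ : ∃ N, N = KerX S (fun a b => G.Adj a b ∧ ¬ Spec R u0 v0 a b) (XF R ζ) D :=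
    ⟨_, rfl⟩
  obtain ⟨N', hN'⟩ : ∃ N', N' = KerX S (fun a b => G.Adj a b ∧ ¬ Spec R u0 v0 a b) (XF R ζ) D' :=
    ⟨_, rfl⟩
  rw [← hN] at hE1
  -- the sign change as a linear map
  let σ : ((V → ℂ) × (V → ℂ)) →ₗ[ℂ] ((V → ℂ) × (V → ℂ)) :=
    { toFun := sg
      map_add' := by
        intro x y
        unfold sg
        ext v
        · simp only [Prod.fst_add, Pi.add_apply, Pi.neg_apply]; ring
        · simp
      map_smul' := by
        intro c x
        unfold sg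
        ext v
        · simp
        · simp }
  have hσ : ∀ x, σ x = sg x := fun x => rfl
  have hσinj : Function.Injective σ := by
    intro x y hxy
    have := congrArg sg hxy
    rw [hσ, hσ, sg_sg, sg_sg] at this
    exact this
  have hmemN : ∀ x, x ∈ N' ↔ sg x ∈ N := by
    intro x
    rw [hN, hN']
    constructor
    · rintro ⟨hx, hx'⟩
      refine ⟨sg_XF hx, fun a b hab => ?_⟩
      exact (row_zero_iff h hD hD' h1 h2 hx a b hab.1 hab.2).1 (hx' a b hab)
    · rintro ⟨hx, hx'⟩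
      have hx0 := sg_XF hx
      rw [sg_sg] at hx0
      refine ⟨hx0, fun a b hab => ?_⟩
      exact (row_zero_iff h hD hD' h1 h2 hx0 a b hab.1 hab.2).2 (hx' a b hab)
  have hfr : finrank ℂ N' ≤ finrank ℂ N := by
    have hmap : N'.map σ ≤ N := by
      rintro _ ⟨x, hx, rfl⟩
      exact (hmemN x).1 hx
    calc finrank ℂ N' = finrank ℂ (N'.map σ) :=
          (LinearEquiv.finrank_eq (Submodule.equivMapOfInjective σ hσinj N'))
      _ ≤ finrank ℂ N := Submodule.finrank_mono hmap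
  by_contra hcon
  push Not at hcon
  have hA := hcon D hD
  have hB := hcon D' hD'
  have hle : KerX S G.Adj (XF R ζ) D ≤ N := by
    intro x hx
    rw [hN]
    exact ((mem_full_iff h hD x).1 hx).1
  have hle' : KerX S G.Adj (XF R ζ) D' ≤ N' := by
    intro x hx
    rw [hN']
    exact ((mem_full_iff h hD' x).1 hx).1
  have heq : KerX S G.Adj (XF R ζ) D = N :=
    Submodule.eq_of_le_of_finrank_le hle (by omega)
  have heq' : KerX S G.Adj (XF R ζ) D' = N' :=
    Submodule.eq_of_le_of_finrank_le hle' (by omega)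
  have hNflat : N ≤ KerX S (fun a b => G.Adj a b ∧ ¬ Spec R u0 v0 a b) (XF R ζ ⊓ Flat u0 v0) D := by
    intro x hx
    have r1 : rowf S D x u0 v0 = 0 := by
      rw [← heq] at hx
      exact ((mem_full_iff h hD x).1 hx).2
    have r2 : rowf S D' (sg x) u0 v0 = 0 := by
      have hx2 : sg x ∈ N' := by
        rw [hmemN, sg_sg]
        exact hx
      rw [← heq'] at hx2
      exact ((mem_full_iff h hD' (sg x)).1 hx2).2
    have hflat : x.1 u0 = x.1 v0 ∧ x.2 u0 = x.2 v0 := by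
      unfold rowf at r1 r2
      simp only [sg, Pi.neg_apply] at r2
      rcases h.h0S with ⟨e1, e2⟩ | ⟨e1, e2⟩
      · rw [e1, e2] at r1 r2
        rw [h3] at r2
        have s1 : D u0 v0 * (x.1 u0 - x.1 v0) = 0 := by linear_combination (r1 - r2) / 2
        have s2 : D u0 v0 * (x.2 u0 - x.2 v0) = 0 := by linear_combination (r1 + r2) / 2
        exact ⟨sub_eq_zero.1 ((mul_eq_zero.1 s1).resolve_left hd0),
          sub_eq_zero.1 ((mul_eq_zero.1 s2).resolve_left hd0)⟩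
      · rw [e1, e2, hD.1 u0 v0] at r1
        rw [e1, e2, hD'.1 u0 v0, h3] at r2
        have s1 : D u0 v0 * (x.1 u0 - x.1 v0) = 0 := by linear_combination (r2 - r1) / 2
        have s2 : D u0 v0 * (x.2 u0 - x.2 v0) = 0 := by linear_combination (r1 + r2) / 2
        exact ⟨sub_eq_zero.1 ((mul_eq_zero.1 s1).resolve_left hd0),
          sub_eq_zero.1 ((mul_eq_zero.1 s2).resolve_left hd0)⟩
    rw [hN] at hx
    exact ⟨⟨hx.1, hflat⟩, hx.2⟩
  have hfin := Submodule.finrank_mono hNflat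
  rw [heq] at hA
  omega

end Pool.Agent.DihLaman.J767
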