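import Pool.Agent.Helper927.DLDefs
import Pool.Agent.Helper927.DL600
import Pool.Agent.Helper927.DL603
import Pool.Agent.Helper927.DL763
set_option autoImplicit false
set_option maxHeartbeats 4000000
open Module Submodule

namespace Pool.Agent.DihLaman.J860
open Pool.Agent.DihLaman
open Pool.Agent.DihLaman.J763 (B_facts)
open Pool.Agent.DihLaman.J600 (count_E0)
open Pool.Agent.DihLaman.J600 (count_E1)
open Pool.Agent.DihLaman.J603 (count_E2)
open Pool.Agent.DihLaman.J603 (count_E3)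

theorem pow_mod_eq {V : Type} (R : Equiv.Perm V) (n : ℕ) (hRn : R ^ n = 1) (k : ℕ) :
    R ^ (k % n) = R ^ k := by
  conv_rhs => rw [← Nat.mod_add_div k n, pow_add, pow_mul, hRn, one_pow, mul_one]

theorem op_mod {V : Type} (R S : Equiv.Perm V) (n : ℕ) (hRn : R ^ n = 1) (k : ℕ) (ε δ : Bool)
    (x : V × V) : op R S (k % n) ε δ x = op R S k ε δ x := by
  simp only [op, pow_mod_eq R n hRn k]

/-- swapping once more -/
theorem op_swap {V : Type} (R S : Equiv.Perm V) (k : ℕ) (ε δ : Bool) (x : V × V) :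
    ((op R S k ε δ x).2, (op R S k ε δ x).1) = op R S k ε (!δ) x := by
  cases ε <;> cases δ <;> simp [op]

theorem op_R {V : Type} (R S : Equiv.Perm V) (j k : ℕ) (ε δ : Bool) (x : V × V) :
    ((R ^ j) (op R S k ε δ x).1, (R ^ j) (op R S k ε δ x).2) = op R S (j + k) ε δ x := by
  cases ε <;> cases δ <;> simp [op, pow_add, Equiv.Perm.mul_apply]

theorem S_R_pow {V : Type} (R S : Equiv.Perm V) (hSS : S * S = 1) (hSRS : S * R * S = R⁻¹)
    (k : ℕ) : S * R ^ k = (R⁻¹) ^ k * S := by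
  have h1 : S * R = R⁻¹ * S := by
    rw [← hSRS, mul_assoc, hSS, mul_one]
  induction k with
  | zero => simp
  | succ k ih =>
    rw [pow_succ, ← mul_assoc, ih, mul_assoc, h1, ← mul_assoc, ← pow_succ]

theorem inv_pow_eq {V : Type} (R : Equiv.Perm V) (n : ℕ) (hn : 0 < n) (hRn : R ^ n = 1) (k : ℕ) :
    (R⁻¹) ^ k = R ^ ((n - 1) * k) := by
  have h1 : R⁻¹ = R ^ (n - 1) := by
    rw [inv_eq_iff_mul_eq_one, ← pow_succ', Nat.sub_add_cancel hn, hRn]
  rw [h1, ← pow_mul]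

theorem op_S {V : Type} (n : ℕ) (hn : 0 < n)
    (R S : Equiv.Perm V) (hRn : R ^ n = 1) (hSS : S * S = 1) (hSRS : S * R * S = R⁻¹)
    (k : ℕ) (ε δ : Bool) (x : V × V) :
    (S (op R S k ε δ x).1, S (op R S k ε δ x).2) = op R S ((n - 1) * k) (!ε) δ x := by
  have h1 : ∀ a : V, S ((R ^ k) a) = (R ^ ((n - 1) * k)) (S a) := by
    intro a
    have := congrArg (fun p : Equiv.Perm V => p a) (S_R_pow R S hSS hSRS k)
    simpa [Equiv.Perm.mul_apply, inv_pow_eq R n hn hRn k] using this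
  have h2 : ∀ a : V, S (S a) = a := by
    intro a
    have := congrArg (fun p : Equiv.Perm V => p a) hSS
    simpa [Equiv.Perm.mul_apply] using this
  cases ε <;> cases δ <;> simp [op, h1, h2]

/-- reachability is transitive -/
theorem op_comp {V : Type} (n : ℕ) (hn : 0 < n)
    (R S : Equiv.Perm V) (hRn : R ^ n = 1) (hSS : S * S = 1) (hSRS : S * R * S = R⁻¹)
    (k k' : ℕ) (ε ε' δ δ' : Bool) (x : V × V) :
    ∃ k'' : ℕ, op R S k' ε' δ' (op R S k ε δ x) = op R S k'' (xor ε ε') (xor δ δ') x := by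
  set y := op R S k ε δ x with hy
  obtain ⟨a, ha⟩ : ∃ a : ℕ, (if ε' then (S y.1, S y.2) else y) = op R S a (xor ε ε') δ x := by
    cases ε'
    · exact ⟨k, by simp [hy]⟩
    · refine ⟨(n - 1) * k, ?_⟩
      have := op_S n hn R S hRn hSS hSRS k ε δ x
      simpa [hy] using this
  refine ⟨k' + a, ?_⟩
  have hb := op_R R S k' a (xor ε ε') δ x
  rw [← ha] at hb
  cases δ'
  · simp only [Bool.xor_false]
    rw [← hb]
    simp [op]
  · simp only [Bool.xor_true]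
    rw [← op_swap, ← hb]
    simp [op]

/-- reachability is symmetric -/
theorem op_inv {V : Type} (n : ℕ) (hn : 0 < n)
    (R S : Equiv.Perm V) (hRn : R ^ n = 1) (hSS : S * S = 1) (hSRS : S * R * S = R⁻¹)
    (k : ℕ) (ε δ : Bool) (x : V × V) :
    ∃ k'' : ℕ, op R S k'' ε δ (op R S k ε δ x) = x := by
  have h2 : ∀ a : V, S (S a) = a := by
    intro a
    have := congrArg (fun p : Equiv.Perm V => p a) hSS
    simpa [Equiv.Perm.mul_apply] using this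
  have h0 : ∀ a : V, (R ^ ((n - 1) * k)) ((R ^ k) a) = a := by
    intro a
    rw [← Equiv.Perm.mul_apply, ← pow_add]
    have : (n - 1) * k + k = n * k := by
      obtain ⟨m, rfl⟩ : ∃ m, n = m + 1 := ⟨n - 1, by omega⟩
      simp; ring
    rw [this, pow_mul, hRn]; simp
  cases ε
  · refine ⟨(n - 1) * k, ?_⟩
    cases δ <;> simp [op, h0]
  · -- op true is an involution up to the power
    refine ⟨k, ?_⟩
    have h1 : ∀ a : V, (R ^ k) (S ((R ^ k) a)) = S a := by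
      intro a
      have := congrArg (fun p : Equiv.Perm V => p a) (S_R_pow R S hSS hSRS k)
      simp only [Equiv.Perm.mul_apply] at this
      rw [this, ← Equiv.Perm.mul_apply, inv_pow, mul_inv_cancel]; simp
    cases δ <;> simp [op, h1, h2]


theorem op_rel {V : Type} (R S : Equiv.Perm V) (T : V → V → Prop) (hsym : ∀ a b, T a b → T b a)
    (hR : ∀ a b, T (R a) (R b) ↔ T a b) (hS : ∀ a b, T (S a) (S b) ↔ T a b)
    (k : ℕ) (ε δ : Bool) (x : V × V) :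
    T (op R S k ε δ x).1 (op R S k ε δ x).2 ↔ T x.1 x.2 := by
  have h1 : ∀ (k : ℕ) (a b : V), T ((R ^ k) a) ((R ^ k) b) ↔ T a b := by
    intro k
    induction k with
    | zero => intro a b; simp
    | succ k ih =>
      intro a b
      rw [pow_succ, Equiv.Perm.mul_apply, Equiv.Perm.mul_apply, ih, hR]
  have hsym' : ∀ a b, T a b ↔ T b a := fun a b => ⟨hsym a b, hsym b a⟩
  cases ε <;> cases δ <;> simp only [op, Bool.false_eq_true, if_false, if_true]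
  · rw [h1]
  · rw [h1]; exact hsym' _ _
  · rw [h1, hS]
  · rw [h1, hS]; exact hsym' _ _

theorem dat_adj {V : Type} [Fintype V] [DecidableEq V] {G : SimpleGraph V} [DecidableRel G.Adj]
    {R S : Equiv.Perm V} {ζ : ℂ} {u0 v0 : V} {m : ℕ} {rep : Fin m → V × V}
    (h : Dat G 3 R S ζ u0 v0 m rep) (k : ℕ) (ε δ : Bool) (x : V × V) :
    G.Adj (op R S k ε δ x).1 (op R S k ε δ x).2 ↔ G.Adj x.1 x.2 :=
  op_rel R S G.Adj (fun _ _ hab => hab.symm) h.hGR h.hGS k ε δ x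

theorem dat_B {V : Type} [Fintype V] [DecidableEq V] {G : SimpleGraph V} [DecidableRel G.Adj]
    {R S : Equiv.Perm V} {ζ : ℂ} {u0 v0 : V} {m : ℕ} {rep : Fin m → V × V}
    (h : Dat G 3 R S ζ u0 v0 m rep) (B : V → V → Prop)
    (hB : ∀ a b, B a b ↔ ∃ K, Blk G R S K ∧ a ∈ K ∧ b ∈ K) (k : ℕ) (ε δ : Bool) (x : V × V) :
    B (op R S k ε δ x).1 (op R S k ε δ x).2 ↔ B x.1 x.2 := by
  obtain ⟨h1, h2, h3, h4, h5, h6, h7, h8⟩ := B_facts G R S ζ u0 v0 m rep h B hB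
  exact op_rel R S B h1 (fun a b => ⟨h5 a b, h3 a b⟩) h6 k ε δ x

theorem spec_mod {V : Type} (R : Equiv.Perm V) (hR3 : R ^ 3 = 1) (u0 v0 a b : V) :
    Spec R u0 v0 a b ↔ ∃ k : ℕ, k < 3 ∧
      ((a = (R ^ k) u0 ∧ b = (R ^ k) v0) ∨ (a = (R ^ k) v0 ∧ b = (R ^ k) u0)) := by
  constructor
  · rintro ⟨k, hk⟩
    refine ⟨k % 3, Nat.mod_lt _ (by norm_num), ?_⟩
    rw [pow_mod_eq R 3 hR3 k]
    exact hk
  · rintro ⟨k, -, hk⟩
    exact ⟨k, hk⟩

theorem dat_spec {V : Type} [Fintype V] [DecidableEq V] {G : SimpleGraph V} [DecidableRel G.Adj]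
    {R S : Equiv.Perm V} {ζ : ℂ} {u0 v0 : V} {m : ℕ} {rep : Fin m → V × V}
    (h : Dat G 3 R S ζ u0 v0 m rep) (k : ℕ) (ε δ : Bool) (x : V × V) :
    Spec R u0 v0 (op R S k ε δ x).1 (op R S k ε δ x).2 ↔ Spec R u0 v0 x.1 x.2 := by
  have hSR : ∀ (k : ℕ) (a : V), S ((R ^ k) a) = (R ^ (2 * k)) (S a) := by
    intro k a
    have h1 := congrArg (fun p : Equiv.Perm V => p a) (S_R_pow R S h.hSS h.hSRS k)
    simpa [Equiv.Perm.mul_apply, inv_pow_eq R 3 (by norm_num) h.hRn k] using h1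
  have hSS : ∀ a : V, S (S a) = a := by
    intro a
    have := congrArg (fun p : Equiv.Perm V => p a) h.hSS
    simpa [Equiv.Perm.mul_apply] using this
  have hR1 : ∀ (k : ℕ) (a : V), R ((R ^ k) a) = (R ^ (k + 1)) a := by
    intro k a; rw [pow_succ', Equiv.Perm.mul_apply]
  have hR2 : ∀ (a : V), (R ^ 2) (R a) = a := by
    intro a
    have h1 : (R ^ 2) (R a) = (R ^ 3) a := by rw [pow_succ R 2, Equiv.Perm.mul_apply]
    rw [h1, h.hRn]; rfl
  refine op_rel R S (Spec R u0 v0) ?_ ?_ ?_ k ε δ x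
  · rintro a b ⟨k, h1 | h1⟩
    · exact ⟨k, Or.inr ⟨h1.2, h1.1⟩⟩
    · exact ⟨k, Or.inl ⟨h1.2, h1.1⟩⟩
  · have hf : ∀ a b, Spec R u0 v0 a b → Spec R u0 v0 (R a) (R b) := by
      rintro a b ⟨k, ⟨rfl, rfl⟩ | ⟨rfl, rfl⟩⟩
      · exact ⟨k + 1, Or.inl ⟨hR1 _ _, hR1 _ _⟩⟩
      · exact ⟨k + 1, Or.inr ⟨hR1 _ _, hR1 _ _⟩⟩
    intro a b
    refine ⟨fun hab => ?_, hf a b⟩
    have h1 := hf _ _ (hf _ _ hab)
    have e : ∀ c : V, R (R (R c)) = c := by
      intro c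
      have := hR2 c
      rwa [pow_two, Equiv.Perm.mul_apply] at this
    rwa [e, e] at h1
  · have hf : ∀ a b, Spec R u0 v0 a b → Spec R u0 v0 (S a) (S b) := by
      rintro a b ⟨k, ⟨rfl, rfl⟩ | ⟨rfl, rfl⟩⟩
      · rw [hSR, hSR]
        rcases h.h0S with ⟨h1, h2⟩ | ⟨h1, h2⟩
        · rw [h1, h2]; exact ⟨2 * k, Or.inl ⟨rfl, rfl⟩⟩
        · rw [h1, h2]; exact ⟨2 * k, Or.inr ⟨rfl, rfl⟩⟩
      · rw [hSR, hSR]
        rcases h.h0S with ⟨h1, h2⟩ | ⟨h1, h2⟩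
        · rw [h1, h2]; exact ⟨2 * k, Or.inr ⟨rfl, rfl⟩⟩
        · rw [h1, h2]; exact ⟨2 * k, Or.inl ⟨rfl, rfl⟩⟩
    intro a b
    refine ⟨fun hab => ?_, hf a b⟩
    have h1 := hf _ _ hab
    rwa [hSS, hSS] at h1

/-- counting of the darts in blocks -/
theorem dat_e {V : Type} [Fintype V] [DecidableEq V] {G : SimpleGraph V} [DecidableRel G.Adj]
    {R S : Equiv.Perm V} {ζ : ℂ} {u0 v0 : V} {m : ℕ} {rep : Fin m → V × V}
    (h : Dat G 3 R S ζ u0 v0 m rep) (B : V → V → Prop) [DecidableRel B]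
    (hB : ∀ a b, B a b ↔ ∃ K, Blk G R S K ∧ a ∈ K ∧ b ∈ K) :
    (Finset.univ.filter (fun x : V × V => G.Adj x.1 x.2 ∧ B x.1 x.2)).card +
      12 * Fintype.card (IH rep B) = 12 * m := by
  classical
  obtain ⟨h1, h2, h3, h4, h5, h6, h7, h8⟩ := B_facts G R S ζ u0 v0 m rep h B hB
  have hset : (Finset.univ.filter (fun x : V × V => G.Adj x.1 x.2 ∧ B x.1 x.2)) =
      Finset.univ.filter (fun x : V × V =>
        ∃ i ∈ Finset.univ.filter (fun i : Fin m => B (rep i).1 (rep i).2), ∃ k : ℕ, k < 3 ∧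
          ∃ ε δ : Bool, x = op R S k ε δ (rep i)) := by
    ext x
    simp only [Finset.mem_filter, Finset.mem_univ, true_and]
    constructor
    · rintro ⟨hadj, hb⟩
      obtain ⟨k, hk, ε, δ, i, hx⟩ := h.hcov x.1 x.2 hadj (fun hs => h8 _ _ hs hb)
      have hx' : x = op R S k ε δ (rep i) := hx
      refine ⟨i, ?_, k, hk, ε, δ, hx'⟩
      rw [hx'] at hb
      exact (dat_B h B hB k ε δ (rep i)).1 hb
    · rintro ⟨i, hi, k, hk, ε, δ, rfl⟩
      exact ⟨(dat_adj h k ε δ (rep i)).2 (h.hrepA i), (dat_B h B hB k ε δ (rep i)).2 hi⟩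
  rw [hset, h.hJ]
  have hc : (Finset.univ.filter (fun i : Fin m => B (rep i).1 (rep i).2)).card +
      Fintype.card (IH rep B) = m := by
    have e1 : Fintype.card (IH rep B) =
        (Finset.univ.filter (fun i : Fin m => ¬ B (rep i).1 (rep i).2)).card :=
      Fintype.card_subtype _
    rw [e1, Finset.card_filter_add_card_filter_not]
    simp
  omega

/-- the darts in the orbits of `J` -/
def UJ {V : Type} {m : ℕ} (R S : Equiv.Perm V) (rep : Fin m → V × V) (B : V → V → Prop)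
    (J : Finset (IH rep B)) (a b : V) : Prop :=
  ∃ i ∈ J, ∃ k : ℕ, k < 3 ∧ ∃ ε δ : Bool, (a, b) = op R S k ε δ (rep i.1)

theorem UJ_card {V : Type} [Fintype V] [DecidableEq V] {G : SimpleGraph V} [DecidableRel G.Adj]
    {R S : Equiv.Perm V} {ζ : ℂ} {u0 v0 : V} {m : ℕ} {rep : Fin m → V × V}
    (h : Dat G 3 R S ζ u0 v0 m rep) (B : V → V → Prop)
    (J : Finset (IH rep B)) [DecidableRel (UJ R S rep B J)] :
    (Finset.univ.filter (fun x : V × V => UJ R S rep B J x.1 x.2)).card = 12 * J.card := by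
  classical
  have e := h.hJ (J.map ⟨Subtype.val, Subtype.val_injective⟩)
  rw [Finset.card_map] at e
  rw [← show 4 * 3 * J.card = 12 * J.card by ring, ← e]
  congr 1
  ext x
  rw [Finset.mem_filter, Finset.mem_filter]
  constructor
  · rintro ⟨-, i, hi, k, hk, ε, δ, hx⟩
    exact ⟨Finset.mem_univ _, i.1, Finset.mem_map.2 ⟨i, hi, rfl⟩, k, hk, ε, δ, hx⟩
  · rintro ⟨-, i, hi, k, hk, ε, δ, hx⟩
    obtain ⟨j, hj, rfl⟩ := Finset.mem_map.1 hi
    exact ⟨Finset.mem_univ _, j, hj, k, hk, ε, δ, hx⟩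

theorem UJ_facts {V : Type} [Fintype V] [DecidableEq V] {G : SimpleGraph V} [DecidableRel G.Adj]
    {R S : Equiv.Perm V} {ζ : ℂ} {u0 v0 : V} {m : ℕ} {rep : Fin m → V × V}
    (h : Dat G 3 R S ζ u0 v0 m rep) (B : V → V → Prop)
    (hB : ∀ a b, B a b ↔ ∃ K, Blk G R S K ∧ a ∈ K ∧ b ∈ K)
    (J : Finset (IH rep B)) :
    (∀ a b, UJ R S rep B J a b → G.Adj a b) ∧ (∀ a b, UJ R S rep B J a b → ¬ B a b) ∧
    (∀ a b, UJ R S rep B J a b → UJ R S rep B J b a) ∧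
    (∀ a b, UJ R S rep B J a b → UJ R S rep B J (R a) (R b)) ∧
    (∀ a b, UJ R S rep B J a b → UJ R S rep B J (S a) (S b)) ∧
    (∀ a b, UJ R S rep B J a b → ∀ k : ℕ, ¬ ((R ^ k * S) a = a ∧ (R ^ k * S) b = b) ∧
      ¬ ((R ^ k * S) a = b ∧ (R ^ k * S) b = a)) := by
  have hadj : ∀ a b, UJ R S rep B J a b → G.Adj a b := by
    rintro a b ⟨i, hi, k, hk, ε, δ, hx⟩
    have := (dat_adj h k ε δ (rep i.1)).2 (h.hrepA i.1)
    rwa [← hx] at this
  have hnspec : ∀ a b, UJ R S rep B J a b → ¬ Spec R u0 v0 a b := by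
    rintro a b ⟨i, hi, k, hk, ε, δ, hx⟩ hs
    have h1 := (dat_spec h k ε δ (rep i.1)).1 (by rw [← hx]; exact hs)
    exact h.hrepS i.1 h1
  refine ⟨hadj, ?_, ?_, ?_, ?_, ?_⟩
  · rintro a b ⟨i, hi, k, hk, ε, δ, hx⟩ hb
    have h1 := (dat_B h B hB k ε δ (rep i.1)).1 (by rw [← hx]; exact hb)
    exact i.2 h1
  · rintro a b ⟨i, hi, k, hk, ε, δ, hx⟩
    refine ⟨i, hi, k, hk, ε, !δ, ?_⟩
    rw [← op_swap, ← hx]
  · rintro a b ⟨i, hi, k, hk, ε, δ, hx⟩
    refine ⟨i, hi, (1 + k) % 3, Nat.mod_lt _ (by norm_num), ε, δ, ?_⟩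
    rw [op_mod R S 3 h.hRn, ← op_R, ← hx, pow_one]
  · rintro a b ⟨i, hi, k, hk, ε, δ, hx⟩
    refine ⟨i, hi, ((3 - 1) * k) % 3, Nat.mod_lt _ (by norm_num), !ε, δ, ?_⟩
    rw [op_mod R S 3 h.hRn, ← op_S 3 (by norm_num) R S h.hRn h.hSS h.hSRS, ← hx]
  · intro a b hab k
    constructor
    · intro hh
      exact hnspec a b hab (h.hSpS a b (hadj a b hab) k (Or.inl hh))
    · intro hh
      exact hnspec a b hab (h.hSpS a b (hadj a b hab) k (Or.inr hh))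

theorem flat_UJ {V : Type} {m : ℕ} (R S : Equiv.Perm V) (rep : Fin m → V × V) (B : V → V → Prop)
    (J : Finset (IH rep B)) (u : V → ℂ) (hu : ∀ v, u (R v) = u v)
    (hfl : u ∈ (⨅ i ∈ J, ⨅ b, LinearMap.ker (fl S rep B i b) : Submodule ℂ (V → ℂ))) :
    ∀ a b, UJ R S rep B J a b → u a = u b := by
  rintro a b ⟨i, hi, k, hk, ε, δ, hx⟩
  have hpow : ∀ (k : ℕ) (v : V), u ((R ^ k) v) = u v := by
    intro k
    induction k with
    | zero => intro v; simp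
    | succ k ih => intro v; rw [pow_succ, Equiv.Perm.mul_apply, ih, hu]
  have h1 : ∀ b : Bool, u (pr S rep i.1 b).1 = u (pr S rep i.1 b).2 := by
    intro b
    simp only [Submodule.mem_iInf] at hfl
    have := hfl i hi b
    rw [LinearMap.mem_ker] at this
    simp only [fl, dif, LinearMap.sub_apply, LinearMap.proj_apply] at this
    exact sub_eq_zero.1 this
  have ht := h1 true
  have hf := h1 false
  simp only [pr, if_true, Bool.false_eq_true, if_false] at ht hf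
  have ha : a = (op R S k ε δ (rep i.1)).1 := congrArg Prod.fst hx
  have hb : b = (op R S k ε δ (rep i.1)).2 := congrArg Prod.snd hx
  rw [ha, hb]
  cases ε <;> cases δ <;> simp only [op, Bool.false_eq_true, if_false, if_true, hpow]
  · exact ht
  · exact ht.symm
  · exact hf
  · exact hf.symm

/-- TARGET 1. -/
theorem E_counts {V : Type} [Fintype V] [DecidableEq V] (G : SimpleGraph V) [DecidableRel G.Adj]
    (R S : Equiv.Perm V) (ζ : ℂ) (u0 v0 : V) (m : ℕ) (rep : Fin m → V × V)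
    (h : Dat G 3 R S ζ u0 v0 m rep)
    (B : V → V → Prop) [DecidableRel B]
    (hB : ∀ a b, B a b ↔ ∃ K, Blk G R S K ∧ a ∈ K ∧ b ∈ K)
    (J : Finset (IH rep B)) :
    finrank ℂ (Yq R S B (fun _ _ => False) ⊓ (⨅ i ∈ J, ⨅ b, LinearMap.ker (fl S rep B i b)) :
      Submodule ℂ (V → ℂ)) + J.card ≤ Fintype.card (IH rep B) + 1 := by
  classical
  obtain ⟨u1, u2, u3, u4, u5, u6⟩ := UJ_facts h B hB J
  have h1 := count_E1 G R S h.hRn h.hSS h.hSRS h.hfree h.hGR h.hGS h.hsparse B hB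
    (UJ R S rep B J) u1 u2 u3 u4 u5 u6
  rw [UJ_card h B J] at h1
  have h2 := dat_e h B hB
  have h3 := h.hV
  have h4 : finrank ℂ (Yq R S B (fun _ _ => False) ⊓ (⨅ i ∈ J, ⨅ b, LinearMap.ker (fl S rep B i b)) :
      Submodule ℂ (V → ℂ)) ≤ finrank ℂ (Yq R S B (UJ R S rep B J)) := by
    apply Submodule.finrank_mono
    rintro u ⟨hu, hfl⟩
    exact ⟨hu.1, hu.2.1, hu.2.2.1, flat_UJ R S rep B J u hu.1 hfl⟩
  omega

/-- TARGET 2. -/
theorem E_counts0 {V : Type} [Fintype V] [DecidableEq V] (G : SimpleGraph V) [DecidableRel G.Adj]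
    (R S : Equiv.Perm V) (ζ : ℂ) (u0 v0 : V) (m : ℕ) (rep : Fin m → V × V)
    (h : Dat G 3 R S ζ u0 v0 m rep)
    (B : V → V → Prop) [DecidableRel B]
    (hB : ∀ a b, B a b ↔ ∃ K, Blk G R S K ∧ a ∈ K ∧ b ∈ K) :
    Fintype.card (IH rep B) + 1 ≤ finrank ℂ (Yq R S B (fun _ _ => False)) := by
  have h1 := count_E0 G R S h.hRn h.hSS h.hSRS h.hfree h.hGR h.hGS h.hsparse B hB
  have h2 := dat_e h B hB
  have h3 := h.hV
  omega

/-- TARGET 3. -/
theorem E_counts2 {V : Type} [Fintype V] [DecidableEq V] (G : SimpleGraph V) [DecidableRel G.Adj]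
    (R S : Equiv.Perm V) (ζ : ℂ) (u0 v0 : V) (m : ℕ) (rep : Fin m → V × V)
    (h : Dat G 3 R S ζ u0 v0 m rep)
    (B : V → V → Prop) [DecidableRel B]
    (hB : ∀ a b, B a b ↔ ∃ K, Blk G R S K ∧ a ∈ K ∧ b ∈ K)
    (h0u : ¬ B u0 u0) (h0v : ¬ B v0 v0) (h0R : ∀ k : ℕ, (R ^ k) u0 ≠ v0)
    (J : Finset (IH rep B)) :
    finrank ℂ (X0q R S B u0 v0 ⊓ (⨅ i ∈ J, ⨅ b, LinearMap.ker (fl S rep B i b)) :
      Submodule ℂ (V → ℂ)) + J.card ≤ Fintype.card (IH rep B) ∨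
    ∃ W : Finset V, FamW G R S B u0 v0 W ∧ ∀ a ∈ W, ∀ b ∈ W, G.Adj a b → ¬ B a b →
      (∃ i ∈ J, ∃ k : ℕ, k < 3 ∧ ∃ ε δ : Bool, (a, b) = op R S k ε δ (rep i.1)) ∨ Spec R u0 v0 a b := by
  classical
  obtain ⟨u1, u2, u3, u4, u5, u6⟩ := UJ_facts h B hB J
  have h1 := count_E2 G R S h.hRn h.hSS h.hSRS h.hfree h.hGR h.hGS h.hsparse B hB
    (UJ R S rep B J) u1 u2 u3 u4 u5 u6 u0 v0 h.h0 h.h0S h0u h0v h0R
  rw [UJ_card h B J] at h1
  have h2 := dat_e h B hB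
  have h3 := h.hV
  rcases h1 with h1 | ⟨W, w1, w2, w3, w4, w5, w6, w7⟩
  · left
    have h4 : finrank ℂ (X0q R S B u0 v0 ⊓ (⨅ i ∈ J, ⨅ b, LinearMap.ker (fl S rep B i b)) :
        Submodule ℂ (V → ℂ)) ≤ finrank ℂ (Yq R S B (UJ R S rep B J) ⊓
        LinearMap.ker (LinearMap.proj (R := ℂ) (φ := fun _ : V => ℂ) u0 - LinearMap.proj v0)
        : Submodule ℂ (V → ℂ)) := by
      apply Submodule.finrank_mono
      rintro u ⟨⟨hu, hker⟩, hfl⟩
      exact ⟨⟨hu.1, hu.2.1, hu.2.2.1, flat_UJ R S rep B J u hu.1 hfl⟩, hker⟩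
    omega
  · right
    exact ⟨W, ⟨w1, w2, w3, w4, w5, w6⟩, w7⟩

/-- TARGET 4. -/
theorem FamW_dart {V : Type} [Fintype V] [DecidableEq V] (G : SimpleGraph V) [DecidableRel G.Adj]
    (R S : Equiv.Perm V) (ζ : ℂ) (u0 v0 : V) (m : ℕ) (rep : Fin m → V × V)
    (h : Dat G 3 R S ζ u0 v0 m rep)
    (B : V → V → Prop) [DecidableRel B]
    (hB : ∀ a b, B a b ↔ ∃ K, Blk G R S K ∧ a ∈ K ∧ b ∈ K)
    (h0u : ¬ B u0 u0) (h0v : ¬ B v0 v0) (h0R : ∀ k : ℕ, (R ^ k) u0 ≠ v0)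
    (W : Finset V) (hW : FamW G R S B u0 v0 W) :
    ∃ i : IH rep B, (rep i.1).1 ∈ W ∧ (rep i.1).2 ∈ W := by
  classical
  obtain ⟨b1, b2, b3, b4, b5, b6, b7, b8⟩ := B_facts G R S ζ u0 v0 m rep h B hB
  obtain ⟨w1, w2, w3, w4, w5, w6⟩ := hW
  have h1 := count_E3 G R S h.hRn h.hfree h.hsparse B
    (fun a b hab => ⟨b2 a b a hab (b1 a b hab), b2 b a b (b1 a b hab) hab⟩)
    (fun a ha => b5 a a ha) u0 v0 h0u h0v h0R W w1 w2 w3
  have hspec : (Finset.univ.filter (fun x : V × V => Spec R u0 v0 x.1 x.2)).card ≤ 6 := by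
    have hsub : (Finset.univ.filter (fun x : V × V => Spec R u0 v0 x.1 x.2)) ⊆
        (Finset.range 3 ×ˢ (Finset.univ : Finset Bool)).image
          (fun t => if t.2 then ((R ^ t.1) u0, (R ^ t.1) v0) else ((R ^ t.1) v0, (R ^ t.1) u0)) := by
      intro x hx
      have hx' := (Finset.mem_filter.1 hx).2
      rw [spec_mod R h.hRn] at hx'
      obtain ⟨k, hk, hh | hh⟩ := hx'
      · refine Finset.mem_image.2 ⟨(k, true), by simp [hk], ?_⟩
        simp only [if_true]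
        exact Prod.ext hh.1.symm hh.2.symm
      · refine Finset.mem_image.2 ⟨(k, false), by simp [hk], ?_⟩
        simp only [Bool.false_eq_true, if_false]
        exact Prod.ext hh.1.symm hh.2.symm
    refine (Finset.card_le_card hsub).trans (Finset.card_image_le.trans ?_)
    rw [Finset.card_product]
    simp
  have hex : ∃ x ∈ W ×ˢ W, G.Adj x.1 x.2 ∧ ¬ B x.1 x.2 ∧ ¬ Spec R u0 v0 x.1 x.2 := by
    by_contra hcon
    push Not at hcon
    have hsub : ((W ×ˢ W).filter (fun x : V × V => G.Adj x.1 x.2)) ⊆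
        ((W ×ˢ W).filter (fun x : V × V => G.Adj x.1 x.2 ∧ B x.1 x.2)) ∪
        (Finset.univ.filter (fun x : V × V => Spec R u0 v0 x.1 x.2)) := by
      intro x hx
      obtain ⟨hx1, hx2⟩ := Finset.mem_filter.1 hx
      by_cases hb : B x.1 x.2
      · exact Finset.mem_union_left _ (Finset.mem_filter.2 ⟨hx1, hx2, hb⟩)
      · exact Finset.mem_union_right _ (Finset.mem_filter.2 ⟨Finset.mem_univ _, hcon x hx1 hx2 hb⟩)
    have h2 := (Finset.card_le_card hsub).trans (Finset.card_union_le _ _)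
    omega
  obtain ⟨x, hx, hadj, hnb, hns⟩ := hex
  obtain ⟨k, hk, ε, δ, i, hxi⟩ := h.hcov x.1 x.2 hadj hns
  have hxi' : x = op R S k ε δ (rep i) := hxi
  have hnbi : ¬ B (rep i).1 (rep i).2 := by
    intro hb
    apply hnb
    rw [hxi']
    exact (dat_B h B hB k ε δ (rep i)).2 hb
  obtain ⟨k'', hk''⟩ := op_inv 3 (by norm_num) R S h.hRn h.hSS h.hSRS k ε δ (rep i)
  rw [← hxi'] at hk''
  have hpow : ∀ (j : ℕ) (v : V), v ∈ W → (R ^ j) v ∈ W := by
    intro j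
    induction j with
    | zero => intro v hv; simpa using hv
    | succ j ih => intro v hv; rw [pow_succ, Equiv.Perm.mul_apply]; exact ih _ (w3 v hv)
  have hxW := Finset.mem_product.1 hx
  have hop : (op R S k'' ε δ x).1 ∈ W ∧ (op R S k'' ε δ x).2 ∈ W := by
    cases ε <;> cases δ <;> simp only [op, Bool.false_eq_true, if_false, if_true]
    · exact ⟨hpow _ _ hxW.1, hpow _ _ hxW.2⟩
    · exact ⟨hpow _ _ hxW.2, hpow _ _ hxW.1⟩
    · exact ⟨hpow _ _ (w4 _ hxW.1), hpow _ _ (w4 _ hxW.2)⟩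
    · exact ⟨hpow _ _ (w4 _ hxW.2), hpow _ _ (w4 _ hxW.1)⟩
  rw [hk''] at hop
  exact ⟨⟨i, hnbi⟩, hop⟩

end Pool.Agent.DihLaman.J860
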