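import Pool.Agent.Helper927.DLDefs
import Pool.Agent.Helper927.DL390
import Pool.Agent.Helper927.DL763
import Pool.Agent.Helper927.DL766
import Pool.Agent.Helper927.DL860
set_option autoImplicit false
set_option maxHeartbeats 4000000
open Module Submodule

namespace Pool.Agent.DihLaman.J863
open Pool.Agent.DihLaman
open Pool.Agent.DihLaman.J763 (B_facts)
open Pool.Agent.DihLaman.J860 (E_counts)
open Pool.Agent.DihLaman.J860 (E_counts0)
open Pool.Agent.DihLaman.J766 (gauge)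
open Pool.Agent.DihLaman.J390 (rado_ker)

/-- sum combination -/
noncomputable def jPl {V : Type} (S : V → V) (φ : V → ℂ) : ((V → ℂ) × (V → ℂ)) →ₗ[ℂ] (V → ℂ) where
  toFun x := fun v => x.1 v / φ v + x.2 v + x.2 (S v)
  map_add' x y := by
    funext v
    simp only [Prod.fst_add, Prod.snd_add, Pi.add_apply]; ring
  map_smul' c x := by
    funext v
    simp only [Prod.smul_fst, Prod.smul_snd, Pi.smul_apply, smul_eq_mul, RingHom.id_apply]; ring

/-- difference combination -/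
noncomputable def jMl {V : Type} (S : V → V) (φ : V → ℂ) : ((V → ℂ) × (V → ℂ)) →ₗ[ℂ] (V → ℂ) where
  toFun x := fun v => x.1 v / φ v + x.2 v - x.2 (S v)
  map_add' x y := by
    funext v
    simp only [Prod.fst_add, Prod.snd_add, Pi.add_apply]; ring
  map_smul' c x := by
    funext v
    simp only [Prod.smul_fst, Prod.smul_snd, Pi.smul_apply, smul_eq_mul, RingHom.id_apply]; ring

theorem jPl_apply {V : Type} (S : V → V) (φ : V → ℂ) (x : (V → ℂ) × (V → ℂ)) (v : V) :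
    jPl S φ x v = x.1 v / φ v + x.2 v + x.2 (S v) := rfl

theorem jMl_apply {V : Type} (S : V → V) (φ : V → ℂ) (x : (V → ℂ) × (V → ℂ)) (v : V) :
    jMl S φ x v = x.1 v / φ v + x.2 v - x.2 (S v) := rfl

/-- facts on the symmetries -/
theorem j_sym {V : Type} (R S : Equiv.Perm V) (hSS : S * S = 1) (hSRS : S * R * S = R⁻¹) :
    (∀ v, S (S v) = v) ∧ ∀ v, S (R v) = R⁻¹ (S v) := by
  refine ⟨fun v => ?_, fun v => ?_⟩
  · have := congrArg (fun f : Equiv.Perm V => f v) hSS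
    simpa using this
  · rw [← hSRS]
    have := congrArg (fun f : Equiv.Perm V => f v) hSS
    have h2 : S (S v) = v := by simpa using this
    simp [h2]

theorem j_mem {V : Type} (R S : Equiv.Perm V) (ζ : ℂ) (hζ : ζ ^ 3 = 1)
    (hSS : S * S = 1) (hSRS : S * R * S = R⁻¹)
    (B : V → V → Prop) (Bsymm : ∀ a b, B a b → B b a) (Btr : ∀ a b c, B a b → B b c → B a c)
    (BS : ∀ a b, B (S a) (S b) ↔ B a b)
    (φ : V → ℂ) (hφ0 : ∀ v, φ v ≠ 0) (hφR : ∀ v, φ (R v) = ζ ^ 2 * φ v)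
    (x : (V → ℂ) × (V → ℂ)) (hx : x ∈ Qb R ζ B) :
    jPl S φ x ∈ Yq R S B (fun _ _ => False) ∧ jMl S φ x ∈ Ym R S B := by
  obtain ⟨⟨h1, h2⟩, h3, h4⟩ := hx
  obtain ⟨s1, s2⟩ := j_sym R S hSS hSRS
  have hζ0 : ζ ^ 2 ≠ 0 := by
    intro h
    have : ζ ^ 3 = ζ * ζ ^ 2 := by ring
    rw [h, mul_zero, hζ] at this
    exact one_ne_zero this
  have e1 : ∀ v, x.1 (R v) / φ (R v) = x.1 v / φ v := by
    intro v
    rw [h1 v, hφR v, mul_div_mul_left _ _ hζ0]
  have e2 : ∀ v, x.2 (S (R v)) = x.2 (S v) := by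
    intro v
    rw [s2 v]
    have := h2 (R⁻¹ (S v))
    rw [← this]; simp
  have e3 : ∀ a b, B a b → x.1 a = 0 ∧ x.1 b = 0 ∧ x.2 a = x.2 b ∧ x.2 (S a) = x.2 (S b) := by
    intro a b hab
    refine ⟨h3 a (Btr a b a hab (Bsymm a b hab)), h3 b (Btr b a b (Bsymm a b hab) hab),
      h4 a b hab, h4 _ _ ((BS a b).mpr hab)⟩
  have e4 : ∀ v, B v v → x.1 v = 0 ∧ x.1 (S v) = 0 := fun v hv =>
    ⟨h3 v hv, h3 _ ((BS v v).mpr hv)⟩
  refine ⟨⟨fun v => ?_, fun a b hab => ?_, fun v hv => ?_, fun a b h => h.elim⟩,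
    ⟨fun v => ?_, fun a b hab => ?_, fun v hv => ?_⟩⟩
  · simp only [jPl_apply, e1, h2 v, e2]
  · obtain ⟨f1, f2, f3, f4⟩ := e3 a b hab
    simp only [jPl_apply, f1, f2, f3, f4, zero_div]
  · obtain ⟨f1, f2⟩ := e4 v hv
    simp only [jPl_apply, f1, f2, s1, zero_div]; ring
  · simp only [jMl_apply, e1, h2 v, e2]
  · obtain ⟨f1, f2, f3, f4⟩ := e3 a b hab
    simp only [jMl_apply, f1, f2, f3, f4, zero_div]
  · obtain ⟨f1, f2⟩ := e4 v hv
    simp only [jMl_apply, f1, f2, s1, zero_div]; ring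

theorem j_inj {V : Type} (S : V → V) (hS : ∀ v, S (S v) = v)
    (φ : V → ℂ) (hφ0 : ∀ v, φ v ≠ 0) (x : (V → ℂ) × (V → ℂ))
    (hP : jPl S φ x = 0) (hM : jMl S φ x = 0) : x = 0 := by
  have h2' : ∀ v, x.2 (S v) = 0 := by
    intro v
    have a := congrFun hP v
    have b := congrFun hM v
    rw [jPl_apply] at a
    rw [jMl_apply] at b
    simp only [Pi.zero_apply] at a b
    linear_combination (a - b) / 2
  have h2 : ∀ v, x.2 v = 0 := by
    intro v
    have := h2' (S v)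
    rwa [hS] at this
  have h1 : ∀ v, x.1 v = 0 := by
    intro v
    have a := congrFun hP v
    rw [jPl_apply, h2, h2] at a
    simp only [Pi.zero_apply, add_zero] at a
    exact (div_eq_zero_iff.mp a).resolve_right (hφ0 v)
  exact Prod.ext (funext h1) (funext h2)

theorem j_flat {V : Type} (S : V → V) (φ : V → ℂ) (hφ0 : ∀ v, φ v ≠ 0) (x : (V → ℂ) × (V → ℂ))
    (a b : V) (hab : φ a = φ b) (h1 : (x.1 a - x.1 b) + φ a * (x.2 a - x.2 b) = 0)
    (h2 : x.2 (S a) = x.2 (S b)) :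
    jPl S φ x a = jPl S φ x b ∧ jMl S φ x a = jMl S φ x b := by
  have h0 := hφ0 b
  have h0a := hφ0 a
  have h3 : x.1 a / φ a + x.2 a = x.1 b / φ b + x.2 b := by
    rw [hab] at h1 ⊢
    field_simp
    linear_combination h1
  rw [jPl_apply, jPl_apply, jMl_apply, jMl_apply, h3, h2]
  exact ⟨rfl, rfl⟩

theorem j_const {V : Type} [Fintype V] [Nonempty V] (PP : Submodule ℂ (V → ℂ))
    (h1 : finrank ℂ PP ≤ 1) (hone : (fun _ => (1:ℂ)) ∈ PP) (f : V → ℂ) (hf : f ∈ PP) :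
    ∃ c : ℂ, ∀ v, f v = c := by
  rw [finrank_le_one_iff] at h1
  obtain ⟨g, hg⟩ := h1
  obtain ⟨c0, hc0⟩ := hg ⟨_, hone⟩
  obtain ⟨c, hc⟩ := hg ⟨f, hf⟩
  have e0 : ∀ v, c0 * g.1 v = 1 := by
    intro v
    have := congrArg (fun y : PP => y.1 v) hc0
    simpa using this
  have e1 : ∀ v, c * g.1 v = f v := by
    intro v
    have := congrArg (fun y : PP => y.1 v) hc
    simpa using this
  obtain ⟨v0⟩ := (inferInstance : Nonempty V)
  have hc0' : c0 ≠ 0 := by
    intro h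
    have := e0 v0
    rw [h, zero_mul] at this
    exact zero_ne_one this
  refine ⟨c / c0, fun v => ?_⟩
  rw [← e1 v]
  have := e0 v
  field_simp
  linear_combination c * this

theorem j_prod {V : Type} [Fintype V] [Nonempty V] (PP MM : Submodule ℂ (V → ℂ))
    (h1 : finrank ℂ PP ≤ 1) (hone : (fun _ => (1:ℂ)) ∈ PP)
    (hprod : ∀ f ∈ MM, ∀ g ∈ MM, f * g ∈ PP) :
    (∀ f ∈ MM, ∀ v, f v = 0 → f = 0) ∧ finrank ℂ MM ≤ 1 := by
  have hz : ∀ f ∈ MM, ∀ v, f v = 0 → f = 0 := by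
    intro f hf v hv
    obtain ⟨c, hc⟩ := j_const PP h1 hone _ (hprod f hf f hf)
    have hc0 : c = 0 := by
      rw [← hc v, Pi.mul_apply, hv, mul_zero]
    funext w
    have := hc w
    rw [Pi.mul_apply, hc0] at this
    simpa using this
  refine ⟨hz, ?_⟩
  rw [finrank_le_one_iff]
  by_cases hne : ∃ f ∈ MM, f ≠ 0
  · obtain ⟨f, hf, hf0⟩ := hne
    refine ⟨⟨f, hf⟩, ?_⟩
    rintro ⟨g, hg⟩
    obtain ⟨v0⟩ := (inferInstance : Nonempty V)
    have hfv : ∀ v, f v ≠ 0 := fun v hv => hf0 (hz f hf v hv)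
    -- g - (g v0 / f v0) f vanishes at v0
    have hmem : g - (g v0 / f v0) • f ∈ MM := MM.sub_mem hg (MM.smul_mem _ hf)
    have h0 : (g - (g v0 / f v0) • f) v0 = 0 := by
      simp [hfv v0]
    have := hz _ hmem v0 h0
    refine ⟨g v0 / f v0, ?_⟩
    apply Subtype.ext
    have h3 := sub_eq_zero.mp this
    exact h3.symm
  · push Not at hne
    refine ⟨0, ?_⟩
    rintro ⟨g, hg⟩
    refine ⟨0, ?_⟩
    apply Subtype.ext
    simp [hne g hg]

/-- the space of invariant functions flat along the chosen pairs -/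
abbrev jPP {V : Type} {m : ℕ} (R S : V → V) (rep : Fin m → V × V) (B : V → V → Prop)
    (c0 : IH rep B → Bool) : Submodule ℂ (V → ℂ) :=
  Yq R S B (fun _ _ => False) ⊓ (⨅ i, LinearMap.ker (fl S rep B i (c0 i)))

theorem mem_fl {V : Type} {m : ℕ} (S : V → V) (rep : Fin m → V × V) (B : V → V → Prop)
    (i : IH rep B) (b : Bool) (f : V → ℂ) :
    f ∈ LinearMap.ker (fl S rep B i b) ↔ f (pr S rep i.1 b).1 = f (pr S rep i.1 b).2 := by
  rw [LinearMap.mem_ker]
  simp only [fl, dif, LinearMap.sub_apply, LinearMap.proj_apply]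
  exact sub_eq_zero

theorem j_data {V : Type} [Fintype V] [DecidableEq V] (G : SimpleGraph V) [DecidableRel G.Adj]
    (R S : Equiv.Perm V) (ζ : ℂ) (u0 v0 : V) (m : ℕ) (rep : Fin m → V × V)
    (h : Dat G 3 R S ζ u0 v0 m rep)
    (B : V → V → Prop) [DecidableRel B]
    (hB : ∀ a b, B a b ↔ ∃ K, Blk G R S K ∧ a ∈ K ∧ b ∈ K) :
    ∃ (c0 : IH rep B → Bool) (φ : V → ℂ), finrank ℂ (jPP R S rep B c0) ≤ 1 ∧
      (∀ v, φ v ≠ 0) ∧ (∀ v, φ (R v) = ζ ^ 2 * φ v) ∧
      ∀ i, φ (pr S rep i.1 (c0 i)).1 = φ (pr S rep i.1 (c0 i)).2 := by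
  obtain ⟨c0, -, hc0⟩ := rado_ker (fl S rep B) (Yq R S B (fun _ _ => False))
    (Fintype.card (IH rep B) + 1) (fun _ => Finset.univ) (fun _ => Finset.univ_nonempty) (by
      intro J
      have := E_counts G R S ζ u0 v0 m rep h B hB J
      have e : ∀ i, (⨅ b ∈ (Finset.univ : Finset Bool), LinearMap.ker (fl S rep B i b)) =
          ⨅ b, LinearMap.ker (fl S rep B i b) :=
        fun i => iInf_congr (fun b => iInf_pos (Finset.mem_univ b))
      change finrank ℂ (Yq R S B (fun _ _ => False) ⊓ (⨅ i ∈ J, ⨅ b ∈ (Finset.univ : Finset Bool),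
        LinearMap.ker (fl S rep B i b)) : Submodule ℂ (V → ℂ)) + J.card ≤ _
      have e3 : (⨅ i ∈ J, ⨅ b ∈ (Finset.univ : Finset Bool), LinearMap.ker (fl S rep B i b)) =
        ⨅ i ∈ J, ⨅ b, LinearMap.ker (fl S rep B i b) := iInf_congr fun i => iInf_congr fun _ => e i
      rw [e3]
      exact this)
  have h1 : finrank ℂ (jPP R S rep B c0) ≤ 1 := by
    have := hc0
    change finrank ℂ (jPP R S rep B c0) + _ ≤ _ at this
    omega
  obtain ⟨φ, hφ0, hφR, hφ⟩ := gauge R h.hRn h.hfree ζ h.hζ (Yq R S B (fun _ _ => False))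
    (fun g hg => hg.1) (fun i : IH rep B => pr S rep i.1 (c0 i))
    (E_counts0 G R S ζ u0 v0 m rep h B hB) h1
  exact ⟨c0, φ, h1, hφ0, hφR, hφ⟩

/-- extension of a choice -/
def jext {V : Type} {m : ℕ} (rep : Fin m → V × V) (B : V → V → Prop) [DecidableRel B]
    (c0 : IH rep B → Bool) (i : Fin m) : Bool :=
  if h : ¬ B (rep i).1 (rep i).2 then c0 ⟨i, h⟩ else true

theorem jext_eq {V : Type} {m : ℕ} (rep : Fin m → V × V) (B : V → V → Prop) [DecidableRel B]
    (c0 : IH rep B → Bool) (i : IH rep B) : jext rep B c0 i.1 = c0 i := by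
  unfold jext
  rw [dif_pos i.2]

theorem j_main {V : Type} [Fintype V] [DecidableEq V] (G : SimpleGraph V) [DecidableRel G.Adj]
    (R S : Equiv.Perm V) (ζ : ℂ) (u0 v0 : V) (m : ℕ) (rep : Fin m → V × V)
    (h : Dat G 3 R S ζ u0 v0 m rep)
    (B : V → V → Prop) [DecidableRel B]
    (hB : ∀ a b, B a b ↔ ∃ K, Blk G R S K ∧ a ∈ K ∧ b ∈ K)
    (c0 : IH rep B → Bool) (φ : V → ℂ) (h1 : finrank ℂ (jPP R S rep B c0) ≤ 1)
    (hφ0 : ∀ v, φ v ≠ 0) (hφR : ∀ v, φ (R v) = ζ ^ 2 * φ v)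
    (hφ : ∀ i, φ (pr S rep i.1 (c0 i)).1 = φ (pr S rep i.1 (c0 i)).2) :
    (fun _ => (1:ℂ)) ∈ jPP R S rep B c0 ∧
    (∀ f ∈ Ym R S B ⊓ (⨅ i, LinearMap.ker (fl S rep B i (c0 i))),
      ∀ g ∈ Ym R S B ⊓ (⨅ i, LinearMap.ker (fl S rep B i (c0 i))), f * g ∈ jPP R S rep B c0) ∧
    ∀ Q : Submodule ℂ ((V → ℂ) × (V → ℂ)), Q ≤ Qb R ζ B → ∀ x ∈ LimK S rep
      (fun i => ¬ B (rep i).1 (rep i).2) (jext rep B c0)
      (fun i => φ (pr S rep i (jext rep B c0 i)).1) Q,
      jPl S φ x ∈ jPP R S rep B c0 ∧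
      jMl S φ x ∈ Ym R S B ⊓ (⨅ i, LinearMap.ker (fl S rep B i (c0 i))) := by
  obtain ⟨Bsymm, Btr, -, -, -, BS, -, -⟩ := B_facts G R S ζ u0 v0 m rep h B hB
  refine ⟨⟨⟨fun _ => rfl, fun _ _ _ => rfl, fun _ _ => rfl, fun _ _ _ => rfl⟩, ?_⟩, ?_, ?_⟩
  · simp only [SetLike.mem_coe, Submodule.mem_iInf, mem_fl]
    intro i; trivial
  · rintro f ⟨⟨f1, f2, f3⟩, f4⟩ g ⟨⟨g1, g2, g3⟩, g4⟩
    simp only [SetLike.mem_coe, Submodule.mem_iInf, mem_fl] at f4 g4
    refine ⟨⟨fun v => ?_, fun a b hab => ?_, fun v hv => ?_, fun a b hab => hab.elim⟩, ?_⟩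
    · simp only [Pi.mul_apply, f1, g1]
    · simp only [Pi.mul_apply, f2 a b hab, g2 a b hab]
    · simp only [Pi.mul_apply, f3 v hv, g3 v hv]; ring
    · simp only [SetLike.mem_coe, Submodule.mem_iInf, mem_fl, Pi.mul_apply]
      intro i
      rw [f4 i, g4 i]
  · intro Q hQ x hx
    obtain ⟨hxQ, hrow⟩ := hx
    obtain ⟨m1, m2⟩ := j_mem R S ζ h.hζ h.hSS h.hSRS B Bsymm Btr BS φ hφ0 hφR x (hQ hxQ)
    have hfl : ∀ i : IH rep B,
        jPl S φ x (pr S rep i.1 (c0 i)).1 = jPl S φ x (pr S rep i.1 (c0 i)).2 ∧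
        jMl S φ x (pr S rep i.1 (c0 i)).1 = jMl S φ x (pr S rep i.1 (c0 i)).2 := by
      intro i
      obtain ⟨r1, r2⟩ := hrow i.1 i.2
      simp only [jext_eq] at r1 r2
      exact j_flat S φ hφ0 x _ _ (hφ i) r1 r2
    refine ⟨⟨m1, ?_⟩, ⟨m2, ?_⟩⟩
    · simp only [SetLike.mem_coe, Submodule.mem_iInf, mem_fl]
      exact fun i => (hfl i).1
    · simp only [SetLike.mem_coe, Submodule.mem_iInf, mem_fl]
      exact fun i => (hfl i).2

/-- TARGET 1. -/
theorem E1main {V : Type} [Fintype V] [DecidableEq V] (G : SimpleGraph V) [DecidableRel G.Adj]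
    (R S : Equiv.Perm V) (ζ : ℂ) (u0 v0 : V) (m : ℕ) (rep : Fin m → V × V)
    (h : Dat G 3 R S ζ u0 v0 m rep)
    (B : V → V → Prop) [DecidableRel B]
    (hB : ∀ a b, B a b ↔ ∃ K, Blk G R S K ∧ a ∈ K ∧ b ∈ K) :
    ∃ (c : Fin m → Bool) (τ : Fin m → ℂ),
      finrank ℂ (LimK S rep (fun i => ¬ B (rep i).1 (rep i).2) c τ (Qb R ζ B)) ≤ 2 := by
  obtain ⟨c0, φ, h1, hφ0, hφR, hφ⟩ := j_data G R S ζ u0 v0 m rep h B hB
  obtain ⟨hone, hprod, hK⟩ := j_main G R S ζ u0 v0 m rep h B hB c0 φ h1 hφ0 hφR hφ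
  have : Nonempty V := ⟨u0⟩
  obtain ⟨-, hM1⟩ := j_prod (jPP R S rep B c0) _ h1 hone hprod
  refine ⟨jext rep B c0, fun i => φ (pr S rep i (jext rep B c0 i)).1, ?_⟩
  set L := LimK S rep (fun i => ¬ B (rep i).1 (rep i).2) (jext rep B c0)
      (fun i => φ (pr S rep i (jext rep B c0 i)).1) (Qb R ζ B) with hL
  obtain ⟨s1, -⟩ := j_sym R S h.hSS h.hSRS
  let f1 : L →ₗ[ℂ] jPP R S rep B c0 :=
    LinearMap.codRestrict _ ((jPl S φ).comp L.subtype) (fun x => (hK _ le_rfl x.1 x.2).1)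
  let f2 : L →ₗ[ℂ] (Ym R S B ⊓ (⨅ i, LinearMap.ker (fl S rep B i (c0 i))) : Submodule ℂ (V → ℂ)) :=
    LinearMap.codRestrict _ ((jMl S φ).comp L.subtype) (fun x => (hK _ le_rfl x.1 x.2).2)
  have hinj : Function.Injective (f1.prod f2) := by
    rw [← LinearMap.ker_eq_bot, LinearMap.ker_eq_bot']
    intro x hx
    have e1 : f1 x = 0 := congrArg Prod.fst hx
    have e2 : f2 x = 0 := congrArg Prod.snd hx
    have e1' : jPl S φ x.1 = 0 := congrArg Subtype.val e1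
    have e2' : jMl S φ x.1 = 0 := congrArg Subtype.val e2
    exact Subtype.ext (j_inj S s1 φ hφ0 x.1 e1' e2')
  have := LinearMap.finrank_le_finrank_of_injective hinj
  rw [Module.finrank_prod] at this
  omega

/-- TARGET 2. -/
theorem E2easy {V : Type} [Fintype V] [DecidableEq V] (G : SimpleGraph V) [DecidableRel G.Adj]
    (R S : Equiv.Perm V) (ζ : ℂ) (u0 v0 : V) (m : ℕ) (rep : Fin m → V × V)
    (h : Dat G 3 R S ζ u0 v0 m rep)
    (B : V → V → Prop) [DecidableRel B]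
    (hB : ∀ a b, B a b ↔ ∃ K, Blk G R S K ∧ a ∈ K ∧ b ∈ K)
    (heasy : B u0 u0 ∨ ∃ k : ℕ, (R ^ k) u0 = v0) :
    ∃ (c : Fin m → Bool) (τ : Fin m → ℂ),
      finrank ℂ (LimK S rep (fun i => ¬ B (rep i).1 (rep i).2) c τ (Qb R ζ B ⊓ Flat u0 v0)) ≤ 1 := by
  obtain ⟨c0, φ, h1, hφ0, hφR, hφ⟩ := j_data G R S ζ u0 v0 m rep h B hB
  obtain ⟨hone, hprod, hK⟩ := j_main G R S ζ u0 v0 m rep h B hB c0 φ h1 hφ0 hφR hφ
  have : Nonempty V := ⟨u0⟩
  obtain ⟨hz, -⟩ := j_prod (jPP R S rep B c0) _ h1 hone hprod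
  refine ⟨jext rep B c0, fun i => φ (pr S rep i (jext rep B c0 i)).1, ?_⟩
  set L := LimK S rep (fun i => ¬ B (rep i).1 (rep i).2) (jext rep B c0)
      (fun i => φ (pr S rep i (jext rep B c0 i)).1) (Qb R ζ B ⊓ Flat u0 v0) with hL
  obtain ⟨s1, s2⟩ := j_sym R S h.hSS h.hSRS
  obtain ⟨-, -, -, -, -, BS, BnS, -⟩ := B_facts G R S ζ u0 v0 m rep h B hB
  let f1 : L →ₗ[ℂ] jPP R S rep B c0 :=
    LinearMap.codRestrict _ ((jPl S φ).comp L.subtype) (fun x => (hK _ inf_le_left x.1 x.2).1)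
  have hMu : ∀ x ∈ L, jMl S φ x u0 = 0 := by
    intro x hx
    obtain ⟨⟨⟨⟨q1, q2⟩, q3, q4⟩, ⟨e1, e2⟩⟩, -⟩ := hx
    have hM : ∀ y, jMl S φ y u0 = y.1 u0 / φ u0 + y.2 u0 - y.2 (S u0) := fun y => rfl
    rw [hM]
    have hx10 : x.1 u0 = 0 ∧ x.2 (S u0) = x.2 u0 := by
      rcases heasy with hb | ⟨k, hk⟩
      · refine ⟨q3 _ hb, ?_⟩
        rcases h.h0S with hs | hs
        · exact absurd hb (by rw [← hs.1] ; exact fun hb' => BnS u0 (by simpa [hs.1] using hb'))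
        · rw [hs.1, e2]
      · have hpow1 : ∀ (n : ℕ) (v : V), x.1 ((R ^ n) v) = (ζ ^ 2) ^ n * x.1 v := by
          intro n
          induction n with
          | zero => intro v; simp
          | succ n ih =>
            intro v
            have : (R ^ (n + 1)) v = R ((R ^ n) v) := by
              rw [pow_succ']; rfl
            rw [this, q1, ih]; ring
        have hpow2 : ∀ (n : ℕ) (v : V), x.2 ((R ^ n) v) = x.2 v := by
          intro n
          induction n with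
          | zero => intro v; simp
          | succ n ih =>
            intro v
            have : (R ^ (n + 1)) v = R ((R ^ n) v) := by
              rw [pow_succ']; rfl
            rw [this, q2, ih]
        have hne : u0 ≠ v0 := h.h0.ne
        have hζ3 := h.hζ
        have hζk : (ζ ^ 2) ^ k ≠ 1 := by
          intro hcon
          -- write k = 3 q + r
          have hr : k % 3 < 3 := Nat.mod_lt _ (by norm_num)
          have hdec := Nat.div_add_mod k 3
          have hRk : (R ^ k) = R ^ (k % 3) := by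
            conv_lhs => rw [← hdec]
            rw [pow_add, pow_mul, h.hRn, one_pow, one_mul]
          have hzk : (ζ ^ 2) ^ k = (ζ ^ 2) ^ (k % 3) := by
            conv_lhs => rw [← hdec]
            rw [pow_add, pow_mul]
            have : (ζ ^ 2) ^ 3 = 1 := by
              rw [← pow_mul, mul_comm, pow_mul, hζ3, one_pow]
            rw [this, one_pow, one_mul]
          rw [hzk] at hcon
          rw [hRk] at hk
          have hζ1 := h.hζ1
          interval_cases hkk : k % 3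
          · exact hne (by simpa using hk)
          · apply hζ1
            have : ζ ^ 3 = ζ * (ζ ^ 2) ^ 1 := by ring
            rw [hcon, mul_one, hζ3] at this
            exact this.symm
          · apply hζ1
            have : (ζ ^ 2) ^ 2 = ζ * ζ ^ 3 := by ring
            rw [hcon, hζ3, mul_one] at this
            exact this.symm
        have e3 : x.1 v0 = (ζ ^ 2) ^ k * x.1 u0 := by rw [← hk, hpow1]
        have e4 : x.1 u0 = 0 := by
          have : (1 - (ζ ^ 2) ^ k) * x.1 u0 = 0 := by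
            rw [← e1] at e3
            linear_combination e3
          rcases mul_eq_zero.mp this with h' | h'
          · exact absurd (sub_eq_zero.mp h').symm hζk
          · exact h'
        refine ⟨e4, ?_⟩
        rcases h.h0S with hs | hs
        · rw [hs.1]
        · rw [hs.1, ← e2]
    rw [hx10.1, hx10.2]
    simp
  have hinj : Function.Injective f1 := by
    rw [← LinearMap.ker_eq_bot, LinearMap.ker_eq_bot']
    intro x hx
    have e1' : jPl S φ x.1 = 0 := congrArg Subtype.val hx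
    have e2' : jMl S φ x.1 = 0 :=
      hz _ (hK _ inf_le_left x.1 x.2).2 u0 (hMu x.1 x.2)
    exact Subtype.ext (j_inj S s1 φ hφ0 x.1 e1' e2')
  exact (LinearMap.finrank_le_finrank_of_injective hinj).trans h1

/-- TARGET 3. -/
theorem E2kill {V : Type} [Fintype V] [DecidableEq V] (G : SimpleGraph V) [DecidableRel G.Adj]
    (R S : Equiv.Perm V) (ζ : ℂ) (u0 v0 : V) (m : ℕ) (rep : Fin m → V × V)
    (h : Dat G 3 R S ζ u0 v0 m rep)
    (B : V → V → Prop) [DecidableRel B]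
    (hB : ∀ a b, B a b ↔ ∃ K, Blk G R S K ∧ a ∈ K ∧ b ∈ K)
    (j : IH rep B) (c : IH rep B → Bool) (b : Bool)
    (hSt : finrank ℂ (X0q R S B u0 v0 ⊓ (⨅ i, ⨅ (_ : i ≠ j), LinearMap.ker (fl S rep B i (c i))) :
      Submodule ℂ (V → ℂ)) ≤ 1)
    (φ : V → ℂ) (hφ0 : ∀ v, φ v ≠ 0) (hφR : ∀ v, φ (R v) = ζ ^ 2 * φ v)
    (hφc : ∀ i, i ≠ j → φ (pr S rep i.1 (c i)).1 = φ (pr S rep i.1 (c i)).2) (hφe : φ u0 = φ v0)
    (hkill : ∀ M ∈ Ym R S B, M u0 = M v0 →
      (∀ i, i ≠ j → M (pr S rep i.1 (c i)).1 = M (pr S rep i.1 (c i)).2) →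
      M (pr S rep j.1 b).1 = M (pr S rep j.1 b).2 →
      φ (pr S rep j.1 b).1 * (M (pr S rep j.1 b).1 + M (S (pr S rep j.1 b).1))
        = φ (pr S rep j.1 b).2 * (M (pr S rep j.1 b).2 + M (S (pr S rep j.1 b).2)) → M = 0) :
    ∃ (c : Fin m → Bool) (τ : Fin m → ℂ),
      finrank ℂ (LimK S rep (fun i => ¬ B (rep i).1 (rep i).2) c τ (Qb R ζ B ⊓ Flat u0 v0)) ≤ 1 := by
  obtain ⟨s1, s2⟩ := j_sym R S h.hSS h.hSRS
  obtain ⟨Bsymm, Btr, -, -, -, BS, BnS, -⟩ := B_facts G R S ζ u0 v0 m rep h B hB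
  set c' : IH rep B → Bool := fun i => if i = j then b else c i with hc'
  set τ : Fin m → ℂ := fun i => if i = j.1 then 0 else φ (pr S rep i (jext rep B c' i)).1 with hτ
  refine ⟨jext rep B c', τ, ?_⟩
  set L := LimK S rep (fun i => ¬ B (rep i).1 (rep i).2) (jext rep B c') τ
    (Qb R ζ B ⊓ Flat u0 v0) with hL
  set PP : Submodule ℂ (V → ℂ) :=
    X0q R S B u0 v0 ⊓ (⨅ i, ⨅ (_ : i ≠ j), LinearMap.ker (fl S rep B i (c i))) with hPP
  have key : ∀ x ∈ L, jPl S φ x ∈ PP ∧ (jPl S φ x = 0 → x = 0) := by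
    intro x hx
    obtain ⟨⟨hxQ, ⟨e1, e2⟩⟩, hrow⟩ := hx
    obtain ⟨m1, m2⟩ := j_mem R S ζ h.hζ h.hSS h.hSRS B Bsymm Btr BS φ hφ0 hφR x hxQ
    have hfl : ∀ i : IH rep B, i ≠ j →
        jPl S φ x (pr S rep i.1 (c i)).1 = jPl S φ x (pr S rep i.1 (c i)).2 ∧
        jMl S φ x (pr S rep i.1 (c i)).1 = jMl S φ x (pr S rep i.1 (c i)).2 := by
      intro i hij
      obtain ⟨r1, r2⟩ := hrow i.1 i.2
      have hci : jext rep B c' i.1 = c i := by
        rw [jext_eq]; simp only [hc', if_neg hij]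
      have hτi : τ i.1 = φ (pr S rep i.1 (c i)).1 := by
        have hne : i.1 ≠ j.1 := fun hh => hij (Subtype.ext hh)
        simp only [hτ, if_neg hne, hci]
      rw [hci] at r1 r2
      rw [hτi] at r1
      exact j_flat S φ hφ0 x _ _ (hφc i hij) r1 r2
    have e3 : x.2 (S u0) = x.2 (S v0) := by
      rcases h.h0S with hs | hs
      · rw [hs.1, hs.2, e2]
      · rw [hs.1, hs.2, e2]
    have hP0 : jPl S φ x u0 = jPl S φ x v0 := by
      have a1 : jPl S φ x u0 = x.1 u0 / φ u0 + x.2 u0 + x.2 (S u0) := rfl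
      have a2 : jPl S φ x v0 = x.1 v0 / φ v0 + x.2 v0 + x.2 (S v0) := rfl
      rw [a1, a2, e1, e2, e3, hφe]
    have hM0 : jMl S φ x u0 = jMl S φ x v0 := by
      have a1 : jMl S φ x u0 = x.1 u0 / φ u0 + x.2 u0 - x.2 (S u0) := rfl
      have a2 : jMl S φ x v0 = x.1 v0 / φ v0 + x.2 v0 - x.2 (S v0) := rfl
      rw [a1, a2, e1, e2, e3, hφe]
    refine ⟨⟨⟨m1, ?_⟩, ?_⟩, ?_⟩
    · simp only [SetLike.mem_coe, LinearMap.mem_ker, dif, LinearMap.sub_apply, LinearMap.proj_apply]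
      exact sub_eq_zero.mpr hP0
    · simp only [SetLike.mem_coe, Submodule.mem_iInf, mem_fl]
      exact fun i hi => (hfl i hi).1
    · intro hPz
      have hx2 : ∀ v, x.2 (S v) = - jMl S φ x v / 2 := by
        intro v
        have a1 : jPl S φ x v = x.1 v / φ v + x.2 v + x.2 (S v) := rfl
        have a2 : jMl S φ x v = x.1 v / φ v + x.2 v - x.2 (S v) := rfl
        have a3 : jPl S φ x v = 0 := by rw [hPz]; rfl
        rw [a2]
        linear_combination (a3 - a1) / 2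
      have hx2' : ∀ v, x.2 v = - jMl S φ x (S v) / 2 := by
        intro v
        rw [← hx2 (S v), s1]
      have hx1 : ∀ v, x.1 v = φ v * (jMl S φ x v + jMl S φ x (S v)) / 2 := by
        intro v
        have a2 : jMl S φ x v = x.1 v / φ v + x.2 v - x.2 (S v) := rfl
        have a4 := hx2 v
        have a5 := hx2' v
        have a6 : x.1 v / φ v = (jMl S φ x v + jMl S φ x (S v)) / 2 := by
          linear_combination -a2 + a4 - a5
        rw [div_eq_iff (hφ0 v)] at a6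
        rw [a6]; ring
      obtain ⟨r1, r2⟩ := hrow j.1 j.2
      have hcj : jext rep B c' j.1 = b := by
        rw [jext_eq]; simp only [hc', if_true]
      have hτj : τ j.1 = 0 := by simp only [hτ, if_true]
      rw [hcj] at r1 r2
      rw [hτj, zero_mul, add_zero] at r1
      have hM := hkill (jMl S φ x) m2 hM0 (fun i hi => (hfl i hi).2) (by
        rw [hx2, hx2] at r2
        linear_combination (-2) * r2) (by
        rw [hx1, hx1] at r1
        linear_combination 2 * r1)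
      exact j_inj S s1 φ hφ0 x hPz hM
  let f1 : L →ₗ[ℂ] PP :=
    LinearMap.codRestrict _ ((jPl S φ).comp L.subtype) (fun x => (key x.1 x.2).1)
  have hinj : Function.Injective f1 := by
    rw [← LinearMap.ker_eq_bot, LinearMap.ker_eq_bot']
    intro x hx
    have e1' : jPl S φ x.1 = 0 := congrArg Subtype.val hx
    exact Subtype.ext ((key x.1 x.2).2 e1')
  exact (LinearMap.finrank_le_finrank_of_injective hinj).trans hSt

end Pool.Agent.DihLaman.J863
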