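import Pool.Agent.Helper927.DLDefs
import Pool.Agent.Helper927.DL763
set_option autoImplicit false
set_option maxHeartbeats 4000000
open Module Submodule

namespace Pool.Agent.DihLaman.J861
open Pool.Agent.DihLaman
open Pool.Agent.DihLaman.J763 (B_facts)

/-- R-invariant functions supported on W. -/
def InvW {V : Type} (R : V → V) (W : Finset V) : Submodule ℂ (V → ℂ) where
  carrier := {P | (∀ v, P (R v) = P v) ∧ ∀ v, v ∉ W → P v = 0}
  add_mem' := by
    rintro x y ⟨h1, h2⟩ ⟨k1, k2⟩
    exact ⟨fun v => by simp only [Pi.add_apply, h1 v, k1 v],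
      fun v hv => by simp only [Pi.add_apply, h2 v hv, k2 v hv, add_zero]⟩
  zero_mem' := ⟨fun v => rfl, fun v _ => rfl⟩
  smul_mem' := by
    rintro c x ⟨h1, h2⟩
    exact ⟨fun v => by simp only [Pi.smul_apply, h1 v],
      fun v hv => by simp only [Pi.smul_apply, h2 v hv, smul_zero]⟩

theorem R_cube {V : Type} (R : Equiv.Perm V) (hR : R ^ 3 = 1) (v : V) : R (R (R v)) = v := by
  have := congrArg (fun f : Equiv.Perm V => f v) hR
  simpa [pow_succ, Equiv.Perm.mul_apply] using this

theorem pow_cases {V : Type} (R : Equiv.Perm V) (hR : R ^ 3 = 1) (k : ℕ) :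
    R ^ k = 1 ∨ R ^ k = R ∨ R ^ k = R ^ 2 := by
  have h1 : R ^ k = R ^ (k % 3) := by
    conv_lhs => rw [← Nat.div_add_mod k 3, pow_add, pow_mul, hR, one_pow, one_mul]
  have h2 : k % 3 < 3 := Nat.mod_lt _ (by norm_num)
  rw [h1]
  interval_cases (k % 3)
  · left; simp
  · right; left; simp
  · right; right; rfl

theorem InvW_dim {V : Type} [Fintype V] [DecidableEq V] (R : Equiv.Perm V) (hR : R ^ 3 = 1)
    (hfree : ∀ v, R v ≠ v) (W : Finset V) (hRW : ∀ v ∈ W, R v ∈ W) :
    3 * finrank ℂ (InvW R W : Submodule ℂ (V → ℂ)) ≤ W.card := by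
  classical
  have hc := R_cube R hR
  have hfree2 : ∀ v, R (R v) ≠ v := by
    intro v hv
    have := hc v
    rw [hv] at this
    exact hfree v this
  let e : V → ℕ := fun v => (Fintype.equivFin V v : ℕ)
  have he : Function.Injective e := fun a b hab =>
    (Fintype.equivFin V).injective (Fin.ext hab)
  let W' : Finset V := W.filter (fun v => e v ≤ e (R v) ∧ e v ≤ e (R (R v)))
  have hfin : finrank ℂ (InvW R W : Submodule ℂ (V → ℂ)) ≤ W'.card := by
    let ev : (InvW R W : Submodule ℂ (V → ℂ)) →ₗ[ℂ] (W' → ℂ) :=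
      { toFun := fun P v => P.1 v.1
        map_add' := fun P Q => by funext v; rfl
        map_smul' := fun c P => by funext v; rfl }
    have hinj : Function.Injective ev := by
      rw [← LinearMap.ker_eq_bot, LinearMap.ker_eq_bot']
      intro P hP
      apply Subtype.ext
      funext v
      have hP' : ∀ w ∈ W', P.1 w = 0 := fun w hw => congrFun hP ⟨w, hw⟩
      have h1 : ∀ v, P.1 (R v) = P.1 v := P.2.1
      have h2 : ∀ v, v ∉ W → P.1 v = 0 := P.2.2
      by_cases hv : v ∈ W
      · have hv1 := hRW v hv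
        have hv2 := hRW _ hv1
        have h3 : R (R (R v)) = v := hc v
        rcases le_total (e v) (e (R v)) with a | a
        · rcases le_total (e v) (e (R (R v))) with b | b
          · exact hP' v (Finset.mem_filter.2 ⟨hv, a, b⟩)
          · have := hP' (R (R v)) (Finset.mem_filter.2 ⟨hv2, by rw [h3]; exact b,
              by rw [h3]; exact b.trans a⟩)
            rw [h1, h1] at this
            exact this
        · rcases le_total (e (R v)) (e (R (R v))) with b | b
          · have := hP' (R v) (Finset.mem_filter.2 ⟨hv1, b, by rw [h3]; exact a⟩)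
            rw [h1] at this
            exact this
          · have := hP' (R (R v)) (Finset.mem_filter.2 ⟨hv2, by rw [h3]; exact b.trans a,
              by rw [h3]; exact b⟩)
            rw [h1, h1] at this
            exact this
      · exact h2 v hv
    have := LinearMap.finrank_le_finrank_of_injective hinj
    simpa using this
  have hcard : 3 * W'.card ≤ W.card := by
    have hmin : ∀ v ∈ W', ∀ k : ℕ, e v ≤ e ((R ^ k) v) := by
      intro v hv k
      have hv' := (Finset.mem_filter.1 hv).2
      rcases pow_cases R hR k with h | h | h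
      · rw [h]; simp
      · rw [h]; exact hv'.1
      · rw [h, pow_two, Equiv.Perm.mul_apply]; exact hv'.2
    have hpowW : ∀ k : ℕ, ∀ v ∈ W, (R ^ k) v ∈ W := by
      intro k
      induction k with
      | zero => intro v hv; simpa using hv
      | succ k ih =>
        intro v hv
        rw [pow_succ', Equiv.Perm.mul_apply]
        exact hRW _ (ih v hv)
    have hne : ∀ k : ℕ, k < 3 → ∀ v, (R ^ k) v = v → k = 0 := by
      intro k hk v hv
      interval_cases k
      · rfl
      · exact absurd hv (by simpa using hfree v)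
      · exact absurd hv (by rw [pow_two, Equiv.Perm.mul_apply]; exact hfree2 v)
    have key : (Finset.range 3 ×ˢ W').card ≤ W.card := by
      apply Finset.card_le_card_of_injOn (fun x => (R ^ x.1) x.2)
      · intro x hx
        have hx' := Finset.mem_product.1 (Finset.mem_coe.1 hx)
        exact hpowW _ _ (Finset.mem_filter.1 hx'.2).1
      · rintro ⟨k, v⟩ hx ⟨l, w⟩ hy hxy
        have hx' := Finset.mem_product.1 (Finset.mem_coe.1 hx)
        have hy' := Finset.mem_product.1 (Finset.mem_coe.1 hy)
        simp only [Finset.mem_range] at hx' hy'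
        simp only at hxy
        have e1 : w = (R ^ ((3 - l) + k)) v := by
          rw [pow_add, Equiv.Perm.mul_apply, hxy, ← Equiv.Perm.mul_apply, ← pow_add,
            Nat.sub_add_cancel hy'.1.le, hR]
          rfl
        have e2 : v = (R ^ ((3 - k) + l)) w := by
          rw [pow_add, Equiv.Perm.mul_apply, ← hxy, ← Equiv.Perm.mul_apply, ← pow_add,
            Nat.sub_add_cancel hx'.1.le, hR]
          rfl
        have h1 : e v ≤ e w := by
          have := hmin v hx'.2 ((3 - l) + k)
          rwa [← e1] at this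
        have h2 : e w ≤ e v := by
          have := hmin w hy'.2 ((3 - k) + l)
          rwa [← e2] at this
        have hvw : v = w := he (le_antisymm h1 h2)
        subst hvw
        have hk3 := hx'.1
        have hl3 := hy'.1
        have : k = l := by
          rcases le_total k l with hkl | hkl
          · have h5 : (R ^ (l - k)) v = v := by
              apply (R ^ k).injective
              rw [← Equiv.Perm.mul_apply, ← pow_add, Nat.add_sub_cancel' hkl]
              exact hxy.symm
            have := hne (l - k) (by omega) v h5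
            omega
          · have h5 : (R ^ (k - l)) v = v := by
              apply (R ^ l).injective
              rw [← Equiv.Perm.mul_apply, ← pow_add, Nat.add_sub_cancel' hkl]
              exact hxy
            have := hne (k - l) (by omega) v h5
            omega
        rw [this]
    rw [Finset.card_product, Finset.card_range] at key
    exact key
  omega

theorem spec_card {V : Type} [Fintype V] [DecidableEq V] (R : Equiv.Perm V) (hR : R ^ 3 = 1)
    (u0 v0 : V) (T : Finset (V × V)) (hT : ∀ x ∈ T, Spec R u0 v0 x.1 x.2) : T.card ≤ 6 := by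
  classical
  have hsub : T ⊆ ((Finset.range 3).image (fun k => ((R ^ k) u0, (R ^ k) v0))) ∪
      ((Finset.range 3).image (fun k => ((R ^ k) v0, (R ^ k) u0))) := by
    intro x hx
    obtain ⟨k, hk⟩ := hT x hx
    have hkr : ∃ l < 3, R ^ k = R ^ l := by
      rcases pow_cases R hR k with h | h | h
      · exact ⟨0, by norm_num, by simpa using h⟩
      · exact ⟨1, by norm_num, by simpa using h⟩
      · exact ⟨2, by norm_num, h⟩
    obtain ⟨l, hl, hkl⟩ := hkr
    rw [hkl] at hk
    rw [Finset.mem_union, Finset.mem_image, Finset.mem_image]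
    rcases hk with hk | hk
    · left; exact ⟨l, Finset.mem_range.2 hl, Prod.ext hk.1.symm hk.2.symm⟩
    · right; exact ⟨l, Finset.mem_range.2 hl, Prod.ext hk.1.symm hk.2.symm⟩
  refine (Finset.card_le_card hsub).trans ((Finset.card_union_le _ _).trans ?_)
  have h1 := Finset.card_image_le (s := Finset.range 3) (f := fun k => ((R ^ k) u0, (R ^ k) v0))
  have h2 := Finset.card_image_le (s := Finset.range 3) (f := fun k => ((R ^ k) v0, (R ^ k) u0))
  rw [Finset.card_range] at h1 h2
  omega

/-- TARGET 1. -/
theorem FamW_dim {V : Type} [Fintype V] [DecidableEq V] (G : SimpleGraph V) [DecidableRel G.Adj]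
    (R S : Equiv.Perm V) (ζ : ℂ) (u0 v0 : V) (m : ℕ) (rep : Fin m → V × V)
    (h : Dat G 3 R S ζ u0 v0 m rep)
    (B : V → V → Prop) [DecidableRel B]
    (hB : ∀ a b, B a b ↔ ∃ K, Blk G R S K ∧ a ∈ K ∧ b ∈ K)
    (h0u : ¬ B u0 u0) (h0v : ¬ B v0 v0) (h0R : ∀ k : ℕ, (R ^ k) u0 ≠ v0)
    (W : Finset V) (hW : FamW G R S B u0 v0 W) (hnB : ∀ v ∈ W, ¬ B v v) :
    finrank ℂ (X0q R S B u0 v0 ⊓ SuppF W : Submodule ℂ (V → ℂ))
      ≤ Fintype.card {i : IH rep B // (rep i.1).1 ∈ W ∧ (rep i.1).2 ∈ W} := by
  classical
  obtain ⟨hBs, hBt, -⟩ := B_facts G R S ζ u0 v0 m rep h B hB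
  obtain ⟨hu0W, hv0W, hRW, hSW, -, hcard⟩ := hW
  have hR3 : R ^ 3 = 1 := h.hRn
  have hc := R_cube R hR3
  have hSS : ∀ v, S (S v) = v := by
    intro v
    have := congrArg (fun f : Equiv.Perm V => f v) h.hSS
    simpa [Equiv.Perm.mul_apply] using this
  -- upper bound for |W|
  let J : Finset (Fin m) := Finset.univ.filter
    (fun i => ¬ B (rep i).1 (rep i).2 ∧ (rep i).1 ∈ W ∧ (rep i).2 ∈ W)
  have hJN : Fintype.card {i : IH rep B // (rep i.1).1 ∈ W ∧ (rep i.1).2 ∈ W} = J.card := by
    rw [Fintype.card_congr (Equiv.subtypeSubtypeEquivSubtypeInter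
      (fun i : Fin m => ¬ B (rep i).1 (rep i).2) (fun i => (rep i).1 ∈ W ∧ (rep i).2 ∈ W))]
    rw [Fintype.card_subtype]
  rw [hJN]
  have hpowW' : ∀ k : ℕ, ∀ v, (R ^ k) v ∈ W → v ∈ W := by
    have hone : ∀ v, R v ∈ W → v ∈ W := by
      intro v hv
      have := hRW _ (hRW _ hv)
      rwa [hc] at this
    intro k
    induction k with
    | zero => intro v hv; simpa using hv
    | succ k ih =>
      intro v hv
      rw [pow_succ, Equiv.Perm.mul_apply] at hv
      exact hone v (ih _ hv)
  have hSW' : ∀ v, S v ∈ W → v ∈ W := by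
    intro v hv
    have := hSW _ hv
    rwa [hSS] at this
  have hupper : W.card ≤ 3 * J.card + 3 := by
    have hsplit : ((W ×ˢ W).filter (fun x : V × V => G.Adj x.1 x.2)) ⊆
        ((W ×ˢ W).filter (fun x : V × V => Spec R u0 v0 x.1 x.2)) ∪
        (Finset.univ.filter (fun x : V × V =>
          ∃ i ∈ J, ∃ k : ℕ, k < 3 ∧ ∃ ε δ : Bool, x = op R S k ε δ (rep i))) := by
      rintro ⟨a, b⟩ hx
      rw [Finset.mem_filter, Finset.mem_product] at hx
      obtain ⟨⟨ha, hb⟩, hab⟩ := hx
      rw [Finset.mem_union]
      by_cases hs : Spec R u0 v0 a b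
      · left
        rw [Finset.mem_filter, Finset.mem_product]
        exact ⟨⟨ha, hb⟩, hs⟩
      · right
        obtain ⟨k, hk, ε, δ, i, hi⟩ := h.hcov a b hab hs
        rw [Finset.mem_filter]
        refine ⟨Finset.mem_univ _, i, ?_, k, hk, ε, δ, hi⟩
        have hW2 : (rep i).1 ∈ W ∧ (rep i).2 ∈ W := by
          simp only [op] at hi
          cases ε <;> cases δ <;> simp only [Bool.false_eq_true, if_false, if_true,
            Prod.mk.injEq] at hi <;> obtain ⟨h1, h2⟩ := hi <;> subst h1 <;> subst h2
          · exact ⟨hpowW' _ _ ha, hpowW' _ _ hb⟩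
          · exact ⟨hpowW' _ _ hb, hpowW' _ _ ha⟩
          · exact ⟨hSW' _ (hpowW' _ _ ha), hSW' _ (hpowW' _ _ hb)⟩
          · exact ⟨hSW' _ (hpowW' _ _ hb), hSW' _ (hpowW' _ _ ha)⟩
        rw [Finset.mem_filter]
        refine ⟨Finset.mem_univ _, fun hBi => ?_, hW2⟩
        exact hnB _ hW2.1 (hBt _ _ _ hBi (hBs _ _ hBi))
    have h1 := Finset.card_le_card hsplit
    have h2 := Finset.card_union_le ((W ×ˢ W).filter (fun x : V × V => Spec R u0 v0 x.1 x.2))
      (Finset.univ.filter (fun x : V × V =>
          ∃ i ∈ J, ∃ k : ℕ, k < 3 ∧ ∃ ε δ : Bool, x = op R S k ε δ (rep i)))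
    have h3 : ((W ×ˢ W).filter (fun x : V × V => Spec R u0 v0 x.1 x.2)).card ≤ 6 :=
      spec_card R hR3 u0 v0 _ (fun x hx => (Finset.mem_filter.1 hx).2)
    have h4 := h.hJ J
    have h5 : (Finset.univ.filter (fun x : V × V =>
          ∃ i ∈ J, ∃ k : ℕ, k < 3 ∧ ∃ ε δ : Bool, x = op R S k ε δ (rep i))).card
          = 4 * 3 * J.card := by
      rw [← h4]
    omega
  -- lower bound
  have hlow := InvW_dim R hR3 h.hfree W hRW
  have hlt : (X0q R S B u0 v0 ⊓ SuppF W : Submodule ℂ (V → ℂ)) < InvW R W := by
    refine lt_of_le_of_ne ?_ ?_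
    · intro P hP
      obtain ⟨⟨hY, _⟩, hs⟩ := hP
      exact ⟨hY.1, hs⟩
    · intro heq
      let g : V → ℂ := fun v => if (v = u0 ∨ v = R u0 ∨ v = R (R u0)) then 1 else 0
      have hg : g ∈ (InvW R W : Submodule ℂ (V → ℂ)) := by
        refine ⟨fun v => ?_, fun v hv => ?_⟩
        · have hiff : (R v = u0 ∨ R v = R u0 ∨ R v = R (R u0)) ↔
              (v = u0 ∨ v = R u0 ∨ v = R (R u0)) := by
            constructor
            · rintro (h1 | h1 | h1)
              · right; right
                apply R.injective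
                rw [h1, hc]
              · left; exact R.injective h1
              · right; left; exact R.injective h1
            · rintro (h1 | h1 | h1)
              · right; left; rw [h1]
              · right; right; rw [h1]
              · left; rw [h1, hc]
          show (if (R v = u0 ∨ R v = R u0 ∨ R v = R (R u0)) then (1 : ℂ) else 0) =
            if (v = u0 ∨ v = R u0 ∨ v = R (R u0)) then 1 else 0
          rw [if_congr hiff rfl rfl]
        · show (if (v = u0 ∨ v = R u0 ∨ v = R (R u0)) then (1 : ℂ) else 0) = 0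
          rw [if_neg]
          rintro (h1 | h1 | h1)
          · exact hv (h1 ▸ hu0W)
          · exact hv (h1 ▸ hRW _ hu0W)
          · exact hv (h1 ▸ hRW _ (hRW _ hu0W))
      rw [← heq] at hg
      obtain ⟨⟨_, hk⟩, _⟩ := hg
      have hk' : g u0 - g v0 = 0 := by
        have := LinearMap.mem_ker.1 hk
        simpa [dif] using this
      have h1 : g u0 = 1 := by
        show (if (u0 = u0 ∨ u0 = R u0 ∨ u0 = R (R u0)) then (1 : ℂ) else 0) = 1
        rw [if_pos (Or.inl rfl)]
      have h2 : g v0 = 0 := by
        show (if (v0 = u0 ∨ v0 = R u0 ∨ v0 = R (R u0)) then (1 : ℂ) else 0) = 0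
        rw [if_neg]
        rintro (h1 | h1 | h1)
        · exact h0R 0 (by simpa using h1.symm)
        · exact h0R 1 (by simpa using h1.symm)
        · exact h0R 2 (by rw [pow_two, Equiv.Perm.mul_apply]; exact h1.symm)
      rw [h1, h2] at hk'
      norm_num at hk'
  have hfl := Submodule.finrank_lt_finrank_of_lt hlt
  omega

end Pool.Agent.DihLaman.J861
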