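import Pool.Agent.Helper927.DLDefs
import Pool.Agent.Helper927.DL390
set_option autoImplicit false
set_option maxHeartbeats 4000000
open Module Submodule

namespace Pool.Agent.DihLaman.J862
open Pool.Agent.DihLaman
open Pool.Agent.DihLaman.J390 (exchange)

theorem exl_cut {W κ : Type} [AddCommGroup W] [Module ℂ W] [FiniteDimensional ℂ W] [Fintype κ]
    (Y Z : Submodule ℂ W) (g : κ → (W →ₗ[ℂ] ℂ)) (hZ : ∀ x ∈ Y, (∀ k, g k x = 0) → x ∈ Z) :
    finrank ℂ Y ≤ finrank ℂ Z + Fintype.card κ := by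
  have h := LinearMap.finrank_range_add_finrank_ker ((LinearMap.pi g).domRestrict Y)
  have h2 : finrank ℂ (LinearMap.range ((LinearMap.pi g).domRestrict Y)) ≤ Fintype.card κ := by
    refine (Submodule.finrank_le _).trans ?_
    simp
  have h3 : finrank ℂ (LinearMap.ker ((LinearMap.pi g).domRestrict Y)) ≤ finrank ℂ Z := by
    rw [← Submodule.finrank_map_subtype_eq]
    apply Submodule.finrank_mono
    rintro x ⟨y, hy, rfl⟩
    apply hZ _ y.2
    intro k
    have := congrFun (LinearMap.mem_ker.1 hy) k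
    simpa using this
  omega

theorem exl_line {W : Type} [AddCommGroup W] [Module ℂ W] [FiniteDimensional ℂ W]
    (Z : Submodule ℂ W) (one : W) (h1 : one ∈ Z) (h0 : one ≠ 0) (hZ : finrank ℂ Z ≤ 1)
    (x : W) (hx : x ∈ Z) : ∃ c : ℂ, x = c • one := by
  have h1' : (⟨one, h1⟩ : Z) ≠ 0 := by
    intro h
    exact h0 (by simpa using congrArg Subtype.val h)
  have hpos : 0 < finrank ℂ Z := Module.finrank_pos_iff_exists_ne_zero.2 ⟨_, h1'⟩
  have hone : finrank ℂ Z = 1 := by omega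
  have h := (finrank_eq_one_iff_of_nonzero' (⟨one, h1⟩ : Z) h1').1 hone ⟨x, hx⟩
  obtain ⟨c, hc⟩ := h
  exact ⟨c, by simpa using (congrArg Subtype.val hc).symm⟩

theorem exl_line' {W : Type} [AddCommGroup W] [Module ℂ W] [FiniteDimensional ℂ W]
    (Z : Submodule ℂ W) (one : W) (h : ∀ x ∈ Z, ∃ c : ℂ, x = c • one) : finrank ℂ Z ≤ 1 := by
  have h1 : Z ≤ Submodule.span ℂ {one} := by
    intro x hx
    obtain ⟨c, rfl⟩ := h x hx
    exact Submodule.smul_mem _ _ (Submodule.mem_span_singleton_self one)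
  exact (Submodule.finrank_mono h1).trans ((finrank_span_le_card ({one} : Set W)).trans (by simp))

theorem exl_sum {W : Type} [AddCommGroup W] [Module ℂ W] [FiniteDimensional ℂ W]
    (A B C : Submodule ℂ W) (hA : A ≤ C) (hB : B ≤ C) (hAB : ∀ x ∈ A, x ∈ B → x = 0) :
    finrank ℂ A + finrank ℂ B ≤ finrank ℂ C := by
  have h := Submodule.finrank_sup_add_finrank_inf_eq A B
  have h2 : A ⊓ B = ⊥ := by
    rw [Submodule.eq_bot_iff]
    rintro x ⟨h1, h2⟩
    exact hAB x h1 h2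
  rw [h2, finrank_bot, add_zero] at h
  rw [← h]
  exact Submodule.finrank_mono (sup_le hA hB)

/-- TARGET 1. -/
theorem exchange_local {V : Type} [Fintype V] [DecidableEq V] (W0 : Finset V) (u0 : V) (hu0 : u0 ∈ W0)
    (X0 : Submodule ℂ (V → ℂ)) (hone : (fun _ => (1 : ℂ)) ∈ X0)
    (hres : ∀ P ∈ X0, (fun v => if v ∈ W0 then P v else 0) ∈ X0)
    {ι : Type} [Fintype ι] [DecidableEq ι] (f : ι → Bool → ((V → ℂ) →ₗ[ℂ] ℂ)) (ι0 : ι → Prop) [DecidablePred ι0]
    (hf0 : ∀ i, ι0 i → ∀ b, ∀ P P' : V → ℂ, (∀ v ∈ W0, P v = P' v) → f i b P = f i b P')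
    (hf1 : ∀ i b, f i b (fun _ => (1 : ℂ)) = 0)
    (hX0 : finrank ℂ X0 = Fintype.card ι) (j0 : ι) (hj0 : ι0 j0) (c0 : ι → Bool)
    (hSt : finrank ℂ (X0 ⊓ (⨅ i, ⨅ (_ : i ≠ j0), LinearMap.ker (f i (c0 i))) : Submodule ℂ (V → ℂ)) ≤ 1)
    (hdim : finrank ℂ (X0 ⊓ SuppF W0 : Submodule ℂ (V → ℂ)) ≤ Fintype.card {i // ι0 i})
    (Nice : ι → Bool → Prop) (hN : ∀ i, ι0 i → i ≠ j0 → Nice i (c0 i)) :
    (∃ j, ι0 j ∧ ∃ c : ι → Bool, (∀ i, ¬ ι0 i → c i = c0 i) ∧ (∀ i, ι0 i → i ≠ j → Nice i (c i)) ∧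
      finrank ℂ (X0 ⊓ (⨅ i, ⨅ (_ : i ≠ j), LinearMap.ker (f i (c i))) : Submodule ℂ (V → ℂ)) ≤ 1 ∧
      ∃ b, ¬ Nice j b) ∨
    (∃ J : Finset ι, j0 ∈ J ∧ (∀ i ∈ J, ι0 i ∧ ∀ b, Nice i b) ∧
      Fintype.card ι + 1 ≤
        finrank ℂ (X0 ⊓ (⨅ i ∈ J, ⨅ b, LinearMap.ker (f i b)) : Submodule ℂ (V → ℂ)) + J.card) := by
  -- notation
  have hcard : Fintype.card {i // ι0 i} + Fintype.card {i // ¬ ι0 i} = Fintype.card ι :=
    by
      have h1 := Fintype.card_subtype_compl ι0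
      have h2 := Fintype.card_subtype_le ι0
      omega
  have hmS : ∀ P : V → ℂ, P ∈ SuppF W0 ↔ ∀ v, v ∉ W0 → P v = 0 := fun P => Iff.rfl
  have hmC : ∀ P : V → ℂ, P ∈ SuppF W0ᶜ ↔ ∀ v ∈ W0, P v = 0 := by
    intro P
    constructor
    · intro h v hv
      exact h v (by simpa using hv)
    · intro h v hv
      exact h v (by simpa using hv)
  have hone0 : (fun _ : V => (1 : ℂ)) ≠ 0 := by
    intro h
    exact one_ne_zero (congrFun h u0)
  -- (0)
  have hconst : ∀ P ∈ X0, (∀ i, i ≠ j0 → f i (c0 i) P = 0) → ∃ c : ℂ, P = c • (fun _ : V => (1 : ℂ)) := by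
    intro P hP h
    refine exl_line _ _ ?_ hone0 hSt P ?_
    · refine ⟨hone, ?_⟩
      simp only [Submodule.mem_iInf, SetLike.mem_coe, LinearMap.mem_ker]
      intro i _
      exact hf1 _ _
    · refine ⟨hP, ?_⟩
      simp only [Submodule.mem_iInf, SetLike.mem_coe, LinearMap.mem_ker]
      exact h
  have hf00 : ∀ i, ι0 i → ∀ b, ∀ P : V → ℂ, (∀ v ∈ W0, P v = 0) → f i b P = 0 := by
    intro i hi b P hP
    rw [hf0 i hi b P 0 (by simpa using hP), map_zero]
  -- (1)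
  have h1 : finrank ℂ (X0 ⊓ SuppF W0ᶜ : Submodule ℂ (V → ℂ)) ≤ Fintype.card {i // ¬ ι0 i} := by
    have := exl_cut (X0 ⊓ SuppF W0ᶜ) ⊥ (fun i : {i // ¬ ι0 i} => f i.1 (c0 i.1)) (by
      rintro P ⟨hP, hP2⟩ hk
      have hP2' := (hmC P).1 hP2
      obtain ⟨c, hc⟩ := hconst P hP (by
        intro i _
        by_cases hi : ι0 i
        · exact hf00 i hi _ P hP2'
        · exact hk ⟨i, hi⟩)
      have : c = 0 := by
        have := hP2' u0 hu0
        rw [hc] at this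
        simpa using this
      rw [this] at hc
      rw [hc]
      simp)
    rw [finrank_bot, zero_add] at this
    exact this
  have hsum : finrank ℂ X0 ≤ finrank ℂ (X0 ⊓ SuppF W0 : Submodule ℂ (V → ℂ))
      + finrank ℂ (X0 ⊓ SuppF W0ᶜ : Submodule ℂ (V → ℂ)) := by
    have h := Submodule.finrank_sup_add_finrank_inf_eq (X0 ⊓ SuppF W0) (X0 ⊓ SuppF W0ᶜ)
    have h2 : X0 ≤ (X0 ⊓ SuppF W0) ⊔ (X0 ⊓ SuppF W0ᶜ) := by
      intro P hP
      rw [Submodule.mem_sup]
      refine ⟨fun v => if v ∈ W0 then P v else 0, ⟨hres P hP, ?_⟩,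
        P - fun v => if v ∈ W0 then P v else 0, ⟨X0.sub_mem hP (hres P hP), ?_⟩, by simp⟩
      · intro v hv
        simp [hv]
      · refine (hmC _).2 ?_
        intro v hv
        simp [hv]
    have := Submodule.finrank_mono h2
    omega
  have hX' : finrank ℂ (X0 ⊓ SuppF W0 : Submodule ℂ (V → ℂ)) = Fintype.card {i // ι0 i} := by omega
  have hX'' : finrank ℂ (X0 ⊓ SuppF W0ᶜ : Submodule ℂ (V → ℂ)) = Fintype.card {i // ¬ ι0 i} := by
    omega
  have hdisj : ∀ P : V → ℂ, P ∈ SuppF W0ᶜ → P ∈ SuppF W0 → P = 0 := by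
    intro P h1 h2
    funext v
    by_cases hv : v ∈ W0
    · exact (hmC P).1 h1 v hv
    · exact h2 v hv
  -- (2)
  have h2 : finrank ℂ ((X0 ⊓ SuppF W0) ⊓ (⨅ i : {i // ι0 i}, ⨅ (_ : i ≠ ⟨j0, hj0⟩),
      LinearMap.ker (f i.1 (c0 i.1))) : Submodule ℂ (V → ℂ)) ≤ 1 := by
    set Z : Submodule ℂ (V → ℂ) := X0 ⊓ (⨅ i : {i // ι0 i}, ⨅ (_ : i ≠ ⟨j0, hj0⟩),
      LinearMap.ker (f i.1 (c0 i.1))) with hZdef
    have hZ1 : finrank ℂ Z ≤ 1 + Fintype.card {i // ¬ ι0 i} := by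
      refine (exl_cut Z _ (fun i : {i // ¬ ι0 i} => f i.1 (c0 i.1)) ?_).trans
        (Nat.add_le_add_right hSt _)
      rintro P ⟨hP, hP2⟩ hk
      refine ⟨hP, ?_⟩
      simp only [Submodule.mem_iInf, SetLike.mem_coe, LinearMap.mem_ker] at hP2 ⊢
      intro i hij
      by_cases hi : ι0 i
      · exact hP2 ⟨i, hi⟩ (by intro h; exact hij (congrArg Subtype.val h))
      · exact hk ⟨i, hi⟩
    have hZ2 := exl_sum (X0 ⊓ SuppF W0ᶜ) ((X0 ⊓ SuppF W0) ⊓ (⨅ i : {i // ι0 i}, ⨅ (_ : i ≠ ⟨j0, hj0⟩),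
      LinearMap.ker (f i.1 (c0 i.1)))) Z (by
        rintro P ⟨hP, hP2⟩
        refine ⟨hP, ?_⟩
        simp only [Submodule.mem_iInf, SetLike.mem_coe, LinearMap.mem_ker]
        intro i _
        exact hf00 i.1 i.2 _ P ((hmC P).1 hP2)) (by
        rintro P ⟨⟨hP, _⟩, hP2⟩
        exact ⟨hP, hP2⟩) (by
        rintro P ⟨_, h1⟩ ⟨⟨_, h2⟩, _⟩
        exact hdisj P h1 h2)
    omega
  have hone'X : (fun v => if v ∈ W0 then (1 : ℂ) else 0) ∈ (X0 ⊓ SuppF W0) := by
    refine ⟨hres _ hone, ?_⟩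
    intro v hv
    simp [hv]
  have hone'0 : (fun v => if v ∈ W0 then (1 : ℂ) else 0) ≠ 0 := by
    intro h
    have := congrFun h u0
    simp [hu0] at this
  have hone'f : ∀ i, ι0 i → ∀ b, f i b (fun v => if v ∈ W0 then (1 : ℂ) else 0) = 0 := by
    intro i hi b
    rw [hf0 i hi b _ (fun _ => 1) (by intro v hv; simp [hv]), hf1]
  rcases exchange (fun (i : {i // ι0 i}) b => f i.1 b) (X0 ⊓ SuppF W0) hdim
    (fun v => if v ∈ W0 then (1 : ℂ) else 0) hone'X hone'0 (fun i b => hone'f i.1 i.2 b)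
    (fun i b => Nice i.1 b) ⟨j0, hj0⟩ (fun i => c0 i.1)
    (fun i hi => hN i.1 i.2 (fun h => hi (Subtype.ext h))) (by omega) with h | h
  · left
    obtain ⟨j, c, hc, hfin, b, hb⟩ := h
    refine ⟨j.1, j.2, fun i => if hi : ι0 i then c ⟨i, hi⟩ else c0 i, ?_, ?_, ?_, b, hb⟩
    · intro i hi
      simp [hi]
    · intro i hi hij
      simp only [hi, dif_pos]
      exact hc ⟨i, hi⟩ (by intro h; exact hij (congrArg Subtype.val h))
    · apply exl_line' _ (fun _ : V => (1 : ℂ))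
      rintro P ⟨hP, hP2⟩
      simp only [Submodule.mem_iInf, SetLike.mem_coe, LinearMap.mem_ker] at hP2
      have hfin' : finrank ℂ ((X0 ⊓ SuppF W0) ⊓ (⨅ i : {i // ι0 i}, ⨅ (_ : i ≠ j),
          LinearMap.ker (f i.1 (c i))) : Submodule ℂ (V → ℂ)) ≤ 1 := by omega
      have hA : (fun v => if v ∈ W0 then (1 : ℂ) else 0) ∈ ((X0 ⊓ SuppF W0) ⊓ (⨅ i : {i // ι0 i}, ⨅ (_ : i ≠ j),
          LinearMap.ker (f i.1 (c i))) : Submodule ℂ (V → ℂ)) := by
        refine ⟨hone'X, ?_⟩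
        simp only [Submodule.mem_iInf, SetLike.mem_coe, LinearMap.mem_ker]
        intro i _
        exact hone'f i.1 i.2 _
      have hB : (fun v => if v ∈ W0 then P v else 0) ∈ ((X0 ⊓ SuppF W0) ⊓ (⨅ i : {i // ι0 i}, ⨅ (_ : i ≠ j),
          LinearMap.ker (f i.1 (c i))) : Submodule ℂ (V → ℂ)) := by
        refine ⟨⟨hres P hP, ?_⟩, ?_⟩
        · intro v hv
          simp [hv]
        · simp only [Submodule.mem_iInf, SetLike.mem_coe, LinearMap.mem_ker]
          intro i hij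
          rw [hf0 i.1 i.2 _ _ P (by intro v hv; simp [hv])]
          have := hP2 i.1 (fun h => hij (Subtype.ext h))
          simpa [i.2] using this
      obtain ⟨l, hl⟩ := exl_line _ _ hA hone'0 hfin' _ hB
      have hPl : ∀ v ∈ W0, P v = l := by
        intro v hv
        have := congrFun hl v
        simpa [hv] using this
      obtain ⟨c', hc'⟩ := hconst (P - l • (fun _ : V => (1 : ℂ)))
        (X0.sub_mem hP (X0.smul_mem _ hone)) (by
          intro i hij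
          by_cases hi : ι0 i
          · apply hf00 i hi
            intro v hv
            simp [hPl v hv]
          · rw [map_sub, map_smul, hf1]
            have := hP2 i (by intro h; rw [h] at hi; exact hi j.2)
            simp only [hi, dif_neg, not_false_eq_true] at this
            rw [this]
            simp)
      have hc0' : c' = 0 := by
        have := congrFun hc' u0
        simp only [Pi.sub_apply, Pi.smul_apply, hPl u0 hu0, smul_eq_mul, mul_one, sub_self] at this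
        exact this.symm
      rw [hc0', zero_smul, sub_eq_zero] at hc'
      exact ⟨l, hc'⟩
  · right
    obtain ⟨J, hJ0, hJ, hfin⟩ := h
    refine ⟨J.map (Function.Embedding.subtype _), ?_, ?_, ?_⟩
    · simp only [Finset.mem_map, Function.Embedding.subtype_apply]
      exact ⟨_, hJ0, rfl⟩
    · intro i hi
      simp only [Finset.mem_map, Function.Embedding.subtype_apply] at hi
      obtain ⟨k, hk, rfl⟩ := hi
      exact ⟨k.2, hJ k hk⟩
    · rw [Finset.card_map]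
      have := exl_sum (X0 ⊓ SuppF W0ᶜ) ((X0 ⊓ SuppF W0) ⊓ (⨅ i ∈ J, ⨅ b, LinearMap.ker (f i.1 b)))
        (X0 ⊓ (⨅ i ∈ J.map (Function.Embedding.subtype _), ⨅ b, LinearMap.ker (f i b))) (by
          rintro P ⟨hP, hP2⟩
          refine ⟨hP, ?_⟩
          simp only [Submodule.mem_iInf, SetLike.mem_coe, LinearMap.mem_ker]
          intro i hi b
          simp only [Finset.mem_map, Function.Embedding.subtype_apply] at hi
          obtain ⟨k, hk, rfl⟩ := hi
          exact hf00 k.1 k.2 b P ((hmC P).1 hP2)) (by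
          rintro P ⟨⟨hP, _⟩, hP2⟩
          refine ⟨hP, ?_⟩
          simp only [Submodule.mem_iInf, SetLike.mem_coe, LinearMap.mem_ker] at hP2 ⊢
          intro i hi b
          simp only [Finset.mem_map, Function.Embedding.subtype_apply] at hi
          obtain ⟨k, hk, rfl⟩ := hi
          exact hP2 k hk b) (by
          rintro P ⟨_, h1⟩ ⟨⟨_, h2⟩, _⟩
          exact hdisj P h1 h2)
      omega

end Pool.Agent.DihLaman.J862
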