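import Pool.Agent.Helper927.DLDefs
import Pool.Agent.Helper927.DL390
import Pool.Agent.Helper927.DL599
import Pool.Agent.Helper927.DL763
import Pool.Agent.Helper927.DL766
import Pool.Agent.Helper927.DL860
import Pool.Agent.Helper927.DL861
import Pool.Agent.Helper927.DL862
import Pool.Agent.Helper927.DL863
set_option autoImplicit false
set_option maxHeartbeats 4000000
open Module Submodule

namespace Pool.Agent.DihLaman.J864
open Pool.Agent.DihLaman
open Pool.Agent.DihLaman.J763 (B_facts)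
open Pool.Agent.DihLaman.J863 (E2easy)
open Pool.Agent.DihLaman.J863 (E2kill)
open Pool.Agent.DihLaman.J860 (E_counts)
open Pool.Agent.DihLaman.J860 (E_counts0)
open Pool.Agent.DihLaman.J860 (E_counts2)
open Pool.Agent.DihLaman.J860 (FamW_dart)
open Pool.Agent.DihLaman.J861 (FamW_dim)
open Pool.Agent.DihLaman.J390 (exchange)
open Pool.Agent.DihLaman.J862 (exchange_local)
open Pool.Agent.DihLaman.J766 (gauge)
open Pool.Agent.DihLaman.J390 (rado_ker)
open Pool.Agent.DihLaman.J599 (tight_conn)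
open Pool.Agent.DihLaman.J599 (tight_union)

theorem fl_apply' {V : Type} {m : ℕ} (S : V → V) (rep : Fin m → V × V) (B : V → V → Prop) (i : IH rep B)
    (b : Bool) (P : V → ℂ) :
    fl S rep B i b P = P (pr S rep i.1 b).1 - P (pr S rep i.1 b).2 := rfl

theorem mem_st {V : Type} {m : ℕ} (R S : V → V) (rep : Fin m → V × V) (B : V → V → Prop) (u0 v0 : V)
    (j : IH rep B) (c : IH rep B → Bool) (P : V → ℂ) :
    P ∈ (X0q R S B u0 v0 ⊓ (⨅ i, ⨅ (_ : i ≠ j), LinearMap.ker (fl S rep B i (c i))) :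
      Submodule ℂ (V → ℂ)) ↔
      ((∀ v, P (R v) = P v) ∧ (∀ a b, B a b → P a = P b) ∧ (∀ v, B v v → P (S v) = P v) ∧ P u0 = P v0) ∧
      ∀ i, i ≠ j → P (pr S rep i.1 (c i)).1 = P (pr S rep i.1 (c i)).2 := by
  constructor
  · intro hP
    rw [Submodule.mem_inf] at hP
    obtain ⟨h1, h2⟩ := hP
    obtain ⟨h3, h4⟩ := Submodule.mem_inf.mp h1
    obtain ⟨a1, a2, a3, a4⟩ := h3
    refine ⟨⟨a1, a2, a3, ?_⟩, ?_⟩
    · have : P u0 - P v0 = 0 := h4
      exact sub_eq_zero.mp this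
    · intro i hi
      have h5 := (Submodule.mem_iInf _).mp h2 i
      have h6 := (Submodule.mem_iInf _).mp h5 hi
      have h7 : P (pr S rep i.1 (c i)).1 - P (pr S rep i.1 (c i)).2 = 0 := h6
      exact sub_eq_zero.mp h7
  · rintro ⟨⟨a1, a2, a3, a4⟩, a5⟩
    refine Submodule.mem_inf.mpr ⟨Submodule.mem_inf.mpr ⟨⟨a1, a2, a3, fun _ _ hf => hf.elim⟩, ?_⟩, ?_⟩
    · show P u0 - P v0 = 0
      exact sub_eq_zero.mpr a4
    · refine (Submodule.mem_iInf _).mpr fun i => (Submodule.mem_iInf _).mpr fun hi => ?_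
      show P (pr S rep i.1 (c i)).1 - P (pr S rep i.1 (c i)).2 = 0
      exact sub_eq_zero.mpr (a5 i hi)

theorem mem_X0q {V : Type} (R S : V → V) (B : V → V → Prop) (u0 v0 : V) (P : V → ℂ) :
    P ∈ X0q R S B u0 v0 ↔
      (∀ v, P (R v) = P v) ∧ (∀ a b, B a b → P a = P b) ∧ (∀ v, B v v → P (S v) = P v) ∧ P u0 = P v0 := by
  constructor
  · intro h1
    obtain ⟨h3, h4⟩ := Submodule.mem_inf.mp h1
    obtain ⟨a1, a2, a3, a4⟩ := h3
    refine ⟨a1, a2, a3, ?_⟩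
    have : P u0 - P v0 = 0 := h4
    exact sub_eq_zero.mp this
  · rintro ⟨a1, a2, a3, a4⟩
    refine Submodule.mem_inf.mpr ⟨⟨a1, a2, a3, fun _ _ hf => hf.elim⟩, ?_⟩
    show P u0 - P v0 = 0
    exact sub_eq_zero.mpr a4

theorem pow_type {V : Type} (R : Equiv.Perm V) (F : V → ℂ) (η : ℂ) (hF : ∀ v, F (R v) = η * F v)
    (k : ℕ) : ∀ v, F ((R ^ k) v) = η ^ k * F v := by
  induction k with
  | zero => intro v; simp
  | succ k ih =>
    intro v
    rw [pow_succ', Equiv.Perm.mul_apply, hF, ih]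
    ring

theorem op_flat {V : Type} (R S : Equiv.Perm V) (F : V → ℂ) (η : ℂ) (hF : ∀ v, F (R v) = η * F v)
    (k : ℕ) (ε δ : Bool) (x : V × V) (h1 : F x.1 = F x.2) (h2 : F (S x.1) = F (S x.2)) :
    F (op R S k ε δ x).1 = F (op R S k ε δ x).2 := by
  cases ε <;> cases δ <;> simp [op, pow_type R F η hF, h1, h2]

theorem spec_flat {V : Type} (R : Equiv.Perm V) (F : V → ℂ) (η : ℂ) (hF : ∀ v, F (R v) = η * F v)
    (u0 v0 a b : V) (h0 : F u0 = F v0) (hs : Spec R u0 v0 a b) : F a = F b := by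
  obtain ⟨k, ⟨rfl, rfl⟩ | ⟨rfl, rfl⟩⟩ := hs <;> simp [pow_type R F η hF, h0]

/-- product trick -/
theorem const_of_le_one {V : Type} [Fintype V] (x0 : V) (X : Submodule ℂ (V → ℂ)) (hX : finrank ℂ X ≤ 1)
    (h1 : (fun _ => (1 : ℂ)) ∈ X) (P : V → ℂ) (hP : P ∈ X) : ∀ v, P v = P x0 := by
  obtain ⟨w, hw⟩ := finrank_le_one_iff.mp hX
  obtain ⟨a, ha⟩ := hw ⟨_, h1⟩
  obtain ⟨b, hb⟩ := hw ⟨_, hP⟩
  have ha' : ∀ v, a * w.1 v = 1 := by
    intro v
    have := congrArg (fun z : X => z.1 v) ha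
    simpa using this
  have hb' : ∀ v, b * w.1 v = P v := by
    intro v
    have := congrArg (fun z : X => z.1 v) hb
    simpa using this
  have ha0 : a ≠ 0 := by
    intro h
    have := ha' x0
    rw [h, zero_mul] at this
    exact zero_ne_one this
  intro v
  have e1 : w.1 v = w.1 x0 := by
    apply mul_left_cancel₀ ha0
    rw [ha', ha']
  rw [← hb' v, ← hb' x0, e1]

/-- membership in the space of antisymmetric multipliers of a state -/
def MS {V : Type} {m : ℕ} (R S : V → V) (rep : Fin m → V × V) (B : V → V → Prop) (u0 v0 : V)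
    (j : IH rep B) (c : IH rep B → Bool) (M : V → ℂ) : Prop :=
  M ∈ Ym R S B ∧ M u0 = M v0 ∧ ∀ i, i ≠ j → M (pr S rep i.1 (c i)).1 = M (pr S rep i.1 (c i)).2

theorem MS_mul {V : Type} {m : ℕ} (R S : V → V) (rep : Fin m → V × V) (B : V → V → Prop) (u0 v0 : V)
    (j : IH rep B) (c : IH rep B → Bool) (M M' : V → ℂ) (h : MS R S rep B u0 v0 j c M)
    (h' : MS R S rep B u0 v0 j c M') :
    (fun v => M v * M' v) ∈ (X0q R S B u0 v0 ⊓ (⨅ i, ⨅ (_ : i ≠ j), LinearMap.ker (fl S rep B i (c i))) :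
      Submodule ℂ (V → ℂ)) := by
  rw [mem_st]
  obtain ⟨⟨a1, a2, a3⟩, a4, a5⟩ := h
  obtain ⟨⟨b1, b2, b3⟩, b4, b5⟩ := h'
  refine ⟨⟨fun v => ?_, fun a b hab => ?_, fun v hv => ?_, ?_⟩, fun i hi => ?_⟩
  · simp only [a1 v, b1 v]
  · simp only [a2 a b hab, b2 a b hab]
  · simp only [a3 v hv, b3 v hv]; ring
  · simp only [a4, b4]
  · simp only [a5 i hi, b5 i hi]

theorem one_mem_st {V : Type} {m : ℕ} (R S : V → V) (rep : Fin m → V × V) (B : V → V → Prop) (u0 v0 : V)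
    (j : IH rep B) (c : IH rep B → Bool) :
    (fun _ => (1 : ℂ)) ∈ (X0q R S B u0 v0 ⊓ (⨅ i, ⨅ (_ : i ≠ j), LinearMap.ker (fl S rep B i (c i))) :
      Submodule ℂ (V → ℂ)) := by
  rw [mem_st]
  exact ⟨⟨fun _ => rfl, fun _ _ _ => rfl, fun _ _ => rfl, rfl⟩, fun _ _ => rfl⟩

theorem MS_mult {V : Type} [Fintype V] {m : ℕ} (R S : V → V) (rep : Fin m → V × V) (B : V → V → Prop)
    (u0 v0 : V) (j : IH rep B) (c : IH rep B → Bool)
    (hSt : finrank ℂ (X0q R S B u0 v0 ⊓ (⨅ i, ⨅ (_ : i ≠ j), LinearMap.ker (fl S rep B i (c i))) :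
      Submodule ℂ (V → ℂ)) ≤ 1) (M M' : V → ℂ) (h : MS R S rep B u0 v0 j c M)
    (h' : MS R S rep B u0 v0 j c M') (hM : M ≠ 0) :
    (∀ v, M v ≠ 0) ∧ ∃ k : ℂ, ∀ v, M' v = k * M v := by
  have e1 : ∀ v, M v * M v = M u0 * M u0 :=
    const_of_le_one u0 _ hSt (one_mem_st R S rep B u0 v0 j c) _ (MS_mul R S rep B u0 v0 j c M M h h)
  have e2 : ∀ v, M v * M' v = M u0 * M' u0 :=
    const_of_le_one u0 _ hSt (one_mem_st R S rep B u0 v0 j c) _ (MS_mul R S rep B u0 v0 j c M M' h h')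
  have h0 : M u0 * M u0 ≠ 0 := by
    intro h0
    apply hM
    funext v
    have := e1 v
    rw [h0] at this
    simpa using this
  have hnz : ∀ v, M v ≠ 0 := by
    intro v hv
    have := e1 v
    rw [hv, zero_mul] at this
    exact h0 this.symm
  refine ⟨hnz, M u0 * M' u0 / (M u0 * M u0), fun v => ?_⟩
  have := e2 v
  have h3 := e1 v
  have h4 := hnz v
  have h5 := hnz u0
  rw [div_mul_eq_mul_div, eq_div_iff h0]
  linear_combination (-M' v) * h3 + M v * this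

theorem FamW_univ {V : Type} [Fintype V] [DecidableEq V] (G : SimpleGraph V) [DecidableRel G.Adj]
    (R S : Equiv.Perm V) (ζ : ℂ) (u0 v0 : V) (m : ℕ) (rep : Fin m → V × V)
    (h : Dat G 3 R S ζ u0 v0 m rep) (B : V → V → Prop) : FamW G R S B u0 v0 Finset.univ := by
  refine ⟨Finset.mem_univ _, Finset.mem_univ _, fun _ _ => Finset.mem_univ _, fun _ _ => Finset.mem_univ _,
    fun _ _ _ _ => Finset.mem_univ _, ?_⟩
  rw [Finset.univ_product_univ, Finset.card_univ]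
  exact h.hcount

theorem FamW_inter {V : Type} [Fintype V] [DecidableEq V] (G : SimpleGraph V) [DecidableRel G.Adj]
    (R S : Equiv.Perm V) (ζ : ℂ) (u0 v0 : V) (m : ℕ) (rep : Fin m → V × V)
    (h : Dat G 3 R S ζ u0 v0 m rep) (B : V → V → Prop) (W W' : Finset V)
    (hW : FamW G R S B u0 v0 W) (hW' : FamW G R S B u0 v0 W') : FamW G R S B u0 v0 (W ∩ W') := by
  obtain ⟨a1, a2, a3, a4, a5, a6⟩ := hW
  obtain ⟨b1, b2, b3, b4, b5, b6⟩ := hW'
  have hne : u0 ≠ v0 := h.h0.ne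
  have hc : 2 ≤ (W ∩ W').card := by
    have hsub : ({u0, v0} : Finset V) ⊆ W ∩ W' := by
      intro x hx
      simp only [Finset.mem_insert, Finset.mem_singleton] at hx
      rcases hx with rfl | rfl
      · exact Finset.mem_inter.mpr ⟨a1, b1⟩
      · exact Finset.mem_inter.mpr ⟨a2, b2⟩
    calc 2 = ({u0, v0} : Finset V).card := (Finset.card_pair hne).symm
      _ ≤ _ := Finset.card_le_card hsub
  refine ⟨Finset.mem_inter.mpr ⟨a1, b1⟩, Finset.mem_inter.mpr ⟨a2, b2⟩, fun v hv => ?_, fun v hv => ?_,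
    fun a ha b hab => ?_, (tight_union G h.hsparse W W' a6 b6 hc).2.1⟩
  · rw [Finset.mem_inter] at hv ⊢
    exact ⟨a3 v hv.1, b3 v hv.2⟩
  · rw [Finset.mem_inter] at hv ⊢
    exact ⟨a4 v hv.1, b4 v hv.2⟩
  · rw [Finset.mem_inter] at ha ⊢
    exact ⟨a5 a ha.1 b hab, b5 a ha.2 b hab⟩

theorem FamW_min {V : Type} [Fintype V] [DecidableEq V] (G : SimpleGraph V) [DecidableRel G.Adj]
    (R S : Equiv.Perm V) (ζ : ℂ) (u0 v0 : V) (m : ℕ) (rep : Fin m → V × V)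
    (h : Dat G 3 R S ζ u0 v0 m rep) (B : V → V → Prop) :
    ∃ W0, FamW G R S B u0 v0 W0 ∧ ∀ W, FamW G R S B u0 v0 W → W0 ⊆ W := by
  classical
  have hne : ∃ k, ∃ W, FamW G R S B u0 v0 W ∧ W.card = k :=
    ⟨_, Finset.univ, FamW_univ G R S ζ u0 v0 m rep h B, rfl⟩
  obtain ⟨W0, h0, hk⟩ := Nat.find_spec hne
  refine ⟨W0, h0, fun W hW => ?_⟩
  have h1 := FamW_inter G R S ζ u0 v0 m rep h B W W0 hW h0
  have h2 : Nat.find hne ≤ (W ∩ W0).card := Nat.find_min' hne ⟨_, h1, rfl⟩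
  have h3 : W ∩ W0 = W0 := Finset.eq_of_subset_of_card_le Finset.inter_subset_right (by omega)
  rw [← h3]
  exact Finset.inter_subset_left

/-- one functional drops the dimension by at most one -/
theorem finrank_inf_ker {W : Type} [AddCommGroup W] [Module ℂ W] [FiniteDimensional ℂ W]
    (Y : Submodule ℂ W) (f : W →ₗ[ℂ] ℂ) :
    finrank ℂ Y ≤ finrank ℂ (Y ⊓ LinearMap.ker f : Submodule ℂ W) + 1 := by
  have h1 := Submodule.finrank_sup_add_finrank_inf_eq Y (LinearMap.ker f)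
  have h2 := LinearMap.finrank_range_add_finrank_ker f
  have h3 : finrank ℂ (LinearMap.range f) ≤ 1 := by
    calc finrank ℂ (LinearMap.range f) ≤ finrank ℂ ℂ := Submodule.finrank_le _
      _ = 1 := Module.finrank_self ℂ
  have h4 : finrank ℂ (Y ⊔ LinearMap.ker f : Submodule ℂ W) ≤ finrank ℂ W := Submodule.finrank_le _
  omega

theorem not_spec_case {V : Type} [Fintype V] [DecidableEq V] (G : SimpleGraph V) [DecidableRel G.Adj]
    (R S : Equiv.Perm V) (ζ : ℂ) (u0 v0 : V) (m : ℕ) (rep : Fin m → V × V)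
    (h : Dat G 3 R S ζ u0 v0 m rep)
    (B : V → V → Prop) [DecidableRel B] (J : Finset (IH rep B)) (W : Finset V) (j : IH rep B)
    (hj : j ∉ J) (hj1 : (rep j.1).1 ∈ W) (hj2 : (rep j.1).2 ∈ W)
    (hW : ∀ a ∈ W, ∀ b ∈ W, G.Adj a b → ¬ B a b →
      (∃ i ∈ J, ∃ k : ℕ, k < 3 ∧ ∃ ε δ : Bool, (a, b) = op R S k ε δ (rep i.1)) ∨ Spec R u0 v0 a b) :
    False := by
  rcases hW _ hj1 _ hj2 (h.hrepA j.1) j.2 with ⟨i, hi, k, hk, ε, δ, he⟩ | hs
  · have e0 : op R S 0 false false (rep j.1) = op R S k ε δ (rep i.1) := by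
      rw [← he]
      simp [op]
    have := h.huniq 0 k (by norm_num) hk false ε false δ j.1 i.1 e0
    apply hj
    have : j = i := Subtype.ext this.2.2.2
    rw [this]
    exact hi
  · exact h.hrepS j.1 hs

theorem X0q_finrank {V : Type} [Fintype V] [DecidableEq V] (G : SimpleGraph V) [DecidableRel G.Adj]
    (R S : Equiv.Perm V) (ζ : ℂ) (u0 v0 : V) (m : ℕ) (rep : Fin m → V × V)
    (h : Dat G 3 R S ζ u0 v0 m rep)
    (B : V → V → Prop) [DecidableRel B]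
    (hB : ∀ a b, B a b ↔ ∃ K, Blk G R S K ∧ a ∈ K ∧ b ∈ K)
    (h0u : ¬ B u0 u0) (h0v : ¬ B v0 v0) (h0R : ∀ k : ℕ, (R ^ k) u0 ≠ v0) :
    finrank ℂ (X0q R S B u0 v0) = Fintype.card (IH rep B) := by
  apply le_antisymm
  · rcases E_counts2 G R S ζ u0 v0 m rep h B hB h0u h0v h0R ∅ with h1 | ⟨W, hW, hW2⟩
    · have e0 : (X0q R S B u0 v0 ⊓ (⨅ i ∈ (∅ : Finset (IH rep B)), ⨅ b, LinearMap.ker (fl S rep B i b)) :
          Submodule ℂ (V → ℂ)) = X0q R S B u0 v0 := by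
        rw [inf_eq_left]
        intro P _
        simp only [Submodule.mem_iInf]
        intro i hi
        exact absurd hi (Finset.notMem_empty i)
      rw [e0, Finset.card_empty, add_zero] at h1
      exact h1
    · exfalso
      obtain ⟨i, hi1, hi2⟩ := FamW_dart G R S ζ u0 v0 m rep h B hB h0u h0v h0R W hW
      exact not_spec_case G R S ζ u0 v0 m rep h B ∅ W i (by simp) hi1 hi2 hW2
  · have h1 := E_counts0 G R S ζ u0 v0 m rep h B hB
    have h2 := finrank_inf_ker (Yq R S B (fun _ _ => False)) (dif (u0, v0))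
    have h3 : (Yq R S B (fun _ _ => False) ⊓ LinearMap.ker (dif (u0, v0)) : Submodule ℂ (V → ℂ)) =
      X0q R S B u0 v0 := rfl
    rw [h3] at h2
    omega

theorem E2_start {V : Type} [Fintype V] [DecidableEq V] (G : SimpleGraph V) [DecidableRel G.Adj]
    (R S : Equiv.Perm V) (ζ : ℂ) (u0 v0 : V) (m : ℕ) (rep : Fin m → V × V)
    (h : Dat G 3 R S ζ u0 v0 m rep)
    (B : V → V → Prop) [DecidableRel B]
    (hB : ∀ a b, B a b ↔ ∃ K, Blk G R S K ∧ a ∈ K ∧ b ∈ K)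
    (h0u : ¬ B u0 u0) (h0v : ¬ B v0 v0) (h0R : ∀ k : ℕ, (R ^ k) u0 ≠ v0)
    (j0 : IH rep B) (hj : ∀ W, FamW G R S B u0 v0 W → (rep j0.1).1 ∈ W ∧ (rep j0.1).2 ∈ W) :
    ∃ c0 : IH rep B → Bool, finrank ℂ (X0q R S B u0 v0 ⊓
      (⨅ i, ⨅ (_ : i ≠ j0), LinearMap.ker (fl S rep B i (c0 i))) : Submodule ℂ (V → ℂ)) ≤ 1 := by
  classical
  obtain ⟨c, -, hc⟩ := rado_ker (fun i b => if i = j0 then (0 : (V → ℂ) →ₗ[ℂ] ℂ) else fl S rep B i b)
    (X0q R S B u0 v0) (Fintype.card (IH rep B) + 1) (fun _ => Finset.univ) (fun _ => Finset.univ_nonempty)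
    (by
      intro J
      have e1 : (X0q R S B u0 v0 ⊓ (⨅ i ∈ J, ⨅ b ∈ (Finset.univ : Finset Bool), LinearMap.ker
          (if i = j0 then (0 : (V → ℂ) →ₗ[ℂ] ℂ) else fl S rep B i b)) : Submodule ℂ (V → ℂ)) =
          X0q R S B u0 v0 ⊓ (⨅ i ∈ J.erase j0, ⨅ b, LinearMap.ker (fl S rep B i b)) := by
        congr 1
        ext P
        simp only [Submodule.mem_iInf, Finset.mem_erase, Finset.mem_univ, true_imp_iff]
        constructor
        · rintro h1 i ⟨hi1, hi2⟩ b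
          have := h1 i hi2 b
          rwa [if_neg hi1] at this
        · intro h1 i hi b
          by_cases hij : i = j0
          · rw [if_pos hij]; simp
          · rw [if_neg hij]
            exact h1 i ⟨hij, hi⟩ b
      rw [e1]
      rcases E_counts2 G R S ζ u0 v0 m rep h B hB h0u h0v h0R (J.erase j0) with h1 | ⟨W, hW, hW2⟩
      · have := Finset.pred_card_le_card_erase (s := J) (a := j0)
        omega
      · exfalso
        exact not_spec_case G R S ζ u0 v0 m rep h B (J.erase j0) W j0 (by simp) (hj W hW).1 (hj W hW).2 hW2)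
  refine ⟨c, ?_⟩
  have e2 : (X0q R S B u0 v0 ⊓ (⨅ i, LinearMap.ker
          (if i = j0 then (0 : (V → ℂ) →ₗ[ℂ] ℂ) else fl S rep B i (c i))) : Submodule ℂ (V → ℂ)) =
          X0q R S B u0 v0 ⊓ (⨅ i, ⨅ (_ : i ≠ j0), LinearMap.ker (fl S rep B i (c i))) := by
    congr 1
    ext P
    simp only [Submodule.mem_iInf]
    constructor
    · intro h1 i hi
      have := h1 i
      rwa [if_neg hi] at this
    · intro h1 i
      by_cases hij : i = j0
      · rw [if_pos hij]; simp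
      · rw [if_neg hij]
        exact h1 i hij
  rw [e2] at hc
  omega

theorem E2_gauge {V : Type} [Fintype V] [DecidableEq V] (G : SimpleGraph V) [DecidableRel G.Adj]
    (R S : Equiv.Perm V) (ζ : ℂ) (u0 v0 : V) (m : ℕ) (rep : Fin m → V × V)
    (h : Dat G 3 R S ζ u0 v0 m rep)
    (B : V → V → Prop) [DecidableRel B]
    (hB : ∀ a b, B a b ↔ ∃ K, Blk G R S K ∧ a ∈ K ∧ b ∈ K)
    (j : IH rep B) (c : IH rep B → Bool)
    (hSt : finrank ℂ (X0q R S B u0 v0 ⊓ (⨅ i, ⨅ (_ : i ≠ j), LinearMap.ker (fl S rep B i (c i))) :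
      Submodule ℂ (V → ℂ)) ≤ 1) :
    ∃ φ : V → ℂ, (∀ v, φ v ≠ 0) ∧ (∀ v, φ (R v) = ζ ^ 2 * φ v) ∧
      (∀ i, i ≠ j → φ (pr S rep i.1 (c i)).1 = φ (pr S rep i.1 (c i)).2) ∧ φ u0 = φ v0 := by
  classical
  obtain ⟨φ, h1, h2, h3⟩ := gauge R h.hRn h.hfree ζ h.hζ (Yq R S B (fun _ _ => False))
    (fun g hg => hg.1) (fun i : IH rep B => if i = j then (u0, v0) else pr S rep i.1 (c i))
    (E_counts0 G R S ζ u0 v0 m rep h B hB)
    (by
      refine le_trans (Submodule.finrank_mono ?_) hSt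
      intro P hP
      obtain ⟨k1, k2⟩ := Submodule.mem_inf.mp hP
      rw [Submodule.mem_iInf] at k2
      rw [mem_st]
      refine ⟨⟨k1.1, k1.2.1, k1.2.2.1, ?_⟩, fun i hi => ?_⟩
      · have := k2 j
        rw [if_pos rfl] at this
        have h7 : P u0 - P v0 = 0 := this
        exact sub_eq_zero.mp h7
      · have := k2 i
        rw [if_neg hi] at this
        have h7 : P (pr S rep i.1 (c i)).1 - P (pr S rep i.1 (c i)).2 = 0 := this
        exact sub_eq_zero.mp h7)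
  refine ⟨φ, h1, h2, fun i hi => ?_, ?_⟩
  · have := h3 i
    simp only [if_neg hi] at this
    exact this
  · have := h3 j
    simpa using this

theorem E2_getM {V : Type} [Fintype V] [DecidableEq V] (G : SimpleGraph V) [DecidableRel G.Adj]
    (R S : Equiv.Perm V) (ζ : ℂ) (u0 v0 : V) (m : ℕ) (rep : Fin m → V × V)
    (h : Dat G 3 R S ζ u0 v0 m rep)
    (B : V → V → Prop) [DecidableRel B]
    (hB : ∀ a b, B a b ↔ ∃ K, Blk G R S K ∧ a ∈ K ∧ b ∈ K)
    (hno : ¬ ∃ (c : Fin m → Bool) (τ : Fin m → ℂ),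
      finrank ℂ (LimK S rep (fun i => ¬ B (rep i).1 (rep i).2) c τ (Qb R ζ B ⊓ Flat u0 v0)) ≤ 1)
    (j : IH rep B) (c : IH rep B → Bool) (b : Bool)
    (hSt : finrank ℂ (X0q R S B u0 v0 ⊓ (⨅ i, ⨅ (_ : i ≠ j), LinearMap.ker (fl S rep B i (c i))) :
      Submodule ℂ (V → ℂ)) ≤ 1)
    (φ : V → ℂ) (hφ0 : ∀ v, φ v ≠ 0) (hφR : ∀ v, φ (R v) = ζ ^ 2 * φ v)
    (hφc : ∀ i, i ≠ j → φ (pr S rep i.1 (c i)).1 = φ (pr S rep i.1 (c i)).2) (hφe : φ u0 = φ v0) :
    ∃ M, M ≠ 0 ∧ MS R S rep B u0 v0 j c M ∧ M (pr S rep j.1 b).1 = M (pr S rep j.1 b).2 ∧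
      φ (pr S rep j.1 b).1 * (M (pr S rep j.1 b).1 + M (S (pr S rep j.1 b).1))
        = φ (pr S rep j.1 b).2 * (M (pr S rep j.1 b).2 + M (S (pr S rep j.1 b).2)) := by
  by_contra hcon
  apply hno
  refine E2kill G R S ζ u0 v0 m rep h B hB j c b hSt φ hφ0 hφR hφc hφe ?_
  intro M hM h1 h2 h3 h4
  by_contra h5
  exact hcon ⟨M, h5, ⟨hM, h1, h2⟩, h3, h4⟩

theorem pow_mem_of {V : Type} (R : Equiv.Perm V) (W : Finset V) (hR : ∀ v ∈ W, R v ∈ W) (k : ℕ) :
    ∀ v ∈ W, (R ^ k) v ∈ W := by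
  induction k with
  | zero => intro v hv; simpa using hv
  | succ k ih =>
    intro v hv
    rw [pow_succ', Equiv.Perm.mul_apply]
    exact hR _ (ih v hv)

theorem mem_iff_R {V : Type} (R : Equiv.Perm V) (hR3 : R ^ 3 = 1) (W : Finset V)
    (hR : ∀ v ∈ W, R v ∈ W) (v : V) : R v ∈ W ↔ v ∈ W := by
  refine ⟨fun hv => ?_, hR v⟩
  have h1 := pow_mem_of R W hR 2 _ hv
  have h2 : (R ^ 2) (R v) = v := by
    have : (R ^ 3) v = v := by rw [hR3]; rfl
    rw [← Equiv.Perm.mul_apply, ← pow_succ]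
    exact this
  rwa [h2] at h1

theorem SS_apply {V : Type} (S : Equiv.Perm V) (hSS : S * S = 1) (v : V) : S (S v) = v := by
  rw [← Equiv.Perm.mul_apply, hSS]; rfl

theorem mem_iff_S {V : Type} (S : Equiv.Perm V) (hSS : S * S = 1) (W : Finset V)
    (hS : ∀ v ∈ W, S v ∈ W) (v : V) : S v ∈ W ↔ v ∈ W := by
  refine ⟨fun hv => ?_, hS v⟩
  have := hS _ hv
  rwa [SS_apply S hSS] at this

theorem pr_mem {V : Type} {m : ℕ} (S : V → V) (rep : Fin m → V × V) (W : Finset V)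
    (hS : ∀ v ∈ W, S v ∈ W) (i : Fin m) (h1 : (rep i).1 ∈ W) (h2 : (rep i).2 ∈ W) (b : Bool) :
    (pr S rep i b).1 ∈ W ∧ (pr S rep i b).2 ∈ W := by
  cases b
  · exact ⟨hS _ h1, hS _ h2⟩
  · exact ⟨h1, h2⟩

/-- a function of type η which is flat on all orbits in J and on the special pair is equal at the ends
of the pairs listed in E_counts2 -/
theorem flat_ends {V : Type} {m : ℕ} (R S : Equiv.Perm V) (rep : Fin m → V × V) (B : V → V → Prop)
    (u0 v0 : V) (F : V → ℂ) (η : ℂ) (hF : ∀ v, F (R v) = η * F v) (h0 : F u0 = F v0)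
    (J : Finset (IH rep B))
    (hJ : ∀ i ∈ J, ∀ b, F (pr S rep i.1 b).1 = F (pr S rep i.1 b).2) (a b : V)
    (hab : (∃ i ∈ J, ∃ k : ℕ, k < 3 ∧ ∃ ε δ : Bool, (a, b) = op R S k ε δ (rep i.1)) ∨ Spec R u0 v0 a b) :
    F a = F b := by
  rcases hab with ⟨i, hi, k, hk, ε, δ, he⟩ | hs
  · have h1 := hJ i hi true
    have h2 := hJ i hi false
    have := op_flat R S F η hF k ε δ (rep i.1) h1 h2
    rw [← he] at this
    exact this
  · exact spec_flat R F η hF u0 v0 a b h0 hs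

theorem E2_hard {V : Type} [Fintype V] [DecidableEq V] (G : SimpleGraph V) [DecidableRel G.Adj]
    (R S : Equiv.Perm V) (ζ : ℂ) (u0 v0 : V) (m : ℕ) (rep : Fin m → V × V)
    (h : Dat G 3 R S ζ u0 v0 m rep)
    (B : V → V → Prop) [DecidableRel B]
    (hB : ∀ a b, B a b ↔ ∃ K, Blk G R S K ∧ a ∈ K ∧ b ∈ K)
    (h0u : ¬ B u0 u0) (h0v : ¬ B v0 v0) (h0R : ∀ k : ℕ, (R ^ k) u0 ≠ v0) 
    (hno : ¬ ∃ (c : Fin m → Bool) (τ : Fin m → ℂ),
      finrank ℂ (LimK S rep (fun i => ¬ B (rep i).1 (rep i).2) c τ (Qb R ζ B ⊓ Flat u0 v0)) ≤ 1) :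
    False := by
  classical
  obtain ⟨W0, hW0, hmin⟩ := FamW_min G R S ζ u0 v0 m rep h B
  obtain ⟨j0, hj01, hj02⟩ := FamW_dart G R S ζ u0 v0 m rep h B hB h0u h0v h0R W0 hW0
  have hN := X0q_finrank G R S ζ u0 v0 m rep h B hB h0u h0v h0R
  obtain ⟨c0, hSt0⟩ := E2_start G R S ζ u0 v0 m rep h B hB h0u h0v h0R j0
    (fun W hW => ⟨hmin W hW hj01, hmin W hW hj02⟩)
  obtain ⟨φ, hφ0, hφR, hφc, hφe⟩ := E2_gauge G R S ζ u0 v0 m rep h B hB j0 c0 hSt0
  obtain ⟨M, hM0, hMS, -, -⟩ := E2_getM G R S ζ u0 v0 m rep h B hB hno j0 c0 true hSt0 φ hφ0 hφR hφc hφe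
  obtain ⟨hMY, hMe, hMc⟩ := id hMS
  obtain ⟨hMR, hMB, hMS'⟩ := id hMY
  have hMnz := (MS_mult (⇑R) (⇑S) rep B u0 v0 j0 c0 hSt0 M M hMS hMS hM0).1
  have hMR1 : ∀ v, M (R v) = 1 * M v := fun v => by rw [one_mul]; exact hMR v
  have hone : (fun _ => (1 : ℂ)) ∈ X0q R S B u0 v0 := by
    rw [mem_X0q]
    exact ⟨fun _ => rfl, fun _ _ _ => rfl, fun _ _ => rfl, rfl⟩
  have hone0 : (fun _ : V => (1 : ℂ)) ≠ 0 := fun hf => by
    have := congrFun hf u0
    exact one_ne_zero this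
  have hfone : ∀ (i : IH rep B) (b : Bool), fl S rep B i b (fun _ => (1 : ℂ)) = 0 := by
    intro i b
    rw [fl_apply']; ring
  -- Stage 1
  have stage1 : (∀ v ∈ W0, ¬ B v v) ∧ ∀ v ∈ W0, M v = M u0 := by
    rcases exchange (fun i b => fl S rep B i b) (X0q R S B u0 v0) hN.le (fun _ => (1 : ℂ)) hone hone0
      hfone (fun i b => M (pr S rep i.1 b).1 = M (pr S rep i.1 b).2) j0 c0 hMc (by omega) with
      ⟨j, c, hc, hfr, b, hb⟩ | ⟨J, hj0J, hJN, hJf⟩
    · exfalso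
      have hSt : finrank ℂ (X0q R S B u0 v0 ⊓ (⨅ i, ⨅ (_ : i ≠ j), LinearMap.ker (fl S rep B i (c i))) :
        Submodule ℂ (V → ℂ)) ≤ 1 := by
        rw [hN] at hfr
        omega
      obtain ⟨φ', k1, k2, k3, k4⟩ := E2_gauge G R S ζ u0 v0 m rep h B hB j c hSt
      obtain ⟨M', l1, l2, l3, -⟩ := E2_getM G R S ζ u0 v0 m rep h B hB hno j c b hSt φ' k1 k2 k3 k4
      have hMj : MS R S rep B u0 v0 j c M := ⟨hMY, hMe, hc⟩
      obtain ⟨-, k, hk⟩ := MS_mult (⇑R) (⇑S) rep B u0 v0 j c hSt M' M l2 hMj l1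
      apply hb
      rw [hk, hk, l3]
    · rcases E_counts2 G R S ζ u0 v0 m rep h B hB h0u h0v h0R J with h1 | ⟨W, hW, hW2⟩
      · exfalso
        rw [hN] at hJf
        omega
      · have hends : ∀ a ∈ W, ∀ b ∈ W, G.Adj a b → M a = M b := by
          intro a ha b hb hab
          by_cases hBab : B a b
          · exact hMB a b hBab
          · exact flat_ends R S rep B u0 v0 M 1 hMR1 hMe J hJN a b (hW2 a ha b hb hab hBab)
        have hconst := tight_conn G h.hsparse W hW.2.2.2.2.2 M hends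
        have hsub := hmin W hW
        have hW0c : ∀ v ∈ W0, M v = M u0 := fun v hv => hconst v (hsub hv) u0 hW.1
        refine ⟨fun v hv hBv => ?_, hW0c⟩
        have e1 := hMS' v hBv
        rw [hW0c (S v) (hW0.2.2.2.1 v hv), hW0c v hv] at e1
        have e2 : M u0 = 0 := by
          have : (2 : ℂ) * M u0 = 0 := by linear_combination e1
          simpa using this
        exact hMnz u0 e2
  obtain ⟨hnB, hMW⟩ := stage1
  -- Stage 2
  have hW0R := hW0.2.2.1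
  have hW0S := hW0.2.2.2.1
  have hres : ∀ P ∈ X0q R S B u0 v0, (fun v => if v ∈ W0 then P v else 0) ∈ X0q R S B u0 v0 := by
    intro P hP
    rw [mem_X0q] at hP ⊢
    obtain ⟨p1, p2, p3, p4⟩ := hP
    refine ⟨fun v => ?_, fun a b hab => ?_, fun v hv => ?_, ?_⟩
    · simp only [mem_iff_R R h.hRn W0 hW0R v, p1 v]
    · have hfacts := B_facts G R S ζ u0 v0 m rep h B hB
      have hba := hfacts.1 a b hab
      have haa := hfacts.2.1 a b a hab hba
      have hbb := hfacts.2.1 b a b hba hab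
      rw [if_neg (fun ha => hnB a ha haa), if_neg (fun hb => hnB b hb hbb)]
    · simp only [mem_iff_S S h.hSS W0 hW0S v, p3 v hv]
    · rw [if_pos hW0.1, if_pos hW0.2.1, p4]
  have hf0 : ∀ i : IH rep B, ((rep i.1).1 ∈ W0 ∧ (rep i.1).2 ∈ W0) → ∀ b, ∀ P P' : V → ℂ,
      (∀ v ∈ W0, P v = P' v) → fl S rep B i b P = fl S rep B i b P' := by
    intro i hi b P P' hPP
    obtain ⟨q1, q2⟩ := pr_mem (⇑S) rep W0 hW0S i.1 hi.1 hi.2 b
    rw [fl_apply', fl_apply', hPP _ q1, hPP _ q2]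
  rcases exchange_local W0 u0 hW0.1 (X0q R S B u0 v0) hone hres (fun i b => fl S rep B i b)
    (fun i => (rep i.1).1 ∈ W0 ∧ (rep i.1).2 ∈ W0) hf0 hfone hN j0 ⟨hj01, hj02⟩ c0 hSt0
    (FamW_dim G R S ζ u0 v0 m rep h B hB h0u h0v h0R W0 hW0 hnB)
    (fun i b => φ (pr S rep i.1 b).1 = φ (pr S rep i.1 b).2) (fun i _ hi => hφc i hi) with
    ⟨j, hj, c, hcc, hc, hSt, b, hb⟩ | ⟨J, hj0J, hJN, hJf⟩
  · have hφj : ∀ i, i ≠ j → φ (pr S rep i.1 (c i)).1 = φ (pr S rep i.1 (c i)).2 := by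
      intro i hi
      by_cases hi0 : (rep i.1).1 ∈ W0 ∧ (rep i.1).2 ∈ W0
      · exact hc i hi0 hi
      · rw [hcc i hi0]
        apply hφc
        rintro rfl
        exact hi0 ⟨hj01, hj02⟩
    have hMj : MS R S rep B u0 v0 j c M := by
      refine ⟨hMY, hMe, fun i hi => ?_⟩
      by_cases hi0 : (rep i.1).1 ∈ W0 ∧ (rep i.1).2 ∈ W0
      · obtain ⟨q1, q2⟩ := pr_mem (⇑S) rep W0 hW0S i.1 hi0.1 hi0.2 (c i)
        rw [hMW _ q1, hMW _ q2]
      · rw [hcc i hi0]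
        apply hMc
        rintro rfl
        exact hi0 ⟨hj01, hj02⟩
    obtain ⟨M', l1, l2, l3, l4⟩ := E2_getM G R S ζ u0 v0 m rep h B hB hno j c b hSt φ hφ0 hφR hφj hφe
    obtain ⟨-, k, hk⟩ := MS_mult (⇑R) (⇑S) rep B u0 v0 j c hSt M M' hMj l2 hM0
    obtain ⟨q1, q2⟩ := pr_mem (⇑S) rep W0 hW0S j.1 hj.1 hj.2 b
    apply hb
    rw [hk, hk, hk, hk, hMW _ q1, hMW _ q2, hMW _ (hW0S _ q1), hMW _ (hW0S _ q2)] at l4
    have hk0 : k ≠ 0 := by
      intro h0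
      apply l1
      funext v
      rw [hk v, h0, zero_mul]; rfl
    have hne : k * M u0 + k * M u0 ≠ 0 := by
      have : k * M u0 + k * M u0 = 2 * (k * M u0) := by ring
      rw [this]
      exact mul_ne_zero two_ne_zero (mul_ne_zero hk0 (hMnz u0))
    exact mul_right_cancel₀ hne l4
  · rcases E_counts2 G R S ζ u0 v0 m rep h B hB h0u h0v h0R J with h1 | ⟨W, hW, hW2⟩
    · omega
    · have hsub := hmin W hW
      have hends : ∀ a ∈ W0, ∀ b ∈ W0, G.Adj a b → φ a = φ b := by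
        intro a ha b hb hab
        by_cases hBab : B a b
        · exfalso
          have hfacts := B_facts G R S ζ u0 v0 m rep h B hB
          exact hnB a ha (hfacts.2.1 a b a hBab (hfacts.1 a b hBab))
        · exact flat_ends R S rep B u0 v0 φ (ζ ^ 2) hφR hφe J (fun i hi b => (hJN i hi).2 b) a b
            (hW2 a (hsub ha) b (hsub hb) hab hBab)
      have hconst := tight_conn G h.hsparse W0 hW0.2.2.2.2.2 φ hends
      have e1 := hconst (R u0) (hW0R u0 hW0.1) u0 hW0.1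
      rw [hφR] at e1
      have e2 : ζ ^ 2 = 1 := by
        apply mul_right_cancel₀ (hφ0 u0)
        rw [e1, one_mul]
      apply h.hζ1
      have e3 := h.hζ
      calc ζ = ζ ^ 2 * ζ := by rw [e2, one_mul]
        _ = ζ ^ 3 := by ring
        _ = 1 := e3

/-- TARGET 1. -/
theorem E2main {V : Type} [Fintype V] [DecidableEq V] (G : SimpleGraph V) [DecidableRel G.Adj]
    (R S : Equiv.Perm V) (ζ : ℂ) (u0 v0 : V) (m : ℕ) (rep : Fin m → V × V)
    (h : Dat G 3 R S ζ u0 v0 m rep)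
    (B : V → V → Prop) [DecidableRel B]
    (hB : ∀ a b, B a b ↔ ∃ K, Blk G R S K ∧ a ∈ K ∧ b ∈ K) :
    ∃ (c : Fin m → Bool) (τ : Fin m → ℂ),
      finrank ℂ (LimK S rep (fun i => ¬ B (rep i).1 (rep i).2) c τ (Qb R ζ B ⊓ Flat u0 v0)) ≤ 1 := by
  by_cases heasy : B u0 u0 ∨ ∃ k : ℕ, (R ^ k) u0 = v0
  · exact E2easy G R S ζ u0 v0 m rep h B hB heasy
  · by_contra hno
    have h0u : ¬ B u0 u0 := fun hh => heasy (Or.inl hh)
    have h0R : ∀ k : ℕ, (R ^ k) u0 ≠ v0 := fun k hk => heasy (Or.inr ⟨k, hk⟩)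
    have hfacts := B_facts G R S ζ u0 v0 m rep h B hB
    have h0v : ¬ B v0 v0 := by
      intro hv
      rcases h.h0S with ⟨h1, h2⟩ | ⟨h1, h2⟩
      · apply hfacts.2.2.2.2.2.2.1 v0
        rw [h2]
        exact hv
      · apply h0u
        rw [← hfacts.2.2.2.2.2.1 u0 u0, h1]
        exact hv
    exact E2_hard G R S ζ u0 v0 m rep h B hB h0u h0v h0R hno

end Pool.Agent.DihLaman.J864
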