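import Pool.Agent.Helper927.DLDefs
import Pool.Agent.Helper927.DL759
import Pool.Agent.Helper927.DL760
import Pool.Agent.Helper927.DL764
import Pool.Agent.Helper927.DL765
import Pool.Agent.Helper927.DL767
import Pool.Agent.Helper927.DL863
import Pool.Agent.Helper927.DL864
set_option autoImplicit false
set_option maxHeartbeats 4000000
open Module Submodule

namespace Pool.Agent.DihLaman.J768
open Pool.Agent.DihLaman
open Pool.Agent.DihLaman.J863 (E1main)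
open Pool.Agent.DihLaman.J864 (E2main)
open Pool.Agent.DihLaman.J759 (combineX)
open Pool.Agent.DihLaman.J764 (exists_DB)
open Pool.Agent.DihLaman.J760 (exists_dir3)
open Pool.Agent.DihLaman.J765 (limit_lemma)
open Pool.Agent.DihLaman.J767 (pm_trick)

theorem kerX_point {V : Type} [Fintype V] [DecidableEq V] (S : V → V) (u0 v0 : V) (huv : u0 ≠ v0)
    (D : V → V → ℂ) :
    (D u0 v0 ≠ 0 → finrank ℂ (KerX S (fun a b => a = u0 ∧ b = v0)
      (Submodule.span ℂ {((0 : V → ℂ), (Pi.single u0 (1:ℂ) : V → ℂ))}) D) ≤ 0) ∧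
    (finrank ℂ (KerX S (fun a b => a = u0 ∧ b = v0)
      (Submodule.span ℂ {((0 : V → ℂ), (Pi.single u0 (1:ℂ) : V → ℂ))}) D) ≤ 0 → D u0 v0 ≠ 0) := by
  constructor
  · intro hD
    have : KerX S (fun a b => a = u0 ∧ b = v0)
      (Submodule.span ℂ {((0 : V → ℂ), (Pi.single u0 (1:ℂ) : V → ℂ))}) D = ⊥ := by
      rw [eq_bot_iff]
      rintro x ⟨hx, hx'⟩
      obtain ⟨c, rfl⟩ := Submodule.mem_span_singleton.1 hx
      have h1 := hx' u0 v0 ⟨rfl, rfl⟩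
      have h2 : (Pi.single u0 (1:ℂ) : V → ℂ) v0 = 0 := Pi.single_eq_of_ne (Ne.symm huv) _
      simp only [Prod.smul_fst, Prod.smul_snd, Pi.smul_apply, Pi.zero_apply, smul_eq_mul, mul_zero,
        sub_zero, Pi.single_eq_same, h2, mul_one, zero_add] at h1
      have hc : c = 0 := by
        rcases mul_eq_zero.1 h1 with h | h
        · exact absurd h hD
        · exact h
      rw [hc, zero_smul]
      exact Submodule.zero_mem _
    rw [this]
    simp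
  · intro hf hD
    have h0 : finrank ℂ (KerX S (fun a b => a = u0 ∧ b = v0)
      (Submodule.span ℂ {((0 : V → ℂ), (Pi.single u0 (1:ℂ) : V → ℂ))}) D) = 0 := Nat.le_zero.1 hf
    have hbot := Submodule.finrank_eq_zero.1 h0
    have hmem : (((0 : V → ℂ), (Pi.single u0 (1:ℂ) : V → ℂ)) : (V → ℂ) × (V → ℂ)) ∈
        KerX S (fun a b => a = u0 ∧ b = v0)
      (Submodule.span ℂ {((0 : V → ℂ), (Pi.single u0 (1:ℂ) : V → ℂ))}) D := by
      refine ⟨Submodule.mem_span_singleton_self _, ?_⟩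
      rintro a b ⟨rfl, rfl⟩
      simp [hD]
    rw [hbot, Submodule.mem_bot] at hmem
    have h3 : (Pi.single u0 (1:ℂ) : V → ℂ) = 0 := (Prod.mk.inj hmem).2
    have h4 := congrFun h3 u0
    simp at h4

/-- TARGET 1. -/
theorem exists_E {V : Type} [Fintype V] [DecidableEq V] (G : SimpleGraph V) [DecidableRel G.Adj]
    (R S : Equiv.Perm V) (ζ : ℂ) (u0 v0 : V) (m : ℕ) (rep : Fin m → V × V)
    (h : Dat G 3 R S ζ u0 v0 m rep) :
    ∃ D ∈ Dsp R ζ, finrank ℂ (KerX S G.Adj (XF R ζ) D) ≤ 1 := by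
  classical
  have huv : u0 ≠ v0 := h.h0.ne
  let B : V → V → Prop := fun a b => ∃ K, Blk G R S K ∧ a ∈ K ∧ b ∈ K
  have hB : ∀ a b, B a b ↔ ∃ K, Blk G R S K ∧ a ∈ K ∧ b ∈ K := fun a b => Iff.rfl
  obtain ⟨DB, hDB, hgood⟩ := exists_DB G R S ζ u0 v0 m rep h B hB
  obtain ⟨c1, τ1, h1⟩ := E1main G R S ζ u0 v0 m rep h B hB
  obtain ⟨c2, τ2, h2⟩ := E2main G R S ζ u0 v0 m rep h B hB
  obtain ⟨D1, hD1, hD1'⟩ := limit_lemma G R S ζ u0 v0 m rep h B hB DB hDB hgood ⊤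
    (fun _ _ _ => Submodule.mem_top) c1 τ1
  obtain ⟨D2, hD2, hD2'⟩ := limit_lemma G R S ζ u0 v0 m rep h B hB DB hDB hgood (Flat u0 v0)
    (fun c x hx => ⟨by simp only [Pi.smul_apply, hx.1], hx.2⟩) c2 τ2
  rw [inf_top_eq, inf_top_eq] at hD1'
  obtain ⟨D3, hD3, -, -, hD3'⟩ := exists_dir3 G 3 R S ζ u0 v0 m rep h (fun _ => 0) (fun _ => 0) 1
  let M : Fin 3 → V → V → Prop := ![fun a b => G.Adj a b ∧ ¬ Spec R u0 v0 a b,
    fun a b => G.Adj a b ∧ ¬ Spec R u0 v0 a b, fun a b => a = u0 ∧ b = v0]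
  let X : Fin 3 → Submodule ℂ ((V → ℂ) × (V → ℂ)) := ![XF R ζ, XF R ζ ⊓ Flat u0 v0,
    Submodule.span ℂ {((0 : V → ℂ), (Pi.single u0 (1:ℂ) : V → ℂ))}]
  let k : Fin 3 → ℕ := ![2, 1, 0]
  obtain ⟨D, hD, hall⟩ := combineX R S ζ M X k (by
    intro i
    fin_cases i
    · exact ⟨D1, hD1, hD1'.trans h1⟩
    · exact ⟨D2, hD2, hD2'.trans h2⟩
    · refine ⟨D3, hD3, (kerX_point S u0 v0 huv D3).1 ?_⟩
      rw [hD3']; exact one_ne_zero)
  exact pm_trick G R S ζ u0 v0 m rep h D hD ((kerX_point S u0 v0 huv D).2 (hall 2)) (hall 0) (hall 1)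

end Pool.Agent.DihLaman.J768
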