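import Pool.Agent.Helper927.DLDefs
import Pool.Agent.Helper927.DL759
import Pool.Agent.Helper927.DL760
import Pool.Agent.Helper927.DL762
import Pool.Agent.Helper927.DL768
set_option autoImplicit false
set_option maxHeartbeats 4000000
open Module Submodule

namespace Pool.Agent.DihLaman.J769
open Pool.Agent.DihLaman
open Pool.Agent.DihLaman.J759 (combineX)
open Pool.Agent.DihLaman.J768 (exists_E)
open Pool.Agent.DihLaman.J760 (exists_dir3)

theorem Dsp_pow {V : Type} (R : Equiv.Perm V) (ζ : ℂ) (D : V → V → ℂ) (hD : D ∈ Dsp R ζ) (k : ℕ)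
    (a b : V) : D ((R ^ k) a) ((R ^ k) b) = ζ ^ k * D a b := by
  induction k generalizing a b with
  | zero => simp
  | succ k ih =>
    rw [pow_succ, Equiv.Perm.mul_apply, Equiv.Perm.mul_apply, ih, hD.2, pow_succ]
    ring

theorem Dat_zeta_ne {V : Type} [Fintype V] [DecidableEq V] {G : SimpleGraph V} [DecidableRel G.Adj]
    {n : ℕ} {R S : Equiv.Perm V} {ζ : ℂ} {u0 v0 : V} {m : ℕ} {rep : Fin m → V × V}
    (h : Dat G n R S ζ u0 v0 m rep) : ζ ≠ 0 := by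
  intro h0
  have h1 := h.hζ
  rw [h0] at h1
  rcases h.hn with h2 | h2
  · rw [h2] at h1; norm_num at h1
  · rw [h2] at h1; norm_num at h1

/-- for each dart there is a direction assignment which does not vanish on it -/
theorem exists_nz {V : Type} [Fintype V] [DecidableEq V] (G : SimpleGraph V) [DecidableRel G.Adj]
    (n : ℕ) (R S : Equiv.Perm V) (ζ : ℂ) (u0 v0 : V) (m : ℕ) (rep : Fin m → V × V)
    (h : Dat G n R S ζ u0 v0 m rep) (a b : V) (hab : G.Adj a b) :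
    ∃ D ∈ Dsp R ζ, D a b ≠ 0 := by
  have hz := Dat_zeta_ne h
  by_cases hs : Spec R u0 v0 a b
  · obtain ⟨D, hD, -, -, hD0⟩ := exists_dir3 G n R S ζ u0 v0 m rep h (fun _ => 0) (fun _ => 0) 1
    refine ⟨D, hD, ?_⟩
    obtain ⟨k, hk | hk⟩ := hs
    · rw [hk.1, hk.2, Dsp_pow R ζ D hD, hD0, mul_one]
      exact pow_ne_zero _ hz
    · rw [hk.1, hk.2, Dsp_pow R ζ D hD, hD.1 u0 v0, hD0]
      have := pow_ne_zero k hz
      intro h1
      apply this
      linear_combination -h1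
  · obtain ⟨D, hD, h1, h2, -⟩ := exists_dir3 G n R S ζ u0 v0 m rep h (fun _ => 1) (fun _ => 1) 1
    refine ⟨D, hD, ?_⟩
    obtain ⟨k, -, ε, δ, i, he⟩ := h.hcov a b hab hs
    have key : ∀ x : V × V, D x.1 x.2 = 1 → ∀ δ : Bool,
        D (if δ then (((R ^ k) x.2, (R ^ k) x.1) : V × V) else ((R ^ k) x.1, (R ^ k) x.2)).1
          (if δ then (((R ^ k) x.2, (R ^ k) x.1) : V × V) else ((R ^ k) x.1, (R ^ k) x.2)).2 ≠ 0 := by
      intro x hx δ
      have := pow_ne_zero k hz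
      cases δ with
      | false =>
        simp only [Bool.false_eq_true, if_false]
        rw [Dsp_pow R ζ D hD, hx, mul_one]
        exact this
      | true =>
        simp only [if_true]
        rw [Dsp_pow R ζ D hD, hD.1 x.1 x.2, hx]
        intro h1
        apply this
        linear_combination -h1
    have h3 : D a b = D (op R S k ε δ (rep i)).1 (op R S k ε δ (rep i)).2 := by rw [← he]
    rw [h3]
    cases ε with
    | false =>
      have := key (rep i) (h1 i) δ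
      simpa [op] using this
    | true =>
      have := key (S (rep i).1, S (rep i).2) (h2 i) δ
      simpa [op] using this

theorem nz_of_finrank {V : Type} [Fintype V] [DecidableEq V] (S : V → V) (a b : V) (hab : a ≠ b)
    (D : V → V → ℂ) :
    finrank ℂ (KerX S (fun x y => x = a ∧ y = b)
      (Submodule.span ℂ {((0 : V → ℂ), (Pi.single a (1 : ℂ) : V → ℂ))}) D) ≤ 0 ↔ D a b ≠ 0 := by
  constructor
  · intro h1 h2
    have h3 := Submodule.finrank_eq_zero.mp (Nat.le_zero.mp h1)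
    have h4 : ((0 : V → ℂ), (Pi.single a (1 : ℂ) : V → ℂ)) ∈ KerX S (fun x y => x = a ∧ y = b)
      (Submodule.span ℂ {((0 : V → ℂ), (Pi.single a (1 : ℂ) : V → ℂ))}) D := by
      refine ⟨Submodule.mem_span_singleton_self _, ?_⟩
      rintro x y ⟨rfl, rfl⟩
      simp [h2]
    rw [h3, Submodule.mem_bot] at h4
    have h5 := congrFun (congrArg Prod.snd h4) a
    simp at h5
  · intro h1
    rw [Nat.le_zero, Submodule.finrank_eq_zero, Submodule.eq_bot_iff]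
    rintro x ⟨hx, hx'⟩
    obtain ⟨c, rfl⟩ := Submodule.mem_span_singleton.mp hx
    have h2 := hx' a b ⟨rfl, rfl⟩
    simp [hab.symm, h1] at h2
    rw [h2, zero_smul]

theorem mem_KerX_of_mem_KerE {V : Type} (G : SimpleGraph V) (R S : V → V) (D : V → V → ℂ) (ε η : ℂ)
    (u : V → ℂ) (hu : u ∈ KerE G R S D ε η) :
    (u, fun v => ε * u (S v)) ∈ KerX S G.Adj (XE R S ε η) D := by
  refine ⟨⟨hu.1, fun v => rfl⟩, ?_⟩
  intro a b hab
  have := hu.2 a b hab
  show D (S a) (S b) * (u a - u b) + D a b * (ε * u (S a) - ε * u (S b)) = 0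
  linear_combination this

theorem finrank_KerE_le {V : Type} [Fintype V] (G : SimpleGraph V) (R S : V → V) (D : V → V → ℂ)
    (ε η : ℂ) : finrank ℂ (KerE G R S D ε η) ≤ finrank ℂ (KerX S G.Adj (XE R S ε η) D) := by
  let L : (V → ℂ) →ₗ[ℂ] ((V → ℂ) × (V → ℂ)) :=
    LinearMap.prod LinearMap.id (ε • LinearMap.funLeft ℂ ℂ S)
  have hL : ∀ u ∈ KerE G R S D ε η, L u ∈ KerX S G.Adj (XE R S ε η) D :=
    fun u hu => mem_KerX_of_mem_KerE G R S D ε η u hu
  apply LinearMap.finrank_le_finrank_of_injective (f := L.restrict hL)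
  intro x y hxy
  apply Subtype.ext
  have h1 := congrArg Subtype.val hxy
  exact congrArg Prod.fst h1

theorem KerF_eq {V : Type} (G : SimpleGraph V) (R S : V → V) (D : V → V → ℂ) (ζ : ℂ) :
    KerF G R S D ζ = KerX S G.Adj (XF R ζ) D := by
  ext x
  constructor
  · rintro ⟨h1, h2, h3⟩
    exact ⟨⟨h1, h2⟩, h3⟩
  · rintro ⟨⟨h1, h2⟩, h3⟩
    exact ⟨h1, h2, h3⟩

theorem exists_D_aux {V : Type} [Fintype V] [DecidableEq V] (G : SimpleGraph V) [DecidableRel G.Adj]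
    (n : ℕ) (R S : Equiv.Perm V) (ζ : ℂ) (u0 v0 : V) (m : ℕ) (rep : Fin m → V × V)
    (h : Dat G n R S ζ u0 v0 m rep) (Y : Fin 2 → Submodule ℂ ((V → ℂ) × (V → ℂ)))
    (hY : ∀ j, ∃ D ∈ Dsp R ζ, finrank ℂ (KerX S G.Adj (Y j) D) ≤ 1) :
    ∃ D ∈ Dsp R ζ, (∀ a b, G.Adj a b → D a b ≠ 0) ∧
      finrank ℂ (KerX S G.Adj (XE R S 1 ζ) D) ≤ 0 ∧
      (∀ a b, G.Adj a b → finrank ℂ (KerX S G.Adj (XE R S (-1) ζ ⊓ Flat a b) D) ≤ 0) ∧
      ∀ j, finrank ℂ (KerX S G.Adj (Y j) D) ≤ 1 := by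
  let ι : Type := ((V × V) ⊕ (V × V)) ⊕ (Unit ⊕ Fin 2)
  let M : ι → V → V → Prop := Sum.elim (Sum.elim (fun p x y => x = p.1 ∧ y = p.2) (fun _ => G.Adj))
    (fun _ => G.Adj)
  let X : ι → Submodule ℂ ((V → ℂ) × (V → ℂ)) :=
    Sum.elim (Sum.elim (fun p => Submodule.span ℂ {((0 : V → ℂ), (Pi.single p.1 (1 : ℂ) : V → ℂ))})
      (fun p => XE R S (-1) ζ ⊓ Flat p.1 p.2)) (Sum.elim (fun _ => XE R S 1 ζ) Y)
  let N := finrank ℂ ((V → ℂ) × (V → ℂ))
  let k : ι → ℕ := Sum.elim (Sum.elim (fun q : V × V => if G.Adj q.1 q.2 then 0 else N)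
      (fun q : V × V => if G.Adj q.1 q.2 then 0 else N))
    (Sum.elim (fun _ => 0) (fun _ => 1))
  obtain ⟨D0, hD0, -⟩ := exists_alpha G n R S ζ u0 v0 m rep h
  have hcomb := combineX R S ζ M X k (by
    rintro ((⟨a, b⟩ | ⟨a, b⟩) | (_ | j))
    · by_cases hab : G.Adj a b
      · obtain ⟨D, hD, h1⟩ := exists_nz G n R S ζ u0 v0 m rep h a b hab
        refine ⟨D, hD, ?_⟩
        have hk : k (Sum.inl (Sum.inl (a, b))) = 0 := by simp [k, hab]
        rw [hk]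
        exact (nz_of_finrank S a b hab.ne D).mpr h1
      · refine ⟨D0, hD0, ?_⟩
        have hk : k (Sum.inl (Sum.inl (a, b))) = N := by simp [k, hab]
        rw [hk]
        exact Submodule.finrank_le _
    · by_cases hab : G.Adj a b
      · obtain ⟨D, hD, h1⟩ := exists_gamma G n R S ζ u0 v0 m rep h a b hab
        refine ⟨D, hD, ?_⟩
        have hk : k (Sum.inl (Sum.inr (a, b))) = 0 := by simp [k, hab]
        rw [hk]
        exact h1
      · refine ⟨D0, hD0, ?_⟩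
        have hk : k (Sum.inl (Sum.inr (a, b))) = N := by simp [k, hab]
        rw [hk]
        exact Submodule.finrank_le _
    · exact exists_alpha G n R S ζ u0 v0 m rep h
    · exact hY j)
  obtain ⟨D, hD, h1⟩ := hcomb
  refine ⟨D, hD, ?_, ?_, ?_, ?_⟩
  · intro a b hab
    have h2 := h1 (Sum.inl (Sum.inl (a, b)))
    have hk : k (Sum.inl (Sum.inl (a, b))) = 0 := by simp [k, hab]
    rw [hk] at h2
    exact (nz_of_finrank S a b hab.ne D).mp h2
  · exact h1 (Sum.inr (Sum.inl ()))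
  · intro a b hab
    have h2 := h1 (Sum.inl (Sum.inr (a, b)))
    have hk : k (Sum.inl (Sum.inr (a, b))) = 0 := by simp [k, hab]
    rw [hk] at h2
    exact h2
  · intro j
    exact h1 (Sum.inr (Sum.inr j))

/-- TARGET 1. -/
theorem exists_D {V : Type} [Fintype V] [DecidableEq V] (G : SimpleGraph V) [DecidableRel G.Adj]
    (n : ℕ) (R S : Equiv.Perm V) (ζ : ℂ) (u0 v0 : V) (m : ℕ) (rep : Fin m → V × V)
    (h : Dat G n R S ζ u0 v0 m rep) :
    ∃ D : V → V → ℂ, (∀ a b, D b a = - D a b) ∧ (∀ a b, D (R a) (R b) = ζ * D a b) ∧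
      (∀ a b, G.Adj a b → D a b ≠ 0) ∧ KerE G R S D 1 ζ = ⊥ ∧
      (∀ a b, G.Adj a b → ∀ u ∈ KerE G R S D (-1) ζ, u a = u b → u (S a) = u (S b) → u = 0) ∧
      ((n = 2 ∧ finrank ℂ (KerE G R S D 1 1) ≤ 1 ∧ finrank ℂ (KerE G R S D (-1) 1) ≤ 1) ∨
      (n = 3 ∧ finrank ℂ (KerF G R S D ζ) ≤ 1)) := by
  have main : ∀ (Y : Fin 2 → Submodule ℂ ((V → ℂ) × (V → ℂ)))
      (_ : ∀ j, ∃ D ∈ Dsp R ζ, finrank ℂ (KerX S G.Adj (Y j) D) ≤ 1),
      ∃ D : V → V → ℂ, (∀ a b, D b a = - D a b) ∧ (∀ a b, D (R a) (R b) = ζ * D a b) ∧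
      (∀ a b, G.Adj a b → D a b ≠ 0) ∧ KerE G R S D 1 ζ = ⊥ ∧
      (∀ a b, G.Adj a b → ∀ u ∈ KerE G R S D (-1) ζ, u a = u b → u (S a) = u (S b) → u = 0) ∧
      ∀ j, finrank ℂ (KerX S G.Adj (Y j) D) ≤ 1 := by
    intro Y hY
    obtain ⟨D, hD, h1, h2, h3, h4⟩ := exists_D_aux G n R S ζ u0 v0 m rep h Y hY
    refine ⟨D, hD.1, hD.2, h1, ?_, ?_, h4⟩
    · have h5 := finrank_KerE_le G R S D 1 ζ
      exact Submodule.finrank_eq_zero.mp (by omega)
    · intro a b hab u hu e1 e2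
      have h5 := mem_KerX_of_mem_KerE G R S D (-1) ζ u hu
      have h6 : (u, fun v => -1 * u (S v)) ∈ KerX S G.Adj (XE R S (-1) ζ ⊓ Flat a b) D := by
        refine ⟨⟨h5.1, e1, ?_⟩, h5.2⟩
        show -1 * u (S a) = -1 * u (S b)
        rw [e2]
      rw [Submodule.finrank_eq_zero.mp (Nat.le_zero.mp (h3 a b hab)), Submodule.mem_bot] at h6
      exact congrArg Prod.fst h6
  rcases h.hn with hn | hn
  · subst hn
    have hY : ∀ j : Fin 2, ∃ D ∈ Dsp R ζ, finrank ℂ (KerX S G.Adj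
        ((![XE R S 1 1, XE R S (-1) 1] : Fin 2 → Submodule ℂ ((V → ℂ) × (V → ℂ))) j) D) ≤ 1 :=
      Fin.forall_fin_two.mpr ⟨exists_beta G R S ζ u0 v0 m rep h 1 (Or.inl rfl),
        exists_beta G R S ζ u0 v0 m rep h (-1) (Or.inr rfl)⟩
    obtain ⟨D, h1, h2, h3, h4, h5, h6⟩ := main _ hY
    refine ⟨D, h1, h2, h3, h4, h5, Or.inl ⟨rfl, ?_, ?_⟩⟩
    · exact (finrank_KerE_le G R S D 1 1).trans (h6 0)
    · exact (finrank_KerE_le G R S D (-1) 1).trans (h6 1)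
  · subst hn
    obtain ⟨D, h1, h2, h3, h4, h5, h6⟩ := main (fun _ => XF R ζ)
      (fun _ => exists_E G R S ζ u0 v0 m rep h)
    refine ⟨D, h1, h2, h3, h4, h5, Or.inr ⟨rfl, ?_⟩⟩
    rw [KerF_eq]
    exact h6 0

end Pool.Agent.DihLaman.J769
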