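import Pool.Agent.Helper927.DLDefs
import Pool.Agent.Helper927.DL419
import Pool.Agent.Helper927.DL434
import Pool.Agent.Helper927.DL444
import Pool.Agent.Helper927.DL761
import Pool.Agent.Helper927.DL769
set_option autoImplicit false
set_option maxHeartbeats 4000000
open Module Submodule

namespace Pool.Agent.DihLaman.J770
open Pool.Agent.DihLaman
open Pool.Agent.DihLaman.J769 (exists_D)
open Pool.Agent.DihLaman.J761 (exists_dat)
open Pool.Agent.DihLaman.J444 (exists_placement)
open Pool.Agent.DihLaman.J419 (extract)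
open Pool.Agent.DihLaman.J434 (transfer)

/-- The rigidity matrix. -/
theorem rank_le_half {V : Type} [Fintype V] [DecidableEq V] (G : SimpleGraph V) [DecidableRel G.Adj]
    (p : V → Fin 2 → ℝ) :
    2 * (Matrix.of (fun (e : V × V) (c : V × Fin 2) =>
              if G.Adj e.1 e.2 then
                (if c.1 = e.1 then p e.1 c.2 - p e.2 c.2
                 else if c.1 = e.2 then p e.2 c.2 - p e.1 c.2 else 0)
              else 0)).rank
        ≤ (Finset.univ.filter (fun x : V × V => G.Adj x.1 x.2)).card := by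
  classical
  set M : Matrix (V × V) (V × Fin 2) ℝ := Matrix.of (fun (e : V × V) (c : V × Fin 2) =>
              if G.Adj e.1 e.2 then
                (if c.1 = e.1 then p e.1 c.2 - p e.2 c.2
                 else if c.1 = e.2 then p e.2 c.2 - p e.1 c.2 else 0)
              else 0) with hM
  let f : V ≃ Fin (Fintype.card V) := Fintype.equivFin V
  let E1 : Finset (V × V) := Finset.univ.filter (fun x : V × V => G.Adj x.1 x.2 ∧ f x.1 < f x.2)
  let E2 : Finset (V × V) := Finset.univ.filter (fun x : V × V => G.Adj x.1 x.2 ∧ f x.2 < f x.1)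
  have hcard : E1.card = E2.card := by
    apply Finset.card_bij (fun x _ => (x.2, x.1))
    · intro x hx
      simp only [E1, E2, Finset.mem_filter, Finset.mem_univ, true_and] at hx ⊢
      exact ⟨hx.1.symm, hx.2⟩
    · rintro ⟨a, b⟩ _ ⟨c, d⟩ _ h
      simp only [Prod.mk.injEq] at h ⊢
      exact ⟨h.2, h.1⟩
    · rintro ⟨a, b⟩ h
      simp only [E1, E2, Finset.mem_filter, Finset.mem_univ, true_and] at h
      refine ⟨(b, a), ?_, rfl⟩
      simp only [E1, Finset.mem_filter, Finset.mem_univ, true_and]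
      exact ⟨h.1.symm, h.2⟩
  have hunion : Finset.univ.filter (fun x : V × V => G.Adj x.1 x.2) = E1 ∪ E2 := by
    ext ⟨a, b⟩
    simp only [E1, E2, Finset.mem_filter, Finset.mem_univ, true_and, Finset.mem_union]
    constructor
    · intro h
      rcases lt_trichotomy (f a) (f b) with h1 | h1 | h1
      · exact Or.inl ⟨h, h1⟩
      · exact absurd (f.injective h1) h.ne
      · exact Or.inr ⟨h, h1⟩
    · rintro (h | h)
      · exact h.1
      · exact h.1
  have hdisj : Disjoint E1 E2 := by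
    rw [Finset.disjoint_left]
    rintro ⟨a, b⟩ h1 h2
    simp only [E1, E2, Finset.mem_filter, Finset.mem_univ, true_and] at h1 h2
    exact absurd h1.2 (not_lt.mpr h2.2.le)
  rw [hunion, Finset.card_union_of_disjoint hdisj, ← hcard, ← two_mul]
  apply Nat.mul_le_mul_left
  rw [Matrix.rank_eq_finrank_span_row]
  have hle : Submodule.span ℝ (Set.range M.row) ≤ Submodule.span ℝ ((E1.image M.row : Finset _) : Set (V × Fin 2 → ℝ)) := by
    rw [Submodule.span_le]
    rintro _ ⟨⟨a, b⟩, rfl⟩
    by_cases hab : G.Adj a b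
    · rcases lt_trichotomy (f a) (f b) with h1 | h1 | h1
      · apply Submodule.subset_span
        simp only [Finset.coe_image, Set.mem_image, Finset.mem_coe]
        exact ⟨(a, b), by simp [E1, hab, h1], rfl⟩
      · exact absurd (f.injective h1) hab.ne
      · apply Submodule.subset_span
        simp only [Finset.coe_image, Set.mem_image, Finset.mem_coe]
        refine ⟨(b, a), by simp [E1, hab.symm, h1], ?_⟩
        have hne : a ≠ b := hab.ne
        funext c
        simp only [Matrix.row, hM, Matrix.of_apply, hab, hab.symm, if_true]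
        by_cases h2 : c.1 = a
        · have h3 : c.1 ≠ b := fun h => hne (h2.symm.trans h)
          rw [if_neg h3, if_pos h2, if_pos h2]
        · by_cases h3 : c.1 = b
          · rw [if_pos h3, if_neg h2, if_pos h3]
          · rw [if_neg h3, if_neg h2, if_neg h2, if_neg h3]
    · have h0 : M.row (a, b) = 0 := by
        funext c
        simp [Matrix.row, hM, hab]
      rw [h0]
      exact Submodule.zero_mem _
  calc finrank ℝ (Submodule.span ℝ (Set.range M.row))
      ≤ finrank ℝ (Submodule.span ℝ ((E1.image M.row : Finset _) : Set (V × Fin 2 → ℝ))) :=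
        Submodule.finrank_mono hle
    _ ≤ (E1.image M.row).card := finrank_span_finset_le_card _
    _ ≤ E1.card := Finset.card_image_le

/-- TARGET 1. -/
theorem final :
  ∀ (V : Type) [Fintype V] [DecidableEq V] (G : SimpleGraph V) [DecidableRel G.Adj]
    (Γ : Type) [Group Γ] [Fintype Γ]
    (θ : Γ →* Equiv.Perm V) (τ : Γ →* Matrix.orthogonalGroup (Fin 2) ℝ),
    (∀ (γ : Γ) (u v : V), G.Adj u v ↔ G.Adj (θ γ u) (θ γ v)) →
    Function.Injective τ →
    (Fintype.card Γ = 4 ∨ Fintype.card Γ = 6) →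
    (∃ γ : Γ, ((τ γ).1).det = -1) →
    (((Finset.univ.filter (fun x : V × V => G.Adj x.1 x.2)).card : ℤ)
        = 2 * (2 * (Fintype.card V : ℤ) - 3)) →
    (∀ S : Finset V, 2 ≤ S.card →
        (((S ×ˢ S).filter (fun x : V × V => G.Adj x.1 x.2)).card : ℤ)
          ≤ 2 * (2 * (S.card : ℤ) - 3)) →
    (∀ γ : Γ,
        (((Finset.univ.filter (fun x : V × V => G.Adj x.1 x.2 ∧
            ((θ γ x.1 = x.1 ∧ θ γ x.2 = x.2) ∨ (θ γ x.1 = x.2 ∧ θ γ x.2 = x.1)))).card : ℝ)
          = 2 * (Matrix.trace (τ γ).1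
                  * ((Finset.univ.filter (fun v : V => θ γ v = v)).card : ℝ)
                - (Matrix.trace (τ γ).1 + ((τ γ).1).det)))) →
    ∀ p : V → Fin 2 → ℝ, Function.Injective p →
      (∀ (γ : Γ) (v : V), p (θ γ v) = Matrix.mulVec (τ γ).1 (p v)) →
      (∀ q : V → Fin 2 → ℝ, (∀ (γ : Γ) (v : V), q (θ γ v) = Matrix.mulVec (τ γ).1 (q v)) →
          (Matrix.of (fun (e : V × V) (c : V × Fin 2) =>
              if G.Adj e.1 e.2 then
                (if c.1 = e.1 then q e.1 c.2 - q e.2 c.2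
                 else if c.1 = e.2 then q e.2 c.2 - q e.1 c.2 else 0)
              else 0)).rank
            ≤ (Matrix.of (fun (e : V × V) (c : V × Fin 2) =>
              if G.Adj e.1 e.2 then
                (if c.1 = e.1 then p e.1 c.2 - p e.2 c.2
                 else if c.1 = e.2 then p e.2 c.2 - p e.1 c.2 else 0)
              else 0)).rank) →
      2 * (Matrix.of (fun (e : V × V) (c : V × Fin 2) =>
              if G.Adj e.1 e.2 then
                (if c.1 = e.1 then p e.1 c.2 - p e.2 c.2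
                 else if c.1 = e.2 then p e.2 c.2 - p e.1 c.2 else 0)
              else 0)).rank
        = (Finset.univ.filter (fun x : V × V => G.Adj x.1 x.2)).card := by
  intro V _ _ G _ Γ _ _ θ τ hG hinj hcardΓ hrefl hcount hsparse htrace p hp hpsym hmax
  obtain ⟨n, r, s, ζ, e, hn, hcard2, hrn, hr1, hss, hsrs, hsr, hgen, hζ, hζ1, he, hr, hs, hdetr, hdets⟩ :=
    extract Γ τ hinj hcardΓ hrefl
  have hRn : (θ r) ^ n = 1 := by rw [← map_pow, hrn, map_one]
  have hSS : (θ s) * (θ s) = 1 := by rw [← map_mul, hss, map_one]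
  have hSRS : (θ s) * (θ r) * (θ s) = (θ r)⁻¹ := by rw [← map_mul, ← map_mul, hsrs, map_inv]
  have hGR : ∀ a b, G.Adj (θ r a) (θ r b) ↔ G.Adj a b := fun a b => (hG r a b).symm
  have hGS : ∀ a b, G.Adj (θ s a) (θ s b) ↔ G.Adj a b := fun a b => (hG s a b).symm
  have hcount' : (Finset.univ.filter (fun x : V × V => G.Adj x.1 x.2)).card + 6 = 4 * Fintype.card V := by
    omega
  have hsparse' : ∀ C : Finset V, 2 ≤ C.card →
      ((C ×ˢ C).filter (fun x : V × V => G.Adj x.1 x.2)).card + 6 ≤ 4 * C.card := by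
    intro C hC
    have := hsparse C hC
    omega
  have hfixR : ∀ k : ℕ, 0 < k → k < n → (∀ v, ((θ r) ^ k) v ≠ v) ∧
      (Finset.univ.filter (fun x : V × V => G.Adj x.1 x.2 ∧ ((((θ r) ^ k) x.1 = x.1 ∧ ((θ r) ^ k) x.2 = x.2) ∨
        (((θ r) ^ k) x.1 = x.2 ∧ ((θ r) ^ k) x.2 = x.1)))).card = if n = 2 then 2 else 0 := by
    intro k hk0 hkn
    obtain ⟨hd, ht⟩ := hdetr k hk0 hkn
    have h1 := htrace (r ^ k)
    rw [hd, ht, map_pow] at h1
    set F := (Finset.univ.filter (fun v : V => ((θ r) ^ k) v = v)).card with hF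
    set N := (Finset.univ.filter (fun x : V × V => G.Adj x.1 x.2 ∧ ((((θ r) ^ k) x.1 = x.1 ∧ ((θ r) ^ k) x.2 = x.2) ∨
        (((θ r) ^ k) x.1 = x.2 ∧ ((θ r) ^ k) x.2 = x.1)))).card with hN
    have hF0 : F = 0 ∧ N = if n = 2 then 2 else 0 := by
      rcases hn with hn | hn
      · simp only [hn, if_true] at h1 ⊢
        have h2 : (N : ℝ) + 4 * (F : ℝ) = 2 := by linarith
        have h3 : N + 4 * F = 2 := by exact_mod_cast h2
        omega
      · have h32 : ¬ (3 = 2) := by norm_num
        simp only [hn, h32, if_false] at h1 ⊢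
        have h2 : (N : ℝ) + 2 * (F : ℝ) = 0 := by linarith
        have h3 : N + 2 * F = 0 := by exact_mod_cast h2
        omega
    refine ⟨fun v hv => ?_, hF0.2⟩
    have h4 := hF0.1
    rw [hF, Finset.card_eq_zero, Finset.filter_eq_empty_iff] at h4
    exact h4 (Finset.mem_univ v) hv
  have hfixS : ∀ k : ℕ, (Finset.univ.filter (fun x : V × V => G.Adj x.1 x.2 ∧
      ((((θ r) ^ k * (θ s)) x.1 = x.1 ∧ ((θ r) ^ k * (θ s)) x.2 = x.2) ∨
        (((θ r) ^ k * (θ s)) x.1 = x.2 ∧ ((θ r) ^ k * (θ s)) x.2 = x.1)))).card = 2 := by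
    intro k
    obtain ⟨hd, ht⟩ := hdets k
    have h1 := htrace (r ^ k * s)
    rw [hd, ht, map_mul, map_pow] at h1
    have h2 : (((Finset.univ.filter (fun x : V × V => G.Adj x.1 x.2 ∧
      ((((θ r) ^ k * (θ s)) x.1 = x.1 ∧ ((θ r) ^ k * (θ s)) x.2 = x.2) ∨
        (((θ r) ^ k * (θ s)) x.1 = x.2 ∧ ((θ r) ^ k * (θ s)) x.2 = x.1)))).card : ℕ) : ℝ) = ((2 : ℕ) : ℝ) := by
      rw [h1]; norm_num
    exact_mod_cast h2
  obtain ⟨u0, v0, m, rep, hdat⟩ := exists_dat G n hn (θ r) (θ s) ζ hRn hSS hSRS hζ hζ1 hGR hGS hsparse' hcount'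
    hfixR hfixS
  obtain ⟨D, hanti, heq, hnz, h0, hγ, hrest⟩ := exists_D G n (θ r) (θ s) ζ u0 v0 m rep hdat
  obtain ⟨z, hz, hk⟩ := exists_placement G n (θ r) (θ s) ζ hRn hSS hSRS hGR hGS hζ hζ1 hcount' D hanti heq hnz
    h0 hγ hrest
  have hn0 : 0 < n := by rcases hn with h | h <;> omega
  obtain ⟨q, hq, hrk⟩ := transfer G θ τ hG n hn0 r s ζ e hgen hrn hss hsrs hζ he hr hs z hz hk
  have h1 := hmax q hq
  have h2 := rank_le_half G p
  omega

end Pool.Agent.DihLaman.J770
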