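import Mathlib
set_option autoImplicit false
set_option maxHeartbeats 4000000
open Module Submodule

namespace Pool.Agent.DihLaman

/-- Kernel of the generalized rigidity map with coefficient functions P, Q. -/
def KerM {V : Type} (G : SimpleGraph V) (P Q : V → V → ℂ) : Submodule ℂ ((V → ℂ) × (V → ℂ)) where
  carrier := {x | ∀ a b, G.Adj a b → P a b * (x.1 a - x.1 b) + Q a b * (x.2 a - x.2 b) = 0}
  add_mem' := by
    intro x y hx hy a b hab
    have h1 := hx a b hab
    have h2 := hy a b hab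
    simp only [Prod.fst_add, Prod.snd_add, Pi.add_apply]
    linear_combination h1 + h2
  zero_mem' := by
    intro a b _
    simp
  smul_mem' := by
    intro c x hx a b hab
    have h1 := hx a b hab
    simp only [Prod.smul_fst, Prod.smul_snd, Pi.smul_apply, smul_eq_mul]
    linear_combination c * h1

/-- Functions of type η under R. -/
def Typ {V : Type} (R : V → V) (η : ℂ) : Submodule ℂ (V → ℂ) where
  carrier := {u | ∀ v, u (R v) = η * u v}
  add_mem' := by
    intro x y hx hy v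
    simp only [Pi.add_apply, hx v, hy v]; ring
  zero_mem' := by intro v; simp
  smul_mem' := by
    intro c x hx v
    simp only [Pi.smul_apply, smul_eq_mul, hx v]; ring

/-- Reduced kernel for motions (u, ε u ∘ S) with u of type η. -/
def KerE {V : Type} (G : SimpleGraph V) (R S : V → V) (D : V → V → ℂ) (ε η : ℂ) : Submodule ℂ (V → ℂ) where
  carrier := {u | (∀ v, u (R v) = η * u v) ∧
    ∀ a b, G.Adj a b → D (S a) (S b) * (u a - u b) + ε * D a b * (u (S a) - u (S b)) = 0}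
  add_mem' := by
    rintro x y ⟨hx, hx'⟩ ⟨hy, hy'⟩
    refine ⟨fun v => by simp only [Pi.add_apply, hx v, hy v]; ring, fun a b hab => ?_⟩
    simp only [Pi.add_apply]
    linear_combination hx' a b hab + hy' a b hab
  zero_mem' := ⟨fun v => by simp, fun a b _ => by simp⟩
  smul_mem' := by
    rintro c x ⟨hx, hx'⟩
    refine ⟨fun v => by simp only [Pi.smul_apply, smul_eq_mul, hx v]; ring, fun a b hab => ?_⟩
    simp only [Pi.smul_apply, smul_eq_mul]
    linear_combination c * hx' a b hab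

/-- Kernel elements (u, w) with u of type ζ^2 and w invariant. -/
def KerF {V : Type} (G : SimpleGraph V) (R S : V → V) (D : V → V → ℂ) (ζ : ℂ) :
    Submodule ℂ ((V → ℂ) × (V → ℂ)) where
  carrier := {x | (∀ v, x.1 (R v) = ζ ^ 2 * x.1 v) ∧ (∀ v, x.2 (R v) = x.2 v) ∧
    ∀ a b, G.Adj a b → D (S a) (S b) * (x.1 a - x.1 b) + D a b * (x.2 a - x.2 b) = 0}
  add_mem' := by
    rintro x y ⟨hx, hx2, hx'⟩ ⟨hy, hy2, hy'⟩
    refine ⟨fun v => by simp only [Prod.fst_add, Pi.add_apply, hx v, hy v]; ring,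
      fun v => by simp only [Prod.snd_add, Pi.add_apply, hx2 v, hy2 v], fun a b hab => ?_⟩
    simp only [Prod.fst_add, Prod.snd_add, Pi.add_apply]
    linear_combination hx' a b hab + hy' a b hab
  zero_mem' := ⟨fun v => by simp, fun v => by simp, fun a b _ => by simp⟩
  smul_mem' := by
    rintro c x ⟨hx, hx2, hx'⟩
    refine ⟨fun v => by simp only [Prod.smul_fst, Pi.smul_apply, smul_eq_mul, hx v]; ring,
      fun v => by simp only [Prod.smul_snd, Pi.smul_apply, smul_eq_mul, hx2 v], fun a b hab => ?_⟩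
    simp only [Prod.smul_fst, Prod.smul_snd, Pi.smul_apply, smul_eq_mul]
    linear_combination c * hx' a b hab

/-- Functions of type η under R which are constant along U. -/
def TypU {V : Type} (R : V → V) (η : ℂ) (U : V → V → Prop) : Submodule ℂ (V → ℂ) where
  carrier := {u | (∀ v, u (R v) = η * u v) ∧ ∀ a b, U a b → u a = u b}
  add_mem' := by
    rintro x y ⟨hx, hx'⟩ ⟨hy, hy'⟩
    refine ⟨fun v => by simp only [Pi.add_apply, hx v, hy v]; ring, fun a b h => ?_⟩
    simp only [Pi.add_apply, hx' a b h, hy' a b h]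
  zero_mem' := ⟨fun v => by simp, fun a b _ => rfl⟩
  smul_mem' := by
    rintro c x ⟨hx, hx'⟩
    refine ⟨fun v => by simp only [Pi.smul_apply, smul_eq_mul, hx v]; ring, fun a b h => ?_⟩
    simp only [Pi.smul_apply, hx' a b h]

/-- Pairs (u, w) supported on K, u of type η, w invariant, both constant along U. -/
def TypK {V : Type} (R : V → V) (η : ℂ) (K : Finset V) (U : V → V → Prop) :
    Submodule ℂ ((V → ℂ) × (V → ℂ)) where
  carrier := {x | (∀ v, x.1 (R v) = η * x.1 v) ∧ (∀ v, x.2 (R v) = x.2 v) ∧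
    (∀ v, v ∉ K → x.1 v = 0 ∧ x.2 v = 0) ∧ ∀ a b, U a b → x.1 a = x.1 b ∧ x.2 a = x.2 b}
  add_mem' := by
    rintro x y ⟨hx, hx2, hx3, hx'⟩ ⟨hy, hy2, hy3, hy'⟩
    refine ⟨fun v => by simp only [Prod.fst_add, Pi.add_apply, hx v, hy v]; ring,
      fun v => by simp only [Prod.snd_add, Pi.add_apply, hx2 v, hy2 v], fun v hv => ?_, fun a b h => ?_⟩
    · simp [(hx3 v hv).1, (hx3 v hv).2, (hy3 v hv).1, (hy3 v hv).2]
    · simp [(hx' a b h).1, (hx' a b h).2, (hy' a b h).1, (hy' a b h).2]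
  zero_mem' := ⟨fun v => by simp, fun v => by simp, fun v _ => by simp, fun a b _ => by simp⟩
  smul_mem' := by
    rintro c x ⟨hx, hx2, hx3, hx'⟩
    refine ⟨fun v => by simp only [Prod.smul_fst, Pi.smul_apply, smul_eq_mul, hx v]; ring,
      fun v => by simp only [Prod.smul_snd, Pi.smul_apply, smul_eq_mul, hx2 v], fun v hv => ?_, fun a b h => ?_⟩
    · simp [(hx3 v hv).1, (hx3 v hv).2]
    · simp [(hx' a b h).1, (hx' a b h).2]

/-- The operation swap^δ ∘ R^k ∘ S^ε on pairs of vertices. -/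
def op {V : Type} (R S : Equiv.Perm V) (k : ℕ) (ε δ : Bool) (x : V × V) : V × V :=
  let y : V × V := if ε then (S x.1, S x.2) else x
  let z : V × V := ((R ^ k) y.1, (R ^ k) y.2)
  if δ then (z.2, z.1) else z

/-- Blocks: tight R-invariant vertex sets disjoint from their mirror image. -/
def Blk {V : Type} [DecidableEq V] (G : SimpleGraph V) [DecidableRel G.Adj] (R S : Equiv.Perm V)
    (K : Finset V) : Prop :=
  K.Nonempty ∧ (∀ v ∈ K, R v ∈ K) ∧ (∀ v ∈ K, S v ∉ K) ∧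
    ((K ×ˢ K).filter (fun x : V × V => G.Adj x.1 x.2)).card + 6 = 4 * K.card

/-- Invariant functions, constant on blocks, mirror symmetric on blocks and constant along U. -/
def Yq {V : Type} (R S : V → V) (B U : V → V → Prop) : Submodule ℂ (V → ℂ) where
  carrier := {u | (∀ v, u (R v) = u v) ∧ (∀ a b, B a b → u a = u b) ∧ (∀ v, B v v → u (S v) = u v) ∧
    ∀ a b, U a b → u a = u b}
  add_mem' := by
    rintro x y ⟨h1, h2, h3, h4⟩ ⟨k1, k2, k3, k4⟩
    refine ⟨fun v => ?_, fun a b h => ?_, fun v h => ?_, fun a b h => ?_⟩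
    · simp only [Pi.add_apply, h1 v, k1 v]
    · simp only [Pi.add_apply, h2 a b h, k2 a b h]
    · simp only [Pi.add_apply, h3 v h, k3 v h]
    · simp only [Pi.add_apply, h4 a b h, k4 a b h]
  zero_mem' := ⟨fun v => rfl, fun a b _ => rfl, fun v _ => rfl, fun a b _ => rfl⟩
  smul_mem' := by
    rintro c x ⟨h1, h2, h3, h4⟩
    refine ⟨fun v => ?_, fun a b h => ?_, fun v h => ?_, fun a b h => ?_⟩
    · simp only [Pi.smul_apply, h1 v]
    · simp only [Pi.smul_apply, h2 a b h]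
    · simp only [Pi.smul_apply, h3 v h]
    · simp only [Pi.smul_apply, h4 a b h]

/-- Antisymmetric ζ-equivariant direction assignments. -/
def Dsp {V : Type} (R : V → V) (ζ : ℂ) : Submodule ℂ (V → V → ℂ) where
  carrier := {D | (∀ a b, D b a = - D a b) ∧ ∀ a b, D (R a) (R b) = ζ * D a b}
  add_mem' := by
    rintro x y ⟨h1, h2⟩ ⟨k1, k2⟩
    refine ⟨fun a b => ?_, fun a b => ?_⟩
    · simp only [Pi.add_apply, h1 a b, k1 a b]; ring
    · simp only [Pi.add_apply, h2 a b, k2 a b]; ring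
  zero_mem' := ⟨fun a b => by simp, fun a b => by simp⟩
  smul_mem' := by
    rintro c x ⟨h1, h2⟩
    refine ⟨fun a b => ?_, fun a b => ?_⟩
    · simp only [Pi.smul_apply, smul_eq_mul, h1 a b]; ring
    · simp only [Pi.smul_apply, smul_eq_mul, h2 a b]; ring

/-- Kernel inside X of the rows indexed by the darts in M. -/
def KerX {V : Type} (S : V → V) (M : V → V → Prop) (X : Submodule ℂ ((V → ℂ) × (V → ℂ)))
    (D : V → V → ℂ) : Submodule ℂ ((V → ℂ) × (V → ℂ)) where
  carrier := {x | x ∈ X ∧ ∀ a b, M a b → D (S a) (S b) * (x.1 a - x.1 b) + D a b * (x.2 a - x.2 b) = 0}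
  add_mem' := by
    rintro x y ⟨hx, hx'⟩ ⟨hy, hy'⟩
    refine ⟨X.add_mem hx hy, fun a b hab => ?_⟩
    simp only [Prod.fst_add, Prod.snd_add, Pi.add_apply]
    linear_combination hx' a b hab + hy' a b hab
  zero_mem' := ⟨X.zero_mem, fun a b _ => by simp⟩
  smul_mem' := by
    rintro c x ⟨hx, hx'⟩
    refine ⟨X.smul_mem c hx, fun a b hab => ?_⟩
    simp only [Prod.smul_fst, Prod.smul_snd, Pi.smul_apply, smul_eq_mul]
    linear_combination c * hx' a b hab

/-- Pairs (u, w) with u of type ζ² and w invariant. -/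
def XF {V : Type} (R : V → V) (ζ : ℂ) : Submodule ℂ ((V → ℂ) × (V → ℂ)) where
  carrier := {x | (∀ v, x.1 (R v) = ζ ^ 2 * x.1 v) ∧ ∀ v, x.2 (R v) = x.2 v}
  add_mem' := by
    rintro x y ⟨h1, h2⟩ ⟨k1, k2⟩
    exact ⟨fun v => by simp only [Prod.fst_add, Pi.add_apply, h1 v, k1 v]; ring,
      fun v => by simp only [Prod.snd_add, Pi.add_apply, h2 v, k2 v]⟩
  zero_mem' := ⟨fun v => by simp, fun v => by simp⟩
  smul_mem' := by
    rintro c x ⟨h1, h2⟩
    exact ⟨fun v => by simp only [Prod.smul_fst, Pi.smul_apply, smul_eq_mul, h1 v]; ring,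
      fun v => by simp only [Prod.smul_snd, Pi.smul_apply, h2 v]⟩

/-- Pairs of functions which are constant along the pair a, b. -/
def Flat {V : Type} (a b : V) : Submodule ℂ ((V → ℂ) × (V → ℂ)) where
  carrier := {x | x.1 a = x.1 b ∧ x.2 a = x.2 b}
  add_mem' := by
    rintro x y ⟨h1, h2⟩ ⟨k1, k2⟩
    exact ⟨by simp only [Prod.fst_add, Pi.add_apply, h1, k1], by simp only [Prod.snd_add, Pi.add_apply, h2, k2]⟩
  zero_mem' := ⟨rfl, rfl⟩
  smul_mem' := by
    rintro c x ⟨h1, h2⟩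
    exact ⟨by simp only [Prod.smul_fst, Pi.smul_apply, h1], by simp only [Prod.smul_snd, Pi.smul_apply, h2]⟩

/-- Pairs (u, w) of types (ζ², 1) with u = 0 on blocks and w constant on blocks. -/
def Qb {V : Type} (R : V → V) (ζ : ℂ) (B : V → V → Prop) : Submodule ℂ ((V → ℂ) × (V → ℂ)) where
  carrier := {x | x ∈ XF R ζ ∧ (∀ a, B a a → x.1 a = 0) ∧ ∀ a b, B a b → x.2 a = x.2 b}
  add_mem' := by
    rintro x y ⟨h1, h2, h3⟩ ⟨k1, k2, k3⟩
    exact ⟨(XF R ζ).add_mem h1 k1, fun a h => by simp only [Prod.fst_add, Pi.add_apply, h2 a h, k2 a h, add_zero],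
      fun a b h => by simp only [Prod.snd_add, Pi.add_apply, h3 a b h, k3 a b h]⟩
  zero_mem' := ⟨(XF R ζ).zero_mem, fun a _ => rfl, fun a b _ => rfl⟩
  smul_mem' := by
    rintro c x ⟨h1, h2, h3⟩
    exact ⟨(XF R ζ).smul_mem c h1, fun a h => by simp only [Prod.smul_fst, Pi.smul_apply, h2 a h, smul_zero],
      fun a b h => by simp only [Prod.smul_snd, Pi.smul_apply, h3 a b h]⟩

/-- The representative pair of the i-th orbit (b = true) or its mirror image (b = false). -/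
def pr {V : Type} {m : ℕ} (S : V → V) (rep : Fin m → V × V) (i : Fin m) (b : Bool) : V × V :=
  if b then rep i else (S (rep i).1, S (rep i).2)

/-- The limit kernel. -/
def LimK {V : Type} {m : ℕ} (S : V → V) (rep : Fin m → V × V) (I1 : Fin m → Prop) (c : Fin m → Bool)
    (τ : Fin m → ℂ) (Q : Submodule ℂ ((V → ℂ) × (V → ℂ))) : Submodule ℂ ((V → ℂ) × (V → ℂ)) where
  carrier := {x | x ∈ Q ∧ ∀ i, I1 i →
    (x.1 (pr S rep i (c i)).1 - x.1 (pr S rep i (c i)).2)
      + τ i * (x.2 (pr S rep i (c i)).1 - x.2 (pr S rep i (c i)).2) = 0 ∧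
    x.2 (S (pr S rep i (c i)).1) = x.2 (S (pr S rep i (c i)).2)}
  add_mem' := by
    rintro x y ⟨hx, hx'⟩ ⟨hy, hy'⟩
    refine ⟨Q.add_mem hx hy, fun i hi => ⟨?_, ?_⟩⟩
    · simp only [Prod.fst_add, Prod.snd_add, Pi.add_apply]
      linear_combination (hx' i hi).1 + (hy' i hi).1
    · simp only [Prod.snd_add, Pi.add_apply, (hx' i hi).2, (hy' i hi).2]
  zero_mem' := ⟨Q.zero_mem, fun i _ => ⟨by simp, rfl⟩⟩
  smul_mem' := by
    rintro c x ⟨hx, hx'⟩
    refine ⟨Q.smul_mem c hx, fun i hi => ⟨?_, ?_⟩⟩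
    · simp only [Prod.smul_fst, Prod.smul_snd, Pi.smul_apply, smul_eq_mul]
      linear_combination c * (hx' i hi).1
    · simp only [Prod.smul_snd, Pi.smul_apply, (hx' i hi).2]

/-- Pairs (u, ε u ∘ S) with u of type η. -/
def XE {V : Type} (R S : V → V) (ε η : ℂ) : Submodule ℂ ((V → ℂ) × (V → ℂ)) where
  carrier := {x | (∀ v, x.1 (R v) = η * x.1 v) ∧ ∀ v, x.2 v = ε * x.1 (S v)}
  add_mem' := by
    rintro x y ⟨h1, h2⟩ ⟨k1, k2⟩
    exact ⟨fun v => by simp only [Prod.fst_add, Pi.add_apply, h1 v, k1 v]; ring,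
      fun v => by simp only [Prod.fst_add, Prod.snd_add, Pi.add_apply, h2 v, k2 v]; ring⟩
  zero_mem' := ⟨fun v => by simp, fun v => by simp⟩
  smul_mem' := by
    rintro c x ⟨h1, h2⟩
    exact ⟨fun v => by simp only [Prod.smul_fst, Pi.smul_apply, smul_eq_mul, h1 v]; ring,
      fun v => by simp only [Prod.smul_fst, Prod.smul_snd, Pi.smul_apply, smul_eq_mul, h2 v]; ring⟩

/-- Pairs of functions vanishing outside K. -/
def Supp {V : Type} (K : Finset V) : Submodule ℂ ((V → ℂ) × (V → ℂ)) where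
  carrier := {x | ∀ v, v ∉ K → x.1 v = 0 ∧ x.2 v = 0}
  add_mem' := by
    rintro x y h1 k1
    exact fun v hv => ⟨by simp only [Prod.fst_add, Pi.add_apply, (h1 v hv).1, (k1 v hv).1, add_zero],
      by simp only [Prod.snd_add, Pi.add_apply, (h1 v hv).2, (k1 v hv).2, add_zero]⟩
  zero_mem' := fun v _ => ⟨rfl, rfl⟩
  smul_mem' := by
    rintro c x h1
    exact fun v hv => ⟨by simp only [Prod.smul_fst, Pi.smul_apply, (h1 v hv).1, smul_zero],
      by simp only [Prod.smul_snd, Pi.smul_apply, (h1 v hv).2, smul_zero]⟩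

/-- Special darts: the rotated copies of (u0, v0) and (v0, u0). -/
def Spec {V : Type} (R : Equiv.Perm V) (u0 v0 a b : V) : Prop :=
  ∃ k : ℕ, (a = (R ^ k) u0 ∧ b = (R ^ k) v0) ∨ (a = (R ^ k) v0 ∧ b = (R ^ k) u0)

/-- Symmetric Laman data with a chosen reflection-fixed edge u0 v0 and orbit representatives of the
remaining darts. -/
structure Dat {V : Type} [Fintype V] [DecidableEq V] (G : SimpleGraph V) [DecidableRel G.Adj]
    (n : ℕ) (R S : Equiv.Perm V) (ζ : ℂ) (u0 v0 : V) (m : ℕ) (rep : Fin m → V × V) : Prop where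
  hn : n = 2 ∨ n = 3
  hRn : R ^ n = 1
  hSS : S * S = 1
  hSRS : S * R * S = R⁻¹
  hζ : ζ ^ n = 1
  hζ1 : ζ ≠ 1
  hfree : ∀ v, R v ≠ v
  hGR : ∀ a b, G.Adj (R a) (R b) ↔ G.Adj a b
  hGS : ∀ a b, G.Adj (S a) (S b) ↔ G.Adj a b
  hsparse : ∀ C : Finset V, 2 ≤ C.card →
    ((C ×ˢ C).filter (fun x : V × V => G.Adj x.1 x.2)).card + 6 ≤ 4 * C.card
  hcount : (Finset.univ.filter (fun x : V × V => G.Adj x.1 x.2)).card + 6 = 4 * Fintype.card V
  h0 : G.Adj u0 v0
  h0S : (S u0 = u0 ∧ S v0 = v0) ∨ (S u0 = v0 ∧ S v0 = u0)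
  h0R : n = 2 → R u0 = v0 ∧ R v0 = u0
  hSpS : ∀ a b, G.Adj a b → ∀ k : ℕ, (((R ^ k * S) a = a ∧ (R ^ k * S) b = b) ∨
    ((R ^ k * S) a = b ∧ (R ^ k * S) b = a)) → Spec R u0 v0 a b
  hSpR : ∀ a b, G.Adj a b → ∀ k : ℕ, ((R ^ k) a = b ∧ (R ^ k) b = a) → Spec R u0 v0 a b
  hrepA : ∀ i, G.Adj (rep i).1 (rep i).2
  hrepS : ∀ i, ¬ Spec R u0 v0 (rep i).1 (rep i).2
  hcov : ∀ a b, G.Adj a b → ¬ Spec R u0 v0 a b → ∃ k : ℕ, k < n ∧ ∃ (ε δ : Bool) (i : Fin m),
    (a, b) = op R S k ε δ (rep i)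
  huniq : ∀ k k' : ℕ, k < n → k' < n → ∀ (ε ε' δ δ' : Bool) (i i' : Fin m),
    op R S k ε δ (rep i) = op R S k' ε' δ' (rep i') → k = k' ∧ ε = ε' ∧ δ = δ' ∧ i = i'
  hJ : ∀ J : Finset (Fin m), (Finset.univ.filter (fun x : V × V =>
    ∃ i ∈ J, ∃ k : ℕ, k < n ∧ ∃ ε δ : Bool, x = op R S k ε δ (rep i))).card = 4 * n * J.card
  hV : n * (m + 1) = Fintype.card V

/-- Index type of the orbits of darts outside the blocks. -/
abbrev IH {V : Type} {m : ℕ} (rep : Fin m → V × V) (B : V → V → Prop) : Type :=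
  {i : Fin m // ¬ B (rep i).1 (rep i).2}

/-- The difference functional of a pair of vertices. -/
def dif {V : Type} (x : V × V) : (V → ℂ) →ₗ[ℂ] ℂ :=
  LinearMap.proj (R := ℂ) (φ := fun _ : V => ℂ) x.1 - LinearMap.proj x.2

/-- The functionals attached to the orbits of darts outside the blocks. -/
def fl {V : Type} {m : ℕ} (S : V → V) (rep : Fin m → V × V) (B : V → V → Prop) (i : IH rep B) (b : Bool) :
    (V → ℂ) →ₗ[ℂ] ℂ := dif (pr S rep i.1 b)

/-- Elements of Yq that are constant along u0 v0. -/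
def X0q {V : Type} (R S : V → V) (B : V → V → Prop) (u0 v0 : V) : Submodule ℂ (V → ℂ) :=
  Yq R S B (fun _ _ => False) ⊓ LinearMap.ker (dif (u0, v0))

/-- Invariant functions, constant on blocks, mirror antisymmetric on blocks. -/
def Ym {V : Type} (R S : V → V) (B : V → V → Prop) : Submodule ℂ (V → ℂ) where
  carrier := {u | (∀ v, u (R v) = u v) ∧ (∀ a b, B a b → u a = u b) ∧ (∀ v, B v v → u (S v) = - u v)}
  add_mem' := by
    rintro x y ⟨h1, h2, h3⟩ ⟨k1, k2, k3⟩
    refine ⟨fun v => ?_, fun a b h => ?_, fun v h => ?_⟩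
    · simp only [Pi.add_apply, h1 v, k1 v]
    · simp only [Pi.add_apply, h2 a b h, k2 a b h]
    · simp only [Pi.add_apply, h3 v h, k3 v h]; ring
  zero_mem' := ⟨fun v => rfl, fun a b _ => rfl, fun v _ => by simp⟩
  smul_mem' := by
    rintro c x ⟨h1, h2, h3⟩
    refine ⟨fun v => ?_, fun a b h => ?_, fun v h => ?_⟩
    · simp only [Pi.smul_apply, h1 v]
    · simp only [Pi.smul_apply, h2 a b h]
    · simp only [Pi.smul_apply, h3 v h, smul_eq_mul]; ring

/-- Tight symmetric block-closed sets containing u0 and v0. -/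
def FamW {V : Type} [DecidableEq V] (G : SimpleGraph V) [DecidableRel G.Adj] (R S : V → V)
    (B : V → V → Prop) (u0 v0 : V) (W : Finset V) : Prop :=
  u0 ∈ W ∧ v0 ∈ W ∧ (∀ v ∈ W, R v ∈ W) ∧ (∀ v ∈ W, S v ∈ W) ∧ (∀ a ∈ W, ∀ b, B a b → b ∈ W) ∧
    ((W ×ˢ W).filter (fun x : V × V => G.Adj x.1 x.2)).card + 6 = 4 * W.card

/-- Functions vanishing outside W. -/
def SuppF {V : Type} (W : Finset V) : Submodule ℂ (V → ℂ) where
  carrier := {P | ∀ v, v ∉ W → P v = 0}
  add_mem' := by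
    rintro x y h1 k1
    exact fun v hv => by simp only [Pi.add_apply, h1 v hv, k1 v hv, add_zero]
  zero_mem' := fun v _ => rfl
  smul_mem' := by
    rintro c x h1
    exact fun v hv => by simp only [Pi.smul_apply, h1 v hv, smul_zero]

end Pool.Agent.DihLaman
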