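import Mathlib
set_option autoImplicit false
set_option maxHeartbeats 4000000

namespace Pool.Agent.Reg5

/-- number of edges of `G` with both ends in `X` -/
noncomputable def ie {V : Type} [Fintype V] [DecidableEq V] (G : SimpleGraph V) (X : Finset V) : ℕ :=
  open Classical in (Finset.univ.filter (fun e : Sym2 V => e ∈ G.edgeSet ∧ ∀ a ∈ e, a ∈ X)).card

/-- number of neighbours of `a` inside `X` -/
noncomputable def dg {V : Type} [Fintype V] [DecidableEq V] (G : SimpleGraph V) (X : Finset V) (a : V) : ℕ :=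
  open Classical in (X.filter (fun x => G.Adj a x)).card

/-- `(3,6)`-sparse -/
def Sparse {V : Type} [Fintype V] [DecidableEq V] (G : SimpleGraph V) : Prop :=
  ∀ X : Finset V, 3 ≤ X.card → ie G X + 6 ≤ 3 * X.card

/-- the class of sparse graphs of maximum degree at most five -/
def Cls {V : Type} [Fintype V] [DecidableEq V] (G : SimpleGraph V) : Prop :=
  Sparse G ∧ ∀ a, dg G Finset.univ a ≤ 5

/-- delete all edges meeting `S` -/
def del {V : Type} [Fintype V] [DecidableEq V] (G : SimpleGraph V) (S : Finset V) : SimpleGraph V where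
  Adj a b := G.Adj a b ∧ a ∉ S ∧ b ∉ S
  symm := ⟨fun _ _ h => ⟨h.1.symm, h.2.2, h.2.1⟩⟩
  loopless := ⟨fun a h => G.loopless.irrefl a h.1⟩

/-- add the edge `ab` -/
def add {V : Type} [Fintype V] [DecidableEq V] (G : SimpleGraph V) (a b : V) : SimpleGraph V where
  Adj x y := G.Adj x y ∨ (a ≠ b ∧ ((x = a ∧ y = b) ∨ (x = b ∧ y = a)))
  symm := ⟨fun _ _ h => by
    rcases h with h | ⟨h0, h | h⟩
    · exact Or.inl h.symm
    · exact Or.inr ⟨h0, Or.inr ⟨h.2, h.1⟩⟩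
    · exact Or.inr ⟨h0, Or.inl ⟨h.2, h.1⟩⟩⟩
  loopless := ⟨fun a h => by
    rcases h with h | ⟨h0, h | h⟩
    · exact G.loopless.irrefl a h
    · exact h0 (h.1.symm.trans h.2)
    · exact h0 (h.2.symm.trans h.1)⟩

/-- tight set with at least four vertices -/
def BT {V : Type} [Fintype V] [DecidableEq V] (G : SimpleGraph V) (X : Finset V) : Prop :=
  4 ≤ X.card ∧ ie G X + 6 = 3 * X.card

/-- combinatorially implied pair -/
def J {V : Type} [Fintype V] [DecidableEq V] (G : SimpleGraph V) (a b : V) : Prop :=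
  G.Adj a b ∨ ∃ X : Finset V, BT G X ∧ a ∈ X ∧ b ∈ X

/-- `(p a - p b) · (m a - m b)` -/
def dd {V : Type} (p m : V → Fin 3 → ℝ) (a b : V) : ℝ := (p a - p b) ⬝ᵥ (m a - m b)

/-- `m` is an infinitesimal motion of the framework `(G,p)` -/
def IsMot {V : Type} (G : SimpleGraph V) (p m : V → Fin 3 → ℝ) : Prop :=
  ∀ a b, G.Adj a b → dd p m a b = 0

/-- the framework `(G,p)` has no nonzero equilibrium stress (rows of the rigidity matrix independent) -/
def SF {V : Type} [Fintype V] (G : SimpleGraph V) (p : V → Fin 3 → ℝ) : Prop :=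
  ∀ w : V → V → ℝ, (∀ a b, w a b = w b a) → (∀ a b, ¬ G.Adj a b → w a b = 0) →
    (∀ a, ∑ b, w a b • (p a - p b) = 0) → ∀ a b, w a b = 0

/-- independence in the generic three-dimensional rigidity matroid -/
def Ind {V : Type} [Fintype V] (G : SimpleGraph V) : Prop := ∃ p : V → Fin 3 → ℝ, SF G p

/-- general position -/
def GP {V : Type} (p : V → Fin 3 → ℝ) : Prop :=
  (∀ a b : V, a ≠ b → p a ≠ p b) ∧
  (∀ a b c : V, a ≠ b → a ≠ c → b ≠ c → LinearIndependent ℝ ![p b - p a, p c - p a]) ∧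
  (∀ a b c d : V, a ≠ b → a ≠ c → a ≠ d → b ≠ c → b ≠ d → c ≠ d →
    LinearIndependent ℝ ![p b - p a, p c - p a, p d - p a])

/-- a placement in general position realising the generic matroid for all graphs -/
def Good {V : Type} [Fintype V] (p : V → Fin 3 → ℝ) : Prop :=
  GP p ∧ ∀ G : SimpleGraph V, Ind G → SF G p

/-- `p` lies in the open box of radius `r` around `p0` -/
def Bx {V : Type} (p0 : V → Fin 3 → ℝ) (r : ℝ) (p : V → Fin 3 → ℝ) : Prop :=
  ∀ a i, |p a i - p0 a i| < r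

/-- the infinitesimal rigid motion with translation `t.1` and angular velocity `t.2` -/
def rf (t : (Fin 3 → ℝ) × (Fin 3 → ℝ)) (x : Fin 3 → ℝ) : Fin 3 → ℝ := t.1 + crossProduct t.2 x


/-- `m` is a motion of `(H,p)` vanishing on `B`, agreeing with the rigid motions `t1` on `K1` and `t2` on `K2` -/
def Rel {V : Type} (H : SimpleGraph V) (p : V → Fin 3 → ℝ) (B K1 K2 : Finset V) (m : V → Fin 3 → ℝ)
    (t1 t2 : (Fin 3 → ℝ) × (Fin 3 → ℝ)) : Prop :=
  IsMot H p m ∧ (∀ b ∈ B, m b = 0) ∧ (∀ k ∈ K1, m k = rf t1 (p k)) ∧ (∀ k ∈ K2, m k = rf t2 (p k))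

/-- the situation reached in case II -/
structure C2 {V : Type} [Fintype V] [DecidableEq V] (G : SimpleGraph V) (v a1 a2 : V) (B K1 K2 : Finset V)
    (p0 : V → Fin 3 → ℝ) (r : ℝ) : Prop where
  cls : Cls G
  IH : ∀ G' : SimpleGraph V, Cls G' → ie G' Finset.univ < ie G Finset.univ → Ind G'
  hr : 0 < r
  good : ∀ p, Bx p0 r p → Good p
  hv : v ∉ B ∧ v ∉ K1 ∧ v ∉ K2
  ha1 : a1 ∉ B ∧ a1 ∉ K1 ∧ a1 ∉ K2
  ha2 : a2 ∉ B ∧ a2 ∉ K1 ∧ a2 ∉ K2
  hva : v ≠ a1 ∧ v ≠ a2 ∧ a1 ≠ a2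
  cB : B.card = 3
  c1 : K1.card = 3
  c2 : K2.card = 3
  Nv : ∀ x, G.Adj v x ↔ (x = a1 ∨ x = a2 ∨ x ∈ B)
  N1 : ∀ x, G.Adj a1 x ↔ (x = v ∨ x = a2 ∨ x ∈ K1)
  N2 : ∀ x, G.Adj a2 x ↔ (x = v ∨ x = a1 ∨ x ∈ K2)
  rB : ∀ p, Bx p0 r p → ∀ m, IsMot (del G {v, a1, a2}) p m → ∀ x ∈ B, ∀ y ∈ B, dd p m x y = 0
  r1 : ∀ p, Bx p0 r p → ∀ m, IsMot (del G {v, a1, a2}) p m → ∀ x ∈ K1, ∀ y ∈ K1, dd p m x y = 0
  r2 : ∀ p, Bx p0 r p → ∀ m, IsMot (del G {v, a1, a2}) p m → ∀ x ∈ K2, ∀ y ∈ K2, dd p m x y = 0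
  ex : ∀ p, Bx p0 r p → ∃ c : ℝ, c ≠ 0 ∧ c ≠ 1 ∧ ∀ m t1 t2, Rel (del G {v, a1, a2}) p B K1 K2 m t1 t2 → t1 = c • t2
  sur : ∀ p, Bx p0 r p → ∀ u, ∃ m t1 t2, Rel (del G {v, a1, a2}) p B K1 K2 m t1 t2 ∧ rf t2 (p a2) = u


/-- The row, indexed by the unordered pair `uv`, of the rigidity matrix of a placement `p`:
`p u - p v` in the three columns of `u`, `p v - p u` in the three columns of `v`, zero elsewhere. -/
def rigidityRow {V : Type} [DecidableEq V] (p : V → Fin 3 → ℝ) : Sym2 V → (V × Fin 3 → ℝ) :=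
  Sym2.lift ⟨fun u v => fun w =>
    (if w.1 = u then p u w.2 - p v w.2 else 0) + (if w.1 = v then p v w.2 - p u w.2 else 0),
    fun u v => by funext w; exact add_comm _ _⟩

/-- The rigidity matrix `R(G,p)`: rows indexed by the edges, columns by the coordinates. -/
def rigidityMatrix {V : Type} [DecidableEq V] (G : SimpleGraph V) (p : V → Fin 3 → ℝ) :
    Matrix G.edgeSet (V × Fin 3) ℝ := fun e w => rigidityRow p e.1 w

/-- The rows of `R(G,p)` are linearly independent. -/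
def RowsIndependent {V : Type} [DecidableEq V] (G : SimpleGraph V) (p : V → Fin 3 → ℝ) : Prop :=
  LinearIndependent ℝ (fun e : G.edgeSet => rigidityMatrix G p e)

/-- `p` is generic: its `3n` coordinates are algebraically independent over `ℚ`. -/
def IsGeneric {V : Type} (p : V → Fin 3 → ℝ) : Prop :=
  AlgebraicIndependent ℚ (fun w : V × Fin 3 => p w.1 w.2)

/-- `G` is independent in the generic 3-dimensional rigidity matroid. -/
def Independent3 {V : Type} [DecidableEq V] (G : SimpleGraph V) : Prop :=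
  ∀ p : V → Fin 3 → ℝ, IsGeneric p → RowsIndependent G p

/-- `G` is `(3,6)`-sparse: every subgraph `H` with at least three vertices has at most `3|V(H)|-6` edges. -/
def IsSparse36 {V : Type} (G : SimpleGraph V) : Prop :=
  ∀ H : G.Subgraph, 3 ≤ H.verts.ncard → H.edgeSet.ncard ≤ 3 * H.verts.ncard - 6

end Pool.Agent.Reg5
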