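import Pool.Agent.Helper927.R5Defs
set_option autoImplicit false
set_option maxHeartbeats 4000000

namespace Pool.Agent.Reg5.J2263
open Pool.Agent.Reg5

theorem isMot_mono {V : Type} {G G' : SimpleGraph V} (h : G ≤ G') (p m : V → Fin 3 → ℝ) (hm : IsMot G' p m) :
    IsMot G p m := fun a b hab => hm a b (h hab)

theorem SF_mono {V : Type} [Fintype V] {G G' : SimpleGraph V} (h : G ≤ G') (p : V → Fin 3 → ℝ) (hG : SF G' p) :
    SF G p := by
  intro w hsym hsup heq
  exact hG w hsym (fun a b hab => hsup a b (fun hh => hab (h hh))) heq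

theorem work {V : Type} [Fintype V] (p m : V → Fin 3 → ℝ) (w : V → V → ℝ) (hw : ∀ a b, w a b = w b a) :
    2 * ∑ a, (∑ b, w a b • (p a - p b)) ⬝ᵥ m a = ∑ a, ∑ b, w a b * dd p m a b := by
  have h1 : ∀ a, (∑ b, w a b • (p a - p b)) ⬝ᵥ m a = ∑ b, w a b * ((p a - p b) ⬝ᵥ m a) := by
    intro a
    rw [sum_dotProduct]
    exact Finset.sum_congr rfl (fun b _ => by rw [smul_dotProduct, smul_eq_mul])
  simp_rw [h1]
  have h2 : ∑ a, ∑ b, w a b * ((p a - p b) ⬝ᵥ m a) = ∑ a, ∑ b, w a b * ((p b - p a) ⬝ᵥ m b) := by
    rw [Finset.sum_comm]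
    exact Finset.sum_congr rfl (fun a _ => Finset.sum_congr rfl (fun b _ => by rw [hw]))
  rw [two_mul]
  nth_rewrite 2 [h2]
  rw [← Finset.sum_add_distrib]
  refine Finset.sum_congr rfl (fun a _ => ?_)
  rw [← Finset.sum_add_distrib]
  refine Finset.sum_congr rfl (fun b _ => ?_)
  have : dd p m a b = (p a - p b) ⬝ᵥ m a + (p b - p a) ⬝ᵥ m b := by
    unfold dd
    rw [dotProduct_sub, ← neg_sub (p a) (p b), neg_dotProduct]
    ring
  rw [this]; ring

theorem resolve {V : Type} [Fintype V] (G : SimpleGraph V) (p L : V → Fin 3 → ℝ)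
    (h : ∀ m, IsMot G p m → ∑ a, L a ⬝ᵥ m a = 0) :
    ∃ w : V → V → ℝ, (∀ a b, w a b = w b a) ∧ (∀ a b, ¬ G.Adj a b → w a b = 0) ∧
      ∀ a, L a = ∑ b, w a b • (p a - p b) := by
  classical
  -- the space of stresses
  let Wsp : Submodule ℝ (V → V → ℝ) :=
    { carrier := {w | (∀ a b, w a b = w b a) ∧ (∀ a b, ¬ G.Adj a b → w a b = 0)}
      add_mem' := by
        intro x y hx hy
        exact ⟨fun a b => by simp [hx.1 a b, hy.1 a b], fun a b hab => by simp [hx.2 a b hab, hy.2 a b hab]⟩
      zero_mem' := ⟨fun a b => rfl, fun a b _ => rfl⟩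
      smul_mem' := by
        intro c x hx
        exact ⟨fun a b => by simp [hx.1 a b], fun a b hab => by simp [hx.2 a b hab]⟩ }
  let T : (V → V → ℝ) →ₗ[ℝ] (V → Fin 3 → ℝ) :=
    { toFun := fun w a => ∑ b, w a b • (p a - p b)
      map_add' := by
        intro x y; funext a
        simp [add_smul, Finset.sum_add_distrib]
      map_smul' := by
        intro c x; funext a
        simp [smul_smul, Finset.smul_sum] }
  by_contra hcon
  push Not at hcon
  have hL : L ∉ Wsp.map T := by
    rintro ⟨w, hw, hT⟩
    obtain ⟨a, ha⟩ := hcon w hw.1 hw.2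
    exact ha (by rw [← hT]; rfl)
  obtain ⟨f, hfL, hf⟩ := Submodule.exists_le_ker_of_notMem hL
  -- represent f by a vector
  let m : V → Fin 3 → ℝ := fun a i => f (Pi.single a (Pi.single i 1))
  have hrep : ∀ x : V → Fin 3 → ℝ, f x = ∑ a, x a ⬝ᵥ m a := by
    intro x
    have hx : x = ∑ a, ∑ i, x a i • (Pi.single a (Pi.single i (1:ℝ)) : V → Fin 3 → ℝ) := by
      funext b j
      simp only [Finset.sum_apply, Pi.smul_apply, smul_eq_mul]
      rw [Finset.sum_eq_single b, Finset.sum_eq_single j]
      · simp
      · intro i _ hij; simp [Pi.single_apply, Ne.symm hij]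
      · simp
      · intro a _ hab
        apply Finset.sum_eq_zero
        intro i _
        simp [Pi.single_apply, Ne.symm hab]
      · simp
    conv_lhs => rw [hx]
    simp only [map_sum, map_smul, smul_eq_mul]
    rfl
  have hmot : IsMot G p m := by
    intro a b hab
    let w : V → V → ℝ := fun x y => if (x = a ∧ y = b) ∨ (x = b ∧ y = a) then 1 else 0
    have hws : ∀ x y, w x y = w y x := by
      intro x y
      simp only [w]
      congr 1
      exact propext ⟨fun h => by tauto, fun h => by tauto⟩
    have hwW : w ∈ Wsp := by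
      refine ⟨hws, ?_⟩
      intro x y hxy
      simp only [w]
      rw [if_neg]
      rintro (⟨rfl, rfl⟩ | ⟨rfl, rfl⟩)
      · exact hxy hab
      · exact hxy hab.symm
    have h0 : f (T w) = 0 := hf (Submodule.mem_map_of_mem hwW)
    rw [hrep] at h0
    have h1 := work p m w hws
    have h2 : ∑ x, (∑ y, w x y • (p x - p y)) ⬝ᵥ m x = 0 := h0
    rw [h2, mul_zero] at h1
    have hne : a ≠ b := hab.ne
    have h3 : ∑ x, ∑ y, w x y * dd p m x y = dd p m a b + dd p m b a := by
      have : ∀ x y, w x y * dd p m x y = (if x = a then (if y = b then dd p m a b else 0) else 0) +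
          (if x = b then (if y = a then dd p m b a else 0) else 0) := by
        intro x y
        simp only [w]
        by_cases hx : x = a
        · subst hx
          by_cases hy : y = b
          · subst hy; simp [hne, hne.symm]
          · simp [hy, hne]
        · by_cases hx' : x = b
          · subst hx'
            by_cases hy : y = a
            · subst hy; simp [hx]
            · simp [hy, hx]
          · simp [hx, hx']
      simp_rw [this, Finset.sum_add_distrib]
      simp
    rw [h3] at h1
    have h4 : dd p m b a = dd p m a b := by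
      unfold dd
      rw [← neg_sub (p a) (p b), ← neg_sub (m a) (m b), neg_dotProduct, dotProduct_neg, neg_neg]
    rw [h4] at h1
    linarith
  have h5 := h m hmot
  exact hfL (by rw [hrep]; exact h5)

end Pool.Agent.Reg5.J2263
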