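import Pool.Agent.Helper927.R5Defs
set_option autoImplicit false
set_option maxHeartbeats 4000000

namespace Pool.Agent.Reg5.J2268
open Pool.Agent.Reg5





/-- the space of candidate stresses -/
def WS {V : Type} (G : SimpleGraph V) : Submodule ℝ (V → V → ℝ) where
  carrier := {w | (∀ a b, w a b = w b a) ∧ ∀ a b, ¬ G.Adj a b → w a b = 0}
  add_mem' := by
    intro x y hx hy
    refine ⟨fun a b => ?_, fun a b h => ?_⟩
    · simp only [Pi.add_apply]; rw [hx.1 a b, hy.1 a b]
    · simp only [Pi.add_apply]; rw [hx.2 a b h, hy.2 a b h, add_zero]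
  zero_mem' := ⟨fun _ _ => rfl, fun _ _ _ => rfl⟩
  smul_mem' := by
    intro c x hx
    refine ⟨fun a b => ?_, fun a b h => ?_⟩
    · simp only [Pi.smul_apply]; rw [hx.1 a b]
    · simp only [Pi.smul_apply]; rw [hx.2 a b h, smul_zero]

/-- the stress map, linear in the placement and in the stress -/
noncomputable def PhiS {V : Type} [Fintype V] (G : SimpleGraph V) :
    (V → Fin 3 → ℝ) →ₗ[ℝ] (WS G →ₗ[ℝ] (V → Fin 3 → ℝ)) :=
  LinearMap.mk₂ ℝ (fun p w => fun a => ∑ b, w.1 a b • (p a - p b))
    (by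
      intro p q w; funext a
      simp only [Pi.add_apply]
      rw [← Finset.sum_add_distrib]
      refine Finset.sum_congr rfl fun b _ => ?_
      rw [← smul_add]; congr 1; abel)
    (by
      intro c p w; funext a
      simp only [Pi.smul_apply]
      rw [Finset.smul_sum]
      refine Finset.sum_congr rfl fun b _ => ?_
      rw [← smul_sub, smul_comm])
    (by
      intro p w w'; funext a
      simp only [Pi.add_apply, Submodule.coe_add]
      rw [← Finset.sum_add_distrib]
      refine Finset.sum_congr rfl fun b _ => ?_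
      rw [add_smul])
    (by
      intro c p w; funext a
      simp only [Pi.smul_apply, Submodule.coe_smul]
      rw [Finset.smul_sum]
      refine Finset.sum_congr rfl fun b _ => ?_
      rw [smul_assoc])

theorem PhiS_apply {V : Type} [Fintype V] (G : SimpleGraph V) (p : V → Fin 3 → ℝ) (w : WS G)
    (a : V) : PhiS G p w a = ∑ b, w.1 a b • (p a - p b) := rfl

theorem SF_iff {V : Type} [Fintype V] (G : SimpleGraph V) (p : V → Fin 3 → ℝ) :
    SF G p ↔ Function.Injective (PhiS G p) := by
  rw [injective_iff_map_eq_zero]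
  constructor
  · intro h w hw
    apply Subtype.ext
    funext a b
    exact h w.1 w.2.1 w.2.2 (fun a => by rw [← PhiS_apply, hw]; rfl) a b
  · intro h w h1 h2 h3 a b
    have := h ⟨w, h1, h2⟩ (by funext a; rw [PhiS_apply]; exact h3 a)
    have h4 := congrArg Subtype.val this
    exact congrFun (congrFun h4 a) b

theorem SF_open {V : Type} [Fintype V] [DecidableEq V] (G : SimpleGraph V) : IsOpen {p : V → Fin 3 → ℝ | SF G p} := by
  let Ψ : (V → Fin 3 → ℝ) →ₗ[ℝ] (WS G →L[ℝ] (V → Fin 3 → ℝ)) :=
    (LinearMap.toContinuousLinearMap : (WS G →ₗ[ℝ] (V → Fin 3 → ℝ)) ≃ₗ[ℝ] _).toLinearMap ∘ₗ PhiS G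
  have hc : Continuous Ψ := by
    exact LinearMap.continuous_of_finiteDimensional (𝕜 := ℝ) (E := V → Fin 3 → ℝ)
      (F' := WS G →L[ℝ] (V → Fin 3 → ℝ)) Ψ
  have he : {p : V → Fin 3 → ℝ | SF G p} = Ψ ⁻¹' {L | Function.Injective L} := by
    ext p
    exact SF_iff G p
  rw [he]
  exact ContinuousLinearMap.isOpen_injective.preimage hc

theorem SF_dense {V : Type} [Fintype V] [DecidableEq V] (G : SimpleGraph V) (h : Ind G) :
    Dense {p : V → Fin 3 → ℝ | SF G p} := by
  obtain ⟨q, hq⟩ := h
  rw [SF_iff] at hq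
  obtain ⟨L, hL⟩ := LinearMap.exists_leftInverse_of_injective (PhiS G q) (LinearMap.ker_eq_bot.2 hq)
  intro p
  have hfin : {μ : ℝ | Module.End.HasEigenvalue (L ∘ₗ PhiS G p) μ}.Finite :=
    Module.End.finite_hasEigenvalue (L ∘ₗ PhiS G p)
  have key : ∀ s : ℝ, ¬ Module.End.HasEigenvalue (L ∘ₗ PhiS G p) (-s) → SF G (p + s • q) := by
    intro s hs
    rw [SF_iff, injective_iff_map_eq_zero]
    intro w hw
    by_contra hw0
    apply hs
    refine Module.End.hasEigenvalue_of_hasEigenvector (x := w) ⟨?_, hw0⟩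
    rw [Module.End.mem_eigenspace_iff]
    have h1 : L (PhiS G p w) + s • L (PhiS G q w) = 0 := by
      rw [← map_smul, ← map_add]
      have : PhiS G p w + s • PhiS G q w = PhiS G (p + s • q) w := by
        rw [map_add, map_smul]; rfl
      rw [this, hw, map_zero]
    have h2 : L (PhiS G q w) = w := by
      have := congrArg (fun f => f w) hL
      exact this
    rw [h2] at h1
    rw [LinearMap.comp_apply, neg_smul]
    exact eq_neg_of_add_eq_zero_left h1
  rw [mem_closure_iff_nhds]
  intro U hU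
  have hct : Filter.Tendsto (fun s : ℝ => p + s • q) (nhds 0) (nhds p) := by
    have : Continuous (fun s : ℝ => p + s • q) := by fun_prop
    have h3 := this.tendsto 0
    simpa using h3
  have hU' := hct hU
  have hd : Dense ({s : ℝ | ¬ Module.End.HasEigenvalue (L ∘ₗ PhiS G p) (-s)}) := by
    have hf2 : {s : ℝ | Module.End.HasEigenvalue (L ∘ₗ PhiS G p) (-s)}.Finite :=
      hfin.preimage (f := fun s : ℝ => -s) (neg_injective.injOn)
    exact hf2.countable.dense_compl ℝ
  obtain ⟨s, hs1, hs2⟩ := mem_closure_iff_nhds.1 (hd 0) _ hU'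
  exact ⟨p + s • q, hs1, key s hs2⟩

end Pool.Agent.Reg5.J2268
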