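import Pool.Agent.Helper927.R5Defs
set_option autoImplicit false
set_option maxHeartbeats 4000000

namespace Pool.Agent.Reg5.J2269
open Pool.Agent.Reg5





open Topology in
theorem gpd_dense_ne {E : Type} [NormedAddCommGroup E] [NormedSpace ℝ E] (f : E → ℝ)
    (hf : ∀ x, AnalyticAt ℝ f x) (q : E) (hq : f q ≠ 0) : Dense {x | f x ≠ 0} := by
  intro x
  rw [mem_closure_iff_nhds]
  intro t ht
  by_contra hcon
  rw [Set.not_nonempty_iff_eq_empty] at hcon
  have h1 : f =ᶠ[𝓝 x] (fun _ => (0 : ℝ)) := by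
    filter_upwards [ht] with y hy
    by_contra hne
    have : y ∈ t ∩ {x | f x ≠ 0} := ⟨hy, hne⟩
    rw [hcon] at this
    exact this
  have h2 := AnalyticOnNhd.eq_of_eventuallyEq (𝕜 := ℝ) (f := f) (g := fun _ => (0 : ℝ))
    (fun y _ => hf y) (fun y _ => analyticAt_const) h1
  exact hq (congrFun h2 q)

theorem gpd_an {V : Type} [Fintype V] (a : V) (i : Fin 3) (x : V → Fin 3 → ℝ) :
    AnalyticAt ℝ (fun p : V → Fin 3 → ℝ => p a i) x :=
  ((ContinuousLinearMap.proj (R := ℝ) (φ := fun _ : Fin 3 => ℝ) i).comp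
    (ContinuousLinearMap.proj (R := ℝ) (φ := fun _ : V => Fin 3 → ℝ) a)).analyticAt x

def gpd2 {V : Type} (a b : V) : Set (V → Fin 3 → ℝ) := {p | a ≠ b → p a ≠ p b}
def gpd3 {V : Type} (a b c : V) : Set (V → Fin 3 → ℝ) :=
  {p | a ≠ b → a ≠ c → b ≠ c → LinearIndependent ℝ ![p b - p a, p c - p a]}
def gpd4 {V : Type} (a b c d : V) : Set (V → Fin 3 → ℝ) :=
  {p | a ≠ b → a ≠ c → a ≠ d → b ≠ c → b ≠ d → c ≠ d →
    LinearIndependent ℝ ![p b - p a, p c - p a, p d - p a]}

theorem gpd2_open {V : Type} [Fintype V] (a b : V) : IsOpen (gpd2 a b) := by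
  unfold gpd2
  by_cases h : a ≠ b
  · simp only [h, ne_eq, not_false_eq_true, forall_const]
    exact isOpen_ne_fun (continuous_apply a) (continuous_apply b)
  · simp [h]

theorem gpd3_open {V : Type} [Fintype V] (a b c : V) : IsOpen (gpd3 a b c) := by
  unfold gpd3
  by_cases h : a ≠ b ∧ a ≠ c ∧ b ≠ c
  · obtain ⟨h1, h2, h3⟩ := h
    simp only [h1, h2, h3, ne_eq, not_false_eq_true, forall_const]
    have hc : Continuous (fun p : V → Fin 3 → ℝ => ![p b - p a, p c - p a]) := by
      apply continuous_pi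
      intro i
      fin_cases i
      · exact (continuous_apply b).sub (continuous_apply a)
      · exact (continuous_apply c).sub (continuous_apply a)
    exact (isOpen_setOfPred_linearIndependent (𝕜 := ℝ) (E := Fin 3 → ℝ) (ι := Fin 2)).preimage hc
  · have : {p : V → Fin 3 → ℝ | a ≠ b → a ≠ c → b ≠ c →
      LinearIndependent ℝ ![p b - p a, p c - p a]} = Set.univ := by
      ext p
      simp only [Set.mem_ofPred_eq, Set.mem_univ, iff_true]
      intro h1 h2 h3
      exact absurd ⟨h1, h2, h3⟩ h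
    rw [this]
    exact isOpen_univ

theorem gpd4_open {V : Type} [Fintype V] (a b c d : V) : IsOpen (gpd4 a b c d) := by
  unfold gpd4
  by_cases h : a ≠ b ∧ a ≠ c ∧ a ≠ d ∧ b ≠ c ∧ b ≠ d ∧ c ≠ d
  · obtain ⟨h1, h2, h3, h4, h5, h6⟩ := h
    simp only [h1, h2, h3, h4, h5, h6, ne_eq, not_false_eq_true, forall_const]
    have hc : Continuous (fun p : V → Fin 3 → ℝ => ![p b - p a, p c - p a, p d - p a]) := by
      apply continuous_pi
      intro i
      fin_cases i
      · exact (continuous_apply b).sub (continuous_apply a)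
      · exact (continuous_apply c).sub (continuous_apply a)
      · exact (continuous_apply d).sub (continuous_apply a)
    exact (isOpen_setOfPred_linearIndependent (𝕜 := ℝ) (E := Fin 3 → ℝ) (ι := Fin 3)).preimage hc
  · have : {p : V → Fin 3 → ℝ | a ≠ b → a ≠ c → a ≠ d → b ≠ c → b ≠ d → c ≠ d →
      LinearIndependent ℝ ![p b - p a, p c - p a, p d - p a]} = Set.univ := by
      ext p
      simp only [Set.mem_ofPred_eq, Set.mem_univ, iff_true]
      intro h1 h2 h3 h4 h5 h6
      exact absurd ⟨h1, h2, h3, h4, h5, h6⟩ h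
    rw [this]
    exact isOpen_univ

theorem gpd2_dense {V : Type} [Fintype V] [DecidableEq V] (a b : V) : Dense (gpd2 a b) := by
  by_cases h : a ≠ b
  · have hd := gpd_dense_ne (fun p : V → Fin 3 → ℝ => p a 0 - p b 0)
      (fun x => (gpd_an a 0 x).sub (gpd_an b 0 x)) (fun v _ => if v = a then 1 else 0)
      (by simp [Ne.symm h])
    refine hd.mono ?_
    intro p hp _ heq
    apply hp
    show p a 0 - p b 0 = 0
    rw [heq, sub_self]
  · have : gpd2 a b = Set.univ := by
      ext p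
      simp only [gpd2, Set.mem_ofPred_eq, Set.mem_univ, iff_true]
      intro h1
      exact absurd h1 h
    rw [this]
    exact dense_univ

theorem gpd3_dense {V : Type} [Fintype V] [DecidableEq V] (a b c : V) : Dense (gpd3 a b c) := by
  by_cases h : a ≠ b ∧ a ≠ c ∧ b ≠ c
  · obtain ⟨h1, h2, h3⟩ := h
    have hd := gpd_dense_ne (fun p : V → Fin 3 → ℝ =>
        (p b 0 - p a 0) * (p c 1 - p a 1) - (p b 1 - p a 1) * (p c 0 - p a 0))
      (fun x => (((gpd_an b 0 x).sub (gpd_an a 0 x)).mul ((gpd_an c 1 x).sub (gpd_an a 1 x))).sub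
        (((gpd_an b 1 x).sub (gpd_an a 1 x)).mul ((gpd_an c 0 x).sub (gpd_an a 0 x))))
      (fun v => if v = b then ![1, 0, 0] else if v = c then ![0, 1, 0] else ![0, 0, 0])
      (by simp [h1, h2, Ne.symm h3])
    refine hd.mono ?_
    intro p hp _ _ _
    rw [LinearIndependent.pair_iff]
    intro s t hst
    have e0 := congrFun hst 0
    have e1 := congrFun hst 1
    simp only [Pi.add_apply, Pi.smul_apply, Pi.sub_apply, smul_eq_mul, Pi.zero_apply] at e0 e1
    have hp' : (p b 0 - p a 0) * (p c 1 - p a 1) - (p b 1 - p a 1) * (p c 0 - p a 0) ≠ 0 := hp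
    constructor
    · have : s * ((p b 0 - p a 0) * (p c 1 - p a 1) - (p b 1 - p a 1) * (p c 0 - p a 0)) = 0 := by
        linear_combination (p c 1 - p a 1) * e0 - (p c 0 - p a 0) * e1
      rcases mul_eq_zero.1 this with h | h
      · exact h
      · exact absurd h hp'
    · have : t * ((p b 0 - p a 0) * (p c 1 - p a 1) - (p b 1 - p a 1) * (p c 0 - p a 0)) = 0 := by
        linear_combination (p b 0 - p a 0) * e1 - (p b 1 - p a 1) * e0
      rcases mul_eq_zero.1 this with h | h
      · exact h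
      · exact absurd h hp'
  · have : gpd3 a b c = Set.univ := by
      ext p
      simp only [gpd3, Set.mem_ofPred_eq, Set.mem_univ, iff_true]
      intro h1 h2 h3
      exact absurd ⟨h1, h2, h3⟩ h
    rw [this]
    exact dense_univ

theorem gpd4_dense {V : Type} [Fintype V] [DecidableEq V] (a b c d : V) : Dense (gpd4 a b c d) := by
  by_cases h : a ≠ b ∧ a ≠ c ∧ a ≠ d ∧ b ≠ c ∧ b ≠ d ∧ c ≠ d
  · obtain ⟨h1, h2, h3, h4, h5, h6⟩ := h
    have hd := gpd_dense_ne (fun p : V → Fin 3 → ℝ =>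
        (p b 0 - p a 0) * ((p c 1 - p a 1) * (p d 2 - p a 2) - (p c 2 - p a 2) * (p d 1 - p a 1)) -
        (p b 1 - p a 1) * ((p c 0 - p a 0) * (p d 2 - p a 2) - (p c 2 - p a 2) * (p d 0 - p a 0)) +
        (p b 2 - p a 2) * ((p c 0 - p a 0) * (p d 1 - p a 1) - (p c 1 - p a 1) * (p d 0 - p a 0)))
      (fun x => by
        have z := fun (v : V) (i : Fin 3) => gpd_an v i x
        have w := fun (v : V) (i : Fin 3) => (z v i).sub (z a i)
        exact (((w b 0).mul (((w c 1).mul (w d 2)).sub ((w c 2).mul (w d 1)))).sub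
          ((w b 1).mul (((w c 0).mul (w d 2)).sub ((w c 2).mul (w d 0))))).add
          ((w b 2).mul (((w c 0).mul (w d 1)).sub ((w c 1).mul (w d 0)))))
      (fun v => if v = b then ![1, 0, 0] else if v = c then ![0, 1, 0] else
        if v = d then ![0, 0, 1] else ![0, 0, 0])
      (by simp [h1, h2, h3, Ne.symm h4, Ne.symm h5, Ne.symm h6])
    refine hd.mono ?_
    intro p hp _ _ _ _ _ _
    have hdet : (Matrix.of ![p b - p a, p c - p a, p d - p a]).det ≠ 0 := by
      rw [Matrix.det_fin_three]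
      intro h0
      apply hp
      simp only [Matrix.of_apply, Matrix.cons_val_zero, Matrix.cons_val_one, Matrix.cons_val,
        Pi.sub_apply] at h0
      linear_combination h0
    exact Matrix.linearIndependent_rows_of_det_ne_zero hdet
  · have : gpd4 a b c d = Set.univ := by
      ext p
      simp only [gpd4, Set.mem_ofPred_eq, Set.mem_univ, iff_true]
      intro h1 h2 h3 h4 h5 h6
      exact absurd ⟨h1, h2, h3, h4, h5, h6⟩ h
    rw [this]
    exact dense_univ

theorem gpd_eq {V : Type} : {p : V → Fin 3 → ℝ | GP p} =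
    (⋂ x : V × V, gpd2 x.1 x.2) ∩ ((⋂ x : V × V × V, gpd3 x.1 x.2.1 x.2.2) ∩
      (⋂ x : V × V × V × V, gpd4 x.1 x.2.1 x.2.2.1 x.2.2.2)) := by
  ext p
  simp only [GP, gpd2, gpd3, gpd4, Set.mem_ofPred_eq, Set.mem_inter_iff, Set.mem_iInter, Prod.forall]

theorem GP_open {V : Type} [Fintype V] [DecidableEq V] : IsOpen {p : V → Fin 3 → ℝ | GP p} := by
  rw [gpd_eq]
  exact (isOpen_iInter_of_finite fun x => gpd2_open _ _).inter
    ((isOpen_iInter_of_finite fun x => gpd3_open _ _ _).inter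
      (isOpen_iInter_of_finite fun x => gpd4_open _ _ _ _))

theorem GP_dense {V : Type} [Fintype V] [DecidableEq V] : Dense {p : V → Fin 3 → ℝ | GP p} := by
  rw [gpd_eq]
  have o3 : IsOpen (⋂ x : V × V × V, gpd3 x.1 x.2.1 x.2.2) :=
    isOpen_iInter_of_finite fun x => gpd3_open _ _ _
  have o4 : IsOpen (⋂ x : V × V × V × V, gpd4 x.1 x.2.1 x.2.2.1 x.2.2.2) :=
    isOpen_iInter_of_finite fun x => gpd4_open _ _ _ _
  have d2 : Dense (⋂ x : V × V, gpd2 x.1 x.2) :=
    dense_iInter_of_isOpen (fun x => gpd2_open _ _) (fun x => gpd2_dense _ _)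
  have d3 : Dense (⋂ x : V × V × V, gpd3 x.1 x.2.1 x.2.2) :=
    dense_iInter_of_isOpen (fun x => gpd3_open _ _ _) (fun x => gpd3_dense _ _ _)
  have d4 : Dense (⋂ x : V × V × V × V, gpd4 x.1 x.2.1 x.2.2.1 x.2.2.2) :=
    dense_iInter_of_isOpen (fun x => gpd4_open _ _ _ _) (fun x => gpd4_dense _ _ _ _)
  exact d2.inter_of_isOpen_right (d3.inter_of_isOpen_right d4 o4) (o3.inter o4)

end Pool.Agent.Reg5.J2269
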