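import Pool.Agent.Helper927.R5Defs
import Pool.Agent.Helper927.R5x2268
import Pool.Agent.Helper927.R5x2269
set_option autoImplicit false
set_option maxHeartbeats 4000000

namespace Pool.Agent.Reg5.J2270
open Pool.Agent.Reg5
open Pool.Agent.Reg5.J2269 (GP_dense)
open Pool.Agent.Reg5.J2269 (GP_open)
open Pool.Agent.Reg5.J2268 (SF_dense)
open Pool.Agent.Reg5.J2268 (SF_open)


theorem exists_box {V : Type} [Fintype V] [DecidableEq V] :
    ∃ (p0 : V → Fin 3 → ℝ) (r : ℝ), 0 < r ∧ ∀ p, Bx p0 r p → Good p := by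
  have hfin : Finite (SimpleGraph V) := by
    apply Finite.of_injective (fun G : SimpleGraph V => G.Adj)
    intro G H h
    exact SimpleGraph.ext h
  have key : ∀ s : Set (SimpleGraph V), s.Finite →
      IsOpen (⋂ G ∈ s, {p : V → Fin 3 → ℝ | Ind G → SF G p}) ∧
      Dense (⋂ G ∈ s, {p : V → Fin 3 → ℝ | Ind G → SF G p}) := by
    intro s hs
    have h1 : ∀ G : SimpleGraph V, IsOpen {p : V → Fin 3 → ℝ | Ind G → SF G p} := by
      intro G
      by_cases hG : Ind G
      · simpa [hG] using SF_open G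
      · simp [hG]
    have h2 : ∀ G : SimpleGraph V, Dense {p : V → Fin 3 → ℝ | Ind G → SF G p} := by
      intro G
      by_cases hG : Ind G
      · simpa [hG] using SF_dense G hG
      · simp [hG]
    induction s, hs using Set.Finite.induction_on with
    | empty => simp
    | @insert G s _ _ ih =>
      simp only [Set.biInter_insert]
      exact ⟨(h1 G).inter ih.1, (h2 G).inter_of_isOpen_left ih.2 (h1 G)⟩
  obtain ⟨hop, hde⟩ := key Set.univ Set.finite_univ
  have hU : IsOpen ({p : V → Fin 3 → ℝ | GP p} ∩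
      ⋂ G ∈ (Set.univ : Set (SimpleGraph V)), {p : V → Fin 3 → ℝ | Ind G → SF G p}) :=
    GP_open.inter hop
  have hD : Dense ({p : V → Fin 3 → ℝ | GP p} ∩
      ⋂ G ∈ (Set.univ : Set (SimpleGraph V)), {p : V → Fin 3 → ℝ | Ind G → SF G p}) :=
    GP_dense.inter_of_isOpen_left hde GP_open
  obtain ⟨p0, hp0⟩ := hD.nonempty
  obtain ⟨r, hr, hball⟩ := Metric.isOpen_iff.1 hU p0 hp0
  refine ⟨p0, r, hr, ?_⟩
  intro p hp
  have hmem : p ∈ Metric.ball p0 r := by
    rw [Metric.mem_ball, dist_pi_lt_iff hr]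
    intro a
    rw [dist_pi_lt_iff hr]
    intro i
    rw [Real.dist_eq]
    exact hp a i
  obtain ⟨h1, h2⟩ := hball hmem
  simp only [Set.mem_iInter] at h2
  exact ⟨h1, fun G hG => h2 G (Set.mem_univ _) hG⟩

end Pool.Agent.Reg5.J2270
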