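import Pool.Agent.Helper927.R5Defs
set_option autoImplicit false
set_option maxHeartbeats 4000000

namespace Pool.Agent.Reg5.J2276
open Pool.Agent.Reg5





theorem cx0 (u v : Fin 3 → ℝ) : crossProduct u v 0 = u 1 * v 2 - u 2 * v 1 := by
  rw [cross_apply]; rfl
theorem cx1 (u v : Fin 3 → ℝ) : crossProduct u v 1 = u 2 * v 0 - u 0 * v 2 := by
  rw [cross_apply]; rfl
theorem cx2 (u v : Fin 3 → ℝ) : crossProduct u v 2 = u 0 * v 1 - u 1 * v 0 := by
  rw [cross_apply]; rfl
theorem dt3 (u v : Fin 3 → ℝ) : u ⬝ᵥ v = u 0 * v 0 + u 1 * v 1 + u 2 * v 2 := by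
  rw [dotProduct, Fin.sum_univ_three]
theorem ext3 {u v : Fin 3 → ℝ} (h0 : u 0 = v 0) (h1 : u 1 = v 1) (h2 : u 2 = v 2) : u = v := by
  funext i
  fin_cases i
  · exact h0
  · exact h1
  · exact h2

theorem rf_dot (t : (Fin 3 → ℝ) × (Fin 3 → ℝ)) (x y : Fin 3 → ℝ) : (x - y) ⬝ᵥ (rf t x - rf t y) = 0 := by
  rw [dt3]
  simp only [rf, Pi.sub_apply, Pi.add_apply, cx0, cx1, cx2]
  ring

theorem rf_lin (s s' : ℝ) (t t' : (Fin 3 → ℝ) × (Fin 3 → ℝ)) (x : Fin 3 → ℝ) :
    rf (s • t + s' • t') x = s • rf t x + s' • rf t' x := by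
  apply ext3
  all_goals
    simp only [rf, Prod.fst_add, Prod.snd_add, Prod.smul_fst, Prod.smul_snd, Pi.add_apply,
      Pi.smul_apply, cx0, cx1, cx2, smul_eq_mul]
    ring

theorem rf_mot {V : Type} (G : SimpleGraph V) (p : V → Fin 3 → ℝ) (t : (Fin 3 → ℝ) × (Fin 3 → ℝ)) :
    IsMot G p (fun a => rf t (p a)) := by
  intro a b _
  exact rf_dot t (p a) (p b)

theorem dual_id (u v U : Fin 3 → ℝ) :
    (crossProduct u v ⬝ᵥ crossProduct u v) • U =
      (U ⬝ᵥ u) • crossProduct v (crossProduct u v) + (U ⬝ᵥ v) • crossProduct (crossProduct u v) u +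
        (U ⬝ᵥ crossProduct u v) • crossProduct u v := by
  apply ext3
  all_goals
    simp only [dt3, Pi.add_apply, Pi.smul_apply, cx0, cx1, cx2, smul_eq_mul]
    ring

theorem li_cross {u v : Fin 3 → ℝ} (h : LinearIndependent ℝ ![u, v]) : crossProduct u v ≠ 0 :=
  crossProduct_ne_zero_iff_linearIndependent.2 h

theorem dot_self_pos {n : Fin 3 → ℝ} (h : n ≠ 0) : 0 < n ⬝ᵥ n := by
  rw [dt3]
  by_contra hcon
  apply h
  have h0 : n 0 = 0 := by nlinarith [mul_self_nonneg (n 0), mul_self_nonneg (n 1), mul_self_nonneg (n 2)]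
  have h1 : n 1 = 0 := by nlinarith [mul_self_nonneg (n 0), mul_self_nonneg (n 1), mul_self_nonneg (n 2)]
  have h2 : n 2 = 0 := by nlinarith [mul_self_nonneg (n 0), mul_self_nonneg (n 1), mul_self_nonneg (n 2)]
  exact ext3 h0 h1 h2

theorem omega_exists (u v U W : Fin 3 → ℝ) (hli : LinearIndependent ℝ ![u, v])
    (h1 : U ⬝ᵥ u = 0) (h2 : W ⬝ᵥ v = 0) (h3 : W ⬝ᵥ u = - (U ⬝ᵥ v)) :
    ∃ w : Fin 3 → ℝ, crossProduct w u = U ∧ crossProduct w v = W := by
  set n := crossProduct u v with hn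
  have hN : 0 < n ⬝ᵥ n := dot_self_pos (li_cross hli)
  set N := n ⬝ᵥ n with hNdef
  have dU := dual_id u v U
  have dW := dual_id u v W
  rw [← hn, ← hNdef] at dU dW
  rw [h1, zero_smul, zero_add] at dU
  rw [h2, zero_smul, add_zero, h3] at dW
  have hN' : N ≠ 0 := hN.ne'
  set β := U ⬝ᵥ n with hβ
  set α := W ⬝ᵥ n with hα
  set γ := U ⬝ᵥ v with hγ
  refine ⟨(1 / N) • (α • u - β • v + γ • n), ?_, ?_⟩
  · have e : N • crossProduct ((1 / N) • (α • u - β • v + γ • n)) u = N • U := by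
      rw [dU]
      have e1 : N • crossProduct ((1 / N) • (α • u - β • v + γ • n)) u =
          crossProduct (α • u - β • v + γ • n) u := by
        rw [map_smul, LinearMap.smul_apply, smul_smul, mul_one_div_cancel hN', one_smul]
      rw [e1]
      apply ext3
      all_goals
        simp only [hn, Pi.add_apply, Pi.sub_apply, Pi.smul_apply, cx0, cx1, cx2, smul_eq_mul]
        ring
    exact smul_right_injective _ hN' e
  · have e : N • crossProduct ((1 / N) • (α • u - β • v + γ • n)) v = N • W := by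
      rw [dW]
      have e1 : N • crossProduct ((1 / N) • (α • u - β • v + γ • n)) v =
          crossProduct (α • u - β • v + γ • n) v := by
        rw [map_smul, LinearMap.smul_apply, smul_smul, mul_one_div_cancel hN', one_smul]
      rw [e1]
      apply ext3
      all_goals
        simp only [hn, Pi.add_apply, Pi.sub_apply, Pi.smul_apply, cx0, cx1, cx2, smul_eq_mul]
        ring
    exact smul_right_injective _ hN' e

theorem rf_exists (a b c A B C : Fin 3 → ℝ) (hli : LinearIndependent ℝ ![b - a, c - a])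
    (hab : (a - b) ⬝ᵥ (A - B) = 0) (hac : (a - c) ⬝ᵥ (A - C) = 0) (hbc : (b - c) ⬝ᵥ (B - C) = 0) :
    ∃ t, rf t a = A ∧ rf t b = B ∧ rf t c = C := by
  obtain ⟨w, h1, h2⟩ := omega_exists (b - a) (c - a) (B - A) (C - A) hli
    (by
      rw [dt3] at hab ⊢
      simp only [Pi.sub_apply] at hab ⊢
      linarith)
    (by
      rw [dt3] at hac ⊢
      simp only [Pi.sub_apply] at hac ⊢
      linarith)
    (by
      rw [dt3] at hab hac hbc
      rw [dt3, dt3]
      simp only [Pi.sub_apply] at hab hac hbc ⊢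
      linarith)
  refine ⟨(A - crossProduct w a, w), ?_, ?_, ?_⟩
  · simp only [rf, sub_add_cancel]
  · simp only [rf]
    rw [map_sub] at h1
    have : crossProduct w b = B - A + crossProduct w a := by rw [← h1]; abel
    rw [this]
    abel
  · simp only [rf]
    rw [map_sub] at h2
    have : crossProduct w c = C - A + crossProduct w a := by rw [← h2]; abel
    rw [this]
    abel

theorem cross_zero {w u : Fin 3 → ℝ} (hu : u ≠ 0) (h : crossProduct w u = 0) :
    ∃ s : ℝ, w = s • u := by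
  have hN := dot_self_pos hu
  refine ⟨(w ⬝ᵥ u) / (u ⬝ᵥ u), ?_⟩
  have h0 : crossProduct w u 0 = 0 := by rw [h]; rfl
  have h1 : crossProduct w u 1 = 0 := by rw [h]; rfl
  have h2 : crossProduct w u 2 = 0 := by rw [h]; rfl
  rw [cx0] at h0
  rw [cx1] at h1
  rw [cx2] at h2
  rw [dt3] at hN
  apply ext3
  · rw [Pi.smul_apply, smul_eq_mul, dt3, dt3, div_mul_eq_mul_div, eq_div_iff hN.ne']
    linear_combination (-u 1) * (-h2) + u 2 * (-h1) 
  · rw [Pi.smul_apply, smul_eq_mul, dt3, dt3, div_mul_eq_mul_div, eq_div_iff hN.ne']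
    linear_combination (-u 2) * (-h0) + u 0 * (-h2)
  · rw [Pi.smul_apply, smul_eq_mul, dt3, dt3, div_mul_eq_mul_div, eq_div_iff hN.ne']
    linear_combination (-u 0) * (-h1) + u 1 * (-h0)

theorem rf_zero (a b c : Fin 3 → ℝ) (hli : LinearIndependent ℝ ![b - a, c - a]) (t : (Fin 3 → ℝ) × (Fin 3 → ℝ))
    (ha : rf t a = 0) (hb : rf t b = 0) (hc : rf t c = 0) : t = 0 := by
  have hn := li_cross hli
  have hu : b - a ≠ 0 := by
    intro h
    apply hn
    rw [h, map_zero, LinearMap.zero_apply]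
  have e1 : crossProduct t.2 (b - a) = 0 := by
    have : crossProduct t.2 (b - a) = rf t b - rf t a := by
      rw [map_sub]; simp only [rf]; abel
    rw [this, ha, hb, sub_zero]
  have e2 : crossProduct t.2 (c - a) = 0 := by
    have : crossProduct t.2 (c - a) = rf t c - rf t a := by
      rw [map_sub]; simp only [rf]; abel
    rw [this, ha, hc, sub_zero]
  obtain ⟨s, hs⟩ := cross_zero hu e1
  rw [hs, map_smul, LinearMap.smul_apply] at e2
  have hs0 : s = 0 := by
    rcases smul_eq_zero.1 e2 with h | h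
    · exact h
    · exact absurd h hn
  have ht2 : t.2 = 0 := by rw [hs, hs0, zero_smul]
  have ht1 : t.1 = 0 := by
    simp only [rf, ht2, map_zero, LinearMap.zero_apply, add_zero] at ha
    exact ha
  exact Prod.ext ht1 ht2

theorem rf_line (a b : Fin 3 → ℝ) (hab : a ≠ b) (t : (Fin 3 → ℝ) × (Fin 3 → ℝ))
    (ha : rf t a = 0) (hb : rf t b = 0) : ∃ s : ℝ, t = s • (-(crossProduct (b - a) a), b - a) := by
  have hu : b - a ≠ 0 := sub_ne_zero.2 hab.symm
  have e1 : crossProduct t.2 (b - a) = 0 := by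
    have : crossProduct t.2 (b - a) = rf t b - rf t a := by
      rw [map_sub]; simp only [rf]; abel
    rw [this, ha, hb, sub_zero]
  obtain ⟨s, hs⟩ := cross_zero hu e1
  refine ⟨s, Prod.ext ?_ ?_⟩
  · simp only [Prod.smul_fst]
    have h1 : t.1 = - crossProduct t.2 a := by
      simp only [rf] at ha
      exact eq_neg_of_add_eq_zero_left ha
    rw [h1, hs, map_smul, LinearMap.smul_apply, smul_neg]
  · simp only [Prod.smul_snd]
    exact hs

theorem rf_point (a b c d D : Fin 3 → ℝ) (hli : LinearIndependent ℝ ![b - a, c - a, d - a])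
    (t : (Fin 3 → ℝ) × (Fin 3 → ℝ)) (ha : (d - a) ⬝ᵥ (D - rf t a) = 0) (hb : (d - b) ⬝ᵥ (D - rf t b) = 0)
    (hc : (d - c) ⬝ᵥ (D - rf t c) = 0) : D = rf t d := by
  have key : ∀ x : Fin 3 → ℝ, (d - x) ⬝ᵥ (D - rf t x) = 0 → (d - x) ⬝ᵥ (D - rf t d) = 0 := by
    intro x hx
    have h1 := rf_dot t d x
    have h2 : D - rf t d = (D - rf t x) - (rf t d - rf t x) := by abel
    rw [h2, dotProduct_sub, hx, h1, sub_zero]
  have ka := key a ha
  have kb := key b hb
  have kc := key c hc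
  set x := D - rf t d with hx
  have k1 : (b - a) ⬝ᵥ x = 0 := by
    have : b - a = (d - a) - (d - b) := by abel
    rw [this, sub_dotProduct, ka, kb, sub_zero]
  have k2 : (c - a) ⬝ᵥ x = 0 := by
    have : c - a = (d - a) - (d - c) := by abel
    rw [this, sub_dotProduct, ka, kc, sub_zero]
  have hM : IsUnit (Matrix.of ![b - a, c - a, d - a]) := by
    rw [← Matrix.linearIndependent_rows_iff_isUnit]
    exact hli
  have hdet : (Matrix.of ![b - a, c - a, d - a]).det ≠ 0 := by
    rw [Matrix.isUnit_iff_isUnit_det] at hM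
    exact hM.ne_zero
  have hmv : (Matrix.of ![b - a, c - a, d - a]).mulVec x = 0 := by
    funext i
    fin_cases i
    · exact k1
    · exact k2
    · exact ka
  have hx0 := Matrix.eq_zero_of_mulVec_eq_zero hdet hmv
  rw [hx] at hx0
  exact sub_eq_zero.1 hx0

end Pool.Agent.Reg5.J2276
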