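import Pool.Agent.Helper927.R5Defs
import Pool.Agent.Helper927.R5x2263
import Pool.Agent.Helper927.R5x2270
import Pool.Agent.Helper927.R5x2276
set_option autoImplicit false
set_option maxHeartbeats 4000000

namespace Pool.Agent.Reg5.J2272
open Pool.Agent.Reg5
open Pool.Agent.Reg5.J2270 (exists_box)
open Pool.Agent.Reg5.J2276 (rf_dot)
open Pool.Agent.Reg5.J2276 (rf_lin)
open Pool.Agent.Reg5.J2276 (rf_zero)
open Pool.Agent.Reg5.J2263 (work)


/-- the symmetric weight function with values `f` on the edges inside `X` -/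
noncomputable def wOf {V : Type} (G : SimpleGraph V) (X : Finset V)
    (f : {e : Sym2 V // e ∈ G.edgeSet ∧ ∀ a ∈ e, a ∈ X} → ℝ) (a b : V) : ℝ :=
  open Classical in if h : s(a, b) ∈ G.edgeSet ∧ ∀ c ∈ s(a, b), c ∈ X then f ⟨s(a, b), h⟩ else 0

theorem wOf_symm {V : Type} (G : SimpleGraph V) (X : Finset V)
    (f : {e : Sym2 V // e ∈ G.edgeSet ∧ ∀ a ∈ e, a ∈ X} → ℝ) (a b : V) :
    wOf G X f a b = wOf G X f b a := by
  unfold wOf
  by_cases h : s(a, b) ∈ G.edgeSet ∧ ∀ c ∈ s(a, b), c ∈ X
  · have h' : s(b, a) ∈ G.edgeSet ∧ ∀ c ∈ s(b, a), c ∈ X := by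
      rw [Sym2.eq_swap]; exact h
    rw [dif_pos h, dif_pos h']
    congr 1
    exact Subtype.ext Sym2.eq_swap
  · have h' : ¬ (s(b, a) ∈ G.edgeSet ∧ ∀ c ∈ s(b, a), c ∈ X) := by
      rw [Sym2.eq_swap]; exact h
    rw [dif_neg h, dif_neg h']

theorem wOf_add {V : Type} (G : SimpleGraph V) (X : Finset V)
    (f g : {e : Sym2 V // e ∈ G.edgeSet ∧ ∀ a ∈ e, a ∈ X} → ℝ) (a b : V) :
    wOf G X (f + g) a b = wOf G X f a b + wOf G X g a b := by
  unfold wOf
  split_ifs <;> simp

theorem wOf_smul {V : Type} (G : SimpleGraph V) (X : Finset V) (r : ℝ)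
    (f : {e : Sym2 V // e ∈ G.edgeSet ∧ ∀ a ∈ e, a ∈ X} → ℝ) (a b : V) :
    wOf G X (r • f) a b = r * wOf G X f a b := by
  unfold wOf
  split_ifs <;> simp

theorem wOf_adj {V : Type} (G : SimpleGraph V) (X : Finset V)
    (f : {e : Sym2 V // e ∈ G.edgeSet ∧ ∀ a ∈ e, a ∈ X} → ℝ) (a b : V) (h : ¬ G.Adj a b) :
    wOf G X f a b = 0 := by
  unfold wOf
  rw [dif_neg]
  rintro ⟨h1, -⟩
  exact h (by simpa using h1)

theorem wOf_out {V : Type} (G : SimpleGraph V) (X : Finset V)
    (f : {e : Sym2 V // e ∈ G.edgeSet ∧ ∀ a ∈ e, a ∈ X} → ℝ) (a b : V) (h : a ∉ X) :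
    wOf G X f a b = 0 := by
  unfold wOf
  rw [dif_neg]
  rintro ⟨-, h1⟩
  exact h (h1 a (by simp))

theorem ind_sparse {V : Type} [Fintype V] [DecidableEq V] (G : SimpleGraph V) (h : Ind G) : Sparse G := by
  classical
  obtain ⟨p0, r, hr, hbox⟩ := exists_box (V := V)
  have hgood : Good p0 := hbox p0 (fun a i => by simpa using hr)
  obtain ⟨hGP, hall⟩ := hgood
  have hSF : SF G p0 := hall G h
  set p := p0
  intro X hX
  let E := {e : Sym2 V // e ∈ G.edgeSet ∧ ∀ a ∈ e, a ∈ X}
  have hE : Fintype.card E = ie G X := by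
    unfold ie
    rw [Fintype.card_subtype]
  -- the map
  let S : (E → ℝ) →ₗ[ℝ] (X → Fin 3 → ℝ) :=
    { toFun := fun f a => ∑ b, wOf G X f a b • (p a - p b)
      map_add' := by
        intro f g
        funext a
        show ∑ b, wOf G X (f + g) a b • (p a - p b) =
          ∑ b, wOf G X f a b • (p a - p b) + ∑ b, wOf G X g a b • (p a - p b)
        rw [← Finset.sum_add_distrib]
        apply Finset.sum_congr rfl
        intro b _
        rw [← add_smul]
        congr 1
        exact wOf_add G X f g a b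
      map_smul' := by
        intro c f
        funext a
        show ∑ b, wOf G X (c • f) a b • (p a - p b) = c • ∑ b, wOf G X f a b • (p a - p b)
        rw [Finset.smul_sum]
        apply Finset.sum_congr rfl
        intro b _
        rw [smul_smul]
        congr 1
        exact wOf_smul G X c f a b }
  let T : ((Fin 3 → ℝ) × (Fin 3 → ℝ)) →ₗ[ℝ] (X → Fin 3 → ℝ) :=
    { toFun := fun t a => rf t (p a)
      map_add' := by
        intro s t
        funext a
        have := rf_lin 1 1 s t (p a)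
        simpa using this
      map_smul' := by
        intro c t
        funext a
        have := rf_lin c 0 t t (p a)
        simpa using this }
  have horth : ∀ (f : E → ℝ) (t : (Fin 3 → ℝ) × (Fin 3 → ℝ)),
      ∑ a : X, S f a ⬝ᵥ T t a = 0 := by
    intro f t
    have hw := work p (fun a => rf t (p a)) (wOf G X f) (wOf_symm G X f)
    have h0 : ∑ a, ∑ b, wOf G X f a b * dd p (fun a => rf t (p a)) a b = 0 := by
      apply Finset.sum_eq_zero
      intro a _
      apply Finset.sum_eq_zero
      intro b _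
      have : dd p (fun a => rf t (p a)) a b = 0 := rf_dot t (p a) (p b)
      rw [this, mul_zero]
    rw [h0] at hw
    have h1 : ∑ a, (∑ b, wOf G X f a b • (p a - p b)) ⬝ᵥ rf t (p a) = 0 := by
      linarith
    have h2 : ∑ a ∈ X, (∑ b, wOf G X f a b • (p a - p b)) ⬝ᵥ rf t (p a) = 0 := by
      rw [← h1]
      apply Finset.sum_subset (Finset.subset_univ X)
      intro a _ ha
      have : ∑ b, wOf G X f a b • (p a - p b) = 0 := by
        apply Finset.sum_eq_zero
        intro b _
        rw [wOf_out G X f a b ha, zero_smul]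
      rw [this, zero_dotProduct]
    rw [← Finset.sum_coe_sort] at h2
    exact h2
  have hSinj : ∀ f : E → ℝ, S f = 0 → f = 0 := by
    intro f hf
    have h1 := hSF (wOf G X f) (wOf_symm G X f) (wOf_adj G X f) (by
      intro a
      by_cases ha : a ∈ X
      · exact congrFun hf ⟨a, ha⟩
      · apply Finset.sum_eq_zero
        intro b _
        rw [wOf_out G X f a b ha, zero_smul])
    funext e
    obtain ⟨e, he⟩ := e
    induction e using Sym2.ind with
    | _ a b =>
      have h2 := h1 a b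
      unfold wOf at h2
      rw [dif_pos he] at h2
      exact h2
  have hTinj : ∀ t, T t = 0 → t = 0 := by
    intro t ht
    obtain ⟨a, b, c, ha, hb, hc, hab, hac, hbc⟩ : ∃ a b c, a ∈ X ∧ b ∈ X ∧ c ∈ X ∧ a ≠ b ∧ a ≠ c ∧ b ≠ c := by
      obtain ⟨a, ha, b, hb, c, hc, h1, h2, h3⟩ := Finset.two_lt_card.1 (by omega : 2 < X.card)
      exact ⟨a, b, c, ha, hb, hc, h1, h2, h3⟩
    exact rf_zero (p a) (p b) (p c) (hGP.2.1 a b c hab hac hbc) t (congrFun ht ⟨a, ha⟩)
      (congrFun ht ⟨b, hb⟩) (congrFun ht ⟨c, hc⟩)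
  let U : ((E → ℝ) × ((Fin 3 → ℝ) × (Fin 3 → ℝ))) →ₗ[ℝ] (X → Fin 3 → ℝ) := S.coprod T
  have hU : Function.Injective U := by
    rw [injective_iff_map_eq_zero]
    rintro ⟨f, t⟩ hft
    have h1 : S f + T t = 0 := hft
    have h2 : ∑ a : X, S f a ⬝ᵥ S f a = 0 := by
      have h3 : ∀ a : X, S f a = - T t a := by
        intro a
        have := congrFun h1 a
        rw [Pi.add_apply] at this
        exact eq_neg_of_add_eq_zero_left this
      have h4 : ∀ a : X, S f a ⬝ᵥ S f a = - (S f a ⬝ᵥ T t a) := by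
        intro a
        conv_lhs => rw [h3 a]
        rw [h3 a]
        simp
      rw [Finset.sum_congr rfl (fun a _ => h4 a), Finset.sum_neg_distrib, horth f t, neg_zero]
    have h5 : S f = 0 := by
      funext a
      have h6 := (Finset.sum_eq_zero_iff_of_nonneg (fun a _ => (by simpa [dotProduct] using Finset.sum_nonneg (fun i _ => mul_self_nonneg (S f a i)) : 0 ≤ S f a ⬝ᵥ S f a))).1 h2 a
        (Finset.mem_univ a)
      exact dotProduct_self_eq_zero.1 h6
    have h7 : T t = 0 := by
      rw [h5, zero_add] at h1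
      exact h1
    rw [hSinj f h5, hTinj t h7]
    rfl
  have hfin := LinearMap.finrank_le_finrank_of_injective hU
  simp only [Module.finrank_prod, Module.finrank_pi, Fintype.card_fin, Module.finrank_pi_fintype,
    Finset.sum_const, Finset.card_univ, Fintype.card_coe, smul_eq_mul] at hfin
  have : Fintype.card E + 6 ≤ X.card * 3 := by
    simpa using hfin
  omega

end Pool.Agent.Reg5.J2272
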