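import Pool.Agent.Helper927.R5Defs
set_option autoImplicit false
set_option maxHeartbeats 4000000

namespace Pool.Agent.Reg5.J2257
open Pool.Agent.Reg5






theorem ie_empty {V : Type} [Fintype V] [DecidableEq V] (G : SimpleGraph V) : ie G ∅ = 0 := by
  classical
  unfold ie
  rw [Finset.card_eq_zero, Finset.filter_eq_empty_iff]
  intro e _ h
  induction e using Sym2.ind with
  | _ x y => exact absurd (h.2 x (Sym2.mem_mk_left x y)) (Finset.notMem_empty x)

theorem j2257_mem {V : Type} [Fintype V] [DecidableEq V] (G : SimpleGraph V) (X : Finset V) (x y : V) :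
    (s(x, y) ∈ G.edgeSet ∧ ∀ a ∈ s(x, y), a ∈ X) ↔ G.Adj x y ∧ x ∈ X ∧ y ∈ X := by
  rw [SimpleGraph.mem_edgeSet]
  constructor
  · rintro ⟨h1, h2⟩
    exact ⟨h1, h2 x (Sym2.mem_mk_left x y), h2 y (Sym2.mem_mk_right x y)⟩
  · rintro ⟨h1, h2, h3⟩
    refine ⟨h1, ?_⟩
    intro a ha
    rw [Sym2.mem_iff] at ha
    rcases ha with rfl | rfl
    · exact h2
    · exact h3

theorem ie_insert {V : Type} [Fintype V] [DecidableEq V] (G : SimpleGraph V) (X : Finset V) (c : V) (hc : c ∉ X) :
    ie G (insert c X) = ie G X + dg G X c := by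
  classical
  have h1 : (Finset.univ.filter (fun e : Sym2 V => e ∈ G.edgeSet ∧ ∀ a ∈ e, a ∈ insert c X)) =
      (Finset.univ.filter (fun e : Sym2 V => e ∈ G.edgeSet ∧ ∀ a ∈ e, a ∈ X)) ∪
      (X.filter (fun x => G.Adj c x)).image (fun x => s(c, x)) := by
    ext e
    induction e using Sym2.ind with
    | _ x y =>
      rw [Finset.mem_union, Finset.mem_filter, Finset.mem_filter, Finset.mem_image, j2257_mem,
        j2257_mem]
      simp only [Finset.mem_univ, true_and, Finset.mem_filter, Finset.mem_insert]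
      constructor
      · rintro ⟨hadj, rfl | hx, rfl | hy⟩
        · exact absurd hadj (G.loopless.irrefl _)
        · right
          exact ⟨y, ⟨hy, hadj⟩, rfl⟩
        · right
          exact ⟨x, ⟨hx, hadj.symm⟩, Sym2.eq_swap⟩
        · left
          exact ⟨hadj, hx, hy⟩
      · rintro (⟨hadj, hx, hy⟩ | ⟨z, ⟨hz, hadj⟩, he⟩)
        · exact ⟨hadj, Or.inr hx, Or.inr hy⟩
        · rw [Sym2.eq_iff] at he
          rcases he with ⟨rfl, rfl⟩ | ⟨rfl, rfl⟩
          · exact ⟨hadj, Or.inl rfl, Or.inr hz⟩
          · exact ⟨hadj.symm, Or.inr hz, Or.inl rfl⟩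
  have h2 : Disjoint (Finset.univ.filter (fun e : Sym2 V => e ∈ G.edgeSet ∧ ∀ a ∈ e, a ∈ X))
      ((X.filter (fun x => G.Adj c x)).image (fun x => s(c, x))) := by
    rw [Finset.disjoint_left]
    intro e he he'
    rw [Finset.mem_filter] at he
    rw [Finset.mem_image] at he'
    obtain ⟨z, _, rfl⟩ := he'
    exact hc (he.2.2 c (Sym2.mem_mk_left c z))
  unfold ie dg
  rw [h1, Finset.card_union_of_disjoint h2, Finset.card_image_of_injective]
  intro x y hxy
  exact Sym2.congr_right.1 hxy

theorem ie_mono {V : Type} [Fintype V] [DecidableEq V] (G : SimpleGraph V) {X Y : Finset V} (h : X ⊆ Y) :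
    ie G X ≤ ie G Y := by
  classical
  unfold ie
  apply Finset.card_le_card
  intro e he
  rw [Finset.mem_filter] at he ⊢
  exact ⟨he.1, he.2.1, fun a ha => h (he.2.2 a ha)⟩

theorem ie_super {V : Type} [Fintype V] [DecidableEq V] (G : SimpleGraph V) (X Y : Finset V) :
    ie G X + ie G Y ≤ ie G (X ∪ Y) + ie G (X ∩ Y) := by
  classical
  unfold ie
  rw [← Finset.card_union_add_card_inter]
  apply add_le_add
  · apply Finset.card_le_card
    intro e he
    rw [Finset.mem_union, Finset.mem_filter, Finset.mem_filter] at he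
    rw [Finset.mem_filter]
    rcases he with he | he
    · exact ⟨he.1, he.2.1, fun a ha => Finset.mem_union_left _ (he.2.2 a ha)⟩
    · exact ⟨he.1, he.2.1, fun a ha => Finset.mem_union_right _ (he.2.2 a ha)⟩
  · apply Finset.card_le_card
    intro e he
    rw [Finset.mem_inter, Finset.mem_filter, Finset.mem_filter] at he
    rw [Finset.mem_filter]
    exact ⟨he.1.1, he.1.2.1, fun a ha => Finset.mem_inter.2 ⟨he.1.2.2 a ha, he.2.2.2 a ha⟩⟩

open Classical in
theorem j2257_dg_insert {V : Type} [Fintype V] [DecidableEq V] (G : SimpleGraph V) (X : Finset V)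
    (c a : V) (hc : c ∉ X) : dg G (insert c X) a = dg G X a + if G.Adj a c then 1 else 0 := by
  unfold dg
  rw [Finset.filter_insert]
  split_ifs with h
  · rw [Finset.card_insert_of_notMem]
    intro hm
    exact hc (Finset.mem_filter.1 hm).1
  · rfl

theorem j2257_dg_empty {V : Type} [Fintype V] [DecidableEq V] (G : SimpleGraph V) (a : V) :
    dg G ∅ a = 0 := by
  classical
  unfold dg
  simp

theorem ie_handshake {V : Type} [Fintype V] [DecidableEq V] (G : SimpleGraph V) (X : Finset V) :
    ∑ a ∈ X, dg G X a = 2 * ie G X := by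
  classical
  induction X using Finset.induction_on with
  | empty => rw [ie_empty]; simp
  | insert c X hc ih =>
    rw [Finset.sum_insert hc, ie_insert G X c hc]
    have h1 : ∀ a ∈ X, dg G (insert c X) a = dg G X a + if G.Adj a c then 1 else 0 :=
      fun a _ => j2257_dg_insert G X c a hc
    rw [Finset.sum_congr rfl h1, Finset.sum_add_distrib, ih, j2257_dg_insert G X c c hc,
      if_neg (G.loopless.irrefl c)]
    have h2 : ∑ a ∈ X, (if G.Adj a c then 1 else 0) = dg G X c := by
      unfold dg
      rw [Finset.card_filter]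
      apply Finset.sum_congr rfl
      intro a _
      by_cases h : G.Adj a c
      · rw [if_pos h, if_pos h.symm]
      · rw [if_neg h, if_neg (fun h' => h h'.symm)]
    rw [h2]
    ring

open Classical in
theorem j2257_three {V : Type} [Fintype V] [DecidableEq V] (G : SimpleGraph V) (x y z : V)
    (hxy : x ≠ y) (hxz : x ≠ z) (hyz : y ≠ z) :
    ie G {x, y, z} = (if G.Adj x y then 1 else 0) + (if G.Adj x z then 1 else 0) +
      (if G.Adj y z then 1 else 0) := by
  have e1 : ({x, y, z} : Finset V) = insert x (insert y (insert z ∅)) := rfl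
  rw [e1, ie_insert _ _ _ (by simp [hxy, hxz]), ie_insert _ _ _ (by simp [hyz]),
    ie_insert _ _ _ (by simp), ie_empty, j2257_dg_empty, j2257_dg_insert _ _ _ _ (by simp),
    j2257_dg_empty, j2257_dg_insert _ _ _ _ (by simp [hyz]), j2257_dg_insert _ _ _ _ (by simp),
    j2257_dg_empty]
  ring

theorem ie_three {V : Type} [Fintype V] [DecidableEq V] (G : SimpleGraph V) (X : Finset V) (hX : X.card = 3) (h : 3 ≤ ie G X)
    (a b : V) (ha : a ∈ X) (hb : b ∈ X) (hab : a ≠ b) : G.Adj a b := by
  classical
  obtain ⟨x, y, z, hxy, hxz, hyz, rfl⟩ := Finset.card_eq_three.1 hX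
  rw [j2257_three G x y z hxy hxz hyz] at h
  have h1 : G.Adj x y := by
    by_contra hc
    rw [if_neg hc] at h
    split_ifs at h <;> omega
  have h2 : G.Adj x z := by
    by_contra hc
    rw [if_neg hc] at h
    split_ifs at h <;> omega
  have h3 : G.Adj y z := by
    by_contra hc
    rw [if_neg hc] at h
    split_ifs at h <;> omega
  simp only [Finset.mem_insert, Finset.mem_singleton] at ha hb
  rcases ha with rfl | rfl | rfl <;> rcases hb with rfl | rfl | rfl
  · exact absurd rfl hab
  · exact h1
  · exact h2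
  · exact h1.symm
  · exact absurd rfl hab
  · exact h3
  · exact h2.symm
  · exact h3.symm
  · exact absurd rfl hab

theorem ie_le_three {V : Type} [Fintype V] [DecidableEq V] (G : SimpleGraph V) (X : Finset V) (hX : X.card = 3) :
    ie G X ≤ 3 := by
  classical
  obtain ⟨x, y, z, hxy, hxz, hyz, rfl⟩ := Finset.card_eq_three.1 hX
  rw [j2257_three G x y z hxy hxz hyz]
  split_ifs <;> omega

end Pool.Agent.Reg5.J2257
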