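import Pool.Agent.Helper927.R5Defs
import Pool.Agent.Helper927.R5x2257
set_option autoImplicit false
set_option maxHeartbeats 4000000

namespace Pool.Agent.Reg5.J2258
open Pool.Agent.Reg5
open Pool.Agent.Reg5.J2257 (ie_insert)


theorem del_adj {V : Type} [Fintype V] [DecidableEq V] (G : SimpleGraph V) (S : Finset V) (a b : V) :
    (del G S).Adj a b ↔ G.Adj a b ∧ a ∉ S ∧ b ∉ S := Iff.rfl

theorem add_adj {V : Type} [Fintype V] [DecidableEq V] (G : SimpleGraph V) (a b x y : V) :
    (add G a b).Adj x y ↔ G.Adj x y ∨ (a ≠ b ∧ ((x = a ∧ y = b) ∨ (x = b ∧ y = a))) := Iff.rfl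

open Classical in
theorem ie_eq {V : Type} [Fintype V] [DecidableEq V] (G : SimpleGraph V) (X : Finset V) :
    ie G X = (Finset.univ.filter (fun e : Sym2 V => e ∈ G.edgeSet ∧ ∀ a ∈ e, a ∈ X)).card := rfl

open Classical in
theorem dg_eq {V : Type} [Fintype V] [DecidableEq V] (G : SimpleGraph V) (X : Finset V) (a : V) :
    dg G X a = (X.filter (fun x => G.Adj a x)).card := by
  unfold dg
  congr!

theorem ie_del {V : Type} [Fintype V] [DecidableEq V] (G : SimpleGraph V) (S X : Finset V) :
    ie (del G S) X = ie G (X \ S) := by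
  classical
  rw [ie_eq, ie_eq]
  congr 1
  ext e
  induction e using Sym2.ind with
  | _ x y =>
    simp only [Finset.mem_filter, Finset.mem_univ, true_and, SimpleGraph.mem_edgeSet,
      Sym2.mem_iff, forall_eq_or_imp, forall_eq, Finset.mem_sdiff, del_adj]
    tauto

theorem ie_add {V : Type} [Fintype V] [DecidableEq V] (G : SimpleGraph V) (a b : V) (hab : a ≠ b) (hn : ¬ G.Adj a b)
    (X : Finset V) : ie (add G a b) X = ie G X + (if a ∈ X ∧ b ∈ X then 1 else 0) := by
  classical
  rw [ie_eq, ie_eq]
  split_ifs with h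
  · rw [← Finset.card_insert_of_notMem (a := s(a, b))]
    · congr 1
      ext e
      induction e using Sym2.ind with
      | _ x y =>
        simp only [Finset.mem_filter, Finset.mem_univ, true_and, SimpleGraph.mem_edgeSet,
          Sym2.mem_iff, forall_eq_or_imp, forall_eq, Finset.mem_insert, add_adj, Sym2.eq_iff]
        constructor
        · rintro ⟨h1 | ⟨_, h1⟩, h2⟩
          · exact Or.inr ⟨h1, h2⟩
          · exact Or.inl h1
        · rintro ((⟨rfl, rfl⟩ | ⟨rfl, rfl⟩) | ⟨h1, h2⟩)
          · exact ⟨Or.inr ⟨hab, Or.inl ⟨rfl, rfl⟩⟩, h⟩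
          · exact ⟨Or.inr ⟨hab, Or.inr ⟨rfl, rfl⟩⟩, h.2, h.1⟩
          · exact ⟨Or.inl h1, h2⟩
    · simp only [Finset.mem_filter, Finset.mem_univ, true_and, SimpleGraph.mem_edgeSet]
      exact fun hc => hn hc.1
  · rw [add_zero]
    congr 1
    ext e
    induction e using Sym2.ind with
    | _ x y =>
      simp only [Finset.mem_filter, Finset.mem_univ, true_and, SimpleGraph.mem_edgeSet,
        Sym2.mem_iff, forall_eq_or_imp, forall_eq, add_adj]
      constructor
      · rintro ⟨h1 | ⟨_, h1⟩, h2⟩
        · exact ⟨h1, h2⟩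
        · exfalso
          apply h
          rcases h1 with ⟨rfl, rfl⟩ | ⟨rfl, rfl⟩
          · exact h2
          · exact ⟨h2.2, h2.1⟩
      · rintro ⟨h1, h2⟩
        exact ⟨Or.inl h1, h2⟩

theorem dg_del {V : Type} [Fintype V] [DecidableEq V] (G : SimpleGraph V) (S X : Finset V) (a : V) (ha : a ∉ S) :
    dg (del G S) X a = dg G (X \ S) a := by
  classical
  rw [dg_eq, dg_eq]
  congr 1
  ext x
  simp only [Finset.mem_filter, Finset.mem_sdiff, del_adj]
  tauto

theorem dg_del_mem {V : Type} [Fintype V] [DecidableEq V] (G : SimpleGraph V) (S X : Finset V) (a : V) (ha : a ∈ S) :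
    dg (del G S) X a = 0 := by
  classical
  rw [dg_eq, Finset.card_eq_zero, Finset.filter_eq_empty_iff]
  intro x _ h
  exact h.2.1 ha

theorem dg_insert {V : Type} [Fintype V] [DecidableEq V] (G : SimpleGraph V) (X : Finset V) (a c : V) (hc : c ∉ X) :
    (G.Adj a c → dg G (insert c X) a = dg G X a + 1) ∧ (¬ G.Adj a c → dg G (insert c X) a = dg G X a) := by
  classical
  constructor
  · intro h
    rw [dg_eq, dg_eq, Finset.filter_insert, if_pos h, Finset.card_insert_of_notMem]
    simp [hc]
  · intro h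
    rw [dg_eq, dg_eq, Finset.filter_insert, if_neg h]

theorem dg_mono {V : Type} [Fintype V] [DecidableEq V] (G : SimpleGraph V) {X Y : Finset V} (h : X ⊆ Y) (a : V) :
    dg G X a ≤ dg G Y a := by
  classical
  rw [dg_eq, dg_eq]
  exact Finset.card_le_card (Finset.filter_subset_filter _ h)

theorem dg_ge {V : Type} [Fintype V] [DecidableEq V] (G : SimpleGraph V) (X T : Finset V) (a : V) (hT : T ⊆ X)
    (h : ∀ x ∈ T, G.Adj a x) : T.card ≤ dg G X a := by
  classical
  rw [dg_eq]
  apply Finset.card_le_card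
  intro x hx
  exact Finset.mem_filter.2 ⟨hT hx, h x hx⟩

theorem dg_disj {V : Type} [Fintype V] [DecidableEq V] (G : SimpleGraph V) (X Y : Finset V) (a : V) (hXY : Disjoint X Y) :
    dg G (X ∪ Y) a = dg G X a + dg G Y a := by
  classical
  rw [dg_eq, dg_eq, dg_eq, Finset.filter_union, Finset.card_union_of_disjoint]
  exact Finset.disjoint_filter_filter hXY

theorem dg_add_left {V : Type} [Fintype V] [DecidableEq V] (G : SimpleGraph V) (a b : V) (hab : a ≠ b) (hn : ¬ G.Adj a b) :
    dg (add G a b) Finset.univ a = dg G Finset.univ a + 1 ∧ dg (add G a b) Finset.univ b = dg G Finset.univ b + 1 := by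
  classical
  constructor
  · rw [dg_eq, dg_eq, ← Finset.card_insert_of_notMem (a := b)]
    · congr 1
      ext x
      simp only [Finset.mem_filter, Finset.mem_univ, true_and, Finset.mem_insert, add_adj]
      constructor
      · rintro (h | ⟨_, h | h⟩)
        · exact Or.inr h
        · exact Or.inl h
        · exact absurd h.1 hab
      · rintro (h | h)
        · exact Or.inr ⟨hab, Or.inl h⟩
        · exact Or.inl h
    · simp [hn]
  · rw [dg_eq, dg_eq, ← Finset.card_insert_of_notMem (a := a)]
    · congr 1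
      ext x
      simp only [Finset.mem_filter, Finset.mem_univ, true_and, Finset.mem_insert, add_adj]
      constructor
      · rintro (h | ⟨_, h | h⟩)
        · exact Or.inr h
        · exact absurd h.1.symm hab
        · exact Or.inl h
      · rintro (h | h)
        · exact Or.inr ⟨hab, Or.inr h⟩
        · exact Or.inl h
    · simp only [Finset.mem_filter, Finset.mem_univ, true_and]
      exact fun h => hn h.symm

theorem dg_add_other {V : Type} [Fintype V] [DecidableEq V] (G : SimpleGraph V) (a b x : V) (hxa : x ≠ a) (hxb : x ≠ b)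
    (X : Finset V) : dg (add G a b) X x = dg G X x := by
  classical
  rw [dg_eq, dg_eq]
  congr 1
  ext y
  simp only [Finset.mem_filter, add_adj]
  constructor
  · rintro ⟨h0, h | ⟨_, h | h⟩⟩
    · exact ⟨h0, h⟩
    · exact absurd h.1 hxa
    · exact absurd h.1 hxb
  · rintro ⟨h0, h⟩
    exact ⟨h0, Or.inl h⟩

theorem ie_univ_del {V : Type} [Fintype V] [DecidableEq V] (G : SimpleGraph V) (v : V) :
    ie G Finset.univ = ie (del G {v}) Finset.univ + dg G Finset.univ v := by
  have h1 : insert v (Finset.univ \ {v}) = (Finset.univ : Finset V) := by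
    ext x; simp
  have h2 := ie_insert G (Finset.univ \ {v}) v (by simp)
  have h3 := (dg_insert G (Finset.univ \ {v}) v v (by simp)).2 (G.loopless.irrefl v)
  rw [h1] at h2 h3
  rw [ie_del, h2, h3]

theorem ie_mono_graph {V : Type} [Fintype V] [DecidableEq V] {G G' : SimpleGraph V} (h : G ≤ G') (X : Finset V) :
    ie G X ≤ ie G' X := by
  classical
  rw [ie_eq, ie_eq]
  apply Finset.card_le_card
  intro e he
  rw [Finset.mem_filter] at he ⊢
  exact ⟨he.1, SimpleGraph.edgeSet_mono h he.2.1, he.2.2⟩

theorem dg_mono_graph {V : Type} [Fintype V] [DecidableEq V] {G G' : SimpleGraph V} (h : G ≤ G') (X : Finset V) (a : V) :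
    dg G X a ≤ dg G' X a := by
  classical
  rw [dg_eq, dg_eq]
  apply Finset.card_le_card
  intro e he
  rw [Finset.mem_filter] at he ⊢
  exact ⟨he.1, h he.2⟩

end Pool.Agent.Reg5.J2258
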