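import Pool.Agent.Helper927.R5Defs
import Pool.Agent.Helper927.R5x2257
import Pool.Agent.Helper927.R5x2258
set_option autoImplicit false
set_option maxHeartbeats 4000000

namespace Pool.Agent.Reg5.J2260
open Pool.Agent.Reg5
open Pool.Agent.Reg5.J2258 (dg_mono_graph)
open Pool.Agent.Reg5.J2258 (ie_add)
open Pool.Agent.Reg5.J2258 (ie_del)
open Pool.Agent.Reg5.J2257 (ie_mono)
open Pool.Agent.Reg5.J2258 (ie_mono_graph)
open Pool.Agent.Reg5.J2257 (ie_three)


theorem sparse_del {V : Type} [Fintype V] [DecidableEq V] (G : SimpleGraph V) (hs : Sparse G) (S : Finset V) :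
    Sparse (del G S) := by
  intro X hX
  have h1 := ie_del G S X
  have h2 := ie_mono G (Finset.sdiff_subset : X \ S ⊆ X)
  have h3 := hs X hX
  omega

theorem del_le {V : Type} [Fintype V] [DecidableEq V] (G : SimpleGraph V) (S : Finset V) :
    del G S ≤ G := fun _ _ h => h.1

theorem cls_del {V : Type} [Fintype V] [DecidableEq V] (G : SimpleGraph V) (hs : Cls G) (S : Finset V) :
    Cls (del G S) :=
  ⟨sparse_del G hs.1 S, fun a => (dg_mono_graph (del_le G S) Finset.univ a).trans (hs.2 a)⟩

theorem J_del {V : Type} [Fintype V] [DecidableEq V] (G : SimpleGraph V) (hs : Sparse G) (S : Finset V) (a b : V)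
    (h : J (del G S) a b) : J G a b := by
  rcases h with h | ⟨X, hX, ha, hb⟩
  · exact Or.inl h.1
  · refine Or.inr ⟨X, ⟨hX.1, ?_⟩, ha, hb⟩
    have h1 := ie_mono_graph (del_le G S) X
    have h2 := hs X (by have := hX.1; omega)
    have h3 := hX.2
    omega

theorem sparse_add {V : Type} [Fintype V] [DecidableEq V] (G : SimpleGraph V) (hs : Sparse G) (a b : V) (hab : a ≠ b)
    (hJ : ¬ J G a b) : Sparse (add G a b) := by
  intro X hX
  have hn : ¬ G.Adj a b := fun h => hJ (Or.inl h)
  rw [ie_add G a b hab hn X]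
  have h1 := hs X hX
  split_ifs with hc
  · rcases hX.eq_or_lt with h3 | h4
    · by_contra hcon
      apply hn
      exact ie_three G X h3.symm (by omega) a b hc.1 hc.2 hab
    · by_contra hcon
      apply hJ
      exact Or.inr ⟨X, ⟨h4, by omega⟩, hc.1, hc.2⟩
  · omega

theorem sparse_add2 {V : Type} [Fintype V] [DecidableEq V] (G : SimpleGraph V) (hs : Sparse G) (a b c d : V)
    (hab : a ≠ b) (hac : a ≠ c) (had : a ≠ d) (hbc : b ≠ c) (hbd : b ≠ d) (hcd : c ≠ d)
    (hJ : ¬ J G a b) (hJ' : ¬ J G c d) :
    Sparse (add (add G a b) c d) ∨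
      ∃ X : Finset V, a ∈ X ∧ b ∈ X ∧ c ∈ X ∧ d ∈ X ∧ ie G X + 7 = 3 * X.card := by
  by_cases hsp : Sparse (add (add G a b) c d)
  · exact Or.inl hsp
  · right
    unfold Sparse at hsp
    push Not at hsp
    obtain ⟨X, hX3, hX⟩ := hsp
    have hn : ¬ G.Adj a b := fun h => hJ (Or.inl h)
    have hn' : ¬ G.Adj c d := fun h => hJ' (Or.inl h)
    have hn1 : ¬ (add G a b).Adj c d := by
      rintro (h | ⟨_, h | h⟩)
      · exact hn' h
      · exact hac h.1.symm
      · exact hbc h.1.symm
    have h1 := sparse_add G hs a b hab hJ X hX3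
    have h2 := sparse_add G hs c d hcd hJ' X hX3
    rw [ie_add _ c d hcd hn1 X] at hX
    rw [ie_add G a b hab hn X] at h1 hX
    rw [ie_add G c d hcd hn' X] at h2
    have h3 := hs X hX3
    by_cases hA : a ∈ X ∧ b ∈ X
    · by_cases hB : c ∈ X ∧ d ∈ X
      · rw [if_pos hA] at h1 hX
        rw [if_pos hB] at h2 hX
        refine ⟨X, hA.1, hA.2, hB.1, hB.2, ?_⟩
        have hcard : 4 ≤ X.card := by
          have hsub : ({a, b, c, d} : Finset V) ⊆ X := by
            intro x hx
            simp only [Finset.mem_insert, Finset.mem_singleton] at hx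
            rcases hx with rfl | rfl | rfl | rfl
            · exact hA.1
            · exact hA.2
            · exact hB.1
            · exact hB.2
          have h4 : ({a, b, c, d} : Finset V).card = 4 := by
            rw [Finset.card_insert_of_notMem (by simp [hab, hac, had]),
              Finset.card_insert_of_notMem (by simp [hbc, hbd]),
              Finset.card_insert_of_notMem (by simp [hcd]), Finset.card_singleton]
          rw [← h4]
          exact Finset.card_le_card hsub
        by_contra hcon
        apply hJ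
        exact Or.inr ⟨X, ⟨hcard, by omega⟩, hA.1, hA.2⟩
      · rw [if_neg hB] at hX
        omega
    · rw [if_neg hA] at hX
      omega

end Pool.Agent.Reg5.J2260
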