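import Pool.Agent.Helper927.R5Defs
import Pool.Agent.Helper927.R5x2257
import Pool.Agent.Helper927.R5x2258
set_option autoImplicit false
set_option maxHeartbeats 4000000

namespace Pool.Agent.Reg5.J2259
open Pool.Agent.Reg5
open Pool.Agent.Reg5.J2258 (dg_mono)
open Pool.Agent.Reg5.J2257 (ie_insert)
open Pool.Agent.Reg5.J2257 (ie_super)


theorem bt_deg {V : Type} [Fintype V] [DecidableEq V] (G : SimpleGraph V) (hs : Sparse G) (X : Finset V) (hX : BT G X)
    (a : V) (ha : a ∈ X) : 3 ≤ dg G X a := by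
  obtain ⟨h4, hX⟩ := hX
  have h1 : (X.erase a).card = X.card - 1 := Finset.card_erase_of_mem ha
  have h2 := hs (X.erase a) (by omega)
  have h3 := ie_insert G (X.erase a) a (Finset.notMem_erase a X)
  rw [Finset.insert_erase ha] at h3
  have h5 := dg_mono G (Finset.erase_subset a X) a
  omega

theorem bt_union {V : Type} [Fintype V] [DecidableEq V] (G : SimpleGraph V) (hs : Sparse G) (X Y : Finset V)
    (hX : BT G X) (hY : BT G Y) (a : V) (haX : a ∈ X) (haY : a ∈ Y) (hd : dg G Finset.univ a ≤ 4) : BT G (X ∪ Y) := by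
  classical
  have h1 := bt_deg G hs X hX a haX
  have h2 := bt_deg G hs Y hY a haY
  have h3 : (X.filter (fun x => G.Adj a x)).card = dg G X a := by
    unfold dg
    congr
  have h4 : (Y.filter (fun x => G.Adj a x)).card = dg G Y a := by
    unfold dg
    congr
  have h5 : (Finset.univ.filter (fun x => G.Adj a x)).card = dg G Finset.univ a := by
    unfold dg
    congr
  have h6 := Finset.card_union_add_card_inter (X.filter (fun x => G.Adj a x))
    (Y.filter (fun x => G.Adj a x))
  have h7 : ((X.filter (fun x => G.Adj a x)) ∪ (Y.filter (fun x => G.Adj a x))).card ≤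
      (Finset.univ.filter (fun x => G.Adj a x)).card := by
    apply Finset.card_le_card
    intro x hx
    rw [Finset.mem_union, Finset.mem_filter, Finset.mem_filter] at hx
    rw [Finset.mem_filter]
    rcases hx with h | h
    · exact ⟨Finset.mem_univ _, h.2⟩
    · exact ⟨Finset.mem_univ _, h.2⟩
  have h8 : (insert a ((X.filter (fun x => G.Adj a x)) ∩ (Y.filter (fun x => G.Adj a x)))).card ≤
      (X ∩ Y).card := by
    apply Finset.card_le_card
    intro x hx
    rcases Finset.mem_insert.mp hx with rfl | hx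
    · exact Finset.mem_inter.mpr ⟨haX, haY⟩
    · rw [Finset.mem_inter, Finset.mem_filter, Finset.mem_filter] at hx
      exact Finset.mem_inter.mpr ⟨hx.1.1, hx.2.1⟩
  rw [Finset.card_insert_of_notMem (by
    rw [Finset.mem_inter, Finset.mem_filter]
    rintro ⟨⟨-, h⟩, -⟩
    exact G.loopless.irrefl a h)] at h8
  have h9 : 3 ≤ (X ∩ Y).card := by omega
  have h10 := hs (X ∩ Y) h9
  have h11 : X.card ≤ (X ∪ Y).card := Finset.card_le_card Finset.subset_union_left
  obtain ⟨x1, x2⟩ := hX
  obtain ⟨y1, y2⟩ := hY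
  have h12 := hs (X ∪ Y) (by omega)
  have h13 := ie_super G X Y
  have h14 := Finset.card_union_add_card_inter X Y
  constructor
  · omega
  · omega

theorem bt_max {V : Type} [Fintype V] [DecidableEq V] (G : SimpleGraph V) (X : Finset V) (hX : BT G X) :
    ∃ X' : Finset V, X ⊆ X' ∧ BT G X' ∧ ∀ Y, BT G Y → X' ⊆ Y → Y = X' := by
  classical
  obtain ⟨X', hX', hmax⟩ := Finset.exists_max_image
    (Finset.univ.filter (fun Y : Finset V => BT G Y ∧ X ⊆ Y)) Finset.card
    ⟨X, Finset.mem_filter.mpr ⟨Finset.mem_univ _, hX, Finset.Subset.refl _⟩⟩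
  rw [Finset.mem_filter] at hX'
  refine ⟨X', hX'.2.2, hX'.2.1, ?_⟩
  intro Y hY hXY
  exact (Finset.eq_of_subset_of_card_le hXY (hmax Y (Finset.mem_filter.mpr
    ⟨Finset.mem_univ _, hY, hX'.2.2.trans hXY⟩))).symm

theorem bt_out {V : Type} [Fintype V] [DecidableEq V] (G : SimpleGraph V) (hs : Sparse G) (X : Finset V)
    (hX : BT G X) (hmax : ∀ Y, BT G Y → X ⊆ Y → Y = X) (c b : V) (hc : c ∈ X) (hd : dg G Finset.univ c ≤ 4)
    (hb : b ∉ X) (hJ : J G c b) : G.Adj c b := by
  rcases hJ with h | ⟨Y, hY, hcY, hbY⟩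
  · exact h
  · exfalso
    have h1 := bt_union G hs X Y hX hY c hc hcY hd
    have h2 := hmax _ h1 Finset.subset_union_left
    apply hb
    rw [← h2]
    exact Finset.mem_union_right _ hbY

end Pool.Agent.Reg5.J2259
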