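import Pool.Agent.Helper927.R5Defs
import Pool.Agent.Helper927.R5x2257
import Pool.Agent.Helper927.R5x2258
import Pool.Agent.Helper927.R5x2259
import Pool.Agent.Helper927.R5x2260
set_option autoImplicit false
set_option maxHeartbeats 4000000

namespace Pool.Agent.Reg5.J2261
open Pool.Agent.Reg5
open Pool.Agent.Reg5.J2259 (bt_deg)
open Pool.Agent.Reg5.J2259 (bt_max)
open Pool.Agent.Reg5.J2259 (bt_out)
open Pool.Agent.Reg5.J2258 (dg_del)
open Pool.Agent.Reg5.J2258 (dg_del_mem)
open Pool.Agent.Reg5.J2258 (dg_disj)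
open Pool.Agent.Reg5.J2258 (dg_ge)
open Pool.Agent.Reg5.J2258 (dg_insert)
open Pool.Agent.Reg5.J2258 (dg_mono)
open Pool.Agent.Reg5.J2258 (ie_del)
open Pool.Agent.Reg5.J2257 (ie_handshake)
open Pool.Agent.Reg5.J2257 (ie_insert)
open Pool.Agent.Reg5.J2260 (sparse_del)


theorem J_symm' {V : Type} [Fintype V] [DecidableEq V] {G : SimpleGraph V} {a b : V} (h : J G a b) :
    J G b a := by
  rcases h with h | ⟨X, hX, ha, hb⟩
  · exact Or.inl h.symm
  · exact Or.inr ⟨X, hX, hb, ha⟩

theorem degF {V : Type} [Fintype V] [DecidableEq V] (G : SimpleGraph V) (hG : Cls G) (v x : V)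
    (h : G.Adj v x) : dg (del G {v}) Finset.univ x ≤ 4 := by
  have hxv : x ∉ ({v} : Finset V) := by
    rw [Finset.mem_singleton]
    exact h.ne'
  rw [dg_del G {v} Finset.univ x hxv]
  have h1 := hG.2 x
  have h2 : insert v (Finset.univ \ {v}) = (Finset.univ : Finset V) := by
    ext y
    simp only [Finset.mem_insert, Finset.mem_sdiff, Finset.mem_univ, Finset.mem_singleton, true_and,
      iff_true]
    exact em _
  have h3 := (dg_insert G (Finset.univ \ {v}) x v (by simp)).1 h.symm
  rw [h2] at h3
  omega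

theorem v_notMem {V : Type} [Fintype V] [DecidableEq V] (G : SimpleGraph V) (hG : Cls G) (v : V)
    (X : Finset V) (hX : BT (del G {v}) X) : v ∉ X := by
  intro hv
  have h1 := bt_deg (del G {v}) (sparse_del G hG.1 {v}) X hX v hv
  rw [dg_del_mem G {v} X v (Finset.mem_singleton_self v)] at h1
  omega

theorem fact3 {V : Type} [Fintype V] [DecidableEq V] (G : SimpleGraph V) (hG : Cls G) (v : V)
    (X : Finset V) (hX : BT (del G {v}) X) : dg G X v ≤ 3 := by
  have hv := v_notMem G hG v X hX
  have h1 := hG.1 (insert v X) (by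
    rw [Finset.card_insert_of_notMem hv]
    have := hX.1
    omega)
  rw [ie_insert G X v hv, Finset.card_insert_of_notMem hv] at h1
  have h2 := hX.2
  have h3 : X \ {v} = X := by
    rw [Finset.sdiff_singleton_eq_erase, Finset.erase_eq_of_notMem hv]
  rw [ie_del G {v} X, h3] at h2
  omega

theorem K4_abs {V : Type} [Fintype V] [DecidableEq V] (G : SimpleGraph V) (hG : Cls G) (v : V)
    (N : Finset V) (hN : N.card = 4) (hadj : ∀ x ∈ N, G.Adj v x)
    (hJ : ∀ x ∈ N, ∀ y ∈ N, x ≠ y → J (del G {v}) x y) : False := by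
  have hsF := sparse_del G hG.1 {v}
  by_cases hall : ∀ x ∈ N, ∀ y ∈ N, x ≠ y → (del G {v}).Adj x y
  · have hvN : v ∉ N := fun h => (hadj v h).ne rfl
    have h1 : ∀ a ∈ N, 3 ≤ dg G N a := by
      intro a ha
      have h2 := dg_ge G N (N.erase a) a (Finset.erase_subset _ _) (by
        intro x hx
        rw [Finset.mem_erase] at hx
        exact (hall a ha x hx.2 hx.1.symm).1)
      rw [Finset.card_erase_of_mem ha, hN] at h2
      omega
    have h2 := ie_handshake G N
    have h3 : ∑ a ∈ N, 3 ≤ ∑ a ∈ N, dg G N a := Finset.sum_le_sum h1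
    rw [Finset.sum_const, hN, smul_eq_mul] at h3
    have h4 := dg_ge G N N v (Finset.Subset.refl _) hadj
    have h5 := hG.1 (insert v N) (by rw [Finset.card_insert_of_notMem hvN]; omega)
    rw [ie_insert G N v hvN, Finset.card_insert_of_notMem hvN] at h5
    omega
  · push Not at hall
    obtain ⟨x, hx, y, hy, hxy, hna⟩ := hall
    rcases hJ x hx y hy hxy with h | ⟨X0, hX0, hx0, hy0⟩
    · exact hna h
    obtain ⟨X, hsub, hX, hmax⟩ := bt_max (del G {v}) X0 hX0
    have hT := fact3 G hG v X hX
    have hT2 := dg_ge G X (N ∩ X) v Finset.inter_subset_right (by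
      intro z hz
      exact hadj z (Finset.mem_inter.1 hz).1)
    have hcard : (N ∩ X).card + (N \ X).card = 4 := by
      rw [← hN]; exact Finset.card_inter_add_card_sdiff N X
    have hout : ∀ z ∈ N ∩ X, ∀ u ∈ N \ X, (del G {v}).Adj z u := by
      intro z hz u hu
      rw [Finset.mem_inter] at hz
      rw [Finset.mem_sdiff] at hu
      have hzu : z ≠ u := by
        rintro rfl
        exact hu.2 hz.2
      exact bt_out (del G {v}) hsF X hX hmax z u hz.2 (degF G hG v z (hadj z hz.1)) hu.2
        (hJ z hz.1 u hu.1 hzu)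
    have hxX : x ∈ N ∩ X := Finset.mem_inter.2 ⟨hx, hsub hx0⟩
    have h1 : (N \ X).card ≤ 1 := by
      have h2 := bt_deg (del G {v}) hsF X hX x (hsub hx0)
      have h3 := dg_ge (del G {v}) (N \ X) (N \ X) x (Finset.Subset.refl _) (hout x hxX)
      have h4 := dg_disj (del G {v}) X (N \ X) x Finset.disjoint_sdiff
      have h5 := dg_mono (del G {v}) (Finset.subset_univ (X ∪ (N \ X))) x
      have h6 := degF G hG v x (hadj x hx)
      omega
    have h7 : (N \ X).card = 1 := by omega
    obtain ⟨u, hu⟩ := Finset.card_eq_one.1 h7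
    have huN : u ∈ N \ X := by rw [hu]; exact Finset.mem_singleton_self u
    have huX : u ∉ X := (Finset.mem_sdiff.1 huN).2
    have h8 := dg_ge (del G {v}) X (N ∩ X) u Finset.inter_subset_right (by
      intro z hz
      exact (hout z hz u huN).symm)
    have h9 := ie_insert (del G {v}) X u huX
    have h10 := hsF (insert u X) (by
      rw [Finset.card_insert_of_notMem huX]
      have := hX.1
      omega)
    have h11 := Finset.card_insert_of_notMem huX
    have hBT : BT (del G {v}) (insert u X) := by
      refine ⟨?_, ?_⟩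
      · have := hX.1
        omega
      · have := hX.2
        omega
    have h12 := hmax _ hBT (Finset.subset_insert u X)
    exact huX (h12 ▸ Finset.mem_insert_self u X)

theorem K4_not {V : Type} [Fintype V] [DecidableEq V] (G : SimpleGraph V) (hG : Cls G) (v a b c d : V)
    (hav : G.Adj v a) (hbv : G.Adj v b) (hcv : G.Adj v c) (hdv : G.Adj v d)
    (hab : a ≠ b) (hac : a ≠ c) (had : a ≠ d) (hbc : b ≠ c) (hbd : b ≠ d) (hcd : c ≠ d) :
    ¬ (J (del G {v}) a b ∧ J (del G {v}) a c ∧ J (del G {v}) a d ∧ J (del G {v}) b c ∧ J (del G {v}) b d ∧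
      J (del G {v}) c d) := by
  rintro ⟨h1, h2, h3, h4, h5, h6⟩
  refine K4_abs G hG v {a, b, c, d} ?_ ?_ ?_
  · rw [Finset.card_insert_of_notMem, Finset.card_insert_of_notMem, Finset.card_insert_of_notMem,
      Finset.card_singleton]
    · simpa using hcd
    · simp [hbc, hbd]
    · simp [hab, hac, had]
  · intro x hx
    simp only [Finset.mem_insert, Finset.mem_singleton] at hx
    rcases hx with rfl | rfl | rfl | rfl <;> assumption
  · intro x hx y hy hxy
    simp only [Finset.mem_insert, Finset.mem_singleton] at hx hy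
    rcases hx with rfl | rfl | rfl | rfl <;> rcases hy with rfl | rfl | rfl | rfl <;>
      first
        | exact absurd rfl hxy
        | assumption
        | (apply J_symm'; assumption)

theorem J_all {V : Type} [Fintype V] [DecidableEq V] (G : SimpleGraph V) (hG : Cls G) (v w a b c d : V)
    (hwv : G.Adj v w) (hav : G.Adj v a) (hbv : G.Adj v b) (hcv : G.Adj v c) (hdv : G.Adj v d)
    (hwa : w ≠ a) (hwb : w ≠ b) (hwc : w ≠ c) (hwd : w ≠ d)
    (hab : a ≠ b) (hac : a ≠ c) (had : a ≠ d) (hbc : b ≠ c) (hbd : b ≠ d) (hcd : c ≠ d)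
    (h1 : J (del G {v}) w a) (h2 : J (del G {v}) w b) (h3 : J (del G {v}) w c) (h4 : J (del G {v}) w d) :
    (∀ X, BT (del G {v}) X → w ∉ X) ∧ G.Adj w a ∧ G.Adj w b ∧ G.Adj w c ∧ G.Adj w d := by
  have hsF := sparse_del G hG.1 {v}
  have key : ∀ X, BT (del G {v}) X → w ∉ X := by
    intro X0 hX0 hw0
    obtain ⟨X, hsub, hX, hmax⟩ := bt_max (del G {v}) X0 hX0
    have hwX := hsub hw0
    set N : Finset V := {a, b, c, d} with hNdef
    have hN : N.card = 4 := by
      rw [hNdef, Finset.card_insert_of_notMem, Finset.card_insert_of_notMem,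
        Finset.card_insert_of_notMem, Finset.card_singleton]
      · simpa using hcd
      · simp [hbc, hbd]
      · simp [hab, hac, had]
    have hadj : ∀ x ∈ N, G.Adj v x := by
      intro x hx
      simp only [hNdef, Finset.mem_insert, Finset.mem_singleton] at hx
      rcases hx with rfl | rfl | rfl | rfl <;> assumption
    have hwN : w ∉ N := by
      simp [hNdef, hwa, hwb, hwc, hwd]
    have hJ : ∀ x ∈ N, J (del G {v}) w x := by
      intro x hx
      simp only [hNdef, Finset.mem_insert, Finset.mem_singleton] at hx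
      rcases hx with rfl | rfl | rfl | rfl <;> assumption
    have hT := fact3 G hG v X hX
    have hT2 := dg_ge G X (insert w (N ∩ X)) v (by
      intro z hz
      rw [Finset.mem_insert, Finset.mem_inter] at hz
      rcases hz with rfl | hz
      · exact hwX
      · exact hz.2) (by
      intro z hz
      rw [Finset.mem_insert, Finset.mem_inter] at hz
      rcases hz with rfl | hz
      · exact hwv
      · exact hadj z hz.1)
    have hwi : w ∉ N ∩ X := fun h => hwN (Finset.mem_inter.1 h).1
    rw [Finset.card_insert_of_notMem hwi] at hT2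
    have hcard : (N ∩ X).card + (N \ X).card = 4 := by
      rw [← hN]; exact Finset.card_inter_add_card_sdiff N X
    have hout : ∀ u ∈ N \ X, (del G {v}).Adj w u := by
      intro u hu
      rw [Finset.mem_sdiff] at hu
      exact bt_out (del G {v}) hsF X hX hmax w u hwX (degF G hG v w hwv) hu.2 (hJ u hu.1)
    have h5 := bt_deg (del G {v}) hsF X hX w hwX
    have h6 := dg_ge (del G {v}) (N \ X) (N \ X) w (Finset.Subset.refl _) hout
    have h7 := dg_disj (del G {v}) X (N \ X) w Finset.disjoint_sdiff
    have h8 := dg_mono (del G {v}) (Finset.subset_univ (X ∪ (N \ X))) w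
    have h9 := degF G hG v w hwv
    omega
  have adjOf : ∀ x, J (del G {v}) w x → G.Adj w x := by
    intro x hx
    rcases hx with h | ⟨X, hX, hw, _⟩
    · exact h.1
    · exact absurd hw (key X hX)
  exact ⟨key, adjOf a h1, adjOf b h2, adjOf c h3, adjOf d h4⟩

end Pool.Agent.Reg5.J2261
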