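import Pool.Agent.Helper927.R5Defs
import Pool.Agent.Helper927.R5x2263
set_option autoImplicit false
set_option maxHeartbeats 4000000

namespace Pool.Agent.Reg5.J2266
open Pool.Agent.Reg5
open Pool.Agent.Reg5.J2263 (SF_mono)
open Pool.Agent.Reg5.J2263 (isMot_mono)
open Pool.Agent.Reg5.J2263 (resolve)
open Pool.Agent.Reg5.J2263 (work)


theorem dd_symm {V : Type} (p m : V → Fin 3 → ℝ) (a b : V) : dd p m b a = dd p m a b := by
  unfold dd
  rw [← neg_sub (p a) (p b), ← neg_sub (m a) (m b), neg_dotProduct_neg]

theorem dd_lin {V : Type} (p m m' : V → Fin 3 → ℝ) (s t : ℝ) (a b : V) :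
    dd p (fun x => s • m x - t • m' x) a b = s * dd p m a b - t * dd p m' a b := by
  unfold dd
  have : (s • m a - t • m' a) - (s • m b - t • m' b) = s • (m a - m b) - t • (m' a - m' b) := by
    rw [smul_sub, smul_sub]; abel
  rw [this, dotProduct_sub, dotProduct_smul, dotProduct_smul, smul_eq_mul, smul_eq_mul]

theorem SF_add {V : Type} [Fintype V] [DecidableEq V] (G : SimpleGraph V) (p : V → Fin 3 → ℝ) (a b : V) (hab : a ≠ b)
    (hn : ¬ G.Adj a b) (hG : SF G p) :
    SF (add G a b) p ↔ ∃ m, IsMot G p m ∧ dd p m a b ≠ 0 := by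
  classical
  constructor
  · intro hS
    by_contra hcon
    push Not at hcon
    let L : V → Fin 3 → ℝ := fun x => (if x = a then (p a - p b) else 0) + (if x = b then (p b - p a) else 0)
    have hL : ∀ m : V → Fin 3 → ℝ, ∑ x, L x ⬝ᵥ m x = dd p m a b := by
      intro m
      have e1 : ∑ x, (if x = a then (p a - p b) else 0) ⬝ᵥ m x = (p a - p b) ⬝ᵥ m a := by
        rw [Finset.sum_eq_single a]
        · simp
        · intro x _ hx; simp [hx]
        · simp
      have e2 : ∑ x, (if x = b then (p b - p a) else 0) ⬝ᵥ m x = (p b - p a) ⬝ᵥ m b := by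
        rw [Finset.sum_eq_single b]
        · simp
        · intro x _ hx; simp [hx]
        · simp
      simp only [L, add_dotProduct, Finset.sum_add_distrib]
      rw [e1, e2]
      unfold dd
      rw [← neg_sub (p a) (p b), neg_dotProduct, dotProduct_sub]
      ring
    obtain ⟨w, hw1, hw2, hw3⟩ := resolve G p L (fun m hm => by rw [hL]; exact hcon m hm)
    let e : V → V → ℝ := fun x y => (if x = a then (if y = b then 1 else 0) else 0) +
      (if x = b then (if y = a then 1 else 0) else 0)
    have h1 := hS (fun x y => w x y - e x y) ?_ ?_ ?_ a b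
    · have h2 : e a b = 1 := by
        simp only [e]
        simp [hab]
      simp only [hw2 a b hn, h2] at h1
      norm_num at h1
    · intro x y
      have h2 : e x y = e y x := by
        simp only [e]
        by_cases hxa : x = a <;> by_cases hxb : x = b <;> by_cases hya : y = a <;> by_cases hyb : y = b <;>
          simp_all
      rw [hw1 x y, h2]
    · intro x y hxy
      have h2 : ¬ G.Adj x y := fun h => hxy (Or.inl h)
      have h3 : e x y = 0 := by
        have h4 : ¬ ((x = a ∧ y = b) ∨ (x = b ∧ y = a)) := fun h => hxy (Or.inr ⟨hab, h⟩)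
        simp only [e]
        push Not at h4
        by_cases hxa : x = a <;> by_cases hxb : x = b <;> simp_all
      rw [hw2 x y h2, h3]; ring
    · intro x
      have h2 : ∑ y, e x y • (p x - p y) = L x := by
        simp only [e, L, add_smul, Finset.sum_add_distrib]
        congr 1
        · by_cases hxa : x = a
          · subst hxa; simp
          · simp [hxa]
        · by_cases hxb : x = b
          · subst hxb; simp
          · simp [hxb]
      have h3 : ∑ y, (w x y - e x y) • (p x - p y) = ∑ y, w x y • (p x - p y) - ∑ y, e x y • (p x - p y) := by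
        rw [← Finset.sum_sub_distrib]
        apply Finset.sum_congr rfl
        intro y _
        rw [sub_smul]
      rw [h3, h2, ← hw3 x, sub_self]
  · rintro ⟨m, hm, hd⟩ w hw1 hw2 hw3
    have h0 := work p m w hw1
    have h1 : 2 * ∑ x, (∑ y, w x y • (p x - p y)) ⬝ᵥ m x = 0 := by
      simp only [hw3, zero_dotProduct, Finset.sum_const_zero, mul_zero]
    rw [h1] at h0
    obtain ⟨c, hc⟩ : ∃ c, c = w a b * dd p m a b := ⟨_, rfl⟩
    have h2 : ∀ x y, w x y * dd p m x y =
        (if x = a then (if y = b then c else 0) else 0) +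
        (if x = b then (if y = a then c else 0) else 0) := by
      intro x y
      rw [hc]
      by_cases hG' : G.Adj x y
      · rw [hm x y hG', mul_zero]
        by_cases hxa : x = a
        · by_cases hyb : y = b
          · exfalso; rw [hxa, hyb] at hG'; exact hn hG'
          · have : x ≠ b := by rw [hxa]; exact hab
            simp [hxa, hyb, hab]
        · by_cases hxb : x = b
          · by_cases hya : y = a
            · exfalso; rw [hxb, hya] at hG'; exact hn hG'.symm
            · simp [hxb, hya, hab.symm]
          · simp [hxa, hxb]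
      · by_cases hxa : x = a
        · by_cases hyb : y = b
          · simp [hxa, hyb, hab]
          · have h3 : w x y = 0 := hw2 x y (by
              rintro (h | ⟨_, ⟨_, h⟩ | ⟨h, _⟩⟩)
              · exact hG' h
              · exact hyb h
              · exact hab (hxa.symm.trans h))
            rw [h3]
            simp [hxa, hyb, hab]
        · by_cases hxb : x = b
          · by_cases hya : y = a
            · simp [hxb, hya, hab.symm, dd_symm p m a b, hw1 b a]
            · have h3 : w x y = 0 := hw2 x y (by
                rintro (h | ⟨_, ⟨h, _⟩ | ⟨_, h⟩⟩)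
                · exact hG' h
                · exact hxa h
                · exact hya h)
              rw [h3]
              simp [hxb, hya, hab.symm]
          · have h3 : w x y = 0 := hw2 x y (by
                rintro (h | ⟨_, ⟨h, _⟩ | ⟨h, _⟩⟩)
                · exact hG' h
                · exact hxa h
                · exact hxb h)
            rw [h3]
            simp [hxa, hxb]
    have h3 : w a b = 0 := by
      simp only [h2, Finset.sum_add_distrib] at h0
      have e1 : ∑ x : V, ∑ y : V, (if x = a then (if y = b then c else 0) else 0) = c := by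
        rw [Finset.sum_eq_single a]
        · simp
        · intro x _ hx; simp [hx]
        · simp
      have e2 : ∑ x : V, ∑ y : V, (if x = b then (if y = a then c else 0) else 0) = c := by
        rw [Finset.sum_eq_single b]
        · simp
        · intro x _ hx; simp [hx]
        · simp
      rw [e1, e2, hc] at h0
      have h4 : w a b * dd p m a b = 0 := by linarith
      exact (mul_eq_zero.1 h4).resolve_right hd
    apply hG w hw1 _ hw3
    intro x y hxy
    by_cases h4 : (x = a ∧ y = b) ∨ (x = b ∧ y = a)
    · rcases h4 with ⟨h5, h6⟩ | ⟨h5, h6⟩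
      · rw [h5, h6, h3]
      · rw [h5, h6, hw1, h3]
    · apply hw2
      rintro (h | ⟨_, h⟩)
      · exact hxy h
      · exact h4 h

theorem SF_add2 {V : Type} [Fintype V] [DecidableEq V] (G : SimpleGraph V) (p : V → Fin 3 → ℝ) (a b c d : V) (hab : a ≠ b)
    (hcd : c ≠ d) (hn : ¬ G.Adj a b) (hn' : ¬ (add G a b).Adj c d) (hG : SF G p) :
    SF (add (add G a b) c d) p ↔
      ∃ m m', IsMot G p m ∧ IsMot G p m' ∧ dd p m a b * dd p m' c d ≠ dd p m' a b * dd p m c d := by
  have hle : add G a b ≤ add (add G a b) c d := fun x y h => Or.inl h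
  have hle0 : G ≤ add G a b := fun x y h => Or.inl h
  have hmot : ∀ m, IsMot (add G a b) p m ↔ IsMot G p m ∧ dd p m a b = 0 := by
    intro m
    constructor
    · intro h
      exact ⟨isMot_mono hle0 p m h, h a b (Or.inr ⟨hab, Or.inl ⟨rfl, rfl⟩⟩)⟩
    · rintro ⟨h1, h2⟩ x y (h | ⟨_, ⟨hx, hy⟩ | ⟨hx, hy⟩⟩)
      · exact h1 x y h
      · rw [hx, hy]; exact h2
      · rw [hx, hy, dd_symm]; exact h2
  constructor
  · intro hS
    have hS1 : SF (add G a b) p := SF_mono hle p hS
    obtain ⟨m0, hm0, hd0⟩ := (SF_add G p a b hab hn hG).1 hS1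
    obtain ⟨m1, hm1, hd1⟩ := (SF_add (add G a b) p c d hcd hn' hS1).1 hS
    obtain ⟨hm1', hd1'⟩ := (hmot m1).1 hm1
    refine ⟨m0, m1, hm0, hm1', ?_⟩
    rw [hd1', zero_mul]
    exact mul_ne_zero hd0 hd1
  · rintro ⟨m, m', hm, hm', hne⟩
    have hS1 : SF (add G a b) p := by
      rw [SF_add G p a b hab hn hG]
      by_cases h0 : dd p m a b = 0
      · refine ⟨m', hm', ?_⟩
        intro h1
        apply hne
        rw [h0, h1, zero_mul, zero_mul]
      · exact ⟨m, hm, h0⟩
    rw [SF_add (add G a b) p c d hcd hn' hS1]
    refine ⟨fun x => dd p m' a b • m x - dd p m a b • m' x, ?_, ?_⟩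
    · rw [hmot]
      constructor
      · intro x y hxy
        rw [dd_lin, hm x y hxy, hm' x y hxy]; ring
      · rw [dd_lin]; ring
    · rw [dd_lin]
      intro h
      apply hne
      linarith

end Pool.Agent.Reg5.J2266
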