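import Pool.Agent.Helper927.R5Defs
import Pool.Agent.Helper927.R5x2263
set_option autoImplicit false
set_option maxHeartbeats 4000000

namespace Pool.Agent.Reg5.J2267
open Pool.Agent.Reg5
open Pool.Agent.Reg5.J2263 (work)


theorem job_dd_symm {V : Type} (p m : V → Fin 3 → ℝ) (a b : V) : dd p m a b = dd p m b a := by
  unfold dd
  rw [← neg_sub (p b) (p a), ← neg_sub (m b) (m a), neg_dotProduct_neg]

theorem job_vertex_key {V : Type} [Fintype V] [DecidableEq V] (G : SimpleGraph V) (v : V)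
    (p : V → Fin 3 → ℝ) (w : V → V → ℝ) (hw : ∀ a b, w a b = w b a)
    (hw0 : ∀ a b, ¬ G.Adj a b → w a b = 0) (hweq : ∀ a, ∑ b, w a b • (p a - p b) = 0)
    (m : V → Fin 3 → ℝ) (hm : IsMot (del G {v}) p m) :
    ∑ x, w v x * ((p v - p x) ⬝ᵥ m x) = 0 := by
  have h1 := work p m w hw
  simp only [hweq, zero_dotProduct, Finset.sum_const_zero, mul_zero] at h1
  have hvv : w v v = 0 := hw0 v v (G.loopless.irrefl v)
  have h2 : ∀ a, a ≠ v → ∑ b, w a b * dd p m a b = w v a * dd p m v a := by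
    intro a ha
    rw [Finset.sum_eq_single v]
    · rw [hw a v, job_dd_symm]
    · intro b _ hb
      by_cases hab : G.Adj a b
      · have : dd p m a b = 0 := hm a b ⟨hab, by simpa using ha, by simpa using hb⟩
        rw [this, mul_zero]
      · rw [hw0 a b hab, zero_mul]
    · intro h; exact absurd (Finset.mem_univ _) h
  have h3 : ∑ a, ∑ b, w a b * dd p m a b = 2 * ∑ b, w v b * dd p m v b := by
    rw [← Finset.add_sum_erase _ _ (Finset.mem_univ v)]
    rw [Finset.sum_congr rfl (fun a ha => h2 a (Finset.ne_of_mem_erase ha))]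
    have h4 : ∑ a ∈ Finset.univ.erase v, w v a * dd p m v a = ∑ a, w v a * dd p m v a := by
      rw [← Finset.add_sum_erase Finset.univ (fun a => w v a * dd p m v a) (Finset.mem_univ v)]
      rw [hvv]; ring
    rw [h4]; ring
  rw [h3] at h1
  have h5 : ∑ b, w v b * dd p m v b = 0 := by linarith
  have h6 : ∑ b, w v b * dd p m v b =
      (∑ b, w v b • (p v - p b)) ⬝ᵥ m v - ∑ b, w v b * ((p v - p b) ⬝ᵥ m b) := by
    rw [sum_dotProduct, ← Finset.sum_sub_distrib]
    refine Finset.sum_congr rfl fun b _ => ?_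
    unfold dd
    rw [dotProduct_sub, smul_dotProduct, smul_eq_mul]
    ring
  rw [h6, hweq v, zero_dotProduct] at h5
  linarith

/-- a stress of `G` vanishing at `v` is a stress of `del G {v}` -/
theorem job_vertex_zero {V : Type} [Fintype V] [DecidableEq V] (G : SimpleGraph V) (v : V)
    (p : V → Fin 3 → ℝ) (hF : SF (del G {v}) p) (w : V → V → ℝ) (hw : ∀ a b, w a b = w b a)
    (hw0 : ∀ a b, ¬ G.Adj a b → w a b = 0) (hweq : ∀ a, ∑ b, w a b • (p a - p b) = 0)
    (hz : ∀ x, w v x = 0) : ∀ a b, w a b = 0 := by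
  refine hF w hw ?_ hweq
  intro a b hab
  by_cases h : G.Adj a b
  · by_cases ha : a = v
    · rw [ha]; exact hz b
    · by_cases hb : b = v
      · rw [hb, hw]; exact hz a
      · exact absurd ⟨h, by simpa using ha, by simpa using hb⟩ hab
  · exact hw0 a b h

theorem dep_vertex {V : Type} [Fintype V] [DecidableEq V] (G : SimpleGraph V) (v : V) (p : V → Fin 3 → ℝ)
    (hF : SF (del G {v}) p) (hG : ¬ SF G p) :
    ∃ l : V → ℝ, (∀ x, ¬ G.Adj v x → l x = 0) ∧ (∃ x, l x ≠ 0) ∧ ∑ x, l x • (p v - p x) = 0 ∧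
      ∀ m, IsMot (del G {v}) p m → ∑ x, l x * ((p v - p x) ⬝ᵥ m x) = 0 := by
  unfold SF at hG
  push Not at hG
  obtain ⟨w, hw, hw0, hweq, a, b, hab⟩ := hG
  refine ⟨fun x => w v x, fun x hx => hw0 v x hx, ?_, hweq v,
    fun m hm => job_vertex_key G v p w hw hw0 hweq m hm⟩
  by_contra hcon
  push Not at hcon
  exact hab (job_vertex_zero G v p hF w hw hw0 hweq hcon a b)

theorem SF_vertex {V : Type} [Fintype V] [DecidableEq V] (G : SimpleGraph V) (v : V) (p : V → Fin 3 → ℝ)
    (hF : SF (del G {v}) p)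
    (h : ∀ l : V → ℝ, (∀ x, ¬ G.Adj v x → l x = 0) → ∑ x, l x • (p v - p x) = 0 →
      (∀ m, IsMot (del G {v}) p m → ∑ x, l x * ((p v - p x) ⬝ᵥ m x) = 0) → ∀ x, l x = 0) :
    SF G p := by
  intro w hw hw0 hweq
  refine job_vertex_zero G v p hF w hw hw0 hweq ?_
  exact h (fun x => w v x) (fun x hx => hw0 v x hx) (hweq v)
    (fun m hm => job_vertex_key G v p w hw hw0 hweq m hm)

end Pool.Agent.Reg5.J2267
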