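import Pool.Agent.Helper927.R5Defs
import Pool.Agent.Helper927.R5x2263
import Pool.Agent.Helper927.R5x2266
import Pool.Agent.Helper927.R5x2267
import Pool.Agent.Helper927.R5x2268
import Pool.Agent.Helper927.R5x2269
set_option autoImplicit false
set_option maxHeartbeats 4000000

namespace Pool.Agent.Reg5.J2271
open Pool.Agent.Reg5
open Pool.Agent.Reg5.J2269 (GP_dense)
open Pool.Agent.Reg5.J2266 (SF_add)
open Pool.Agent.Reg5.J2268 (SF_dense)
open Pool.Agent.Reg5.J2263 (SF_mono)
open Pool.Agent.Reg5.J2268 (SF_open)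
open Pool.Agent.Reg5.J2267 (SF_vertex)


theorem sum4 {V : Type} [Fintype V] [DecidableEq V] {M : Type} [AddCommMonoid M] (g : V → M)
    (a b c d : V) (hnd : [a, b, c, d].Nodup)
    (hg : ∀ x, x ≠ a → x ≠ b → x ≠ c → x ≠ d → g x = 0) :
    ∑ x, g x = g a + g b + g c + g d := by
  simp only [List.nodup_cons, List.mem_cons, List.not_mem_nil, or_false, not_or] at hnd
  obtain ⟨⟨h1, h2, h3⟩, ⟨h4, h5⟩, h6, _⟩ := hnd
  rw [← Finset.sum_subset (Finset.subset_univ ({a, b, c, d} : Finset V)) (fun x _ hx => by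
    simp only [Finset.mem_insert, Finset.mem_singleton, not_or] at hx
    exact hg x hx.1 hx.2.1 hx.2.2.1 hx.2.2.2)]
  rw [Finset.sum_insert (by simp [h1, h2, h3]), Finset.sum_insert (by simp [h4, h5]),
    Finset.sum_insert (by simpa using h6), Finset.sum_singleton]
  simp only [add_assoc]

theorem li3 {x y z : Fin 3 → ℝ} (h : LinearIndependent ℝ ![x, y, z]) {r s t : ℝ}
    (h0 : r • x + s • y + t • z = 0) : r = 0 ∧ s = 0 ∧ t = 0 := by
  rw [Fintype.linearIndependent_iff] at h
  have h1 := h ![r, s, t] (by simpa [Fin.sum_univ_three] using h0)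
  exact ⟨h1 0, h1 1, h1 2⟩

theorem li2 {x y : Fin 3 → ℝ} (h : LinearIndependent ℝ ![x, y]) {r s : ℝ}
    (h0 : r • x + s • y = 0) : r = 0 ∧ s = 0 := by
  rw [Fintype.linearIndependent_iff] at h
  have h1 := h ![r, s] (by simpa [Fin.sum_univ_two] using h0)
  exact ⟨h1 0, h1 1⟩

theorem exists_SF_GP {V : Type} [Fintype V] [DecidableEq V] (F : SimpleGraph V) (h : Ind F) :
    ∃ p : V → Fin 3 → ℝ, SF F p ∧ GP p := by
  obtain ⟨p, hp⟩ := (Dense.inter_of_isOpen_left (SF_dense F h) GP_dense (SF_open F)).nonempty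
  exact ⟨p, hp⟩

theorem isMot_update {V : Type} [Fintype V] [DecidableEq V] (G : SimpleGraph V) (v : V)
    (p m : V → Fin 3 → ℝ) (y : Fin 3 → ℝ) (h : IsMot (del G {v}) p m) :
    IsMot (del G {v}) (Function.update p v y) m := by
  intro a b hab
  have ha : a ≠ v := fun h => hab.2.1 (by simp [h])
  have hb : b ≠ v := fun h => hab.2.2 (by simp [h])
  have := h a b hab
  unfold dd at this ⊢
  rw [Function.update_of_ne ha, Function.update_of_ne hb]
  exact this

theorem SF_update {V : Type} [Fintype V] [DecidableEq V] (G : SimpleGraph V) (v : V)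
    (p : V → Fin 3 → ℝ) (y : Fin 3 → ℝ) (h : SF (del G {v}) p) :
    SF (del G {v}) (Function.update p v y) := by
  intro w hs hw heq
  refine h w hs hw (fun a => ?_)
  rw [← heq a]
  refine Finset.sum_congr rfl fun b _ => ?_
  by_cases hab : (del G {v}).Adj a b
  · have ha : a ≠ v := fun h => hab.2.1 (by simp [h])
    have hb : b ≠ v := fun h => hab.2.2 (by simp [h])
    rw [Function.update_of_ne ha, Function.update_of_ne hb]
  · rw [hw a b hab, zero_smul, zero_smul]

theorem ind0 {V : Type} [Fintype V] [DecidableEq V] (G : SimpleGraph V) (v : V) (hd : dg G Finset.univ v ≤ 3)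
    (h : Ind (del G {v})) : Ind G := by
  classical
  obtain ⟨p, hF, hp⟩ := exists_SF_GP _ h
  refine ⟨p, SF_vertex G v p hF (fun l hl hsum _ => ?_)⟩
  set S : Finset V := Finset.univ.filter (fun x => G.Adj v x) with hS
  have hcard : S.card ≤ 3 := by
    have h1 : dg G Finset.univ v = S.card := by
      unfold dg
      rw [hS]
    omega
  have hmem : ∀ x, x ∈ S ↔ G.Adj v x := fun x => by simp [hS]
  have hv : v ∉ S := fun h => G.loopless.irrefl v ((hmem v).1 h)
  have hl' : ∀ x, x ∉ S → l x = 0 := fun x hx => hl x (fun h => hx ((hmem x).2 h))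
  have hsum' : ∑ x ∈ S, l x • (p v - p x) = 0 := by
    rw [← hsum]
    refine Finset.sum_subset (Finset.subset_univ S) (fun x _ hx => ?_)
    rw [hl' x hx, zero_smul]
  have key : ∀ x ∈ S, l x = 0 := by
    have h3 : S.card = 0 ∨ S.card = 1 ∨ S.card = 2 ∨ S.card = 3 := by omega
    rcases h3 with h3 | h3 | h3 | h3
    · rw [Finset.card_eq_zero] at h3
      rw [h3]
      simp
    · obtain ⟨b, hb⟩ := Finset.card_eq_one.1 h3
      rw [hb] at hsum' hv ⊢
      rw [Finset.sum_singleton] at hsum'
      have hvb : v ≠ b := fun h => hv (by simp [h])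
      intro x hx
      rw [Finset.mem_singleton] at hx
      subst hx
      rcases smul_eq_zero.1 hsum' with h4 | h4
      · exact h4
      · exact absurd (sub_eq_zero.1 h4) (hp.1 _ _ hvb)
    · obtain ⟨b, c, hbc, hb⟩ := Finset.card_eq_two.1 h3
      rw [hb] at hsum' hv ⊢
      rw [Finset.sum_pair hbc] at hsum'
      simp only [Finset.mem_insert, Finset.mem_singleton, not_or] at hv
      have h5 := li2 (r := l b) (s := l c) (hp.2.1 v b c hv.1 hv.2 hbc) (by
        have h6 : l b • (p b - p v) + l c • (p c - p v) =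
          -(l b • (p v - p b) + l c • (p v - p c)) := by module
        rw [h6, hsum', neg_zero])
      intro x hx
      simp only [Finset.mem_insert, Finset.mem_singleton] at hx
      rcases hx with rfl | rfl
      · exact h5.1
      · exact h5.2
    · obtain ⟨b, c, d, hbc, hbd, hcd, hb⟩ := Finset.card_eq_three.1 h3
      rw [hb] at hsum' hv ⊢
      rw [Finset.sum_insert (by simp [hbc, hbd]), Finset.sum_pair hcd] at hsum'
      simp only [Finset.mem_insert, Finset.mem_singleton, not_or] at hv
      have h5 := li3 (r := l b) (s := l c) (t := l d)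
        (hp.2.2 v b c d hv.1 hv.2.1 hv.2.2 hbc hbd hcd) (by
        have h6 : l b • (p b - p v) + l c • (p c - p v) + l d • (p d - p v) =
          -(l b • (p v - p b) + (l c • (p v - p c) + l d • (p v - p d))) := by module
        rw [h6, hsum', neg_zero])
      intro x hx
      simp only [Finset.mem_insert, Finset.mem_singleton] at hx
      rcases hx with rfl | rfl | rfl
      · exact h5.1
      · exact h5.2.1
      · exact h5.2.2
  intro x
  by_cases hx : x ∈ S
  · exact key x hx
  · exact hl' x hx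

theorem ind1 {V : Type} [Fintype V] [DecidableEq V] (G : SimpleGraph V) (v a b c d : V)
    (hnd : [a, b, c, d].Nodup) (hN : ∀ x, G.Adj v x ↔ (x = a ∨ x = b ∨ x = c ∨ x = d)) (hab : ¬ G.Adj a b)
    (h : Ind (add (del G {v}) a b)) : Ind G := by
  classical
  obtain ⟨p, hF', hp⟩ := exists_SF_GP _ h
  have hva : v ≠ a := (((hN a).2 (Or.inl rfl)) : G.Adj v a).ne
  have hvb : v ≠ b := (((hN b).2 (Or.inr (Or.inl rfl))) : G.Adj v b).ne
  have hvc : v ≠ c := (((hN c).2 (Or.inr (Or.inr (Or.inl rfl)))) : G.Adj v c).ne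
  have hvd : v ≠ d := (((hN d).2 (Or.inr (Or.inr (Or.inr rfl)))) : G.Adj v d).ne
  have hnd' := hnd
  simp only [List.nodup_cons, List.mem_cons, List.not_mem_nil, or_false, not_or] at hnd'
  obtain ⟨⟨h1, h2, h3⟩, ⟨h4, h5⟩, h6, _⟩ := hnd'
  have hle : del G {v} ≤ add (del G {v}) a b := fun x y hxy => Or.inl hxy
  have hF : SF (del G {v}) p := SF_mono hle p hF'
  have hnadj : ¬ (del G {v}).Adj a b := fun h => hab h.1
  obtain ⟨m0, hm0, hm0'⟩ := (SF_add (del G {v}) p a b h1 hnadj hF).1 hF'
  set y : Fin 3 → ℝ := (1 / 2 : ℝ) • (p a + p b) with hy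
  refine ⟨Function.update p v y, SF_vertex G v _ (SF_update G v p y hF) (fun l hl hsum hmot => ?_)⟩
  have hl0 : ∀ x, x ≠ a → x ≠ b → x ≠ c → x ≠ d → l x = 0 := by
    intro x hxa hxb hxc hxd
    apply hl
    rw [hN]
    simp [hxa, hxb, hxc, hxd]
  rw [sum4 _ a b c d hnd (fun x hxa hxb hxc hxd => by rw [hl0 x hxa hxb hxc hxd, zero_smul])]
    at hsum
  simp only [Function.update_self, Function.update_of_ne hva.symm, Function.update_of_ne hvb.symm,
    Function.update_of_ne hvc.symm, Function.update_of_ne hvd.symm] at hsum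
  have h7 := li3 (r := (l a - l b) / 2 + l c / 2 + l d / 2) (s := - l c) (t := - l d)
    (hp.2.2 a b c d h1 h2 h3 h4 h5 h6) (by
      rw [← hsum, hy]
      module)
  have hlc : l c = 0 := by linarith [h7.2.1]
  have hld : l d = 0 := by linarith [h7.2.2]
  have hlab : l a = l b := by
    have := h7.1
    rw [hlc, hld] at this
    linarith
  have h8 := hmot m0 (isMot_update G v p m0 y hm0)
  rw [sum4 _ a b c d hnd (fun x hxa hxb hxc hxd => by rw [hl0 x hxa hxb hxc hxd, zero_mul])] at h8
  simp only [Function.update_self, Function.update_of_ne hva.symm, Function.update_of_ne hvb.symm,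
    Function.update_of_ne hvc.symm, Function.update_of_ne hvd.symm] at h8
  rw [hlc, hld, ← hlab] at h8
  have h9 : y - p a = -((1 / 2 : ℝ) • (p a - p b)) := by rw [hy]; module
  have h10 : y - p b = (1 / 2 : ℝ) • (p a - p b) := by rw [hy]; module
  have h11 : l a * dd p m0 a b = 0 := by
    rw [h9, h10] at h8
    unfold dd
    rw [dotProduct_sub]
    simp only [neg_dotProduct, smul_dotProduct, smul_eq_mul] at h8
    linarith
  have hla : l a = 0 := by
    rcases mul_eq_zero.1 h11 with h | h
    · exact h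
    · exact absurd h hm0'
  intro x
  by_cases hxa : x = a
  · rw [hxa]; exact hla
  by_cases hxb : x = b
  · rw [hxb, ← hlab]; exact hla
  by_cases hxc : x = c
  · rw [hxc]; exact hlc
  by_cases hxd : x = d
  · rw [hxd]; exact hld
  exact hl0 x hxa hxb hxc hxd

end Pool.Agent.Reg5.J2271
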