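import Pool.Agent.Helper927.R5Defs
import Pool.Agent.Helper927.R5x2257
import Pool.Agent.Helper927.R5x2258
import Pool.Agent.Helper927.R5x2260
import Pool.Agent.Helper927.R5x2261
set_option autoImplicit false
set_option maxHeartbeats 4000000

namespace Pool.Agent.Reg5.J2262
open Pool.Agent.Reg5
open Pool.Agent.Reg5.J2261 (J_all)
open Pool.Agent.Reg5.J2261 (K4_not)
open Pool.Agent.Reg5.J2260 (cls_del)
open Pool.Agent.Reg5.J2258 (dg_add_left)
open Pool.Agent.Reg5.J2258 (dg_add_other)
open Pool.Agent.Reg5.J2258 (dg_del)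
open Pool.Agent.Reg5.J2258 (dg_del_mem)
open Pool.Agent.Reg5.J2258 (dg_disj)
open Pool.Agent.Reg5.J2258 (dg_ge)
open Pool.Agent.Reg5.J2258 (dg_insert)
open Pool.Agent.Reg5.J2258 (ie_add)
open Pool.Agent.Reg5.J2258 (ie_del)
open Pool.Agent.Reg5.J2257 (ie_insert)
open Pool.Agent.Reg5.J2257 (ie_mono)
open Pool.Agent.Reg5.J2257 (ie_super)
open Pool.Agent.Reg5.J2257 (ie_three)
open Pool.Agent.Reg5.J2260 (sparse_add)
open Pool.Agent.Reg5.J2260 (sparse_add2)



section aux
variable {V : Type} [Fintype V] [DecidableEq V]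

theorem J_symm (G : SimpleGraph V) {a b : V} (h : J G a b) : J G b a := by
  rcases h with h | ⟨X, h1, h2, h3⟩
  · exact Or.inl h.symm
  · exact Or.inr ⟨X, h1, h3, h2⟩

theorem tight_J (F : SimpleGraph V) (Z : Finset V) (h3 : 3 ≤ Z.card)
    (ht : ie F Z + 6 = 3 * Z.card) {a b : V} (ha : a ∈ Z) (hb : b ∈ Z) (hab : a ≠ b) : J F a b := by
  rcases Nat.lt_or_ge Z.card 4 with h | h
  · have h1 : Z.card = 3 := by omega
    exact Or.inl (ie_three F Z h1 (by omega) a b ha hb hab)
  · exact Or.inr ⟨Z, ⟨h, ht⟩, ha, hb⟩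

theorem deg4 (G : SimpleGraph V) (hG : Cls G) (v x : V) (h : G.Adj v x) :
    dg (del G {v}) Finset.univ x ≤ 4 := by
  have hx : x ∉ ({v} : Finset V) := by
    rw [Finset.mem_singleton]; exact h.ne'
  rw [dg_del G {v} Finset.univ x hx]
  have h1 := (dg_insert G (Finset.univ \ {v}) x v (by simp)).1 h.symm
  have h2 : insert v (Finset.univ \ {v} : Finset V) = Finset.univ := by
    ext y; simp
  rw [h2] at h1
  have := hG.2 x
  omega

theorem dg_add_le (F : SimpleGraph V) (x y u : V) (hxy : x ≠ y) (hn : ¬ F.Adj x y) :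
    dg (add F x y) Finset.univ u ≤ dg F Finset.univ u + (if u = x ∨ u = y then 1 else 0) := by
  obtain ⟨h1, h2⟩ := dg_add_left F x y hxy hn
  by_cases hx : u = x
  · rw [if_pos (Or.inl hx), hx, h1]
  · by_cases hy : u = y
    · rw [if_pos (Or.inr hy), hy, h2]
    · rw [dg_add_other F x y u hx hy]
      omega

theorem del_adj (G : SimpleGraph V) (S : Finset V) (x y : V) :
    (del G S).Adj x y ↔ G.Adj x y ∧ x ∉ S ∧ y ∉ S := Iff.rfl

theorem add_adj (G : SimpleGraph V) (a b x y : V) :
    (add G a b).Adj x y ↔ G.Adj x y ∨ (a ≠ b ∧ ((x = a ∧ y = b) ∨ (x = b ∧ y = a))) := Iff.rfl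

theorem nadj_of_nJ (G : SimpleGraph V) (v x y : V) (hx : G.Adj v x) (hy : G.Adj v y)
    (h : ¬ J (del G {v}) x y) : ¬ G.Adj x y := by
  intro hxy
  apply h
  left
  rw [del_adj]
  exact ⟨hxy, by rw [Finset.mem_singleton]; exact hx.ne', by rw [Finset.mem_singleton]; exact hy.ne'⟩

theorem cls_add2 (F : SimpleGraph V) (x y z w : V) (hxy : x ≠ y) (hzw : z ≠ w)
    (hxz : x ≠ z) (hxw : x ≠ w) (hyz : y ≠ z) (hyw : y ≠ w)
    (hn1 : ¬ F.Adj x y) (hn2 : ¬ F.Adj z w) (hd : ∀ u, dg F Finset.univ u ≤ 5)
    (hx : dg F Finset.univ x ≤ 4) (hy : dg F Finset.univ y ≤ 4)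
    (hz : dg F Finset.univ z ≤ 4) (hw : dg F Finset.univ w ≤ 4)
    (hs : Sparse (add (add F x y) z w)) : Cls (add (add F x y) z w) := by
  refine ⟨hs, fun u => ?_⟩
  have hn3 : ¬ (add F x y).Adj z w := by
    rw [add_adj]
    rintro (h | ⟨_, ⟨h, _⟩ | ⟨h, _⟩⟩)
    · exact hn2 h
    · exact hxz h.symm
    · exact hyz h.symm
  have h1 := dg_add_le (add F x y) z w u hzw hn3
  have h2 := dg_add_le F x y u hxy hn1
  have h3 := hd u
  by_cases e1 : u = x
  · subst e1
    rw [if_neg (by rintro (h | h); exacts [hxz h, hxw h])] at h1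
    rw [if_pos (Or.inl rfl)] at h2
    omega
  by_cases e2 : u = y
  · subst e2
    rw [if_neg (by rintro (h | h); exacts [hyz h, hyw h])] at h1
    rw [if_pos (Or.inr rfl)] at h2
    omega
  rw [if_neg (by rintro (h | h); exacts [e1 h, e2 h])] at h2
  by_cases e3 : u = z
  · subst e3
    rw [if_pos (Or.inl rfl)] at h1
    omega
  by_cases e4 : u = w
  · subst e4
    rw [if_pos (Or.inr rfl)] at h1
    omega
  rw [if_neg (by rintro (h | h); exacts [e3 h, e4 h])] at h1
  omega

/-- bad set missing `m` -/
def Bad (G : SimpleGraph V) (v : V) (NS : Finset V) (m : V) : Prop :=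
  ∃ Y : Finset V, v ∈ Y ∧ (∀ u ∈ NS, u ≠ m → u ∈ Y) ∧ m ∉ Y ∧ ie G Y + 6 = 3 * Y.card

theorem ie_F (G : SimpleGraph V) (v : V) (X : Finset V) (hv : v ∉ X) : ie (del G {v}) X = ie G X := by
  rw [ie_del]
  congr 1
  rw [Finset.sdiff_singleton_eq_erase, Finset.erase_eq_of_notMem hv]

theorem bad_of_matching (G : SimpleGraph V) (hG : Cls G) (v : V) (NS : Finset V) (hcard : NS.card = 5)
    (hNS : ∀ x, G.Adj v x ↔ x ∈ NS)
    (x y z w m : V) (hx : x ∈ NS) (hy : y ∈ NS) (hz : z ∈ NS) (hw : w ∈ NS) (hm : m ∈ NS)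
    (hxy : x ≠ y) (hzw : z ≠ w) (hxz : x ≠ z) (hxw : x ≠ w) (hyz : y ≠ z) (hyw : y ≠ w)
    (hmx : m ≠ x) (hmy : m ≠ y) (hmz : m ≠ z) (hmw : m ≠ w)
    (h1 : ¬ J (del G {v}) x y) (h2 : ¬ J (del G {v}) z w)
    (hfail : ¬ Cls (add (add (del G {v}) x y) z w)) : Bad G v NS m := by
  have hFs : Cls (del G {v}) := cls_del G hG {v}
  rcases sparse_add2 (del G {v}) hFs.1 x y z w hxy hxz hxw hyz hyw hzw h1 h2 with h | h
  · exfalso
    apply hfail
    have ax := (hNS x).2 hx
    have ay := (hNS y).2 hy
    have az := (hNS z).2 hz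
    have aw := (hNS w).2 hw
    exact cls_add2 _ x y z w hxy hzw hxz hxw hyz hyw (fun h => h1 (Or.inl h)) (fun h => h2 (Or.inl h))
      hFs.2 (deg4 G hG v x ax) (deg4 G hG v y ay) (deg4 G hG v z az) (deg4 G hG v w aw) h
  · obtain ⟨X, hxX, hyX, hzX, hwX, hX⟩ := h
    have hX4 : 4 ≤ X.card := by
      have hsub : ({x, y, z, w} : Finset V) ⊆ X := by
        intro u hu
        simp only [Finset.mem_insert, Finset.mem_singleton] at hu
        rcases hu with h | h | h | h <;> rw [h] <;> assumption
      have h4 : ({x, y, z, w} : Finset V).card = 4 := by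
        rw [Finset.card_insert_of_notMem, Finset.card_insert_of_notMem, Finset.card_pair hzw]
        · simp only [Finset.mem_insert, Finset.mem_singleton, not_or]; exact ⟨hyz, hyw⟩
        · simp only [Finset.mem_insert, Finset.mem_singleton, not_or]; exact ⟨hxy, hxz, hxw⟩
      rw [← h4]
      exact Finset.card_le_card hsub
    have hvX : v ∉ X := by
      intro hv
      have e1 : insert v (X.erase v) = X := Finset.insert_erase hv
      have e2 := ie_insert (del G {v}) (X.erase v) v (Finset.notMem_erase v X)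
      rw [e1, dg_del_mem G {v} (X.erase v) v (Finset.mem_singleton_self v)] at e2
      have e3 := hFs.1 (X.erase v) (by rw [Finset.card_erase_of_mem hv]; omega)
      rw [Finset.card_erase_of_mem hv] at e3
      omega
    have hieX := ie_F G v X hvX
    have hcard1 : (insert v X).card = X.card + 1 := Finset.card_insert_of_notMem hvX
    have hins := ie_insert G X v hvX
    have hsp := hG.1 (insert v X) (by omega)
    have hset : ({x, y, z, w, m} : Finset V) = NS := by
      apply Finset.eq_of_subset_of_card_le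
      · intro u hu
        simp only [Finset.mem_insert, Finset.mem_singleton] at hu
        rcases hu with h | h | h | h | h <;> rw [h] <;> assumption
      · rw [hcard]
        rw [Finset.card_insert_of_notMem, Finset.card_insert_of_notMem,
          Finset.card_insert_of_notMem, Finset.card_pair (Ne.symm hmw)]
        · simp only [Finset.mem_insert, Finset.mem_singleton, not_or]
          exact ⟨hzw, Ne.symm hmz⟩
        · simp only [Finset.mem_insert, Finset.mem_singleton, not_or]
          exact ⟨hyz, hyw, Ne.symm hmy⟩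
        · simp only [Finset.mem_insert, Finset.mem_singleton, not_or]
          exact ⟨hxy, hxz, hxw, Ne.symm hmx⟩
    have hmem : ∀ u ∈ NS, u ≠ m → u ∈ X := by
      intro u hu hum
      rw [← hset] at hu
      simp only [Finset.mem_insert, Finset.mem_singleton] at hu
      rcases hu with h | h | h | h | h
      · rw [h]; exact hxX
      · rw [h]; exact hyX
      · rw [h]; exact hzX
      · rw [h]; exact hwX
      · exact absurd h hum
    have hmX : m ∉ X := by
      intro hmX
      have h5 : NS ⊆ X := by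
        intro u hu
        by_cases h : u = m
        · rw [h]; exact hmX
        · exact hmem u hu h
      have h6 := dg_ge G X NS v h5 (fun u hu => (hNS u).2 hu)
      omega
    have h7 : 4 ≤ dg G X v := by
      have h8 := dg_ge G X (NS.erase m) v (fun u hu => hmem u (Finset.mem_of_mem_erase hu)
        (Finset.ne_of_mem_erase hu)) (fun u hu => (hNS u).2 (Finset.mem_of_mem_erase hu))
      rw [Finset.card_erase_of_mem hm] at h8
      omega
    refine ⟨insert v X, Finset.mem_insert_self _ _, fun u hu hum =>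
      Finset.mem_insert_of_mem (hmem u hu hum), ?_, ?_⟩
    · rw [Finset.mem_insert, not_or]
      exact ⟨((hNS m).2 hm).ne', hmX⟩
    · omega

theorem two_bad (G : SimpleGraph V) (hG : Cls G) (v : V) (NS : Finset V) (hcard : NS.card = 5)
    (hNS : ∀ x, G.Adj v x ↔ x ∈ NS) (m m' : V) (hm : m ∈ NS) (hm' : m' ∈ NS) (hmm : m ≠ m')
    (hb : Bad G v NS m) (hb' : Bad G v NS m') (x y : V) (hx : x ∈ NS) (hy : y ∈ NS) (hxy : x ≠ y)
    (hxm : x ≠ m) (hxm' : x ≠ m') (hym : y ≠ m) (hym' : y ≠ m') : J (del G {v}) x y := by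
  obtain ⟨Y, hvY, hY, hmY, hYt⟩ := hb
  obtain ⟨Y', hvY', hY', hmY', hYt'⟩ := hb'
  set S : Finset V := (NS.erase m).erase m' with hS
  have hScard : S.card = 3 := by
    rw [hS, Finset.card_erase_of_mem, Finset.card_erase_of_mem hm, hcard]
    rw [Finset.mem_erase]; exact ⟨Ne.symm hmm, hm'⟩
  have hSI : S ⊆ Y ∩ Y' := by
    intro u hu
    rw [hS, Finset.mem_erase, Finset.mem_erase] at hu
    rw [Finset.mem_inter]
    exact ⟨hY u hu.2.2 hu.2.1, hY' u hu.2.2 hu.1⟩
  have hvS : v ∉ S := by
    intro h
    rw [hS, Finset.mem_erase, Finset.mem_erase] at h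
    exact ((hNS v).2 h.2.2).ne rfl
  have hvI : v ∈ Y ∩ Y' := Finset.mem_inter.2 ⟨hvY, hvY'⟩
  have hsup := ie_super G Y Y'
  have hcu := Finset.card_union_add_card_inter Y Y'
  have hI4 : 4 ≤ (Y ∩ Y').card := by
    have : insert v S ⊆ Y ∩ Y' := Finset.insert_subset hvI hSI
    have h2 := Finset.card_le_card this
    rw [Finset.card_insert_of_notMem hvS, hScard] at h2
    exact h2
  have hU4 : 3 ≤ (Y ∪ Y').card := by
    have : (Y ∩ Y').card ≤ (Y ∪ Y').card := Finset.card_le_card
      (fun u hu => Finset.mem_union_left _ (Finset.mem_inter.1 hu).1)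
    omega
  have s1 := hG.1 (Y ∪ Y') hU4
  have s2 := hG.1 (Y ∩ Y') (by omega)
  set Z : Finset V := (Y ∩ Y').erase v with hZ
  have hvZ : v ∉ Z := Finset.notMem_erase _ _
  have hins : insert v Z = Y ∩ Y' := Finset.insert_erase hvI
  have hie := ie_insert G Z v hvZ
  rw [hins] at hie
  have hZc : Z.card + 1 = (Y ∩ Y').card := by
    rw [hZ, Finset.card_erase_of_mem hvI]; omega
  have hdg : dg G Z v ≤ 3 := by
    rw [← hScard]
    unfold dg
    apply Finset.card_le_card
    intro u hu
    simp only [Finset.mem_filter] at hu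
    obtain ⟨hu1, hu2⟩ := hu
    rw [hZ, Finset.mem_erase, Finset.mem_inter] at hu1
    rw [hS, Finset.mem_erase, Finset.mem_erase]
    refine ⟨?_, ?_, (hNS u).1 hu2⟩
    · intro h; rw [h] at hu1; exact hmY' hu1.2.2
    · intro h; rw [h] at hu1; exact hmY hu1.2.1
  have hs3 := hG.1 Z (by omega)
  have hFZ := ie_F G v Z hvZ
  apply tight_J (del G {v}) Z (by omega) (by omega) _ _ hxy
  · rw [hZ, Finset.mem_erase]
    refine ⟨((hNS x).2 hx).ne', hSI ?_⟩
    rw [hS, Finset.mem_erase, Finset.mem_erase]
    exact ⟨hxm', hxm, hx⟩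
  · rw [hZ, Finset.mem_erase]
    refine ⟨((hNS y).2 hy).ne', hSI ?_⟩
    rw [hS, Finset.mem_erase, Finset.mem_erase]
    exact ⟨hym', hym, hy⟩

theorem four_of_card {S : Finset V} (h : S.card = 4) : ∃ a b c d : V, a ≠ b ∧ a ≠ c ∧ a ≠ d ∧ b ≠ c ∧
    b ≠ d ∧ c ≠ d ∧ S = {a, b, c, d} := by
  have h0 : S.Nonempty := by rw [← Finset.card_pos]; omega
  obtain ⟨a, ha⟩ := h0
  have h1 : (S.erase a).card = 3 := by rw [Finset.card_erase_of_mem ha]; omega
  obtain ⟨b, c, d, hbc, hbd, hcd, hS⟩ := Finset.card_eq_three.1 h1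
  have hb : b ∈ S.erase a := by rw [hS]; simp
  have hc : c ∈ S.erase a := by rw [hS]; simp
  have hd : d ∈ S.erase a := by rw [hS]; simp
  refine ⟨a, b, c, d, (Finset.ne_of_mem_erase hb).symm, (Finset.ne_of_mem_erase hc).symm,
    (Finset.ne_of_mem_erase hd).symm, hbc, hbd, hcd, ?_⟩
  rw [← hS, Finset.insert_erase ha]

/-- four other elements -/
theorem others (NS : Finset V) (hcard : NS.card = 5) (s : V) (hs : s ∈ NS) :
    ∃ a b c d : V, a ≠ b ∧ a ≠ c ∧ a ≠ d ∧ b ≠ c ∧ b ≠ d ∧ c ≠ d ∧ s ≠ a ∧ s ≠ b ∧ s ≠ c ∧ s ≠ d ∧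
      a ∈ NS ∧ b ∈ NS ∧ c ∈ NS ∧ d ∈ NS ∧ (∀ u ∈ NS, u = s ∨ u = a ∨ u = b ∨ u = c ∨ u = d) := by
  have h1 : (NS.erase s).card = 4 := by rw [Finset.card_erase_of_mem hs]; omega
  obtain ⟨a, b, c, d, hab, hac, had, hbc, hbd, hcd, hS⟩ := four_of_card h1
  have ha : a ∈ NS.erase s := by rw [hS]; simp
  have hb : b ∈ NS.erase s := by rw [hS]; simp
  have hc : c ∈ NS.erase s := by rw [hS]; simp
  have hd : d ∈ NS.erase s := by rw [hS]; simp
  refine ⟨a, b, c, d, hab, hac, had, hbc, hbd, hcd, (Finset.ne_of_mem_erase ha).symm,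
    (Finset.ne_of_mem_erase hb).symm, (Finset.ne_of_mem_erase hc).symm,
    (Finset.ne_of_mem_erase hd).symm, Finset.mem_of_mem_erase ha, Finset.mem_of_mem_erase hb,
    Finset.mem_of_mem_erase hc, Finset.mem_of_mem_erase hd, ?_⟩
  intro u hu
  by_cases h : u = s
  · exact Or.inl h
  · right
    have : u ∈ NS.erase s := Finset.mem_erase.2 ⟨h, hu⟩
    rw [hS] at this
    simpa using this

/-- no element which is joined (in the `J` sense) to the four others can be missed by a bad set -/
theorem bad_not_J (G : SimpleGraph V) (hG : Cls G) (v : V) (NS : Finset V) (hcard : NS.card = 5)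
    (hNS : ∀ x, G.Adj v x ↔ x ∈ NS) (m : V) (hm : m ∈ NS) (hb : Bad G v NS m)
    (hJ : ∀ x ∈ NS, x ≠ m → J (del G {v}) m x) : False := by
  obtain ⟨a, b, c, d, hab, hac, had, hbc, hbd, hcd, hsa, hsb, hsc, hsd, ha, hb', hc, hd, hall⟩ :=
    others NS hcard m hm
  obtain ⟨_, j1, j2, j3, j4⟩ := J_all G hG v m a b c d ((hNS m).2 hm) ((hNS a).2 ha) ((hNS b).2 hb')
    ((hNS c).2 hc) ((hNS d).2 hd) hsa hsb hsc hsd hab hac had hbc hbd hcd
    (hJ a ha hsa.symm) (hJ b hb' hsb.symm) (hJ c hc hsc.symm) (hJ d hd hsd.symm)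
  obtain ⟨Y, hvY, hY, hmY, hYt⟩ := hb
  have h1 := ie_insert G Y m hmY
  have hsub : insert v (NS.erase m) ⊆ Y := by
    apply Finset.insert_subset hvY
    intro u hu
    exact hY u (Finset.mem_of_mem_erase hu) (Finset.ne_of_mem_erase hu)
  have hvn : v ∉ NS.erase m := by
    intro h
    exact ((hNS v).2 (Finset.mem_of_mem_erase h)).ne rfl
  have h2 := dg_ge G Y (insert v (NS.erase m)) m hsub (by
    intro u hu
    rcases Finset.mem_insert.1 hu with h | h
    · rw [h]; exact ((hNS m).2 hm).symm
    · rcases hall u (Finset.mem_of_mem_erase h) with h' | h' | h' | h' | h'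
      · exact absurd h' (Finset.ne_of_mem_erase h)
      · rw [h']; exact j1
      · rw [h']; exact j2
      · rw [h']; exact j3
      · rw [h']; exact j4)
  rw [Finset.card_insert_of_notMem hvn, Finset.card_erase_of_mem hm] at h2
  have h3 : 5 ≤ Y.card := by
    have := Finset.card_le_card hsub
    rw [Finset.card_insert_of_notMem hvn, Finset.card_erase_of_mem hm] at this
    omega
  have h4 := hG.1 (insert m Y) (by rw [Finset.card_insert_of_notMem hmY]; omega)
  rw [Finset.card_insert_of_notMem hmY] at h4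
  omega

/-- neighbours of `d` -/
theorem nbrs5 (G : SimpleGraph V) (hG : Cls G) (d a b c e v : V) (hab : a ≠ b) (hac : a ≠ c)
    (hae : a ≠ e) (hav : a ≠ v) (hbc : b ≠ c) (hbe : b ≠ e) (hbv : b ≠ v) (hce : c ≠ e) (hcv : c ≠ v)
    (hev : e ≠ v) (h1 : G.Adj d a) (h2 : G.Adj d b) (h3 : G.Adj d c) (h4 : G.Adj d e)
    (h5 : G.Adj d v) (x : V) : G.Adj d x ↔ (x = a ∨ x = b ∨ x = c ∨ x = e ∨ x = v) := by
  constructor
  · intro hx
    by_contra hcon
    push Not at hcon
    obtain ⟨n1, n2, n3, n4, n5⟩ := hcon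
    have hc6 : ({x, a, b, c, e, v} : Finset V).card = 6 := by
      rw [Finset.card_insert_of_notMem, Finset.card_insert_of_notMem,
        Finset.card_insert_of_notMem, Finset.card_insert_of_notMem, Finset.card_pair hev]
      · simp only [Finset.mem_insert, Finset.mem_singleton, not_or]
        exact ⟨hce, hcv⟩
      · simp only [Finset.mem_insert, Finset.mem_singleton, not_or]
        exact ⟨hbc, hbe, hbv⟩
      · simp only [Finset.mem_insert, Finset.mem_singleton, not_or]
        exact ⟨hab, hac, hae, hav⟩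
      · simp only [Finset.mem_insert, Finset.mem_singleton, not_or]
        exact ⟨n1, n2, n3, n4, n5⟩
    have h6 := dg_ge G Finset.univ {x, a, b, c, e, v} d (Finset.subset_univ _) (by
      intro u hu
      simp only [Finset.mem_insert, Finset.mem_singleton] at hu
      rcases hu with h | h | h | h | h | h <;> rw [h] <;> assumption)
    have := hG.2 d
    omega
  · rintro (h | h | h | h | h) <;> rw [h] <;> assumption

end aux


/-- the triangle alternative: the new graph is in the class -/
theorem cls_tri {V : Type} [Fintype V] [DecidableEq V] (G : SimpleGraph V) (hG : Cls G)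
    (v a b c d e : V) (hab : a ≠ b) (hac : a ≠ c) (had : a ≠ d) (hae : a ≠ e)
    (hbc : b ≠ c) (hbd : b ≠ d) (hbe : b ≠ e) (hcd : c ≠ d) (hce : c ≠ e) (hde : d ≠ e)
    (va : G.Adj v a) (vb : G.Adj v b) (vc : G.Adj v c) (vd : G.Adj v d) (ve : G.Adj v e)
    (da : G.Adj d a) (db : G.Adj d b) (dc : G.Adj d c) (ed : G.Adj e d)
    (ea : G.Adj e a) (eb : G.Adj e b) (ec : G.Adj e c)
    (nab : ¬ J (del G {v}) a b) (nbc : ¬ J (del G {v}) b c) (nca : ¬ J (del G {v}) c a) :
    Cls (add (add (add (del G {v, d, e}) a b) b c) c a) := by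
  set H := del G {v, d, e} with hH
  have hav : a ≠ v := va.ne'
  have hbv : b ≠ v := vb.ne'
  have hcv : c ≠ v := vc.ne'
  have hdv : d ≠ v := vd.ne'
  have hev : e ≠ v := ve.ne'
  have nab' := nadj_of_nJ G v a b va vb nab
  have nbc' := nadj_of_nJ G v b c vb vc nbc
  have nca' := nadj_of_nJ G v c a vc va nca
  have m1 : ¬ H.Adj a b := fun h => nab' h.1
  have m2 : ¬ (add H a b).Adj b c := by
    rw [add_adj]
    rintro (h | ⟨_, ⟨h, _⟩ | ⟨_, h⟩⟩)
    · exact nbc' h.1
    · exact hab h.symm
    · exact hac h.symm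
  have m3 : ¬ (add (add H a b) b c).Adj c a := by
    rw [add_adj, add_adj]
    rintro ((h | ⟨_, ⟨h, _⟩ | ⟨h, _⟩⟩) | ⟨_, ⟨h, _⟩ | ⟨_, h⟩⟩)
    · exact nca' h.1
    · exact hac h.symm
    · exact hbc h.symm
    · exact hbc h.symm
    · exact hab h
  have hca : c ≠ a := hac.symm
  have hdegH : ∀ u, dg H Finset.univ u ≤ 5 := (cls_del G hG {v, d, e}).2
  have hdeg2 : ∀ u, G.Adj u v → G.Adj u d → G.Adj u e → u ≠ v → u ≠ d → u ≠ e →
      dg H Finset.univ u ≤ 2 := by
    intro u h1 h2 h3 n1 n2 n3
    have hu : u ∉ ({v, d, e} : Finset V) := by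
      simp only [Finset.mem_insert, Finset.mem_singleton, not_or]; exact ⟨n1, n2, n3⟩
    rw [hH, dg_del G {v, d, e} Finset.univ u hu]
    have h4 := dg_disj G (Finset.univ \ {v, d, e}) {v, d, e} u Finset.sdiff_disjoint
    have h5 : (Finset.univ \ {v, d, e} ∪ {v, d, e} : Finset V) = Finset.univ := by
      ext y; simp only [Finset.mem_union, Finset.mem_sdiff, Finset.mem_univ, true_and, iff_true]
      exact (em _).symm
    rw [h5] at h4
    have h6 := dg_ge G {v, d, e} {v, d, e} u (Finset.Subset.refl _) (by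
      intro y hy
      simp only [Finset.mem_insert, Finset.mem_singleton] at hy
      rcases hy with h | h | h <;> rw [h] <;> assumption)
    have h7 : ({v, d, e} : Finset V).card = 3 := by
      rw [Finset.card_insert_of_notMem, Finset.card_pair hde]
      simp only [Finset.mem_insert, Finset.mem_singleton, not_or]
      exact ⟨hdv.symm, hev.symm⟩
    have h8 := hG.2 u
    omega
  constructor
  · intro X hX
    rw [ie_add _ c a hca m3, ie_add _ b c hbc m2, ie_add _ a b hab m1, hH, ie_del]
    have hsubv : X \ {v, d, e} ⊆ X \ {v} := by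
      intro u hu
      simp only [Finset.mem_sdiff, Finset.mem_insert, Finset.mem_singleton, not_or] at hu ⊢
      exact ⟨hu.1, hu.2.1⟩
    have hmono := ie_mono G hsubv
    have hFs : Sparse (del G {v}) := (cls_del G hG {v}).1
    -- one pair
    have hone : ∀ x y, x ∈ X → y ∈ X → x ≠ y → ¬ J (del G {v}) x y →
        ie G (X \ {v, d, e}) + 1 + 6 ≤ 3 * X.card := by
      intro x y hx hy hxy hJ
      have h1 := sparse_add (del G {v}) hFs x y hxy hJ X hX
      rw [ie_add _ x y hxy (fun h => hJ (Or.inl h)), if_pos ⟨hx, hy⟩, ie_del] at h1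
      omega
    by_cases ha : a ∈ X
    · by_cases hb : b ∈ X
      · by_cases hc : c ∈ X
        · -- all three
          simp only [ha, hb, hc, and_self, if_true]
          set X' := X \ {v, d, e} with hX'
          have hvX' : v ∉ X' := by rw [hX']; simp
          have hdX' : d ∉ X' := by rw [hX']; simp
          have heX' : e ∉ X' := by rw [hX']; simp
          have haX' : a ∈ X' := by
            rw [hX']; simp only [Finset.mem_sdiff, Finset.mem_insert, Finset.mem_singleton, not_or]
            exact ⟨ha, hav, had, hae⟩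
          have hbX' : b ∈ X' := by
            rw [hX']; simp only [Finset.mem_sdiff, Finset.mem_insert, Finset.mem_singleton, not_or]
            exact ⟨hb, hbv, hbd, hbe⟩
          have hcX' : c ∈ X' := by
            rw [hX']; simp only [Finset.mem_sdiff, Finset.mem_insert, Finset.mem_singleton, not_or]
            exact ⟨hc, hcv, hcd, hce⟩
          have h3 : ({a, b, c} : Finset V).card = 3 := by
            rw [Finset.card_insert_of_notMem, Finset.card_pair hbc]
            simp only [Finset.mem_insert, Finset.mem_singleton, not_or]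
            exact ⟨hab, hac⟩
          have hvabc : v ∉ ({a, b, c} : Finset V) := by
            simp only [Finset.mem_insert, Finset.mem_singleton, not_or]
            exact ⟨hav.symm, hbv.symm, hcv.symm⟩
          have h4 : ({v, a, b, c} : Finset V).card = 4 := by
            rw [Finset.card_insert_of_notMem hvabc, h3]
          have hdvabc : d ∉ ({v, a, b, c} : Finset V) := by
            simp only [Finset.mem_insert, Finset.mem_singleton, not_or]
            exact ⟨hdv, had.symm, hbd.symm, hcd.symm⟩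
          have h5 : ({d, v, a, b, c} : Finset V).card = 5 := by
            rw [Finset.card_insert_of_notMem hdvabc, h4]
          have g1 := dg_ge G X' {a, b, c} v (by
            intro u hu
            simp only [Finset.mem_insert, Finset.mem_singleton] at hu
            rcases hu with h | h | h <;> rw [h] <;> assumption) (by
            intro u hu
            simp only [Finset.mem_insert, Finset.mem_singleton] at hu
            rcases hu with h | h | h <;> rw [h] <;> assumption)
          have g2 := dg_ge G (insert v X') {v, a, b, c} d (by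
            intro u hu
            simp only [Finset.mem_insert, Finset.mem_singleton] at hu ⊢
            rcases hu with h | h | h | h
            · exact Or.inl h
            · right; rw [h]; exact haX'
            · right; rw [h]; exact hbX'
            · right; rw [h]; exact hcX') (by
            intro u hu
            simp only [Finset.mem_insert, Finset.mem_singleton] at hu
            rcases hu with h | h | h | h <;> rw [h]
            · exact vd.symm
            · exact da
            · exact db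
            · exact dc)
          have g3 := dg_ge G (insert d (insert v X')) {d, v, a, b, c} e (by
            intro u hu
            simp only [Finset.mem_insert, Finset.mem_singleton] at hu ⊢
            rcases hu with h | h | h | h | h
            · exact Or.inl h
            · exact Or.inr (Or.inl h)
            · right; right; rw [h]; exact haX'
            · right; right; rw [h]; exact hbX'
            · right; right; rw [h]; exact hcX') (by
            intro u hu
            simp only [Finset.mem_insert, Finset.mem_singleton] at hu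
            rcases hu with h | h | h | h | h <;> rw [h]
            · exact ed
            · exact ve.symm
            · exact ea
            · exact eb
            · exact ec)
          have n1 : d ∉ insert v X' := by
            rw [Finset.mem_insert, not_or]; exact ⟨hdv, hdX'⟩
          have n2 : e ∉ insert d (insert v X') := by
            rw [Finset.mem_insert, Finset.mem_insert, not_or, not_or]
            exact ⟨hde.symm, hev, heX'⟩
          have i1 := ie_insert G X' v hvX'
          have i2 := ie_insert G (insert v X') d n1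
          have i3 := ie_insert G (insert d (insert v X')) e n2
          have c1 := Finset.card_insert_of_notMem hvX'
          have c2 := Finset.card_insert_of_notMem n1
          have c3 := Finset.card_insert_of_notMem n2
          have hsp := hG.1 (insert e (insert d (insert v X'))) (by omega)
          have hle : X'.card ≤ X.card := Finset.card_le_card Finset.sdiff_subset
          omega
        · simp only [ha, hb, hc, and_self, and_true, true_and, and_false, false_and, if_true, if_false]
          have := hone a b ha hb hab nab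
          omega
      · by_cases hc : c ∈ X
        · simp only [ha, hb, hc, and_self, and_true, true_and, and_false, false_and, if_true, if_false]
          have := hone c a hc ha hca nca
          omega
        · simp only [ha, hb, hc, and_self, and_true, true_and, and_false, false_and, if_true, if_false]
          have h1 := hFs X hX
          rw [ie_del] at h1
          omega
    · by_cases hb : b ∈ X
      · by_cases hc : c ∈ X
        · simp only [ha, hb, hc, and_self, and_true, true_and, and_false, false_and, if_true, if_false]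
          have := hone b c hb hc hbc nbc
          omega
        · simp only [ha, hb, hc, and_self, and_true, true_and, and_false, false_and, if_true, if_false]
          have h1 := hFs X hX
          rw [ie_del] at h1
          omega
      · simp only [ha, hb, and_self, and_true, true_and, and_false, false_and, if_true, if_false]
        have h1 := hFs X hX
        rw [ie_del] at h1
        omega
  · intro u
    have t1 := dg_add_le (add (add H a b) b c) c a u hca m3
    have t2 := dg_add_le (add H a b) b c u hbc m2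
    have t3 := dg_add_le H a b u hab m1
    by_cases e1 : u = a
    · subst e1
      have := hdeg2 u va.symm da.symm ea.symm hav had hae
      split_ifs at t1 t2 t3 <;> omega
    by_cases e2 : u = b
    · subst e2
      have := hdeg2 u vb.symm db.symm eb.symm hbv hbd hbe
      split_ifs at t1 t2 t3 <;> omega
    by_cases e3 : u = c
    · subst e3
      have := hdeg2 u vc.symm dc.symm ec.symm hcv hcd hce
      split_ifs at t1 t2 t3 <;> omega
    rw [if_neg (by rintro (h | h); exacts [e3 h, e1 h])] at t1
    rw [if_neg (by rintro (h | h); exacts [e2 h, e3 h])] at t2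
    rw [if_neg (by rintro (h | h); exacts [e1 h, e2 h])] at t3
    have := hdegH u
    omega

theorem D2_comb {V : Type} [Fintype V] [DecidableEq V] (G : SimpleGraph V) (hG : Cls G) (v a1 a2 a3 a4 a5 : V)
    (hnd : [a1, a2, a3, a4, a5].Nodup)
    (hN : ∀ x, G.Adj v x ↔ (x = a1 ∨ x = a2 ∨ x = a3 ∨ x = a4 ∨ x = a5)) :
    (∃ x y z w : V, [x, y, z, w].Nodup ∧ G.Adj v x ∧ G.Adj v y ∧ G.Adj v z ∧ G.Adj v w ∧
      ¬ G.Adj x y ∧ ¬ G.Adj z w ∧ Cls (add (add (del G {v}) x y) z w)) ∨
    (∃ a b c d e : V, [a, b, c, d, e].Nodup ∧ (∀ x, G.Adj v x ↔ (x = a ∨ x = b ∨ x = c ∨ x = d ∨ x = e)) ∧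
      ¬ G.Adj a b ∧ ¬ G.Adj b c ∧ ¬ G.Adj c a ∧
      (∀ x, G.Adj d x ↔ (x = a ∨ x = b ∨ x = c ∨ x = e ∨ x = v)) ∧
      (∀ x, G.Adj e x ↔ (x = a ∨ x = b ∨ x = c ∨ x = d ∨ x = v)) ∧
      Cls (add (add (add (del G {v, d, e}) a b) b c) c a)) := by
  classical
  by_cases hfirst : (∃ x y z w : V, [x, y, z, w].Nodup ∧ G.Adj v x ∧ G.Adj v y ∧ G.Adj v z ∧ G.Adj v w ∧
      ¬ G.Adj x y ∧ ¬ G.Adj z w ∧ Cls (add (add (del G {v}) x y) z w))
  · exact Or.inl hfirst
  right
  set NS : Finset V := {a1, a2, a3, a4, a5} with hNSdef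
  have hcard : NS.card = 5 := by
    have h1 : NS = [a1, a2, a3, a4, a5].toFinset := by
      rw [hNSdef]; ext x; simp
    rw [h1, List.toFinset_card_of_nodup hnd]
    rfl
  have hNS : ∀ x, G.Adj v x ↔ x ∈ NS := by
    intro x
    rw [hN x, hNSdef]
    simp
  -- every matching is bad
  have hbad : ∀ x y z w m : V, x ∈ NS → y ∈ NS → z ∈ NS → w ∈ NS → m ∈ NS → x ≠ y → z ≠ w →
      x ≠ z → x ≠ w → y ≠ z → y ≠ w → m ≠ x → m ≠ y → m ≠ z → m ≠ w →
      ¬ J (del G {v}) x y → ¬ J (del G {v}) z w → Bad G v NS m := by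
    intro x y z w m hx hy hz hw hm hxy hzw hxz hxw hyz hyw hmx hmy hmz hmw h1 h2
    apply bad_of_matching G hG v NS hcard hNS x y z w m hx hy hz hw hm hxy hzw hxz hxw hyz hyw
      hmx hmy hmz hmw h1 h2
    intro hcls
    apply hfirst
    refine ⟨x, y, z, w, ?_, (hNS x).2 hx, (hNS y).2 hy, (hNS z).2 hz, (hNS w).2 hw,
      nadj_of_nJ G v x y ((hNS x).2 hx) ((hNS y).2 hy) h1,
      nadj_of_nJ G v z w ((hNS z).2 hz) ((hNS w).2 hw) h2, hcls⟩
    simp only [List.nodup_cons, List.mem_cons, List.not_mem_nil, or_false, not_or, not_false_eq_true,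
      List.nodup_nil, and_true]
    exact ⟨⟨hxy, hxz, hxw⟩, ⟨hyz, hyw⟩, hzw⟩
  -- no 2-matching
  have hnomatch : ∀ x y z w : V, x ∈ NS → y ∈ NS → z ∈ NS → w ∈ NS → x ≠ y → z ≠ w →
      x ≠ z → x ≠ w → y ≠ z → y ≠ w →
      ¬ J (del G {v}) x y → ¬ J (del G {v}) z w → False := by
    intro x y z w hx hy hz hw hxy hzw hxz hxw hyz hyw h1 h2
    -- the fifth element
    obtain ⟨m, hm, hmx, hmy, hmz, hmw⟩ : ∃ m ∈ NS, m ≠ x ∧ m ≠ y ∧ m ≠ z ∧ m ≠ w := by
      have hlt : ({x, y, z, w} : Finset V).card < NS.card := by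
        rw [hcard]
        have := Finset.card_le_four (a := x) (b := y) (c := z) (d := w)
        omega
      obtain ⟨m, hm, hm'⟩ := Finset.exists_mem_notMem_of_card_lt_card hlt
      simp only [Finset.mem_insert, Finset.mem_singleton, not_or] at hm'
      exact ⟨m, hm, hm'⟩
    have hallset : ∀ u ∈ NS, u = x ∨ u = y ∨ u = z ∨ u = w ∨ u = m := by
      have hset : ({x, y, z, w, m} : Finset V) = NS := by
        apply Finset.eq_of_subset_of_card_le
        · intro u hu
          simp only [Finset.mem_insert, Finset.mem_singleton] at hu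
          rcases hu with h | h | h | h | h <;> rw [h] <;> assumption
        · rw [hcard]
          rw [Finset.card_insert_of_notMem, Finset.card_insert_of_notMem,
            Finset.card_insert_of_notMem, Finset.card_pair (Ne.symm hmw)]
          · simp only [Finset.mem_insert, Finset.mem_singleton, not_or]
            exact ⟨hzw, Ne.symm hmz⟩
          · simp only [Finset.mem_insert, Finset.mem_singleton, not_or]
            exact ⟨hyz, hyw, Ne.symm hmy⟩
          · simp only [Finset.mem_insert, Finset.mem_singleton, not_or]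
            exact ⟨hxy, hxz, hxw, Ne.symm hmx⟩
      intro u hu
      rw [← hset] at hu
      simpa using hu
    have hBm := hbad x y z w m hx hy hz hw hm hxy hzw hxz hxw hyz hyw hmx hmy hmz hmw h1 h2
    -- a second bad vertex is impossible
    have huniq : ∀ m' ∈ NS, m' ≠ m → ¬ Bad G v NS m' := by
      intro m' hm' hne hB'
      have hall2 := two_bad G hG v NS hcard hNS m m' hm hm' hne.symm hBm hB'
      rcases hallset m' hm' with h | h | h | h | h
      · exact h2 (hall2 z w hz hw hzw hmz.symm (by rw [h]; exact hxz.symm) hmw.symm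
          (by rw [h]; exact hxw.symm))
      · exact h2 (hall2 z w hz hw hzw hmz.symm (by rw [h]; exact hyz.symm) hmw.symm
          (by rw [h]; exact hyw.symm))
      · exact h1 (hall2 x y hx hy hxy hmx.symm (by rw [h]; exact hxz) hmy.symm
          (by rw [h]; exact hyz))
      · exact h1 (hall2 x y hx hy hxy hmx.symm (by rw [h]; exact hxw) hmy.symm
          (by rw [h]; exact hyw))
      · exact hne h
    apply bad_not_J G hG v NS hcard hNS m hm hBm
    intro u hu hum
    by_contra hJ
    rcases hallset u hu with h | h | h | h | h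
    · -- u = x: matching m x, z w missing y
      rw [h] at hJ
      exact huniq y hy hmy.symm (hbad m x z w y hm hx hz hw hy hmx hzw hmz hmw hxz hxw hmy.symm
        hxy.symm hyz hyw hJ h2)
    · rw [h] at hJ
      exact huniq x hx hmx.symm (hbad m y z w x hm hy hz hw hx hmy hzw hmz hmw hyz hyw hmx.symm
        hxy hxz hxw hJ h2)
    · rw [h] at hJ
      exact huniq w hw hmw.symm (hbad m z x y w hm hz hx hy hw hmz hxy hmx hmy hxz.symm hyz.symm
        hmw.symm hzw.symm hxw.symm hyw.symm hJ h1)
    · rw [h] at hJ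
      exact huniq z hz hmz.symm (hbad m w x y z hm hw hx hy hz hmw hxy hmx hmy hxw.symm hyw.symm
        hmz.symm hzw hxz.symm hyz.symm hJ h1)
    · exact hum h
  -- no star
  have hstar : ∀ s ∈ NS, ∃ x y : V, x ∈ NS ∧ y ∈ NS ∧ x ≠ y ∧ x ≠ s ∧ y ≠ s ∧
      ¬ J (del G {v}) x y := by
    intro s hs
    obtain ⟨a, b, c, d, hab, hac, had, hbc, hbd, hcd, hsa, hsb, hsc, hsd, ha, hb, hc, hd, _⟩ :=
      others NS hcard s hs
    by_contra hcon
    push Not at hcon
    apply K4_not G hG v a b c d ((hNS a).2 ha) ((hNS b).2 hb) ((hNS c).2 hc) ((hNS d).2 hd)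
      hab hac had hbc hbd hcd
    exact ⟨hcon a b ha hb hab hsa.symm hsb.symm, hcon a c ha hc hac hsa.symm hsc.symm,
      hcon a d ha hd had hsa.symm hsd.symm, hcon b c hb hc hbc hsb.symm hsc.symm,
      hcon b d hb hd hbd hsb.symm hsd.symm, hcon c d hc hd hcd hsc.symm hsd.symm⟩
  have ha1 : a1 ∈ NS := by rw [hNSdef]; simp
  obtain ⟨a, b, ha, hb, hab, _, _, nab⟩ := hstar a1 ha1
  have nba : ¬ J (del G {v}) b a := fun h => nab (J_symm _ h)
  -- an edge avoiding `a` contains `b`
  obtain ⟨c, hc, hca, hcb, nbc⟩ : ∃ c ∈ NS, c ≠ a ∧ c ≠ b ∧ ¬ J (del G {v}) b c := by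
    obtain ⟨x, y, hx, hy, hxy, hxa, hya, nxy⟩ := hstar a ha
    by_cases h : x = b
    · refine ⟨y, hy, hya, fun h' => hxy (h.trans h'.symm), ?_⟩
      rw [← h]; exact nxy
    · by_cases h' : y = b
      · refine ⟨x, hx, hxa, h, ?_⟩
        rw [← h']; exact fun hh => nxy (J_symm _ hh)
      · exact (hnomatch a b x y ha hb hx hy hab hxy hxa.symm hya.symm (Ne.symm h) (Ne.symm h')
          nab nxy).elim
  have nca : ¬ J (del G {v}) c a := by
    obtain ⟨x, y, hx, hy, hxy, hxb, hyb, nxy⟩ := hstar b hb
    -- `xy` meets `ab` in `a`, and `bc` in `c`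
    have hxa : x = a ∨ y = a := by
      by_contra hcon
      push Not at hcon
      exact hnomatch a b x y ha hb hx hy hab hxy hcon.1.symm hcon.2.symm hxb.symm hyb.symm nab nxy
    have hxc : x = c ∨ y = c := by
      by_contra hcon
      push Not at hcon
      exact hnomatch b c x y hb hc hx hy hcb.symm hxy hxb.symm hyb.symm hcon.1.symm hcon.2.symm
        nbc nxy
    rcases hxa with h | h
    · rcases hxc with h' | h'
      · exact absurd (h'.symm.trans h) hca
      · rw [h, h'] at nxy
        exact fun hh => nxy (J_symm _ hh)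
    · rcases hxc with h' | h'
      · rw [h, h'] at nxy
        exact nxy
      · exact absurd (h'.symm.trans h) hca
  have nac : ¬ J (del G {v}) a c := fun h => nca (J_symm _ h)
  have ncb : ¬ J (del G {v}) c b := fun h => nbc (J_symm _ h)
  -- the two others
  have hS2 : (((NS.erase a).erase b).erase c).card = 2 := by
    rw [Finset.card_erase_of_mem, Finset.card_erase_of_mem, Finset.card_erase_of_mem ha, hcard]
    · exact Finset.mem_erase.2 ⟨hab.symm, hb⟩
    · exact Finset.mem_erase.2 ⟨hcb, Finset.mem_erase.2 ⟨hca, hc⟩⟩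
  obtain ⟨d, e, hde, hS⟩ := Finset.card_eq_two.1 hS2
  have hdm : d ∈ ((NS.erase a).erase b).erase c := by rw [hS]; simp
  have hem : e ∈ ((NS.erase a).erase b).erase c := by rw [hS]; simp
  simp only [Finset.mem_erase] at hdm hem
  obtain ⟨hdc, hdb, hda, hd⟩ := hdm
  obtain ⟨hec, heb, hea, he⟩ := hem
  have hall : ∀ u ∈ NS, u = a ∨ u = b ∨ u = c ∨ u = d ∨ u = e := by
    intro u hu
    by_cases h1 : u = a
    · exact Or.inl h1
    by_cases h2 : u = b
    · exact Or.inr (Or.inl h2)
    by_cases h3 : u = c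
    · exact Or.inr (Or.inr (Or.inl h3))
    right; right; right
    have : u ∈ ((NS.erase a).erase b).erase c := by
      simp only [Finset.mem_erase]
      exact ⟨h3, h2, h1, hu⟩
    rw [hS] at this
    simpa using this
  -- everything else is J
  have jd : ∀ s ∈ NS, s ≠ a → s ≠ b → s ≠ c → ∀ t ∈ NS, t ≠ s → J (del G {v}) s t := by
    intro s hs hsa hsb hsc t ht hts
    by_contra hJ
    by_cases h1 : t = a
    · rw [h1] at hJ hts
      exact hnomatch b c s a hb hc hs ha hcb.symm hsa hsb.symm hab.symm hsc.symm hca nbc hJ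
    · by_cases h2 : t = b
      · rw [h2] at hJ hts
        exact hnomatch c a s b hc ha hs hb hca hsb hsc.symm hcb hsa.symm hab nca hJ
      · exact hnomatch a b s t ha hb hs ht hab hts.symm hsa.symm (Ne.symm h1) hsb.symm
          (Ne.symm h2) nab hJ
  have va := (hNS a).2 ha
  have vb := (hNS b).2 hb
  have vc := (hNS c).2 hc
  have vd := (hNS d).2 hd
  have ve := (hNS e).2 he
  obtain ⟨_, da, db, dc, de⟩ := J_all G hG v d a b c e vd va vb vc ve hda hdb hdc hde
    hab hca.symm hea.symm hcb.symm heb.symm hec.symm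
    (jd d hd hda hdb hdc a ha hda.symm) (jd d hd hda hdb hdc b hb hdb.symm)
    (jd d hd hda hdb hdc c hc hdc.symm) (jd d hd hda hdb hdc e he hde.symm)
  obtain ⟨_, ea, eb, ec, ed⟩ := J_all G hG v e a b c d ve va vb vc vd hea heb hec hde.symm
    hab hca.symm hda.symm hcb.symm hdb.symm hdc.symm
    (jd e he hea heb hec a ha hea.symm) (jd e he hea heb hec b hb heb.symm)
    (jd e he hea heb hec c hc hec.symm) (jd e he hea heb hec d hd hde)
  refine ⟨a, b, c, d, e, ?_, ?_, nadj_of_nJ G v a b va vb nab, nadj_of_nJ G v b c vb vc nbc,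
    nadj_of_nJ G v c a vc va nca, ?_, ?_, ?_⟩
  · simp only [List.nodup_cons, List.mem_cons, List.not_mem_nil, or_false, not_or, not_false_eq_true,
      List.nodup_nil, and_true]
    exact ⟨⟨hab, hca.symm, hda.symm, hea.symm⟩, ⟨hcb.symm, hdb.symm, heb.symm⟩, ⟨hdc.symm, hec.symm⟩,
      hde⟩
  · intro x
    rw [hNS]
    constructor
    · exact hall x
    · rintro (h | h | h | h | h) <;> rw [h] <;> assumption
  · exact nbrs5 G hG d a b c e v hab hca.symm hea.symm va.ne' hcb.symm heb.symm vb.ne' hec.symm
      vc.ne' ve.ne' da db dc de vd.symm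
  · exact nbrs5 G hG e a b c d v hab hca.symm hda.symm va.ne' hcb.symm hdb.symm vb.ne' hdc.symm
      vc.ne' vd.ne' ea eb ec ed ve.symm
  · exact cls_tri G hG v a b c d e hab hca.symm hda.symm hea.symm hcb.symm hdb.symm heb.symm
      hdc.symm hec.symm hde va vb vc vd ve da db dc ed ea eb ec nab nbc nca

end Pool.Agent.Reg5.J2262
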