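import Pool.Agent.Helper927.R5Defs
import Pool.Agent.Helper927.R5x2271
set_option autoImplicit false
set_option maxHeartbeats 4000000

namespace Pool.Agent.Reg5.J2274
open Pool.Agent.Reg5
open Pool.Agent.Reg5.J2271 (ind0)
open Pool.Agent.Reg5.J2271 (ind1)


private lemma add_adj {V : Type} [Fintype V] [DecidableEq V] (G : SimpleGraph V) {a b : V} (hab : a ≠ b)
    (x y : V) : (add G a b).Adj x y ↔ G.Adj x y ∨ ((x = a ∧ y = b) ∨ (x = b ∧ y = a)) := by
  have h1 : (add G a b).Adj x y ↔ G.Adj x y ∨ (a ≠ b ∧ ((x = a ∧ y = b) ∨ (x = b ∧ y = a))) := Iff.rfl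
  rw [h1]
  constructor
  · rintro (h | h)
    · exact Or.inl h
    · exact Or.inr h.2
  · rintro (h | h)
    · exact Or.inl h
    · exact Or.inr ⟨hab, h⟩

private lemma del_adj {V : Type} [Fintype V] [DecidableEq V] (G : SimpleGraph V) (v x y : V) :
    (del G {v}).Adj x y ↔ G.Adj x y ∧ x ≠ v ∧ y ≠ v := by
  have h1 : (del G {v}).Adj x y ↔ G.Adj x y ∧ x ∉ ({v} : Finset V) ∧ y ∉ ({v} : Finset V) := Iff.rfl
  rw [h1, Finset.mem_singleton, Finset.mem_singleton]

private lemma del_adj3 {V : Type} [Fintype V] [DecidableEq V] (G : SimpleGraph V) (v d e x y : V) :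
    (del G {v, d, e}).Adj x y ↔ G.Adj x y ∧ (x ≠ v ∧ x ≠ d ∧ x ≠ e) ∧ (y ≠ v ∧ y ≠ d ∧ y ≠ e) := by
  have h1 : (del G {v, d, e}).Adj x y ↔ G.Adj x y ∧ x ∉ ({v, d, e} : Finset V) ∧
    y ∉ ({v, d, e} : Finset V) := Iff.rfl
  rw [h1]
  simp only [Finset.mem_insert, Finset.mem_singleton, not_or]

theorem D2_ind {V : Type} [Fintype V] [DecidableEq V] (G : SimpleGraph V) (v a b c d e : V)
    (hnd : [a, b, c, d, e].Nodup) (hN : ∀ x, G.Adj v x ↔ (x = a ∨ x = b ∨ x = c ∨ x = d ∨ x = e))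
    (hab : ¬ G.Adj a b) (hbc : ¬ G.Adj b c) (hca : ¬ G.Adj c a)
    (hd : ∀ x, G.Adj d x ↔ (x = a ∨ x = b ∨ x = c ∨ x = e ∨ x = v))
    (he : ∀ x, G.Adj e x ↔ (x = a ∨ x = b ∨ x = c ∨ x = d ∨ x = v))
    (h : Ind (add (add (add (del G {v, d, e}) a b) b c) c a)) :
    Ind (add (add (del G {v}) a b) b c) := by
  simp only [List.nodup_cons, List.mem_cons, not_or, List.not_mem_nil,
    not_false_eq_true, List.nodup_nil, and_true] at hnd
  obtain ⟨⟨hab', hac', had', hae'⟩, ⟨hbc', hbd', hbe'⟩, ⟨hcd', hce'⟩, hde'⟩ := hnd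
  have hvv : ¬ (v = a ∨ v = b ∨ v = c ∨ v = d ∨ v = e) := fun h' => G.loopless.irrefl v ((hN v).2 h')
  simp only [not_or] at hvv
  obtain ⟨hva, hvb, hvc, hvd, hve⟩ := hvv
  have hca' : c ≠ a := fun h' => hac' h'.symm
  -- the graph G1
  have hAdj2 : ∀ x y, (add (add (del G {v}) a b) b c).Adj x y ↔
      ((G.Adj x y ∧ x ≠ v ∧ y ≠ v) ∨ ((x = a ∧ y = b) ∨ (x = b ∧ y = a))) ∨
        ((x = b ∧ y = c) ∨ (x = c ∧ y = b)) := by
    intro x y
    rw [add_adj _ hbc', add_adj _ hab', del_adj]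
  have hAdj1 : ∀ x y, (add (del (add (add (del G {v}) a b) b c) {e}) c a).Adj x y ↔
      ((((G.Adj x y ∧ x ≠ v ∧ y ≠ v) ∨ ((x = a ∧ y = b) ∨ (x = b ∧ y = a))) ∨
        ((x = b ∧ y = c) ∨ (x = c ∧ y = b))) ∧ x ≠ e ∧ y ≠ e) ∨
        ((x = c ∧ y = a) ∨ (x = a ∧ y = c)) := by
    intro x y
    rw [add_adj _ hca', del_adj, hAdj2]
  have hI1 : Ind (add (del (add (add (del G {v}) a b) b c) {e}) c a) := by
    apply ind0 _ d
    · unfold dg
      classical
      refine le_trans (Finset.card_le_card (t := {a, b, c}) ?_) Finset.card_le_three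
      intro x hx
      rw [Finset.mem_filter, hAdj1, hd] at hx
      simp only [Finset.mem_insert, Finset.mem_singleton]
      rcases hx.2 with ⟨((⟨h1, h2, h3⟩ | (h1 | h1)) | (h1 | h1)), h4, h5⟩ | (h1 | h1)
      · rcases h1 with h1 | h1 | h1 | h1 | h1
        · exact Or.inl h1
        · exact Or.inr (Or.inl h1)
        · exact Or.inr (Or.inr h1)
        · exact absurd h1 h5
        · exact absurd h1 h3
      · exact absurd h1.1.symm had'
      · exact absurd h1.1.symm hbd'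
      · exact absurd h1.1.symm hbd'
      · exact absurd h1.1.symm hcd'
      · exact absurd h1.1.symm hcd'
      · exact absurd h1.1.symm had'
    · have : del (add (del (add (add (del G {v}) a b) b c) {e}) c a) {d} =
          add (add (add (del G {v, d, e}) a b) b c) c a := by
        ext x y
        rw [del_adj, hAdj1, add_adj _ hca', add_adj _ hbc', add_adj _ hab', del_adj3]
        constructor
        · rintro ⟨⟨((⟨h1, h2, h3⟩ | h1) | h1), h4, h5⟩ | h1, h6, h7⟩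
          · exact Or.inl (Or.inl (Or.inl ⟨h1, ⟨h2, h6, h4⟩, ⟨h3, h7, h5⟩⟩))
          · exact Or.inl (Or.inl (Or.inr h1))
          · exact Or.inl (Or.inr h1)
          · exact Or.inr h1
        · rintro (((⟨h1, ⟨h2, h6, h4⟩, ⟨h3, h7, h5⟩⟩ | h1) | h1) | h1)
          · exact ⟨Or.inl ⟨Or.inl (Or.inl ⟨h1, h2, h3⟩), h4, h5⟩, h6, h7⟩
          · refine ⟨Or.inl ⟨Or.inl (Or.inr h1), ?_⟩, ?_⟩
            · rcases h1 with ⟨rfl, rfl⟩ | ⟨rfl, rfl⟩
              · exact ⟨hae', hbe'⟩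
              · exact ⟨hbe', hae'⟩
            · rcases h1 with ⟨rfl, rfl⟩ | ⟨rfl, rfl⟩
              · exact ⟨had', hbd'⟩
              · exact ⟨hbd', had'⟩
          · refine ⟨Or.inl ⟨Or.inr h1, ?_⟩, ?_⟩
            · rcases h1 with ⟨rfl, rfl⟩ | ⟨rfl, rfl⟩
              · exact ⟨hbe', hce'⟩
              · exact ⟨hce', hbe'⟩
            · rcases h1 with ⟨rfl, rfl⟩ | ⟨rfl, rfl⟩
              · exact ⟨hbd', hcd'⟩
              · exact ⟨hcd', hbd'⟩
          · refine ⟨Or.inr h1, ?_⟩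
            · rcases h1 with ⟨rfl, rfl⟩ | ⟨rfl, rfl⟩
              · exact ⟨hcd', had'⟩
              · exact ⟨had', hcd'⟩
      rw [this]
      exact h
  refine ind1 _ e c a b d ?_ ?_ ?_ hI1
  · simp only [List.nodup_cons, List.mem_cons, not_or, List.not_mem_nil,
      not_false_eq_true, List.nodup_nil, and_true]
    exact ⟨⟨hca', fun h' => hbc' h'.symm, hcd'⟩, ⟨hab', had'⟩, hbd'⟩
  · intro x
    rw [hAdj2, he]
    have e4 : e ≠ v := fun h' => hve h'.symm
    constructor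
    · rintro ((⟨h1, h2, h3⟩ | (h1 | h1)) | (h1 | h1))
      · rcases h1 with h1 | h1 | h1 | h1 | h1
        · exact Or.inr (Or.inl h1)
        · exact Or.inr (Or.inr (Or.inl h1))
        · exact Or.inl h1
        · exact Or.inr (Or.inr (Or.inr h1))
        · exact absurd h1 h3
      · exact absurd h1.1.symm hae'
      · exact absurd h1.1.symm hbe'
      · exact absurd h1.1.symm hbe'
      · exact absurd h1.1.symm hce'
    · rintro (rfl | rfl | rfl | rfl)
      · exact Or.inl (Or.inl ⟨Or.inr (Or.inr (Or.inl rfl)), e4, fun h' => hvc h'.symm⟩)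
      · exact Or.inl (Or.inl ⟨Or.inl rfl, e4, fun h' => hva h'.symm⟩)
      · exact Or.inl (Or.inl ⟨Or.inr (Or.inl rfl), e4, fun h' => hvb h'.symm⟩)
      · exact Or.inl (Or.inl ⟨Or.inr (Or.inr (Or.inr (Or.inl rfl))), e4, fun h' => hvd h'.symm⟩)
  · rw [hAdj2]
    rintro ((⟨h1, h2, h3⟩ | (h1 | h1)) | (h1 | h1))
    · exact hca h1
    · exact hab' h1.2
    · exact hbc' h1.1.symm
    · exact hbc' h1.1.symm
    · exact hab' h1.2

end Pool.Agent.Reg5.J2274
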