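import Pool.Agent.Helper927.R5Defs
import Pool.Agent.Helper927.R5x2257
import Pool.Agent.Helper927.R5x2258
import Pool.Agent.Helper927.R5x2262
import Pool.Agent.Helper927.R5x2263
import Pool.Agent.Helper927.R5x2266
import Pool.Agent.Helper927.R5x2274
set_option autoImplicit false
set_option maxHeartbeats 4000000

namespace Pool.Agent.Reg5.J2275
open Pool.Agent.Reg5
open Pool.Agent.Reg5.J2262 (D2_comb)
open Pool.Agent.Reg5.J2274 (D2_ind)
open Pool.Agent.Reg5.J2266 (SF_add2)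
open Pool.Agent.Reg5.J2263 (SF_mono)
open Pool.Agent.Reg5.J2258 (dg_ge)
open Pool.Agent.Reg5.J2258 (ie_add)
open Pool.Agent.Reg5.J2258 (ie_del)
open Pool.Agent.Reg5.J2257 (ie_mono)
open Pool.Agent.Reg5.J2258 (ie_univ_del)


theorem D2_aux_le {V : Type} [Fintype V] [DecidableEq V] (F : SimpleGraph V) (x y z w : V) :
    F ≤ add (add F x y) z w := by
  intro a b h
  exact Or.inl (Or.inl h)

theorem D2_aux_ie {V : Type} [Fintype V] [DecidableEq V] (F : SimpleGraph V) (x y : V) (hxy : x ≠ y)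
    (hn : ¬ F.Adj x y) : ie (add F x y) Finset.univ = ie F Finset.univ + 1 := by
  rw [ie_add F x y hxy hn]
  simp

theorem D2_aux_del {V : Type} [Fintype V] [DecidableEq V] (G : SimpleGraph V) (v a1 a2 a3 a4 a5 : V)
    (hnd : [a1, a2, a3, a4, a5].Nodup)
    (hN : ∀ x, G.Adj v x ↔ (x = a1 ∨ x = a2 ∨ x = a3 ∨ x = a4 ∨ x = a5)) :
    ie (del G {v}) Finset.univ + 5 ≤ ie G Finset.univ := by
  rw [ie_univ_del G v]
  have h5 : ([a1, a2, a3, a4, a5].toFinset).card ≤ dg G Finset.univ v := by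
    apply dg_ge
    · exact Finset.subset_univ _
    · intro x hx
      rw [hN]
      simpa using hx
  rw [List.toFinset_card_of_nodup hnd] at h5
  simp at h5
  omega

theorem D2 {V : Type} [Fintype V] [DecidableEq V] (G : SimpleGraph V) (hG : Cls G)
    (IH : ∀ G' : SimpleGraph V, Cls G' → ie G' Finset.univ < ie G Finset.univ → Ind G')
    (v a1 a2 a3 a4 a5 : V) (hnd : [a1, a2, a3, a4, a5].Nodup)
    (hN : ∀ x, G.Adj v x ↔ (x = a1 ∨ x = a2 ∨ x = a3 ∨ x = a4 ∨ x = a5))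
    (p : V → Fin 3 → ℝ) (hp : Good p) :
    ∃ x y z w : V, G.Adj v x ∧ G.Adj v y ∧ G.Adj v z ∧ G.Adj v w ∧
      ∃ m m', IsMot (del G {v}) p m ∧ IsMot (del G {v}) p m' ∧
        dd p m x y * dd p m' z w ≠ dd p m' x y * dd p m z w := by
  have hdel := D2_aux_del G v a1 a2 a3 a4 a5 hnd hN
  rcases D2_comb G hG v a1 a2 a3 a4 a5 hnd hN with
    ⟨x, y, z, w, hnd2, hx, hy, hz, hw, hxy, hzw, hcls⟩ |
    ⟨a, b, c, d, e, hnd2, hN2, hab, hbc, hca, hd, he, hcls⟩
  · simp only [List.nodup_cons, List.mem_cons, List.not_mem_nil, or_false, not_or,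
      List.nodup_nil, and_true, not_false_eq_true] at hnd2
    obtain ⟨⟨nxy, nxz, nxw⟩, ⟨nyz, nyw⟩, nzw⟩ := hnd2
    have h1 : ¬ (del G {v}).Adj x y := fun h => hxy h.1
    have h2 : ¬ (add (del G {v}) x y).Adj z w := by
      rintro (h | ⟨_, ⟨h, _⟩ | ⟨h, _⟩⟩)
      · exact hzw h.1
      · exact nxz h.symm
      · exact nyz h.symm
    have hie : ie (add (add (del G {v}) x y) z w) Finset.univ = ie (del G {v}) Finset.univ + 2 := by
      rw [D2_aux_ie _ z w nzw h2, D2_aux_ie _ x y nxy h1]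
    have hInd := IH _ hcls (by omega)
    have hSF := hp.2 _ hInd
    have hSF0 : SF (del G {v}) p := SF_mono (D2_aux_le _ x y z w) p hSF
    obtain ⟨m, m', hm, hm', hne⟩ := (SF_add2 _ p x y z w nxy nzw h1 h2 hSF0).1 hSF
    exact ⟨x, y, z, w, hx, hy, hz, hw, m, m', hm, hm', hne⟩
  · have hnd3 := hnd2
    simp only [List.nodup_cons, List.mem_cons, List.not_mem_nil, or_false, not_or,
      List.nodup_nil, and_true, not_false_eq_true] at hnd3
    obtain ⟨⟨nab, nac, nad, nae⟩, ⟨nbc, nbd, nbe⟩, ⟨ncd, nce⟩, nde⟩ := hnd3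
    have g1 : ¬ (del G {v, d, e}).Adj a b := fun h => hab h.1
    have g2 : ¬ (add (del G {v, d, e}) a b).Adj b c := by
      rintro (h | ⟨_, ⟨h, _⟩ | ⟨_, h⟩⟩)
      · exact hbc h.1
      · exact nab h.symm
      · exact nac h.symm
    have g3 : ¬ (add (add (del G {v, d, e}) a b) b c).Adj c a := by
      rintro ((h | ⟨_, ⟨h, _⟩ | ⟨h, _⟩⟩) | ⟨_, ⟨h, _⟩ | ⟨_, h⟩⟩)
      · exact hca h.1
      · exact nac h.symm
      · exact nbc h.symm
      · exact nbc h.symm
      · exact nab h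
    have hle : ie (del G {v, d, e}) Finset.univ ≤ ie (del G {v}) Finset.univ := by
      rw [ie_del, ie_del]
      apply ie_mono
      intro t ht
      simp only [Finset.mem_sdiff, Finset.mem_univ, true_and, Finset.mem_insert,
        Finset.mem_singleton, not_or] at ht ⊢
      exact ht.1
    have hie : ie (add (add (add (del G {v, d, e}) a b) b c) c a) Finset.univ
        = ie (del G {v, d, e}) Finset.univ + 3 := by
      rw [D2_aux_ie _ c a (Ne.symm nac) g3, D2_aux_ie _ b c nbc g2, D2_aux_ie _ a b nab g1]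
    have hInd := IH _ hcls (by omega)
    have hInd2 := D2_ind G v a b c d e hnd2 hN2 hab hbc hca hd he hInd
    have hSF := hp.2 _ hInd2
    have hSF0 : SF (del G {v}) p := SF_mono (D2_aux_le _ a b b c) p hSF
    have h1 : ¬ (del G {v}).Adj a b := fun h => hab h.1
    have h2 : ¬ (add (del G {v}) a b).Adj b c := by
      rintro (h | ⟨_, ⟨h, _⟩ | ⟨_, h⟩⟩)
      · exact hbc h.1
      · exact nab h.symm
      · exact nac h.symm
    obtain ⟨m, m', hm, hm', hne⟩ := (SF_add2 _ p a b b c nab nbc h1 h2 hSF0).1 hSF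
    exact ⟨a, b, b, c, (hN2 a).2 (by simp), (hN2 b).2 (by simp), (hN2 b).2 (by simp),
      (hN2 c).2 (by simp), m, m', hm, hm', hne⟩

end Pool.Agent.Reg5.J2275
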