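import Pool.Agent.Helper927.R5Defs
set_option autoImplicit false
set_option maxHeartbeats 4000000

namespace Pool.Agent.Reg5.J2277
open Pool.Agent.Reg5





/-- parallel functionals on `W` -/
def ParW {E : Type} [AddCommGroup E] [Module ℝ E] (W : Submodule ℝ E) (f g : E →ₗ[ℝ] ℝ) : Prop :=
  ∀ m ∈ W, ∀ m' ∈ W, f m * g m' = f m' * g m

section
variable {E : Type} [AddCommGroup E] [Module ℝ E] {W : Submodule ℝ E}

theorem ParW.symm {f g : E →ₗ[ℝ] ℝ} (h : ParW W f g) : ParW W g f := by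
  intro m hm m' hm'
  have := h m hm m' hm'
  linarith

theorem ParW.trans {f g h : E →ₗ[ℝ] ℝ} (h1 : ParW W f g) (h2 : ParW W g h)
    (h3 : ∃ m ∈ W, g m ≠ 0) : ParW W f h := by
  obtain ⟨m0, hm0, hg⟩ := h3
  intro m hm m' hm'
  have a1 := h1 m hm m0 hm0
  have a2 := h1 m' hm' m0 hm0
  have b1 := h2 m hm m0 hm0
  have b2 := h2 m' hm' m0 hm0
  -- f m * g m0 = f m0 * g m ; g m * h m0 = g m0 * h m
  have : g m0 * g m0 * (f m * h m') = g m0 * g m0 * (f m' * h m) := by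
    calc g m0 * g m0 * (f m * h m') = (f m * g m0) * (g m0 * h m') := by ring
      _ = (f m0 * g m) * (g m' * h m0) := by rw [a1, b2]
      _ = (f m0 * g m') * (g m * h m0) := by ring
      _ = (f m' * g m0) * (g m0 * h m) := by rw [a2, b1]
      _ = g m0 * g m0 * (f m' * h m) := by ring
  exact mul_left_cancel₀ (mul_ne_zero hg hg) this

theorem ParW.smul {f g : E →ₗ[ℝ] ℝ} (h : ParW W f g) (h3 : ∃ m ∈ W, g m ≠ 0) :
    ∃ a : ℝ, ∀ m ∈ W, f m = a * g m := by
  obtain ⟨m0, hm0, hg⟩ := h3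
  refine ⟨f m0 / g m0, fun m hm => ?_⟩
  have := h m hm m0 hm0
  field_simp
  exact this

theorem parW_zero {f g h : E →ₗ[ℝ] ℝ} (h1 : ParW W f g) (h2 : ParW W f h) (h3 : ¬ ParW W g h) :
    ∀ m ∈ W, f m = 0 := by
  intro m hm
  by_contra hne
  exact h3 (h1.symm.trans h2 ⟨m, hm, hne⟩)

theorem parW_of_zero {f g : E →ₗ[ℝ] ℝ} (h : ∀ m ∈ W, f m = 0) : ParW W f g := by
  intro m hm m' hm'
  rw [h m hm, h m' hm', zero_mul, zero_mul]

end

theorem AL_sum {ι : Type} [Fintype ι] [DecidableEq ι] (f : ι → ℝ) (i j k : ι) (α β γ : ℝ) :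
    ∑ t, (Pi.single i α + Pi.single j β + Pi.single k γ : ι → ℝ) t * f t =
      α * f i + β * f j + γ * f k := by
  simp only [Pi.add_apply, add_mul, Finset.sum_add_distrib]
  simp [Pi.single_apply]

theorem AL {E : Type} [AddCommGroup E] [Module ℝ E] (W : Submodule ℝ E) {ι : Type} [Fintype ι] [DecidableEq ι]
    (v : ι → ι → (E →ₗ[ℝ] ℝ)) (σ : ι → (E →ₗ[ℝ] ℝ)) (hsym : ∀ i j, v i j = v j i) (hdiag : ∀ i, v i i = 0)
    (H : ∀ ν : ι → ℝ, ∑ i, ν i = 1 → ∀ m ∈ W, ∀ m' ∈ W,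
      (∑ i, ∑ j, ν i * ν j * v i j m) * (∑ i, ν i * σ i m') =
      (∑ i, ∑ j, ν i * ν j * v i j m') * (∑ i, ν i * σ i m))
    (h3 : ∃ i j k l, ∃ m ∈ W, ∃ m' ∈ W, v i j m * v k l m' ≠ v i j m' * v k l m)
    (h4 : ∃ i, ∃ m ∈ W, σ i m ≠ 0) :
    ∃ (S : Finset ι) (ρ : ι → ℝ),
      (∀ i, i ∈ S ↔ ∃ m ∈ W, σ i m ≠ 0) ∧
      (∀ i ∈ S, ∀ j ∈ S, ∀ m ∈ W, v i j m = 0) ∧
      (∀ i, i ∉ S → ∀ j, j ∉ S → ∀ m ∈ W, v i j m = 0) ∧
      (∀ i ∈ S, ∀ j, j ∉ S → ∀ m ∈ W, v i j m = ρ j * σ i m) := by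
  classical
  -- the key identity
  have key : ∀ (i j k : ι) (α β γ : ℝ), α + β + γ = 1 → ∀ m ∈ W, ∀ m' ∈ W,
      (α * β * v i j m + α * γ * v i k m + β * γ * v j k m) *
        (α * σ i m' + β * σ j m' + γ * σ k m') =
      (α * β * v i j m' + α * γ * v i k m' + β * γ * v j k m') *
        (α * σ i m + β * σ j m + γ * σ k m) := by
    intro i j k α β γ hsum m hm m' hm'
    have h1 := H (Pi.single i α + Pi.single j β + Pi.single k γ) (by
      have := AL_sum (fun _ : ι => (1:ℝ)) i j k α β γ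
      simp only [mul_one] at this
      rw [this, hsum]) m hm m' hm'
    have h2 : ∀ x : E, ∑ s, ∑ t, (Pi.single i α + Pi.single j β + Pi.single k γ : ι → ℝ) s *
        (Pi.single i α + Pi.single j β + Pi.single k γ : ι → ℝ) t * v s t x =
        2 * (α * β * v i j x + α * γ * v i k x + β * γ * v j k x) := by
      intro x
      have e1 : ∀ s, ∑ t, (Pi.single i α + Pi.single j β + Pi.single k γ : ι → ℝ) s *
          (Pi.single i α + Pi.single j β + Pi.single k γ : ι → ℝ) t * v s t x =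
          (Pi.single i α + Pi.single j β + Pi.single k γ : ι → ℝ) s *
            (α * v s i x + β * v s j x + γ * v s k x) := by
        intro s
        rw [← AL_sum (fun t => v s t x) i j k α β γ, Finset.mul_sum]
        refine Finset.sum_congr rfl fun t _ => ?_
        ring
      rw [Finset.sum_congr rfl fun s _ => e1 s,
        AL_sum (fun s => α * v s i x + β * v s j x + γ * v s k x) i j k α β γ]
      rw [hdiag i, hdiag j, hdiag k, hsym j i, hsym k i, hsym k j]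
      simp only [LinearMap.zero_apply]
      ring
    rw [h2, h2, AL_sum (fun t => σ t m'), AL_sum (fun t => σ t m)] at h1
    linarith
  -- (P)
  have hP : ∀ i j, ParW W (v i j) (σ i) := by
    intro i j m hm m' hm'
    have h1 := key i j j (1 / 2) (1 / 2) 0 (by norm_num) m hm m' hm'
    have h2 := key i j j (-1) 2 0 (by norm_num) m hm m' hm'
    nlinarith [h1, h2]
  have hP' : ∀ i j, ParW W (v i j) (σ j) := by
    intro i j
    rw [hsym i j]
    exact hP j i
  -- (T)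
  have hT : ∀ i j k, ∀ m ∈ W, ∀ m' ∈ W,
      v i j m * σ k m' + v i k m * σ j m' + v j k m * σ i m' =
      v i j m' * σ k m + v i k m' * σ j m + v j k m' * σ i m := by
    intro i j k m hm m' hm'
    have h1 := key i j k (1 / 3) (1 / 3) (1 / 3) (by norm_num) m hm m' hm'
    have p1 := hP i j m hm m' hm'
    have p2 := hP' i j m hm m' hm'
    have p3 := hP i k m hm m' hm'
    have p4 := hP' i k m hm m' hm'
    have p5 := hP j k m hm m' hm'
    have p6 := hP' j k m hm m' hm'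
    nlinarith [h1, p1, p2, p3, p4, p5, p6]
  -- nonparallel pair
  have hnp : ∃ k k', ¬ ParW W (σ k) (σ k') := by
    by_contra hcon
    push Not at hcon
    obtain ⟨i0, m0, hm0, h0⟩ := h4
    have hall : ∀ i j, ParW W (v i j) (σ i0) := by
      intro i j
      by_cases hi : ∃ m ∈ W, σ i m ≠ 0
      · exact (hP i j).trans (hcon i i0) hi
      by_cases hj : ∃ m ∈ W, σ j m ≠ 0
      · exact (hP' i j).trans (hcon j i0) hj
      push Not at hi hj
      intro m hm m' hm'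
      have := hT i j i0 m hm m' hm'
      rw [hi m hm, hi m' hm', hj m hm, hj m' hm'] at this
      linarith
    obtain ⟨i, j, k, l, m, hm, m', hm', hne⟩ := h3
    exact hne ((hall i j).trans (hall k l).symm ⟨m0, hm0, h0⟩ m hm m' hm')
  obtain ⟨k, k', hkk⟩ := hnp
  have hk : ∃ m ∈ W, σ k m ≠ 0 := by
    by_contra h
    push Not at h
    exact hkk (parW_of_zero h)
  have hk' : ∃ m ∈ W, σ k' m ≠ 0 := by
    by_contra h
    push Not at h
    exact hkk (parW_of_zero h).symm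
  -- non parallel partner
  have hpart : ∀ i, (∃ m ∈ W, σ i m ≠ 0) → ∃ κ, (∃ m ∈ W, σ κ m ≠ 0) ∧ ¬ ParW W (σ κ) (σ i) := by
    intro i hi
    by_cases h : ParW W (σ k) (σ i)
    · refine ⟨k', hk', fun h' => hkk (h.trans h'.symm hi)⟩
    · exact ⟨k, hk, h⟩
  have hb : ∀ i j, ¬ ParW W (σ i) (σ j) → ∀ m ∈ W, v i j m = 0 := fun i j h =>
    parW_zero (hP i j) (hP' i j) h
  have hSS : ∀ i, (∃ m ∈ W, σ i m ≠ 0) → ∀ j, (∃ m ∈ W, σ j m ≠ 0) → ∀ m ∈ W, v i j m = 0 := by
    intro i hi j hj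
    by_cases h : ParW W (σ i) (σ j)
    · obtain ⟨κ, hκ, hκi⟩ := hpart i hi
      have hκj : ¬ ParW W (σ κ) (σ j) := fun h' => hκi (h'.trans h.symm hj)
      have z1 := hb κ i hκi
      have z2 := hb κ j hκj
      have : ParW W (v i j) (σ κ) := by
        intro m hm m' hm'
        have ht := hT i j κ m hm m' hm'
        rw [hsym i κ, hsym j κ, z1 m hm, z1 m' hm', z2 m hm, z2 m' hm'] at ht
        linarith
      exact parW_zero this (hP i j) hκi
    · exact hb i j h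
  have hNN : ∀ i, (¬ ∃ m ∈ W, σ i m ≠ 0) → ∀ j, (¬ ∃ m ∈ W, σ j m ≠ 0) → ∀ m ∈ W, v i j m = 0 := by
    intro i hi j hj
    push Not at hi hj
    have : ∀ κ, ParW W (v i j) (σ κ) := by
      intro κ m hm m' hm'
      have ht := hT i j κ m hm m' hm'
      rw [hi m hm, hi m' hm', hj m hm, hj m' hm'] at ht
      linarith
    exact parW_zero (this k) (this k') hkk
  have hex : ∀ i j, ∃ a : ℝ, (∃ m ∈ W, σ i m ≠ 0) → ∀ m ∈ W, v i j m = a * σ i m := by
    intro i j
    by_cases hi : ∃ m ∈ W, σ i m ≠ 0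
    · obtain ⟨a, ha⟩ := (hP i j).smul hi
      exact ⟨a, fun _ => ha⟩
    · exact ⟨0, fun h => absurd h hi⟩
  choose a ha using hex
  have heq : ∀ i, (∃ m ∈ W, σ i m ≠ 0) → ∀ κ, (∃ m ∈ W, σ κ m ≠ 0) → ¬ ParW W (σ i) (σ κ) →
      ∀ j, a i j = a κ j := by
    intro i hi κ hκ hnp j
    unfold ParW at hnp
    push Not at hnp
    obtain ⟨m, hm, m', hm', hne⟩ := hnp
    have ht := hT i j κ m hm m' hm'
    have z := hSS i hi κ hκ
    rw [z m hm, z m' hm', hsym j κ, ha i j hi m hm, ha i j hi m' hm', ha κ j hκ m hm,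
      ha κ j hκ m' hm'] at ht
    have h5 : (a i j - a κ j) * (σ i m * σ κ m' - σ i m' * σ κ m) = 0 := by linarith
    rcases mul_eq_zero.mp h5 with h | h
    · linarith
    · exact absurd (by linarith) hne
  refine ⟨Finset.univ.filter (fun i => ∃ m ∈ W, σ i m ≠ 0), fun j => a k j, ?_, ?_, ?_, ?_⟩
  · intro i
    simp
  · intro i hi j hj
    exact hSS i (Finset.mem_filter.1 hi).2 j (Finset.mem_filter.1 hj).2
  · intro i hi j hj
    rw [Finset.mem_filter] at hi hj
    exact hNN i (fun h => hi ⟨Finset.mem_univ _, h⟩) j (fun h => hj ⟨Finset.mem_univ _, h⟩)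
  · intro i hi j _ m hm
    have hi' := (Finset.mem_filter.1 hi).2
    rw [ha i j hi' m hm]
    show a i j * σ i m = a k j * σ i m
    by_cases h : ParW W (σ i) (σ k)
    · have h' : ¬ ParW W (σ i) (σ k') := fun h' => hkk (h.symm.trans h' hi')
      rw [heq i hi' k' hk' h' j, heq k hk k' hk' hkk j]
    · rw [heq i hi' k hk h j]

end Pool.Agent.Reg5.J2277
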