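import Pool.Agent.Helper927.R5Defs
set_option autoImplicit false
set_option maxHeartbeats 4000000

namespace Pool.Agent.Reg5.J2278
open Pool.Agent.Reg5





theorem poly_box {n : ℕ} (f : (Fin n → ℝ) → ℝ) (hf : AnalyticOnNhd ℝ f Set.univ) (y0 : Fin n → ℝ) (r : ℝ) (hr : 0 < r)
    (h : ∀ y, (∀ i, |y i - y0 i| < r) → f y = 0) : ∀ y, f y = 0 := by
  have h1 : f =ᶠ[nhds y0] 0 := by
    filter_upwards [Metric.ball_mem_nhds y0 hr] with y hy
    refine h y fun i => ?_
    have h2 := (dist_pi_lt_iff hr).1 (Metric.mem_ball.1 hy) i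
    rwa [Real.dist_eq] at h2
  have h3 := hf.eqOn_zero_of_preconnected_of_eventuallyEq_zero isPreconnected_univ
    (Set.mem_univ y0) h1
  exact fun y => h3 (Set.mem_univ y)

end Pool.Agent.Reg5.J2278
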