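import Pool.Agent.Helper927.R5Defs
import Pool.Agent.Helper927.R5x2277
import Pool.Agent.Helper927.R5x2278
set_option autoImplicit false
set_option maxHeartbeats 4000000

namespace Pool.Agent.Reg5.J2282
open Pool.Agent.Reg5
open Pool.Agent.Reg5.J2277 (AL)
open Pool.Agent.Reg5.J2278 (poly_box)


theorem bary (Q : Fin 4 → Fin 3 → ℝ)
    (hQ : LinearIndependent ℝ ![Q 1 - Q 0, Q 2 - Q 0, Q 3 - Q 0]) :
    ∃ ν : (Fin 3 → ℝ) → Fin 4 → ℝ, (∀ i, AnalyticOnNhd ℝ (fun y => ν y i) Set.univ) ∧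
      (∀ y, ∑ i, ν y i = 1) ∧ (∀ y, ∑ i, ν y i • Q i = y) ∧
      (∀ a : Fin 4 → ℝ, ∑ i, a i = 1 → ν (∑ i, a i • Q i) = a) := by
  classical
  set b : Module.Basis (Fin 3) ℝ (Fin 3 → ℝ) := basisOfLinearIndependentOfCardEqFinrank hQ (by simp) with hb
  have hb0 : ∀ i, b i = ![Q 1 - Q 0, Q 2 - Q 0, Q 3 - Q 0] i := by
    intro i; rw [hb]; simp
  have key : ∀ a : Fin 4 → ℝ, ∑ i, a i = 1 → ∀ i : Fin 3, b.repr ((∑ i, a i • Q i) - Q 0) i = a i.succ := by
    intro a ha i
    have h1 : (∑ i, a i • Q i) - Q 0 = ∑ i : Fin 3, a i.succ • b i := by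
      have h0 : a 0 = 1 - a 1 - a 2 - a 3 := by
        rw [Fin.sum_univ_four] at ha; linarith
      rw [Fin.sum_univ_four, Fin.sum_univ_three, hb0, hb0, hb0, h0]
      ext k
      simp
      ring
    rw [h1, b.repr_sum_self]
  refine ⟨fun y => Fin.cons (1 - ∑ i, b.repr (y - Q 0) i) (fun i => b.repr (y - Q 0) i), ?_, ?_, ?_, ?_⟩
  · have hL : ∀ i : Fin 3, AnalyticOnNhd ℝ (fun y : Fin 3 → ℝ => b.repr (y - Q 0) i) Set.univ := by
      intro i
      have h1 : (fun y : Fin 3 → ℝ => b.repr (y - Q 0) i) =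
          fun y => (LinearMap.toContinuousLinearMap ((Finsupp.lapply i).comp b.repr.toLinearMap : (Fin 3 → ℝ) →ₗ[ℝ] ℝ)) (y - Q 0) := by
        funext y
        simp
      rw [h1]
      intro y _
      apply AnalyticAt.comp (g := fun z => (LinearMap.toContinuousLinearMap ((Finsupp.lapply i).comp b.repr.toLinearMap : (Fin 3 → ℝ) →ₗ[ℝ] ℝ)) z)
      · exact ContinuousLinearMap.analyticAt _ _
      · exact analyticAt_id.sub analyticAt_const
    intro i
    refine Fin.cases ?_ (fun j => ?_) i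
    · simp only [Fin.cons_zero]
      intro y _
      exact analyticAt_const.sub (Finset.analyticAt_fun_sum _ (fun i _ => hL i y (Set.mem_univ _)))
    · simp only [Fin.cons_succ]
      exact hL j
  · intro y
    rw [Fin.sum_univ_succ]
    simp
  · intro y
    have h1 : ∑ i : Fin 3, b.repr (y - Q 0) i • b i = y - Q 0 := b.sum_repr _
    rw [Fin.sum_univ_three, hb0, hb0, hb0] at h1
    rw [Fin.sum_univ_succ, Fin.sum_univ_three]
    simp only [Fin.cons_zero, Fin.cons_succ, Fin.sum_univ_three]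
    have h2 : y = Q 0 + (y - Q 0) := by abel
    conv_rhs => rw [h2, ← h1]
    ext k
    simp
    ring
  · intro a ha
    funext i
    refine Fin.cases ?_ (fun j => ?_) i
    · simp only [Fin.cons_zero]
      rw [Finset.sum_congr rfl (fun i _ => key a ha i)]
      rw [Fin.sum_univ_succ] at ha
      linarith
    · simp only [Fin.cons_succ]
      exact key a ha j

theorem par_of_ker {E : Type} [AddCommGroup E] [Module ℝ E] (W : Submodule ℝ E) (q s : E →ₗ[ℝ] ℝ)
    (h : ∀ m ∈ W, q m = 0 → s m = 0) : ∀ m ∈ W, ∀ m' ∈ W, q m * s m' = q m' * s m := by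
  intro m hm m' hm'
  have h1 := h (q m • m' - q m' • m) (W.sub_mem (W.smul_mem _ hm') (W.smul_mem _ hm)) (by
    simp; ring)
  simp at h1
  linarith

/-- quadratic form as a linear functional of `m` -/
noncomputable def qf {E : Type} [AddCommGroup E] [Module ℝ E] (v : Fin 4 → Fin 4 → (E →ₗ[ℝ] ℝ)) (ν : Fin 4 → ℝ) : E →ₗ[ℝ] ℝ :=
  ∑ i, ∑ j, (ν i * ν j) • v i j

theorem qf_apply {E : Type} [AddCommGroup E] [Module ℝ E] (v : Fin 4 → Fin 4 → (E →ₗ[ℝ] ℝ)) (ν : Fin 4 → ℝ) (m : E) :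
    qf v ν m = ∑ i, ∑ j, ν i * ν j * v i j m := by
  simp [qf, LinearMap.sum_apply]

noncomputable def lf {E : Type} [AddCommGroup E] [Module ℝ E] (s : Fin 4 → (E →ₗ[ℝ] ℝ)) (ν : Fin 4 → ℝ) : E →ₗ[ℝ] ℝ :=
  ∑ i, ν i • s i

theorem lf_apply {E : Type} [AddCommGroup E] [Module ℝ E] (s : Fin 4 → (E →ₗ[ℝ] ℝ)) (ν : Fin 4 → ℝ) (m : E) :
    lf s ν m = ∑ i, ν i * s i m := by
  simp [lf, LinearMap.sum_apply]

theorem qf_analytic {E : Type} [AddCommGroup E] [Module ℝ E] (v : Fin 4 → Fin 4 → (E →ₗ[ℝ] ℝ)) (ν : (Fin 3 → ℝ) → Fin 4 → ℝ)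
    (h : ∀ i, AnalyticOnNhd ℝ (fun y => ν y i) Set.univ) (m : E) :
    AnalyticOnNhd ℝ (fun y => qf v (ν y) m) Set.univ := by
  intro y _
  simp_rw [qf_apply]
  refine Finset.analyticAt_fun_sum _ (fun i _ => Finset.analyticAt_fun_sum _ (fun j _ => ?_))
  exact ((h i y (Set.mem_univ _)).mul (h j y (Set.mem_univ _))).mul analyticAt_const

theorem lf_analytic {E : Type} [AddCommGroup E] [Module ℝ E] (s : Fin 4 → (E →ₗ[ℝ] ℝ)) (ν : (Fin 3 → ℝ) → Fin 4 → ℝ)
    (h : ∀ i, AnalyticOnNhd ℝ (fun y => ν y i) Set.univ) (m : E) :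
    AnalyticOnNhd ℝ (fun y => lf s (ν y) m) Set.univ := by
  intro y _
  simp_rw [lf_apply]
  refine Finset.analyticAt_fun_sum _ (fun i _ => ?_)
  exact (h i y (Set.mem_univ _)).mul analyticAt_const


theorem III_abs {E : Type} [AddCommGroup E] [Module ℝ E] (W : Submodule ℝ E) (P Q : Fin 4 → Fin 3 → ℝ)
    (hP : LinearIndependent ℝ ![P 1 - P 0, P 2 - P 0, P 3 - P 0])
    (hQ : LinearIndependent ℝ ![Q 1 - Q 0, Q 2 - Q 0, Q 3 - Q 0])
    (vP vQ vX : Fin 4 → Fin 4 → (E →ₗ[ℝ] ℝ))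
    (hsymP : ∀ i j, vP i j = vP j i) (hdiagP : ∀ i, vP i i = 0)
    (hsymQ : ∀ i j, vQ i j = vQ j i) (hdiagQ : ∀ i, vQ i i = 0)
    (hcomp : ∀ j t, P j = Q t → ∀ k, vX j k = vQ t k)
    (y0 : Fin 3 → ℝ) (r : ℝ) (hr : 0 < r)
    (ha : ∀ ν : Fin 4 → ℝ, ∑ i, ν i = 1 → (∀ k, |(∑ i, ν i • Q i) k - y0 k| < r) →
      ∃ m ∈ W, ∑ i, ∑ j, ν i * ν j * vQ i j m ≠ 0)
    (hb : ∀ ν β : Fin 4 → ℝ, ∑ i, ν i = 1 → ∑ i, β i = 1 → ∑ i, ν i • Q i = ∑ i, β i • P i →
      (∀ k, |(∑ i, ν i • Q i) k - y0 k| < r) →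
      ∀ m ∈ W, ∑ i, ∑ j, ν i * ν j * vQ i j m = 0 →
        (∀ k, ∑ j, β j * vX j k m = 0) ∧ ∑ i, ∑ j, β i * β j * vP i j m = 0)
    (hc : ∀ ν : Fin 4 → ℝ, ∑ i, ν i = 1 → (∀ k, |(∑ i, ν i • Q i) k - y0 k| < r) →
      ∃ i j k l, ∃ m ∈ W, ∃ m' ∈ W, ∑ i, ∑ j, ν i * ν j * vQ i j m = 0 ∧ ∑ i, ∑ j, ν i * ν j * vQ i j m' = 0 ∧
        vP i j m * vP k l m' ≠ vP i j m' * vP k l m) :
    ∀ j k, ∀ m ∈ W, vX j k m = 0 := by
  classical
  obtain ⟨ν, hνa, hν1, hνQ, hνu⟩ := bary Q hQ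
  obtain ⟨β, hβa, hβ1, hβP, hβu⟩ := bary P hP
  have hy0 : ∀ k, |y0 k - y0 k| < r := by intro k; simpa using hr
  have hbox : ∀ y : Fin 3 → ℝ, (∀ k, |y k - y0 k| < r) → ∀ k, |(∑ i, ν y i • Q i) k - y0 k| < r := by
    intro y hy k; rw [hνQ y]; exact hy k
  have ha' : ∀ y : Fin 3 → ℝ, (∀ k, |y k - y0 k| < r) → ∃ m ∈ W, qf vQ (ν y) m ≠ 0 := by
    intro y hy
    obtain ⟨m, hm, h⟩ := ha (ν y) (hν1 y) (hbox y hy)
    exact ⟨m, hm, by rwa [qf_apply]⟩
  have hb' : ∀ y : Fin 3 → ℝ, (∀ k, |y k - y0 k| < r) → ∀ m ∈ W, qf vQ (ν y) m = 0 →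
      (∀ k, lf (fun j => vX j k) (β y) m = 0) ∧ qf vP (β y) m = 0 := by
    intro y hy m hm h
    have h1 := hb (ν y) (β y) (hν1 y) (hβ1 y) (by rw [hνQ, hβP]) (hbox y hy) m hm (by rwa [qf_apply] at h)
    refine ⟨fun k => ?_, ?_⟩
    · rw [lf_apply]; exact h1.1 k
    · rw [qf_apply]; exact h1.2
  obtain ⟨i0, j0, k0, l0, mA, hmA, mB, hmB, hqA, hqB, hAB⟩ := hc (ν y0) (hν1 y0) (hbox y0 hy0)
  rw [← qf_apply] at hqA hqB
  obtain ⟨mC, hmC, hqC⟩ := ha' y0 hy0
  -- (0)
  have hpar_s : ∀ k k' : Fin 4, ∀ m ∈ W, ∀ m' ∈ W, ∀ y,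
      lf (fun j => vX j k) (β y) m * lf (fun j => vX j k') (β y) m' =
      lf (fun j => vX j k) (β y) m' * lf (fun j => vX j k') (β y) m := by
    intro k k' m hm m' hm' y
    have h := poly_box (fun y => lf (fun j => vX j k) (β y) m * lf (fun j => vX j k') (β y) m' -
      lf (fun j => vX j k) (β y) m' * lf (fun j => vX j k') (β y) m) ?_ y0 r hr ?_ y
    · exact sub_eq_zero.1 h
    · exact ((lf_analytic _ β hβa m).mul (lf_analytic _ β hβa m')).sub
        ((lf_analytic _ β hβa m').mul (lf_analytic _ β hβa m))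
    · intro y hy
      obtain ⟨m1, hm1, hq1⟩ := ha' y hy
      have e1 := par_of_ker W (qf vQ (ν y)) (lf (fun j => vX j k) (β y)) (fun m hm h => (hb' y hy m hm h).1 k)
      have e2 := par_of_ker W (qf vQ (ν y)) (lf (fun j => vX j k') (β y)) (fun m hm h => (hb' y hy m hm h).1 k')
      have a1 := e1 m1 hm1 m hm
      have a2 := e1 m1 hm1 m' hm'
      have b1 := e2 m1 hm1 m hm
      have b2 := e2 m1 hm1 m' hm'
      have : (qf vQ (ν y) m1) ^ 2 * (lf (fun j => vX j k) (β y) m * lf (fun j => vX j k') (β y) m' -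
        lf (fun j => vX j k) (β y) m' * lf (fun j => vX j k') (β y) m) = 0 := by
        linear_combination (qf vQ (ν y) m1 * lf (fun j => vX j k') (β y) m') * a1 + (qf vQ (ν y) m * lf (fun j => vX j k) (β y) m1) * b2
          - (qf vQ (ν y) m1 * lf (fun j => vX j k') (β y) m) * a2 - (qf vQ (ν y) m' * lf (fun j => vX j k) (β y) m1) * b1
      rcases mul_eq_zero.1 this with h | h
      · exact absurd (pow_eq_zero_iff (two_ne_zero) |>.1 h) hq1
      · exact h
  have hpar_q : ∀ k : Fin 4, ∀ m ∈ W, ∀ m' ∈ W, ∀ y,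
      qf vQ (ν y) m * lf (fun j => vX j k) (β y) m' =
      qf vQ (ν y) m' * lf (fun j => vX j k) (β y) m := by
    intro k m hm m' hm' y
    have h := poly_box (fun y => qf vQ (ν y) m * lf (fun j => vX j k) (β y) m' -
      qf vQ (ν y) m' * lf (fun j => vX j k) (β y) m) ?_ y0 r hr ?_ y
    · exact sub_eq_zero.1 h
    · exact ((qf_analytic _ ν hνa m).mul (lf_analytic _ β hβa m')).sub
        ((qf_analytic _ ν hνa m').mul (lf_analytic _ β hβa m))
    · intro y hy
      have e1 := par_of_ker W (qf vQ (ν y)) (lf (fun j => vX j k) (β y)) (fun m hm h => (hb' y hy m hm h).1 k)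
      have := e1 m hm m' hm'
      simp only [this, sub_self]
  have hpar_P : ∀ k : Fin 4, ∀ m ∈ W, ∀ m' ∈ W, ∀ y,
      qf vP (β y) m * lf (fun j => vX j k) (β y) m' =
      qf vP (β y) m' * lf (fun j => vX j k) (β y) m := by
    intro k m hm m' hm' y
    have h := poly_box (fun y => qf vP (β y) m * lf (fun j => vX j k) (β y) m' -
      qf vP (β y) m' * lf (fun j => vX j k) (β y) m) ?_ y0 r hr ?_ y
    · exact sub_eq_zero.1 h
    · exact ((qf_analytic _ β hβa m).mul (lf_analytic _ β hβa m')).sub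
        ((qf_analytic _ β hβa m').mul (lf_analytic _ β hβa m))
    · intro y hy
      obtain ⟨m1, hm1, hq1⟩ := ha' y hy
      have e1 := par_of_ker W (qf vQ (ν y)) (qf vP (β y)) (fun m hm h => (hb' y hy m hm h).2)
      have e2 := par_of_ker W (qf vQ (ν y)) (lf (fun j => vX j k) (β y)) (fun m hm h => (hb' y hy m hm h).1 k)
      have a1 := e1 m1 hm1 m hm
      have a2 := e1 m1 hm1 m' hm'
      have b1 := e2 m1 hm1 m hm
      have b2 := e2 m1 hm1 m' hm'
      have : (qf vQ (ν y) m1) ^ 2 * (qf vP (β y) m * lf (fun j => vX j k) (β y) m' -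
        qf vP (β y) m' * lf (fun j => vX j k) (β y) m) = 0 := by
        linear_combination (qf vQ (ν y) m1 * lf (fun j => vX j k) (β y) m') * a1 + (qf vQ (ν y) m * qf vP (β y) m1) * b2
          - (qf vQ (ν y) m1 * lf (fun j => vX j k) (β y) m) * a2 - (qf vQ (ν y) m' * qf vP (β y) m1) * b1
      rcases mul_eq_zero.1 this with h | h
      · exact absurd (pow_eq_zero_iff (two_ne_zero) |>.1 h) hq1
      · exact h
  -- (1)
  have hvan : ∀ m ∈ W, (∀ i j, vQ i j m = 0) → ∀ i j, vP i j m = 0 := by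
    intro m hm h i j
    have h1 : ∀ y, qf vP (β y) m = 0 := by
      apply poly_box (fun y => qf vP (β y) m) (qf_analytic _ β hβa m) y0 r hr
      intro y hy
      refine (hb' y hy m hm ?_).2
      rw [qf_apply]; simp [h]
    by_cases hij : i = j
    · rw [hij, hdiagP]; simp
    · have h2 := h1 (∑ p, (Pi.single i (1/2 : ℝ) + Pi.single j (1/2 : ℝ) : Fin 4 → ℝ) p • P p)
      rw [hβu _ (by simp [Finset.sum_add_distrib, Finset.sum_pi_single']; norm_num), qf_apply] at h2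
      simp only [Pi.add_apply, Pi.single_apply, add_mul, mul_add, Finset.sum_add_distrib, ite_mul, zero_mul, mul_ite, mul_zero,
        Finset.sum_ite_eq', Finset.mem_univ, if_true] at h2
      rw [hsymP j i, hdiagP i, hdiagP j] at h2
      simp at h2
      linarith
  -- (3)
  by_contra hne
  push Not at hne
  obtain ⟨j1, k, m1, hm1, hX1⟩ := hne
  have hβaff : ∀ y j, β y j = ∑ l, ν y l * β (Q l) j := by
    intro y j
    have h1 : ∑ j, (∑ l, ν y l * β (Q l) j) = 1 := by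
      rw [Finset.sum_comm]
      simp_rw [← Finset.mul_sum, hβ1, mul_one]
      exact hν1 y
    have h2 : ∑ j, (∑ l, ν y l * β (Q l) j) • P j = y := by
      simp_rw [Finset.sum_smul]
      rw [Finset.sum_comm]
      simp_rw [mul_smul, ← Finset.smul_sum, hβP]
      exact hνQ y
    have h3 := hβu _ h1
    rw [h2] at h3
    rw [h3]
  have hsaff : ∀ (k' : Fin 4) (y : Fin 3 → ℝ) (m : E), lf (fun j => vX j k') (β y) m =
      ∑ l, ν y l * lf (fun j => vX j k') (β (Q l)) m := by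
    intro k' y m
    simp_rw [lf_apply]
    rw [Finset.sum_congr rfl (fun j _ => by rw [hβaff y j])]
    simp_rw [Finset.sum_mul, Finset.mul_sum]
    rw [Finset.sum_comm]
    refine Finset.sum_congr rfl (fun l _ => Finset.sum_congr rfl (fun j _ => by ring))
  have hβP1 : ∀ j, β (P j) = Pi.single j 1 := by
    intro j
    have h := hβu (Pi.single j 1) (by simp)
    have h2 : ∑ i, (Pi.single j 1 : Fin 4 → ℝ) i • P i = P j := by
      simp [Pi.single_apply, ite_smul]
    rwa [h2] at h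
  have hsP : ∀ (k' j : Fin 4) (m : E), lf (fun j => vX j k') (β (P j)) m = vX j k' m := by
    intro k' j m
    rw [hβP1, lf_apply]
    simp [Pi.single_apply]
  set σ : Fin 4 → (E →ₗ[ℝ] ℝ) := fun l => lf (fun j => vX j k) (β (Q l)) with hσ
  have hex : ∀ t : Fin 4, ∃ l l' : Fin 4, l ≠ t ∧ l' ≠ t ∧ l ≠ l' := by decide
  have h4 : ∃ i, ∃ m ∈ W, σ i m ≠ 0 := by
    by_contra hcon
    push Not at hcon
    apply hX1
    rw [← hsP, hsaff]
    exact Finset.sum_eq_zero (fun l _ => by rw [show lf (fun j => vX j k) (β (Q l)) m1 = σ l m1 from rfl, hcon l m1 hm1, mul_zero])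
  have hnp : ∃ i j k l, ∃ m ∈ W, ∃ m' ∈ W, vQ i j m * vQ k l m' ≠ vQ i j m' * vQ k l m := by
    by_contra hcon
    push Not at hcon
    have hz : ∀ m ∈ W, qf vQ (ν y0) m = 0 → ∀ i j, vQ i j m = 0 := by
      intro m hm h i j
      have h1 : vQ i j m * qf vQ (ν y0) mC = vQ i j mC * qf vQ (ν y0) m := by
        rw [qf_apply, qf_apply, Finset.mul_sum, Finset.mul_sum]
        refine Finset.sum_congr rfl (fun a _ => ?_)
        rw [Finset.mul_sum, Finset.mul_sum]
        refine Finset.sum_congr rfl (fun b _ => ?_)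
        have := hcon i j a b m hm mC hmC
        linear_combination (ν y0 a * ν y0 b) * this
      rw [h, mul_zero] at h1
      exact (mul_eq_zero.1 h1).resolve_right hqC
    apply hAB
    rw [hvan mA hmA (hz mA hmA hqA), hvan mA hmA (hz mA hmA hqA)]
    ring
  obtain ⟨S, ρ, hS, hSS, hcc, hSc⟩ := AL W vQ σ hsymQ hdiagQ (by
    intro ν' hν' m hm m' hm'
    have h := hpar_q k m hm m' hm' (∑ i, ν' i • Q i)
    rw [hsaff, hsaff, qf_apply, qf_apply, hνu ν' hν'] at h
    exact h) hnp h4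
  set ρ' : Fin 4 → ℝ := fun j => if j ∈ S then 0 else ρ j with hρ'
  have hσ0 : ∀ i, i ∉ S → ∀ m ∈ W, σ i m = 0 := by
    intro i hi m hm
    by_contra h
    exact hi ((hS i).2 ⟨m, hm, h⟩)
  have hvQ : ∀ i j, ∀ m ∈ W, vQ i j m = ρ' j * σ i m + ρ' i * σ j m := by
    intro i j m hm
    by_cases hi : i ∈ S <;> by_cases hj : j ∈ S
    · simp [hρ', hi, hj, hSS i hi j hj m hm]
    · simp [hρ', hi, hj, hSc i hi j hj m hm]
    · rw [hsymQ]
      simp [hρ', hi, hj, hSc j hj i hi m hm]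
    · simp [hρ', hi, hj, hcc i hi j hj m hm, hσ0 i hi m hm, hσ0 j hj m hm]
  have hqf : ∀ y, ∀ m ∈ W, qf vQ (ν y) m = 2 * (∑ j, ρ' j * ν y j) * lf (fun j => vX j k) (β y) m := by
    intro y m hm
    rw [hsaff, qf_apply]
    rw [Finset.sum_congr rfl (fun i _ => Finset.sum_congr rfl (fun j _ => by rw [hvQ i j m hm]))]
    simp_rw [mul_add, Finset.sum_add_distrib]
    have e1 : ∑ i, ∑ j, ν y i * ν y j * (ρ' j * σ i m) = (∑ j, ρ' j * ν y j) * ∑ l, ν y l * σ l m := by
      rw [Finset.sum_mul_sum, Finset.sum_comm]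
      exact Finset.sum_congr rfl (fun i _ => Finset.sum_congr rfl (fun j _ => by ring))
    have e2 : ∑ i, ∑ j, ν y i * ν y j * (ρ' i * σ j m) = (∑ j, ρ' j * ν y j) * ∑ l, ν y l * σ l m := by
      rw [Finset.sum_mul_sum]
      exact Finset.sum_congr rfl (fun i _ => Finset.sum_congr rfl (fun j _ => by ring))
    rw [e1, e2]; ring
  have hSne : ∃ t, t ∉ S := by
    by_contra hcon
    push Not at hcon
    apply hqC
    rw [hqf y0 mC hmC]
    simp [hρ', hcon]
  obtain ⟨t, ht⟩ := hSne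
  have hsC : lf (fun j => vX j k) (β y0) mC ≠ 0 := by
    intro h
    apply hqC
    rw [hqf y0 mC hmC, h, mul_zero]
  -- dual elements
  have hdual : ∀ l, l ≠ t → ∃ e ∈ W, ∀ i, i ≠ t → σ i e = if i = l then 1 else 0 := by
    set L : (Fin 3 → ℝ) →ₗ[ℝ] ({i : Fin 4 // i ≠ t} → ℝ) :=
      { toFun := fun x i => σ i.1 (x 0 • mA + x 1 • mB + x 2 • mC)
        map_add' := by
          intro x y; funext i
          simp only [Pi.add_apply, map_add, map_smul, smul_eq_mul]; ring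
        map_smul' := by
          intro c x; funext i
          simp only [Pi.smul_apply, map_add, map_smul, smul_eq_mul, RingHom.id_apply]; ring } with hL
    have hLi : Function.Injective L := by
      rw [injective_iff_map_eq_zero]
      intro x hx
      have hzW : x 0 • mA + x 1 • mB + x 2 • mC ∈ W :=
        W.add_mem (W.add_mem (W.smul_mem _ hmA) (W.smul_mem _ hmB)) (W.smul_mem _ hmC)
      have hz : ∀ i, σ i (x 0 • mA + x 1 • mB + x 2 • mC) = 0 := by
        intro i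
        by_cases hi : i = t
        · rw [hi]; exact hσ0 t ht _ hzW
        · exact congrFun hx ⟨i, hi⟩
      have hs0 : lf (fun j => vX j k) (β y0) (x 0 • mA + x 1 • mB + x 2 • mC) = 0 := by
        rw [hsaff]
        exact Finset.sum_eq_zero (fun l _ => by rw [show lf (fun j => vX j k) (β (Q l)) _ = σ l _ from rfl, hz l, mul_zero])
      have hsA := (hb' y0 hy0 mA hmA hqA).1 k
      have hsB := (hb' y0 hy0 mB hmB hqB).1 k
      rw [map_add, map_add, map_smul, map_smul, map_smul, hsA, hsB] at hs0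
      simp at hs0
      have hx2 : x 2 = 0 := hs0.resolve_right hsC
      rw [hx2] at hz hzW
      have hv : ∀ i j, vP i j (x 0 • mA + x 1 • mB + (0:ℝ) • mC) = 0 := by
        apply hvan _ hzW
        intro i j
        rw [hvQ i j _ hzW, hz, hz]; ring
      have v1 := hv i0 j0
      have v2 := hv k0 l0
      simp at v1 v2
      have hdet : vP i0 j0 mA * vP k0 l0 mB - vP i0 j0 mB * vP k0 l0 mA ≠ 0 := sub_ne_zero.2 hAB
      have hx0 : x 0 = 0 := by
        have : x 0 * (vP i0 j0 mA * vP k0 l0 mB - vP i0 j0 mB * vP k0 l0 mA) = 0 := by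
          linear_combination (vP k0 l0 mB) * v1 - (vP i0 j0 mB) * v2
        exact (mul_eq_zero.1 this).resolve_right hdet
      have hx1 : x 1 = 0 := by
        have : x 1 * (vP i0 j0 mA * vP k0 l0 mB - vP i0 j0 mB * vP k0 l0 mA) = 0 := by
          linear_combination (- vP k0 l0 mA) * v1 + (vP i0 j0 mA) * v2
        exact (mul_eq_zero.1 this).resolve_right hdet
      funext i
      fin_cases i
      · exact hx0
      · exact hx1
      · exact hx2
    have hLs : Function.Surjective L := by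
      refine (LinearMap.injective_iff_surjective_of_finrank_eq_finrank ?_).1 hLi
      simp
    intro l hl
    obtain ⟨x, hx⟩ := hLs (fun i => if i.1 = l then 1 else 0)
    refine ⟨x 0 • mA + x 1 • mB + x 2 • mC, W.add_mem (W.add_mem (W.smul_mem _ hmA) (W.smul_mem _ hmB)) (W.smul_mem _ hmC), ?_⟩
    intro i hi
    exact congrFun hx ⟨i, hi⟩
  have hSt : ∀ l, l ≠ t → l ∈ S := by
    intro l hl
    obtain ⟨e, he, h⟩ := hdual l hl
    refine (hS l).2 ⟨e, he, ?_⟩
    rw [h l hl, if_pos rfl]; exact one_ne_zero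
  have hρ0 : ∀ l, l ≠ t → ρ' l = 0 := fun l hl => by simp [hρ', hSt l hl]
  have hρt : ρ' t ≠ 0 := by
    intro h
    apply hqC
    rw [hqf y0 mC hmC]
    have : ∑ j, ρ' j * ν y0 j = 0 := Finset.sum_eq_zero (fun j _ => by
      by_cases hj : j = t
      · rw [hj, h, zero_mul]
      · rw [hρ0 j hj, zero_mul])
    rw [this]; ring
  -- (4)
  have hτ : ∀ k', ∀ m ∈ W, lf (fun j => vX j k') (β (Q t)) m = 0 := by
    intro k'
    have hstep : ∀ l, l ≠ t → ∀ m ∈ W, ∀ m' ∈ W, σ l m * lf (fun j => vX j k') (β (Q t)) m' =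
        σ l m' * lf (fun j => vX j k') (β (Q t)) m := by
      intro l hl m hm m' hm'
      have hx : ∀ x : ℝ, x * σ l m * ((1 - x) * lf (fun j => vX j k') (β (Q t)) m' + x * lf (fun j => vX j k') (β (Q l)) m') =
          x * σ l m' * ((1 - x) * lf (fun j => vX j k') (β (Q t)) m + x * lf (fun j => vX j k') (β (Q l)) m) := by
        intro x
        set a : Fin 4 → ℝ := Pi.single t (1 - x) + Pi.single l x with ha
        have ha1 : ∑ i, a i = 1 := by
          simp [ha, Finset.sum_add_distrib]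
        have h := hpar_s k k' m hm m' hm' (∑ i, a i • Q i)
        rw [hsaff k, hsaff k', hsaff k, hsaff k', hνu a ha1] at h
        simp only [ha, Pi.add_apply, Pi.single_apply, add_mul, Finset.sum_add_distrib, ite_mul, zero_mul,
          Finset.sum_ite_eq', Finset.mem_univ, if_true] at h
        rw [show lf (fun j => vX j k) (β (Q t)) m = 0 from hσ0 t ht m hm,
          show lf (fun j => vX j k) (β (Q t)) m' = 0 from hσ0 t ht m' hm'] at h
        simp only [mul_zero, zero_mul, zero_add] at h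
        exact h
      have x1 := hx 2
      have x2 := hx (-1)
      linear_combination (1/6) * x1 - (2/3) * x2
    intro m hm
    obtain ⟨l, l', hl, hl', hll⟩ := hex t
    obtain ⟨e, he, hei⟩ := hdual l hl
    obtain ⟨e', he', hei'⟩ := hdual l' hl'
    have a1 := hstep l' hl' e' he' e he
    rw [hei' l' hl', hei l' hl', if_pos rfl, if_neg (Ne.symm hll), one_mul, zero_mul] at a1
    have a2 := hstep l hl e he m hm
    rw [hei l hl, if_pos rfl, a1, one_mul, mul_zero] at a2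
    exact a2
  obtain ⟨l, l', hl, hl', hll⟩ := hex t
  obtain ⟨e, he, hei⟩ := hdual l hl
  by_cases hPt : ∃ j, P j = Q t
  · obtain ⟨j, hj⟩ := hPt
    have h1 := hτ l e he
    rw [← hj, hsP, hcomp j t hj, hvQ t l e he, hei l hl, if_pos rfl, hρ0 l hl, zero_mul, zero_add, mul_one] at h1
    exact hρt h1
  · push Not at hPt
    have hne : ∀ j, ∃ m ∈ W, vX j k m ≠ 0 := by
      intro j
      have h1 : ∃ l, l ≠ t ∧ ν (P j) l ≠ 0 := by
        by_contra hcon
        push Not at hcon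
        apply hPt j
        have h2 := hνQ (P j)
        have h3 := hν1 (P j)
        rw [Finset.sum_eq_single t (fun b _ hb => hcon b hb) (by simp)] at h3
        rw [Finset.sum_eq_single t (fun b _ hb => by rw [hcon b hb, zero_smul]) (by simp), h3, one_smul] at h2
        exact h2.symm
      obtain ⟨l, hl, hνl⟩ := h1
      obtain ⟨e, he, hei⟩ := hdual l hl
      refine ⟨e, he, ?_⟩
      rw [← hsP, hsaff, Finset.sum_eq_single l]
      · rw [show lf (fun j => vX j k) (β (Q l)) e = σ l e from rfl, hei l hl, if_pos rfl, mul_one]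
        exact hνl
      · intro b _ hb
        rw [show lf (fun j => vX j k) (β (Q b)) e = σ b e from rfl]
        by_cases hbt : b = t
        · rw [hbt, hσ0 t ht e he, mul_zero]
        · rw [hei b hbt, if_neg hb, mul_zero]
      · simp
    obtain ⟨S', ρ'', hS', hSS', -, -⟩ := AL W vP (fun j => vX j k) hsymP hdiagP (by
      intro ν' hν' m hm m' hm'
      have h := hpar_P k m hm m' hm' (∑ i, ν' i • P i)
      rw [hβu ν' hν', qf_apply, qf_apply, lf_apply, lf_apply] at h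
      exact h) ⟨i0, j0, k0, l0, mA, hmA, mB, hmB, hAB⟩ ⟨0, hne 0⟩
    apply hAB
    rw [hSS' i0 ((hS' i0).2 (hne i0)) j0 ((hS' j0).2 (hne j0)) mA hmA, hSS' i0 ((hS' i0).2 (hne i0)) j0 ((hS' j0).2 (hne j0)) mB hmB]
    ring

end Pool.Agent.Reg5.J2282
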