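import Pool.Agent.Helper927.R5Defs
set_option autoImplicit false
set_option maxHeartbeats 4000000

namespace Pool.Agent.Reg5.J2518
open Pool.Agent.Reg5





theorem mot_congr {V : Type} (G : SimpleGraph V) (p p' m m' : V → Fin 3 → ℝ)
    (h : ∀ a b, G.Adj a b → p a = p' a ∧ m a = m' a) : IsMot G p m ↔ IsMot G p' m' := by
  have e : ∀ a b, G.Adj a b → dd p m a b = dd p' m' a b := by
    intro a b hab
    obtain ⟨h1, h2⟩ := h a b hab
    obtain ⟨h3, h4⟩ := h b a hab.symm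
    simp only [dd, h1, h2, h3, h4]
  constructor
  · intro hm a b hab
    rw [← e a b hab]; exact hm a b hab
  · intro hm a b hab
    rw [e a b hab]; exact hm a b hab

theorem SF_congr {V : Type} [Fintype V] (G : SimpleGraph V) (p p' : V → Fin 3 → ℝ)
    (h : ∀ a b, G.Adj a b → p a = p' a) : SF G p ↔ SF G p' := by
  have e : ∀ w : V → V → ℝ, (∀ a b, ¬ G.Adj a b → w a b = 0) →
      ∀ a, ∑ b, w a b • (p a - p b) = ∑ b, w a b • (p' a - p' b) := by
    intro w hw a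
    refine Finset.sum_congr rfl fun b _ => ?_
    by_cases hab : G.Adj a b
    · rw [h a b hab, h b a hab.symm]
    · rw [hw a b hab, zero_smul, zero_smul]
  constructor
  · intro hS w h1 h2 h3
    exact hS w h1 h2 (fun a => by rw [e w h2 a]; exact h3 a)
  · intro hS w h1 h2 h3
    exact hS w h1 h2 (fun a => by rw [← e w h2 a]; exact h3 a)

open Matrix in
theorem aux663_solve (r : Fin 3 → Fin 3 → ℝ) (h : LinearIndependent ℝ r) (b : Fin 3 → ℝ) :
    ∃ z : Fin 3 → ℝ, ∀ l, r l ⬝ᵥ z = b l := by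
  have hu : IsUnit (Matrix.of r) := (Matrix.linearIndependent_rows_iff_isUnit (A := Matrix.of r)).1 h
  have hd : IsUnit (Matrix.of r).det := (Matrix.isUnit_iff_isUnit_det _).1 hu
  refine ⟨(Matrix.of r)⁻¹ *ᵥ b, fun l => ?_⟩
  have h1 : (Matrix.of r) *ᵥ ((Matrix.of r)⁻¹ *ᵥ b) = b := by
    rw [Matrix.mulVec_mulVec, Matrix.mul_nonsing_inv _ hd, Matrix.one_mulVec]
  exact congrFun h1 l

theorem ext3 (q y M : Fin 3 → Fin 3 → ℝ) (x : Fin 3 → ℝ) (hli : LinearIndependent ℝ ![x - q 0, x - q 1, x - q 2]) :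
    ∃ z : Fin 3 → ℝ, ∀ l, (x - q l) ⬝ᵥ (z - M l) = 0 := by
  have e : (![x - q 0, x - q 1, x - q 2] : Fin 3 → Fin 3 → ℝ) = fun l => x - q l := by
    funext l
    fin_cases l <;> rfl
  rw [e] at hli
  obtain ⟨z, hz⟩ := aux663_solve _ hli (fun l => (x - q l) ⬝ᵥ M l)
  refine ⟨z, fun l => ?_⟩
  rw [dotProduct_sub, hz l, sub_self]

theorem load4 {ι : Type} [Fintype ι] (Q M : ι → Fin 3 → ℝ) (ν : ι → ℝ) (hν : ∑ i, ν i = 1) :
    2 * ∑ l, ν l * (((∑ i, ν i • Q i) - Q l) ⬝ᵥ M l) = - ∑ i, ∑ j, ν i * ν j * ((Q i - Q j) ⬝ᵥ (M i - M j)) := by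
  have h1 : ∀ l, ν l * (((∑ i, ν i • Q i) - Q l) ⬝ᵥ M l) =
      ∑ i, ν l * ν i * ((Q i - Q l) ⬝ᵥ M l) := by
    intro l
    have : (∑ i, ν i • Q i) - Q l = ∑ i, ν i • (Q i - Q l) := by
      simp only [smul_sub, Finset.sum_sub_distrib, ← Finset.sum_smul, hν, one_smul]
    rw [this, sum_dotProduct, Finset.mul_sum]
    refine Finset.sum_congr rfl fun i _ => ?_
    rw [smul_dotProduct, smul_eq_mul]; ring
  have h2 : ∑ l, ν l * (((∑ i, ν i • Q i) - Q l) ⬝ᵥ M l) =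
      ∑ l, ∑ i, ν l * ν i * ((Q i - Q l) ⬝ᵥ M l) := Finset.sum_congr rfl fun l _ => h1 l
  have h3 : ∑ l, ∑ i, ν l * ν i * ((Q i - Q l) ⬝ᵥ M l) =
      ∑ l, ∑ i, ν l * ν i * ((Q l - Q i) ⬝ᵥ M i) := by
    rw [Finset.sum_comm]
    refine Finset.sum_congr rfl fun l _ => Finset.sum_congr rfl fun i _ => ?_
    ring
  have h4 : - ∑ i, ∑ j, ν i * ν j * ((Q i - Q j) ⬝ᵥ (M i - M j)) =
      ∑ l, ∑ i, ν l * ν i * ((Q i - Q l) ⬝ᵥ M l) + ∑ l, ∑ i, ν l * ν i * ((Q l - Q i) ⬝ᵥ M i) := by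
    rw [← Finset.sum_add_distrib, ← Finset.sum_neg_distrib]
    refine Finset.sum_congr rfl fun l _ => ?_
    rw [← Finset.sum_add_distrib, ← Finset.sum_neg_distrib]
    refine Finset.sum_congr rfl fun i _ => ?_
    have : Q i - Q l = -(Q l - Q i) := by abel
    rw [this, neg_dotProduct, dotProduct_sub]
    ring
  rw [h4, ← h3, h2]
  ring

theorem aux663_aff (Q : Fin 4 → Fin 3 → ℝ)
    (hQ : LinearIndependent ℝ ![Q 1 - Q 0, Q 2 - Q 0, Q 3 - Q 0]) (c : Fin 4 → ℝ)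
    (h0 : ∑ i, c i = 0) (h1 : ∑ i, c i • Q i = 0) : ∀ i, c i = 0 := by
  rw [Fin.sum_univ_four] at h0 h1
  have hc0 : c 0 = -(c 1 + c 2 + c 3) := by linarith
  have key : c 1 • (Q 1 - Q 0) + c 2 • (Q 2 - Q 0) + c 3 • (Q 3 - Q 0) = 0 := by
    rw [hc0] at h1
    rw [← h1]; module
  rw [Fintype.linearIndependent_iff] at hQ
  have h2 := hQ ![c 1, c 2, c 3] (by
    rw [Fin.sum_univ_three]
    exact key)
  have k1 : c 1 = 0 := h2 0
  have k2 : c 2 = 0 := h2 1
  have k3 : c 3 = 0 := h2 2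
  have k0 : c 0 = 0 := by rw [hc0, k1, k2, k3]; ring
  intro i
  fin_cases i
  · exact k0
  · exact k1
  · exact k2
  · exact k3

theorem ext4 (Q M : Fin 4 → Fin 3 → ℝ) (hQ : LinearIndependent ℝ ![Q 1 - Q 0, Q 2 - Q 0, Q 3 - Q 0])
    (ν : Fin 4 → ℝ) (hν : ∑ i, ν i = 1) :
    (∃ z : Fin 3 → ℝ, ∀ l, ((∑ i, ν i • Q i) - Q l) ⬝ᵥ (z - M l) = 0) ↔
      ∑ i, ∑ j, ν i * ν j * ((Q i - Q j) ⬝ᵥ (M i - M j)) = 0 := by
  have hl := load4 Q M ν hν
  set y : Fin 3 → ℝ := ∑ i, ν i • Q i with hy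
  have hr : ∑ l, ν l • (y - Q l) = 0 := by
    simp only [smul_sub, Finset.sum_sub_distrib, ← Finset.sum_smul, hν, one_smul]
    rw [← hy, sub_self]
  have hrz : ∀ z : Fin 3 → ℝ, ∑ l, ν l * ((y - Q l) ⬝ᵥ (z - M l)) =
      - ∑ l, ν l * ((y - Q l) ⬝ᵥ M l) := by
    intro z
    have h1 : ∑ l, ν l * ((y - Q l) ⬝ᵥ z) = 0 := by
      have : (∑ l, ν l • (y - Q l)) ⬝ᵥ z = 0 := by rw [hr, zero_dotProduct]
      rw [sum_dotProduct] at this
      rw [← this]
      refine Finset.sum_congr rfl fun l _ => ?_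
      rw [smul_dotProduct, smul_eq_mul]
    have h2 : ∑ l, ν l * ((y - Q l) ⬝ᵥ (z - M l)) =
        ∑ l, ν l * ((y - Q l) ⬝ᵥ z) - ∑ l, ν l * ((y - Q l) ⬝ᵥ M l) := by
      rw [← Finset.sum_sub_distrib]
      refine Finset.sum_congr rfl fun l _ => ?_
      rw [dotProduct_sub]; ring
    rw [h2, h1, zero_sub]
  constructor
  · rintro ⟨z, hz⟩
    have h1 := hrz z
    have h2 : ∑ l, ν l * ((y - Q l) ⬝ᵥ (z - M l)) = 0 :=
      Finset.sum_eq_zero fun l _ => by rw [hz l, mul_zero]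
    rw [h2] at h1
    linarith
  · intro h0
    rw [h0, neg_zero] at hl
    have hl0 : ∑ l, ν l * ((y - Q l) ⬝ᵥ M l) = 0 := by linarith
    obtain ⟨l0, hl0'⟩ : ∃ l, ν l ≠ 0 := by
      by_contra hcon
      push Not at hcon
      rw [Finset.sum_eq_zero fun i _ => hcon i] at hν
      exact zero_ne_one hν
    have hli : LinearIndependent ℝ (fun l : Fin 3 => y - Q (l0.succAbove l)) := by
      rw [Fintype.linearIndependent_iff]
      intro g hg
      set c : Fin 4 → ℝ := l0.insertNth (α := fun _ => ℝ) 0 g with hc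
      have hc0 : c l0 = 0 := by rw [hc]; simp
      have hcj : ∀ j, c (l0.succAbove j) = g j := by intro j; rw [hc]; simp
      have hsum : ∑ l, c l • (y - Q l) = 0 := by
        rw [Fin.sum_univ_succAbove _ l0, hc0, zero_smul, zero_add, ← hg]
        refine Finset.sum_congr rfl fun j _ => ?_
        rw [hcj]
      set S : ℝ := ∑ l, c l with hS
      have haff := aux663_aff Q hQ (fun i => S * ν i - c i) (by
        rw [Finset.sum_sub_distrib, ← Finset.mul_sum, hν, mul_one, sub_self]) (by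
        have e1 : ∑ i, (S * ν i - c i) • Q i = S • y - ∑ i, c i • Q i := by
          rw [hy, Finset.smul_sum, ← Finset.sum_sub_distrib]
          refine Finset.sum_congr rfl fun i _ => ?_
          rw [sub_smul, mul_smul]
        rw [e1, ← hsum]
        simp only [smul_sub, Finset.sum_sub_distrib, ← Finset.sum_smul]
        rw [← hS])
      have hS0 : S = 0 := by
        have := haff l0
        simp only [hc0, sub_zero] at this
        rcases mul_eq_zero.1 this with h | h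
        · exact h
        · exact absurd h hl0'
      intro j
      have := haff (l0.succAbove j)
      simp only [hS0, zero_mul, zero_sub, neg_eq_zero, hcj] at this
      exact this
    obtain ⟨z, hz⟩ := aux663_solve _ hli (fun l => (y - Q (l0.succAbove l)) ⬝ᵥ M (l0.succAbove l))
    have hother : ∀ j, (y - Q (l0.succAbove j)) ⬝ᵥ (z - M (l0.succAbove j)) = 0 := by
      intro j
      rw [dotProduct_sub, hz j, sub_self]
    refine ⟨z, fun l => ?_⟩
    rcases Fin.eq_self_or_eq_succAbove l0 l with rfl | ⟨j, rfl⟩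
    · have h1 := hrz z
      rw [hl0, neg_zero, Fin.sum_univ_succAbove _ l] at h1
      have h2 : ∑ i : Fin 3, ν (l.succAbove i) * ((y - Q (l.succAbove i)) ⬝ᵥ
          (z - M (l.succAbove i))) = 0 :=
        Finset.sum_eq_zero fun j _ => by rw [hother j, mul_zero]
      rw [h2, add_zero] at h1
      exact (mul_eq_zero.1 h1).resolve_left hl0'
    · exact hother j

end Pool.Agent.Reg5.J2518
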