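import Pool.Agent.Helper927.R5Defs
import Pool.Agent.Helper927.R5x2258
import Pool.Agent.Helper927.R5x2260
import Pool.Agent.Helper927.R5x2266
import Pool.Agent.Helper927.R5x2272
set_option autoImplicit false
set_option maxHeartbeats 4000000

namespace Pool.Agent.Reg5.J2273
open Pool.Agent.Reg5
open Pool.Agent.Reg5.J2266 (SF_add)
open Pool.Agent.Reg5.J2258 (dg_add_left)
open Pool.Agent.Reg5.J2258 (dg_add_other)
open Pool.Agent.Reg5.J2258 (ie_add)
open Pool.Agent.Reg5.J2272 (ind_sparse)
open Pool.Agent.Reg5.J2260 (sparse_add)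


theorem J_implied {V : Type} [Fintype V] [DecidableEq V] (G : SimpleGraph V) (p : V → Fin 3 → ℝ) (hp : Good p)
    (hG : Ind G) (a b : V) (hJ : J G a b) (m : V → Fin 3 → ℝ) (hm : IsMot G p m) : dd p m a b = 0 := by
  by_cases hadj : G.Adj a b
  · exact hm a b hadj
  rcases hJ with hJ | ⟨X, hX, haX, hbX⟩
  · exact absurd hJ hadj
  by_cases hab : a = b
  · subst hab
    simp [dd]
  by_contra hne
  have hSF : SF G p := hp.2 G hG
  have hSF2 : SF (add G a b) p := (SF_add G p a b hab hadj hSF).2 ⟨m, hm, hne⟩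
  have hsp : Sparse (add G a b) := ind_sparse _ ⟨p, hSF2⟩
  have h1 := hsp X (by have := hX.1; omega)
  rw [ie_add G a b hab hadj X, if_pos ⟨haX, hbX⟩] at h1
  have h2 := hX.2
  omega

theorem implied_J {V : Type} [Fintype V] [DecidableEq V] (G : SimpleGraph V) (p : V → Fin 3 → ℝ) (hp : Good p)
    (hG : Cls G) (hI : Ind G) (n : ℕ) (IH : ∀ G' : SimpleGraph V, Cls G' → ie G' Finset.univ < n → Ind G')
    (hlt : ie G Finset.univ + 1 < n) (a b : V) (hab : a ≠ b) (hda : dg G Finset.univ a ≤ 4)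
    (hdb : dg G Finset.univ b ≤ 4) (h : ∀ m, IsMot G p m → dd p m a b = 0) : J G a b := by
  by_contra hJ
  have hadj : ¬ G.Adj a b := fun h' => hJ (Or.inl h')
  have hsp : Sparse (add G a b) := sparse_add G hG.1 a b hab hJ
  obtain ⟨hdl, hdr⟩ := dg_add_left G a b hab hadj
  have hcls : Cls (add G a b) := by
    refine ⟨hsp, fun x => ?_⟩
    by_cases hxa : x = a
    · subst hxa
      rw [hdl]; omega
    · by_cases hxb : x = b
      · subst hxb
        rw [hdr]; omega
      · rw [dg_add_other G a b x hxa hxb]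
        exact hG.2 x
  have hie : ie (add G a b) Finset.univ < n := by
    rw [ie_add G a b hab hadj, if_pos ⟨Finset.mem_univ _, Finset.mem_univ _⟩]
    exact hlt
  have hind : Ind (add G a b) := IH _ hcls hie
  have hSF2 : SF (add G a b) p := hp.2 _ hind
  obtain ⟨m, hm, hne⟩ := (SF_add G p a b hab hadj (hp.2 G hI)).1 hSF2
  exact hne (h m hm)

end Pool.Agent.Reg5.J2273
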