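import Pool.Agent.Helper927.R5Defs
set_option autoImplicit false
set_option maxHeartbeats 4000000

namespace Pool.Agent.Reg5.J2520
open Pool.Agent.Reg5





theorem mu_four {V : Type} (p : V → Fin 3 → ℝ) (hp : GP p) (a b c d : V) (hab : a ≠ b) (hac : a ≠ c)
    (had : a ≠ d) (hbc : b ≠ c) (hbd : b ≠ d) (hcd : c ≠ d) (x y z w : ℝ)
    (h0 : x + y + z + w = 0) (h1 : x • p a + y • p b + z • p c + w • p d = 0) :
    x = 0 ∧ y = 0 ∧ z = 0 ∧ w = 0 := by
  have hl := hp.2.2 a b c d hab hac had hbc hbd hcd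
  rw [Fintype.linearIndependent_iff] at hl
  have hx : x = -(y + z + w) := by linarith
  have h2 := hl ![y, z, w] (by
    rw [Fin.sum_univ_three]
    show y • (p b - p a) + z • (p c - p a) + w • (p d - p a) = 0
    rw [hx] at h1
    rw [← h1]
    module)
  have e1 : y = 0 := h2 0
  have e2 : z = 0 := h2 1
  have e3 : w = 0 := h2 2
  refine ⟨?_, e1, e2, e3⟩
  rw [hx, e1, e2, e3]; ring

theorem mu_vanish {V : Type} (p : V → Fin 3 → ℝ) (hp : GP p) (n : Fin 5 → V)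
    (hn : Function.Injective n) (l : Fin 5 → ℝ) (h0 : ∑ i, l i = 0) (h1 : ∑ i, l i • p (n i) = 0)
    (i₀ : Fin 5) (hi : l i₀ = 0) : l = 0 := by
  rw [Fin.sum_univ_five] at h0 h1
  have hne : ∀ i j : Fin 5, i ≠ j → n i ≠ n j := fun i j h h' => h (hn h')
  have key : ∀ a b c d : Fin 5, a ≠ b → a ≠ c → a ≠ d → b ≠ c → b ≠ d → c ≠ d →
      l a + l b + l c + l d = 0 → l a • p (n a) + l b • p (n b) + l c • p (n c) + l d • p (n d) = 0 →
      l a = 0 ∧ l b = 0 ∧ l c = 0 ∧ l d = 0 := by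
    intro a b c d hab hac had hbc hbd hcd h0 h1
    exact mu_four p hp (n a) (n b) (n c) (n d) (hne _ _ hab) (hne _ _ hac) (hne _ _ had)
      (hne _ _ hbc) (hne _ _ hbd) (hne _ _ hcd) _ _ _ _ h0 h1
  have hfin : l 0 = 0 ∧ l 1 = 0 ∧ l 2 = 0 ∧ l 3 = 0 ∧ l 4 = 0 := by
    fin_cases i₀
    · have hi' : l 0 = 0 := hi
      rw [hi', zero_smul, zero_add] at h1
      rw [hi', zero_add] at h0
      obtain ⟨e1, e2, e3, e4⟩ := key 1 2 3 4 (by decide) (by decide) (by decide) (by decide)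
        (by decide) (by decide) h0 h1
      exact ⟨hi', e1, e2, e3, e4⟩
    · have hi' : l 1 = 0 := hi
      rw [hi', zero_smul, add_zero] at h1
      rw [hi', add_zero] at h0
      obtain ⟨e1, e2, e3, e4⟩ := key 0 2 3 4 (by decide) (by decide) (by decide) (by decide)
        (by decide) (by decide) h0 h1
      exact ⟨e1, hi', e2, e3, e4⟩
    · have hi' : l 2 = 0 := hi
      rw [hi', zero_smul, add_zero] at h1
      rw [hi', add_zero] at h0
      obtain ⟨e1, e2, e3, e4⟩ := key 0 1 3 4 (by decide) (by decide) (by decide) (by decide)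
        (by decide) (by decide) h0 h1
      exact ⟨e1, e2, hi', e3, e4⟩
    · have hi' : l 3 = 0 := hi
      rw [hi', zero_smul, add_zero] at h1
      rw [hi', add_zero] at h0
      obtain ⟨e1, e2, e3, e4⟩ := key 0 1 2 4 (by decide) (by decide) (by decide) (by decide)
        (by decide) (by decide) h0 h1
      exact ⟨e1, e2, e3, hi', e4⟩
    · have hi' : l 4 = 0 := hi
      rw [hi', zero_smul, add_zero] at h1
      rw [hi', add_zero] at h0
      obtain ⟨e1, e2, e3, e4⟩ := key 0 1 2 3 (by decide) (by decide) (by decide) (by decide)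
        (by decide) (by decide) h0 h1
      exact ⟨e1, e2, e3, e4, hi'⟩
  funext i
  fin_cases i
  · exact hfin.1
  · exact hfin.2.1
  · exact hfin.2.2.1
  · exact hfin.2.2.2.1
  · exact hfin.2.2.2.2

theorem exists_mu {V : Type} (p : V → Fin 3 → ℝ) (hp : GP p) (n : Fin 5 → V) (hn : Function.Injective n) :
    ∃ μ : Fin 5 → ℝ, (∀ i, μ i ≠ 0) ∧ ∑ i, μ i = 0 ∧ ∑ i, μ i • p (n i) = 0 ∧
      ∀ l : Fin 5 → ℝ, ∑ i, l i = 0 → ∑ i, l i • p (n i) = 0 → ∃ s : ℝ, l = s • μ := by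
  set L : (Fin 5 → ℝ) →ₗ[ℝ] (ℝ × (Fin 3 → ℝ)) :=
    LinearMap.prod (Fintype.linearCombination ℝ (fun _ : Fin 5 => (1 : ℝ)))
      (Fintype.linearCombination ℝ (fun i => p (n i))) with hL
  have hker : LinearMap.ker L ≠ ⊥ := by
    apply LinearMap.ker_ne_bot_of_finrank_lt
    simp
  obtain ⟨μ, hμ, hμ0⟩ := Submodule.exists_mem_ne_zero_of_ne_bot hker
  rw [LinearMap.mem_ker] at hμ
  have h0 : ∑ i, μ i = 0 := by
    have := congrArg Prod.fst hμ
    simpa [hL, Fintype.linearCombination_apply] using this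
  have h1 : ∑ i, μ i • p (n i) = 0 := by
    have := congrArg Prod.snd hμ
    simpa [hL, Fintype.linearCombination_apply] using this
  have hne : ∀ i, μ i ≠ 0 := by
    intro i hi
    exact hμ0 (mu_vanish p hp n hn μ h0 h1 i hi)
  refine ⟨μ, hne, h0, h1, ?_⟩
  intro l hl0 hl1
  refine ⟨l 0 / μ 0, ?_⟩
  have h2 := mu_vanish p hp n hn (l - (l 0 / μ 0) • μ) (by
      simp only [Pi.sub_apply, Pi.smul_apply, smul_eq_mul]
      rw [Finset.sum_sub_distrib, ← Finset.mul_sum, hl0, h0]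
      ring) (by
      simp only [Pi.sub_apply, Pi.smul_apply, smul_eq_mul, sub_smul, mul_smul]
      rw [Finset.sum_sub_distrib, ← Finset.smul_sum, hl1, h1, smul_zero, sub_zero]) 0 (by
      simp only [Pi.sub_apply, Pi.smul_apply, smul_eq_mul]
      rw [div_mul_cancel₀ _ (hne 0), sub_self])
  exact sub_eq_zero.1 h2

theorem III_expand {V : Type} (p m : V → Fin 3 → ℝ) (n : Fin 5 → V) (μ : Fin 5 → ℝ)
    (hμ0 : ∑ i, μ i = 0) (hμ1 : ∑ i, μ i • p (n i) = 0) (w : V) :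
    ∑ j, μ j * dd p m w (n j) = ∑ j, μ j * (p (n j) ⬝ᵥ m (n j)) - p w ⬝ᵥ (∑ j, μ j • m (n j)) := by
  have h1 : ∀ j, μ j * dd p m w (n j) = μ j * (p w ⬝ᵥ m w) - μ j * (p w ⬝ᵥ m (n j)) -
      μ j * (p (n j) ⬝ᵥ m w) + μ j * (p (n j) ⬝ᵥ m (n j)) := by
    intro j
    unfold dd
    rw [sub_dotProduct, dotProduct_sub, dotProduct_sub]
    ring
  have h2 : ∑ j, μ j * (p (n j) ⬝ᵥ m w) = 0 := by
    have : ∑ j, μ j * (p (n j) ⬝ᵥ m w) = (∑ j, μ j • p (n j)) ⬝ᵥ m w := by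
      rw [sum_dotProduct]
      refine Finset.sum_congr rfl fun j _ => ?_
      rw [smul_dotProduct, smul_eq_mul]
    rw [this, hμ1, zero_dotProduct]
  have h3 : ∑ j, μ j * (p w ⬝ᵥ m (n j)) = p w ⬝ᵥ (∑ j, μ j • m (n j)) := by
    rw [dotProduct_sum]
    refine Finset.sum_congr rfl fun j _ => ?_
    rw [dotProduct_smul, smul_eq_mul]
  have h4 : ∑ j, μ j * (p w ⬝ᵥ m w) = 0 := by
    rw [← Finset.sum_mul, hμ0, zero_mul]
  rw [Finset.sum_congr rfl (fun j _ => h1 j), Finset.sum_add_distrib, Finset.sum_sub_distrib,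
    Finset.sum_sub_distrib, h2, h3, h4]
  ring

theorem III_all {V : Type} (p : V → Fin 3 → ℝ) (hp : GP p) (n : Fin 5 → V) (hinj : Function.Injective n)
    (μ : Fin 5 → ℝ) (hμ0 : ∑ i, μ i = 0) (hμ1 : ∑ i, μ i • p (n i) = 0) (m : V → Fin 3 → ℝ)
    (h : ∀ i, ∑ j, μ j * dd p m (n i) (n j) = 0) : ∀ w, ∑ j, μ j * dd p m (n j) w = 0 := by
  set D := ∑ j, μ j • m (n j) with hD
  set C := ∑ j, μ j * (p (n j) ⬝ᵥ m (n j)) with hC
  have hexp := III_expand p m n μ hμ0 hμ1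
  rw [← hD, ← hC] at hexp
  have hi : ∀ i, p (n i) ⬝ᵥ D = C := by
    intro i
    have := h i
    rw [hexp] at this
    linarith
  have hne : ∀ i j : Fin 5, i ≠ j → n i ≠ n j := fun i j h h' => h (hinj h')
  have hli := hp.2.2 (n 0) (n 1) (n 2) (n 3) (hne _ _ (by decide)) (hne _ _ (by decide))
    (hne _ _ (by decide)) (hne _ _ (by decide)) (hne _ _ (by decide)) (hne _ _ (by decide))
  have hD0 : D = 0 := by
    set A : Matrix (Fin 3) (Fin 3) ℝ := Matrix.of ![p (n 1) - p (n 0), p (n 2) - p (n 0),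
      p (n 3) - p (n 0)] with hA
    have hu : IsUnit A := Matrix.linearIndependent_rows_iff_isUnit.1 hli
    have hinjA := Matrix.mulVec_injective_iff_isUnit.2 hu
    apply hinjA
    rw [Matrix.mulVec_zero]
    funext i
    fin_cases i
    · show (p (n 1) - p (n 0)) ⬝ᵥ D = 0
      rw [sub_dotProduct, hi, hi, sub_self]
    · show (p (n 2) - p (n 0)) ⬝ᵥ D = 0
      rw [sub_dotProduct, hi, hi, sub_self]
    · show (p (n 3) - p (n 0)) ⬝ᵥ D = 0
      rw [sub_dotProduct, hi, hi, sub_self]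
  have hC0 : C = 0 := by rw [← hi 0, hD0, dotProduct_zero]
  intro w
  have hsym : ∀ j, dd p m (n j) w = dd p m w (n j) := by
    intro j
    unfold dd
    rw [← neg_sub (p w), ← neg_sub (m w), neg_dotProduct_neg]
  simp only [hsym]
  rw [hexp, hC0, hD0, dotProduct_zero, sub_zero]

end Pool.Agent.Reg5.J2520
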