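import Pool.Agent.Helper927.R5Defs
import Pool.Agent.Helper927.R5x2267
import Pool.Agent.Helper927.R5x2518
import Pool.Agent.Helper927.R5x2520
set_option autoImplicit false
set_option maxHeartbeats 4000000

namespace Pool.Agent.Reg5.J2521
open Pool.Agent.Reg5
open Pool.Agent.Reg5.J2518 (SF_congr)
open Pool.Agent.Reg5.J2267 (dep_vertex)
open Pool.Agent.Reg5.J2520 (exists_mu)
open Pool.Agent.Reg5.J2518 (load4)
open Pool.Agent.Reg5.J2518 (mot_congr)


theorem LA_partial {ι : Type} [Fintype ι] (Q M : ι → Fin 3 → ℝ) (μ ν : ι → ℝ) (hμ0 : ∑ i, μ i = 0)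
    (hμ1 : ∑ i, μ i • Q i = 0) (hν : ∑ i, ν i = 1) :
    ∑ j, μ j * (((∑ i, ν i • Q i) - Q j) ⬝ᵥ M j) =
      - ∑ i, ν i * ∑ j, μ j * ((Q i - Q j) ⬝ᵥ (M i - M j)) := by
  have h1 : ∀ i, ∑ j, μ j * ((Q i - Q j) ⬝ᵥ (M i - M j)) = - ∑ j, μ j * ((Q i - Q j) ⬝ᵥ M j) := by
    intro i
    have e1 : ∑ j, μ j * ((Q i - Q j) ⬝ᵥ M i) = 0 := by
      have e2 : ∑ j, μ j * ((Q i - Q j) ⬝ᵥ M i) = (∑ j, μ j • (Q i - Q j)) ⬝ᵥ M i := by
        rw [sum_dotProduct]
        exact Finset.sum_congr rfl fun j _ => by rw [smul_dotProduct, smul_eq_mul]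
      rw [e2]
      have e3 : ∑ j, μ j • (Q i - Q j) = 0 := by
        simp only [smul_sub, Finset.sum_sub_distrib]
        rw [hμ1, ← Finset.sum_smul, hμ0, zero_smul, sub_zero]
      rw [e3, zero_dotProduct]
    simp only [dotProduct_sub, mul_sub, Finset.sum_sub_distrib]
    rw [e1, zero_sub]
  have h2 : ∀ j, ((∑ i, ν i • Q i) - Q j) ⬝ᵥ M j = ∑ i, ν i * ((Q i - Q j) ⬝ᵥ M j) := by
    intro j
    have e1 : (∑ i, ν i • Q i) - Q j = ∑ i, ν i • (Q i - Q j) := by
      simp only [smul_sub, Finset.sum_sub_distrib]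
      rw [← Finset.sum_smul, hν, one_smul]
    rw [e1, sum_dotProduct]
    exact Finset.sum_congr rfl fun i _ => by rw [smul_dotProduct, smul_eq_mul]
  simp only [h1, h2, mul_neg, Finset.sum_neg_distrib, neg_neg, Finset.mul_sum]
  rw [Finset.sum_comm]
  refine Finset.sum_congr rfl fun i _ => Finset.sum_congr rfl fun j _ => ?_
  ring

theorem LA_sum {V : Type} [Fintype V] [DecidableEq V] {M : Type*} [AddCommMonoid M] (n : Fin 5 → V)
    (hinj : Function.Injective n) (F : V → M) (hF : ∀ y, (¬ ∃ i, n i = y) → F y = 0) :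
    ∑ y, F y = ∑ i, F (n i) := by
  have hmap : ∑ i, F (n i) = ∑ y ∈ Finset.univ.map ⟨n, hinj⟩, F y := by
    rw [Finset.sum_map]
    rfl
  rw [hmap]
  symm
  apply Finset.sum_subset (Finset.subset_univ _)
  intro y _ hy
  apply hF
  rintro ⟨i, rfl⟩
  apply hy
  rw [Finset.mem_map]
  exact ⟨i, Finset.mem_univ _, rfl⟩

theorem LA {V : Type} [Fintype V] [DecidableEq V] (G : SimpleGraph V) (hn : ¬ Ind G) (v : V)
    (p : V → Fin 3 → ℝ) (hp : Good p) (hF : Ind (del G {v})) (n : Fin 5 → V) (hinj : Function.Injective n)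
    (hN : ∀ x, G.Adj v x ↔ ∃ i, n i = x) (μ : Fin 5 → ℝ) (hμ : ∀ i, μ i ≠ 0) (hμ0 : ∑ i, μ i = 0)
    (hμ1 : ∑ i, μ i • p (n i) = 0) (ν : Fin 5 → ℝ) (hν : ∑ i, ν i = 1) (m m' : V → Fin 3 → ℝ)
    (hm : IsMot (del G {v}) p m) (hm' : IsMot (del G {v}) p m') :
    (∑ i, ∑ j, ν i * ν j * dd p m (n i) (n j)) * (∑ i, ν i * ∑ j, μ j * dd p m' (n i) (n j)) =
    (∑ i, ∑ j, ν i * ν j * dd p m' (n i) (n j)) * (∑ i, ν i * ∑ j, μ j * dd p m (n i) (n j)) := by
  set x : Fin 3 → ℝ := ∑ i, ν i • p (n i) with hx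
  set p' : V → Fin 3 → ℝ := Function.update p v x with hp'
  have hnv : ∀ i, n i ≠ v := by
    intro i h
    have := (hN (n i)).2 ⟨i, rfl⟩
    rw [h] at this
    exact G.loopless.irrefl v this
  have hpv : p' v = x := by rw [hp', Function.update_self]
  have hpne : ∀ y, y ≠ v → p' y = p y := fun y hy => by rw [hp', Function.update_of_ne hy]
  have hdel : ∀ a b, (del G {v}).Adj a b → a ≠ v ∧ b ≠ v := by
    intro a b h
    exact ⟨fun h' => h.2.1 (by rw [h']; exact Finset.mem_singleton_self v),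
      fun h' => h.2.2 (by rw [h']; exact Finset.mem_singleton_self v)⟩
  have hadj : ∀ a b, (del G {v}).Adj a b → p a = p' a := by
    intro a b h
    rw [hpne a (hdel a b h).1]
  have hSF : SF (del G {v}) p' := (SF_congr _ p p' hadj).1 (hp.2 _ hF)
  have hnSF : ¬ SF G p' := fun h => hn ⟨p', h⟩
  obtain ⟨l, hl1, ⟨y0, hy0⟩, hl2, hl3⟩ := dep_vertex G v p' hSF hnSF
  have hl0 : ∀ y, (¬ ∃ i, n i = y) → l y = 0 := by
    intro y hy
    apply hl1
    rw [hN]
    exact hy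
  set lam : Fin 5 → ℝ := fun i => l (n i) with hlam
  have E1 : ∑ i, lam i • (x - p (n i)) = 0 := by
    rw [← hl2, LA_sum n hinj (fun y => l y • (p' v - p' y)) (fun y hy => by rw [hl0 y hy, zero_smul])]
    refine Finset.sum_congr rfl fun i _ => ?_
    rw [hpv, hpne _ (hnv i)]
  have E2 : ∀ m : V → Fin 3 → ℝ, IsMot (del G {v}) p m →
      ∑ i, lam i * ((x - p (n i)) ⬝ᵥ m (n i)) = 0 := by
    intro m hm
    have hm2 : IsMot (del G {v}) p' m :=
      (mot_congr (del G {v}) p p' m m (fun a b h => ⟨hadj a b h, rfl⟩)).1 hm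
    rw [← hl3 m hm2, LA_sum n hinj (fun y => l y * ((p' v - p' y) ⬝ᵥ m y))
      (fun y hy => by rw [hl0 y hy, zero_mul])]
    refine Finset.sum_congr rfl fun i _ => ?_
    rw [hpv, hpne _ (hnv i)]
  have hlam0 : ∃ i, lam i ≠ 0 := by
    by_contra! hcon
    by_cases h : ∃ i, n i = y0
    · obtain ⟨i, hi⟩ := h
      apply hy0
      rw [← hi]
      exact hcon i
    · exact hy0 (hl0 y0 h)
  set α : ℝ := ∑ i, lam i with hα
  -- lam - α ν is a multiple of μ
  obtain ⟨β, hβ⟩ : ∃ β : ℝ, ∀ i, lam i = α * ν i + β * μ i := by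
    obtain ⟨μ', _, _, _, huniq⟩ := exists_mu p hp.1 n hinj
    obtain ⟨s1, hs1⟩ := huniq μ hμ0 hμ1
    obtain ⟨s2, hs2⟩ := huniq (fun i => lam i - α * ν i) (by
      rw [Finset.sum_sub_distrib, ← Finset.mul_sum, hν, mul_one, ← hα, sub_self]) (by
      simp only [sub_smul, Finset.sum_sub_distrib]
      have e1 : ∑ i, lam i • p (n i) = α • x := by
        simp only [smul_sub, Finset.sum_sub_distrib] at E1
        rw [← Finset.sum_smul, ← hα] at E1
        exact (sub_eq_zero.1 E1).symm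
      have e2 : ∑ i, (α * ν i) • p (n i) = α • x := by
        rw [hx, Finset.smul_sum]
        exact Finset.sum_congr rfl fun i _ => by rw [mul_smul]
      rw [e1, e2, sub_self])
    have hs1' : s1 ≠ 0 := by
      intro h
      apply hμ 0
      rw [hs1, h, zero_smul]
      rfl
    refine ⟨s2 / s1, fun i => ?_⟩
    have h1 : μ i = s1 * μ' i := by rw [hs1]; rfl
    have h2 : lam i - α * ν i = s2 * μ' i := congrFun hs2 i
    have h3 : s2 / s1 * μ i = s2 * μ' i := by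
      rw [h1]
      field_simp
    rw [h3, ← h2]
    ring
  have hαβ : α ≠ 0 ∨ β ≠ 0 := by
    by_contra! hcon
    obtain ⟨i, hi⟩ := hlam0
    apply hi
    rw [hβ i, hcon.1, hcon.2]
    ring
  have key : ∀ m : V → Fin 3 → ℝ, IsMot (del G {v}) p m →
      α * (∑ i, ∑ j, ν i * ν j * dd p m (n i) (n j)) +
        2 * β * (∑ i, ν i * ∑ j, μ j * dd p m (n i) (n j)) = 0 := by
    intro m hm
    have e1 := load4 (fun i => p (n i)) (fun i => m (n i)) ν hν
    have e2 := LA_partial (fun i => p (n i)) (fun i => m (n i)) μ ν hμ0 hμ1 hν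
    simp only [← hx] at e1 e2
    have e3 := E2 m hm
    have e4 : ∑ i, lam i * ((x - p (n i)) ⬝ᵥ m (n i)) =
        α * ∑ i, ν i * ((x - p (n i)) ⬝ᵥ m (n i)) + β * ∑ i, μ i * ((x - p (n i)) ⬝ᵥ m (n i)) := by
      rw [Finset.mul_sum, Finset.mul_sum, ← Finset.sum_add_distrib]
      refine Finset.sum_congr rfl fun i _ => ?_
      rw [hβ i]
      ring
    rw [e4, e2] at e3
    simp only [dd]
    linear_combination (-2) * e3 + α * e1
  have k1 := key m hm
  have k2 := key m' hm'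
  set q := ∑ i, ∑ j, ν i * ν j * dd p m (n i) (n j)
  set q' := ∑ i, ∑ j, ν i * ν j * dd p m' (n i) (n j)
  set t := ∑ i, ν i * ∑ j, μ j * dd p m (n i) (n j)
  set t' := ∑ i, ν i * ∑ j, μ j * dd p m' (n i) (n j)
  rcases hαβ with h | h
  · apply mul_left_cancel₀ h
    linear_combination t' * k1 - t * k2
  · have h2 : 2 * β ≠ 0 := mul_ne_zero two_ne_zero h
    apply mul_left_cancel₀ h2
    linear_combination q * k2 - q' * k1

end Pool.Agent.Reg5.J2521
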