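import Pool.Agent.Helper927.R5Defs
import Pool.Agent.Helper927.R5x2258
import Pool.Agent.Helper927.R5x2260
import Pool.Agent.Helper927.R5x2261
import Pool.Agent.Helper927.R5x2273
import Pool.Agent.Helper927.R5x2275
import Pool.Agent.Helper927.R5x2277
import Pool.Agent.Helper927.R5x2521
set_option autoImplicit false
set_option maxHeartbeats 4000000

namespace Pool.Agent.Reg5.J2522
open Pool.Agent.Reg5
open Pool.Agent.Reg5.J2277 (AL)
open Pool.Agent.Reg5.J2275 (D2)
open Pool.Agent.Reg5.J2261 (K4_not)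
open Pool.Agent.Reg5.J2521 (LA)
open Pool.Agent.Reg5.J2260 (cls_del)
open Pool.Agent.Reg5.J2258 (dg_del)
open Pool.Agent.Reg5.J2258 (dg_ge)
open Pool.Agent.Reg5.J2258 (dg_insert)
open Pool.Agent.Reg5.J2258 (ie_univ_del)
open Pool.Agent.Reg5.J2273 (implied_J)


theorem j2522_dd_add {V : Type} (p m m' : V → Fin 3 → ℝ) (a b : V) :
    dd p (m + m') a b = dd p m a b + dd p m' a b := by
  unfold dd
  rw [← dotProduct_add]
  congr 1
  simp only [Pi.add_apply]
  abel

theorem j2522_dd_smul {V : Type} (p m : V → Fin 3 → ℝ) (c : ℝ) (a b : V) :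
    dd p (c • m) a b = c * dd p m a b := by
  unfold dd
  rw [← smul_eq_mul, ← dotProduct_smul]
  congr 1
  simp only [Pi.smul_apply, smul_sub]

theorem j2522_dd_comm {V : Type} (p m : V → Fin 3 → ℝ) (a b : V) :
    dd p m a b = dd p m b a := by
  unfold dd
  rw [← neg_sub (p b) (p a), ← neg_sub (m b) (m a), neg_dotProduct, dotProduct_neg, neg_neg]

/-- the linear functional `m ↦ dd p m a b` -/
def j2522_ddL {V : Type} (p : V → Fin 3 → ℝ) (a b : V) : (V → Fin 3 → ℝ) →ₗ[ℝ] ℝ where
  toFun m := dd p m a b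
  map_add' := fun m m' => j2522_dd_add p m m' a b
  map_smul' := fun c m => by rw [j2522_dd_smul]; rfl

/-- the space of motions -/
def j2522_W {V : Type} (G : SimpleGraph V) (p : V → Fin 3 → ℝ) : Submodule ℝ (V → Fin 3 → ℝ) where
  carrier := {m | IsMot G p m}
  add_mem' := by
    intro m m' hm hm' a b hab
    rw [j2522_dd_add, hm a b hab, hm' a b hab, add_zero]
  zero_mem' := by
    intro a b _
    simp [dd]
  smul_mem' := by
    intro c m hm a b hab
    rw [j2522_dd_smul, hm a b hab, mul_zero]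

theorem III_delta {V : Type} [Fintype V] [DecidableEq V] (G : SimpleGraph V) (hG : Cls G) (hn : ¬ Ind G)
    (IH : ∀ G' : SimpleGraph V, Cls G' → ie G' Finset.univ < ie G Finset.univ → Ind G') (v : V)
    (n : Fin 5 → V) (hinj : Function.Injective n) (hN : ∀ x, G.Adj v x ↔ ∃ i, n i = x)
    (hpat : ∀ a1 a2 b1 b2 b3 : V, [a1, a2, b1, b2, b3].Nodup → (∀ x, G.Adj v x ↔ (x = a1 ∨ x = a2 ∨ x = b1 ∨ x = b2 ∨ x = b3)) →
      ¬ (J (del G {v}) a1 a2 ∧ J (del G {v}) b1 b2 ∧ J (del G {v}) b1 b3 ∧ J (del G {v}) b2 b3))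
    (p : V → Fin 3 → ℝ) (hp : Good p) (μ : Fin 5 → ℝ) (hμ : ∀ i, μ i ≠ 0) (hμ0 : ∑ i, μ i = 0)
    (hμ1 : ∑ i, μ i • p (n i) = 0) (m : V → Fin 3 → ℝ) (hm : IsMot (del G {v}) p m) (i : Fin 5) :
    ∑ j, μ j * dd p m (n i) (n j) = 0 := by
  classical
  have hadj : ∀ i, G.Adj v (n i) := fun i => (hN (n i)).2 ⟨i, rfl⟩
  have hne : ∀ i, n i ≠ v := fun i => (hadj i).ne'
  have hdegv : 5 ≤ dg G Finset.univ v := by
    have := dg_ge G Finset.univ (Finset.univ.image n) v (Finset.subset_univ _) (by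
      intro x hx
      obtain ⟨i, _, rfl⟩ := Finset.mem_image.1 hx
      exact hadj i)
    rw [Finset.card_image_of_injective _ hinj, Finset.card_univ, Fintype.card_fin] at this
    exact this
  have hieF : ie (del G {v}) Finset.univ + 5 ≤ ie G Finset.univ := by
    have := ie_univ_del G v
    omega
  have hclsF : Cls (del G {v}) := cls_del G hG {v}
  have hIndF : Ind (del G {v}) := IH _ hclsF (by omega)
  have hdegF : ∀ i, dg (del G {v}) Finset.univ (n i) ≤ 4 := by
    intro i
    rw [dg_del G {v} Finset.univ (n i) (by simpa using hne i)]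
    have h1 := (dg_insert G (Finset.univ \ {v}) (n i) v (by simp)).1 (hadj i).symm
    have h2 : insert v (Finset.univ \ {v}) = (Finset.univ : Finset V) := by
      ext x
      by_cases hx : x = v <;> simp [hx]
    rw [h2] at h1
    have h3 := hG.2 (n i)
    omega
  have hJ : ∀ i j : Fin 5, i ≠ j → (∀ m ∈ j2522_W (del G {v}) p, j2522_ddL p (n i) (n j) m = 0) →
      J (del G {v}) (n i) (n j) := by
    intro i j hij h
    exact implied_J (del G {v}) p hp hclsF hIndF (ie G Finset.univ) IH (by omega) (n i) (n j)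
      (fun h => hij (hinj h)) (hdegF i) (hdegF j) h
  have hσ : ∀ (i : Fin 5) (m : V → Fin 3 → ℝ),
      (∑ j, μ j • j2522_ddL p (n i) (n j)) m = ∑ j, μ j * dd p m (n i) (n j) := by
    intro i m
    simp only [LinearMap.sum_apply, LinearMap.smul_apply, smul_eq_mul]
    rfl
  by_contra hcon
  -- D2
  have hnd : [n 0, n 1, n 2, n 3, n 4].Nodup := by
    have h1 : [n 0, n 1, n 2, n 3, n 4] = List.map n [0, 1, 2, 3, 4] := rfl
    rw [h1]
    exact List.Nodup.map hinj (by decide)
  obtain ⟨x, y, z, w, hx, hy, hz, hw, m1, m2, hm1, hm2, hne12⟩ := D2 G hG IH v (n 0) (n 1) (n 2) (n 3)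
    (n 4) hnd (by
      intro x
      rw [hN]
      constructor
      · rintro ⟨i, rfl⟩
        fin_cases i
        · exact Or.inl rfl
        · exact Or.inr (Or.inl rfl)
        · exact Or.inr (Or.inr (Or.inl rfl))
        · exact Or.inr (Or.inr (Or.inr (Or.inl rfl)))
        · exact Or.inr (Or.inr (Or.inr (Or.inr rfl)))
      · rintro (h | h | h | h | h)
        · exact ⟨0, h.symm⟩
        · exact ⟨1, h.symm⟩
        · exact ⟨2, h.symm⟩
        · exact ⟨3, h.symm⟩
        · exact ⟨4, h.symm⟩) p hp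
  obtain ⟨i1, rfl⟩ := (hN x).1 hx
  obtain ⟨i2, rfl⟩ := (hN y).1 hy
  obtain ⟨i3, rfl⟩ := (hN z).1 hz
  obtain ⟨i4, rfl⟩ := (hN w).1 hw
  obtain ⟨S, ρ, hA, hB, hC, hD⟩ := AL (j2522_W (del G {v}) p)
    (fun i j => j2522_ddL p (n i) (n j)) (fun i => ∑ j, μ j • j2522_ddL p (n i) (n j))
    (by
      intro i j
      apply LinearMap.ext
      intro m
      exact j2522_dd_comm p m (n i) (n j))
    (by
      intro i
      apply LinearMap.ext
      intro m
      show dd p m (n i) (n i) = 0
      simp [dd])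
    (by
      intro ν hν m hm m' hm'
      simp only [hσ]
      exact LA G hn v p hp hIndF n hinj hN μ hμ hμ0 hμ1 ν hν m m' hm hm')
    ⟨i1, i2, i3, i4, m1, hm1, m2, hm2, hne12⟩
    ⟨i, m, hm, by
      show (∑ j, μ j • j2522_ddL p (n i) (n j)) m ≠ 0
      rw [hσ]; exact hcon⟩
  simp only [hσ] at hA hD
  -- the relation
  have hrel : ∀ j, j ∉ S → ∀ m ∈ j2522_W (del G {v}) p,
      ρ j * ∑ i ∈ S, μ i * ∑ k, μ k * dd p m (n i) (n k) = 0 := by
    intro j hj m hm
    have h0 : ∑ k, μ k * dd p m (n j) (n k) = 0 := by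
      by_contra h
      exact hj ((hA j).2 ⟨m, hm, h⟩)
    rw [← Finset.sum_subset (Finset.subset_univ S)] at h0
    · rw [← h0, Finset.mul_sum]
      apply Finset.sum_congr rfl
      intro i hi
      have h1 : dd p m (n i) (n j) = ρ j * ∑ k, μ k * dd p m (n i) (n k) := hD i hi j hj m hm
      rw [j2522_dd_comm p m (n j) (n i), h1]
      ring
    · intro k _ hk
      have h1 : dd p m (n j) (n k) = 0 := hC j hj k hk m hm
      rw [h1, mul_zero]
  -- some rho nonzero
  have hρ : ∃ j, j ∉ S ∧ ρ j ≠ 0 := by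
    by_contra hall
    push Not at hall
    have hz : ∀ i j, ∀ m ∈ j2522_W (del G {v}) p, dd p m (n i) (n j) = 0 := by
      intro i j m hm
      by_cases hi : i ∈ S
      · by_cases hj : j ∈ S
        · exact hB i hi j hj m hm
        · have h1 : dd p m (n i) (n j) = ρ j * ∑ k, μ k * dd p m (n i) (n k) := hD i hi j hj m hm
          rw [h1, hall j hj, zero_mul]
      · by_cases hj : j ∈ S
        · have h1 : dd p m (n j) (n i) = ρ i * ∑ k, μ k * dd p m (n j) (n k) := hD j hj i hi m hm
          rw [j2522_dd_comm, h1, hall i hi, zero_mul]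
        · exact hC i hi j hj m hm
    apply hne12
    rw [hz i1 i2 m1 hm1, hz i1 i2 m2 hm2, zero_mul, zero_mul]
  obtain ⟨j0, hj0, hρ0⟩ := hρ
  have hτ : ∀ m ∈ j2522_W (del G {v}) p, ∑ i ∈ S, μ i * ∑ k, μ k * dd p m (n i) (n k) = 0 := by
    intro m hm
    rcases mul_eq_zero.1 (hrel j0 hj0 m hm) with h | h
    · exact absurd h hρ0
    · exact h
  rcases Nat.lt_or_ge S.card 3 with hc | hc
  · -- small cases
    -- there is i0 with all sigma multiples of sigma_{i0}
    have hpar : ∃ (f : (V → Fin 3 → ℝ) → ℝ), ∀ i ∈ S, ∃ c : ℝ, ∀ m ∈ j2522_W (del G {v}) p,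
        ∑ k, μ k * dd p m (n i) (n k) = c * f m := by
      have hc' : S.card = 0 ∨ S.card = 1 ∨ S.card = 2 := by omega
      rcases hc' with h | h | h
      · rw [Finset.card_eq_zero] at h
        exact ⟨fun _ => 0, by rw [h]; simp⟩
      · obtain ⟨a, rfl⟩ := Finset.card_eq_one.1 h
        refine ⟨fun m => ∑ k, μ k * dd p m (n a) (n k), ?_⟩
        intro i hi
        rw [Finset.mem_singleton] at hi
        subst hi
        exact ⟨1, fun m _ => (one_mul _).symm⟩
      · obtain ⟨a, b, hab, rfl⟩ := Finset.card_eq_two.1 h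
        refine ⟨fun m => ∑ k, μ k * dd p m (n a) (n k), ?_⟩
        intro i hi
        rw [Finset.mem_insert, Finset.mem_singleton] at hi
        rcases hi with rfl | rfl
        · exact ⟨1, fun m _ => (one_mul _).symm⟩
        · refine ⟨-(μ a) / μ i, ?_⟩
          intro m hm
          have h1 := hτ m hm
          rw [Finset.sum_pair hab] at h1
          show ∑ k, μ k * dd p m (n i) (n k) = -(μ a) / μ i * ∑ k, μ k * dd p m (n a) (n k)
          have h2 := hμ i
          rw [div_mul_eq_mul_div, eq_div_iff h2]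
          linarith
    obtain ⟨f, hf⟩ := hpar
    have hz : ∀ i j, ∃ c : ℝ, ∀ m ∈ j2522_W (del G {v}) p, dd p m (n i) (n j) = c * f m := by
      intro i j
      by_cases hi : i ∈ S
      · by_cases hj : j ∈ S
        · exact ⟨0, fun m hm => by
            have h1 : dd p m (n i) (n j) = 0 := hB i hi j hj m hm
            rw [h1, zero_mul]⟩
        · obtain ⟨c, hc⟩ := hf i hi
          refine ⟨ρ j * c, ?_⟩
          intro m hm
          have h1 : dd p m (n i) (n j) = ρ j * ∑ k, μ k * dd p m (n i) (n k) := hD i hi j hj m hm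
          rw [h1, hc m hm, mul_assoc]
      · by_cases hj : j ∈ S
        · obtain ⟨c, hc⟩ := hf j hj
          refine ⟨ρ i * c, ?_⟩
          intro m hm
          have h1 : dd p m (n j) (n i) = ρ i * ∑ k, μ k * dd p m (n j) (n k) := hD j hj i hi m hm
          rw [j2522_dd_comm, h1, hc m hm, mul_assoc]
        · exact ⟨0, fun m hm => by
            have h1 : dd p m (n i) (n j) = 0 := hC i hi j hj m hm
            rw [h1, zero_mul]⟩
    obtain ⟨c1, hc1⟩ := hz i1 i2
    obtain ⟨c2, hc2⟩ := hz i3 i4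
    apply hne12
    rw [hc1 m1 hm1, hc1 m2 hm2, hc2 m1 hm1, hc2 m2 hm2]
    ring
  · rcases Nat.lt_or_ge S.card 4 with hc' | hc'
    · have h3 : S.card = 3 := by omega
      have h2 : Sᶜ.card = 2 := by
        rw [Finset.card_compl, h3, Fintype.card_fin]
      obtain ⟨b1, b2, b3, h12, h13, h23, hS⟩ := Finset.card_eq_three.1 h3
      obtain ⟨a1, a2, ha12, hS'⟩ := Finset.card_eq_two.1 h2
      have ha1 : a1 ∉ S := by
        rw [← Finset.mem_compl, hS']; simp
      have ha2 : a2 ∉ S := by
        rw [← Finset.mem_compl, hS']; simp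
      have hb1 : b1 ∈ S := by rw [hS]; simp
      have hb2 : b2 ∈ S := by rw [hS]; simp
      have hb3 : b3 ∈ S := by rw [hS]; simp
      have hab : ∀ a b, a ∉ S → b ∈ S → a ≠ b := by
        rintro a b ha hb rfl
        exact ha hb
      have hnd' : [n a1, n a2, n b1, n b2, n b3].Nodup := by
        have h1 : [n a1, n a2, n b1, n b2, n b3] = List.map n [a1, a2, b1, b2, b3] := rfl
        rw [h1]
        apply List.Nodup.map hinj
        simp only [List.nodup_cons, List.mem_cons, List.not_mem_nil, or_false, not_or,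
          not_false_eq_true, List.nodup_nil, and_true]
        exact ⟨⟨ha12, hab _ _ ha1 hb1, hab _ _ ha1 hb2, hab _ _ ha1 hb3⟩,
          ⟨hab _ _ ha2 hb1, hab _ _ ha2 hb2, hab _ _ ha2 hb3⟩, ⟨h12, h13⟩, h23⟩
      apply hpat (n a1) (n a2) (n b1) (n b2) (n b3) hnd'
      · intro x
        rw [hN]
        constructor
        · rintro ⟨i, rfl⟩
          by_cases hi : i ∈ S
          · rw [hS] at hi
            simp only [Finset.mem_insert, Finset.mem_singleton] at hi
            rcases hi with rfl | rfl | rfl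
            · exact Or.inr (Or.inr (Or.inl rfl))
            · exact Or.inr (Or.inr (Or.inr (Or.inl rfl)))
            · exact Or.inr (Or.inr (Or.inr (Or.inr rfl)))
          · rw [← Finset.mem_compl, hS'] at hi
            simp only [Finset.mem_insert, Finset.mem_singleton] at hi
            rcases hi with rfl | rfl
            · exact Or.inl rfl
            · exact Or.inr (Or.inl rfl)
        · rintro (h | h | h | h | h)
          · exact ⟨_, h.symm⟩
          · exact ⟨_, h.symm⟩
          · exact ⟨_, h.symm⟩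
          · exact ⟨_, h.symm⟩
          · exact ⟨_, h.symm⟩
      · exact ⟨hJ _ _ ha12 (hC _ ha1 _ ha2), hJ _ _ h12 (hB _ hb1 _ hb2),
          hJ _ _ h13 (hB _ hb1 _ hb3), hJ _ _ h23 (hB _ hb2 _ hb3)⟩
    · obtain ⟨T, hTS, hT4⟩ := Finset.exists_subset_card_eq hc'
      have he := (T.orderEmbOfFin hT4).injective
      have hm' : ∀ k, (T.orderEmbOfFin hT4) k ∈ S := fun k => hTS (Finset.orderEmbOfFin_mem T hT4 k)
      obtain ⟨e, hee⟩ : ∃ e : Fin 4 → Fin 5, e = fun k => (T.orderEmbOfFin hT4) k := ⟨_, rfl⟩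
      have he' : Function.Injective e := by rw [hee]; exact he
      have heS : ∀ k, e k ∈ S := by rw [hee]; exact hm'
      have hee' : ∀ k l, k ≠ l → e k ≠ e l := fun k l h h' => h (he' h')
      have hn' : ∀ k l, k ≠ l → n (e k) ≠ n (e l) := fun k l h h' => hee' k l h (hinj h')
      have hJ' : ∀ k l, k ≠ l → J (del G {v}) (n (e k)) (n (e l)) := fun k l h =>
        hJ _ _ (hee' k l h) (hB _ (heS k) _ (heS l))
      apply K4_not G hG v (n (e 0)) (n (e 1)) (n (e 2)) (n (e 3)) (hadj _) (hadj _) (hadj _) (hadj _)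
        (hn' _ _ (by decide)) (hn' _ _ (by decide)) (hn' _ _ (by decide)) (hn' _ _ (by decide))
        (hn' _ _ (by decide)) (hn' _ _ (by decide))
      exact ⟨hJ' _ _ (by decide), hJ' _ _ (by decide), hJ' _ _ (by decide), hJ' _ _ (by decide),
        hJ' _ _ (by decide), hJ' _ _ (by decide)⟩

end Pool.Agent.Reg5.J2522
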