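import Pool.Agent.Helper927.R5Defs
import Pool.Agent.Helper927.R5x2263
set_option autoImplicit false
set_option maxHeartbeats 4000000

namespace Pool.Agent.Reg5.J2519
open Pool.Agent.Reg5
open Pool.Agent.Reg5.J2263 (resolve)


theorem vertex_SF {V : Type} [Fintype V] [DecidableEq V] (G : SimpleGraph V) (v : V) (p : V → Fin 3 → ℝ)
    (hG : SF G p) (l : V → ℝ) (hl : ∀ x, ¬ G.Adj v x → l x = 0) (hl0 : ∑ x, l x • (p v - p x) = 0)
    (h : ∀ m, IsMot (del G {v}) p m → ∑ x, l x * ((p v - p x) ⬝ᵥ m x) = 0) : ∀ x, l x = 0 := by
  have hlv : l v = 0 := hl v (G.loopless.irrefl v)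
  obtain ⟨w0, hs, hz, he⟩ := resolve (del G {v}) p (fun x => l x • (p x - p v)) (by
    intro m hm
    have := h m hm
    have e : ∀ a, (l a • (p a - p v)) ⬝ᵥ m a = -(l a * ((p v - p a) ⬝ᵥ m a)) := by
      intro a
      rw [smul_dotProduct, smul_eq_mul, ← neg_sub (p v) (p a), neg_dotProduct]
      ring
    simp_rw [e]
    rw [Finset.sum_neg_distrib, this, neg_zero])
  have hw := hG (fun a b => (if a = v then l b else 0) + (if b = v then l a else 0) - w0 a b)
    (by
      intro a b
      rw [hs a b]
      ring)
    (by
      intro a b hab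
      have h1 : w0 a b = 0 := hz a b (fun hF => hab hF.1)
      simp only [h1]
      have h2 : (if a = v then l b else 0) = 0 := by
        split_ifs with h3
        · subst h3; exact hl b hab
        · rfl
      have h4 : (if b = v then l a else 0) = 0 := by
        split_ifs with h3
        · subst h3; exact hl a (fun hh => hab hh.symm)
        · rfl
      rw [h2, h4]; simp)
    (by
      intro a
      simp only [sub_smul, add_smul]
      rw [Finset.sum_sub_distrib, Finset.sum_add_distrib, ← he a]
      by_cases ha : a = v
      · subst ha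
        simp only [if_true]
        rw [hl0]
        simp only [hlv, ite_self, zero_smul, Finset.sum_const_zero]
        simp
      · simp only [ha, if_false, zero_smul, Finset.sum_const_zero, ite_smul]
        simp)
  intro x
  by_cases hx : x = v
  · rw [hx]; exact hlv
  · have h1 := hw v x
    have h2 : w0 v x = 0 := hz v x (fun hF => hF.2.1 (Finset.mem_singleton_self v))
    simp only [if_true, hx, if_false, h2] at h1
    linarith

end Pool.Agent.Reg5.J2519
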