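import Pool.Agent.Helper927.R5Defs
import Pool.Agent.Helper927.R5x2518
import Pool.Agent.Helper927.R5x2519
import Pool.Agent.Helper927.R5x2520
set_option autoImplicit false
set_option maxHeartbeats 4000000

namespace Pool.Agent.Reg5.J2523
open Pool.Agent.Reg5
open Pool.Agent.Reg5.J2520 (III_all)
open Pool.Agent.Reg5.J2520 (exists_mu)
open Pool.Agent.Reg5.J2518 (ext4)
open Pool.Agent.Reg5.J2518 (load4)
open Pool.Agent.Reg5.J2519 (vertex_SF)


theorem dd_comm' {V : Type} (p m : V → Fin 3 → ℝ) (a b : V) : dd p m a b = dd p m b a := by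
  unfold dd
  rw [← neg_sub (p b) (p a), ← neg_sub (m b) (m a), neg_dotProduct_neg]

theorem dd_self' {V : Type} (p m : V → Fin 3 → ℝ) (a : V) : dd p m a a = 0 := by
  simp [dd]

theorem key_pts {V : Type} [Fintype V] [DecidableEq V] (G : SimpleGraph V) (v i0 : V) (P : Fin 4 → V)
    (hPinj : Function.Injective P) (hP0 : ∀ j, P j ≠ i0)
    (hN : ∀ x, G.Adj v x ↔ (x = i0 ∨ ∃ j, P j = x))
    (p : V → Fin 3 → ℝ) (hp : GP p)
    (hdel : ∀ m, IsMot (del G {v}) p m → ∀ n : Fin 5 → V, Function.Injective n → (∀ x, G.Adj v x ↔ ∃ i, n i = x) →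
      ∀ μ : Fin 5 → ℝ, (∀ i, μ i ≠ 0) → ∑ i, μ i = 0 → ∑ i, μ i • p (n i) = 0 →
      ∀ i, ∑ j, μ j * dd p m (n i) (n j) = 0)
    (β : Fin 4 → ℝ) (hβ : ∑ i, β i = 1) (hyβ : ∑ i, β i • p (P i) = p i0)
    (m : V → Fin 3 → ℝ) (hm : IsMot (del G {v}) p m) (w : V) :
    dd p m i0 w = ∑ j, β j * dd p m (P j) w := by
  have hninj : Function.Injective (Fin.cons i0 P : Fin 5 → V) := by
    rw [Fin.cons_injective_iff]
    exact ⟨fun ⟨j, hj⟩ => hP0 j hj, hPinj⟩
  have hμ0 : ∑ i, (Fin.cons (-1) β : Fin 5 → ℝ) i = 0 := by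
    rw [Fin.sum_univ_succ]; simp [hβ]
  have hμ1 : ∑ i, (Fin.cons (-1) β : Fin 5 → ℝ) i • p ((Fin.cons i0 P : Fin 5 → V) i) = 0 := by
    rw [Fin.sum_univ_succ]; simp [hyβ]
  obtain ⟨μ', h1, h2, h3, h4⟩ := exists_mu p hp _ hninj
  obtain ⟨s, hs⟩ := h4 _ hμ0 hμ1
  have hs0 : s ≠ 0 := by
    intro h
    have := congrFun hs 0
    simp [h] at this
  have hne : ∀ i, (Fin.cons (-1) β : Fin 5 → ℝ) i ≠ 0 := by
    intro i; rw [hs]
    exact mul_ne_zero hs0 (h1 i)
  have h5 := III_all p hp _ hninj _ hμ0 hμ1 m (hdel m hm _ hninj (by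
    intro x
    rw [hN x]
    constructor
    · rintro (rfl | ⟨j, rfl⟩)
      · exact ⟨0, rfl⟩
      · exact ⟨j.succ, rfl⟩
    · rintro ⟨i, rfl⟩
      induction i using Fin.cases with
      | zero => left; rfl
      | succ j => right; exact ⟨j, rfl⟩) _ hne hμ0 hμ1) w
  rw [Fin.sum_univ_succ] at h5
  simp only [Fin.cons_zero, Fin.cons_succ] at h5
  linarith

theorem lin_of_GP {V : Type} (p : V → Fin 3 → ℝ) (hp : GP p) (Q : Fin 4 → V)
    (hQinj : Function.Injective Q) :
    LinearIndependent ℝ ![p (Q 1) - p (Q 0), p (Q 2) - p (Q 0), p (Q 3) - p (Q 0)] :=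
  hp.2.2 (Q 0) (Q 1) (Q 2) (Q 3) (hQinj.ne (by decide)) (hQinj.ne (by decide))
    (hQinj.ne (by decide)) (hQinj.ne (by decide)) (hQinj.ne (by decide)) (hQinj.ne (by decide))

theorem III_local {V : Type} [Fintype V] [DecidableEq V] (G : SimpleGraph V) (v i0 : V) (P Q : Fin 4 → V)
    (hPinj : Function.Injective P) (hQinj : Function.Injective Q) (hP0 : ∀ j, P j ≠ i0) (hQv : ∀ j, Q j ≠ v)
    (hN : ∀ x, G.Adj v x ↔ (x = i0 ∨ ∃ j, P j = x)) (hN0 : ∀ x, G.Adj i0 x ↔ (x = v ∨ ∃ j, Q j = x))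
    (p : V → Fin 3 → ℝ) (hp : GP p)
    (hdel : ∀ m, IsMot (del G {v}) p m → ∀ n : Fin 5 → V, Function.Injective n → (∀ x, G.Adj v x ↔ ∃ i, n i = x) →
      ∀ μ : Fin 5 → ℝ, (∀ i, μ i ≠ 0) → ∑ i, μ i = 0 → ∑ i, μ i • p (n i) = 0 →
      ∀ i, ∑ j, μ j * dd p m (n i) (n j) = 0)
    (ν β : Fin 4 → ℝ) (hν : ∑ i, ν i = 1) (hβ : ∑ i, β i = 1) (hyν : ∑ i, ν i • p (Q i) = p i0)
    (hyβ : ∑ i, β i • p (P i) = p i0) :
    (∀ m, IsMot (del G {v, i0}) p m → ∑ i, ∑ j, ν i * ν j * dd p m (Q i) (Q j) = 0 →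
      (∀ k, ∑ j, β j * dd p m (P j) (Q k) = 0) ∧ ∑ i, ∑ j, β i * β j * dd p m (P i) (P j) = 0) ∧
    (∀ m, IsMot (del G {v}) p m → ∑ i, ∑ j, ν i * ν j * dd p m (Q i) (Q j) = 0 ∧
      ∀ k, dd p m i0 (P k) = ∑ j, β j * dd p m (P j) (P k)) := by
  have hvi : G.Adj v i0 := (hN i0).mpr (Or.inl rfl)
  have hvi0 : i0 ≠ v := hvi.ne'
  have hQa : ∀ l, G.Adj i0 (Q l) := fun l => (hN0 _).mpr (Or.inr ⟨l, rfl⟩)
  have hQ0 : ∀ l, Q l ≠ i0 := fun l => (hQa l).ne'
  have hadj : ∀ l, (del G {v}).Adj i0 (Q l) := fun l =>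
    ⟨hQa l, by simpa using hvi0, by simpa using hQv l⟩
  constructor
  · intro m hm hq
    obtain ⟨z, hz⟩ := (ext4 (fun i => p (Q i)) (fun i => m (Q i)) (lin_of_GP p hp Q hQinj) ν hν).mpr
      (by simpa only [dd] using hq)
    simp only [hyν] at hz
    have hup : ∀ x, x ≠ i0 → Function.update m i0 z x = m x := fun x hx =>
      Function.update_of_ne hx _ _
    have hzl : ∀ l, dd p (Function.update m i0 z) i0 (Q l) = 0 := by
      intro l
      unfold dd
      rw [hup _ (hQ0 l), Function.update_self]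
      exact hz l
    have hm' : IsMot (del G {v}) p (Function.update m i0 z) := by
      intro a b hab
      obtain ⟨h1, h2, h3⟩ := hab
      rw [Finset.mem_singleton] at h2 h3
      by_cases ha : a = i0
      · subst ha
        rcases (hN0 b).mp h1 with h | ⟨l, rfl⟩
        · exact absurd h h3
        · exact hzl l
      · by_cases hb : b = i0
        · subst hb
          rcases (hN0 a).mp h1.symm with h | ⟨l, rfl⟩
          · exact absurd h h2
          · rw [dd_comm']; exact hzl l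
        · have := hm a b ⟨h1, by simp [h2, ha], by simp [h3, hb]⟩
          unfold dd at this ⊢
          rw [hup a ha, hup b hb]
          exact this
    have key := key_pts G v i0 P hPinj hP0 hN p hp hdel β hβ hyβ _ hm'
    have hdd : ∀ a b, a ≠ i0 → b ≠ i0 →
        dd p (Function.update m i0 z) a b = dd p m a b := by
      intro a b ha hb
      unfold dd
      rw [hup a ha, hup b hb]
    constructor
    · intro k
      have h1 := key (Q k)
      rw [hzl k] at h1
      rw [h1]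
      apply Finset.sum_congr rfl
      intro j _
      rw [hdd _ _ (hP0 j) (hQ0 k)]
    · have h1 := key i0
      rw [dd_self'] at h1
      have h2 : ∑ k, β k * dd p (Function.update m i0 z) i0 (P k) = 0 := by
        rw [h1]
        apply Finset.sum_congr rfl
        intro k _
        rw [dd_comm']
      rw [← h2]
      apply Finset.sum_congr rfl
      intro i _
      rw [key (P i), Finset.mul_sum]
      apply Finset.sum_congr rfl
      intro j _
      rw [hdd _ _ (hP0 j) (hP0 i), dd_comm' p m (P i) (P j)]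
      ring
  · intro m hm
    constructor
    · have := (ext4 (fun i => p (Q i)) (fun i => m (Q i)) (lin_of_GP p hp Q hQinj) ν hν).mp
        ⟨m i0, fun l => by
          have := hm _ _ (hadj l)
          unfold dd at this
          simp only [hyν]
          exact this⟩
      simpa only [dd] using this
    · intro k
      exact key_pts G v i0 P hPinj hP0 hN p hp hdel β hβ hyβ _ hm (P k)

theorem nonvan {V : Type} [Fintype V] [DecidableEq V] (G : SimpleGraph V) (v i0 : V) (Q : Fin 4 → V)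
    (hQinj : Function.Injective Q) (hQv : ∀ j, Q j ≠ v) (hv0 : v ≠ i0)
    (hN0 : ∀ x, G.Adj i0 x ↔ (x = v ∨ ∃ j, Q j = x)) (p : V → Fin 3 → ℝ) (hF : SF (del G {v}) p)
    (ν : Fin 4 → ℝ) (hν : ∑ i, ν i = 1) (hyν : ∑ i, ν i • p (Q i) = p i0) :
    ∃ m, IsMot (del G {v, i0}) p m ∧ ∑ i, ∑ j, ν i * ν j * dd p m (Q i) (Q j) ≠ 0 := by
  by_contra hcon
  push Not at hcon
  have hQa : ∀ l, G.Adj i0 (Q l) := fun l => (hN0 _).mpr (Or.inr ⟨l, rfl⟩)
  obtain ⟨l, hl⟩ : ∃ l : V → ℝ, l = fun x => ∑ j, if Q j = x then ν j else 0 := ⟨_, rfl⟩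
  have hlQ : ∀ j, l (Q j) = ν j := by
    intro j
    rw [hl]
    simp only [hQinj.eq_iff]
    simp
  have hl0 : ∀ x, (∀ j, Q j ≠ x) → l x = 0 := by
    intro x hx
    rw [hl]
    apply Finset.sum_eq_zero
    intro j _
    rw [if_neg (hx j)]
  have hsum1 : ∀ f : V → Fin 3 → ℝ, ∑ x, l x • f x = ∑ j, ν j • f (Q j) := by
    intro f
    rw [hl]
    simp only [Finset.sum_smul]
    rw [Finset.sum_comm]
    apply Finset.sum_congr rfl
    intro j _
    simp [ite_smul]
  have hsum2 : ∀ f : V → ℝ, ∑ x, l x * f x = ∑ j, ν j * f (Q j) := by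
    intro f
    rw [hl]
    simp only [Finset.sum_mul]
    rw [Finset.sum_comm]
    apply Finset.sum_congr rfl
    intro j _
    simp [ite_mul]
  have h := vertex_SF (del G {v}) i0 p hF l (by
    intro x hx
    apply hl0
    rintro j rfl
    exact hx ⟨hQa j, by simpa using hv0.symm, by simpa using hQv j⟩) (by
    rw [hsum1]
    simp only [smul_sub, Finset.sum_sub_distrib]
    rw [hyν, ← Finset.sum_smul, hν, one_smul, sub_self]) (by
    intro m hm
    rw [hsum2 (fun x => (p i0 - p x) ⬝ᵥ m x)]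
    have hm2 : IsMot (del G {v, i0}) p m := by
      intro a b hab
      obtain ⟨h1, h2, h3⟩ := hab
      simp only [Finset.mem_insert, Finset.mem_singleton, not_or] at h2 h3
      exact hm a b ⟨⟨h1, by simpa using h2.1, by simpa using h3.1⟩, by simpa using h2.2,
        by simpa using h3.2⟩
    have h4 := load4 (fun i => p (Q i)) (fun i => m (Q i)) ν hν
    simp only [hyν] at h4
    have h5 := hcon m hm2
    simp only [dd] at h5
    rw [h5] at h4
    linarith)
  have : ∑ i, ν i = 0 := by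
    apply Finset.sum_eq_zero
    intro j _
    rw [← hlQ j]
    exact h _
  rw [hν] at this
  exact one_ne_zero this

end Pool.Agent.Reg5.J2523
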