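import Pool.Agent.Helper927.R5Defs
import Pool.Agent.Helper927.R5x2258
import Pool.Agent.Helper927.R5x2260
import Pool.Agent.Helper927.R5x2263
import Pool.Agent.Helper927.R5x2275
import Pool.Agent.Helper927.R5x2282
import Pool.Agent.Helper927.R5x2518
import Pool.Agent.Helper927.R5x2522
import Pool.Agent.Helper927.R5x2523
set_option autoImplicit false
set_option maxHeartbeats 4000000

namespace Pool.Agent.Reg5.J2524
open Pool.Agent.Reg5
open Pool.Agent.Reg5.J2275 (D2)
open Pool.Agent.Reg5.J2282 (III_abs)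
open Pool.Agent.Reg5.J2522 (III_delta)
open Pool.Agent.Reg5.J2523 (III_local)
open Pool.Agent.Reg5.J2260 (cls_del)
open Pool.Agent.Reg5.J2258 (dg_ge)
open Pool.Agent.Reg5.J2258 (ie_univ_del)
open Pool.Agent.Reg5.J2263 (isMot_mono)
open Pool.Agent.Reg5.J2518 (mot_congr)
open Pool.Agent.Reg5.J2523 (nonvan)



theorem c7_dd_symm {V : Type} (p m : V → Fin 3 → ℝ) (a b : V) : dd p m a b = dd p m b a := by
  unfold dd
  rw [← neg_sub (p b) (p a), ← neg_sub (m b) (m a), neg_dotProduct_neg]

theorem c7_dd_self {V : Type} (p m : V → Fin 3 → ℝ) (a : V) : dd p m a a = 0 := by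
  unfold dd
  rw [sub_self, zero_dotProduct]

/-- `dd` as a linear functional of the motion -/
def c7L {V : Type} (p : V → Fin 3 → ℝ) (a b : V) : (V → Fin 3 → ℝ) →ₗ[ℝ] ℝ where
  toFun m := dd p m a b
  map_add' m m' := by
    unfold dd
    simp only [Pi.add_apply]
    rw [← dotProduct_add]
    congr 1
    abel
  map_smul' c m := by
    unfold dd
    simp only [Pi.smul_apply, RingHom.id_apply]
    rw [← smul_sub, dotProduct_smul]

theorem c7L_apply {V : Type} (p m : V → Fin 3 → ℝ) (a b : V) : c7L p a b m = dd p m a b := rfl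

/-- the space of motions -/
def c7W {V : Type} (G : SimpleGraph V) (p : V → Fin 3 → ℝ) : Submodule ℝ (V → Fin 3 → ℝ) where
  carrier := {m | IsMot G p m}
  add_mem' := by
    intro m m' hm hm' a b hab
    rw [← c7L_apply, map_add, c7L_apply, c7L_apply, hm a b hab, hm' a b hab, add_zero]
  zero_mem' := by
    intro a b _
    rw [← c7L_apply, map_zero]
  smul_mem' := by
    intro c m hm a b hab
    rw [← c7L_apply, map_smul, c7L_apply, hm a b hab, smul_zero]

theorem c7_mem {V : Type} (G : SimpleGraph V) (p m : V → Fin 3 → ℝ) :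
    m ∈ c7W G p ↔ IsMot G p m := Iff.rfl

/-- affine coordinates with respect to four affinely independent points -/
theorem c7_aff (P : Fin 4 → Fin 3 → ℝ)
    (hP : LinearIndependent ℝ ![P 1 - P 0, P 2 - P 0, P 3 - P 0]) (y : Fin 3 → ℝ) :
    ∃ β : Fin 4 → ℝ, ∑ i, β i = 1 ∧ ∑ i, β i • P i = y := by
  have hspan : Submodule.span ℝ (Set.range ![P 1 - P 0, P 2 - P 0, P 3 - P 0]) = ⊤ := by
    apply hP.span_eq_top_of_card_eq_finrank
    simp
  have hy : y - P 0 ∈ Submodule.span ℝ (Set.range ![P 1 - P 0, P 2 - P 0, P 3 - P 0]) := by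
    rw [hspan]; trivial
  obtain ⟨c, hc⟩ := (Submodule.mem_span_range_iff_exists_fun ℝ).1 hy
  rw [Fin.sum_univ_three] at hc
  simp only [Matrix.cons_val_zero, Matrix.cons_val_one, Matrix.cons_val_two, Matrix.head_cons,
    Matrix.tail_cons, Matrix.cons_val] at hc
  refine ⟨![1 - c 0 - c 1 - c 2, c 0, c 1, c 2], ?_, ?_⟩
  · rw [Fin.sum_univ_four]
    simp only [Matrix.cons_val_zero, Matrix.cons_val_one, Matrix.cons_val_two, Matrix.head_cons,
      Matrix.tail_cons, Matrix.cons_val]
    ring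
  · rw [Fin.sum_univ_four]
    simp only [Matrix.cons_val_zero, Matrix.cons_val_one, Matrix.cons_val_two, Matrix.head_cons,
      Matrix.tail_cons, Matrix.cons_val]
    have : y = (y - P 0) + P 0 := by abel
    rw [this, ← hc]
    module

theorem III_core {V : Type} [Fintype V] [DecidableEq V] (G : SimpleGraph V) (hG : Cls G) (hn : ¬ Ind G)
    (IH : ∀ G' : SimpleGraph V, Cls G' → ie G' Finset.univ < ie G Finset.univ → Ind G')
    (v i0 : V) (P Q : Fin 4 → V)
    (hPinj : Function.Injective P) (hQinj : Function.Injective Q) (hP0 : ∀ j, P j ≠ i0) (hQv : ∀ j, Q j ≠ v)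
    (hN : ∀ x, G.Adj v x ↔ (x = i0 ∨ ∃ j, P j = x)) (hN0 : ∀ x, G.Adj i0 x ↔ (x = v ∨ ∃ j, Q j = x))
    (hpat : ∀ a1 a2 b1 b2 b3 : V, [a1, a2, b1, b2, b3].Nodup → (∀ x, G.Adj v x ↔ (x = a1 ∨ x = a2 ∨ x = b1 ∨ x = b2 ∨ x = b3)) →
      ¬ (J (del G {v}) a1 a2 ∧ J (del G {v}) b1 b2 ∧ J (del G {v}) b1 b3 ∧ J (del G {v}) b2 b3))
    (p0 : V → Fin 3 → ℝ) (r : ℝ) (hr : 0 < r) (hgood : ∀ p, Bx p0 r p → Good p)
    (m : V → Fin 3 → ℝ) (hm : IsMot (del G {v, i0}) p0 m) (j k : Fin 4) : dd p0 m (P j) (Q k) = 0 := by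
  -- basic facts
  have hvi : G.Adj v i0 := (hN i0).2 (Or.inl rfl)
  have hv0 : v ≠ i0 := hvi.ne
  have hQ0 : ∀ j, Q j ≠ i0 := by
    intro j h
    have h1 : G.Adj i0 (Q j) := (hN0 (Q j)).2 (Or.inr ⟨j, rfl⟩)
    rw [h] at h1
    exact h1.ne rfl
  have hGP0 : GP p0 := (hgood p0 (fun a i => by simpa using hr)).1
  have hlin : ∀ (p : V → Fin 3 → ℝ), GP p → ∀ F : Fin 4 → V, Function.Injective F →
      LinearIndependent ℝ ![p (F 1) - p (F 0), p (F 2) - p (F 0), p (F 3) - p (F 0)] := by
    intro p hp F hF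
    exact hp.2.2 (F 0) (F 1) (F 2) (F 3) (hF.ne (by decide)) (hF.ne (by decide))
      (hF.ne (by decide)) (hF.ne (by decide)) (hF.ne (by decide)) (hF.ne (by decide))
  have hInd : Ind (del G {v}) := by
    apply IH _ (cls_del G hG {v})
    have h1 := ie_univ_del G v
    have h2 := dg_ge G Finset.univ {i0} v (Finset.subset_univ _) (by
      intro x hx
      rw [Finset.mem_singleton] at hx
      rw [hx]; exact hvi)
    rw [Finset.card_singleton] at h2
    omega
  -- the perturbed placement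
  have hpert : ∀ ν : Fin 4 → ℝ, (∀ k, |(∑ i, ν i • p0 (Q i)) k - p0 i0 k| < r) →
      ∃ p : V → Fin 3 → ℝ, Good p ∧ p i0 = ∑ i, ν i • p0 (Q i) ∧ ∀ a, a ≠ i0 → p a = p0 a := by
    intro ν hν
    refine ⟨Function.update p0 i0 (∑ i, ν i • p0 (Q i)), ?_, by simp, ?_⟩
    · apply hgood
      intro a i
      by_cases ha : a = i0
      · subst ha
        rw [Function.update_self]
        exact hν i
      · rw [Function.update_of_ne ha]
        simpa using hr
    · intro a ha
      rw [Function.update_of_ne ha]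
  have hddp : ∀ (p : V → Fin 3 → ℝ), (∀ a, a ≠ i0 → p a = p0 a) → ∀ (m : V → Fin 3 → ℝ) (a b : V),
      a ≠ i0 → b ≠ i0 → dd p m a b = dd p0 m a b := by
    intro p hp m a b ha hb
    unfold dd
    rw [hp a ha, hp b hb]
  have hmotp : ∀ (p : V → Fin 3 → ℝ), (∀ a, a ≠ i0 → p a = p0 a) → ∀ (m : V → Fin 3 → ℝ),
      IsMot (del G {v, i0}) p m ↔ IsMot (del G {v, i0}) p0 m := by
    intro p hp m
    apply mot_congr
    intro a b hab
    refine ⟨hp a ?_, rfl⟩
    intro h
    apply hab.2.1
    rw [h]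
    simp
  -- the consequences of III_delta
  have hdel : ∀ p, Good p → ∀ m, IsMot (del G {v}) p m → ∀ n : Fin 5 → V, Function.Injective n →
      (∀ x, G.Adj v x ↔ ∃ i, n i = x) → ∀ μ : Fin 5 → ℝ, (∀ i, μ i ≠ 0) → ∑ i, μ i = 0 →
      ∑ i, μ i • p (n i) = 0 → ∀ i, ∑ j, μ j * dd p m (n i) (n j) = 0 := by
    intro p hp m hm n hn1 hn2 μ hμ hμ0 hμ1 i
    exact III_delta G hG hn IH v n hn1 hn2 hpat p hp μ hμ hμ0 hμ1 m hm i
  have hsub : del G {v, i0} ≤ del G {v} := by
    intro a b hab
    refine ⟨hab.1, ?_, ?_⟩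
    · intro h; apply hab.2.1; rw [Finset.mem_singleton] at h; rw [h]; simp
    · intro h; apply hab.2.2; rw [Finset.mem_singleton] at h; rw [h]; simp
  have main := III_abs (c7W (del G {v, i0}) p0) (fun j => p0 (P j)) (fun j => p0 (Q j))
    (hlin p0 hGP0 P hPinj) (hlin p0 hGP0 Q hQinj)
    (fun i j => c7L p0 (P i) (P j)) (fun i j => c7L p0 (Q i) (Q j)) (fun i j => c7L p0 (P i) (Q j))
    (fun i j => LinearMap.ext fun m => c7_dd_symm p0 m _ _)
    (fun i => LinearMap.ext fun m => c7_dd_self p0 m _)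
    (fun i j => LinearMap.ext fun m => c7_dd_symm p0 m _ _)
    (fun i => LinearMap.ext fun m => c7_dd_self p0 m _)
    (by
      intro j t hjt k
      have h1 : P j = Q t := by
        by_contra hne
        exact hGP0.1 _ _ hne hjt
      simp only [h1])
    (p0 i0) r hr
    (by
      -- ha
      intro ν hν hbox
      obtain ⟨p, hp, hpi, hpa⟩ := hpert ν hbox
      have hyν : ∑ i, ν i • p (Q i) = p i0 := by
        rw [hpi]
        exact Finset.sum_congr rfl fun i _ => by rw [hpa _ (hQ0 i)]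
      obtain ⟨m, hm1, hm2⟩ := nonvan G v i0 Q hQinj hQv hv0 hN0 p (hp.2 _ hInd) ν hν hyν
      refine ⟨m, (hmotp p hpa m).1 hm1, ?_⟩
      intro h
      apply hm2
      rw [← h]
      exact Finset.sum_congr rfl fun i _ => Finset.sum_congr rfl fun j _ => by
        rw [c7L_apply, hddp p hpa m _ _ (hQ0 i) (hQ0 j)])
    (by
      -- hb
      intro ν β hν hβ hνβ hbox m hm hq
      obtain ⟨p, hp, hpi, hpa⟩ := hpert ν hbox
      have hyν : ∑ i, ν i • p (Q i) = p i0 := by
        rw [hpi]
        exact Finset.sum_congr rfl fun i _ => by rw [hpa _ (hQ0 i)]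
      have hyβ : ∑ i, β i • p (P i) = p i0 := by
        rw [hpi, hνβ]
        exact Finset.sum_congr rfl fun i _ => by rw [hpa _ (hP0 i)]
      have hloc := (III_local G v i0 P Q hPinj hQinj hP0 hQv hN hN0 p hp.1 (hdel p hp) ν β hν hβ
        hyν hyβ).1 m ((hmotp p hpa m).2 hm) (by
          rw [← hq]
          exact Finset.sum_congr rfl fun i _ => Finset.sum_congr rfl fun j _ => by
            rw [c7L_apply, hddp p hpa m _ _ (hQ0 i) (hQ0 j)])
      refine ⟨fun k => ?_, ?_⟩
      · rw [← hloc.1 k]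
        exact Finset.sum_congr rfl fun j _ => by
          rw [c7L_apply, hddp p hpa m _ _ (hP0 j) (hQ0 k)]
      · rw [← hloc.2]
        exact Finset.sum_congr rfl fun i _ => Finset.sum_congr rfl fun j _ => by
          rw [c7L_apply, hddp p hpa m _ _ (hP0 i) (hP0 j)])
    (by
      -- hc
      intro ν hν hbox
      obtain ⟨p, hp, hpi, hpa⟩ := hpert ν hbox
      have hyν : ∑ i, ν i • p (Q i) = p i0 := by
        rw [hpi]
        exact Finset.sum_congr rfl fun i _ => by rw [hpa _ (hQ0 i)]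
      obtain ⟨β, hβ, hyβ⟩ := c7_aff (fun i => p (P i)) (hlin p hp.1 P hPinj) (p i0)
      have hloc := (III_local G v i0 P Q hPinj hQinj hP0 hQv hN hN0 p hp.1 (hdel p hp) ν β hν hβ
        hyν hyβ).2
      obtain ⟨x, y, z, w, hx, hy, hz, hw, m, m', hm, hm', hdet⟩ := D2 G hG IH v i0 (P 0) (P 1)
        (P 2) (P 3) (by
          simp only [List.nodup_cons, List.mem_cons, List.not_mem_nil, or_false, not_or,
            List.nodup_nil, and_true, not_false_eq_true]
          refine ⟨⟨(hP0 0).symm, (hP0 1).symm, (hP0 2).symm, (hP0 3).symm⟩,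
            ⟨hPinj.ne (by decide), hPinj.ne (by decide), hPinj.ne (by decide)⟩,
            ⟨hPinj.ne (by decide), hPinj.ne (by decide)⟩, hPinj.ne (by decide)⟩) (by
          intro x
          rw [hN x]
          constructor
          · rintro (h | ⟨j, hj⟩)
            · exact Or.inl h
            · fin_cases j
              · exact Or.inr (Or.inl hj.symm)
              · exact Or.inr (Or.inr (Or.inl hj.symm))
              · exact Or.inr (Or.inr (Or.inr (Or.inl hj.symm)))
              · exact Or.inr (Or.inr (Or.inr (Or.inr hj.symm)))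
          · rintro (h | h | h | h | h)
            · exact Or.inl h
            · exact Or.inr ⟨0, h.symm⟩
            · exact Or.inr ⟨1, h.symm⟩
            · exact Or.inr ⟨2, h.symm⟩
            · exact Or.inr ⟨3, h.symm⟩) p hp
      have hrep : ∀ x, G.Adj v x → ∀ y, G.Adj v y → ∃ c : Fin 4 × Fin 4 → ℝ,
          ∀ m, IsMot (del G {v}) p m → dd p m x y = ∑ a, c a * dd p0 m (P a.1) (P a.2) := by
        have hPP : ∀ i j : Fin 4, ∃ c : Fin 4 × Fin 4 → ℝ,
            ∀ m, dd p m (P i) (P j) = ∑ a, c a * dd p0 m (P a.1) (P a.2) := by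
          intro i j
          refine ⟨fun a => if a = (i, j) then 1 else 0, fun m => ?_⟩
          rw [hddp p hpa m _ _ (hP0 i) (hP0 j)]
          simp
        have h0P : ∀ j : Fin 4, ∃ c : Fin 4 × Fin 4 → ℝ, ∀ m, IsMot (del G {v}) p m →
            dd p m i0 (P j) = ∑ a, c a * dd p0 m (P a.1) (P a.2) := by
          intro j
          refine ⟨fun a => if a.2 = j then β a.1 else 0, fun m hm => ?_⟩
          rw [(hloc m hm).2 j, Fintype.sum_prod_type]
          refine Finset.sum_congr rfl fun i _ => ?_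
          rw [hddp p hpa m _ _ (hP0 i) (hP0 j)]
          simp
        intro x hx y hy
        rcases (hN x).1 hx with rfl | ⟨i, rfl⟩
        · rcases (hN y).1 hy with rfl | ⟨j, rfl⟩
          · exact ⟨fun _ => 0, fun m _ => by rw [c7_dd_self]; simp⟩
          · exact h0P j
        · rcases (hN y).1 hy with rfl | ⟨j, rfl⟩
          · obtain ⟨c, hc⟩ := h0P i
            exact ⟨c, fun m hm => by rw [c7_dd_symm]; exact hc m hm⟩
          · obtain ⟨c, hc⟩ := hPP i j
            exact ⟨c, fun m _ => hc m⟩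
      obtain ⟨c, hc⟩ := hrep x hx y hy
      obtain ⟨d, hd⟩ := hrep z hz w hw
      by_contra hcon
      push Not at hcon
      apply hdet
      have hmW : m ∈ c7W (del G {v, i0}) p0 := (hmotp p hpa m).1 (isMot_mono hsub p m hm)
      have hmW' : m' ∈ c7W (del G {v, i0}) p0 := (hmotp p hpa m').1 (isMot_mono hsub p m' hm')
      have hq : ∀ m, IsMot (del G {v}) p m →
          ∑ i, ∑ j, ν i * ν j * c7L p0 (Q i) (Q j) m = 0 := by
        intro m hm
        rw [← (hloc m hm).1]
        exact Finset.sum_congr rfl fun i _ => Finset.sum_congr rfl fun j _ => by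
          rw [c7L_apply, hddp p hpa m _ _ (hQ0 i) (hQ0 j)]
      have hall : ∀ a b : Fin 4 × Fin 4,
          dd p0 m (P a.1) (P a.2) * dd p0 m' (P b.1) (P b.2) =
            dd p0 m' (P a.1) (P a.2) * dd p0 m (P b.1) (P b.2) := by
        intro a b
        exact hcon a.1 a.2 b.1 b.2 m hmW m' hmW' (hq m hm) (hq m' hm')
      rw [hc m hm, hc m' hm', hd m hm, hd m' hm', Finset.sum_mul_sum, Finset.sum_mul_sum]
      refine Finset.sum_congr rfl fun a _ => Finset.sum_congr rfl fun b _ => ?_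
      have := hall a b
      linear_combination (c a * d b) * this)
  exact main j k m hm

end Pool.Agent.Reg5.J2524
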