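import Pool.Agent.Helper927.R5Defs
import Pool.Agent.Helper927.R5x2257
import Pool.Agent.Helper927.R5x2258
set_option autoImplicit false
set_option maxHeartbeats 4000000

namespace Pool.Agent.Reg5.J2525
open Pool.Agent.Reg5
open Pool.Agent.Reg5.J2258 (dg_ge)
open Pool.Agent.Reg5.J2257 (ie_empty)
open Pool.Agent.Reg5.J2257 (ie_handshake)
open Pool.Agent.Reg5.J2257 (ie_insert)
open Pool.Agent.Reg5.J2257 (ie_mono)


section k54
variable {V : Type} [Fintype V] [DecidableEq V]

theorem k54_dg (K : SimpleGraph V) (M N : Finset V) (hMN : Disjoint M N)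
    (hK : ∀ a b, K.Adj a b ↔ (a ∈ M ∧ b ∈ N) ∨ (a ∈ N ∧ b ∈ M)) (X : Finset V) (c : V) :
    dg K X c = if c ∈ M then (X ∩ N).card else if c ∈ N then (X ∩ M).card else 0 := by
  unfold dg
  by_cases h1 : c ∈ M
  · have h2 : c ∉ N := Finset.disjoint_left.1 hMN h1
    rw [if_pos h1]
    congr 1
    ext x
    simp only [Finset.mem_filter, Finset.mem_inter, hK, h1, h2]
    tauto
  · rw [if_neg h1]
    by_cases h2 : c ∈ N
    · rw [if_pos h2]
      congr 1
      ext x
      simp only [Finset.mem_filter, Finset.mem_inter, hK, h1, h2]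
      tauto
    · rw [if_neg h2, Finset.card_eq_zero]
      ext x
      simp only [Finset.mem_filter, hK, h1, h2, Finset.notMem_empty]
      tauto

theorem k54_ie (K : SimpleGraph V) (M N : Finset V) (hMN : Disjoint M N)
    (hK : ∀ a b, K.Adj a b ↔ (a ∈ M ∧ b ∈ N) ∨ (a ∈ N ∧ b ∈ M)) (X : Finset V) :
    ie K X = (X ∩ M).card * (X ∩ N).card := by
  induction X using Finset.induction_on with
  | empty => rw [ie_empty]; simp
  | insert c X hc ih =>
    rw [ie_insert K X c hc, ih, k54_dg K M N hMN hK]
    by_cases h1 : c ∈ M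
    · have h2 : c ∉ N := Finset.disjoint_left.1 hMN h1
      rw [if_pos h1, Finset.insert_inter_of_mem h1, Finset.insert_inter_of_notMem h2,
        Finset.card_insert_of_notMem (by simp [hc])]
      ring
    · rw [if_neg h1]
      by_cases h2 : c ∈ N
      · rw [if_pos h2, Finset.insert_inter_of_notMem h1, Finset.insert_inter_of_mem h2,
          Finset.card_insert_of_notMem (by simp [hc])]
        ring
      · rw [if_neg h2, Finset.insert_inter_of_notMem h1, Finset.insert_inter_of_notMem h2]
        ring

end k54

theorem K54_cls {V : Type} [Fintype V] [DecidableEq V] (K : SimpleGraph V) (M N : Finset V) (hM : M.card = 5)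
    (hN : N.card = 4) (hMN : Disjoint M N)
    (hK : ∀ a b, K.Adj a b ↔ (a ∈ M ∧ b ∈ N) ∨ (a ∈ N ∧ b ∈ M)) :
    Cls K ∧ ie K Finset.univ = 20 ∧ ie K (M ∪ N) = 20 := by
  have hie := k54_ie K M N hMN hK
  refine ⟨⟨?_, ?_⟩, ?_, ?_⟩
  · intro X hX
    rw [hie]
    have ha : (X ∩ M).card ≤ 5 := by rw [← hM]; exact Finset.card_le_card Finset.inter_subset_right
    have hb : (X ∩ N).card ≤ 4 := by rw [← hN]; exact Finset.card_le_card Finset.inter_subset_right
    have hab : (X ∩ M).card + (X ∩ N).card ≤ X.card := by
      rw [← Finset.card_union_of_disjoint]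
      · apply Finset.card_le_card
        exact Finset.union_subset Finset.inter_subset_left Finset.inter_subset_left
      · exact hMN.mono Finset.inter_subset_right Finset.inter_subset_right
    generalize (X ∩ M).card = a at *
    generalize (X ∩ N).card = b at *
    interval_cases a <;> interval_cases b <;> omega
  · intro a
    rw [k54_dg K M N hMN hK]
    split_ifs
    · rw [Finset.univ_inter]; omega
    · rw [Finset.univ_inter]; omega
    · omega
  · rw [hie, Finset.univ_inter, Finset.univ_inter, hM, hN]
  · rw [hie, Finset.union_inter_cancel_left, Finset.union_inter_cancel_right, hM, hN]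

theorem min_edges {V : Type} [Fintype V] [DecidableEq V] (G : SimpleGraph V) (hG : Sparse G)
    (hd : ∀ a, dg G Finset.univ a = 0 ∨ dg G Finset.univ a = 5) (v : V) (hv : dg G Finset.univ v = 5) :
    30 ≤ ie G Finset.univ := by
  classical
  set X : Finset V := Finset.univ.filter (fun a => dg G Finset.univ a ≠ 0) with hX
  have hadj : ∀ a x, G.Adj a x → x ∈ X := by
    intro a x h
    rw [hX, Finset.mem_filter]
    refine ⟨Finset.mem_univ _, ?_⟩
    have := dg_ge G Finset.univ {a} x (Finset.subset_univ _) (by
      intro y hy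
      rw [Finset.mem_singleton] at hy
      rw [hy]; exact h.symm)
    rw [Finset.card_singleton] at this
    omega
  have hdX : ∀ a ∈ X, dg G X a = 5 := by
    intro a ha
    have h1 : dg G X a = dg G Finset.univ a := by
      unfold dg
      congr 1
      ext x
      simp only [Finset.mem_filter, Finset.mem_univ, true_and]
      exact ⟨fun h => h.2, fun h => ⟨hadj a x h, h⟩⟩
    rw [h1]
    rw [hX, Finset.mem_filter] at ha
    exact (hd a).resolve_left ha.2
  have h1 := ie_handshake G X
  rw [Finset.sum_congr rfl hdX, Finset.sum_const, smul_eq_mul] at h1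
  have hmono := ie_mono G (Finset.subset_univ X)
  have h6 : 6 ≤ X.card := by
    have hvX : v ∈ X := by
      rw [hX, Finset.mem_filter]; exact ⟨Finset.mem_univ _, by omega⟩
    have h2 := hdX v hvX
    unfold dg at h2
    have h3 : insert v (X.filter (fun x => G.Adj v x)) ⊆ X :=
      Finset.insert_subset hvX (Finset.filter_subset _ _)
    have h4 := Finset.card_le_card h3
    rw [Finset.card_insert_of_notMem (by simp)] at h4
    omega
  have h7 := hG X (by omega)
  omega

end Pool.Agent.Reg5.J2525
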