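import Pool.Agent.Helper927.R5Defs
import Pool.Agent.Helper927.R5x2258
import Pool.Agent.Helper927.R5x2259
import Pool.Agent.Helper927.R5x2260
import Pool.Agent.Helper927.R5x2261
import Pool.Agent.Helper927.R5x2263
import Pool.Agent.Helper927.R5x2266
import Pool.Agent.Helper927.R5x2272
import Pool.Agent.Helper927.R5x2273
import Pool.Agent.Helper927.R5x2275
import Pool.Agent.Helper927.R5x2525
set_option autoImplicit false
set_option maxHeartbeats 4000000

namespace Pool.Agent.Reg5.J2526
open Pool.Agent.Reg5
open Pool.Agent.Reg5.J2275 (D2)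
open Pool.Agent.Reg5.J2261 (J_all)
open Pool.Agent.Reg5.J2260 (J_del)
open Pool.Agent.Reg5.J2525 (K54_cls)
open Pool.Agent.Reg5.J2266 (SF_add2)
open Pool.Agent.Reg5.J2259 (bt_deg)
open Pool.Agent.Reg5.J2260 (cls_del)
open Pool.Agent.Reg5.J2258 (dg_del)
open Pool.Agent.Reg5.J2258 (dg_del_mem)
open Pool.Agent.Reg5.J2258 (dg_disj)
open Pool.Agent.Reg5.J2258 (dg_ge)
open Pool.Agent.Reg5.J2258 (ie_add)
open Pool.Agent.Reg5.J2258 (ie_del)
open Pool.Agent.Reg5.J2258 (ie_mono_graph)
open Pool.Agent.Reg5.J2258 (ie_univ_del)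
open Pool.Agent.Reg5.J2273 (implied_J)
open Pool.Agent.Reg5.J2272 (ind_sparse)
open Pool.Agent.Reg5.J2263 (isMot_mono)
open Pool.Agent.Reg5.J2525 (min_edges)


theorem IIIf_dd_symm {V : Type} (p m : V → Fin 3 → ℝ) (a b : V) : dd p m a b = dd p m b a := by
  unfold dd
  rw [← neg_sub (p b) (p a), ← neg_sub (m b) (m a), neg_dotProduct_neg]

theorem IIIf_dd_self {V : Type} (p m : V → Fin 3 → ℝ) (a : V) : dd p m a a = 0 := by
  unfold dd
  simp

theorem IIIf_J_symm {V : Type} [Fintype V] [DecidableEq V] (G : SimpleGraph V) (a b : V)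
    (h : J G a b) : J G b a := by
  rcases h with h | ⟨X, hX, ha, hb⟩
  · exact Or.inl h.symm
  · exact Or.inr ⟨X, hX, hb, ha⟩

theorem III_final {V : Type} [Fintype V] [DecidableEq V] (G : SimpleGraph V) (hG : Cls G)
    (hd : ∀ a, dg G Finset.univ a = 0 ∨ dg G Finset.univ a = 5)
    (IH : ∀ G' : SimpleGraph V, Cls G' → ie G' Finset.univ < ie G Finset.univ → Ind G')
    (v i0 : V) (P Q : Fin 4 → V)
    (hPinj : Function.Injective P) (hQinj : Function.Injective Q) (hP0 : ∀ j, P j ≠ i0) (hQv : ∀ j, Q j ≠ v)
    (hN : ∀ x, G.Adj v x ↔ (x = i0 ∨ ∃ j, P j = x)) (hN0 : ∀ x, G.Adj i0 x ↔ (x = v ∨ ∃ j, Q j = x))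
    (p : V → Fin 3 → ℝ) (hp : Good p)
    (h : ∀ m, IsMot (del G {v, i0}) p m → ∀ j k, dd p m (P j) (Q k) = 0) : False := by
  have hvi0 : G.Adj v i0 := (hN i0).2 (Or.inl rfl)
  have hvP : ∀ j, G.Adj v (P j) := fun j => (hN _).2 (Or.inr ⟨j, rfl⟩)
  have hiQ : ∀ j, G.Adj i0 (Q j) := fun j => (hN0 _).2 (Or.inr ⟨j, rfl⟩)
  have hne : v ≠ i0 := hvi0.ne
  have hPv : ∀ j, P j ≠ v := fun j => (hvP j).ne'
  have hQi : ∀ j, Q j ≠ i0 := fun j => (hiQ j).ne'
  have hmotHF : ∀ m, IsMot (del G {v}) p m → IsMot (del G {v, i0}) p m := by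
    intro m hm
    refine isMot_mono ?_ p m hm
    intro a b hab
    refine ⟨hab.1, ?_, ?_⟩
    · have := hab.2.1
      simp only [Finset.mem_insert, Finset.mem_singleton, not_or] at this ⊢
      exact this.1
    · have := hab.2.2
      simp only [Finset.mem_insert, Finset.mem_singleton, not_or] at this ⊢
      exact this.1
  have hdgv : dg G Finset.univ v = 5 := by
    rcases hd v with h0 | h5
    · have h1 := dg_ge G Finset.univ {i0} v (Finset.subset_univ _) (by
        intro x hx
        rw [Finset.mem_singleton] at hx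
        subst hx
        exact hvi0)
      rw [Finset.card_singleton, h0] at h1
      omega
    · exact h5
  have hnodup : [i0, P 0, P 1, P 2, P 3].Nodup := by
    have h01 : P 0 ≠ P 1 := fun hc => absurd (hPinj hc) (by decide)
    have h02 : P 0 ≠ P 2 := fun hc => absurd (hPinj hc) (by decide)
    have h03 : P 0 ≠ P 3 := fun hc => absurd (hPinj hc) (by decide)
    have h12 : P 1 ≠ P 2 := fun hc => absurd (hPinj hc) (by decide)
    have h13 : P 1 ≠ P 3 := fun hc => absurd (hPinj hc) (by decide)
    have h23 : P 2 ≠ P 3 := fun hc => absurd (hPinj hc) (by decide)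
    have a0 := (hP0 0).symm
    have a1 := (hP0 1).symm
    have a2 := (hP0 2).symm
    have a3 := (hP0 3).symm
    simp [h01, h02, h03, h12, h13, h23, a0, a1, a2, a3]
  obtain ⟨x, y, z, w, hvx, hvy, hvz, hvw, m, m', hm, hm', hdet⟩ :=
    D2 G hG IH v i0 (P 0) (P 1) (P 2) (P 3) hnodup (by
      intro x
      rw [hN]
      constructor
      · rintro (hx | ⟨j, hj⟩)
        · exact Or.inl hx
        · right
          fin_cases j
          · exact Or.inl hj.symm
          · exact Or.inr (Or.inl hj.symm)
          · exact Or.inr (Or.inr (Or.inl hj.symm))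
          · exact Or.inr (Or.inr (Or.inr hj.symm))
      · rintro (hx | hx | hx | hx | hx)
        · exact Or.inl hx
        · exact Or.inr ⟨0, hx.symm⟩
        · exact Or.inr ⟨1, hx.symm⟩
        · exact Or.inr ⟨2, hx.symm⟩
        · exact Or.inr ⟨3, hx.symm⟩) p hp
  by_cases hAB : ∃ j0 k0, P j0 = Q k0
  · -- Case B
    obtain ⟨j0, k0, hjk⟩ := hAB
    set H := del G {v, i0} with hH
    set F := del G {v} with hF
    have hdelF : del F {v, i0} = H := by
      ext a b
      simp only [hF, hH, del, Finset.mem_insert, Finset.mem_singleton, not_or]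
      tauto
    have hHF : H ≤ F := by
      intro a b hab
      refine ⟨hab.1, ?_, ?_⟩
      · have := hab.2.1
        simp only [Finset.mem_insert, Finset.mem_singleton, not_or] at this ⊢
        exact this.1
      · have := hab.2.2
        simp only [Finset.mem_insert, Finset.mem_singleton, not_or] at this ⊢
        exact this.1
    have hHcls : Cls H := cls_del G hG _
    have hFcls : Cls F := cls_del G hG _
    have hie1 : ie G Finset.univ = ie F Finset.univ + 5 := by
      rw [ie_univ_del G v, hdgv]
    have hie2 : ie H Finset.univ ≤ ie F Finset.univ := ie_mono_graph hHF _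
    have hlt : ie H Finset.univ + 1 < ie G Finset.univ := by omega
    have hHind : Ind H := IH H hHcls (by omega)
    have hdgH : ∀ a, a ≠ v → a ≠ i0 → (G.Adj a v ∨ G.Adj a i0) → dg H Finset.univ a ≤ 4 := by
      intro a hav hai hadj
      have h1 : dg H Finset.univ a = dg G (Finset.univ \ {v, i0}) a := by
        rw [hH]
        exact dg_del G {v, i0} Finset.univ a (by simp [hav, hai])
      have h2 : dg G ((Finset.univ \ {v, i0}) ∪ {v, i0}) a =
          dg G (Finset.univ \ {v, i0}) a + dg G {v, i0} a :=
        dg_disj G _ _ a Finset.sdiff_disjoint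
      rw [Finset.sdiff_union_of_subset (Finset.subset_univ _)] at h2
      have h3 := hG.2 a
      have h4 : 1 ≤ dg G {v, i0} a := by
        rcases hadj with hadj | hadj
        · have := dg_ge G {v, i0} {v} a (by simp) (by
            intro x hx
            rw [Finset.mem_singleton] at hx
            subst hx
            exact hadj)
          simpa using this
        · have := dg_ge G {v, i0} {i0} a (by simp) (by
            intro x hx
            rw [Finset.mem_singleton] at hx
            subst hx
            exact hadj)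
          simpa using this
      omega
    have hdgP : ∀ j, dg H Finset.univ (P j) ≤ 4 := fun j =>
      hdgH (P j) (hPv j) (hP0 j) (Or.inl (hvP j).symm)
    have hdgQ : ∀ j, dg H Finset.univ (Q j) ≤ 4 := fun j =>
      hdgH (Q j) (hQv j) (hQi j) (Or.inr (hiQ j).symm)
    have hJFH : ∀ a b, J H a b → J F a b := by
      intro a b hab
      rw [← hdelF] at hab
      exact J_del F hFcls.1 {v, i0} a b hab
    have hJP : ∀ j, j ≠ j0 → J F (P j0) (P j) := by
      intro j hj
      apply IIIf_J_symm
      apply hJFH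
      apply implied_J H p hp hHcls hHind (ie G Finset.univ) IH hlt (P j) (P j0)
        (fun hc => hj (hPinj hc)) (hdgP j) (hdgP j0)
      intro m hm
      rw [hjk]
      exact h m hm j k0
    have hi0w : G.Adj i0 (P j0) := by
      rw [hjk]
      exact hiQ k0
    have hJi0 : J F (P j0) i0 := by
      left
      refine ⟨hi0w.symm, ?_, ?_⟩
      · simp [hPv j0]
      · simp [hne.symm]
    obtain ⟨a, b, c, ha, hb, hc, hab, hac, hbc, hall⟩ : ∃ a b c : Fin 4, a ≠ j0 ∧ b ≠ j0 ∧ c ≠ j0 ∧
        a ≠ b ∧ a ≠ c ∧ b ≠ c ∧ ∀ j, j = j0 ∨ j = a ∨ j = b ∨ j = c := by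
      have key : ∀ j0 : Fin 4, ∃ a b c : Fin 4, a ≠ j0 ∧ b ≠ j0 ∧ c ≠ j0 ∧
        a ≠ b ∧ a ≠ c ∧ b ≠ c ∧ ∀ j, j = j0 ∨ j = a ∨ j = b ∨ j = c := by decide
      exact key j0
    have hPne : ∀ i j, i ≠ j → P i ≠ P j := fun i j hij hc => hij (hPinj hc)
    obtain ⟨hBT, hwi0, hwa, hwb, hwc⟩ := J_all G hG v (P j0) i0 (P a) (P b) (P c) (hvP j0) hvi0
      (hvP a) (hvP b) (hvP c) (hP0 j0) (hPne _ _ ha.symm) (hPne _ _ hb.symm) (hPne _ _ hc.symm)
      (hP0 a).symm (hP0 b).symm (hP0 c).symm (hPne _ _ hab) (hPne _ _ hac) (hPne _ _ hbc)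
      hJi0 (hJP a ha) (hJP b hb) (hJP c hc)
    -- neighbours of w
    have hNw : ∀ x, G.Adj (P j0) x → x = v ∨ x = i0 ∨ ∃ j, P j = x := by
      intro x hx
      by_contra hcon
      push Not at hcon
      obtain ⟨hxv, hxi, hxP⟩ := hcon
      have hT : ({x, v, i0, P a, P b, P c} : Finset V).card = 6 := by
        rw [Finset.card_insert_of_notMem, Finset.card_insert_of_notMem,
          Finset.card_insert_of_notMem, Finset.card_insert_of_notMem,
          Finset.card_insert_of_notMem, Finset.card_singleton]
        · simp [hPne _ _ hbc]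
        · simp [hPne _ _ hab, hPne _ _ hac]
        · simp [(hP0 a).symm, (hP0 b).symm, (hP0 c).symm]
        · simp [hne, (hPv a).symm, (hPv b).symm, (hPv c).symm]
        · simp [hxv, hxi, (hxP a).symm, (hxP b).symm, (hxP c).symm]
      have h1 := dg_ge G Finset.univ {x, v, i0, P a, P b, P c} (P j0) (Finset.subset_univ _) (by
        intro t ht
        simp only [Finset.mem_insert, Finset.mem_singleton] at ht
        rcases ht with rfl | rfl | rfl | rfl | rfl | rfl
        · exact hx
        · exact (hvP j0).symm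
        · exact hwi0
        · exact hwa
        · exact hwb
        · exact hwc)
      rw [hT] at h1
      have := hG.2 (P j0)
      omega
    have hQP : ∀ k, ∃ j, P j = Q k := by
      intro k
      by_cases hk : Q k = P j0
      · exact ⟨j0, hk.symm⟩
      by_contra hcon
      have hJ : J H (P j0) (Q k) := by
        apply implied_J H p hp hHcls hHind (ie G Finset.univ) IH hlt (P j0) (Q k)
          (Ne.symm hk) (hdgP j0) (hdgQ k)
        intro m hm
        exact h m hm j0 k
      rcases hJ with hadj | ⟨X, hX, hwX, hQX⟩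
      · rcases hNw (Q k) hadj.1 with h1 | h1 | h1
        · exact hQv k h1
        · exact hQi k h1
        · exact hcon h1
      · have hvX : v ∉ X := by
          intro hv
          have h1 := bt_deg H hHcls.1 X hX v hv
          have h2 : dg H X v = 0 := dg_del_mem G {v, i0} X v (by simp)
          omega
        have hiX : i0 ∉ X := by
          intro hv
          have h1 := bt_deg H hHcls.1 X hX i0 hv
          have h2 : dg H X i0 = 0 := dg_del_mem G {v, i0} X i0 (by simp)
          omega
        apply hBT X _ hwX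
        refine ⟨hX.1, ?_⟩
        have h1 : ie H X = ie G (X \ {v, i0}) := ie_del G {v, i0} X
        have h2 : ie F X = ie G (X \ {v}) := ie_del G {v} X
        have h3 : X \ {v, i0} = X := by
          rw [Finset.sdiff_eq_self_iff_disjoint]
          simp [hvX, hiX]
        have h4 : X \ {v} = X := by
          rw [Finset.sdiff_eq_self_iff_disjoint]
          simp [hvX]
        have h5 := hX.2
        rw [h1, h3] at h5
        change ie F X + 6 = 3 * X.card
        rw [h2, h4]
        exact h5
    choose σ hσ using hQP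
    have hσinj : Function.Injective σ := by
      intro k k' hkk
      apply hQinj
      rw [← hσ k, ← hσ k', hkk]
    have hσsurj : Function.Surjective σ := Finite.injective_iff_surjective.1 hσinj
    have hPQ : ∀ j, ∃ k, Q k = P j := by
      intro j
      obtain ⟨k, hk⟩ := hσsurj j
      exact ⟨k, by rw [← hσ k, hk]⟩
    have hzero : ∀ m, IsMot F p m → ∀ x y, G.Adj v x → G.Adj v y → dd p m x y = 0 := by
      intro m hm x y hx hy
      have hmH := hmotHF m hm
      have hi0P : ∀ j, dd p m i0 (P j) = 0 := by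
        intro j
        obtain ⟨k, hk⟩ := hPQ j
        apply hm
        refine ⟨?_, ?_, ?_⟩
        · rw [← hk]
          exact hiQ k
        · simp [hne.symm]
        · simp [hPv j]
      rcases (hN x).1 hx with rfl | ⟨j, rfl⟩
      · rcases (hN y).1 hy with rfl | ⟨k, rfl⟩
        · exact IIIf_dd_self p m _
        · exact hi0P k
      · rcases (hN y).1 hy with rfl | ⟨k, rfl⟩
        · rw [IIIf_dd_symm]
          exact hi0P j
        · obtain ⟨k', hk'⟩ := hPQ k
          rw [← hk']
          exact h m hmH j k'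
    apply hdet
    rw [hzero m hm x y hvx hvy, hzero m' hm' x y hvx hvy]
    ring
  · -- Case A
    push Not at hAB
    set M : Finset V := insert i0 (Finset.univ.image P) with hM
    set N : Finset V := Finset.univ.image Q with hNdef
    have hi0P : i0 ∉ Finset.univ.image P := by
      simp only [Finset.mem_image, Finset.mem_univ, true_and, not_exists]
      exact hP0
    have hMc : M.card = 5 := by
      rw [hM, Finset.card_insert_of_notMem hi0P, Finset.card_image_of_injective _ hPinj]
      simp
    have hNc : N.card = 4 := by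
      rw [hNdef, Finset.card_image_of_injective _ hQinj]
      simp
    have hMN : Disjoint M N := by
      rw [Finset.disjoint_left]
      intro t ht ht'
      simp only [hM, hNdef, Finset.mem_insert, Finset.mem_image, Finset.mem_univ, true_and] at ht ht'
      obtain ⟨k, rfl⟩ := ht'
      rcases ht with h1 | ⟨j, h1⟩
      · exact hQi k h1
      · exact hAB j k h1
    have hMN' : ∀ t, t ∈ M → t ∉ N := fun t h1 h2 => (Finset.disjoint_left.1 hMN) h1 h2
    let K : SimpleGraph V :=
      { Adj := fun a b => (a ∈ M ∧ b ∈ N) ∨ (a ∈ N ∧ b ∈ M)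
        symm := ⟨fun a b hab => by
          rcases hab with hab | hab
          · exact Or.inr ⟨hab.2, hab.1⟩
          · exact Or.inl ⟨hab.2, hab.1⟩⟩
        loopless := ⟨fun a hab => by
          rcases hab with hab | hab
          · exact hMN' a hab.1 hab.2
          · exact hMN' a hab.2 hab.1⟩ }
    have hK : ∀ a b, K.Adj a b ↔ (a ∈ M ∧ b ∈ N) ∨ (a ∈ N ∧ b ∈ M) := fun a b => Iff.rfl
    obtain ⟨hKc, hK1, hK2⟩ := K54_cls K M N hMc hNc hMN hK
    have h30 := min_edges G hG.1 hd v hdgv
    have hKind : Ind K := IH K hKc (by omega)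
    have hKSF : SF K p := hp.2 K hKind
    have hmotK : ∀ m, IsMot (del G {v}) p m → IsMot K p m := by
      intro m hm
      have hmH := hmotHF m hm
      have key : ∀ a b, a ∈ M → b ∈ N → dd p m a b = 0 := by
        intro a b ha hb
        simp only [hM, hNdef, Finset.mem_insert, Finset.mem_image, Finset.mem_univ, true_and] at ha hb
        obtain ⟨k, rfl⟩ := hb
        rcases ha with rfl | ⟨j, rfl⟩
        · apply hm
          refine ⟨hiQ k, ?_, ?_⟩
          · simp [hne.symm]
          · simp [hQv k]
        · exact h m hmH j k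
      intro a b hab
      rcases hab with hab | hab
      · exact key a b hab.1 hab.2
      · rw [IIIf_dd_symm]
        exact key b a hab.2 hab.1
    have hmemM : ∀ t, G.Adj v t → t ∈ M := by
      intro t ht
      simp only [hM, Finset.mem_insert, Finset.mem_image, Finset.mem_univ, true_and]
      rcases (hN t).1 ht with h1 | ⟨j, h1⟩
      · exact Or.inl h1
      · exact Or.inr ⟨j, h1⟩
    have hxM := hmemM x hvx
    have hyM := hmemM y hvy
    have hzM := hmemM z hvz
    have hwM := hmemM w hvw
    have hxy : x ≠ y := by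
      rintro rfl
      apply hdet
      rw [IIIf_dd_self, IIIf_dd_self]
      ring
    have hzw : z ≠ w := by
      rintro rfl
      apply hdet
      rw [IIIf_dd_self, IIIf_dd_self]
      ring
    have hKn : ∀ a b, a ∈ M → b ∈ M → ¬ K.Adj a b := by
      intro a b ha hb hab
      rcases hab with hab | hab
      · exact hMN' b hb hab.2
      · exact hMN' a ha hab.1
    have hn' : ¬ (add K x y).Adj z w := by
      rintro (hc | ⟨-, ⟨rfl, rfl⟩ | ⟨rfl, rfl⟩⟩)
      · exact hKn z w hzM hwM hc
      · apply hdet
        ring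
      · apply hdet
        rw [IIIf_dd_symm p m' w z, IIIf_dd_symm p m w z]
        ring
    have hSF := (SF_add2 K p x y z w hxy hzw (hKn x y hxM hyM) hn' hKSF).2
      ⟨m, m', hmotK m hm, hmotK m' hm', hdet⟩
    have hsp := ind_sparse _ ⟨p, hSF⟩
    have hX := hsp (M ∪ N) (by rw [Finset.card_union_of_disjoint hMN, hMc, hNc]; norm_num)
    rw [Finset.card_union_of_disjoint hMN, hMc, hNc,
      ie_add (add K x y) z w hzw hn', ie_add K x y hxy (hKn x y hxM hyM), hK2] at hX
    have c1 : x ∈ M ∪ N ∧ y ∈ M ∪ N :=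
      ⟨Finset.mem_union_left _ hxM, Finset.mem_union_left _ hyM⟩
    have c2 : z ∈ M ∪ N ∧ w ∈ M ∪ N :=
      ⟨Finset.mem_union_left _ hzM, Finset.mem_union_left _ hwM⟩
    rw [if_pos c1, if_pos c2] at hX
    omega

end Pool.Agent.Reg5.J2526
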