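import Pool.Agent.Helper927.R5Defs
import Pool.Agent.Helper927.R5x2276
set_option autoImplicit false
set_option maxHeartbeats 4000000

namespace Pool.Agent.Reg5.J2281
open Pool.Agent.Reg5
open Pool.Agent.Reg5.J2276 (rf_dot)
open Pool.Agent.Reg5.J2276 (rf_lin)
open Pool.Agent.Reg5.J2276 (rf_zero)


theorem II_const (S : Submodule ℝ (((Fin 3 → ℝ) × (Fin 3 → ℝ)) × ((Fin 3 → ℝ) × (Fin 3 → ℝ))))
    (x0 : Fin 3 → ℝ) (r : ℝ) (hr : 0 < r)
    (h : ∀ x : Fin 3 → ℝ, (∀ i, |x i - x0 i| < r) → ∃ c : ℝ, ∀ s ∈ S, rf s.1 x = c • rf s.2 x)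
    (hs : ∀ x : Fin 3 → ℝ, (∀ i, |x i - x0 i| < r) → ∀ w, ∃ s ∈ S, rf s.2 x = w) :
    ∃ c : ℝ, ∀ s ∈ S, s.1 = c • s.2 := by
  obtain ⟨c0, hc0⟩ := h x0 (fun i => by simpa using hr)
  refine ⟨c0, ?_⟩
  have key : ∀ x : Fin 3 → ℝ, (∀ i, |x i - x0 i| < r) → ∀ s ∈ S, rf s.1 x = c0 • rf s.2 x := by
    intro x hx
    obtain ⟨c, hc⟩ := h x hx
    by_cases hxx : x = x0
    · rw [hxx]; exact hc0
    have hcc : c = c0 := by
      obtain ⟨s, hsS, hsw⟩ := hs x hx (x - x0)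
      have h1 := rf_dot s.1 x x0
      have h2 := rf_dot s.2 x x0
      rw [dotProduct_sub, sub_eq_zero] at h1 h2
      rw [hc s hsS, hc0 s hsS, dotProduct_smul, dotProduct_smul, ← h2, hsw, smul_eq_mul,
        smul_eq_mul] at h1
      have h3 : (x - x0) ⬝ᵥ (x - x0) ≠ 0 := by
        intro h4
        rw [dotProduct_self_eq_zero] at h4
        exact hxx (sub_eq_zero.1 h4)
      exact mul_right_cancel₀ h3 h1
    rw [← hcc]
    exact hc
  intro s hsS
  have hz : ∀ x : Fin 3 → ℝ, (∀ i, |x i - x0 i| < r) → rf (s.1 - c0 • s.2) x = 0 := by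
    intro x hx
    have h1 := rf_lin 1 (-c0) s.1 s.2 x
    rw [one_smul, one_smul, neg_smul, neg_smul, ← sub_eq_add_neg, ← sub_eq_add_neg] at h1
    rw [h1, key x hx s hsS, sub_self]
  obtain ⟨a, ha⟩ : ∃ a : Fin 3 → ℝ, a = x0 := ⟨_, rfl⟩
  obtain ⟨b, hb⟩ : ∃ b : Fin 3 → ℝ, b = x0 + Pi.single 0 (r / 2) := ⟨_, rfl⟩
  obtain ⟨c, hc⟩ : ∃ c : Fin 3 → ℝ, c = x0 + Pi.single 1 (r / 2) := ⟨_, rfl⟩
  have hr2 : |r / 2| < r := by rw [abs_of_pos (by positivity)]; linarith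
  have hza := hz a (fun i => by simpa [ha] using hr)
  have hzb := hz b (fun i => by
    rw [hb]
    by_cases hi : i = 0
    · subst hi; simpa using hr2
    · simp [hi, hr])
  have hzc := hz c (fun i => by
    rw [hc]
    by_cases hi : i = 1
    · subst hi; simpa using hr2
    · simp [hi, hr])
  have hli : LinearIndependent ℝ ![b - a, c - a] := by
    rw [LinearIndependent.pair_iff]
    intro u v huv
    have hba : b - a = Pi.single 0 (r / 2) := by rw [hb, ha]; abel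
    have hca : c - a = Pi.single 1 (r / 2) := by rw [hc, ha]; abel
    rw [hba, hca] at huv
    have h0 := congrFun huv 0
    have h1 := congrFun huv 1
    simp at h0 h1
    refine ⟨?_, ?_⟩
    · rcases h0 with h0 | h0
      · exact h0
      · linarith
    · rcases h1 with h1 | h1
      · exact h1
      · linarith
  have := rf_zero a b c hli _ hza hzb hzc
  exact sub_eq_zero.1 this

end Pool.Agent.Reg5.J2281
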