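import Pool.Agent.Helper927.R5Defs
set_option autoImplicit false
set_option maxHeartbeats 4000000

namespace Pool.Agent.Reg5.J2279
open Pool.Agent.Reg5





theorem vdot (a b : Fin 3 → ℝ) : a ⬝ᵥ b = a 0 * b 0 + a 1 * b 1 + a 2 * b 2 := by
  simp [dotProduct, Fin.sum_univ_three]

theorem dot_self_ne {a : Fin 3 → ℝ} (h : a ≠ 0) : a ⬝ᵥ a ≠ 0 := by
  intro h0
  exact h (dotProduct_self_eq_zero.1 h0)

theorem prod_forms (a b : Fin 3 → ℝ) (h : ∀ y : Fin 3 → ℝ, (y ⬝ᵥ a) * (y ⬝ᵥ b) = 0) :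
    a = 0 ∨ b = 0 := by
  by_cases ha : a = 0
  · exact Or.inl ha
  right
  have haa := dot_self_ne ha
  have h1 := h a
  have hab : a ⬝ᵥ b = 0 := by
    rcases mul_eq_zero.1 h1 with h2 | h2
    · exact absurd h2 haa
    · exact h2
  have h2 := h (a + b)
  rw [add_dotProduct, add_dotProduct, dotProduct_comm b a, hab, add_zero, zero_add] at h2
  rcases mul_eq_zero.1 h2 with h3 | h3
  · exact absurd h3 haa
  · exact dotProduct_self_eq_zero.1 h3

theorem two_forms (a a1 b b1 : Fin 3 → ℝ) (hb1 : b1 ≠ 0)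
    (h : ∀ y : Fin 3 → ℝ, (y ⬝ᵥ a) * (y ⬝ᵥ b1) = (y ⬝ᵥ a1) * (y ⬝ᵥ b)) :
    (∃ κ : ℝ, a1 = κ • b1) ∨ ∃ t : ℝ, b = t • b1 := by
  have hN := dot_self_ne hb1
  set N := b1 ⬝ᵥ b1 with hNdef
  have key : ∀ z : Fin 3 → ℝ, (z ⬝ᵥ (N • a1 - (b1 ⬝ᵥ a1) • b1)) * (z ⬝ᵥ (N • b - (b1 ⬝ᵥ b) • b1)) = 0 := by
    intro z
    have h1 := h (N • z - (z ⬝ᵥ b1) • b1)
    have e0 : (N • z - (z ⬝ᵥ b1) • b1) ⬝ᵥ b1 = 0 := by
      rw [sub_dotProduct, smul_dotProduct, smul_dotProduct, ← hNdef, smul_eq_mul, smul_eq_mul]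
      ring
    have e1 : ∀ c : Fin 3 → ℝ, (N • z - (z ⬝ᵥ b1) • b1) ⬝ᵥ c = z ⬝ᵥ (N • c - (b1 ⬝ᵥ c) • b1) := by
      intro c
      rw [sub_dotProduct, smul_dotProduct, smul_dotProduct, dotProduct_sub, dotProduct_smul,
        dotProduct_smul]
      simp only [smul_eq_mul]
      ring
    rw [e0, mul_zero, e1, e1] at h1
    exact h1.symm
  rcases prod_forms _ _ key with h1 | h1
  · left
    refine ⟨N⁻¹ * (b1 ⬝ᵥ a1), ?_⟩
    have h2 : N • a1 = (b1 ⬝ᵥ a1) • b1 := sub_eq_zero.1 h1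
    rw [mul_smul, ← h2, smul_smul, inv_mul_cancel₀ hN, one_smul]
  · right
    refine ⟨N⁻¹ * (b1 ⬝ᵥ b), ?_⟩
    have h2 : N • b = (b1 ⬝ᵥ b) • b1 := sub_eq_zero.1 h1
    rw [mul_smul, ← h2, smul_smul, inv_mul_cancel₀ hN, one_smul]

theorem II_pair {E : Type} [AddCommGroup E] [Module ℝ E] (W : Submodule ℝ E) (f g : E →ₗ[ℝ] (Fin 3 → ℝ))
    (p1 p2 b1 b2 b3 : Fin 3 → ℝ) (hb : LinearIndependent ℝ ![b2 - b1, b3 - b1]) (h12 : p1 ≠ p2)
    (hx : ∀ x : Fin 3 → ℝ, LinearIndependent ℝ ![x - b1, x - b2, x - b3] → ∀ m ∈ W, ∀ m' ∈ W,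
      ((x - p1) ⬝ᵥ f m) * ((x - p2) ⬝ᵥ g m') = ((x - p1) ⬝ᵥ f m') * ((x - p2) ⬝ᵥ g m))
    (h1 : ∃ m ∈ W, f m ≠ 0) (h2 : ∃ m ∈ W, g m ≠ 0)
    (h3 : ∃ m ∈ W, ∃ m' ∈ W, ∀ s t : ℝ, s • f m + t • f m' = 0 → s • g m + t • g m' = 0 → s = 0 ∧ t = 0) :
    ∃ κ : ℝ, κ ≠ 0 ∧ (∀ m ∈ W, f m = κ • g m ∧ (p1 - p2) ⬝ᵥ g m = 0) ∧
      ∀ u, (p1 - p2) ⬝ᵥ u = 0 → ∃ m ∈ W, g m = u := by
  -- normal of the plane
  set n : Fin 3 → ℝ := crossProduct (b2 - b1) (b3 - b1) with hn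
  have hn0 : n ≠ 0 := by
    intro h0
    have := (crossProduct_ne_zero_iff_linearIndependent (v := b2 - b1) (w := b3 - b1)).2 hb
    exact this h0
  have hLI : ∀ x : Fin 3 → ℝ, (x - b1) ⬝ᵥ n ≠ 0 → LinearIndependent ℝ ![x - b1, x - b2, x - b3] := by
    intro x hxn
    have hdet : (Matrix.of ![x - b1, x - b2, x - b3]).det ≠ 0 := by
      have e : (Matrix.of ![x - b1, x - b2, x - b3]).det = (x - b1) ⬝ᵥ n := by
        rw [Matrix.det_fin_three, vdot, hn]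
        simp [crossProduct]
        ring
      rw [e]
      exact hxn
    exact Matrix.linearIndependent_rows_of_det_ne_zero hdet
  have hnn : 0 < n ⬝ᵥ n := lt_of_le_of_ne (by
    rw [vdot]; nlinarith [sq_nonneg (n 0), sq_nonneg (n 1), sq_nonneg (n 2)]) (dot_self_ne hn0).symm
  -- the identity for all x
  have hall : ∀ x : Fin 3 → ℝ, ∀ m ∈ W, ∀ m' ∈ W,
      ((x - p1) ⬝ᵥ f m) * ((x - p2) ⬝ᵥ g m') = ((x - p1) ⬝ᵥ f m') * ((x - p2) ⬝ᵥ g m) := by
    intro x m hm m' hm'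
    by_cases hxn : (x - b1) ⬝ᵥ n = 0
    · have hshift : ∀ t : ℝ, t ≠ 0 → (x + t • n - b1) ⬝ᵥ n ≠ 0 := by
        intro t ht
        have e : (x + t • n - b1) ⬝ᵥ n = t * (n ⬝ᵥ n) := by
          have : x + t • n - b1 = (x - b1) + t • n := by abel
          rw [this, add_dotProduct, hxn, zero_add, smul_dotProduct, smul_eq_mul]
        rw [e]
        exact mul_ne_zero ht hnn.ne'
      have hsp : ∀ (t : ℝ) (p c : Fin 3 → ℝ), (x + t • n - p) ⬝ᵥ c = (x - p) ⬝ᵥ c + t * (n ⬝ᵥ c) := by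
        intro t p c
        have : x + t • n - p = (x - p) + t • n := by abel
        rw [this, add_dotProduct, smul_dotProduct, smul_eq_mul]
      have e1 := hx (x + (1 : ℝ) • n) (hLI _ (hshift 1 one_ne_zero)) m hm m' hm'
      have e2 := hx (x + (-1 : ℝ) • n) (hLI _ (hshift (-1) (by norm_num))) m hm m' hm'
      have e3 := hx (x + (2 : ℝ) • n) (hLI _ (hshift 2 (by norm_num))) m hm m' hm'
      rw [hsp, hsp, hsp, hsp] at e1 e2 e3
      linear_combination e1 + (1/3) * e2 - (1/3) * e3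
    · exact hx x (hLI x hxn) m hm m' hm'
  set d := p1 - p2 with hd
  have hd0 : d ≠ 0 := sub_ne_zero.2 h12
  -- quadratic and linear parts
  have hy : ∀ y : Fin 3 → ℝ, ∀ m ∈ W, ∀ m' ∈ W,
      (y ⬝ᵥ f m) * (y ⬝ᵥ g m' + d ⬝ᵥ g m') = (y ⬝ᵥ f m') * (y ⬝ᵥ g m + d ⬝ᵥ g m) := by
    intro y m hm m' hm'
    have := hall (y + p1) m hm m' hm'
    have e1 : y + p1 - p1 = y := by abel
    have e2 : y + p1 - p2 = y + d := by rw [hd]; abel
    rw [e1, e2, add_dotProduct, add_dotProduct] at this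
    exact this
  have hQ : ∀ y : Fin 3 → ℝ, ∀ m ∈ W, ∀ m' ∈ W,
      (y ⬝ᵥ f m) * (y ⬝ᵥ g m') = (y ⬝ᵥ f m') * (y ⬝ᵥ g m) := by
    intro y m hm m' hm'
    have e1 := hy y m hm m' hm'
    have e2 := hy (-y) m hm m' hm'
    rw [neg_dotProduct, neg_dotProduct, neg_dotProduct, neg_dotProduct] at e2
    linear_combination (1/2) * e1 + (1/2) * e2
  have hLin : ∀ y : Fin 3 → ℝ, ∀ m ∈ W, ∀ m' ∈ W,
      (y ⬝ᵥ f m) * (d ⬝ᵥ g m') = (y ⬝ᵥ f m') * (d ⬝ᵥ g m) := by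
    intro y m hm m' hm'
    have e1 := hy y m hm m' hm'
    have e2 := hQ y m hm m' hm'
    linear_combination e1 - e2
  -- not all pairs proportional to one pair
  have hnotprop : ∀ (a0 c0 : Fin 3 → ℝ), ¬ ∀ m ∈ W, ∃ t : ℝ, f m = t • a0 ∧ g m = t • c0 := by
    intro a0 c0 hprop
    obtain ⟨m, hm, m', hm', hst⟩ := h3
    obtain ⟨t, ht1, ht2⟩ := hprop m hm
    obtain ⟨t', ht1', ht2'⟩ := hprop m' hm'
    have h := hst t' (-t) (by rw [ht1, ht1', smul_smul, smul_smul, ← add_smul]; ring_nf; simp)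
      (by rw [ht2, ht2', smul_smul, smul_smul, ← add_smul]; ring_nf; simp)
    have ht0 : t = 0 := by linarith [h.2]
    have h' := hst 1 0 (by rw [ht1, ht0]; simp) (by rw [ht2, ht0]; simp)
    exact one_ne_zero h'.1
  -- claim A
  have hA : ∀ m ∈ W, d ⬝ᵥ g m = 0 := by
    by_contra hcon
    push Not at hcon
    obtain ⟨m0, hm0, hδ⟩ := hcon
    have hprop : ∀ m ∈ W, f m = ((d ⬝ᵥ g m) / (d ⬝ᵥ g m0)) • f m0 := by
      intro m hm
      have h := prod_forms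
      have e : ∀ y : Fin 3 → ℝ, y ⬝ᵥ ((d ⬝ᵥ g m0) • f m - (d ⬝ᵥ g m) • f m0) = 0 := by
        intro y
        rw [dotProduct_sub, dotProduct_smul, dotProduct_smul, smul_eq_mul, smul_eq_mul]
        linear_combination hLin y m hm m0 hm0
      have e2 := dotProduct_self_eq_zero.1 (e ((d ⬝ᵥ g m0) • f m - (d ⬝ᵥ g m) • f m0))
      have e3 := sub_eq_zero.1 e2
      rw [div_eq_inv_mul, mul_smul, ← e3, smul_smul, inv_mul_cancel₀ hδ, one_smul]
    have ha0 : f m0 ≠ 0 := by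
      intro h0
      obtain ⟨m, hm, hfm⟩ := h1
      apply hfm
      rw [hprop m hm, h0, smul_zero]
    apply hnotprop (f m0) (g m0)
    intro m hm
    refine ⟨(d ⬝ᵥ g m) / (d ⬝ᵥ g m0), hprop m hm, ?_⟩
    set t := (d ⬝ᵥ g m) / (d ⬝ᵥ g m0) with ht
    have hz : ∀ y : Fin 3 → ℝ, (y ⬝ᵥ f m0) * (y ⬝ᵥ (g m - t • g m0)) = 0 := by
      intro y
      have e := hQ y m hm m0 hm0
      rw [hprop m hm, ← ht, dotProduct_smul, smul_eq_mul] at e
      rw [dotProduct_sub, dotProduct_smul, smul_eq_mul]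
      linear_combination -e
    rcases prod_forms _ _ hz with h | h
    · exact absurd h ha0
    · exact sub_eq_zero.1 h
  -- claim B
  obtain ⟨m1, hm1, hb1⟩ := h2
  have hex2 : ∃ m2 ∈ W, ¬ ∃ t : ℝ, g m2 = t • g m1 := by
    by_contra hcon
    push Not at hcon
    apply hnotprop (f m1) (g m1)
    intro m hm
    obtain ⟨t, ht⟩ := hcon m hm
    refine ⟨t, ?_, ht⟩
    have hz : ∀ y : Fin 3 → ℝ, (y ⬝ᵥ g m1) * (y ⬝ᵥ (f m - t • f m1)) = 0 := by
      intro y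
      have e := hQ y m hm m1 hm1
      rw [ht, dotProduct_smul, smul_eq_mul] at e
      rw [dotProduct_sub, dotProduct_smul, smul_eq_mul]
      linear_combination e
    rcases prod_forms _ _ hz with h | h
    · exact absurd h hb1
    · exact sub_eq_zero.1 h
  obtain ⟨m2, hm2, hnp⟩ := hex2
  obtain ⟨κ, hκ⟩ : ∃ κ : ℝ, f m1 = κ • g m1 := by
    rcases two_forms (f m2) (f m1) (g m2) (g m1) hb1 (fun y => hQ y m2 hm2 m1 hm1) with h | h
    · exact h
    · exact absurd h hnp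
  have hB : ∀ m ∈ W, f m = κ • g m := by
    intro m hm
    have hz : ∀ y : Fin 3 → ℝ, (y ⬝ᵥ g m1) * (y ⬝ᵥ (f m - κ • g m)) = 0 := by
      intro y
      have e := hQ y m hm m1 hm1
      rw [hκ, dotProduct_smul, smul_eq_mul] at e
      rw [dotProduct_sub, dotProduct_smul, smul_eq_mul]
      linear_combination e
    rcases prod_forms _ _ hz with h | h
    · exact absurd h hb1
    · exact sub_eq_zero.1 h
  refine ⟨κ, ?_, fun m hm => ⟨hB m hm, hA m hm⟩, ?_⟩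
  · intro h0
    obtain ⟨m, hm, hfm⟩ := h1
    apply hfm
    rw [hB m hm, h0, zero_smul]
  · intro u hu
    set c : Fin 3 → ℝ := crossProduct (g m1) (g m2) with hc
    have hc0 : c ≠ 0 := by
      apply (crossProduct_ne_zero_iff_linearIndependent (v := g m1) (w := g m2)).2
      rw [LinearIndependent.pair_iff' hb1]
      intro a ha
      exact hnp ⟨a, ha.symm⟩
    have hcc := dot_self_ne hc0
    have hdd := dot_self_ne hd0
    have hd1 := hA m1 hm1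
    have hd2 := hA m2 hm2
    have hcross : c 0 = g m1 1 * g m2 2 - g m1 2 * g m2 1 ∧ c 1 = g m1 2 * g m2 0 - g m1 0 * g m2 2 ∧
        c 2 = g m1 0 * g m2 1 - g m1 1 * g m2 0 := by
      rw [hc]
      simp [crossProduct]
    obtain ⟨hc0', hc1', hc2'⟩ := hcross
    have hdc : ∀ i, (d ⬝ᵥ d) * c i = (d ⬝ᵥ c) * d i := by
      rw [vdot] at hd1 hd2
      intro i
      rw [vdot, vdot, hc0', hc1', hc2']
      fin_cases i
      · simp only [Fin.zero_eta, hc0']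
        linear_combination (d 1 * g m2 2 - d 2 * g m2 1) * hd1 - (d 1 * g m1 2 - d 2 * g m1 1) * hd2
      · simp only [Fin.mk_one, hc1']
        linear_combination (d 2 * g m2 0 - d 0 * g m2 2) * hd1 - (d 2 * g m1 0 - d 0 * g m1 2) * hd2
      · simp only [Fin.reduceFinMk, hc2']
        linear_combination (d 0 * g m2 1 - d 1 * g m2 0) * hd1 - (d 0 * g m1 1 - d 1 * g m1 0) * hd2
    have huc : u ⬝ᵥ c = 0 := by
      have e : (d ⬝ᵥ d) * (u ⬝ᵥ c) = 0 := by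
        have h0 := hdc 0
        have h1' := hdc 1
        have h2' := hdc 2
        have hu' : d 0 * u 0 + d 1 * u 1 + d 2 * u 2 = 0 := by rw [← vdot]; exact hu
        rw [vdot u c]
        linear_combination u 0 * h0 + u 1 * h1' + u 2 * h2' + (d ⬝ᵥ c) * hu'
      rcases mul_eq_zero.1 e with h | h
      · exact absurd h hdd
      · exact h
    set α := ((u 1 * g m2 2 - u 2 * g m2 1) * c 0 + (u 2 * g m2 0 - u 0 * g m2 2) * c 1 +
      (u 0 * g m2 1 - u 1 * g m2 0) * c 2) with hα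
    set β := ((g m1 1 * u 2 - g m1 2 * u 1) * c 0 + (g m1 2 * u 0 - g m1 0 * u 2) * c 1 +
      (g m1 0 * u 1 - g m1 1 * u 0) * c 2) with hβ
    have hsolve : ∀ i, (c ⬝ᵥ c) * u i = α * g m1 i + β * g m2 i + (u ⬝ᵥ c) * c i := by
      intro i
      rw [vdot, vdot, hα, hβ]
      fin_cases i
      · simp only [Fin.zero_eta]
        rw [hc0', hc1', hc2']
        ring
      · simp only [Fin.mk_one]
        rw [hc0', hc1', hc2']
        ring
      · simp only [Fin.reduceFinMk]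
        rw [hc0', hc1', hc2']
        ring
    refine ⟨(α / (c ⬝ᵥ c)) • m1 + (β / (c ⬝ᵥ c)) • m2,
      W.add_mem (W.smul_mem _ hm1) (W.smul_mem _ hm2), ?_⟩
    rw [map_add, map_smul, map_smul]
    funext i
    have := hsolve i
    rw [huc, zero_mul, add_zero] at this
    rw [Pi.add_apply, Pi.smul_apply, Pi.smul_apply, smul_eq_mul, smul_eq_mul]
    field_simp
    linarith

end Pool.Agent.Reg5.J2279
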