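import Pool.Agent.Helper927.R5Defs
import Pool.Agent.Helper927.R5x2276
set_option autoImplicit false
set_option maxHeartbeats 4000000

namespace Pool.Agent.Reg5.J2527
open Pool.Agent.Reg5
open Pool.Agent.Reg5.J2276 (rf_dot)
open Pool.Agent.Reg5.J2276 (rf_exists)


theorem normalize {V : Type} (p m : V → Fin 3 → ℝ) (hp : GP p) (b1 b2 b3 : V) (h12 : b1 ≠ b2) (h13 : b1 ≠ b3)
    (h23 : b2 ≠ b3) (e12 : dd p m b1 b2 = 0) (e13 : dd p m b1 b3 = 0) (e23 : dd p m b2 b3 = 0) :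
    ∃ t m' : _, (m' : V → Fin 3 → ℝ) = (fun a => m a - rf t (p a)) ∧ m' b1 = 0 ∧ m' b2 = 0 ∧ m' b3 = 0 ∧
      (∀ a b, dd p m' a b = dd p m a b) := by
  obtain ⟨t, h1, h2, h3⟩ := rf_exists (p b1) (p b2) (p b3) (m b1) (m b2) (m b3)
    (hp.2.1 b1 b2 b3 h12 h13 h23) e12 e13 e23
  refine ⟨t, fun a => m a - rf t (p a), rfl, ?_, ?_, ?_, ?_⟩
  · simp [h1]
  · simp [h2]
  · simp [h3]
  · intro a b
    unfold dd
    have h := rf_dot t (p a) (p b)
    have e : (m a - rf t (p a)) - (m b - rf t (p b)) = (m a - m b) - (rf t (p a) - rf t (p b)) := by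
      abel
    show (p a - p b) ⬝ᵥ ((m a - rf t (p a)) - (m b - rf t (p b))) = _
    rw [e, dotProduct_sub, h, sub_zero]

end Pool.Agent.Reg5.J2527
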