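import Pool.Agent.Helper927.R5Defs
import Pool.Agent.Helper927.R5x2258
import Pool.Agent.Helper927.R5x2260
import Pool.Agent.Helper927.R5x2261
import Pool.Agent.Helper927.R5x2267
import Pool.Agent.Helper927.R5x2273
import Pool.Agent.Helper927.R5x2275
import Pool.Agent.Helper927.R5x2279
import Pool.Agent.Helper927.R5x2518
import Pool.Agent.Helper927.R5x2527
set_option autoImplicit false
set_option maxHeartbeats 4000000

namespace Pool.Agent.Reg5.J2528
open Pool.Agent.Reg5
open Pool.Agent.Reg5.J2275 (D2)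
open Pool.Agent.Reg5.J2279 (II_pair)
open Pool.Agent.Reg5.J2273 (J_implied)
open Pool.Agent.Reg5.J2261 (K4_not)
open Pool.Agent.Reg5.J2518 (SF_congr)
open Pool.Agent.Reg5.J2260 (cls_del)
open Pool.Agent.Reg5.J2267 (dep_vertex)
open Pool.Agent.Reg5.J2258 (dg_del)
open Pool.Agent.Reg5.J2258 (dg_ge)
open Pool.Agent.Reg5.J2258 (dg_insert)
open Pool.Agent.Reg5.J2258 (ie_univ_del)
open Pool.Agent.Reg5.J2273 (implied_J)
open Pool.Agent.Reg5.J2518 (mot_congr)
open Pool.Agent.Reg5.J2527 (normalize)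


theorem iir_five {V M : Type} [Fintype V] [DecidableEq V] [AddCommMonoid M] (a1 a2 b1 b2 b3 : V)
    (hnd : [a1, a2, b1, b2, b3].Nodup) (h : V → M)
    (h0 : ∀ x, ¬ (x = a1 ∨ x = a2 ∨ x = b1 ∨ x = b2 ∨ x = b3) → h x = 0) :
    ∑ x, h x = h a1 + (h a2 + (h b1 + (h b2 + h b3))) := by
  have h1 : ∑ x, h x = ∑ x ∈ ([a1, a2, b1, b2, b3] : List V).toFinset, h x := by
    symm
    apply Finset.sum_subset (Finset.subset_univ _)
    intro x _ hx
    apply h0
    simpa using hx
  rw [h1, List.sum_toFinset _ hnd]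
  simp

theorem iir_dd {V : Type} (p m m' : V → Fin 3 → ℝ) (s t : ℝ) (a b : V) :
    dd p (s • m + t • m') a b = s * dd p m a b + t * dd p m' a b := by
  unfold dd
  have : (s • m + t • m') a - (s • m + t • m') b = s • (m a - m b) + t • (m' a - m' b) := by
    simp only [Pi.add_apply, Pi.smul_apply, smul_sub]
    abel
  rw [this, dotProduct_add, dotProduct_smul, dotProduct_smul, smul_eq_mul, smul_eq_mul]

/-- the space of motions vanishing at three vertices -/
def iirW {V : Type} (F : SimpleGraph V) (p : V → Fin 3 → ℝ) (b1 b2 b3 : V) :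
    Submodule ℝ (V → Fin 3 → ℝ) where
  carrier := {m | IsMot F p m ∧ m b1 = 0 ∧ m b2 = 0 ∧ m b3 = 0}
  add_mem' := by
    rintro m m' ⟨h, h1, h2, h3⟩ ⟨h', h1', h2', h3'⟩
    refine ⟨fun a b hab => ?_, ?_, ?_, ?_⟩
    · have := iir_dd p m m' 1 1 a b
      rw [one_smul, one_smul, h a b hab, h' a b hab] at this
      simpa using this
    · rw [Pi.add_apply, h1, h1', add_zero]
    · rw [Pi.add_apply, h2, h2', add_zero]
    · rw [Pi.add_apply, h3, h3', add_zero]
  zero_mem' := by
    refine ⟨fun a b _ => ?_, rfl, rfl, rfl⟩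
    simp [dd]
  smul_mem' := by
    rintro c m ⟨h, h1, h2, h3⟩
    refine ⟨fun a b hab => ?_, ?_, ?_, ?_⟩
    · have := iir_dd p m m c 0 a b
      rw [zero_smul, add_zero, h a b hab] at this
      simpa using this
    · rw [Pi.smul_apply, h1, smul_zero]
    · rw [Pi.smul_apply, h2, smul_zero]
    · rw [Pi.smul_apply, h3, smul_zero]

theorem II_ratio {V : Type} [Fintype V] [DecidableEq V] (G : SimpleGraph V) (hG : Cls G) (hn : ¬ Ind G)
    (IH : ∀ G' : SimpleGraph V, Cls G' → ie G' Finset.univ < ie G Finset.univ → Ind G') (v a1 a2 b1 b2 b3 : V)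
    (hnd : [a1, a2, b1, b2, b3].Nodup)
    (hN : ∀ x, G.Adj v x ↔ (x = a1 ∨ x = a2 ∨ x = b1 ∨ x = b2 ∨ x = b3))
    (j12 : J (del G {v}) a1 a2) (j3 : J (del G {v}) b1 b2) (j4 : J (del G {v}) b1 b3) (j5 : J (del G {v}) b2 b3)
    (p : V → Fin 3 → ℝ) (hp : Good p) :
    ∃ κ : ℝ, κ ≠ 0 ∧
      (∀ m, IsMot (del G {v}) p m → m b1 = 0 → m b2 = 0 → m b3 = 0 →
        m a1 = κ • m a2 ∧ (p a1 - p a2) ⬝ᵥ m a2 = 0) ∧
      (∀ u, (p a1 - p a2) ⬝ᵥ u = 0 → ∃ m, IsMot (del G {v}) p m ∧ m b1 = 0 ∧ m b2 = 0 ∧ m b3 = 0 ∧ m a2 = u) := by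
  have hnd' := hnd
  simp only [List.nodup_cons, List.mem_cons, List.not_mem_nil, or_false, not_or, List.nodup_nil,
    and_true, not_false_eq_true] at hnd'
  obtain ⟨⟨n12, n1b1, n1b2, n1b3⟩, ⟨n2b1, n2b2, n2b3⟩, ⟨nb12, nb13⟩, nb23⟩ := hnd'
  have hv1 : G.Adj v a1 := (hN a1).mpr (by simp)
  have hv2 : G.Adj v a2 := (hN a2).mpr (by simp)
  have hvb1 : G.Adj v b1 := (hN b1).mpr (by simp)
  have hvb2 : G.Adj v b2 := (hN b2).mpr (by simp)
  have hvb3 : G.Adj v b3 := (hN b3).mpr (by simp)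
  have hFC : Cls (del G {v}) := cls_del G hG {v}
  have hdeg : 5 ≤ dg G Finset.univ v := by
    have h1 := dg_ge G Finset.univ ([a1, a2, b1, b2, b3] : List V).toFinset v (Finset.subset_univ _) (by
      intro x hx
      apply (hN x).mpr
      simpa using hx)
    rw [List.toFinset_card_of_nodup hnd] at h1
    simpa using h1
  have hie := ie_univ_del G v
  have hFI : Ind (del G {v}) := IH _ hFC (by omega)
  have hSF : SF (del G {v}) p := hp.2 _ hFI
  have e12 : ∀ m, IsMot (del G {v}) p m → dd p m b1 b2 = 0 := fun m hm =>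
    J_implied _ p hp hFI b1 b2 j3 m hm
  have e13 : ∀ m, IsMot (del G {v}) p m → dd p m b1 b3 = 0 := fun m hm =>
    J_implied _ p hp hFI b1 b3 j4 m hm
  have e23 : ∀ m, IsMot (del G {v}) p m → dd p m b2 b3 = 0 := fun m hm =>
    J_implied _ p hp hFI b2 b3 j5 m hm
  have hnorm : ∀ m, IsMot (del G {v}) p m → ∃ m', m' ∈ iirW (del G {v}) p b1 b2 b3 ∧
      ∀ a b, dd p m' a b = dd p m a b := by
    intro m hm
    obtain ⟨t, m', _, h1, h2, h3, h4⟩ := normalize p m hp.1 b1 b2 b3 nb12 nb13 nb23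
      (e12 m hm) (e13 m hm) (e23 m hm)
    exact ⟨m', ⟨fun a b hab => by rw [h4]; exact hm a b hab, h1, h2, h3⟩, h4⟩
  have hdg4 : ∀ x, G.Adj v x → dg (del G {v}) Finset.univ x ≤ 4 := by
    intro x hx
    have hxv : x ∉ ({v} : Finset V) := by
      rw [Finset.mem_singleton]; exact hx.ne'
    rw [dg_del G {v} Finset.univ x hxv]
    have h1 := (dg_insert G (Finset.univ \ {v}) x v (by simp)).1 hx.symm
    have h2 : insert v (Finset.univ \ {v}) = (Finset.univ : Finset V) := by
      ext y; simp only [Finset.mem_insert, Finset.mem_sdiff, Finset.mem_univ, true_and,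
        Finset.mem_singleton, iff_true]
      exact em _
    rw [h2] at h1
    have := hG.2 x
    omega
  have himp : ∀ a b, a ≠ b → G.Adj v a → G.Adj v b →
      (∀ m ∈ iirW (del G {v}) p b1 b2 b3, dd p m a b = 0) → J (del G {v}) a b := by
    intro a b hab ha hb h
    refine implied_J (del G {v}) p hp hFC hFI (ie G Finset.univ) IH (by omega) a b hab
      (hdg4 a ha) (hdg4 b hb) ?_
    intro m hm
    obtain ⟨m', hm', h4⟩ := hnorm m hm
    rw [← h4]
    exact h m' hm'
  have hnz : ∀ a, a ≠ b1 → a ≠ b2 → a ≠ b3 → G.Adj v a →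
      ∃ m ∈ iirW (del G {v}) p b1 b2 b3, m a ≠ 0 := by
    intro a h1 h2 h3 ha
    by_contra hcon
    push Not at hcon
    have key : ∀ b, G.Adj v b → a ≠ b → (∀ m ∈ iirW (del G {v}) p b1 b2 b3, m b = 0) →
        J (del G {v}) a b := by
      intro b hb hab h0
      apply himp a b hab ha hb
      intro m hm
      unfold dd
      rw [hcon m hm, h0 m hm, sub_zero, dotProduct_zero]
    exact K4_not G hG v a b1 b2 b3 ha hvb1 hvb2 hvb3 h1 h2 h3 nb12 nb13 nb23
      ⟨key b1 hvb1 h1 (fun m hm => hm.2.1), key b2 hvb2 h2 (fun m hm => hm.2.2.1),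
        key b3 hvb3 h3 (fun m hm => hm.2.2.2), j3, j4, j5⟩
  have hne : ∀ x, (x = a1 ∨ x = a2 ∨ x = b1 ∨ x = b2 ∨ x = b3) → x ≠ v := by
    intro x hx
    exact ((hN x).mpr hx).ne'
  obtain ⟨κ, hκ, hA, hB⟩ := II_pair (iirW (del G {v}) p b1 b2 b3)
    (LinearMap.proj (R := ℝ) (φ := fun _ : V => Fin 3 → ℝ) a1)
    (LinearMap.proj (R := ℝ) (φ := fun _ : V => Fin 3 → ℝ) a2)
    (p a1) (p a2) (p b1) (p b2) (p b3) (hp.1.2.1 b1 b2 b3 nb12 nb13 nb23) (hp.1.1 a1 a2 n12)
    (by
      intro x hx m hm m' hm'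
      simp only [LinearMap.proj_apply]
      have hpv : Function.update p v x v = x := Function.update_self _ _ _
      have hpo : ∀ y, y ≠ v → Function.update p v x y = p y := fun y hy =>
        Function.update_of_ne hy _ _
      have hcong : ∀ a b, (del G {v}).Adj a b → p a = Function.update p v x a := by
        intro a b hab
        have : a ≠ v := by
          have := hab.2.1
          rwa [Finset.mem_singleton] at this
        rw [hpo a this]
      have hSF' : SF (del G {v}) (Function.update p v x) := (SF_congr _ _ _ hcong).mp hSF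
      have hnSF : ¬ SF G (Function.update p v x) := fun h => hn ⟨_, h⟩
      obtain ⟨l, hl0, ⟨y, hy⟩, hl1, hl2⟩ := dep_vertex G v _ hSF' hnSF
      have hl0' : ∀ x, ¬ (x = a1 ∨ x = a2 ∨ x = b1 ∨ x = b2 ∨ x = b3) → l x = 0 := by
        intro x hx
        apply hl0
        rwa [hN]
      have hsum : ∀ m ∈ iirW (del G {v}) p b1 b2 b3,
          l a1 * ((x - p a1) ⬝ᵥ m a1) + l a2 * ((x - p a2) ⬝ᵥ m a2) = 0 := by
        intro m hm
        have h1 := hl2 m ((mot_congr (del G {v}) p (Function.update p v x) m m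
          (fun a b hab => ⟨hcong a b hab, rfl⟩)).mp hm.1)
        rw [iir_five a1 a2 b1 b2 b3 hnd _ (fun x hx => by rw [hl0' x hx, zero_mul])] at h1
        rw [hm.2.1, hm.2.2.1, hm.2.2.2, hpv, hpo a1 (hne a1 (by simp)), hpo a2 (hne a2 (by simp))] at h1
        simpa using h1
      have hl3 : ¬ (l a1 = 0 ∧ l a2 = 0) := by
        rintro ⟨z1, z2⟩
        rw [iir_five a1 a2 b1 b2 b3 hnd _ (fun x hx => by rw [hl0' x hx, zero_smul])] at hl1
        rw [z1, z2, hpv, hpo b1 (hne b1 (by simp)), hpo b2 (hne b2 (by simp)),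
          hpo b3 (hne b3 (by simp)), zero_smul, zero_smul, zero_add, zero_add] at hl1
        have h4 := (Fintype.linearIndependent_iff.mp hx) ![l b1, l b2, l b3] (by
          rw [Fin.sum_univ_three]
          simpa [add_assoc] using hl1)
        have q1 := h4 0
        have q2 := h4 1
        have q3 := h4 2
        simp at q1 q2 q3
        apply hy
        by_cases hyy : (y = a1 ∨ y = a2 ∨ y = b1 ∨ y = b2 ∨ y = b3)
        · rcases hyy with rfl | rfl | rfl | rfl | rfl <;> assumption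
        · exact hl0' y hyy
      have s1 := hsum m hm
      have s2 := hsum m' hm'
      by_cases z1 : l a1 = 0
      · have z2 : l a2 ≠ 0 := fun h => hl3 ⟨z1, h⟩
        rw [z1, zero_mul, zero_add] at s1 s2
        have t1 := (mul_eq_zero.mp s1).resolve_left z2
        have t2 := (mul_eq_zero.mp s2).resolve_left z2
        rw [t1, t2, mul_zero, mul_zero]
      · apply mul_left_cancel₀ z1
        linear_combination ((x - p a2) ⬝ᵥ m' a2) * s1 - ((x - p a2) ⬝ᵥ m a2) * s2)
    (by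
      obtain ⟨m, hm, h⟩ := hnz a1 n1b1 n1b2 n1b3 hv1
      exact ⟨m, hm, h⟩)
    (by
      obtain ⟨m, hm, h⟩ := hnz a2 n2b1 n2b2 n2b3 hv2
      exact ⟨m, hm, h⟩)
    (by
      obtain ⟨x, y, z, w, hx, hy, hz, hw, m, m', hm, hm', hdet⟩ :=
        D2 G hG IH v a1 a2 b1 b2 b3 hnd hN p hp
      obtain ⟨M, hM, hMd⟩ := hnorm m hm
      obtain ⟨M', hM', hMd'⟩ := hnorm m' hm'
      refine ⟨M, hM, M', hM', ?_⟩
      intro s t h1 h2
      simp only [LinearMap.proj_apply] at h1 h2
      have hvan : ∀ x, G.Adj v x → (s • M + t • M') x = 0 := by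
        intro x hx
        rw [Pi.add_apply, Pi.smul_apply, Pi.smul_apply]
        rcases (hN x).mp hx with rfl | rfl | rfl | rfl | rfl
        · exact h1
        · exact h2
        · rw [hM.2.1, hM'.2.1, smul_zero, smul_zero, add_zero]
        · rw [hM.2.2.1, hM'.2.2.1, smul_zero, smul_zero, add_zero]
        · rw [hM.2.2.2, hM'.2.2.2, smul_zero, smul_zero, add_zero]
      have hd : ∀ x y, G.Adj v x → G.Adj v y → s * dd p m x y + t * dd p m' x y = 0 := by
        intro x y hx hy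
        rw [← hMd, ← hMd', ← iir_dd]
        unfold dd
        rw [hvan x hx, hvan y hy, sub_zero, dotProduct_zero]
      have d1 := hd x y hx hy
      have d2 := hd z w hz hw
      have hD : dd p m x y * dd p m' z w - dd p m' x y * dd p m z w ≠ 0 := sub_ne_zero.mpr hdet
      constructor
      · apply (mul_eq_zero.mp _).resolve_right hD
        linear_combination (dd p m' z w) * d1 - (dd p m' x y) * d2
      · apply (mul_eq_zero.mp _).resolve_right hD
        linear_combination (dd p m x y) * d2 - (dd p m z w) * d1)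
  refine ⟨κ, hκ, ?_, ?_⟩
  · intro m hm h1 h2 h3
    exact hA m ⟨hm, h1, h2, h3⟩
  · intro u hu
    obtain ⟨m, hm, h⟩ := hB u hu
    exact ⟨m, hm.1, hm.2.1, hm.2.2.1, hm.2.2.2, h⟩

end Pool.Agent.Reg5.J2528
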