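import Pool.Agent.Helper927.R5Defs
import Pool.Agent.Helper927.R5x2258
import Pool.Agent.Helper927.R5x2259
import Pool.Agent.Helper927.R5x2260
import Pool.Agent.Helper927.R5x2270
import Pool.Agent.Helper927.R5x2273
import Pool.Agent.Helper927.R5x2528
set_option autoImplicit false
set_option maxHeartbeats 4000000

namespace Pool.Agent.Reg5.J2529
open Pool.Agent.Reg5
open Pool.Agent.Reg5.J2528 (II_ratio)
open Pool.Agent.Reg5.J2273 (J_implied)
open Pool.Agent.Reg5.J2259 (bt_deg)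
open Pool.Agent.Reg5.J2260 (cls_del)
open Pool.Agent.Reg5.J2258 (dg_del_mem)
open Pool.Agent.Reg5.J2258 (dg_ge)
open Pool.Agent.Reg5.J2270 (exists_box)
open Pool.Agent.Reg5.J2258 (ie_del)
open Pool.Agent.Reg5.J2258 (ie_univ_del)
open Pool.Agent.Reg5.J2260 (sparse_del)


theorem cross_geom_aux (d e : Fin 3 → ℝ) (h : ∀ u : Fin 3 → ℝ, d ⬝ᵥ u = 0 → e ⬝ᵥ u = 0) :
    (d ⬝ᵥ e) • d - (d ⬝ᵥ d) • e = 0 := by
  have h1 := h ((d ⬝ᵥ e) • d - (d ⬝ᵥ d) • e) (by
    rw [dotProduct_sub, dotProduct_smul, dotProduct_smul, smul_eq_mul, smul_eq_mul]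
    ring)
  have h2 : ((d ⬝ᵥ e) • d - (d ⬝ᵥ d) • e) ⬝ᵥ ((d ⬝ᵥ e) • d - (d ⬝ᵥ d) • e) = 0 := by
    conv_lhs => rw [sub_dotProduct, smul_dotProduct, smul_dotProduct]
    rw [h1, dotProduct_sub, dotProduct_smul, dotProduct_smul, smul_eq_mul, smul_eq_mul, smul_eq_mul,
      smul_eq_mul]
    ring
  exact dotProduct_self_eq_zero.1 h2

theorem II_cross {V : Type} [Fintype V] [DecidableEq V] (G : SimpleGraph V) (hG : Cls G) (hn : ¬ Ind G)
    (IH : ∀ G' : SimpleGraph V, Cls G' → ie G' Finset.univ < ie G Finset.univ → Ind G') (v a1 a2 b1 b2 b3 : V)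
    (hnd : [a1, a2, b1, b2, b3].Nodup)
    (hN : ∀ x, G.Adj v x ↔ (x = a1 ∨ x = a2 ∨ x = b1 ∨ x = b2 ∨ x = b3))
    (j12 : J (del G {v}) a1 a2) (j3 : J (del G {v}) b1 b2) (j4 : J (del G {v}) b1 b3) (j5 : J (del G {v}) b2 b3) :
    ∀ a b, (a = a1 ∨ a = a2) → (b = b1 ∨ b = b2 ∨ b = b3) → ¬ J (del G {v}) a b := by
  intro a b ha hb hJ
  obtain ⟨p, r, hr, hbox⟩ := exists_box (V := V)
  have hp : Good p := hbox p (fun a i => by simpa using hr)
  have hF : Ind (del G {v}) := by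
    refine IH _ (cls_del G hG {v}) ?_
    have h1 := ie_univ_del G v
    have h2 := dg_ge G Finset.univ {a1} v (Finset.subset_univ _) (by
      intro x hx
      rw [Finset.mem_singleton] at hx
      exact (hN x).2 (Or.inl hx))
    rw [Finset.card_singleton] at h2
    omega
  obtain ⟨κ, hκ, hm1, hm2⟩ := II_ratio G hG hn IH v a1 a2 b1 b2 b3 hnd hN j12 j3 j4 j5 p hp
  have hkey : ∀ u : Fin 3 → ℝ, (p a1 - p a2) ⬝ᵥ u = 0 → (p a - p b) ⬝ᵥ u = 0 := by
    intro u hu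
    obtain ⟨m, hm, e1, e2, e3, e4⟩ := hm2 u hu
    have h5 := (hm1 m hm e1 e2 e3).1
    have h6 := J_implied (del G {v}) p hp hF a b hJ m hm
    have h7 : m b = 0 := by
      rcases hb with h | h | h
      · rw [h]; exact e1
      · rw [h]; exact e2
      · rw [h]; exact e3
    unfold dd at h6
    rw [h7, sub_zero] at h6
    rcases ha with h | h
    · rw [h] at h6 ⊢
      rw [h5, e4, dotProduct_smul, smul_eq_mul] at h6
      exact (mul_eq_zero.1 h6).resolve_left hκ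
    · rw [h] at h6 ⊢
      rw [e4] at h6
      exact h6
  have hgeom := cross_geom_aux _ _ hkey
  simp only [List.nodup_cons, List.mem_cons, List.not_mem_nil, or_false, not_or, List.nodup_nil,
    and_true, not_false_eq_true] at hnd
  obtain ⟨⟨n12, n13, n14, n15⟩, ⟨n23, n24, n25⟩, ⟨n34, n35⟩, n45⟩ := hnd
  have hab1 : a1 ≠ b := by
    rcases hb with h | h | h
    · rw [h]; exact n13
    · rw [h]; exact n14
    · rw [h]; exact n15
  have hab2 : a2 ≠ b := by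
    rcases hb with h | h | h
    · rw [h]; exact n23
    · rw [h]; exact n24
    · rw [h]; exact n25
  have hne : p a1 ≠ p a2 := hp.1.1 a1 a2 n12
  have hdd : (p a1 - p a2) ⬝ᵥ (p a1 - p a2) ≠ 0 := by
    intro h0
    exact hne (sub_eq_zero.1 (dotProduct_self_eq_zero.1 h0))
  rcases ha with h | h
  · rw [h] at hgeom
    have hLI := hp.1.2.1 a1 a2 b n12 hab1 hab2
    rw [LinearIndependent.pair_iff] at hLI
    have h8 := hLI (-((p a1 - p a2) ⬝ᵥ (p a1 - p b))) ((p a1 - p a2) ⬝ᵥ (p a1 - p a2)) (by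
      have h9 : p a2 - p a1 = -(p a1 - p a2) := by abel
      have h10 : p b - p a1 = -(p a1 - p b) := by abel
      rw [h9, h10, neg_smul_neg, smul_neg, ← sub_eq_add_neg]
      exact hgeom)
    exact hdd h8.2
  · rw [h] at hgeom
    have hLI := hp.1.2.1 a2 a1 b (Ne.symm n12) hab2 hab1
    rw [LinearIndependent.pair_iff] at hLI
    have h8 := hLI ((p a1 - p a2) ⬝ᵥ (p a2 - p b)) ((p a1 - p a2) ⬝ᵥ (p a1 - p a2)) (by
      have h10 : p b - p a2 = -(p a2 - p b) := by abel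
      rw [h10, smul_neg, ← sub_eq_add_neg]
      exact hgeom)
    exact hdd h8.2

theorem II_B_aux {V : Type} [Fintype V] [DecidableEq V] (G : SimpleGraph V) (hs : Sparse G) (v a1 a2 x y : V)
    (hxv : x ≠ v) (hyv : y ≠ v) (hx1 : x ≠ a1) (hx2 : x ≠ a2) (hy1 : y ≠ a1) (hy2 : y ≠ a2)
    (h1 : ¬ J (del G {v}) a1 x) (h2 : ¬ J (del G {v}) a2 x) (hJ : J (del G {v}) x y) :
    J (del G {v, a1, a2}) x y := by
  rcases hJ with h | ⟨X, hX, hxX, hyX⟩
  · left
    refine ⟨h.1, ?_, ?_⟩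
    · simp only [Finset.mem_insert, Finset.mem_singleton, not_or]
      exact ⟨hxv, hx1, hx2⟩
    · simp only [Finset.mem_insert, Finset.mem_singleton, not_or]
      exact ⟨hyv, hy1, hy2⟩
  · right
    refine ⟨X, ?_, hxX, hyX⟩
    have hvX : v ∉ X := by
      intro hv
      have h3 := bt_deg (del G {v}) (sparse_del G hs {v}) X hX v hv
      rw [dg_del_mem G {v} X v (Finset.mem_singleton_self v)] at h3
      omega
    have h1X : a1 ∉ X := fun h => h1 (Or.inr ⟨X, hX, h, hxX⟩)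
    have h2X : a2 ∉ X := fun h => h2 (Or.inr ⟨X, hX, h, hxX⟩)
    have e1 : X \ {v} = X := by
      rw [Finset.sdiff_eq_self_iff_disjoint, Finset.disjoint_singleton_right]
      exact hvX
    have e2 : X \ {v, a1, a2} = X := by
      rw [Finset.sdiff_eq_self_iff_disjoint, Finset.disjoint_insert_right,
        Finset.disjoint_insert_right, Finset.disjoint_singleton_right]
      exact ⟨hvX, h1X, h2X⟩
    obtain ⟨h4, h5⟩ := hX
    refine ⟨h4, ?_⟩
    rw [ie_del, e1] at h5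
    rw [ie_del, e2]
    exact h5

theorem II_B {V : Type} [Fintype V] [DecidableEq V] (G : SimpleGraph V) (hG : Cls G) (hn : ¬ Ind G)
    (IH : ∀ G' : SimpleGraph V, Cls G' → ie G' Finset.univ < ie G Finset.univ → Ind G') (v a1 a2 b1 b2 b3 : V)
    (hnd : [a1, a2, b1, b2, b3].Nodup)
    (hN : ∀ x, G.Adj v x ↔ (x = a1 ∨ x = a2 ∨ x = b1 ∨ x = b2 ∨ x = b3))
    (j12 : J (del G {v}) a1 a2) (j3 : J (del G {v}) b1 b2) (j4 : J (del G {v}) b1 b3) (j5 : J (del G {v}) b2 b3) :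
    J (del G {v, a1, a2}) b1 b2 ∧ J (del G {v, a1, a2}) b1 b3 ∧ J (del G {v, a1, a2}) b2 b3 := by
  have hc := II_cross G hG hn IH v a1 a2 b1 b2 b3 hnd hN j12 j3 j4 j5
  simp only [List.nodup_cons, List.mem_cons, List.not_mem_nil, or_false, not_or, List.nodup_nil,
    and_true, not_false_eq_true] at hnd
  obtain ⟨⟨n12, n13, n14, n15⟩, ⟨n23, n24, n25⟩, ⟨n34, n35⟩, n45⟩ := hnd
  have v1 : b1 ≠ v := (G.ne_of_adj ((hN b1).2 (by simp))).symm
  have v2 : b2 ≠ v := (G.ne_of_adj ((hN b2).2 (by simp))).symm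
  have v3 : b3 ≠ v := (G.ne_of_adj ((hN b3).2 (by simp))).symm
  refine ⟨?_, ?_, ?_⟩
  · exact II_B_aux G hG.1 v a1 a2 b1 b2 v1 v2 (Ne.symm n13) (Ne.symm n23) (Ne.symm n14) (Ne.symm n24)
      (hc a1 b1 (Or.inl rfl) (Or.inl rfl)) (hc a2 b1 (Or.inr rfl) (Or.inl rfl)) j3
  · exact II_B_aux G hG.1 v a1 a2 b1 b3 v1 v3 (Ne.symm n13) (Ne.symm n23) (Ne.symm n15) (Ne.symm n25)
      (hc a1 b1 (Or.inl rfl) (Or.inl rfl)) (hc a2 b1 (Or.inr rfl) (Or.inl rfl)) j4
  · exact II_B_aux G hG.1 v a1 a2 b2 b3 v2 v3 (Ne.symm n14) (Ne.symm n24) (Ne.symm n15) (Ne.symm n25)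
      (hc a1 b2 (Or.inl rfl) (Or.inr (Or.inl rfl))) (hc a2 b2 (Or.inr rfl) (Or.inr (Or.inl rfl))) j5

end Pool.Agent.Reg5.J2529
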