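import Pool.Agent.Helper927.R5Defs
import Pool.Agent.Helper927.R5x2277
import Pool.Agent.Helper927.R5x2278
set_option autoImplicit false
set_option maxHeartbeats 4000000

namespace Pool.Agent.Reg5.J2280
open Pool.Agent.Reg5
open Pool.Agent.Reg5.J2277 (AL)
open Pool.Agent.Reg5.J2278 (poly_box)


theorem II_exists_nu (Q : Fin 4 → Fin 3 → ℝ)
    (hQ : LinearIndependent ℝ ![Q 1 - Q 0, Q 2 - Q 0, Q 3 - Q 0]) (y : Fin 3 → ℝ) :
    ∃ ν : Fin 4 → ℝ, ∑ i, ν i = 1 ∧ ∑ i, ν i • Q i = y := by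
  have hcard : Fintype.card (Fin 3) = Module.finrank ℝ (Fin 3 → ℝ) := by simp
  have hspan := hQ.span_eq_top_of_card_eq_finrank' hcard
  have hy : y - Q 0 ∈ Submodule.span ℝ (Set.range ![Q 1 - Q 0, Q 2 - Q 0, Q 3 - Q 0]) := by
    rw [hspan]; trivial
  rw [Submodule.mem_span_range_iff_exists_fun] at hy
  obtain ⟨c, hc⟩ := hy
  rw [Fin.sum_univ_three] at hc
  simp only [Matrix.cons_val_zero, Matrix.cons_val_one, Matrix.cons_val] at hc
  refine ⟨![1 - c 0 - c 1 - c 2, c 0, c 1, c 2], ?_, ?_⟩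
  · rw [Fin.sum_univ_four]
    simp only [Matrix.cons_val_zero, Matrix.cons_val_one, Matrix.cons_val]
    ring
  · rw [Fin.sum_univ_four]
    simp only [Matrix.cons_val_zero, Matrix.cons_val_one, Matrix.cons_val]
    have : y = (y - Q 0) + Q 0 := by abel
    rw [this, ← hc]
    module

/-- the linear functional `w ↦ x ⬝ᵥ w` -/
def dpl (x : Fin 3 → ℝ) : (Fin 3 → ℝ) →ₗ[ℝ] ℝ where
  toFun w := x ⬝ᵥ w
  map_add' := by intro a b; exact dotProduct_add x a b
  map_smul' := by intro a b; simp [dotProduct_smul]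

@[simp] theorem dpl_apply (x w : Fin 3 → ℝ) : dpl x w = x ⬝ᵥ w := rfl

theorem II_box_pt (y0 : Fin 3 → ℝ) (r : ℝ) (hr : 0 < r) (j : Fin 3) :
    ∀ k, |(y0 + Pi.single j (r / 2) : Fin 3 → ℝ) k - y0 k| < r := by
  intro k
  by_cases h : k = j
  · subst h
    simp only [Pi.add_apply, Pi.single_eq_same, add_sub_cancel_left]
    rw [abs_of_pos (by linarith)]
    linarith
  · simp only [Pi.add_apply, Pi.single_eq_of_ne h, add_zero, sub_self, abs_zero]
    exact hr

/-- if all planes `(y-c0)^⊥`, `y` in a box, are contained in `U`, then `U` is everything -/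
theorem II_top (U : Submodule ℝ (Fin 3 → ℝ)) (c0 y0 : Fin 3 → ℝ) (r : ℝ) (hr : 0 < r)
    (h : ∀ y : Fin 3 → ℝ, (∀ k, |y k - y0 k| < r) → ∀ w, (y - c0) ⬝ᵥ w = 0 → w ∈ U) : U = ⊤ := by
  by_contra hU
  obtain ⟨f, hf0, hfU⟩ := U.exists_le_ker_of_lt_top (lt_top_iff_ne_top.2 hU)
  have key : ∀ y : Fin 3 → ℝ, (∀ k, |y k - y0 k| < r) → ∃ c : ℝ, c ≠ 0 ∧ ∀ w, f w = c * ((y - c0) ⬝ᵥ w) := by
    intro y hy
    have h1 : ∀ w, (y - c0) ⬝ᵥ w = 0 → f w = 0 := fun w hw => by
      have := hfU (h y hy w hw)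
      simpa using this
    have hyc : (y - c0) ⬝ᵥ (y - c0) ≠ 0 := by
      intro h2
      apply hf0
      refine LinearMap.ext fun w => ?_
      have h3 : y - c0 = 0 := dotProduct_self_eq_zero.1 h2
      exact h1 w (by rw [h3]; simp)
    obtain ⟨n, hn⟩ : ∃ n, n = (y - c0) ⬝ᵥ (y - c0) := ⟨_, rfl⟩
    rw [← hn] at hyc
    have h4 : ∀ w, f w = (n⁻¹ * f (y - c0)) * ((y - c0) ⬝ᵥ w) := by
      intro w
      have h5 := h1 (w - (n⁻¹ * ((y - c0) ⬝ᵥ w)) • (y - c0)) (by
        rw [dotProduct_sub, dotProduct_smul, ← hn, smul_eq_mul]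
        field_simp
        ring)
      rw [map_sub, map_smul, smul_eq_mul] at h5
      linarith
    refine ⟨_, ?_, h4⟩
    intro h6
    apply hf0
    refine LinearMap.ext fun w => ?_
    rw [h4, h6]
    simp
  obtain ⟨c, hc0, hc⟩ := key y0 (fun k => by simpa using hr)
  have hk : ∀ j : Fin 3, ∃ t : ℝ, ∀ i, (Pi.single j 1 : Fin 3 → ℝ) i = t * (y0 - c0) i := by
    intro j
    obtain ⟨d, hd0, hd⟩ := key _ (II_box_pt y0 r hr j)
    refine ⟨(c - d) / (d * (r / 2)), fun i => ?_⟩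
    have h1 := hc (Pi.single i 1)
    have h2 := hd (Pi.single i 1)
    rw [dotProduct_single, mul_one] at h1 h2
    have h3 : (y0 + Pi.single j (r / 2) - c0 : Fin 3 → ℝ) i = (y0 - c0) i + (r / 2) * (Pi.single j 1 : Fin 3 → ℝ) i := by
      by_cases hij : i = j
      · subst hij
        simp
        ring
      · simp [Pi.single_eq_of_ne hij]
    rw [h3, h1] at h2
    field_simp
    linarith
  obtain ⟨t0, ht0⟩ := hk 0
  obtain ⟨t1, ht1⟩ := hk 1
  have a1 := ht0 0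
  have a2 := ht0 1
  have a3 := ht1 1
  simp at a1 a2 a3
  rcases a2 with h | h
  · rw [h] at a1; simp at a1
  · rw [h] at a3; simp at a3

theorem II_abs {E : Type} [AddCommGroup E] [Module ℝ E] (W : Submodule ℝ E) (Q : Fin 4 → Fin 3 → ℝ)
    (hQ : LinearIndependent ℝ ![Q 1 - Q 0, Q 2 - Q 0, Q 3 - Q 0])
    (v : Fin 4 → Fin 4 → (E →ₗ[ℝ] ℝ)) (hsym : ∀ i j, v i j = v j i) (hdiag : ∀ i, v i i = 0)
    (u : E →ₗ[ℝ] (Fin 3 → ℝ)) (c0 y0 : Fin 3 → ℝ) (r : ℝ) (hr : 0 < r)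
    (ha : ∀ ν : Fin 4 → ℝ, ∑ i, ν i = 1 → (∀ k, |(∑ i, ν i • Q i) k - y0 k| < r) →
      ∃ m ∈ W, ∑ i, ∑ j, ν i * ν j * v i j m ≠ 0)
    (hb : ∀ ν : Fin 4 → ℝ, ∑ i, ν i = 1 → (∀ k, |(∑ i, ν i • Q i) k - y0 k| < r) →
      ∀ m ∈ W, ∑ i, ∑ j, ν i * ν j * v i j m = 0 → ((∑ i, ν i • Q i) - c0) ⬝ᵥ u m = 0)
    (hc : ∀ ν : Fin 4 → ℝ, ∑ i, ν i = 1 → (∀ k, |(∑ i, ν i • Q i) k - y0 k| < r) →
      ∀ w, ((∑ i, ν i • Q i) - c0) ⬝ᵥ w = 0 → ∃ m ∈ W, ∑ i, ∑ j, ν i * ν j * v i j m = 0 ∧ u m = w) :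
    (∃ t, Q t = c0 ∧ (∀ i j, i ≠ t → j ≠ t → ∀ m ∈ W, v i j m = 0) ∧
      ∃ ρ : ℝ, ρ ≠ 0 ∧ ∀ i, i ≠ t → ∀ m ∈ W, v i t m = ρ * ((Q i - c0) ⬝ᵥ u m)) ∧
    ∀ w, ∃ m ∈ W, u m = w := by
  classical
  -- the quadratic form as a linear functional in `m`
  set q : (Fin 4 → ℝ) → E → ℝ := fun ν m => ∑ i, ∑ j, ν i * ν j * v i j m with hq
  have hqadd : ∀ ν a b (m m' : E), q ν (a • m - b • m') = a * q ν m - b * q ν m' := by
    intro ν a b m m'
    simp only [hq, map_sub, map_smul, smul_eq_mul, Finset.mul_sum, ← Finset.sum_sub_distrib]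
    refine Finset.sum_congr rfl fun i _ => Finset.sum_congr rfl fun j _ => ?_
    ring
  -- Step 1
  have hsurj : ∀ w, ∃ m ∈ W, u m = w := by
    have h1 := II_top (W.map u) c0 y0 r hr (by
      intro y hy w hw
      obtain ⟨ν, hν1, hν2⟩ := II_exists_nu Q hQ y
      obtain ⟨m, hm, _, hm2⟩ := hc ν hν1 (by rw [hν2]; exact hy) w (by rw [hν2]; exact hw)
      exact ⟨m, hm, hm2⟩)
    intro w
    have : w ∈ W.map u := by rw [h1]; trivial
    obtain ⟨m, hm, hm2⟩ := this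
    exact ⟨m, hm, hm2⟩
  -- the functionals sigma
  set σ : Fin 4 → (E →ₗ[ℝ] ℝ) := fun i => (dpl (Q i - c0)).comp u with hσ
  have hσa : ∀ i m, σ i m = (Q i - c0) ⬝ᵥ u m := fun i m => rfl
  have hσs : ∀ ν : Fin 4 → ℝ, ∑ i, ν i = 1 → ∀ m, ∑ i, ν i * σ i m = ((∑ i, ν i • Q i) - c0) ⬝ᵥ u m := by
    intro ν hν m
    have h1 : (∑ i, ν i • Q i) - c0 = ∑ i, ν i • (Q i - c0) := by
      simp only [smul_sub, Finset.sum_sub_distrib, ← Finset.sum_smul, hν, one_smul]
    rw [h1, sum_dotProduct]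
    refine Finset.sum_congr rfl fun i _ => ?_
    rw [hσa, smul_dotProduct, smul_eq_mul]
  -- Step 2
  have hbox : ∀ ν : Fin 4 → ℝ, ∑ i, ν i = 1 → (∀ k, |(∑ i, ν i • Q i) k - y0 k| < r) →
      ∀ m ∈ W, ∀ m' ∈ W, q ν m * (∑ i, ν i * σ i m') = q ν m' * (∑ i, ν i * σ i m) := by
    intro ν hν hνb m hm m' hm'
    have h1 : q ν (q ν m • m' - q ν m' • m) = 0 := by
      rw [hqadd]; ring
    have h2 := hb ν hν hνb (q ν m • m' - q ν m' • m)
      (W.sub_mem (W.smul_mem _ hm') (W.smul_mem _ hm)) h1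
    rw [← hσs ν hν] at h2
    have h3 : ∑ i, ν i * σ i (q ν m • m' - q ν m' • m) =
        q ν m * (∑ i, ν i * σ i m') - q ν m' * (∑ i, ν i * σ i m) := by
      simp only [map_sub, map_smul, smul_eq_mul, Finset.mul_sum, ← Finset.sum_sub_distrib]
      refine Finset.sum_congr rfl fun i _ => ?_
      ring
    rw [h3] at h2
    linarith
  obtain ⟨ν0, hν01, hν02⟩ := II_exists_nu Q hQ y0
  have hν0b : ∀ k, |(∑ i, ν0 i • Q i) k - y0 k| < r := by
    intro k; rw [hν02]; simpa using hr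
  have H : ∀ ν : Fin 4 → ℝ, ∑ i, ν i = 1 → ∀ m ∈ W, ∀ m' ∈ W,
      (∑ i, ∑ j, ν i * ν j * v i j m) * (∑ i, ν i * σ i m') =
      (∑ i, ∑ j, ν i * ν j * v i j m') * (∑ i, ν i * σ i m) := by
    intro ν hν m hm m' hm'
    -- line through `ν0` and `ν`
    set N : (Fin 1 → ℝ) → Fin 4 → ℝ := fun s i => ν0 i + s 0 * (ν i - ν0 i) with hN
    have hN1 : ∀ s, ∑ i, N s i = 1 := by
      intro s
      simp only [hN, Finset.sum_add_distrib, ← Finset.mul_sum, Finset.sum_sub_distrib, hν, hν01]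
      ring
    have hN2 : ∀ s k, (∑ i, N s i • Q i) k - y0 k = s 0 * ((∑ i, ν i • Q i) k - y0 k) := by
      intro s k
      have h1 : ∑ i, N s i • Q i = y0 + s 0 • ((∑ i, ν i • Q i) - y0) := by
        simp only [hN, add_smul, Finset.sum_add_distrib, mul_smul, ← Finset.smul_sum, sub_smul,
          Finset.sum_sub_distrib, hν02]
      rw [h1]
      simp
    set f : (Fin 1 → ℝ) → ℝ := fun s =>
      (∑ i, ∑ j, N s i * N s j * v i j m) * (∑ i, N s i * σ i m') -
      (∑ i, ∑ j, N s i * N s j * v i j m') * (∑ i, N s i * σ i m) with hf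
    have hNan : ∀ i, AnalyticOnNhd ℝ (fun s => N s i) Set.univ := by
      intro i x _
      have h1 : AnalyticAt ℝ (fun s : Fin 1 → ℝ => s 0) x :=
        (ContinuousLinearMap.proj (R := ℝ) (φ := fun _ : Fin 1 => ℝ) 0).analyticAt x
      exact analyticAt_const.add (h1.mul analyticAt_const)
    have hfan : AnalyticOnNhd ℝ f Set.univ := by
      have h1 : ∀ m : E, AnalyticOnNhd ℝ (fun s => ∑ i, ∑ j, N s i * N s j * v i j m) Set.univ := by
        intro m
        refine Finset.analyticOnNhd_fun_sum _ fun i _ => Finset.analyticOnNhd_fun_sum _ fun j _ => ?_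
        exact ((hNan i).mul (hNan j)).mul analyticOnNhd_const
      have h2 : ∀ m : E, AnalyticOnNhd ℝ (fun s => ∑ i, N s i * σ i m) Set.univ := by
        intro m
        refine Finset.analyticOnNhd_fun_sum _ fun i _ => ?_
        exact (hNan i).mul analyticOnNhd_const
      exact ((h1 m).mul (h2 m')).sub ((h1 m').mul (h2 m))
    obtain ⟨M, hM⟩ : ∃ M : ℝ, M = 1 + ∑ k, |(∑ i, ν i • Q i) k - y0 k| := ⟨_, rfl⟩
    have hMpos : 0 < M := by
      rw [hM]
      have : 0 ≤ ∑ k, |(∑ i, ν i • Q i) k - y0 k| := Finset.sum_nonneg fun k _ => abs_nonneg _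
      linarith
    have hMk : ∀ k, |(∑ i, ν i • Q i) k - y0 k| < M := by
      intro k
      have h1 : |(∑ i, ν i • Q i) k - y0 k| ≤ ∑ k, |(∑ i, ν i • Q i) k - y0 k| :=
        Finset.single_le_sum (f := fun k => |(∑ i, ν i • Q i) k - y0 k|)
          (fun k _ => abs_nonneg _) (Finset.mem_univ k)
      rw [hM]
      linarith
    have hzero := poly_box f hfan 0 (r / M) (div_pos hr hMpos) (by
      intro s hs
      have hs0 := hs 0
      simp only [Pi.zero_apply, sub_zero] at hs0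
      have h1 : ∀ k, |(∑ i, N s i • Q i) k - y0 k| < r := by
        intro k
        rw [hN2, abs_mul]
        calc |s 0| * |(∑ i, ν i • Q i) k - y0 k| ≤ |s 0| * M :=
              mul_le_mul_of_nonneg_left (hMk k).le (abs_nonneg _)
          _ < r / M * M := mul_lt_mul_of_pos_right hs0 hMpos
          _ = r := by field_simp
      have h2 := hbox (N s) (hN1 s) h1 m hm m' hm'
      simp only [hq] at h2
      simp only [hf]
      rw [h2, sub_self]) 1
    have hN3 : ∀ i, N 1 i = ν i := by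
      intro i
      simp [hN]
    simp only [hf, hN3] at hzero
    linarith
  -- Step 3
  have hne10 : Q 1 ≠ Q 0 := by
    intro h
    have h1 := hQ.ne_zero 0
    simp [h] at h1
  have hQinj : ∀ i j, i ≠ j → Q i ≠ Q j := by
    have l1 := hQ.ne_zero 0
    have l2 := hQ.ne_zero 1
    have l3 := hQ.ne_zero 2
    have l4 : Q 1 - Q 0 ≠ Q 2 - Q 0 := fun h => by
      have := hQ.injective (a₁ := 0) (a₂ := 1) (by simpa using h)
      exact absurd this (by decide)
    have l5 : Q 1 - Q 0 ≠ Q 3 - Q 0 := fun h => by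
      have := hQ.injective (a₁ := 0) (a₂ := 2) (by simpa using h)
      exact absurd this (by decide)
    have l6 : Q 2 - Q 0 ≠ Q 3 - Q 0 := fun h => by
      have := hQ.injective (a₁ := 1) (a₂ := 2) (by simpa using h)
      exact absurd this (by decide)
    simp only [Matrix.cons_val_zero, Matrix.cons_val_one, Matrix.cons_val, ne_eq, sub_eq_zero] at l1 l2 l3
    intro i j hij h
    fin_cases i <;> fin_cases j <;> simp at hij h
    · exact l1 h.symm
    · exact l2 h.symm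
    · exact l3 h.symm
    · exact l1 h
    · exact l4 (by rw [h])
    · exact l5 (by rw [h])
    · exact l2 h
    · exact l4 (by rw [h])
    · exact l6 (by rw [h])
    · exact l3 h
    · exact l5 (by rw [h])
    · exact l6 (by rw [h])
  have hσne : ∀ i, Q i ≠ c0 → ∃ m ∈ W, σ i m ≠ 0 := by
    intro i hi
    obtain ⟨m, hm, hm2⟩ := hsurj (Q i - c0)
    refine ⟨m, hm, ?_⟩
    rw [hσa, hm2]
    intro h
    exact hi (sub_eq_zero.1 (dotProduct_self_eq_zero.1 h))
  have h4 : ∃ i, ∃ m ∈ W, σ i m ≠ 0 := by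
    by_cases h0 : Q 0 = c0
    · exact ⟨1, hσne 1 (by rw [← h0]; exact hne10)⟩
    · exact ⟨0, hσne 0 h0⟩
  have h3 : ∃ i j k l, ∃ m ∈ W, ∃ m' ∈ W, v i j m * v k l m' ≠ v i j m' * v k l m := by
    by_contra hcon
    push Not at hcon
    obtain ⟨m0, hm0, hqm0⟩ := ha ν0 hν01 hν0b
    -- a nonzero vector orthogonal to y0 - c0
    obtain ⟨w, hw0, hw⟩ : ∃ w : Fin 3 → ℝ, w ≠ 0 ∧ (y0 - c0) ⬝ᵥ w = 0 := by
      by_cases hz : (y0 - c0) 0 = 0
      · refine ⟨Pi.single 0 1, ?_, ?_⟩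
        · intro h
          have := congrFun h 0
          simp at this
        · rw [dotProduct_single, hz]; simp
      · refine ⟨Pi.single 1 ((y0 - c0) 0) - Pi.single 0 ((y0 - c0) 1), ?_, ?_⟩
        · intro h
          have := congrFun h 1
          simp at this
          exact hz (by simpa using this)
        · rw [dotProduct_sub, dotProduct_single, dotProduct_single]; ring
    obtain ⟨m, hm, hqm, hum⟩ := hc ν0 hν01 hν0b w (by rw [hν02]; exact hw)
    have hvm : ∀ i j, v i j m = 0 := by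
      intro i j
      have h1 : v i j m * (∑ k, ∑ l, ν0 k * ν0 l * v k l m0) = v i j m0 * (∑ k, ∑ l, ν0 k * ν0 l * v k l m) := by
        simp only [Finset.mul_sum]
        refine Finset.sum_congr rfl fun k _ => Finset.sum_congr rfl fun l _ => ?_
        have := hcon i j k l m hm m0 hm0
        calc v i j m * (ν0 k * ν0 l * v k l m0) = ν0 k * ν0 l * (v i j m * v k l m0) := by ring
          _ = ν0 k * ν0 l * (v i j m0 * v k l m) := by rw [this]
          _ = _ := by ring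
      rw [hqm, mul_zero] at h1
      exact (mul_eq_zero.1 h1).resolve_right hqm0
    have hall : ∀ y : Fin 3 → ℝ, (∀ k, |y k - y0 k| < r) → (y - c0) ⬝ᵥ u m = 0 := by
      intro y hy
      obtain ⟨ν, hν1, hν2⟩ := II_exists_nu Q hQ y
      have := hb ν hν1 (by rw [hν2]; exact hy) m hm (by simp [hvm])
      rwa [hν2] at this
    apply hw0
    rw [← hum]
    funext j
    have h1 := hall y0 (fun k => by simpa using hr)
    have h2 := hall _ (II_box_pt y0 r hr j)
    have h5 : (y0 + Pi.single j (r / 2) - c0 : Fin 3 → ℝ) = (y0 - c0) + Pi.single j (r / 2) := by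
      abel
    rw [h5, add_dotProduct, h1, zero_add, single_dotProduct] at h2
    have h6 : r / 2 ≠ 0 := by linarith
    simpa [h6, hr.ne'] using h2
  obtain ⟨S, ρ, hS, hSS, hTT, hST⟩ := AL W v σ hsym hdiag H h3 h4
  have hS' : ∀ i, i ∈ S ↔ Q i ≠ c0 := by
    intro i
    rw [hS]
    constructor
    · rintro ⟨m, _, hm2⟩ h
      apply hm2
      rw [hσa, h, sub_self, zero_dotProduct]
    · exact hσne i
  refine ⟨?_, hsurj⟩
  obtain ⟨m0, hm0, hqm0⟩ := ha ν0 hν01 hν0b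
  obtain ⟨t, ht⟩ : ∃ t, t ∉ S := by
    by_contra hcon
    push Not at hcon
    apply hqm0
    refine Finset.sum_eq_zero fun i _ => Finset.sum_eq_zero fun j _ => ?_
    rw [hSS i (hcon i) j (hcon j) m0 hm0, mul_zero]
  have hQt : Q t = c0 := by
    by_contra h
    exact ht ((hS' t).2 h)
  have hin : ∀ i, i ≠ t → i ∈ S := by
    intro i hi
    rw [hS', ← hQt]
    exact hQinj i t hi
  refine ⟨t, hQt, fun i j hi hj m hm => hSS i (hin i hi) j (hin j hj) m hm, ρ t, ?_, ?_⟩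
  · intro hρ
    apply hqm0
    refine Finset.sum_eq_zero fun i _ => Finset.sum_eq_zero fun j _ => ?_
    have h0 : v i j m0 = 0 := by
      by_cases hi : i = t
      · by_cases hj : j = t
        · rw [hi, hj, hdiag]; rfl
        · rw [hi, hsym, hST j (hin j hj) t ht m0 hm0, hρ, zero_mul]
      · by_cases hj : j = t
        · rw [hj, hST i (hin i hi) t ht m0 hm0, hρ, zero_mul]
        · exact hSS i (hin i hi) j (hin j hj) m0 hm0
    rw [h0, mul_zero]
  · intro i hi m hm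
    rw [hST i (hin i hi) t ht m hm, hσa]

end Pool.Agent.Reg5.J2280
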