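import Pool.Agent.Helper927.R5Defs
import Pool.Agent.Helper927.R5x2258
import Pool.Agent.Helper927.R5x2260
import Pool.Agent.Helper927.R5x2263
import Pool.Agent.Helper927.R5x2273
import Pool.Agent.Helper927.R5x2280
import Pool.Agent.Helper927.R5x2518
import Pool.Agent.Helper927.R5x2523
import Pool.Agent.Helper927.R5x2527
import Pool.Agent.Helper927.R5x2528
import Pool.Agent.Helper927.R5x2529
set_option autoImplicit false
set_option maxHeartbeats 4000000

namespace Pool.Agent.Reg5.J2530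
open Pool.Agent.Reg5
open Pool.Agent.Reg5.J2529 (II_B)
open Pool.Agent.Reg5.J2280 (II_abs)
open Pool.Agent.Reg5.J2528 (II_ratio)
open Pool.Agent.Reg5.J2260 (J_del)
open Pool.Agent.Reg5.J2273 (J_implied)
open Pool.Agent.Reg5.J2260 (cls_del)
open Pool.Agent.Reg5.J2258 (dg_ge)
open Pool.Agent.Reg5.J2518 (ext4)
open Pool.Agent.Reg5.J2258 (ie_mono_graph)
open Pool.Agent.Reg5.J2258 (ie_univ_del)
open Pool.Agent.Reg5.J2263 (isMot_mono)
open Pool.Agent.Reg5.J2518 (mot_congr)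
open Pool.Agent.Reg5.J2523 (nonvan)
open Pool.Agent.Reg5.J2527 (normalize)


/-- `dd` as a linear map in the motion -/
def ddL {V : Type} (p : V → Fin 3 → ℝ) (a b : V) : (V → Fin 3 → ℝ) →ₗ[ℝ] ℝ where
  toFun m := dd p m a b
  map_add' m m' := by
    unfold dd
    rw [← dotProduct_add]
    congr 1
    simp only [Pi.add_apply]
    abel
  map_smul' c m := by
    unfold dd
    rw [RingHom.id_apply, smul_eq_mul, ← smul_eq_mul, ← dotProduct_smul]
    congr 1
    simp only [Pi.smul_apply]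
    rw [smul_sub]

theorem ddL_apply {V : Type} (p m : V → Fin 3 → ℝ) (a b : V) : ddL p a b m = dd p m a b := rfl

theorem dd_symm {V : Type} (p m : V → Fin 3 → ℝ) (a b : V) : dd p m a b = dd p m b a := by
  unfold dd
  rw [← neg_sub (p b), ← neg_sub (m b), neg_dotProduct_neg]

theorem dd_self {V : Type} (p m : V → Fin 3 → ℝ) (a : V) : dd p m a a = 0 := by
  unfold dd
  simp

/-- normalised motions -/
def WW {V : Type} (H : SimpleGraph V) (p : V → Fin 3 → ℝ) (b1 b2 b3 : V) :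
    Submodule ℝ (V → Fin 3 → ℝ) where
  carrier := {m | IsMot H p m ∧ m b1 = 0 ∧ m b2 = 0 ∧ m b3 = 0}
  add_mem' := by
    rintro m m' ⟨h1, h2, h3, h4⟩ ⟨h1', h2', h3', h4'⟩
    refine ⟨fun a b hab => ?_, ?_, ?_, ?_⟩
    · have := map_add (ddL p a b) m m'
      rw [ddL_apply, ddL_apply, ddL_apply, h1 a b hab, h1' a b hab] at this
      rw [this, add_zero]
    · rw [Pi.add_apply, h2, h2', add_zero]
    · rw [Pi.add_apply, h3, h3', add_zero]
    · rw [Pi.add_apply, h4, h4', add_zero]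
  zero_mem' := by
    refine ⟨fun a b _ => ?_, rfl, rfl, rfl⟩
    exact map_zero (ddL p a b)
  smul_mem' := by
    rintro c m ⟨h1, h2, h3, h4⟩
    refine ⟨fun a b hab => ?_, ?_, ?_, ?_⟩
    · have := map_smul (ddL p a b) c m
      rw [ddL_apply, ddL_apply, h1 a b hab] at this
      rw [this, smul_zero]
    · rw [Pi.smul_apply, h2, smul_zero]
    · rw [Pi.smul_apply, h3, smul_zero]
    · rw [Pi.smul_apply, h4, smul_zero]

theorem mem_WW {V : Type} (H : SimpleGraph V) (p : V → Fin 3 → ℝ) (b1 b2 b3 : V)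
    (m : V → Fin 3 → ℝ) :
    m ∈ WW H p b1 b2 b3 ↔ IsMot H p m ∧ m b1 = 0 ∧ m b2 = 0 ∧ m b3 = 0 := Iff.rfl

theorem side_fixed {V : Type} [Fintype V] [DecidableEq V] (G : SimpleGraph V) (hG : Cls G) (hn : ¬ Ind G)
    (IH : ∀ G' : SimpleGraph V, Cls G' → ie G' Finset.univ < ie G Finset.univ → Ind G') (v a1 a2 b1 b2 b3 : V)
    (hnd : [a1, a2, b1, b2, b3].Nodup)
    (hN : ∀ x, G.Adj v x ↔ (x = a1 ∨ x = a2 ∨ x = b1 ∨ x = b2 ∨ x = b3))
    (j12 : J (del G {v}) a1 a2) (j3 : J (del G {v}) b1 b2) (j4 : J (del G {v}) b1 b3) (j5 : J (del G {v}) b2 b3)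
    (p0 : V → Fin 3 → ℝ) (r : ℝ) (hr : 0 < r) (hgood : ∀ p, Bx p0 r p → Good p)
    (Q : Fin 4 → V) (hQinj : Function.Injective Q) (hQv : ∀ j, Q j ≠ v)
    (hQ : ∀ x, G.Adj a1 x ↔ (x = v ∨ ∃ j, Q j = x)) (p : V → Fin 3 → ℝ) (hp : Bx p0 r p) :
    ∃ t, Q t = a2 ∧
      (∀ i j, i ≠ t → j ≠ t → ∀ m, IsMot (del G {v, a1}) p m → dd p m (Q i) (Q j) = 0) ∧
      (∃ ρ : ℝ, ρ ≠ 0 ∧ ∀ i, i ≠ t → ∀ m, IsMot (del G {v, a1}) p m → m b1 = 0 → m b2 = 0 → m b3 = 0 →
        dd p m (Q i) a2 = ρ * ((p (Q i) - p a2) ⬝ᵥ m a2)) ∧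
      (∀ w, ∃ m, IsMot (del G {v, a1}) p m ∧ m b1 = 0 ∧ m b2 = 0 ∧ m b3 = 0 ∧ m a2 = w) := by
  have hnd' := hnd
  simp only [List.nodup_cons, List.mem_cons, List.not_mem_nil, or_false, not_or, not_false_eq_true,
    List.nodup_nil, and_true] at hnd'
  obtain ⟨⟨n12, n1b1, n1b2, n1b3⟩, ⟨n2b1, n2b2, n2b3⟩, ⟨nb12, nb13⟩, nb23⟩ := hnd'
  have va1 : G.Adj v a1 := (hN a1).2 (Or.inl rfl)
  have va2 : G.Adj v a2 := (hN a2).2 (Or.inr (Or.inl rfl))
  have hva1 : v ≠ a1 := va1.ne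
  have hQa1 : ∀ j, Q j ≠ a1 := fun j => (((hQ (Q j)).2 (Or.inr ⟨j, rfl⟩)).ne).symm
  set H1 := del G {v, a1} with hH1
  -- graph facts
  have hclsF : Cls (del G {v}) := cls_del G hG {v}
  have hltF : ie (del G {v}) Finset.univ < ie G Finset.univ := by
    have h1 := ie_univ_del G v
    have h2 := dg_ge G Finset.univ {a1} v (Finset.subset_univ _) (by
      intro x hx; rw [Finset.mem_singleton] at hx; rw [hx]; exact va1)
    rw [Finset.card_singleton] at h2
    omega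
  have hIndF : Ind (del G {v}) := IH _ hclsF hltF
  have hle : H1 ≤ del G {v} := by
    intro a b hab
    refine ⟨hab.1, ?_, ?_⟩
    · have := hab.2.1
      simp only [Finset.mem_insert, Finset.mem_singleton, not_or] at this ⊢
      exact this.1
    · have := hab.2.2
      simp only [Finset.mem_insert, Finset.mem_singleton, not_or] at this ⊢
      exact this.1
  have hclsH : Cls H1 := cls_del G hG _
  have hIndH : Ind H1 := IH _ hclsH (lt_of_le_of_lt (ie_mono_graph hle _) hltF)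
  obtain ⟨jB1, jB2, jB3⟩ := II_B G hG hn IH v a1 a2 b1 b2 b3 hnd hN j12 j3 j4 j5
  have hdd : del G {v, a1, a2} = del H1 {a2} := by
    ext x y
    show (G.Adj x y ∧ x ∉ ({v, a1, a2} : Finset V) ∧ y ∉ ({v, a1, a2} : Finset V)) ↔
      ((G.Adj x y ∧ x ∉ ({v, a1} : Finset V) ∧ y ∉ ({v, a1} : Finset V)) ∧
        x ∉ ({a2} : Finset V) ∧ y ∉ ({a2} : Finset V))
    simp only [Finset.mem_insert, Finset.mem_singleton, not_or]
    tauto
  rw [hdd] at jB1 jB2 jB3
  have JB1 := J_del H1 hclsH.1 {a2} _ _ jB1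
  have JB2 := J_del H1 hclsH.1 {a2} _ _ jB2
  have JB3 := J_del H1 hclsH.1 {a2} _ _ jB3
  have hGP : GP p := (hgood p hp).1
  -- normalisation
  have hnorm : ∀ m, IsMot H1 p m → ∃ m', m' ∈ WW H1 p b1 b2 b3 ∧ ∀ a b, dd p m' a b = dd p m a b := by
    intro m hm
    have e12 := J_implied H1 p (hgood p hp) hIndH b1 b2 JB1 m hm
    have e13 := J_implied H1 p (hgood p hp) hIndH b1 b3 JB2 m hm
    have e23 := J_implied H1 p (hgood p hp) hIndH b2 b3 JB3 m hm
    obtain ⟨t, m', _, h1, h2, h3, h4⟩ := normalize p m hGP b1 b2 b3 nb12 nb13 nb23 e12 e13 e23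
    refine ⟨m', ⟨fun a b hab => ?_, h1, h2, h3⟩, h4⟩
    rw [h4]
    exact hm a b hab
  have hlin : LinearIndependent ℝ ![p (Q 1) - p (Q 0), p (Q 2) - p (Q 0), p (Q 3) - p (Q 0)] := by
    apply hGP.2.2 (Q 0) (Q 1) (Q 2) (Q 3)
    · exact fun h => absurd (hQinj h) (by decide)
    · exact fun h => absurd (hQinj h) (by decide)
    · exact fun h => absurd (hQinj h) (by decide)
    · exact fun h => absurd (hQinj h) (by decide)
    · exact fun h => absurd (hQinj h) (by decide)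
    · exact fun h => absurd (hQinj h) (by decide)
  -- the perturbed placement
  have hBx' : ∀ y : Fin 3 → ℝ, (∀ k, |y k - p0 a1 k| < r) → Bx p0 r (Function.update p a1 y) := by
    intro y hy a i
    by_cases h : a = a1
    · rw [h, Function.update_self]; exact hy i
    · rw [Function.update_of_ne h]; exact hp a i
  have hmotH : ∀ (y : Fin 3 → ℝ) (m : V → Fin 3 → ℝ),
      IsMot H1 (Function.update p a1 y) m → IsMot H1 p m := by
    intro y m hm
    refine (mot_congr H1 _ p m m ?_).1 hm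
    intro a b hab
    have h1 := hab.2.1
    simp only [Finset.mem_insert, Finset.mem_singleton, not_or] at h1
    rw [Function.update_of_ne h1.2]
    exact ⟨rfl, rfl⟩
  have hddQ : ∀ (y : Fin 3 → ℝ) (m : V → Fin 3 → ℝ) (i j : Fin 4),
      dd (Function.update p a1 y) m (Q i) (Q j) = dd p m (Q i) (Q j) := by
    intro y m i j
    unfold dd
    rw [Function.update_of_ne (hQa1 i), Function.update_of_ne (hQa1 j)]
  have key := II_abs (WW H1 p b1 b2 b3) (fun i => p (Q i)) hlin (fun i j => ddL p (Q i) (Q j))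
    (fun i j => LinearMap.ext fun m => by
      rw [ddL_apply, ddL_apply, dd_symm])
    (fun i => LinearMap.ext fun m => by
      rw [ddL_apply, dd_self]
      rfl)
    (LinearMap.proj a2) (p a2) (p0 a1) r hr ?_ ?_ ?_
  rotate_left
  · -- ha
    intro ν hν hy
    set y : Fin 3 → ℝ := ∑ i, ν i • p (Q i) with hydef
    have hgood' := hgood _ (hBx' y hy)
    obtain ⟨m, hm, hsum⟩ := nonvan G v a1 Q hQinj hQv hva1 hQ (Function.update p a1 y)
      (hgood'.2 _ hIndF) ν hν (by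
        rw [Function.update_self, hydef]
        apply Finset.sum_congr rfl
        intro i _
        rw [Function.update_of_ne (hQa1 i)])
    obtain ⟨m', hm', hdd'⟩ := hnorm m (hmotH y m hm)
    refine ⟨m', hm', ?_⟩
    simp only [ddL_apply, hdd']
    simp only [hddQ] at hsum
    exact hsum
  · -- hb
    intro ν hν hy m hm hsum
    set y : Fin 3 → ℝ := ∑ i, ν i • p (Q i) with hydef
    have hgood' := hgood _ (hBx' y hy)
    obtain ⟨z, hz⟩ := (ext4 (fun i => p (Q i)) (fun i => m (Q i)) hlin ν hν).2 hsum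
    obtain ⟨κ, _, hrat, _⟩ := II_ratio G hG hn IH v a1 a2 b1 b2 b3 hnd hN j12 j3 j4 j5
      (Function.update p a1 y) hgood'
    have hmot : IsMot (del G {v}) (Function.update p a1 y) (Function.update m a1 z) := by
      intro a b hab
      obtain ⟨hab1, hav, hbv⟩ := hab
      rw [Finset.mem_singleton] at hav hbv
      have hcase : ∀ b, G.Adj a1 b → b ≠ v →
          dd (Function.update p a1 y) (Function.update m a1 z) a1 b = 0 := by
        intro b hb hbv
        rcases (hQ b).1 hb with h | ⟨l, hl⟩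
        · exact absurd h hbv
        · unfold dd
          rw [← hl, Function.update_self, Function.update_self, Function.update_of_ne (hQa1 l),
            Function.update_of_ne (hQa1 l)]
          exact hz l
      by_cases ha : a = a1
      · rw [ha] at hab1 ⊢
        exact hcase b hab1 hbv
      · by_cases hb : b = a1
        · rw [hb] at hab1 ⊢
          rw [dd_symm]
          exact hcase a hab1.symm hav
        · unfold dd
          rw [Function.update_of_ne ha, Function.update_of_ne hb, Function.update_of_ne ha,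
            Function.update_of_ne hb]
          apply hm.1 a b
          refine ⟨hab1, ?_, ?_⟩
          · simp only [Finset.mem_insert, Finset.mem_singleton, not_or]; exact ⟨hav, ha⟩
          · simp only [Finset.mem_insert, Finset.mem_singleton, not_or]; exact ⟨hbv, hb⟩
    have h1 := (hrat _ hmot (by rw [Function.update_of_ne (Ne.symm n1b1)]; exact hm.2.1)
      (by rw [Function.update_of_ne (Ne.symm n1b2)]; exact hm.2.2.1)
      (by rw [Function.update_of_ne (Ne.symm n1b3)]; exact hm.2.2.2)).2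
    rw [Function.update_self, Function.update_of_ne (Ne.symm n12),
      Function.update_of_ne (Ne.symm n12)] at h1
    exact h1
  · -- hc
    intro ν hν hy w hw
    set y : Fin 3 → ℝ := ∑ i, ν i • p (Q i) with hydef
    have hgood' := hgood _ (hBx' y hy)
    obtain ⟨κ, _, _, hex⟩ := II_ratio G hG hn IH v a1 a2 b1 b2 b3 hnd hN j12 j3 j4 j5
      (Function.update p a1 y) hgood'
    obtain ⟨m, hm, h1, h2, h3, h4⟩ := hex w (by
      rw [Function.update_self, Function.update_of_ne (Ne.symm n12)]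
      exact hw)
    refine ⟨m, ⟨hmotH y m (isMot_mono hle _ _ hm), h1, h2, h3⟩, ?_, h4⟩
    apply (ext4 (fun i => p (Q i)) (fun i => m (Q i)) hlin ν hν).1
    refine ⟨m a1, fun l => ?_⟩
    have h5 := hm a1 (Q l) ⟨(hQ (Q l)).2 (Or.inr ⟨l, rfl⟩), by
      rw [Finset.mem_singleton]; exact hva1.symm, by rw [Finset.mem_singleton]; exact hQv l⟩
    unfold dd at h5
    rw [Function.update_self, Function.update_of_ne (hQa1 l)] at h5
    exact h5
  obtain ⟨⟨t, ht1, ht2, ρ, hρ, ht3⟩, hsur⟩ := key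
  have hQt : Q t = a2 := by
    by_contra hne
    exact hGP.1 _ _ hne ht1
  refine ⟨t, hQt, ?_, ⟨ρ, hρ, ?_⟩, ?_⟩
  · intro i j hi hj m hm
    obtain ⟨m', hm', hdd'⟩ := hnorm m hm
    rw [← hdd']
    exact ht2 i j hi hj m' hm'
  · intro i hi m hm h1 h2 h3
    have h4 := ht3 i hi m ⟨hm, h1, h2, h3⟩
    rw [ddL_apply, hQt] at h4
    exact h4
  · intro w
    obtain ⟨m, hm, hmw⟩ := hsur w
    exact ⟨m, hm.1, hm.2.1, hm.2.2.1, hm.2.2.2, hmw⟩

theorem II_side {V : Type} [Fintype V] [DecidableEq V] (G : SimpleGraph V) (hG : Cls G) (hn : ¬ Ind G)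
    (IH : ∀ G' : SimpleGraph V, Cls G' → ie G' Finset.univ < ie G Finset.univ → Ind G') (v a1 a2 b1 b2 b3 : V)
    (hnd : [a1, a2, b1, b2, b3].Nodup)
    (hN : ∀ x, G.Adj v x ↔ (x = a1 ∨ x = a2 ∨ x = b1 ∨ x = b2 ∨ x = b3))
    (j12 : J (del G {v}) a1 a2) (j3 : J (del G {v}) b1 b2) (j4 : J (del G {v}) b1 b3) (j5 : J (del G {v}) b2 b3)
    (p0 : V → Fin 3 → ℝ) (r : ℝ) (hr : 0 < r) (hgood : ∀ p, Bx p0 r p → Good p)
    (Q : Fin 4 → V) (hQinj : Function.Injective Q) (hQv : ∀ j, Q j ≠ v)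
    (hQ : ∀ x, G.Adj a1 x ↔ (x = v ∨ ∃ j, Q j = x)) :
    ∃ t, Q t = a2 ∧ ∀ p, Bx p0 r p →
      (∀ i j, i ≠ t → j ≠ t → ∀ m, IsMot (del G {v, a1}) p m → dd p m (Q i) (Q j) = 0) ∧
      (∃ ρ : ℝ, ρ ≠ 0 ∧ ∀ i, i ≠ t → ∀ m, IsMot (del G {v, a1}) p m → m b1 = 0 → m b2 = 0 → m b3 = 0 →
        dd p m (Q i) a2 = ρ * ((p (Q i) - p a2) ⬝ᵥ m a2)) ∧
      (∀ w, ∃ m, IsMot (del G {v, a1}) p m ∧ m b1 = 0 ∧ m b2 = 0 ∧ m b3 = 0 ∧ m a2 = w) := by
  have hp0 : Bx p0 r p0 := by
    intro a i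
    rw [sub_self, abs_zero]
    exact hr
  obtain ⟨t, ht, _⟩ := side_fixed G hG hn IH v a1 a2 b1 b2 b3 hnd hN j12 j3 j4 j5 p0 r hr hgood Q
    hQinj hQv hQ p0 hp0
  refine ⟨t, ht, fun p hp => ?_⟩
  obtain ⟨t', ht', h1, h2, h3⟩ := side_fixed G hG hn IH v a1 a2 b1 b2 b3 hnd hN j12 j3 j4 j5 p0 r
    hr hgood Q hQinj hQv hQ p hp
  have htt : t' = t := hQinj (ht'.trans ht.symm)
  rw [htt] at h1 h2
  exact ⟨h1, h2, h3⟩

end Pool.Agent.Reg5.J2530
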