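import Pool.Agent.Helper927.R5Defs
import Pool.Agent.Helper927.R5x2258
import Pool.Agent.Helper927.R5x2260
import Pool.Agent.Helper927.R5x2263
import Pool.Agent.Helper927.R5x2273
import Pool.Agent.Helper927.R5x2276
import Pool.Agent.Helper927.R5x2281
import Pool.Agent.Helper927.R5x2518
import Pool.Agent.Helper927.R5x2528
import Pool.Agent.Helper927.R5x2529
import Pool.Agent.Helper927.R5x2530
set_option autoImplicit false
set_option maxHeartbeats 4000000

namespace Pool.Agent.Reg5.J2531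
open Pool.Agent.Reg5
open Pool.Agent.Reg5.J2529 (II_B)
open Pool.Agent.Reg5.J2281 (II_const)
open Pool.Agent.Reg5.J2528 (II_ratio)
open Pool.Agent.Reg5.J2530 (II_side)
open Pool.Agent.Reg5.J2273 (J_implied)
open Pool.Agent.Reg5.J2260 (cls_del)
open Pool.Agent.Reg5.J2258 (dg_ge)
open Pool.Agent.Reg5.J2518 (ext3)
open Pool.Agent.Reg5.J2258 (ie_mono_graph)
open Pool.Agent.Reg5.J2258 (ie_univ_del)
open Pool.Agent.Reg5.J2263 (isMot_mono)
open Pool.Agent.Reg5.J2518 (mot_congr)
open Pool.Agent.Reg5.J2276 (rf_dot)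
open Pool.Agent.Reg5.J2276 (rf_exists)
open Pool.Agent.Reg5.J2276 (rf_lin)



theorem aux_li_neg (a b c : Fin 3 → ℝ) (h : LinearIndependent ℝ ![a, b, c]) :
    LinearIndependent ℝ ![-a, -b, -c] := by
  have h2 := h.map' (LinearEquiv.neg ℝ : (Fin 3 → ℝ) ≃ₗ[ℝ] (Fin 3 → ℝ)).toLinearMap
    (LinearEquiv.ker _)
  have e : (⇑(LinearEquiv.neg ℝ : (Fin 3 → ℝ) ≃ₗ[ℝ] (Fin 3 → ℝ)).toLinearMap ∘ ![a, b, c])
      = ![-a, -b, -c] := by
    funext i
    fin_cases i <;> rfl
  rw [e] at h2
  exact h2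

theorem aux_dot_zero (a b c u : Fin 3 → ℝ) (h : LinearIndependent ℝ ![a, b, c])
    (ha : a ⬝ᵥ u = 0) (hb : b ⬝ᵥ u = 0) (hc : c ⬝ᵥ u = 0) : u = 0 := by
  have h1 : IsUnit (Matrix.of ![a, b, c]) := by
    rw [← Matrix.linearIndependent_rows_iff_isUnit]
    exact h
  have h2 : (Matrix.of ![a, b, c]).mulVec u = (Matrix.of ![a, b, c]).mulVec 0 := by
    funext i
    rw [Matrix.mulVec_zero]
    fin_cases i
    · exact ha
    · exact hb
    · exact hc
  exact Matrix.mulVec_injective_of_isUnit h1 h2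

theorem aux_perp (d : Fin 3 → ℝ) : ∃ u : Fin 3 → ℝ, u ≠ 0 ∧ d ⬝ᵥ u = 0 := by
  by_cases h0 : d 0 = 0
  · refine ⟨![1, 0, 0], ?_, ?_⟩
    · intro h
      have := congrFun h 0
      simp at this
    · simp [dotProduct, Fin.sum_univ_three, h0]
  · refine ⟨![d 1, - d 0, 0], ?_, ?_⟩
    · intro h
      have := congrFun h 1
      simp at this
      exact h0 this
    · simp [dotProduct, Fin.sum_univ_three]
      ring

theorem aux_dd_symm {V : Type} (p m : V → Fin 3 → ℝ) (a b : V) : dd p m a b = dd p m b a := by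
  unfold dd
  rw [← neg_sub (p b) (p a), ← neg_sub (m b) (m a), neg_dotProduct_neg]

theorem aux_dd_self {V : Type} (p m : V → Fin 3 → ℝ) (a : V) : dd p m a a = 0 := by
  unfold dd
  simp

theorem aux_del_anti {V : Type} [Fintype V] [DecidableEq V] (G : SimpleGraph V) (S T : Finset V) (h : S ⊆ T) :
    del G T ≤ del G S := by
  intro a b hab
  exact ⟨hab.1, fun ha => hab.2.1 (h ha), fun hb => hab.2.2 (h hb)⟩

theorem aux_J_symm {V : Type} [Fintype V] [DecidableEq V] (G : SimpleGraph V) (a b : V) (h : J G a b) : J G b a := by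
  rcases h with h | ⟨X, hX, ha, hb⟩
  · exact Or.inl h.symm
  · exact Or.inr ⟨X, hX, hb, ha⟩

/-- extending a motion over the vertex `a2` -/
theorem aux_upd {V : Type} [Fintype V] [DecidableEq V] (G : SimpleGraph V) (v a1 a2 : V) (K : Finset V)
    (N2 : ∀ x, G.Adj a2 x ↔ (x = v ∨ x = a1 ∨ x ∈ K)) (p m : V → Fin 3 → ℝ)
    (hm : IsMot (del G {v, a1, a2}) p m) (z : Fin 3 → ℝ) (hz : ∀ k ∈ K, (p a2 - p k) ⬝ᵥ (z - m k) = 0) :
    IsMot (del G {v, a1}) p (Function.update m a2 z) := by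
  have key : ∀ b, (del G {v, a1}).Adj a2 b → dd p (Function.update m a2 z) a2 b = 0 := by
    intro b hab
    have hb : b ∈ K := by
      rcases (N2 b).1 hab.1 with h | h | h
      · exact absurd (by simp [h]) hab.2.2
      · exact absurd (by simp [h]) hab.2.2
      · exact h
    have hne : b ≠ a2 := fun h => G.loopless.irrefl a2 (by have := hab.1; rwa [h] at this)
    unfold dd
    rw [Function.update_self, Function.update_of_ne hne]
    exact hz b hb
  intro a b hab
  by_cases ha : a = a2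
  · subst ha
    exact key b hab
  · by_cases hb : b = a2
    · subst hb
      rw [aux_dd_symm]
      exact key a hab.symm
    · have h1 : (del G {v, a1, a2}).Adj a b := by
        refine ⟨hab.1, ?_, ?_⟩
        · have := hab.2.1
          simp only [Finset.mem_insert, Finset.mem_singleton, not_or] at this ⊢
          exact ⟨this.1, this.2, ha⟩
        · have := hab.2.2
          simp only [Finset.mem_insert, Finset.mem_singleton, not_or] at this ⊢
          exact ⟨this.1, this.2, hb⟩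
      have h2 := hm a b h1
      unfold dd at h2 ⊢
      rw [Function.update_of_ne ha, Function.update_of_ne hb]
      exact h2

theorem aux_ext {V : Type} [Fintype V] [DecidableEq V] (G : SimpleGraph V) (v a1 a2 : V) (K : Finset V)
    (hK : K.card = 3) (h2 : a2 ∉ K)
    (N2 : ∀ x, G.Adj a2 x ↔ (x = v ∨ x = a1 ∨ x ∈ K)) (p m : V → Fin 3 → ℝ) (hp : GP p)
    (hm : IsMot (del G {v, a1, a2}) p m) :
    ∃ z, IsMot (del G {v, a1}) p (Function.update m a2 z) := by
  obtain ⟨k1, k2, k3, h12, h13, h23, rfl⟩ := Finset.card_eq_three.1 hK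
  simp only [Finset.mem_insert, Finset.mem_singleton, not_or] at h2
  have hli := aux_li_neg _ _ _ (hp.2.2 a2 k1 k2 k3 h2.1 h2.2.1 h2.2.2 h12 h13 h23)
  simp only [neg_sub] at hli
  obtain ⟨z, hz⟩ := ext3 ![p k1, p k2, p k3] ![p k1, p k2, p k3] ![m k1, m k2, m k3] (p a2) hli
  refine ⟨z, aux_upd G v a1 a2 _ N2 p m hm z ?_⟩
  intro k hk
  simp only [Finset.mem_insert, Finset.mem_singleton] at hk
  rcases hk with rfl | rfl | rfl
  · exact hz 0
  · exact hz 1
  · exact hz 2

/-- on a three-element set whose pairs are rigid, a motion agrees with a rigid motion -/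
theorem aux_rf {V : Type} [Fintype V] [DecidableEq V] (K : Finset V) (hK : K.card = 3) (p m : V → Fin 3 → ℝ) (hp : GP p)
    (h : ∀ x ∈ K, ∀ y ∈ K, dd p m x y = 0) : ∃ t, ∀ k ∈ K, m k = rf t (p k) := by
  obtain ⟨k1, k2, k3, h12, h13, h23, rfl⟩ := Finset.card_eq_three.1 hK
  obtain ⟨t, e1, e2, e3⟩ := rf_exists (p k1) (p k2) (p k3) (m k1) (m k2) (m k3)
    (hp.2.1 k1 k2 k3 h12 h13 h23) (h k1 (by simp) k2 (by simp)) (h k1 (by simp) k3 (by simp))
    (h k2 (by simp) k3 (by simp))
  refine ⟨t, ?_⟩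
  intro k hk
  simp only [Finset.mem_insert, Finset.mem_singleton] at hk
  rcases hk with rfl | rfl | rfl
  · exact e1.symm
  · exact e2.symm
  · exact e3.symm

/-- three neighbours in general position determine a vector -/
theorem aux_det {V : Type} [Fintype V] [DecidableEq V] (K : Finset V) (hK : K.card = 3) (p : V → Fin 3 → ℝ) (hp : GP p)
    (a : V) (ha : a ∉ K) (u : Fin 3 → ℝ) (h : ∀ k ∈ K, (p k - p a) ⬝ᵥ u = 0) : u = 0 := by
  obtain ⟨k1, k2, k3, h12, h13, h23, rfl⟩ := Finset.card_eq_three.1 hK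
  simp only [Finset.mem_insert, Finset.mem_singleton, not_or] at ha
  exact aux_dot_zero _ _ _ u (hp.2.2 a k1 k2 k3 ha.1 ha.2.1 ha.2.2 h12 h13 h23)
    (h k1 (by simp)) (h k2 (by simp)) (h k3 (by simp))

theorem aux_rfpt {V : Type} [Fintype V] [DecidableEq V] (K : Finset V) (hK : K.card = 3) (p m : V → Fin 3 → ℝ) (hp : GP p)
    (a : V) (ha : a ∉ K) (t : (Fin 3 → ℝ) × (Fin 3 → ℝ)) (ht : ∀ k ∈ K, m k = rf t (p k))
    (h : ∀ k ∈ K, (p a - p k) ⬝ᵥ (m a - m k) = 0) : m a = rf t (p a) := by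
  have h1 : m a - rf t (p a) = 0 := by
    apply aux_det K hK p hp a ha
    intro k hk
    have e1 := h k hk
    have e2 := rf_dot t (p a) (p k)
    rw [ht k hk] at e1
    have e3 : (p k - p a) ⬝ᵥ (m a - rf t (p a)) =
        (p a - p k) ⬝ᵥ (rf t (p a) - rf t (p k)) - (p a - p k) ⬝ᵥ (m a - rf t (p k)) := by
      rw [← dotProduct_sub, ← neg_sub (p a) (p k), neg_dotProduct, ← dotProduct_neg]
      congr 1
      abel
    rw [e3, e1, e2, sub_zero]
  exact sub_eq_zero.1 h1

theorem aux_side {V : Type} [Fintype V] [DecidableEq V] (G : SimpleGraph V) (hG : Cls G) (hn : ¬ Ind G)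
    (hd : ∀ a, dg G Finset.univ a = 0 ∨ dg G Finset.univ a = 5)
    (IH : ∀ G' : SimpleGraph V, Cls G' → ie G' Finset.univ < ie G Finset.univ → Ind G') (v a1 a2 b1 b2 b3 : V)
    (hnd : [a1, a2, b1, b2, b3].Nodup)
    (hN : ∀ x, G.Adj v x ↔ (x = a1 ∨ x = a2 ∨ x = b1 ∨ x = b2 ∨ x = b3))
    (j12 : J (del G {v}) a1 a2) (j3 : J (del G {v}) b1 b2) (j4 : J (del G {v}) b1 b3) (j5 : J (del G {v}) b2 b3)
    (p0 : V → Fin 3 → ℝ) (r : ℝ) (hr : 0 < r) (hgood : ∀ p, Bx p0 r p → Good p) :
    ∃ K : Finset V, K.card = 3 ∧ v ∉ K ∧ a1 ∉ K ∧ a2 ∉ K ∧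
      (∀ x, G.Adj a1 x ↔ (x = v ∨ x = a2 ∨ x ∈ K)) ∧
      ∀ p, Bx p0 r p →
        (∀ x ∈ K, ∀ y ∈ K, ∀ m, IsMot (del G {v, a1}) p m → dd p m x y = 0) ∧
        (∃ ρ : ℝ, ρ ≠ 0 ∧ ∀ k ∈ K, ∀ m, IsMot (del G {v, a1}) p m → m b1 = 0 → m b2 = 0 → m b3 = 0 →
          dd p m k a2 = ρ * ((p k - p a2) ⬝ᵥ m a2)) ∧
        (∀ w, ∃ m, IsMot (del G {v, a1}) p m ∧ m b1 = 0 ∧ m b2 = 0 ∧ m b3 = 0 ∧ m a2 = w) := by
  classical
  have hva : G.Adj a1 v := ((hN a1).2 (Or.inl rfl)).symm
  have h5 : dg G Finset.univ a1 = 5 := by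
    rcases hd a1 with h | h
    · exfalso
      have := dg_ge G Finset.univ {v} a1 (Finset.subset_univ _) (by intro x hx; rw [Finset.mem_singleton] at hx; rw [hx]; exact hva)
      rw [h] at this
      simp at this
    · exact h
  set N : Finset V := Finset.univ.filter (fun x => G.Adj a1 x) with hNdef
  have hNc : N.card = 5 := by
    rw [← h5]
    unfold dg
    rw [hNdef]
  have hNm : ∀ x, x ∈ N ↔ G.Adj a1 x := by intro x; simp [hNdef]
  have hE : (N.erase v).card = 4 := by
    rw [Finset.card_erase_of_mem ((hNm v).2 hva), hNc]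
  let e := (N.erase v).equivFinOfCardEq hE
  let Q : Fin 4 → V := fun j => (e.symm j : V)
  have hQinj : Function.Injective Q := fun i j hij => e.symm.injective (Subtype.ext hij)
  have hQm : ∀ j, Q j ∈ N.erase v := fun j => (e.symm j).2
  have hQs : ∀ x ∈ N.erase v, ∃ j, Q j = x := fun x hx => ⟨e ⟨x, hx⟩, by simp [Q]⟩
  have hQv : ∀ j, Q j ≠ v := fun j => (Finset.mem_erase.1 (hQm j)).1
  have hQ : ∀ x, G.Adj a1 x ↔ (x = v ∨ ∃ j, Q j = x) := by
    intro x
    constructor
    · intro h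
      by_cases hx : x = v
      · exact Or.inl hx
      · exact Or.inr (hQs x (Finset.mem_erase.2 ⟨hx, (hNm x).2 h⟩))
    · rintro (rfl | ⟨j, rfl⟩)
      · exact hva
      · exact (hNm _).1 (Finset.mem_erase.1 (hQm j)).2
  obtain ⟨t, ht, hside⟩ := II_side G hG hn IH v a1 a2 b1 b2 b3 hnd hN j12 j3 j4 j5 p0 r hr hgood Q hQinj hQv hQ
  have ha2 : a2 ∈ N.erase v := by rw [← ht]; exact hQm t
  refine ⟨(N.erase v).erase a2, ?_, ?_, ?_, ?_, ?_, ?_⟩
  · rw [Finset.card_erase_of_mem ha2, hE]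
  · simp
  · intro h
    have h2 := (hNm a1).1 (Finset.mem_of_mem_erase (Finset.mem_of_mem_erase h))
    exact G.loopless.irrefl a1 h2
  · simp
  · intro x
    rw [Finset.mem_erase, Finset.mem_erase, hNm]
    constructor
    · intro h
      by_cases hx : x = v
      · exact Or.inl hx
      · by_cases hx2 : x = a2
        · exact Or.inr (Or.inl hx2)
        · exact Or.inr (Or.inr ⟨hx2, hx, h⟩)
    · rintro (rfl | rfl | h)
      · exact hva
      · exact (hNm _).1 (Finset.mem_of_mem_erase ha2)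
      · exact h.2.2
  · intro p hp
    obtain ⟨s1, ⟨ρ, hρ, s2⟩, s3⟩ := hside p hp
    have hK : ∀ k ∈ (N.erase v).erase a2, ∃ i, i ≠ t ∧ Q i = k := by
      intro k hk
      obtain ⟨j, hj⟩ := hQs k (Finset.mem_of_mem_erase hk)
      refine ⟨j, ?_, hj⟩
      rintro rfl
      exact (Finset.mem_erase.1 hk).1 (hj.symm.trans ht)
    refine ⟨?_, ⟨ρ, hρ, ?_⟩, s3⟩
    · intro x hx y hy m hm
      obtain ⟨i, hi, rfl⟩ := hK x hx
      obtain ⟨j, hj, rfl⟩ := hK y hy
      exact s1 i j hi hj m hm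
    · intro k hk m hm e1 e2 e3
      obtain ⟨i, hi, rfl⟩ := hK k hk
      exact s2 i hi m hm e1 e2 e3

/-- the ratio identity at one placement -/
theorem aux_ratio {V : Type} [Fintype V] [DecidableEq V] (G : SimpleGraph V) (v a1 a2 b1 b2 b3 : V)
    (h2b : a2 ≠ b1 ∧ a2 ≠ b2 ∧ a2 ≠ b3)
    (K1 K2 : Finset V) (c1 : K1.card = 3) (h21 : a2 ∉ K1)
    (N2 : ∀ x, G.Adj a2 x ↔ (x = v ∨ x = a1 ∨ x ∈ K2)) (p : V → Fin 3 → ℝ) (hp : GP p) (ρ : ℝ)
    (hρ : ∀ k ∈ K1, ∀ m, IsMot (del G {v, a1}) p m → m b1 = 0 → m b2 = 0 → m b3 = 0 →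
          dd p m k a2 = ρ * ((p k - p a2) ⬝ᵥ m a2))
    (m : V → Fin 3 → ℝ) (t1 t2 : (Fin 3 → ℝ) × (Fin 3 → ℝ))
    (hR : Rel (del G {v, a1, a2}) p {b1, b2, b3} K1 K2 m t1 t2) :
    rf t1 (p a2) = (1 + ρ) • rf t2 (p a2) := by
  obtain ⟨hm, hB, hK1, hK2⟩ := hR
  have h1 : IsMot (del G {v, a1}) p (Function.update m a2 (rf t2 (p a2))) := by
    apply aux_upd G v a1 a2 K2 N2 p m hm
    intro k hk
    rw [hK2 k hk]
    exact rf_dot t2 _ _
  have hz : rf t1 (p a2) - (1 + ρ) • rf t2 (p a2) = 0 := by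
    apply aux_det K1 c1 p hp a2 h21
    intro k hk
    have hne : k ≠ a2 := fun h => h21 (h ▸ hk)
    have e1 := hρ k hk _ h1 (by rw [Function.update_of_ne h2b.1.symm]; exact hB b1 (by simp))
      (by rw [Function.update_of_ne h2b.2.1.symm]; exact hB b2 (by simp))
      (by rw [Function.update_of_ne h2b.2.2.symm]; exact hB b3 (by simp))
    unfold dd at e1
    rw [Function.update_self, Function.update_of_ne hne, hK1 k hk] at e1
    have e2 := rf_dot t1 (p k) (p a2)
    simp only [dotProduct_sub, dotProduct_smul, smul_eq_mul] at e1 e2 ⊢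
    linarith
  exact sub_eq_zero.1 hz

theorem II_two {V : Type} [Fintype V] [DecidableEq V] (G : SimpleGraph V) (hG : Cls G) (hn : ¬ Ind G)
    (hd : ∀ a, dg G Finset.univ a = 0 ∨ dg G Finset.univ a = 5)
    (IH : ∀ G' : SimpleGraph V, Cls G' → ie G' Finset.univ < ie G Finset.univ → Ind G') (v a1 a2 b1 b2 b3 : V)
    (hnd : [a1, a2, b1, b2, b3].Nodup)
    (hN : ∀ x, G.Adj v x ↔ (x = a1 ∨ x = a2 ∨ x = b1 ∨ x = b2 ∨ x = b3))
    (j12 : J (del G {v}) a1 a2) (j3 : J (del G {v}) b1 b2) (j4 : J (del G {v}) b1 b3) (j5 : J (del G {v}) b2 b3)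
    (p0 : V → Fin 3 → ℝ) (r : ℝ) (hr : 0 < r) (hgood : ∀ p, Bx p0 r p → Good p) :
    ∃ K1 K2 : Finset V, C2 G v a1 a2 {b1, b2, b3} K1 K2 p0 r := by
  classical
  have hnd' := hnd
  simp only [List.nodup_cons, List.mem_cons, List.not_mem_nil, or_false, not_or, not_false_eq_true,
    List.nodup_nil, and_true] at hnd'
  obtain ⟨⟨h12, h1b1, h1b2, h1b3⟩, ⟨h2b1, h2b2, h2b3⟩, ⟨hb12, hb13⟩, hb23⟩ := hnd'
  have hS : ({v, a2, a1} : Finset V) = {v, a1, a2} := by
    rw [Finset.pair_comm]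
  obtain ⟨K1, c1, hv1, h11, h21, N1, S1⟩ := aux_side G hG hn hd IH v a1 a2 b1 b2 b3 hnd hN j12 j3 j4 j5 p0 r hr hgood
  obtain ⟨K2, c2, hv2, h22, h12', N2, S2⟩ := aux_side G hG hn hd IH v a2 a1 b1 b2 b3
    (by
      simp only [List.nodup_cons, List.mem_cons, List.not_mem_nil, or_false, not_or, not_false_eq_true,
        List.nodup_nil, and_true]
      exact ⟨⟨fun h => h12 h.symm, h2b1, h2b2, h2b3⟩, ⟨h1b1, h1b2, h1b3⟩, ⟨hb12, hb13⟩, hb23⟩)
    (by intro x; rw [hN x]; tauto) (aux_J_symm _ _ _ j12) j3 j4 j5 p0 r hr hgood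
  have hva1 : G.Adj v a1 := (hN a1).2 (Or.inl rfl)
  have hva2 : G.Adj v a2 := (hN a2).2 (Or.inr (Or.inl rfl))
  have hvb1 : G.Adj v b1 := (hN b1).2 (by tauto)
  have hvb2 : G.Adj v b2 := (hN b2).2 (by tauto)
  have hvb3 : G.Adj v b3 := (hN b3).2 (by tauto)
  have hI : Ind (del G {v, a1, a2}) := by
    apply IH _ (cls_del G hG _)
    have e1 := ie_univ_del G v
    have e2 : ie (del G {v, a1, a2}) Finset.univ ≤ ie (del G {v}) Finset.univ :=
      ie_mono_graph (aux_del_anti G _ _ (by intro x hx; rw [Finset.mem_singleton] at hx; simp [hx])) _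
    have e3 : ({a1} : Finset V).card ≤ dg G Finset.univ v := dg_ge G Finset.univ {a1} v (Finset.subset_univ _)
      (by intro x hx; rw [Finset.mem_singleton] at hx; rw [hx]; exact hva1)
    rw [Finset.card_singleton] at e3
    omega
  have hr1 : ∀ p, Bx p0 r p → ∀ m, IsMot (del G {v, a1, a2}) p m → ∀ x ∈ K1, ∀ y ∈ K1, dd p m x y = 0 := by
    intro p hp m hm x hx y hy
    obtain ⟨z, hz⟩ := aux_ext G v a1 a2 K2 c2 h22 N2 p m (hgood p hp).1 hm
    have := (S1 p hp).1 x hx y hy _ hz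
    unfold dd at this ⊢
    have nx : x ≠ a2 := by rintro rfl; exact h21 hx
    have ny : y ≠ a2 := by rintro rfl; exact h21 hy
    rwa [Function.update_of_ne nx, Function.update_of_ne ny] at this
  have hr2 : ∀ p, Bx p0 r p → ∀ m, IsMot (del G {v, a1, a2}) p m → ∀ x ∈ K2, ∀ y ∈ K2, dd p m x y = 0 := by
    intro p hp m hm x hx y hy
    rw [← hS] at hm
    obtain ⟨z, hz⟩ := aux_ext G v a2 a1 K1 c1 h11 N1 p m (hgood p hp).1 hm
    have := (S2 p hp).1 x hx y hy _ hz
    unfold dd at this ⊢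
    have nx : x ≠ a1 := by rintro rfl; exact h12' hx
    have ny : y ≠ a1 := by rintro rfl; exact h12' hy
    rwa [Function.update_of_ne nx, Function.update_of_ne ny] at this
  have hsur : ∀ p, Bx p0 r p → ∀ u, ∃ m t1 t2, Rel (del G {v, a1, a2}) p {b1, b2, b3} K1 K2 m t1 t2 ∧ rf t2 (p a2) = u := by
    intro p hp u
    obtain ⟨m, hm, e1, e2, e3, e4⟩ := (S1 p hp).2.2 u
    have hm' : IsMot (del G {v, a1, a2}) p m := isMot_mono (aux_del_anti G _ _ (by
      intro x hx
      simp only [Finset.mem_insert, Finset.mem_singleton] at hx ⊢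
      tauto)) p m hm
    have hgp := (hgood p hp).1
    obtain ⟨t1, ht1⟩ := aux_rf K1 c1 p m hgp (hr1 p hp m hm')
    obtain ⟨t2, ht2⟩ := aux_rf K2 c2 p m hgp (hr2 p hp m hm')
    refine ⟨m, t1, t2, ⟨hm', ?_, ht1, ht2⟩, ?_⟩
    · intro b hb
      simp only [Finset.mem_insert, Finset.mem_singleton] at hb
      rcases hb with rfl | rfl | rfl
      · exact e1
      · exact e2
      · exact e3
    · rw [← e4]
      refine (aux_rfpt K2 c2 p m hgp a2 h22 t2 ht2 ?_).symm
      intro k hk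
      apply hm a2 k
      refine ⟨(N2 k).2 (Or.inr (Or.inr hk)), ?_, ?_⟩
      · simp only [Finset.mem_insert, Finset.mem_singleton, not_or]
        exact ⟨hva2.ne.symm, fun h => h12 h.symm⟩
      · simp only [Finset.mem_insert, Finset.mem_singleton, not_or]
        exact ⟨fun h => hv2 (h ▸ hk), fun h => h12' (h ▸ hk)⟩
  refine ⟨K1, K2, ⟨hG, IH, hr, hgood, ⟨?_, hv1, hv2⟩, ⟨?_, h11, h12'⟩, ⟨?_, h21, h22⟩,
    ⟨hva1.ne, hva2.ne, h12⟩, ?_, c1, c2, ?_, N1, N2, ?_, hr1, hr2, ?_, hsur⟩⟩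
  · simp only [Finset.mem_insert, Finset.mem_singleton, not_or]
    exact ⟨hvb1.ne, hvb2.ne, hvb3.ne⟩
  · simp only [Finset.mem_insert, Finset.mem_singleton, not_or]
    exact ⟨h1b1, h1b2, h1b3⟩
  · simp only [Finset.mem_insert, Finset.mem_singleton, not_or]
    exact ⟨h2b1, h2b2, h2b3⟩
  · exact Finset.card_eq_three.2 ⟨b1, b2, b3, hb12, hb13, hb23, rfl⟩
  · intro x
    rw [hN x]
    simp only [Finset.mem_insert, Finset.mem_singleton]
  · intro p hp m hm
    obtain ⟨J12, J13, J23⟩ := II_B G hG hn IH v a1 a2 b1 b2 b3 hnd hN j12 j3 j4 j5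
    have d12 := J_implied _ p (hgood p hp) hI b1 b2 J12 m hm
    have d13 := J_implied _ p (hgood p hp) hI b1 b3 J13 m hm
    have d23 := J_implied _ p (hgood p hp) hI b2 b3 J23 m hm
    have d21 := d12; rw [aux_dd_symm] at d21
    have d31 := d13; rw [aux_dd_symm] at d31
    have d32 := d23; rw [aux_dd_symm] at d32
    intro x hx y hy
    simp only [Finset.mem_insert, Finset.mem_singleton] at hx hy
    rcases hx with rfl | rfl | rfl <;> rcases hy with rfl | rfl | rfl
    all_goals first | exact aux_dd_self p m _ | assumption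
  · intro p hp
    -- the submodule of pairs
    let S : Submodule ℝ (((Fin 3 → ℝ) × (Fin 3 → ℝ)) × ((Fin 3 → ℝ) × (Fin 3 → ℝ))) :=
      { carrier := {s | ∃ m, Rel (del G {v, a1, a2}) p {b1, b2, b3} K1 K2 m s.1 s.2}
        zero_mem' := by
          refine ⟨0, ?_, ?_, ?_, ?_⟩
          · intro a b _
            unfold dd
            simp
          · intro b _; rfl
          · intro k _
            simp [rf]
          · intro k _
            simp [rf]
        add_mem' := by
          rintro s s' ⟨m, q1, q2, q3, q4⟩ ⟨m', q1', q2', q3', q4'⟩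
          refine ⟨m + m', ?_, ?_, ?_, ?_⟩
          · intro a b hab
            have w1 := q1 a b hab
            have w2 := q1' a b hab
            unfold dd at w1 w2 ⊢
            have : (m + m') a - (m + m') b = (m a - m b) + (m' a - m' b) := by
              simp only [Pi.add_apply]; abel
            rw [this, dotProduct_add, w1, w2, add_zero]
          · intro b hb
            rw [Pi.add_apply, q2 b hb, q2' b hb, add_zero]
          · intro k hk
            rw [Pi.add_apply, q3 k hk, q3' k hk]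
            have := rf_lin 1 1 s.1 s'.1 (p k)
            simp only [one_smul] at this
            exact this.symm
          · intro k hk
            rw [Pi.add_apply, q4 k hk, q4' k hk]
            have := rf_lin 1 1 s.2 s'.2 (p k)
            simp only [one_smul] at this
            exact this.symm
        smul_mem' := by
          rintro c s ⟨m, q1, q2, q3, q4⟩
          refine ⟨c • m, ?_, ?_, ?_, ?_⟩
          · intro a b hab
            have w1 := q1 a b hab
            unfold dd at w1 ⊢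
            have : (c • m) a - (c • m) b = c • (m a - m b) := by
              simp only [Pi.smul_apply, smul_sub]
            rw [this, dotProduct_smul, w1, smul_zero]
          · intro b hb
            rw [Pi.smul_apply, q2 b hb, smul_zero]
          · intro k hk
            rw [Pi.smul_apply, q3 k hk]
            have := rf_lin c 0 s.1 0 (p k)
            simp only [zero_smul, add_zero] at this
            exact this.symm
          · intro k hk
            rw [Pi.smul_apply, q4 k hk]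
            have := rf_lin c 0 s.2 0 (p k)
            simp only [zero_smul, add_zero] at this
            exact this.symm }
    have hbox : ∀ x : Fin 3 → ℝ, (∀ i, |x i - p0 a2 i| < r) → Bx p0 r (Function.update p a2 x) := by
      intro x hx a i
      by_cases ha : a = a2
      · subst ha
        rw [Function.update_self]
        exact hx i
      · rw [Function.update_of_ne ha]
        exact hp a i
    have hRel : ∀ x : Fin 3 → ℝ, ∀ m t1 t2, Rel (del G {v, a1, a2}) p {b1, b2, b3} K1 K2 m t1 t2 ↔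
        Rel (del G {v, a1, a2}) (Function.update p a2 x) {b1, b2, b3} K1 K2 m t1 t2 := by
      intro x m t1 t2
      have q1 : IsMot (del G {v, a1, a2}) p m ↔ IsMot (del G {v, a1, a2}) (Function.update p a2 x) m := by
        apply mot_congr
        intro a b hab
        refine ⟨?_, rfl⟩
        rw [Function.update_of_ne]
        rintro rfl
        exact hab.2.1 (by simp)
      have q2 : ∀ k, k ∈ K1 → Function.update p a2 x k = p k := fun k hk =>
        Function.update_of_ne (by rintro rfl; exact h21 hk) _ _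
      have q3 : ∀ k, k ∈ K2 → Function.update p a2 x k = p k := fun k hk =>
        Function.update_of_ne (by rintro rfl; exact h22 hk) _ _
      unfold Rel
      rw [q1]
      refine and_congr_right (fun _ => and_congr_right (fun _ => and_congr ?_ ?_))
      · refine forall₂_congr (fun k hk => ?_)
        rw [q2 k hk]
      · refine forall₂_congr (fun k hk => ?_)
        rw [q3 k hk]
    have hratio : ∀ q, Bx p0 r q → ∃ ρ : ℝ, ρ ≠ 0 ∧ ∀ m t1 t2,
        Rel (del G {v, a1, a2}) q {b1, b2, b3} K1 K2 m t1 t2 → rf t1 (q a2) = (1 + ρ) • rf t2 (q a2) := by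
      intro q hq
      obtain ⟨ρ, hρ0, hρ⟩ := (S1 q hq).2.1
      exact ⟨ρ, hρ0, fun m t1 t2 hR => aux_ratio G v a1 a2 b1 b2 b3 ⟨h2b1, h2b2, h2b3⟩ K1 K2 c1 h21 N2 q
        (hgood q hq).1 ρ hρ m t1 t2 hR⟩
    obtain ⟨c, hc⟩ := II_const S (p0 a2) r hr
      (by
        intro x hx
        obtain ⟨ρ, _, hρ⟩ := hratio _ (hbox x hx)
        refine ⟨1 + ρ, ?_⟩
        rintro s ⟨m, hm⟩
        have := hρ m s.1 s.2 ((hRel x m s.1 s.2).1 hm)
        rwa [Function.update_self] at this)
      (by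
        intro x hx w
        obtain ⟨m, t1, t2, hR, hw⟩ := hsur _ (hbox x hx) w
        rw [Function.update_self] at hw
        exact ⟨(t1, t2), ⟨m, (hRel x m t1 t2).2 hR⟩, hw⟩)
    have hc' : ∀ m t1 t2, Rel (del G {v, a1, a2}) p {b1, b2, b3} K1 K2 m t1 t2 → t1 = c • t2 :=
      fun m t1 t2 hR => hc (t1, t2) ⟨m, hR⟩
    refine ⟨c, ?_, ?_, hc'⟩
    · -- `c ≠ 0`
      intro hc0
      obtain ⟨κ, hκ, r1, r2⟩ := II_ratio G hG hn IH v a1 a2 b1 b2 b3 hnd hN j12 j3 j4 j5 p (hgood p hp)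
      obtain ⟨u, hu0, hu⟩ := aux_perp (p a1 - p a2)
      obtain ⟨m, hm, e1, e2, e3, e4⟩ := r2 u hu
      have e5 := (r1 m hm e1 e2 e3).1
      have hm' : IsMot (del G {v, a1, a2}) p m := isMot_mono (aux_del_anti G _ _ (by
        intro x hx
        simp only [Finset.mem_insert, Finset.mem_singleton] at hx ⊢
        tauto)) p m hm
      have hgp := (hgood p hp).1
      obtain ⟨t1, ht1⟩ := aux_rf K1 c1 p m hgp (hr1 p hp m hm')
      obtain ⟨t2, ht2⟩ := aux_rf K2 c2 p m hgp (hr2 p hp m hm')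
      have hR : Rel (del G {v, a1, a2}) p {b1, b2, b3} K1 K2 m t1 t2 := by
        refine ⟨hm', ?_, ht1, ht2⟩
        intro b hb
        simp only [Finset.mem_insert, Finset.mem_singleton] at hb
        rcases hb with rfl | rfl | rfl
        · exact e1
        · exact e2
        · exact e3
      have ht0 : t1 = 0 := by rw [hc' m t1 t2 hR, hc0, zero_smul]
      have hma : m a1 = 0 := by
        apply aux_det K1 c1 p hgp a1 h11
        intro k hk
        have w1 : dd p m k a1 = 0 := by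
          apply hm k a1
          refine ⟨((N1 k).2 (Or.inr (Or.inr hk))).symm, ?_, ?_⟩
          · rw [Finset.mem_singleton]
            exact fun h => hv1 (h ▸ hk)
          · rw [Finset.mem_singleton]
            exact hva1.ne.symm
        have w2 : m k = 0 := by
          rw [ht1 k hk, ht0]
          simp [rf]
        unfold dd at w1
        rw [w2, zero_sub, dotProduct_neg, neg_eq_zero] at w1
        exact w1
      rw [hma, e4] at e5
      rcases smul_eq_zero.1 e5.symm with h | h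
      · exact hκ h
      · exact hu0 h
    · -- `c ≠ 1`
      intro hc1
      obtain ⟨ρ, hρ0, hρ⟩ := hratio p hp
      obtain ⟨m, t1, t2, hR, hw⟩ := hsur p hp ![1, 0, 0]
      have e1 := hρ m t1 t2 hR
      rw [hc' m t1 t2 hR, hc1, one_smul, hw] at e1
      have e2 := congrFun e1 0
      simp at e2
      exact hρ0 e2

end Pool.Agent.Reg5.J2531
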