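import Pool.Agent.Helper927.R5Defs
import Pool.Agent.Helper927.R5x2258
import Pool.Agent.Helper927.R5x2260
import Pool.Agent.Helper927.R5x2273
import Pool.Agent.Helper927.R5x2276
set_option autoImplicit false
set_option maxHeartbeats 4000000

namespace Pool.Agent.Reg5.J2533
open Pool.Agent.Reg5
open Pool.Agent.Reg5.J2260 (cls_del)
open Pool.Agent.Reg5.J2258 (dg_del)
open Pool.Agent.Reg5.J2258 (dg_ge)
open Pool.Agent.Reg5.J2258 (dg_insert)
open Pool.Agent.Reg5.J2258 (dg_mono)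
open Pool.Agent.Reg5.J2258 (ie_mono_graph)
open Pool.Agent.Reg5.J2258 (ie_univ_del)
open Pool.Agent.Reg5.J2273 (implied_J)
open Pool.Agent.Reg5.J2276 (rf_dot)
open Pool.Agent.Reg5.J2276 (rf_lin)


theorem C2_ne {V : Type} [Fintype V] [DecidableEq V] (G : SimpleGraph V) (v a1 a2 : V) (B K1 K2 : Finset V)
    (p0 : V → Fin 3 → ℝ) (r : ℝ) (h : C2 G v a1 a2 B K1 K2 p0 r) (p : V → Fin 3 → ℝ) (hp : Bx p0 r p)
    (z : Fin 3 → ℝ) : ∃ m t1 t2, Rel (del G {v, a1, a2}) p B K1 K2 m t1 t2 ∧ rf t2 z ≠ 0 := by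
  by_cases hz : z = p a2
  · obtain ⟨m, t1, t2, hR, hu⟩ := h.sur p hp ![1, 0, 0]
    refine ⟨m, t1, t2, hR, ?_⟩
    rw [hz, hu]
    intro h0
    have := congrFun h0 0
    simp at this
  · obtain ⟨m, t1, t2, hR, hu⟩ := h.sur p hp (z - p a2)
    refine ⟨m, t1, t2, hR, ?_⟩
    intro h0
    have h1 := rf_dot t2 z (p a2)
    rw [h0, hu, zero_sub, dotProduct_neg, neg_eq_zero, dotProduct_self_eq_zero] at h1
    exact hz (sub_eq_zero.1 h1)

theorem rf_smul_E7 (c : ℝ) (t : (Fin 3 → ℝ) × (Fin 3 → ℝ)) (x : Fin 3 → ℝ) :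
    rf (c • t) x = c • rf t x := by
  have h := rf_lin c 0 t t x
  simpa using h

theorem C2_J {V : Type} [Fintype V] [DecidableEq V] (G : SimpleGraph V) (v a1 a2 : V) (B K1 K2 : Finset V)
    (p0 : V → Fin 3 → ℝ) (r : ℝ) (h : C2 G v a1 a2 B K1 K2 p0 r) :
    Ind (del G {v, a1, a2}) ∧ Sparse (del G {v, a1, a2}) ∧ Disjoint B K1 ∧ Disjoint B K2 ∧ Disjoint K1 K2 ∧
    (∀ x, (x ∈ B ∨ x ∈ K1 ∨ x ∈ K2) → dg (del G {v, a1, a2}) Finset.univ x ≤ 4) ∧
    (∀ x ∈ B, ∀ y ∈ B, x ≠ y → J (del G {v, a1, a2}) x y) ∧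
    (∀ x ∈ K1, ∀ y ∈ K1, x ≠ y → J (del G {v, a1, a2}) x y) ∧
    (∀ x ∈ K2, ∀ y ∈ K2, x ≠ y → J (del G {v, a1, a2}) x y) := by
  have hCls : Cls (del G {v, a1, a2}) := cls_del G h.cls _
  have hp0 : Bx p0 r p0 := by
    intro a i
    simpa using h.hr
  have hgood := h.good p0 hp0
  have hlt : ie (del G {v, a1, a2}) Finset.univ + 1 < ie G Finset.univ := by
    have h1 := ie_univ_del G v
    have hle : del G {v, a1, a2} ≤ del G {v} := by
      intro x y hxy
      refine ⟨hxy.1, ?_, ?_⟩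
      · intro hx
        exact hxy.2.1 (by
          rw [Finset.mem_singleton] at hx
          simp [hx])
      · intro hy
        exact hxy.2.2 (by
          rw [Finset.mem_singleton] at hy
          simp [hy])
    have h2 := ie_mono_graph hle Finset.univ
    have h3 := dg_ge G Finset.univ ({a1, a2} : Finset V) v (Finset.subset_univ _) (by
      intro x hx
      rw [Finset.mem_insert, Finset.mem_singleton] at hx
      rw [h.Nv]
      rcases hx with hx | hx
      · exact Or.inl hx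
      · exact Or.inr (Or.inl hx))
    rw [Finset.card_pair h.hva.2.2] at h3
    omega
  have hInd : Ind (del G {v, a1, a2}) := h.IH _ hCls (by omega)
  have hdeg : ∀ x, (x ∈ B ∨ x ∈ K1 ∨ x ∈ K2) → dg (del G {v, a1, a2}) Finset.univ x ≤ 4 := by
    intro x hx
    have hxS : x ∉ ({v, a1, a2} : Finset V) := by
      intro hxs
      simp only [Finset.mem_insert, Finset.mem_singleton] at hxs
      have hv := h.hv
      have h1 := h.ha1
      have h2 := h.ha2
      rcases hxs with rfl | rfl | rfl <;> tauto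
    have hy : ∃ y, y ∈ ({v, a1, a2} : Finset V) ∧ G.Adj x y := by
      rcases hx with hx | hx | hx
      · exact ⟨v, by simp, ((h.Nv x).2 (Or.inr (Or.inr hx))).symm⟩
      · exact ⟨a1, by simp, ((h.N1 x).2 (Or.inr (Or.inr hx))).symm⟩
      · exact ⟨a2, by simp, ((h.N2 x).2 (Or.inr (Or.inr hx))).symm⟩
    obtain ⟨y, hyS, hadj⟩ := hy
    have h1 := dg_del G {v, a1, a2} Finset.univ x hxS
    have h2 := (dg_insert G (Finset.univ \ {v, a1, a2}) x y (by
      rw [Finset.mem_sdiff]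
      exact fun hh => hh.2 hyS)).1 hadj
    have h3 := dg_mono G (Finset.subset_univ (insert y (Finset.univ \ {v, a1, a2}))) x
    have h4 := h.cls.2 x
    omega
  obtain ⟨c, hc0, hc1, hc⟩ := h.ex p0 hp0
  refine ⟨hInd, hCls.1, ?_, ?_, ?_, hdeg, ?_, ?_, ?_⟩
  · rw [Finset.disjoint_left]
    intro k hkB hk1
    obtain ⟨m, t1, t2, hR, hne⟩ := C2_ne G v a1 a2 B K1 K2 p0 r h p0 hp0 (p0 k)
    have e1 := hR.2.1 k hkB
    have e2 := hR.2.2.1 k hk1
    rw [e1, hc m t1 t2 hR, rf_smul_E7] at e2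
    rcases smul_eq_zero.1 e2.symm with h1 | h1
    · exact hc0 h1
    · exact hne h1
  · rw [Finset.disjoint_left]
    intro k hkB hk2
    obtain ⟨m, t1, t2, hR, hne⟩ := C2_ne G v a1 a2 B K1 K2 p0 r h p0 hp0 (p0 k)
    have e1 := hR.2.1 k hkB
    have e2 := hR.2.2.2 k hk2
    rw [e1] at e2
    exact hne e2.symm
  · rw [Finset.disjoint_left]
    intro k hk1 hk2
    obtain ⟨m, t1, t2, hR, hne⟩ := C2_ne G v a1 a2 B K1 K2 p0 r h p0 hp0 (p0 k)
    have e1 := hR.2.2.1 k hk1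
    have e2 := hR.2.2.2 k hk2
    rw [e2, hc m t1 t2 hR, rf_smul_E7] at e1
    have e3 : (c - 1) • rf t2 (p0 k) = 0 := by
      rw [sub_smul, one_smul, ← e1, sub_self]
    rcases smul_eq_zero.1 e3 with h1 | h1
    · exact hc1 (sub_eq_zero.1 h1)
    · exact hne h1
  · intro x hx y hy hxy
    exact implied_J _ p0 hgood hCls hInd (ie G Finset.univ) h.IH hlt x y hxy (hdeg x (Or.inl hx))
      (hdeg y (Or.inl hy)) (fun m hm => h.rB p0 hp0 m hm x hx y hy)
  · intro x hx y hy hxy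
    exact implied_J _ p0 hgood hCls hInd (ie G Finset.univ) h.IH hlt x y hxy
      (hdeg x (Or.inr (Or.inl hx)))
      (hdeg y (Or.inr (Or.inl hy))) (fun m hm => h.r1 p0 hp0 m hm x hx y hy)
  · intro x hx y hy hxy
    exact implied_J _ p0 hgood hCls hInd (ie G Finset.univ) h.IH hlt x y hxy
      (hdeg x (Or.inr (Or.inr hx)))
      (hdeg y (Or.inr (Or.inr hy))) (fun m hm => h.r2 p0 hp0 m hm x hx y hy)

end Pool.Agent.Reg5.J2533
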