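import Pool.Agent.Helper927.R5Defs
import Pool.Agent.Helper927.R5x2257
import Pool.Agent.Helper927.R5x2258
set_option autoImplicit false
set_option maxHeartbeats 4000000

namespace Pool.Agent.Reg5.J2532
open Pool.Agent.Reg5
open Pool.Agent.Reg5.J2258 (dg_disj)
open Pool.Agent.Reg5.J2257 (ie_empty)
open Pool.Agent.Reg5.J2257 (ie_handshake)
open Pool.Agent.Reg5.J2257 (ie_insert)


theorem E6_dd_symm {V : Type} (p m : V → Fin 3 → ℝ) (a b : V) : dd p m a b = dd p m b a := by
  unfold dd
  rw [← neg_sub (p b) (p a), ← neg_sub (m b) (m a), neg_dotProduct_neg]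

/-- `dd` on unordered pairs, as a linear map in the motion -/
noncomputable def E6_ddE {V : Type} (p : V → Fin 3 → ℝ) (e : Sym2 V) : (V → Fin 3 → ℝ) →ₗ[ℝ] ℝ where
  toFun m := Sym2.lift ⟨fun a b => dd p m a b, fun a b => E6_dd_symm p m a b⟩ e
  map_add' m n := by
    induction e using Sym2.ind with
    | _ a b =>
      simp only [Sym2.lift_mk]
      unfold dd
      rw [← dotProduct_add]
      congr 1
      simp only [Pi.add_apply]
      abel
  map_smul' c m := by
    induction e using Sym2.ind with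
    | _ a b =>
      simp only [Sym2.lift_mk, RingHom.id_apply, smul_eq_mul]
      unfold dd
      rw [← smul_eq_mul, ← dotProduct_smul]
      congr 1
      simp only [Pi.smul_apply]
      rw [smul_sub]

theorem E6_ddE_mk {V : Type} (p m : V → Fin 3 → ℝ) (a b : V) :
    E6_ddE p s(a, b) m = dd p m a b := rfl

/-- extension by zero -/
noncomputable def E6_ext {V : Type} [DecidableEq V] (Y : Finset V) :
    (Y → Fin 3 → ℝ) →ₗ[ℝ] (V → Fin 3 → ℝ) where
  toFun n a := if h : a ∈ Y then n ⟨a, h⟩ else 0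
  map_add' m n := by
    funext a
    by_cases h : a ∈ Y
    · simp [h]
    · simp [h]
  map_smul' c m := by
    funext a
    by_cases h : a ∈ Y
    · simp [h]
    · simp [h]

theorem E6_ext_off {V : Type} [DecidableEq V] (Y : Finset V) (n : Y → Fin 3 → ℝ) {a : V}
    (h : a ∉ Y) : E6_ext Y n a = 0 := dif_neg h

theorem E6_ext_on {V : Type} [DecidableEq V] (Y : Finset V) (n : Y → Fin 3 → ℝ) (a : Y) :
    E6_ext Y n a = n a := dif_pos a.2

theorem E6_ext_inj {V : Type} [DecidableEq V] (Y : Finset V) (n : Y → Fin 3 → ℝ)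
    (h : E6_ext Y n = 0) : n = 0 := by
  funext a
  rw [← E6_ext_on Y n a, h]
  rfl

open Classical in
/-- edges meeting `Y` -/
noncomputable def E6_M {V : Type} [Fintype V] [DecidableEq V] (H : SimpleGraph V) (Y : Finset V) :
    Finset (Sym2 V) :=
  Finset.univ.filter fun e => e ∈ H.edgeSet ∧ ¬ ∀ a ∈ e, a ∈ Yᶜ

theorem E6_M_card {V : Type} [Fintype V] [DecidableEq V] (H : SimpleGraph V) (Y : Finset V) :
    ie H Finset.univ = ie H Yᶜ + (E6_M H Y).card := by
  classical
  unfold ie E6_M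
  rw [← Finset.card_union_of_disjoint]
  · congr 1
    ext e
    simp only [Finset.mem_filter, Finset.mem_univ, true_and, Finset.mem_union, implies_true,
      and_true]
    constructor
    · intro he
      by_cases hh : ∀ a ∈ e, a ∈ Yᶜ
      · exact Or.inl ⟨he, hh⟩
      · exact Or.inr ⟨he, fun hc => hh (fun a ha => by
          have h1 := hc a ha
          rw [Finset.mem_compl] at h1 ⊢
          exact h1)⟩
    · rintro (h | h)
      · exact h.1
      · exact h.1
  · rw [Finset.disjoint_left]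
    intro e he he'
    simp only [Finset.mem_filter, Finset.mem_univ, true_and] at he he'
    exact he'.2 (fun a ha => by
      have h1 := he.2 a ha
      rw [Finset.mem_compl] at h1 ⊢
      exact h1)

theorem E6_mem {V : Type} [Fintype V] [DecidableEq V] (H : SimpleGraph V) (Y : Finset V) {a b : V}
    (hab : H.Adj a b) (h : a ∈ Y ∨ b ∈ Y) : s(a, b) ∈ E6_M H Y := by
  classical
  unfold E6_M
  rw [Finset.mem_filter]
  refine ⟨Finset.mem_univ _, hab, ?_⟩
  intro hcon
  rcases h with h | h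
  · have := hcon a (Sym2.mem_mk_left a b)
    exact (Finset.mem_compl.1 this) h
  · have := hcon b (Sym2.mem_mk_right a b)
    exact (Finset.mem_compl.1 this) h

theorem E6_mot {V : Type} [Fintype V] [DecidableEq V] (H : SimpleGraph V) (p : V → Fin 3 → ℝ)
    (Y : Finset V) (n : Y → Fin 3 → ℝ)
    (h : ∀ e ∈ E6_M H Y, E6_ddE p e (E6_ext Y n) = 0) : IsMot H p (E6_ext Y n) := by
  intro a b hab
  by_cases hY : a ∈ Y ∨ b ∈ Y
  · rw [← E6_ddE_mk]
    exact h _ (E6_mem H Y hab hY)
  · rw [not_or] at hY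
    unfold dd
    rw [E6_ext_off Y n hY.1, E6_ext_off Y n hY.2, sub_zero, dotProduct_zero]

theorem supp {V : Type} [Fintype V] [DecidableEq V] (H : SimpleGraph V) (p : V → Fin 3 → ℝ) (Y : Finset V) (k : ℕ)
    (L : Fin k → ((V → Fin 3 → ℝ) →ₗ[ℝ] ℝ)) (hc : ie H Finset.univ + k < ie H Yᶜ + 3 * Y.card) :
    ∃ m : V → Fin 3 → ℝ, m ≠ 0 ∧ IsMot H p m ∧ (∀ a, a ∉ Y → m a = 0) ∧ ∀ i, L i m = 0 := by
  have hM := E6_M_card H Y
  let D : (Y → Fin 3 → ℝ) →ₗ[ℝ] ((E6_M H Y → ℝ) × (Fin k → ℝ)) :=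
    (LinearMap.pi fun e : E6_M H Y => (E6_ddE p e.1).comp (E6_ext Y)).prod
      (LinearMap.pi fun i => (L i).comp (E6_ext Y))
  have hlt : Module.finrank ℝ ((E6_M H Y → ℝ) × (Fin k → ℝ)) < Module.finrank ℝ (Y → Fin 3 → ℝ) := by
    rw [Module.finrank_prod, Module.finrank_fintype_fun_eq_card, Module.finrank_fintype_fun_eq_card,
      Module.finrank_pi_fintype]
    simp only [Module.finrank_fintype_fun_eq_card, Fintype.card_fin, Finset.sum_const,
      Finset.card_univ, Fintype.card_coe, smul_eq_mul]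
    omega
  have hker := LinearMap.ker_ne_bot_of_finrank_lt (f := D) hlt
  obtain ⟨n, hn, hn0⟩ := Submodule.exists_mem_ne_zero_of_ne_bot hker
  rw [LinearMap.mem_ker] at hn
  have h1 : ∀ e ∈ E6_M H Y, E6_ddE p e (E6_ext Y n) = 0 := by
    intro e he
    have := congrFun (congrArg Prod.fst hn) ⟨e, he⟩
    exact this
  have h2 : ∀ i, L i (E6_ext Y n) = 0 := by
    intro i
    have := congrFun (congrArg Prod.snd hn) i
    exact this
  exact ⟨E6_ext Y n, fun h => hn0 (E6_ext_inj Y n h), E6_mot H p Y n h1,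
    fun a ha => E6_ext_off Y n ha, h2⟩

theorem supp_ext {V : Type} [Fintype V] [DecidableEq V] (H : SimpleGraph V) (p : V → Fin 3 → ℝ) (Y : Finset V)
    (hc : ie H Finset.univ ≤ ie H Yᶜ + 3 * Y.card)
    (h0 : ∀ m : V → Fin 3 → ℝ, IsMot H p m → (∀ a, a ∉ Y → m a = 0) → m = 0) (m : V → Fin 3 → ℝ)
    (hm : IsMot (del H Y) p m) : ∃ m', IsMot H p m' ∧ ∀ a, a ∉ Y → m' a = m a := by
  have hM := E6_M_card H Y
  let D : (Y → Fin 3 → ℝ) →ₗ[ℝ] (E6_M H Y → ℝ) :=
    LinearMap.pi fun e : E6_M H Y => (E6_ddE p e.1).comp (E6_ext Y)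
  have hD : ∀ n e, D n e = E6_ddE p e.1 (E6_ext Y n) := fun n e => rfl
  have hinj : Function.Injective D := by
    rw [← LinearMap.ker_eq_bot, LinearMap.ker_eq_bot']
    intro n hn
    apply E6_ext_inj
    apply h0
    · apply E6_mot
      intro e he
      exact congrFun hn ⟨e, he⟩
    · intro a ha
      exact E6_ext_off Y n ha
  have hf1 : Module.finrank ℝ (Y → Fin 3 → ℝ) = 3 * Y.card := by
    rw [Module.finrank_pi_fintype]
    simp only [Module.finrank_fintype_fun_eq_card, Fintype.card_fin, Finset.sum_const,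
      Finset.card_univ, Fintype.card_coe, smul_eq_mul]
    ring
  have hf2 : Module.finrank ℝ (E6_M H Y → ℝ) = (E6_M H Y).card := by
    rw [Module.finrank_fintype_fun_eq_card, Fintype.card_coe]
  have hle := LinearMap.finrank_le_finrank_of_injective hinj
  have heq : Module.finrank ℝ (Y → Fin 3 → ℝ) = Module.finrank ℝ (E6_M H Y → ℝ) := by
    rw [hf1, hf2] at *
    omega
  have hsurj : Function.Surjective D :=
    (LinearMap.injective_iff_surjective_of_finrank_eq_finrank heq).1 hinj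
  obtain ⟨n, hn⟩ := hsurj fun e => - E6_ddE p e.1 m
  refine ⟨m + E6_ext Y n, ?_, ?_⟩
  · intro a b hab
    rw [← E6_ddE_mk, map_add]
    by_cases hY : a ∈ Y ∨ b ∈ Y
    · have h1 := congrFun hn ⟨s(a, b), E6_mem H Y hab hY⟩
      rw [hD] at h1
      simp only at h1
      rw [h1, add_neg_cancel]
    · rw [not_or] at hY
      have h1 : dd p m a b = 0 := hm a b ⟨hab, hY.1, hY.2⟩
      rw [E6_ddE_mk, E6_ddE_mk, h1, zero_add]
      unfold dd
      rw [E6_ext_off Y n hY.1, E6_ext_off Y n hY.2, sub_zero, dotProduct_zero]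
  · intro a ha
    rw [Pi.add_apply, E6_ext_off Y n ha, add_zero]

theorem E6_union {V : Type} [Fintype V] [DecidableEq V] (H : SimpleGraph V) (Z X : Finset V)
    (h : Disjoint X Z) : ie H (X ∪ Z) = ie H X + ie H Z + ∑ a ∈ X, dg H Z a := by
  induction X using Finset.induction_on with
  | empty => rw [Finset.empty_union, ie_empty, Finset.sum_empty, zero_add, add_zero]
  | insert c X hc ih =>
    rw [Finset.disjoint_insert_left] at h
    have hcXZ : c ∉ X ∪ Z := by
      rw [Finset.mem_union, not_or]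
      exact ⟨hc, h.1⟩
    rw [Finset.insert_union, ie_insert H _ c hcXZ, ih h.2, dg_disj H X Z c h.2,
      ie_insert H X c hc, Finset.sum_insert hc]
    ring

theorem meet_count {V : Type} [Fintype V] [DecidableEq V] (H : SimpleGraph V) (Y : Finset V) :
    ie H Finset.univ + ie H Y = ie H Yᶜ + ∑ a ∈ Y, dg H Finset.univ a := by
  have h1 := E6_union H Yᶜ Y disjoint_compl_right
  rw [Finset.union_compl] at h1
  have h2 : ∑ a ∈ Y, dg H Finset.univ a = ∑ a ∈ Y, dg H Y a + ∑ a ∈ Y, dg H Yᶜ a := by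
    rw [← Finset.sum_add_distrib]
    apply Finset.sum_congr rfl
    intro a _
    rw [← dg_disj H Y Yᶜ a disjoint_compl_right, Finset.union_compl]
  rw [h2, ie_handshake, h1]
  ring

end Pool.Agent.Reg5.J2532
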