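import Pool.Agent.Helper927.R5Defs
import Pool.Agent.Helper927.R5x2260
import Pool.Agent.Helper927.R5x2273
import Pool.Agent.Helper927.R5x2276
import Pool.Agent.Helper927.R5x2532
import Pool.Agent.Helper927.R5x2533
set_option autoImplicit false
set_option maxHeartbeats 4000000

namespace Pool.Agent.Reg5.J2534
open Pool.Agent.Reg5
open Pool.Agent.Reg5.J2533 (C2_J)
open Pool.Agent.Reg5.J2533 (C2_ne)
open Pool.Agent.Reg5.J2273 (J_implied)
open Pool.Agent.Reg5.J2260 (cls_del)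
open Pool.Agent.Reg5.J2532 (meet_count)
open Pool.Agent.Reg5.J2276 (rf_exists)
open Pool.Agent.Reg5.J2276 (rf_lin)
open Pool.Agent.Reg5.J2276 (rf_point)
open Pool.Agent.Reg5.J2532 (supp)


theorem C2_all_rf0 (x : Fin 3 → ℝ) : rf (0 : (Fin 3 → ℝ) × (Fin 3 → ℝ)) x = 0 := by
  simp [rf]

theorem C2_all_rfsmul (c : ℝ) (t : (Fin 3 → ℝ) × (Fin 3 → ℝ)) (x : Fin 3 → ℝ) :
    rf (c • t) x = c • rf t x := by
  have h := rf_lin c 0 t 0 x
  simpa using h

theorem C2_all {V : Type} [Fintype V] [DecidableEq V] (G : SimpleGraph V) (v a1 a2 : V) (B K1 K2 : Finset V)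
    (p0 : V → Fin 3 → ℝ) (r : ℝ) (h : C2 G v a1 a2 B K1 K2 p0 r) (X : Finset V) (hX : BT (del G {v, a1, a2}) X)
    (hKX : K1 ⊆ X) : False := by
  have hBx : Bx p0 r p0 := by
    intro a i
    simpa using h.hr
  have hGood := h.good p0 hBx
  obtain ⟨hGP1, hGP2, hGP3⟩ := hGood.1
  obtain ⟨hInd, hSp, hBK1, hBK2, hK12, hdeg, _, _, _⟩ := C2_J G v a1 a2 B K1 K2 p0 r h
  obtain ⟨c, hc0, hc1, hc⟩ := h.ex p0 hBx
  -- distances inside X
  have hdd : ∀ m, IsMot (del G {v, a1, a2}) p0 m → ∀ x ∈ X, ∀ y ∈ X, dd p0 m x y = 0 := by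
    intro m hm x hx y hy
    exact J_implied _ p0 hGood hInd x y (Or.inr ⟨X, hX, hx, hy⟩) m hm
  obtain ⟨k1, k2, k3, h12, h13, h23, hK1⟩ := Finset.card_eq_three.mp h.c1
  have hk1 : k1 ∈ K1 := by rw [hK1]; simp
  have hk2 : k2 ∈ K1 := by rw [hK1]; simp
  have hk3 : k3 ∈ K1 := by rw [hK1]; simp
  have hrel : ∀ m t1 t2, Rel (del G {v, a1, a2}) p0 B K1 K2 m t1 t2 → ∀ x ∈ X, m x = rf t1 (p0 x) := by
    intro m t1 t2 hR x hx
    obtain ⟨hm, _, hm1, _⟩ := hR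
    by_cases hxK : x ∈ K1
    · exact hm1 x hxK
    · have hx1 : k1 ≠ x := fun e => hxK (e ▸ hk1)
      have hx2 : k2 ≠ x := fun e => hxK (e ▸ hk2)
      have hx3 : k3 ≠ x := fun e => hxK (e ▸ hk3)
      have e1 := hdd m hm x hx k1 (hKX hk1)
      have e2 := hdd m hm x hx k2 (hKX hk2)
      have e3 := hdd m hm x hx k3 (hKX hk3)
      unfold dd at e1 e2 e3
      rw [hm1 k1 hk1] at e1
      rw [hm1 k2 hk2] at e2
      rw [hm1 k3 hk3] at e3
      exact rf_point (p0 k1) (p0 k2) (p0 k3) (p0 x) (m x)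
        (hGP3 k1 k2 k3 x h12 h13 hx1 h23 hx2 hx3) t1 e1 e2 e3
  have hXB : ∀ x ∈ X, x ∉ B := by
    intro x hx hxB
    obtain ⟨m, t1, t2, hR, hne⟩ := C2_ne G v a1 a2 B K1 K2 p0 r h p0 hBx (p0 x)
    have e1 := hrel m t1 t2 hR x hx
    rw [hR.2.1 x hxB, hc m t1 t2 hR, C2_all_rfsmul] at e1
    exact (smul_ne_zero hc0 hne) e1.symm
  have hXK2 : ∀ x ∈ X, x ∉ K2 := by
    intro x hx hxK
    obtain ⟨m, t1, t2, hR, hne⟩ := C2_ne G v a1 a2 B K1 K2 p0 r h p0 hBx (p0 x)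
    have e1 := hrel m t1 t2 hR x hx
    rw [hR.2.2.2 x hxK, hc m t1 t2 hR, C2_all_rfsmul] at e1
    have e2 : (c - 1) • rf t2 (p0 x) = 0 := by
      rw [sub_smul, one_smul, ← e1, sub_self]
    exact (smul_ne_zero (sub_ne_zero.mpr hc1) hne) e2
  -- counting
  have hcls := cls_del G h.cls {v, a1, a2}
  have hsum : ∑ a ∈ X, dg (del G {v, a1, a2}) Finset.univ a + 3 ≤ 5 * X.card := by
    have h1 : ∑ a ∈ X, dg (del G {v, a1, a2}) Finset.univ a
        = ∑ a ∈ K1, dg (del G {v, a1, a2}) Finset.univ a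
          + ∑ a ∈ X \ K1, dg (del G {v, a1, a2}) Finset.univ a := by
      rw [add_comm, Finset.sum_sdiff hKX]
    have h2 : ∑ a ∈ K1, dg (del G {v, a1, a2}) Finset.univ a ≤ K1.card • 4 :=
      Finset.sum_le_card_nsmul _ _ _ fun a ha => hdeg a (Or.inr (Or.inl ha))
    have h3 : ∑ a ∈ X \ K1, dg (del G {v, a1, a2}) Finset.univ a ≤ (X \ K1).card • 5 :=
      Finset.sum_le_card_nsmul _ _ _ fun a _ => hcls.2 a
    rw [h.c1] at h2
    rw [Finset.card_sdiff_of_subset hKX, h.c1] at h3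
    have h4 : 3 ≤ X.card := by
      have := Finset.card_le_card hKX
      rw [h.c1] at this
      exact this
    simp only [smul_eq_mul] at h2 h3
    omega
  have hmc := meet_count (del G {v, a1, a2}) X
  obtain ⟨hX4, hXie⟩ := hX
  have hlt : ie (del G {v, a1, a2}) Finset.univ + 0 < ie (del G {v, a1, a2}) Xᶜ + 3 * X.card := by
    omega
  obtain ⟨m, hm0, hm, hmX, _⟩ := supp (del G {v, a1, a2}) p0 X 0 (fun i => i.elim0) hlt
  have r1 := h.r1 p0 hBx m hm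
  obtain ⟨t, ht1, ht2, ht3⟩ := rf_exists (p0 k1) (p0 k2) (p0 k3) (m k1) (m k2) (m k3)
    (hGP2 k1 k2 k3 h12 h13 h23) (r1 k1 hk1 k2 hk2) (r1 k1 hk1 k3 hk3) (r1 k2 hk2 k3 hk3)
  have hR : Rel (del G {v, a1, a2}) p0 B K1 K2 m t 0 := by
    refine ⟨hm, ?_, ?_, ?_⟩
    · intro b hb
      exact hmX b fun hbX => hXB b hbX hb
    · intro k hk
      rw [hK1] at hk
      simp only [Finset.mem_insert, Finset.mem_singleton] at hk
      rcases hk with rfl | rfl | rfl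
      · exact ht1.symm
      · exact ht2.symm
      · exact ht3.symm
    · intro k hk
      rw [C2_all_rf0]
      exact hmX k fun hkX => hXK2 k hkX hk
  have ht0 := hc m t 0 hR
  rw [smul_zero] at ht0
  apply hm0
  funext x
  by_cases hx : x ∈ X
  · rw [hrel m t 0 hR x hx, ht0, C2_all_rf0]
    rfl
  · rw [hmX x hx]
    rfl

end Pool.Agent.Reg5.J2534
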