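import Pool.Agent.Helper927.R5Defs
import Pool.Agent.Helper927.R5x2257
import Pool.Agent.Helper927.R5x2258
import Pool.Agent.Helper927.R5x2259
import Pool.Agent.Helper927.R5x2273
import Pool.Agent.Helper927.R5x2276
import Pool.Agent.Helper927.R5x2532
import Pool.Agent.Helper927.R5x2533
set_option autoImplicit false
set_option maxHeartbeats 4000000

namespace Pool.Agent.Reg5.J2535
open Pool.Agent.Reg5
open Pool.Agent.Reg5.J2533 (C2_J)
open Pool.Agent.Reg5.J2273 (J_implied)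
open Pool.Agent.Reg5.J2259 (bt_deg)
open Pool.Agent.Reg5.J2259 (bt_out)
open Pool.Agent.Reg5.J2258 (dg_disj)
open Pool.Agent.Reg5.J2258 (dg_ge)
open Pool.Agent.Reg5.J2258 (dg_mono_graph)
open Pool.Agent.Reg5.J2257 (ie_insert)
open Pool.Agent.Reg5.J2532 (meet_count)
open Pool.Agent.Reg5.J2276 (rf_exists)
open Pool.Agent.Reg5.J2276 (rf_lin)
open Pool.Agent.Reg5.J2276 (rf_line)
open Pool.Agent.Reg5.J2276 (rf_point)
open Pool.Agent.Reg5.J2532 (supp)



theorem hZ_rigid {V : Type} [Fintype V] [DecidableEq V] (H : SimpleGraph V) (p : V → Fin 3 → ℝ)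
    (hp : Good p) (hI : Ind H) (X : Finset V) (hX : BT H X) (m : V → Fin 3 → ℝ) (hm : IsMot H p m) :
    ∃ t, ∀ x ∈ X, m x = rf t (p x) := by
  have hd : ∀ x ∈ X, ∀ y ∈ X, dd p m x y = 0 := fun x hx y hy =>
    J_implied H p hp hI x y (Or.inr ⟨X, hX, hx, hy⟩) m hm
  have hc : 2 < X.card := by have := hX.1; omega
  obtain ⟨a, ha, b, hb, c, hc, hab, hac, hbc⟩ := Finset.two_lt_card.mp hc
  obtain ⟨t, hta, htb, htc⟩ := rf_exists (p a) (p b) (p c) (m a) (m b) (m c)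
    (hp.1.2.1 a b c hab hac hbc) (hd a ha b hb) (hd a ha c hc) (hd b hb c hc)
  refine ⟨t, fun d hdX => ?_⟩
  by_cases h1 : d = a
  · rw [h1, hta]
  by_cases h2 : d = b
  · rw [h2, htb]
  by_cases h3 : d = c
  · rw [h3, htc]
  refine rf_point (p a) (p b) (p c) (p d) (m d)
    (hp.1.2.2 a b c d hab hac (Ne.symm h1) hbc (Ne.symm h2) (Ne.symm h3)) t ?_ ?_ ?_
  · rw [hta]; exact hd d hdX a ha
  · rw [htb]; exact hd d hdX b hb
  · rw [htc]; exact hd d hdX c hc

theorem hZ_dim (R R' : (Fin 3 → ℝ) × (Fin 3 → ℝ)) (x : Fin 3 → ℝ)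
    (h : ∀ u, ∃ a b : ℝ, rf (a • R + b • R') x = u) : False := by
  let f : (Fin 2 → ℝ) →ₗ[ℝ] (Fin 3 → ℝ) := Fintype.linearCombination ℝ ![rf R x, rf R' x]
  have hf : Function.Surjective f := by
    intro u
    obtain ⟨a, b, hab⟩ := h u
    refine ⟨![a, b], ?_⟩
    rw [rf_lin] at hab
    simp only [f, Fintype.linearCombination_apply, Fin.sum_univ_two]
    simpa using hab
  have h1 := LinearMap.finrank_range_le f
  rw [LinearMap.range_eq_top.2 hf, finrank_top] at h1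
  simp at h1

theorem hZ_pair {V : Type} [Fintype V] [DecidableEq V] (H : SimpleGraph V) (p : V → Fin 3 → ℝ)
    (hp : Good p) (hI : Ind H) (X : Finset V) (hX : BT H X) (B K1 K2 : Finset V) (x : Fin 3 → ℝ)
    (c d : ℝ) (hcd : c ≠ d) (k1 k2 b b' : V) (hk : k1 ≠ k2) (hb : b ≠ b') (hk1 : k1 ∈ X)
    (hk2 : k2 ∈ X) (hbX : b ∈ X) (hbX' : b' ∈ X)
    (hK : ∀ m t1 t2, Rel H p B K1 K2 m t1 t2 → m k1 = rf (c • t2) (p k1) ∧ m k2 = rf (c • t2) (p k2))
    (hB : ∀ m t1 t2, Rel H p B K1 K2 m t1 t2 → m b = rf (d • t2) (p b) ∧ m b' = rf (d • t2) (p b'))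
    (sur : ∀ u, ∃ m t1 t2, Rel H p B K1 K2 m t1 t2 ∧ rf t2 x = u) : False := by
  refine hZ_dim (-(crossProduct (p b' - p b) (p b)), p b' - p b)
    (-(crossProduct (p k2 - p k1) (p k1)), p k2 - p k1) x (fun u => ?_)
  obtain ⟨m, t1, t2, hR, hu⟩ := sur u
  obtain ⟨t, ht⟩ := hZ_rigid H p hp hI X hX m hR.1
  have hlin : ∀ (e : ℝ) (y : Fin 3 → ℝ), rf (t - e • t2) y = rf t y - rf (e • t2) y := by
    intro e y
    have h1 := rf_lin 1 (-1) t (e • t2) y
    rw [one_smul, one_smul, neg_one_smul, neg_one_smul, ← sub_eq_add_neg, ← sub_eq_add_neg] at h1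
    exact h1
  obtain ⟨hK1, hK2⟩ := hK m t1 t2 hR
  obtain ⟨hB1, hB2⟩ := hB m t1 t2 hR
  obtain ⟨s, hs⟩ := rf_line (p b) (p b') (hp.1.1 _ _ hb) (t - d • t2)
    (by rw [hlin, ← ht b hbX, hB1, sub_self]) (by rw [hlin, ← ht b' hbX', hB2, sub_self])
  obtain ⟨s', hs'⟩ := rf_line (p k1) (p k2) (hp.1.1 _ _ hk) (t - c • t2)
    (by rw [hlin, ← ht k1 hk1, hK1, sub_self]) (by rw [hlin, ← ht k2 hk2, hK2, sub_self])
  have hne : c - d ≠ 0 := sub_ne_zero.2 hcd
  refine ⟨(c - d)⁻¹ * s, -((c - d)⁻¹ * s'), ?_⟩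
  rw [← hu]
  congr 1
  rw [mul_smul, neg_smul, mul_smul, ← hs, ← hs', ← smul_neg, ← smul_add]
  have : (t - d • t2 + -(t - c • t2)) = (c - d) • t2 := by
    rw [sub_smul]; abel
  rw [this, smul_smul, inv_mul_cancel₀ hne, one_smul]

theorem hZ_two {V : Type} [Fintype V] [DecidableEq V] (H : SimpleGraph V) (hs : Sparse H)
    (X : Finset V) (hX : BT H X) (hmax : ∀ Y, BT H Y → X ⊆ Y → Y = X) (S : Finset V)
    (hS : S.card = 3) (hdeg : ∀ x ∈ S, dg H Finset.univ x ≤ 4)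
    (hJ : ∀ x ∈ S, ∀ y ∈ S, x ≠ y → J H x y) (b : V) (hb : b ∈ X) (hbS : b ∈ S) :
    ∃ b' ∈ S, b' ∈ X ∧ b ≠ b' := by
  by_contra hcon
  push Not at hcon
  have hout : ∀ y ∈ S.erase b, y ∉ X := by
    intro y hy hyX
    rw [Finset.mem_erase] at hy
    exact hy.1 (hcon y hy.2 hyX).symm
  have h1 : (S.erase b).card ≤ dg H Xᶜ b := by
    refine dg_ge H Xᶜ (S.erase b) b ?_ ?_
    · intro y hy
      rw [Finset.mem_compl]; exact hout y hy
    · intro y hy
      have hy' := Finset.mem_erase.1 hy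
      exact bt_out H hs X hX hmax b y hb (hdeg b hbS) (hout y hy) (hJ b hbS y hy'.2 hy'.1.symm)
  rw [Finset.card_erase_of_mem hbS, hS] at h1
  have h2 := bt_deg H hs X hX b hb
  have h3 := dg_disj H X Xᶜ b disjoint_compl_right
  rw [Finset.union_compl] at h3
  have h4 := hdeg b hbS
  omega

theorem C2_pair {V : Type} [Fintype V] [DecidableEq V] (G : SimpleGraph V) (v a1 a2 : V) (B K1 K2 : Finset V)
    (p0 : V → Fin 3 → ℝ) (r : ℝ) (h : C2 G v a1 a2 B K1 K2 p0 r) (X : Finset V) (hX : BT (del G {v, a1, a2}) X)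
    (hmax : ∀ Y, BT (del G {v, a1, a2}) Y → X ⊆ Y → Y = X)
    (k1 k2 k3 : V) (hk1 : k1 ∈ K1) (hk2 : k2 ∈ K1) (hk3 : k3 ∈ K1) (h12 : k1 ≠ k2) (h13 : k1 ≠ k3) (h23 : k2 ≠ k3)
    (h1X : k1 ∈ X) (h2X : k2 ∈ X) (h3X : k3 ∉ X) (hadj : ¬ G.Adj k1 k2) : False := by
  classical
  obtain ⟨hI, hS, dBK1, dBK2, dK12, hdeg, hJB, hJ1, hJ2⟩ := C2_J G v a1 a2 B K1 K2 p0 r h
  have hbx : Bx p0 r p0 := fun a i => by simpa using h.hr
  have hgood := h.good p0 hbx
  obtain ⟨c, hc0, hc1, hc⟩ := h.ex p0 hbx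
  have hsur := h.sur p0 hbx
  have hr1 := h.r1 p0 hbx
  have hG5 := h.cls.2
  have hGa : ∀ x y, (del G {v, a1, a2}).Adj x y → G.Adj x y := fun x y hxy => hxy.1
  have hdeg5 : ∀ x, dg (del G {v, a1, a2}) Finset.univ x ≤ 5 := fun x =>
    (dg_mono_graph (show del G {v, a1, a2} ≤ G from fun x y hxy => hGa x y hxy) _ x).trans (hG5 x)
  set H := del G {v, a1, a2} with hH
  -- adjacency of k3
  have a31 : H.Adj k1 k3 := bt_out H hS X hX hmax k1 k3 h1X (hdeg k1 (Or.inr (Or.inl hk1))) h3X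
    (hJ1 k1 hk1 k3 hk3 h13)
  have a32 : H.Adj k2 k3 := bt_out H hS X hX hmax k2 k3 h2X (hdeg k2 (Or.inr (Or.inl hk2))) h3X
    (hJ1 k2 hk2 k3 hk3 h23)
  have hK1eq : K1 = {k1, k2, k3} := by
    symm
    apply Finset.eq_of_subset_of_card_le
    · intro x hx
      simp only [Finset.mem_insert, Finset.mem_singleton] at hx
      rcases hx with rfl | rfl | rfl
      · exact hk1
      · exact hk2
      · exact hk3
    · rw [h.c1, Finset.card_insert_of_notMem, Finset.card_insert_of_notMem,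
        Finset.card_singleton]
      · simpa using h23
      · simp only [Finset.mem_insert, Finset.mem_singleton]
        push Not
        exact ⟨h12, h13⟩
  -- |X| ≥ 5
  have hX5 : 5 ≤ X.card := by
    by_contra hcon
    have hX4 : X.card = 4 := by have := hX.1; omega
    have hd := bt_deg H hS X hX k1 h1X
    have hsub : X.filter (fun x => H.Adj k1 x) ⊆ X.erase k1 := by
      intro x hx
      rw [Finset.mem_filter] at hx
      rw [Finset.mem_erase]
      exact ⟨fun hxk => H.loopless.irrefl k1 (hxk ▸ hx.2), hx.1⟩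
    have hcard : (X.erase k1).card ≤ (X.filter (fun x => H.Adj k1 x)).card := by
      rw [Finset.card_erase_of_mem h1X, hX4]
      unfold dg at hd
      convert hd using 2
    have heq := Finset.eq_of_subset_of_card_le hsub hcard
    have hmem : k2 ∈ X.filter (fun x => H.Adj k1 x) := by
      rw [heq, Finset.mem_erase]; exact ⟨h12.symm, h2X⟩
    rw [Finset.mem_filter] at hmem
    exact hadj (hGa _ _ hmem.2)
  have hKc : ∀ m t1 t2, Rel H p0 B K1 K2 m t1 t2 →
      m k1 = rf (c • t2) (p0 k1) ∧ m k2 = rf (c • t2) (p0 k2) := by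
    intro m t1 t2 hR
    rw [← hc m t1 t2 hR]
    exact ⟨hR.2.2.1 k1 hk1, hR.2.2.1 k2 hk2⟩
  -- (a) X ∩ B = ∅
  have hXB : ∀ b ∈ B, b ∉ X := by
    intro b hbB hbX
    obtain ⟨b', hb'B, hb'X, hbb'⟩ := hZ_two H hS X hX hmax B h.cB (fun x hx => hdeg x (Or.inl hx))
      hJB b hbX hbB
    refine hZ_pair H p0 hgood hI X hX B K1 K2 (p0 a2) c 0 hc0 k1 k2 b b' h12 hbb' h1X h2X hbX hb'X
      hKc ?_ hsur
    intro m t1 t2 hR
    have hz : ∀ y, rf ((0:ℝ) • t2) y = 0 := by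
      intro y; rw [zero_smul]; simp [rf]
    rw [hz, hz]
    exact ⟨hR.2.1 b hbB, hR.2.1 b' hb'B⟩
  -- (b) X ∩ K2 = ∅
  have hXK2 : ∀ b ∈ K2, b ∉ X := by
    intro b hbB hbX
    obtain ⟨b', hb'B, hb'X, hbb'⟩ := hZ_two H hS X hX hmax K2 h.c2
      (fun x hx => hdeg x (Or.inr (Or.inr hx))) hJ2 b hbX hbB
    refine hZ_pair H p0 hgood hI X hX B K1 K2 (p0 a2) c 1 hc1 k1 k2 b b' h12 hbb' h1X h2X hbX hb'X
      hKc ?_ hsur
    intro m t1 t2 hR
    rw [one_smul]
    exact ⟨hR.2.2.2 b hbB, hR.2.2.2 b' hb'B⟩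
  -- (c)
  set Y := insert k3 X with hY
  have hYc : Y.card = X.card + 1 := Finset.card_insert_of_notMem h3X
  have hYB : ∀ b ∈ B, b ∉ Y := by
    intro b hb hbY
    rw [hY, Finset.mem_insert] at hbY
    rcases hbY with rfl | hbY
    · exact (Finset.disjoint_left.1 dBK1 hb) hk3
    · exact hXB b hb hbY
  have hYK2 : ∀ b ∈ K2, b ∉ Y := by
    intro b hb hbY
    rw [hY, Finset.mem_insert] at hbY
    rcases hbY with rfl | hbY
    · exact (Finset.disjoint_left.1 dK12 hk3) hb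
    · exact hXK2 b hb hbY
  have hK1Y : K1 ⊆ Y := by
    rw [hK1eq]
    intro x hx
    simp only [Finset.mem_insert, Finset.mem_singleton] at hx
    rw [hY, Finset.mem_insert]
    rcases hx with rfl | rfl | rfl
    · exact Or.inr h1X
    · exact Or.inr h2X
    · exact Or.inl rfl
  have hieY : ie H X + 2 ≤ ie H Y := by
    rw [hY, ie_insert H X k3 h3X]
    have : ({k1, k2} : Finset V).card ≤ dg H X k3 := by
      refine dg_ge H X {k1, k2} k3 ?_ ?_
      · intro x hx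
        simp only [Finset.mem_insert, Finset.mem_singleton] at hx
        rcases hx with rfl | rfl
        · exact h1X
        · exact h2X
      · intro x hx
        simp only [Finset.mem_insert, Finset.mem_singleton] at hx
        rcases hx with rfl | rfl
        · exact a31.symm
        · exact a32.symm
    rw [Finset.card_pair h12] at this
    omega
  have hsum : ∑ a ∈ Y, dg H Finset.univ a + 3 ≤ 5 * Y.card := by
    have h1 : ∑ a ∈ Y, dg H Finset.univ a = ∑ a ∈ Y \ K1, dg H Finset.univ a +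
        ∑ a ∈ K1, dg H Finset.univ a := (Finset.sum_sdiff hK1Y).symm
    have h2 : ∑ a ∈ Y \ K1, dg H Finset.univ a ≤ (Y \ K1).card * 5 := by
      have := Finset.sum_le_card_nsmul (Y \ K1) (fun a => dg H Finset.univ a) 5
        (fun a _ => hdeg5 a)
      simpa using this
    have h3 : ∑ a ∈ K1, dg H Finset.univ a ≤ K1.card * 4 := by
      have := Finset.sum_le_card_nsmul K1 (fun a => dg H Finset.univ a) 4
        (fun a ha => hdeg a (Or.inr (Or.inl ha)))
      simpa using this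
    have h4 : (Y \ K1).card + K1.card = Y.card := Finset.card_sdiff_add_card_eq_card hK1Y
    rw [h.c1] at h3 h4
    omega
  have hmc := meet_count H Y
  have hcount : ie H Finset.univ + 1 < ie H Yᶜ + 3 * Y.card := by
    have := hX.2
    omega
  obtain ⟨x0, hx0⟩ : ∃ x0, x0 ∈ X \ {k1, k2} := by
    apply Finset.card_pos.1
    have h1 : X.card - ({k1, k2} : Finset V).card ≤ (X \ {k1, k2}).card := Finset.le_card_sdiff _ _
    rw [Finset.card_pair h12] at h1
    omega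
  rw [Finset.mem_sdiff, Finset.mem_insert, Finset.mem_singleton] at hx0
  obtain ⟨hx0X, hx0k⟩ := hx0
  push Not at hx0k
  set w0 := crossProduct (p0 k2 - p0 k1) (p0 x0 - p0 k1) with hw0
  have hw0ne : w0 ≠ 0 := by
    rw [hw0, crossProduct_ne_zero_iff_linearIndependent]
    exact hgood.1.2.1 k1 k2 x0 h12 hx0k.1.symm hx0k.2.symm
  let L : (V → Fin 3 → ℝ) →ₗ[ℝ] ℝ :=
    { toFun := fun m => w0 ⬝ᵥ m x0
      map_add' := fun m m' => by simp [dotProduct_add]
      map_smul' := fun s m => by simp [dotProduct_smul] }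
  obtain ⟨m, hm0, hmot, hsupp, hL⟩ := supp H p0 Y 1 (fun _ => L) hcount
  have hL0 : w0 ⬝ᵥ m x0 = 0 := hL 0
  -- rigid on K1
  have hGP := hgood.1
  obtain ⟨t1, ht1, ht2, ht3⟩ := rf_exists (p0 k1) (p0 k2) (p0 k3) (m k1) (m k2) (m k3)
    (hGP.2.1 k1 k2 k3 h12 h13 h23) (hr1 m hmot k1 hk1 k2 hk2) (hr1 m hmot k1 hk1 k3 hk3)
    (hr1 m hmot k2 hk2 k3 hk3)
  have hrf0 : ∀ y, rf 0 y = 0 := fun y => by simp [rf]
  have hR : Rel H p0 B K1 K2 m t1 0 := by
    refine ⟨hmot, fun b hb => hsupp b (hYB b hb), ?_, fun k hk => ?_⟩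
    · intro k hk
      rw [hK1eq] at hk
      simp only [Finset.mem_insert, Finset.mem_singleton] at hk
      rcases hk with rfl | rfl | rfl
      · exact ht1.symm
      · exact ht2.symm
      · exact ht3.symm
    · rw [hrf0]; exact hsupp k (hYK2 k hk)
  have ht10 : t1 = 0 := by
    have := hc m t1 0 hR
    rw [this, smul_zero]
  rw [ht10] at ht1 ht2 ht3
  rw [hrf0] at ht1 ht2 ht3
  obtain ⟨t, ht⟩ := hZ_rigid H p0 hgood hI X hX m hmot
  obtain ⟨s, hs⟩ := rf_line (p0 k1) (p0 k2) (hGP.1 _ _ h12) t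
    (by rw [← ht k1 h1X, ← ht1]) (by rw [← ht k2 h2X, ← ht2])
  have hrft : ∀ y, rf t y = s • crossProduct (p0 k2 - p0 k1) (y - p0 k1) := by
    intro y
    rw [hs]
    simp only [rf, Prod.smul_mk, map_sub, map_smul, LinearMap.smul_apply, LinearMap.sub_apply,
      smul_neg, smul_sub]
    abel
  have hs0 : s = 0 := by
    rw [ht x0 hx0X, hrft, dotProduct_smul, smul_eq_mul] at hL0
    rcases mul_eq_zero.1 hL0 with h0 | h0
    · exact h0
    · exact absurd (dotProduct_self_eq_zero.1 h0) hw0ne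
  apply hm0
  funext x
  by_cases hxX : x ∈ X
  · rw [ht x hxX, hrft, hs0, zero_smul]; rfl
  · by_cases hx3 : x = k3
    · rw [hx3, ← ht3]; rfl
    · apply hsupp
      rw [hY, Finset.mem_insert]
      push Not
      exact ⟨hx3, hxX⟩

end Pool.Agent.Reg5.J2535
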