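import Pool.Agent.Helper927.R5Defs
import Pool.Agent.Helper927.R5x2257
import Pool.Agent.Helper927.R5x2258
import Pool.Agent.Helper927.R5x2263
import Pool.Agent.Helper927.R5x2276
import Pool.Agent.Helper927.R5x2518
import Pool.Agent.Helper927.R5x2527
import Pool.Agent.Helper927.R5x2532
import Pool.Agent.Helper927.R5x2533
set_option autoImplicit false
set_option maxHeartbeats 4000000

namespace Pool.Agent.Reg5.J2536
open Pool.Agent.Reg5
open Pool.Agent.Reg5.J2533 (C2_J)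
open Pool.Agent.Reg5.J2533 (C2_ne)
open Pool.Agent.Reg5.J2258 (dg_ge)
open Pool.Agent.Reg5.J2257 (ie_handshake)
open Pool.Agent.Reg5.J2263 (isMot_mono)
open Pool.Agent.Reg5.J2532 (meet_count)
open Pool.Agent.Reg5.J2518 (mot_congr)
open Pool.Agent.Reg5.J2527 (normalize)
open Pool.Agent.Reg5.J2276 (rf_dot)
open Pool.Agent.Reg5.J2276 (rf_exists)
open Pool.Agent.Reg5.J2276 (rf_lin)
open Pool.Agent.Reg5.J2532 (supp_ext)


theorem rf_zero_val (x : Fin 3 → ℝ) : rf (0 : (Fin 3 → ℝ) × (Fin 3 → ℝ)) x = 0 := by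
  have := rf_lin 0 0 (0 : (Fin 3 → ℝ) × (Fin 3 → ℝ)) 0 x
  simpa using this

theorem rf_smul_val (c : ℝ) (t : (Fin 3 → ℝ) × (Fin 3 → ℝ)) (x : Fin 3 → ℝ) : rf (c • t) x = c • rf t x := by
  have := rf_lin c 0 t 0 x
  simpa using this

theorem rig_part {V : Type} [DecidableEq V] (K : Finset V) (hK : K.card = 3) (p m : V → Fin 3 → ℝ) (hp : GP p)
    (hd : ∀ x ∈ K, ∀ y ∈ K, dd p m x y = 0) : ∃ t, ∀ k ∈ K, m k = rf t (p k) := by
  obtain ⟨a, b, c, hab, hac, hbc, rfl⟩ := Finset.card_eq_three.mp hK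
  have h1 := hd a (by simp) b (by simp)
  have h2 := hd a (by simp) c (by simp)
  have h3 := hd b (by simp) c (by simp)
  obtain ⟨t, ta, tb, tc⟩ := rf_exists (p a) (p b) (p c) (m a) (m b) (m c) (hp.2.1 a b c hab hac hbc) h1 h2 h3
  refine ⟨t, fun k hk => ?_⟩
  simp only [Finset.mem_insert, Finset.mem_singleton] at hk
  rcases hk with rfl | rfl | rfl
  · exact ta.symm
  · exact tb.symm
  · exact tc.symm

theorem box_zero (x0 w q : Fin 3 → ℝ) (r : ℝ) (hr : 0 < r)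
    (h : ∀ x : Fin 3 → ℝ, (∀ i, |x i - x0 i| < r) → (x - q) ⬝ᵥ w = 0) : w = 0 := by
  funext i
  have h1 := h x0 (fun j => by simpa using hr)
  have h2 := h (x0 + Pi.single i (r / 2)) (fun j => by
    rcases eq_or_ne j i with rfl | hj
    · simp only [Pi.add_apply, Pi.single_eq_same, add_sub_cancel_left]
      rw [abs_of_pos (by linarith)]; linarith
    · simp only [Pi.add_apply, Pi.single_eq_of_ne hj, add_zero, sub_self, abs_zero]; exact hr)
  have h3 : (x0 + Pi.single i (r / 2) - q) ⬝ᵥ w = (x0 - q) ⬝ᵥ w + (r / 2) * w i := by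
    rw [show x0 + Pi.single i (r / 2) - q = (x0 - q) + Pi.single i (r / 2) by abel, add_dotProduct,
      single_dotProduct]
  rw [h3, h1, zero_add] at h2
  rcases mul_eq_zero.mp h2 with h4 | h4
  · linarith
  · exact h4

theorem box_ne (x0 w q : Fin 3 → ℝ) (r : ℝ) (hr : 0 < r) (hw : w ≠ 0) :
    ∃ x : Fin 3 → ℝ, (∀ i, |x i - x0 i| < r) ∧ (x - q) ⬝ᵥ w ≠ 0 := by
  by_contra hc
  push Not at hc
  exact hw (box_zero x0 w q r hr hc)

theorem tri_ext {V : Type} [Fintype V] [DecidableEq V] (G : SimpleGraph V) (v a1 a2 : V) (B K1 K2 : Finset V)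
    (p0 : V → Fin 3 → ℝ) (r : ℝ) (h : C2 G v a1 a2 B K1 K2 p0 r) (htri : ∀ x ∈ K1, ∀ y ∈ K1, x ≠ y → G.Adj x y)
    (p : V → Fin 3 → ℝ) (hp : Bx p0 r p) (m : V → Fin 3 → ℝ)
    (hm : IsMot (del G ({v, a1, a2} ∪ K1)) p m) :
    ∃ m', IsMot (del G {v, a1, a2}) p m' ∧ ∀ a, a ∉ K1 → m' a = m a := by
  obtain ⟨-, -, dBK1, dBK2, dK, hdg, -, -, -⟩ := C2_J G v a1 a2 B K1 K2 p0 r h
  have hGP : GP p := (h.good p hp).1
  have hS : ∀ k ∈ K1, k ∉ ({v, a1, a2} : Finset V) := by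
    intro k hk hk'
    simp only [Finset.mem_insert, Finset.mem_singleton] at hk'
    rcases hk' with rfl | rfl | rfl
    · exact h.hv.2.1 hk
    · exact h.ha1.2.1 hk
    · exact h.ha2.2.1 hk
  apply supp_ext (del G {v, a1, a2}) p K1
  · have h1 := meet_count (del G {v, a1, a2}) K1
    have h2 : ∑ a ∈ K1, dg (del G {v, a1, a2}) Finset.univ a ≤ ∑ _a ∈ K1, 4 :=
      Finset.sum_le_sum (fun a ha => hdg a (Or.inr (Or.inl ha)))
    have h3 := ie_handshake (del G {v, a1, a2}) K1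
    have h4 : ∑ _a ∈ K1, 2 ≤ ∑ a ∈ K1, dg (del G {v, a1, a2}) K1 a := by
      apply Finset.sum_le_sum
      intro a ha
      have := dg_ge (del G {v, a1, a2}) K1 (K1.erase a) a (Finset.erase_subset _ _) (fun x hx => by
        rw [Finset.mem_erase] at hx
        exact ⟨htri a ha x hx.2 (Ne.symm hx.1), hS a ha, hS x hx.2⟩)
      rw [Finset.card_erase_of_mem ha, h.c1] at this
      simpa using this
    simp only [Finset.sum_const, h.c1, smul_eq_mul] at h2 h4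
    rw [h.c1]
    omega
  · intro m hm hz
    obtain ⟨t1, ht1⟩ := rig_part K1 h.c1 p m hGP (h.r1 p hp m hm)
    obtain ⟨c, -, -, hc⟩ := h.ex p hp
    have hR : Rel (del G {v, a1, a2}) p B K1 K2 m t1 0 := by
      refine ⟨hm, fun b hb => hz b (Finset.disjoint_left.mp dBK1 hb), ht1, fun k hk => ?_⟩
      rw [rf_zero_val]
      exact hz k (fun hk1 => Finset.disjoint_left.mp dK hk1 hk)
    have ht : t1 = 0 := by rw [hc m t1 0 hR, smul_zero]
    funext a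
    by_cases ha : a ∈ K1
    · rw [ht1 a ha, ht, rf_zero_val]; rfl
    · exact hz a ha
  · intro a b hab
    refine hm a b ⟨hab.1.1, ?_, ?_⟩
    · rw [Finset.mem_union]; rintro (h' | h')
      · exact hab.1.2.1 h'
      · exact hab.2.1 h'
    · rw [Finset.mem_union]; rintro (h' | h')
      · exact hab.1.2.2 h'
      · exact hab.2.2 h'

/-- normalised motions of `H''` with rigid part `t2` on `K2` -/
def NM {V : Type} [Fintype V] [DecidableEq V] (G : SimpleGraph V) (v a1 a2 : V) (B K1 K2 : Finset V)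
    (p0 m : V → Fin 3 → ℝ) (t2 : (Fin 3 → ℝ) × (Fin 3 → ℝ)) : Prop :=
  IsMot (del G ({v, a1, a2} ∪ K1)) p0 m ∧ (∀ b ∈ B, m b = 0) ∧ (∀ k ∈ K2, m k = rf t2 (p0 k))

theorem tri_star {V : Type} [Fintype V] [DecidableEq V] (G : SimpleGraph V) (v a1 a2 : V) (B K1 K2 : Finset V)
    (p0 : V → Fin 3 → ℝ) (r : ℝ) (h : C2 G v a1 a2 B K1 K2 p0 r) (htri : ∀ x ∈ K1, ∀ y ∈ K1, x ≠ y → G.Adj x y)
    (p : V → Fin 3 → ℝ) (hp : Bx p0 r p) (hoff : ∀ x, x ∉ K1 → p x = p0 x) :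
    ∃ c : ℝ, ∀ m t2, NM G v a1 a2 B K1 K2 p0 m t2 → ∀ k ∈ K1, ∀ a, a ∉ K1 → (del G {v, a1, a2}).Adj k a →
      c * ((p k - p0 a) ⬝ᵥ rf t2 (p0 a)) = (p k - p0 a) ⬝ᵥ m a := by
  obtain ⟨-, -, dBK1, dBK2, dK, hdg, -, -, -⟩ := C2_J G v a1 a2 B K1 K2 p0 r h
  have hGP : GP p := (h.good p hp).1
  obtain ⟨c, -, -, hc⟩ := h.ex p hp
  refine ⟨c, fun m t2 hm k hk a ha hka => ?_⟩
  have hm' : IsMot (del G ({v, a1, a2} ∪ K1)) p m := by
    refine (mot_congr _ p0 p m m (fun x y hxy => ⟨?_, rfl⟩)).mp hm.1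
    exact (hoff x (fun hx => hxy.2.1 (Finset.mem_union_right _ hx))).symm
  obtain ⟨m', hmot, heq⟩ := tri_ext G v a1 a2 B K1 K2 p0 r h htri p hp m hm'
  obtain ⟨t1, ht1⟩ := rig_part K1 h.c1 p m' hGP (h.r1 p hp m' hmot)
  have hR : Rel (del G {v, a1, a2}) p B K1 K2 m' t1 t2 := by
    refine ⟨hmot, fun b hb => ?_, ht1, fun k' hk' => ?_⟩
    · rw [heq b (Finset.disjoint_left.mp dBK1 hb)]; exact hm.2.1 b hb
    · have : k' ∉ K1 := fun hk1 => Finset.disjoint_left.mp dK hk1 hk'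
      rw [heq k' this, hoff k' this]; exact hm.2.2 k' hk'
  have ht : t1 = c • t2 := hc m' t1 t2 hR
  have h1 := hmot k a hka
  unfold dd at h1
  rw [ht1 k hk, ht, rf_smul_val, heq a ha, hoff a ha] at h1
  have h2 := rf_dot t2 (p k) (p0 a)
  rw [dotProduct_sub] at h1 h2
  rw [dotProduct_smul, smul_eq_mul] at h1
  have h3 : (p k - p0 a) ⬝ᵥ rf t2 (p k) = (p k - p0 a) ⬝ᵥ rf t2 (p0 a) := by linarith
  rw [h3] at h1
  linarith

theorem tri_const {V : Type} [Fintype V] [DecidableEq V] (G : SimpleGraph V) (v a1 a2 : V) (B K1 K2 : Finset V)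
    (p0 : V → Fin 3 → ℝ) (r : ℝ) (h : C2 G v a1 a2 B K1 K2 p0 r) (htri : ∀ x ∈ K1, ∀ y ∈ K1, x ≠ y → G.Adj x y)
    (k' : V) (hk' : k' ∈ K1) (a' : V) (ha' : a' ∉ K1) (hka' : (del G {v, a1, a2}).Adj k' a') :
    ∃ C : ℝ, ∀ k ∈ K1, k ≠ k' → ∀ a, a ∉ K1 → (del G {v, a1, a2}).Adj k a →
      ∀ m t2, NM G v a1 a2 B K1 K2 p0 m t2 → m a = C • rf t2 (p0 a) := by
  have hp0 : Bx p0 r p0 := fun a i => by simpa using h.hr
  obtain ⟨m0, s1, s2, hR0, hne⟩ := C2_ne G v a1 a2 B K1 K2 p0 r h p0 hp0 (p0 a')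
  have hNM0 : NM G v a1 a2 B K1 K2 p0 m0 s2 := by
    refine ⟨isMot_mono ?_ p0 m0 hR0.1, hR0.2.1, hR0.2.2.2⟩
    intro x y hxy
    exact ⟨hxy.1, fun hx => hxy.2.1 (Finset.mem_union_left _ hx), fun hy => hxy.2.2 (Finset.mem_union_left _ hy)⟩
  obtain ⟨q, hq, hqne⟩ := box_ne (p0 k') (rf s2 (p0 a')) (p0 a') r h.hr hne
  refine ⟨((q - p0 a') ⬝ᵥ m0 a') / ((q - p0 a') ⬝ᵥ rf s2 (p0 a')), fun k hk hkk a ha hka m t2 hm => ?_⟩
  rw [← sub_eq_zero]
  apply box_zero (p0 k) _ (p0 a) r h.hr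
  intro x hx
  have hp : Bx p0 r (Function.update (Function.update p0 k' q) k x) := by
    intro b i
    by_cases hb : b = k
    · subst hb; rw [Function.update_self]; exact hx i
    · rw [Function.update_of_ne hb]
      by_cases hb' : b = k'
      · subst hb'; rw [Function.update_self]; exact hq i
      · rw [Function.update_of_ne hb']; simpa using h.hr
  have hoff : ∀ y, y ∉ K1 → (Function.update (Function.update p0 k' q) k x) y = p0 y := by
    intro y hy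
    have h1 : y ≠ k := fun e => hy (e ▸ hk)
    have h2 : y ≠ k' := fun e => hy (e ▸ hk')
    rw [Function.update_of_ne h1, Function.update_of_ne h2]
  obtain ⟨c, hc⟩ := tri_star G v a1 a2 B K1 K2 p0 r h htri _ hp hoff
  have e1 := hc m0 s2 hNM0 k' hk' a' ha' hka'
  have e2 := hc m t2 hm k hk a ha hka
  rw [Function.update_of_ne (Ne.symm hkk), Function.update_self] at e1
  rw [Function.update_self] at e2
  have e3 : c = ((q - p0 a') ⬝ᵥ m0 a') / ((q - p0 a') ⬝ᵥ rf s2 (p0 a')) := by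
    rw [eq_div_iff hqne]; exact e1
  rw [← e3, dotProduct_sub, dotProduct_smul, smul_eq_mul, e2, sub_self]

theorem tri_out {V : Type} [Fintype V] [DecidableEq V] (G : SimpleGraph V) (v a1 a2 : V) (B K1 K2 : Finset V)
    (p0 : V → Fin 3 → ℝ) (r : ℝ) (h : C2 G v a1 a2 B K1 K2 p0 r)
    (hdeg : ∀ x ∈ K1, dg G Finset.univ x = 5) (k : V) (hk : k ∈ K1) :
    ∃ a, a ∉ K1 ∧ (del G {v, a1, a2}).Adj k a := by
  obtain ⟨-, -, dBK1, dBK2, dK, hdg, -, -, -⟩ := C2_J G v a1 a2 B K1 K2 p0 r h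
  classical
  by_contra hc
  push Not at hc
  have hsub : dg G Finset.univ k ≤ (insert a1 (K1.erase k)).card := by
    unfold dg
    apply Finset.card_le_card
    intro x hx
    have hx : G.Adj k x := by simpa using hx
    rw [Finset.mem_insert, Finset.mem_erase]
    by_cases hx1 : x = a1
    · exact Or.inl hx1
    right
    refine ⟨fun e => G.loopless.irrefl k (e ▸ hx), ?_⟩
    by_contra hxK
    apply hc x hxK
    refine ⟨hx, ?_, ?_⟩
    · intro hk'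
      simp only [Finset.mem_insert, Finset.mem_singleton] at hk'
      rcases hk' with rfl | rfl | rfl
      · exact h.hv.2.1 hk
      · exact h.ha1.2.1 hk
      · exact h.ha2.2.1 hk
    · intro hx'
      simp only [Finset.mem_insert, Finset.mem_singleton] at hx'
      rcases hx' with rfl | rfl | rfl
      · rcases (h.Nv k).mp hx.symm with e | e | e
        · exact h.ha1.2.1 (e ▸ hk)
        · exact h.ha2.2.1 (e ▸ hk)
        · exact Finset.disjoint_left.mp dBK1 e hk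
      · exact hx1 rfl
      · rcases (h.N2 k).mp hx.symm with e | e | e
        · exact h.hv.2.1 (e ▸ hk)
        · exact h.ha1.2.1 (e ▸ hk)
        · exact Finset.disjoint_left.mp dK hk e
  have h2 : (insert a1 (K1.erase k)).card ≤ (K1.erase k).card + 1 := Finset.card_insert_le _ _
  rw [Finset.card_erase_of_mem hk, h.c1] at h2
  have := hdeg k hk
  omega

theorem C2_tri_rigid {V : Type} [Fintype V] [DecidableEq V] (G : SimpleGraph V) (v a1 a2 : V) (B K1 K2 : Finset V)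
    (p0 : V → Fin 3 → ℝ) (r : ℝ) (h : C2 G v a1 a2 B K1 K2 p0 r) (htri : ∀ x ∈ K1, ∀ y ∈ K1, x ≠ y → G.Adj x y)
    (hdeg : ∀ x ∈ K1, dg G Finset.univ x = 5) :
    ∀ m, IsMot (del G ({v, a1, a2} ∪ K1)) p0 m → ∀ x y, x ∉ K1 → y ∉ K1 → (∃ k ∈ K1, (del G {v, a1, a2}).Adj k x) →
      (∃ k ∈ K1, (del G {v, a1, a2}).Adj k y) → dd p0 m x y = 0 := by
  have hp0 : Bx p0 r p0 := fun a i => by simpa using h.hr
  have hGP : GP p0 := (h.good p0 hp0).1
  obtain ⟨-, -, dBK1, dBK2, dK, hdg, -, -, -⟩ := C2_J G v a1 a2 B K1 K2 p0 r h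
  -- the constant
  have key : ∃ C : ℝ, ∀ k ∈ K1, ∀ a, a ∉ K1 → (del G {v, a1, a2}).Adj k a →
      ∀ m t2, NM G v a1 a2 B K1 K2 p0 m t2 → m a = C • rf t2 (p0 a) := by
    obtain ⟨k1, k2, k3, h12, h13, h23, hK⟩ := Finset.card_eq_three.mp h.c1
    have m1 : k1 ∈ K1 := by rw [hK]; simp
    have m2 : k2 ∈ K1 := by rw [hK]; simp
    have m3 : k3 ∈ K1 := by rw [hK]; simp
    obtain ⟨b1, nb1, ab1⟩ := tri_out G v a1 a2 B K1 K2 p0 r h hdeg k1 m1
    obtain ⟨b2, nb2, ab2⟩ := tri_out G v a1 a2 B K1 K2 p0 r h hdeg k2 m2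
    obtain ⟨b3, nb3, ab3⟩ := tri_out G v a1 a2 B K1 K2 p0 r h hdeg k3 m3
    obtain ⟨C1, hC1⟩ := tri_const G v a1 a2 B K1 K2 p0 r h htri k1 m1 b1 nb1 ab1
    obtain ⟨C2', hC2⟩ := tri_const G v a1 a2 B K1 K2 p0 r h htri k2 m2 b2 nb2 ab2
    obtain ⟨m0, s1, s2, hR0, hne⟩ := C2_ne G v a1 a2 B K1 K2 p0 r h p0 hp0 (p0 b3)
    have hNM0 : NM G v a1 a2 B K1 K2 p0 m0 s2 := by
      refine ⟨isMot_mono ?_ p0 m0 hR0.1, hR0.2.1, hR0.2.2.2⟩
      intro x y hxy
      exact ⟨hxy.1, fun hx => hxy.2.1 (Finset.mem_union_left _ hx), fun hy => hxy.2.2 (Finset.mem_union_left _ hy)⟩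
    have e1 := hC1 k3 m3 (Ne.symm h13) b3 nb3 ab3 m0 s2 hNM0
    have e2 := hC2 k3 m3 (Ne.symm h23) b3 nb3 ab3 m0 s2 hNM0
    have hCC : C1 = C2' := by
      have : (C1 - C2') • rf s2 (p0 b3) = 0 := by rw [sub_smul, ← e1, ← e2, sub_self]
      rcases smul_eq_zero.mp this with h' | h'
      · linarith
      · exact absurd h' hne
    refine ⟨C1, fun k hk a ha hka m t2 hm => ?_⟩
    by_cases hk1 : k = k1
    · rw [hCC]; exact hC2 k hk (by rw [hk1]; exact h12) a ha hka m t2 hm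
    · exact hC1 k hk hk1 a ha hka m t2 hm
  obtain ⟨C, hC⟩ := key
  intro m hm x y hx hy ⟨kx, hkx, akx⟩ ⟨ky, hky, aky⟩
  -- extend and normalise
  obtain ⟨me, hme, heq⟩ := tri_ext G v a1 a2 B K1 K2 p0 r h htri p0 hp0 m hm
  have hB0 : ∀ b ∈ B, ∀ b' ∈ B, dd p0 m b b' = 0 := by
    intro b hb b' hb'
    have := h.rB p0 hp0 me hme b hb b' hb'
    unfold dd at this ⊢
    rw [heq b (Finset.disjoint_left.mp dBK1 hb), heq b' (Finset.disjoint_left.mp dBK1 hb')] at this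
    exact this
  have hK20 : ∀ b ∈ K2, ∀ b' ∈ K2, dd p0 m b b' = 0 := by
    intro b hb b' hb'
    have := h.r2 p0 hp0 me hme b hb b' hb'
    unfold dd at this ⊢
    rw [heq b (fun hk1 => Finset.disjoint_left.mp dK hk1 hb),
      heq b' (fun hk1 => Finset.disjoint_left.mp dK hk1 hb')] at this
    exact this
  obtain ⟨b1, b2, b3, h12, h13, h23, hBe⟩ := Finset.card_eq_three.mp h.cB
  have m1 : b1 ∈ B := by rw [hBe]; simp
  have m2 : b2 ∈ B := by rw [hBe]; simp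
  have m3 : b3 ∈ B := by rw [hBe]; simp
  obtain ⟨t, m', hm', z1, z2, z3, hdd⟩ := normalize p0 m hGP b1 b2 b3 h12 h13 h23 (hB0 b1 m1 b2 m2)
    (hB0 b1 m1 b3 m3) (hB0 b2 m2 b3 m3)
  obtain ⟨t2, ht2⟩ := rig_part K2 h.c2 p0 m' hGP (fun a ha b hb => by rw [hdd]; exact hK20 a ha b hb)
  have hNM : NM G v a1 a2 B K1 K2 p0 m' t2 := by
    refine ⟨fun a b hab => by rw [hdd]; exact hm a b hab, fun b hb => ?_, ht2⟩
    rw [hBe] at hb
    simp only [Finset.mem_insert, Finset.mem_singleton] at hb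
    rcases hb with rfl | rfl | rfl
    · exact z1
    · exact z2
    · exact z3
  rw [← hdd]
  unfold dd
  rw [hC kx hkx x hx akx m' t2 hNM, hC ky hky y hy aky m' t2 hNM, ← smul_sub, dotProduct_smul, rf_dot,
    smul_zero]

end Pool.Agent.Reg5.J2536
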