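import Pool.Agent.Helper927.R5Defs
import Pool.Agent.Helper927.R5x2257
import Pool.Agent.Helper927.R5x2258
import Pool.Agent.Helper927.R5x2259
import Pool.Agent.Helper927.R5x2260
set_option autoImplicit false
set_option maxHeartbeats 4000000

namespace Pool.Agent.Reg5.J2538
open Pool.Agent.Reg5
open Pool.Agent.Reg5.J2259 (bt_deg)
open Pool.Agent.Reg5.J2259 (bt_max)
open Pool.Agent.Reg5.J2259 (bt_out)
open Pool.Agent.Reg5.J2258 (dg_del)
open Pool.Agent.Reg5.J2258 (dg_del_mem)
open Pool.Agent.Reg5.J2258 (dg_disj)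
open Pool.Agent.Reg5.J2258 (dg_ge)
open Pool.Agent.Reg5.J2258 (dg_insert)
open Pool.Agent.Reg5.J2258 (dg_mono)
open Pool.Agent.Reg5.J2258 (ie_del)
open Pool.Agent.Reg5.J2257 (ie_handshake)
open Pool.Agent.Reg5.J2257 (ie_insert)
open Pool.Agent.Reg5.J2260 (sparse_del)


theorem dg_le_card {V : Type} [Fintype V] [DecidableEq V] (G : SimpleGraph V) (X : Finset V) (a : V) :
    dg G X a ≤ X.card := by
  classical
  unfold dg
  exact Finset.card_filter_le _ _

theorem dg_split {V : Type} [Fintype V] [DecidableEq V] (G : SimpleGraph V) (K : Finset V) (a : V) :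
    dg G Finset.univ a = dg G (Finset.univ \ K) a + dg G K a := by
  rw [← dg_disj G _ _ a Finset.sdiff_disjoint, Finset.sdiff_union_of_subset (Finset.subset_univ K)]

theorem dg_swap {V : Type} [Fintype V] [DecidableEq V] (G : SimpleGraph V) (K A : Finset V) :
    ∑ x ∈ A, dg G K x = ∑ k ∈ K, dg G A k := by
  unfold dg
  simp only [Finset.card_filter]
  rw [Finset.sum_comm]
  apply Finset.sum_congr rfl
  intro k _
  apply Finset.sum_congr rfl
  intro x _
  by_cases h : G.Adj k x
  · rw [if_pos h, if_pos h.symm]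
  · rw [if_neg h, if_neg (fun h' => h h'.symm)]

theorem tri_ext {V : Type} [Fintype V] [DecidableEq V] (H : SimpleGraph V) (K A : Finset V)
    (hK : K.card = 3) (htri : ∀ x ∈ K, ∀ y ∈ K, x ≠ y → H.Adj x y) (hdK : ∀ x ∈ K, dg H Finset.univ x = 4)
    (hA : ∀ a, a ∈ A ↔ (a ∉ K ∧ ∃ k ∈ K, H.Adj k a)) (X : Finset V) (hX : Disjoint X K) (hAX : A ⊆ X) :
    (∀ k ∈ K, dg H X k = 2) ∧ ie H (X ∪ K) = ie H X + 9 := by
  have h2 : ∀ k ∈ K, dg H K k = 2 := by
    intro k hk
    have e : dg H K k = dg H (K.erase k) k := by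
      conv_lhs => rw [← Finset.insert_erase hk]
      exact (dg_insert H (K.erase k) k k (Finset.notMem_erase k K)).2 (H.loopless.irrefl k)
    rw [e]
    have hc : (K.erase k).card = 2 := by rw [Finset.card_erase_of_mem hk, hK]
    apply le_antisymm
    · rw [← hc]; exact dg_le_card _ _ _
    · rw [← hc]
      apply dg_ge H _ _ k (Finset.Subset.refl _)
      intro x hx
      rw [Finset.mem_erase] at hx
      exact htri k hk x hx.2 (Ne.symm hx.1)
  have h3 : ∀ k ∈ K, dg H X k = 2 := by
    intro k hk
    have h4 := dg_split H K k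
    rw [hdK k hk, h2 k hk] at h4
    have h5 : dg H (Finset.univ \ K) k = 2 := by omega
    rw [← h5]
    unfold dg
    congr 1
    ext x
    simp only [Finset.mem_filter, Finset.mem_sdiff, Finset.mem_univ, true_and]
    constructor
    · rintro ⟨hx, hadj⟩
      exact ⟨fun hxK => (Finset.disjoint_left.1 hX hx hxK), hadj⟩
    · rintro ⟨hx, hadj⟩
      exact ⟨hAX ((hA x).2 ⟨hx, k, hk, hadj⟩), hadj⟩
  refine ⟨h3, ?_⟩
  obtain ⟨k1, k2, k3, h12, h13, h23, rfl⟩ := Finset.card_eq_three.1 hK
  have m1 : k1 ∈ ({k1, k2, k3} : Finset V) := by simp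
  have m2 : k2 ∈ ({k1, k2, k3} : Finset V) := by simp
  have m3 : k3 ∈ ({k1, k2, k3} : Finset V) := by simp
  have n1 : k1 ∉ X := fun h => Finset.disjoint_left.1 hX h m1
  have n2 : k2 ∉ X := fun h => Finset.disjoint_left.1 hX h m2
  have n3 : k3 ∉ X := fun h => Finset.disjoint_left.1 hX h m3
  have e : X ∪ {k1, k2, k3} = insert k3 (insert k2 (insert k1 X)) := by
    ext x
    simp only [Finset.mem_union, Finset.mem_insert, Finset.mem_singleton]
    tauto
  have n2' : k2 ∉ insert k1 X := by
    rw [Finset.mem_insert]; rintro (h | h)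
    · exact h12 h.symm
    · exact n2 h
  have n3' : k3 ∉ insert k2 (insert k1 X) := by
    rw [Finset.mem_insert, Finset.mem_insert]; rintro (h | h | h)
    · exact h23 h.symm
    · exact h13 h.symm
    · exact n3 h
  rw [e, ie_insert H _ _ n3', ie_insert H _ _ n2', ie_insert H _ _ n1]
  have d1 := h3 k1 m1
  have d2 : dg H (insert k1 X) k2 = 3 := by
    rw [(dg_insert H X k2 k1 n1).1 (htri k2 m2 k1 m1 (Ne.symm h12)), h3 k2 m2]
  have d3 : dg H (insert k2 (insert k1 X)) k3 = 4 := by
    rw [(dg_insert H (insert k1 X) k3 k2 n2').1 (htri k3 m3 k2 m2 (Ne.symm h23)),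
      (dg_insert H X k3 k1 n1).1 (htri k3 m3 k1 m1 (Ne.symm h13)), h3 k3 m3]
  omega

/-- complete sets -/
theorem ie_clique {V : Type} [Fintype V] [DecidableEq V] (G : SimpleGraph V) (X : Finset V)
    (h : ∀ x ∈ X, ∀ y ∈ X, x ≠ y → G.Adj x y) : 2 * ie G X = X.card * (X.card - 1) := by
  rw [← ie_handshake, Finset.sum_const_nat (m := X.card - 1)]
  intro x hx
  have e : dg G X x = dg G (X.erase x) x := by
    conv_lhs => rw [← Finset.insert_erase hx]
    exact (dg_insert G (X.erase x) x x (Finset.notMem_erase x X)).2 (G.loopless.irrefl x)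
  rw [e]
  have hc : (X.erase x).card = X.card - 1 := Finset.card_erase_of_mem hx
  apply le_antisymm
  · rw [← hc]; exact dg_le_card _ _ _
  · rw [← hc]
    apply dg_ge G _ _ x (Finset.Subset.refl _)
    intro y hy
    rw [Finset.mem_erase] at hy
    exact h x hx y hy.2 (Ne.symm hy.1)

theorem tri_comb {V : Type} [Fintype V] [DecidableEq V] (H : SimpleGraph V) (hs : Sparse H) (K A : Finset V)
    (hK : K.card = 3) (htri : ∀ x ∈ K, ∀ y ∈ K, x ≠ y → H.Adj x y) (hdK : ∀ x ∈ K, dg H Finset.univ x = 4)
    (hA : ∀ a, a ∈ A ↔ (a ∉ K ∧ ∃ k ∈ K, H.Adj k a)) (hdA : ∀ a ∈ A, dg H Finset.univ a ≤ 5)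
    (hJ : ∀ x ∈ A, ∀ y ∈ A, x ≠ y → J (del H K) x y) : ∃ X, BT H X ∧ K ⊆ X := by
  have hAK : Disjoint A K := by
    rw [Finset.disjoint_left]
    intro a ha hk
    exact ((hA a).1 ha).1 hk
  -- the extension principle
  have ext : ∀ X : Finset V, Disjoint X K → A ⊆ X → ie H X + 6 ≤ 3 * X.card ∧
      (ie H X + 6 = 3 * X.card → 1 ≤ X.card → BT H (X ∪ K)) := by
    intro X hX hAX
    have h1 := (tri_ext H K A hK htri hdK hA X hX hAX).2
    have hc : (X ∪ K).card = X.card + 3 := by
      rw [Finset.card_union_of_disjoint hX, hK]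
    have h2 := hs (X ∪ K) (by omega)
    constructor
    · omega
    · intro h3 h4
      exact ⟨by omega, by omega⟩
  have dA := (tri_ext H K A hK htri hdK hA A hAK (Finset.Subset.refl A)).1
  obtain ⟨k0, hk0⟩ : K.Nonempty := by rw [← Finset.card_pos]; omega
  have hA2 : 2 ≤ A.card := by
    rw [← dA k0 hk0]; exact dg_le_card _ _ _
  have fin : ∀ X : Finset V, Disjoint X K → A ⊆ X → ie H X + 6 = 3 * X.card →
      ∃ X, BT H X ∧ K ⊆ X := by
    intro X hX hAX h
    refine ⟨X ∪ K, (ext X hX hAX).2 h ?_, Finset.subset_union_right⟩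
    have := Finset.card_le_card hAX
    omega
  by_cases hcl : ∀ x ∈ A, ∀ y ∈ A, x ≠ y → H.Adj x y
  · -- all pairs adjacent
    have h1 := ie_clique H A hcl
    have h2 := (ext A hAK (Finset.Subset.refl A)).1
    apply fin A hAK (Finset.Subset.refl A)
    obtain ⟨n, hn⟩ : ∃ n, A.card = n := ⟨_, rfl⟩
    rw [hn] at h1 h2 hA2 ⊢
    have hn5 : n ≤ 4 := by
      by_contra hcon
      push Not at hcon
      obtain ⟨X, hXA, hXc⟩ := Finset.exists_subset_card_eq (show 5 ≤ A.card by omega)
      have h3 := ie_clique H X (fun x hx y hy => hcl x (hXA hx) y (hXA hy))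
      have h4 := hs X (by omega)
      rw [hXc] at h3 h4
      omega
    interval_cases n <;> omega
  · push Not at hcl
    obtain ⟨a, ha, a', ha', hne, hnadj⟩ := hcl
    have haK := ((hA a).1 ha).1
    have ha'K := ((hA a').1 ha').1
    rcases hJ a ha a' ha' hne with h | ⟨X1, hX1, haX1, ha'X1⟩
    · exact absurd h.1 hnadj
    obtain ⟨X0, hX10, hX0, hmax⟩ := bt_max (del H K) X1 hX1
    have hs' := sparse_del H hs K
    have haX : a ∈ X0 := hX10 haX1
    have ha'X : a' ∈ X0 := hX10 ha'X1
    have hXK : Disjoint X0 K := by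
      rw [Finset.disjoint_left]
      intro x hx hxK
      have h1 := bt_deg (del H K) hs' X0 hX0 x hx
      rw [dg_del_mem H K X0 x hxK] at h1
      omega
    have hieX : ie (del H K) X0 = ie H X0 := by
      rw [ie_del, Finset.sdiff_eq_self_of_disjoint hXK]
    by_cases hAX : A ⊆ X0
    · apply fin X0 hXK hAX
      rw [← hieX]
      exact hX0.2
    · exfalso
      obtain ⟨b, hbA, hbX⟩ := Finset.not_subset.1 hAX
      -- degrees in H'
      have hdeg : ∀ x ∈ A, dg H Finset.univ x = dg (del H K) Finset.univ x + dg H K x := by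
        intro x hx
        have hxK := ((hA x).1 hx).1
        rw [dg_del H K Finset.univ x hxK]
        exact dg_split H K x
      have hK1 : ∀ x ∈ A, 1 ≤ dg H K x := by
        intro x hx
        obtain ⟨k, hk, hadj⟩ := ((hA x).1 hx).2
        have := dg_ge H K {k} x (Finset.singleton_subset_iff.2 hk) (by
          intro y hy
          rw [Finset.mem_singleton] at hy
          rw [hy]; exact hadj.symm)
        simpa using this
      have hd4 : ∀ x ∈ A, dg (del H K) Finset.univ x ≤ 4 := by
        intro x hx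
        have h1 := hdeg x hx
        have h2 := hK1 x hx
        have h3 := hdA x hx
        omega
      have hadj : ∀ x ∈ A, x ∈ X0 → ∀ b ∈ A, b ∉ X0 → (del H K).Adj x b := by
        intro x hx hxX b hb hbX
        apply bt_out (del H K) hs' X0 hX0 hmax x b hxX (hd4 x hx) hbX
        apply hJ x hx b hb
        rintro rfl
        exact hbX hxX
      have hfour : ∀ x ∈ A, x ∈ X0 → 3 + (A \ X0).card ≤ dg (del H K) Finset.univ x := by
        intro x hx hxX
        have h1 := bt_deg (del H K) hs' X0 hX0 x hxX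
        have h2 := dg_disj (del H K) X0 (A \ X0) x Finset.disjoint_sdiff
        have h3 := dg_mono (del H K) (Finset.subset_univ (X0 ∪ (A \ X0))) x
        have h4 : (A \ X0).card ≤ dg (del H K) (A \ X0) x := by
          apply dg_ge _ _ _ _ (Finset.Subset.refl _)
          intro y hy
          rw [Finset.mem_sdiff] at hy
          exact hadj x hx hxX y hy.1 hy.2
        omega
      have hcard1 : (A \ X0).card = 1 := by
        have h1 := hfour a ha haX
        have h2 := hd4 a ha
        have h3 : 1 ≤ (A \ X0).card := Finset.card_pos.2 ⟨b, Finset.mem_sdiff.2 ⟨hbA, hbX⟩⟩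
        omega
      have hAX2 : (A ∩ X0).card ≤ 2 := by
        by_contra hcon
        push Not at hcon
        have h1 : (A ∩ X0).card ≤ dg (del H K) X0 b := by
          apply dg_ge _ _ _ _ Finset.inter_subset_right
          intro y hy
          rw [Finset.mem_inter] at hy
          exact (hadj y hy.1 hy.2 b hbA hbX).symm
        have h2 := ie_insert (del H K) X0 b hbX
        have h3 := Finset.card_insert_of_notMem hbX
        have h4 := hX0.1
        have h5 := hX0.2
        have h6 := hs' (insert b X0) (by omega)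
        have h7 : BT (del H K) (insert b X0) := ⟨by omega, by omega⟩
        have h8 := hmax _ h7 (Finset.subset_insert b X0)
        rw [h8] at h3
        omega
      have hAcard : A.card ≤ 3 := by
        have := Finset.card_sdiff_add_card_inter A X0
        omega
      have hAeq : A = {a, a', b} := by
        symm
        apply Finset.eq_of_subset_of_card_le
        · intro x hx
          simp only [Finset.mem_insert, Finset.mem_singleton] at hx
          rcases hx with rfl | rfl | rfl
          · exact ha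
          · exact ha'
          · exact hbA
        · have : ({a, a', b} : Finset V).card = 3 := by
            apply Finset.card_eq_three.2
            refine ⟨a, a', b, hne, ?_, ?_, rfl⟩
            · rintro rfl; exact hbX haX
            · rintro rfl; exact hbX ha'X
          omega
      have hne1 : a ≠ b := by rintro rfl; exact hbX haX
      have hne2 : a' ≠ b := by rintro rfl; exact hbX ha'X
      have hsum : ∑ x ∈ A, dg H K x = 6 := by
        rw [dg_swap, Finset.sum_congr rfl dA, Finset.sum_const, hK]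
        rfl
      have hsum2 : ∑ x ∈ A, dg H K x = dg H K a + dg H K a' + dg H K b := by
        rw [hAeq, Finset.sum_insert (by simp [hne, hne1]), Finset.sum_insert (by simp [hne2]),
          Finset.sum_singleton]
        ring
      have c1 := hfour a ha haX
      have c2 := hfour a' ha' ha'X
      have c3 := hdeg a ha
      have c4 := hdeg a' ha'
      have c5 := hdA a ha
      have c6 := hdA a' ha'
      have c7 := dg_le_card H K b
      omega

end Pool.Agent.Reg5.J2538
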