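import Pool.Agent.Helper927.R5Defs
import Pool.Agent.Helper927.R5x2258
import Pool.Agent.Helper927.R5x2259
import Pool.Agent.Helper927.R5x2260
import Pool.Agent.Helper927.R5x2263
import Pool.Agent.Helper927.R5x2273
import Pool.Agent.Helper927.R5x2533
import Pool.Agent.Helper927.R5x2534
import Pool.Agent.Helper927.R5x2535
import Pool.Agent.Helper927.R5x2536
import Pool.Agent.Helper927.R5x2538
set_option autoImplicit false
set_option maxHeartbeats 4000000

namespace Pool.Agent.Reg5.J2539
open Pool.Agent.Reg5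
open Pool.Agent.Reg5.J2533 (C2_J)
open Pool.Agent.Reg5.J2534 (C2_all)
open Pool.Agent.Reg5.J2535 (C2_pair)
open Pool.Agent.Reg5.J2536 (C2_tri_rigid)
open Pool.Agent.Reg5.J2263 (SF_mono)
open Pool.Agent.Reg5.J2259 (bt_max)
open Pool.Agent.Reg5.J2260 (cls_del)
open Pool.Agent.Reg5.J2258 (dg_del)
open Pool.Agent.Reg5.J2258 (dg_disj)
open Pool.Agent.Reg5.J2258 (dg_ge)
open Pool.Agent.Reg5.J2258 (dg_insert)
open Pool.Agent.Reg5.J2258 (ie_mono_graph)
open Pool.Agent.Reg5.J2258 (ie_univ_del)
open Pool.Agent.Reg5.J2273 (implied_J)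
open Pool.Agent.Reg5.J2538 (tri_comb)


theorem C2f_caseA {V : Type} [Fintype V] [DecidableEq V] (G : SimpleGraph V) (v a1 a2 : V) (B K1 K2 : Finset V)
    (p0 : V → Fin 3 → ℝ) (r : ℝ) (h : C2 G v a1 a2 B K1 K2 p0 r)
    (x y z : V) (hx : x ∈ K1) (hy : y ∈ K1) (hz : z ∈ K1) (hxy : x ≠ y) (hxz : x ≠ z) (hyz : y ≠ z)
    (hadj : ¬ G.Adj x y) : False := by
  obtain ⟨hI, hS, dB1, dB2, d12, hdeg4, JB, J1, J2⟩ := C2_J G v a1 a2 B K1 K2 p0 r h
  rcases J1 x hx y hy hxy with h1 | ⟨X, hX, hxX, hyX⟩
  · exact hadj h1.1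
  · obtain ⟨X', hXX', hX', hmax⟩ := bt_max _ X hX
    by_cases hzX : z ∈ X'
    · apply C2_all G v a1 a2 B K1 K2 p0 r h X' hX'
      have hsub : ({x, y, z} : Finset V) = K1 := by
        apply Finset.eq_of_subset_of_card_le
        · intro w hw
          simp only [Finset.mem_insert, Finset.mem_singleton] at hw
          rcases hw with rfl | rfl | rfl <;> assumption
        · rw [h.c1, Finset.card_eq_three.2 ⟨x, y, z, hxy, hxz, hyz, rfl⟩]
      rw [← hsub]
      intro w hw
      simp only [Finset.mem_insert, Finset.mem_singleton] at hw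
      rcases hw with rfl | rfl | rfl
      · exact hXX' hxX
      · exact hXX' hyX
      · exact hzX
    · exact C2_pair G v a1 a2 B K1 K2 p0 r h X' hX' hmax x y z hx hy hz hxy hxz hyz
        (hXX' hxX) (hXX' hyX) hzX hadj

theorem C2f_dg_empty {V : Type} [Fintype V] [DecidableEq V] (G : SimpleGraph V) (a : V) :
    dg G ∅ a = 0 := by
  simp [dg]

theorem C2f_del_del {V : Type} [Fintype V] [DecidableEq V] (G : SimpleGraph V) (S T : Finset V) :
    del (del G S) T = del G (S ∪ T) := by
  ext a b
  simp only [del, Finset.mem_union]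
  tauto

theorem C2f_del_le {V : Type} [Fintype V] [DecidableEq V] (G : SimpleGraph V) {S T : Finset V}
    (hST : S ⊆ T) : del G T ≤ del G S := by
  intro a b hab
  exact ⟨hab.1, fun hh => hab.2.1 (hST hh), fun hh => hab.2.2 (hST hh)⟩

theorem C2_false {V : Type} [Fintype V] [DecidableEq V] (G : SimpleGraph V) (v a1 a2 : V) (B K1 K2 : Finset V)
    (p0 : V → Fin 3 → ℝ) (r : ℝ) (h : C2 G v a1 a2 B K1 K2 p0 r)
    (hd : ∀ a, dg G Finset.univ a = 0 ∨ dg G Finset.univ a = 5) : False := by
  classical
  by_cases htri : ∀ x ∈ K1, ∀ y ∈ K1, x ≠ y → G.Adj x y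
  swap
  · push Not at htri
    obtain ⟨x, hx, y, hy, hxy, hadj⟩ := htri
    -- third element
    obtain ⟨z, hz, hzx, hzy⟩ : ∃ z ∈ K1, z ≠ x ∧ z ≠ y := by
      have hc : ({x, y} : Finset V).card < K1.card := by
        rw [h.c1]
        exact lt_of_le_of_lt Finset.card_le_two (by norm_num)
      obtain ⟨z, hz, hz'⟩ := Finset.exists_mem_notMem_of_card_lt_card hc
      simp only [Finset.mem_insert, Finset.mem_singleton, not_or] at hz'
      exact ⟨z, hz, hz'.1, hz'.2⟩
    exact C2f_caseA G v a1 a2 B K1 K2 p0 r h x y z hx hy hz hxy hzx.symm hzy.symm hadj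
  · obtain ⟨hI, hS, dB1, dB2, d12, hdeg4, JB, J1, J2⟩ := C2_J G v a1 a2 B K1 K2 p0 r h
    have hadj1 : ∀ x ∈ K1, G.Adj x a1 := fun x hx => ((h.N1 x).2 (Or.inr (Or.inr hx))).symm
    have hone : ∀ x y, G.Adj x y → dg G Finset.univ x = 5 := by
      intro x y hxy
      rcases hd x with h0 | h5
      · exfalso
        have := dg_ge G Finset.univ {y} x (Finset.subset_univ _) (by
          intro w hw
          rw [Finset.mem_singleton] at hw
          rw [hw]; exact hxy)
        rw [h0, Finset.card_singleton] at this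
        omega
      · exact h5
    have hdeg5 : ∀ x ∈ K1, dg G Finset.univ x = 5 := fun x hx => hone x a1 (hadj1 x hx)
    have hrig := C2_tri_rigid G v a1 a2 B K1 K2 p0 r h htri hdeg5
    have hGood : Good p0 := h.good p0 (fun a i => by simpa using h.hr)
    set H12 := del G {v, a1, a2} with hH12
    set S : Finset V := {v, a1, a2} ∪ K1 with hSdef
    set A : Finset V := Finset.univ.filter (fun a => a ∉ K1 ∧ ∃ k ∈ K1, H12.Adj k a) with hAdef
    have hAmem : ∀ a, a ∈ A ↔ (a ∉ K1 ∧ ∃ k ∈ K1, H12.Adj k a) := by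
      intro a; rw [hAdef, Finset.mem_filter]; simp
    have hHind : Ind (del G S) := by
      obtain ⟨p, hp⟩ := hI
      exact ⟨p, SF_mono (C2f_del_le G Finset.subset_union_left) p hp⟩
    have hva1 : G.Adj v a1 := (h.Nv a1).2 (Or.inl rfl)
    have hlt : ie (del G S) Finset.univ + 1 < ie G Finset.univ := by
      have h1 := ie_univ_del G v
      have h2 := hone v a1 hva1
      have h3 : ie (del G S) Finset.univ ≤ ie (del G {v}) Finset.univ := by
        apply ie_mono_graph
        apply C2f_del_le
        intro w hw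
        rw [Finset.mem_singleton] at hw
        rw [hw, hSdef]; simp
      omega
    have hdegA : ∀ x ∈ A, dg (del G S) Finset.univ x ≤ 4 := by
      intro x hx
      obtain ⟨hxK, k, hk, hkx⟩ := (hAmem x).1 hx
      have hxS : x ∉ S := by
        rw [hSdef, Finset.mem_union, not_or]
        exact ⟨hkx.2.2, hxK⟩
      rw [dg_del G S Finset.univ x hxS]
      have h1 : dg G ((Finset.univ \ S) ∪ S) x = dg G (Finset.univ \ S) x + dg G S x :=
        dg_disj G _ _ x Finset.sdiff_disjoint
      have h2 : (Finset.univ \ S) ∪ S = Finset.univ := by simp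
      rw [h2] at h1
      have h3 := h.cls.2 x
      have h4 := dg_ge G S {k} x (by
        intro w hw
        rw [Finset.mem_singleton] at hw
        rw [hw, hSdef, Finset.mem_union]; exact Or.inr hk) (by
          intro w hw
          rw [Finset.mem_singleton] at hw
          rw [hw]; exact hkx.1.symm)
      rw [Finset.card_singleton] at h4
      omega
    have hJ : ∀ x ∈ A, ∀ y ∈ A, x ≠ y → J (del H12 K1) x y := by
      intro x hx y hy hxy
      rw [hH12, C2f_del_del]
      obtain ⟨hxK, kx, hkx, hkx'⟩ := (hAmem x).1 hx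
      obtain ⟨hyK, ky, hky, hky'⟩ := (hAmem y).1 hy
      exact implied_J (del G S) p0 hGood (cls_del G h.cls S) hHind (ie G Finset.univ) h.IH hlt x y
        hxy (hdegA x hx) (hdegA y hy)
        (fun m hm => hrig m hm x y hxK hyK ⟨kx, hkx, hkx'⟩ ⟨ky, hky, hky'⟩)
    have hdK : ∀ x ∈ K1, dg H12 Finset.univ x = 4 := by
      intro x hx
      have hxT : x ∉ ({v, a1, a2} : Finset V) := by
        simp only [Finset.mem_insert, Finset.mem_singleton, not_or]
        refine ⟨?_, ?_, ?_⟩
        · rintro rfl; exact h.hv.2.1 hx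
        · rintro rfl; exact h.ha1.2.1 hx
        · rintro rfl; exact h.ha2.2.1 hx
      have hxT' := hxT
      simp only [Finset.mem_insert, Finset.mem_singleton, not_or] at hxT'
      rw [hH12, dg_del G _ Finset.univ x hxT]
      have h1 : dg G ((Finset.univ \ {v, a1, a2}) ∪ {v, a1, a2}) x
          = dg G (Finset.univ \ {v, a1, a2}) x + dg G {v, a1, a2} x :=
        dg_disj G _ _ x Finset.sdiff_disjoint
      have h2 : (Finset.univ \ ({v, a1, a2} : Finset V)) ∪ {v, a1, a2} = Finset.univ :=
        Finset.sdiff_union_of_subset (Finset.subset_univ _)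
      rw [h2, hdeg5 x hx] at h1
      have hnv : ¬ G.Adj x v := by
        intro hh
        rcases (h.Nv x).1 hh.symm with h3 | h3 | h3
        · exact hxT'.2.1 h3
        · exact hxT'.2.2 h3
        · exact Finset.disjoint_left.1 dB1 h3 hx
      have hn2 : ¬ G.Adj x a2 := by
        intro hh
        rcases (h.N2 x).1 hh.symm with h3 | h3 | h3
        · exact hxT'.1 h3
        · exact hxT'.2.1 h3
        · exact Finset.disjoint_left.1 d12 hx h3
      have e1 : dg G {a2} x = 0 := by
        have := (dg_insert G ∅ x a2 (by simp)).2 hn2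
        rw [C2f_dg_empty] at this
        simpa using this
      have e2 : dg G {a1, a2} x = 1 := by
        have := (dg_insert G {a2} x a1 (by simpa using h.hva.2.2)).1 (hadj1 x hx)
        rw [e1] at this
        simpa using this
      have e3 : dg G {v, a1, a2} x = 1 := by
        have := (dg_insert G {a1, a2} x v (by simpa using ⟨h.hva.1, h.hva.2.1⟩)).2 hnv
        rw [e2] at this
        simpa using this
      omega
    obtain ⟨X, hX, hKX⟩ := tri_comb H12 hS K1 A h.c1
      (fun x hx y hy hxy => ⟨htri x hx y hy hxy, (by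
        simp only [Finset.mem_insert, Finset.mem_singleton, not_or]
        refine ⟨?_, ?_, ?_⟩
        · rintro rfl; exact h.hv.2.1 hx
        · rintro rfl; exact h.ha1.2.1 hx
        · rintro rfl; exact h.ha2.2.1 hx), (by
        simp only [Finset.mem_insert, Finset.mem_singleton, not_or]
        refine ⟨?_, ?_, ?_⟩
        · rintro rfl; exact h.hv.2.1 hy
        · rintro rfl; exact h.ha1.2.1 hy
        · rintro rfl; exact h.ha2.2.1 hy)⟩) hdK hAmem
      (fun a _ => (cls_del G h.cls _).2 a) hJ
    exact C2_all G v a1 a2 B K1 K2 p0 r h X hX hKX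

end Pool.Agent.Reg5.J2539
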