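import Pool.Agent.Helper927.R5Defs
import Pool.Agent.Helper927.R5x2258
import Pool.Agent.Helper927.R5x2270
import Pool.Agent.Helper927.R5x2524
import Pool.Agent.Helper927.R5x2526
import Pool.Agent.Helper927.R5x2531
import Pool.Agent.Helper927.R5x2539
set_option autoImplicit false
set_option maxHeartbeats 4000000

namespace Pool.Agent.Reg5.J2541
open Pool.Agent.Reg5
open Pool.Agent.Reg5.J2539 (C2_false)
open Pool.Agent.Reg5.J2524 (III_core)
open Pool.Agent.Reg5.J2526 (III_final)
open Pool.Agent.Reg5.J2531 (II_two)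
open Pool.Agent.Reg5.J2258 (dg_ge)
open Pool.Agent.Reg5.J2270 (exists_box)


theorem enum5 {V : Type} [Fintype V] [DecidableEq V] (G : SimpleGraph V) (a : V)
    (h : dg G Finset.univ a = 5) : ∃ n : Fin 5 → V, Function.Injective n ∧ ∀ x, G.Adj a x ↔ ∃ j, n j = x := by
  classical
  unfold dg at h
  let e := Finset.equivFinOfCardEq h
  refine ⟨fun j => ((e.symm j : _) : V), ?_, ?_⟩
  · intro i j hij
    exact e.symm.injective (Subtype.ext hij)
  · intro x
    constructor
    · intro hx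
      refine ⟨e ⟨x, ?_⟩, ?_⟩
      · simp [hx]
      · simp
    · rintro ⟨j, rfl⟩
      have := (e.symm j).2
      simp only [Finset.mem_filter, Finset.mem_univ, true_and] at this
      exact this

theorem core {V : Type} [Fintype V] [DecidableEq V] (G : SimpleGraph V) (hG : Cls G) (hn : ¬ Ind G)
    (hd : ∀ a, dg G Finset.univ a = 0 ∨ dg G Finset.univ a = 5)
    (IH : ∀ G' : SimpleGraph V, Cls G' → ie G' Finset.univ < ie G Finset.univ → Ind G')
    (v : V) (hv : dg G Finset.univ v = 5) : False := by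
  obtain ⟨p0, r, hr, hgood⟩ := exists_box (V := V)
  by_cases hex : ∃ a1 a2 b1 b2 b3 : V, [a1, a2, b1, b2, b3].Nodup ∧
      (∀ x, G.Adj v x ↔ (x = a1 ∨ x = a2 ∨ x = b1 ∨ x = b2 ∨ x = b3)) ∧
      (J (del G {v}) a1 a2 ∧ J (del G {v}) b1 b2 ∧ J (del G {v}) b1 b3 ∧ J (del G {v}) b2 b3)
  · obtain ⟨a1, a2, b1, b2, b3, hnd, hN, j12, j3, j4, j5⟩ := hex
    obtain ⟨K1, K2, hC⟩ := II_two G hG hn hd IH v a1 a2 b1 b2 b3 hnd hN j12 j3 j4 j5 p0 r hr hgood
    exact C2_false G v a1 a2 _ K1 K2 p0 r hC hd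
  · obtain ⟨n, hninj, hnN⟩ := enum5 G v hv
    have hi0 : G.Adj v (n 0) := (hnN _).2 ⟨0, rfl⟩
    have hdi : dg G Finset.univ (n 0) = 5 := by
      rcases hd (n 0) with h | h
      · exfalso
        have h1 := dg_ge G Finset.univ {v} (n 0) (Finset.subset_univ _) (by
          intro x hx
          rw [Finset.mem_singleton] at hx
          rw [hx]; exact hi0.symm)
        rw [h, Finset.card_singleton] at h1
        omega
      · exact h
    obtain ⟨q, hqinj, hqN⟩ := enum5 G (n 0) hdi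
    obtain ⟨k, hk⟩ := (hqN v).1 hi0.symm
    have hPinj : Function.Injective (fun j : Fin 4 => n j.succ) := fun i j hij =>
      Fin.succ_injective _ (hninj hij)
    have hQinj : Function.Injective (fun j : Fin 4 => q (k.succAbove j)) := fun i j hij =>
      Fin.succAbove_right_injective (hqinj hij)
    have hP0 : ∀ j : Fin 4, n j.succ ≠ n 0 := fun j h => Fin.succ_ne_zero j (hninj h)
    have hQv : ∀ j : Fin 4, q (k.succAbove j) ≠ v := fun j h =>
      Fin.succAbove_ne k j (hqinj (h.trans hk.symm))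
    have hN : ∀ x, G.Adj v x ↔ (x = n 0 ∨ ∃ j : Fin 4, n j.succ = x) := by
      intro x
      rw [hnN]
      constructor
      · rintro ⟨j, rfl⟩
        rcases Fin.eq_zero_or_eq_succ j with h | ⟨j', h⟩
        · left; rw [h]
        · right; exact ⟨j', by rw [h]⟩
      · rintro (h | ⟨j, h⟩)
        · exact ⟨0, h.symm⟩
        · exact ⟨j.succ, h⟩
    have hN0 : ∀ x, G.Adj (n 0) x ↔ (x = v ∨ ∃ j : Fin 4, q (k.succAbove j) = x) := by
      intro x
      rw [hqN]
      constructor
      · rintro ⟨j, rfl⟩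
        by_cases h : j = k
        · left; rw [h, hk]
        · right
          obtain ⟨z, hz⟩ := Fin.exists_succAbove_eq h
          exact ⟨z, by rw [hz]⟩
      · rintro (h | ⟨j, h⟩)
        · exact ⟨k, by rw [hk, h]⟩
        · exact ⟨k.succAbove j, h⟩
    have hpat : ∀ a1 a2 b1 b2 b3 : V, [a1, a2, b1, b2, b3].Nodup →
        (∀ x, G.Adj v x ↔ (x = a1 ∨ x = a2 ∨ x = b1 ∨ x = b2 ∨ x = b3)) →
        ¬ (J (del G {v}) a1 a2 ∧ J (del G {v}) b1 b2 ∧ J (del G {v}) b1 b3 ∧ J (del G {v}) b2 b3) := by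
      intro a1 a2 b1 b2 b3 h1 h2 h3
      exact hex ⟨a1, a2, b1, b2, b3, h1, h2, h3⟩
    have hp0 : Bx p0 r p0 := fun a i => by simpa using hr
    exact III_final G hG hd IH v (n 0) (fun j => n j.succ) (fun j => q (k.succAbove j)) hPinj hQinj hP0 hQv hN hN0
      p0 (hgood p0 hp0) (fun m hm j l => III_core G hG hn IH v (n 0) (fun j => n j.succ)
        (fun j => q (k.succAbove j)) hPinj hQinj hP0 hQv hN hN0 hpat p0 r hr hgood m hm j l)

end Pool.Agent.Reg5.J2541
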