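import Pool.Agent.Helper927.R5Defs
import Pool.Agent.Helper927.R5x2258
import Pool.Agent.Helper927.R5x2260
import Pool.Agent.Helper927.R5x2261
import Pool.Agent.Helper927.R5x2271
import Pool.Agent.Helper927.R5x2541
set_option autoImplicit false
set_option maxHeartbeats 4000000

namespace Pool.Agent.Reg5.J2542
open Pool.Agent.Reg5
open Pool.Agent.Reg5.J2261 (K4_not)
open Pool.Agent.Reg5.J2260 (cls_del)
open Pool.Agent.Reg5.J2541 (core)
open Pool.Agent.Reg5.J2258 (dg_add_left)
open Pool.Agent.Reg5.J2258 (dg_add_other)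
open Pool.Agent.Reg5.J2258 (dg_del)
open Pool.Agent.Reg5.J2258 (dg_ge)
open Pool.Agent.Reg5.J2258 (dg_insert)
open Pool.Agent.Reg5.J2258 (ie_add)
open Pool.Agent.Reg5.J2258 (ie_univ_del)
open Pool.Agent.Reg5.J2271 (ind0)
open Pool.Agent.Reg5.J2271 (ind1)
open Pool.Agent.Reg5.J2260 (sparse_add)


private lemma step4 {V : Type} [Fintype V] [DecidableEq V] (G : SimpleGraph V) (hG : Cls G)
    (IH : ∀ G' : SimpleGraph V, Cls G' → ie G' Finset.univ < ie G Finset.univ → Ind G')
    (v x y z w : V) (hnd : [x, y, z, w].Nodup) (hdv : dg G Finset.univ v = 4)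
    (hN : ∀ u, G.Adj v u ↔ (u = x ∨ u = y ∨ u = z ∨ u = w)) (hJ : ¬ J (del G {v}) x y) : Ind G := by
  have hxy : x ≠ y := by
    intro h
    subst h
    simp at hnd
  have hvx : G.Adj v x := (hN x).2 (Or.inl rfl)
  have hvy : G.Adj v y := (hN y).2 (Or.inr (Or.inl rfl))
  have hxv : x ≠ v := hvx.ne'
  have hyv : y ≠ v := hvy.ne'
  have hH := cls_del G hG {v}
  have hnH : ¬ (del G {v}).Adj x y := fun h => hJ (Or.inl h)
  have hnG : ¬ G.Adj x y := by
    intro h
    apply hnH
    exact ⟨h, by rw [Finset.mem_singleton]; exact hxv, by rw [Finset.mem_singleton]; exact hyv⟩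
  have hdeg : ∀ u, u ≠ v → G.Adj v u → dg (del G {v}) Finset.univ u + 1 ≤ 5 := by
    intro u huv hvu
    rw [dg_del G {v} Finset.univ u (by rw [Finset.mem_singleton]; exact huv)]
    have h1 := (dg_insert G (Finset.univ \ {v}) u v (by simp)).1 hvu.symm
    have h2 : insert v (Finset.univ \ {v}) = (Finset.univ : Finset V) := by
      ext t; by_cases ht : t = v <;> simp [ht]
    rw [h2] at h1
    have h3 := hG.2 u
    omega
  have hcls : Cls (add (del G {v}) x y) := by
    refine ⟨sparse_add _ hH.1 x y hxy hJ, fun u => ?_⟩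
    by_cases hux : u = x
    · subst hux
      rw [(dg_add_left _ u y hxy hnH).1]
      exact hdeg u hxv hvx
    · by_cases huy : u = y
      · subst huy
        rw [(dg_add_left _ x u hxy hnH).2]
        exact hdeg u hyv hvy
      · rw [dg_add_other _ x y u hux huy]
        exact hH.2 u
  have hie : ie (add (del G {v}) x y) Finset.univ < ie G Finset.univ := by
    have h1 := ie_add (del G {v}) x y hxy hnH Finset.univ
    rw [if_pos ⟨Finset.mem_univ _, Finset.mem_univ _⟩] at h1
    have h2 := ie_univ_del G v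
    omega
  exact ind1 G v x y z w hnd hN hnG (IH _ hcls hie)

theorem main_ind {V : Type} [Fintype V] [DecidableEq V] (G : SimpleGraph V) (hG : Cls G) : Ind G := by
  classical
  obtain ⟨n, hn⟩ : ∃ n, n = ie G Finset.univ := ⟨_, rfl⟩
  induction n using Nat.strong_induction_on generalizing G with
  | _ n ih =>
  have IH : ∀ G' : SimpleGraph V, Cls G' → ie G' Finset.univ < ie G Finset.univ → Ind G' :=
    fun G' hG' hlt => ih _ (by rw [hn]; exact hlt) G' hG' rfl
  by_cases ha : ∃ v, 1 ≤ dg G Finset.univ v ∧ dg G Finset.univ v ≤ 3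
  · obtain ⟨v, h1, h3⟩ := ha
    refine ind0 G v h3 (IH _ (cls_del G hG {v}) ?_)
    have := ie_univ_del G v
    omega
  push Not at ha
  by_cases hb : ∃ v, dg G Finset.univ v = 4
  · obtain ⟨v, hv⟩ := hb
    have hcard : (Finset.univ.filter (fun x => G.Adj v x)).card = 4 := by
      have h1 := hv
      unfold dg at h1
      convert h1
    obtain ⟨a, ha'⟩ : (Finset.univ.filter (fun x => G.Adj v x)).Nonempty := by
      rw [← Finset.card_pos]; omega
    have hcard3 : ((Finset.univ.filter (fun x => G.Adj v x)).erase a).card = 3 := by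
      rw [Finset.card_erase_of_mem ha', hcard]
    obtain ⟨b, c, d, hbc, hbd, hcd, hset⟩ := Finset.card_eq_three.1 hcard3
    have hmem : ∀ x, G.Adj v x ↔ (x = a ∨ x = b ∨ x = c ∨ x = d) := by
      intro x
      have h1 : x ∈ (Finset.univ.filter (fun x => G.Adj v x)).erase a ↔ x ∈ ({b, c, d} : Finset V) := by
        rw [hset]
      rw [Finset.mem_erase, Finset.mem_filter] at h1
      simp only [Finset.mem_insert, Finset.mem_singleton] at h1
      by_cases hxa : x = a
      · subst hxa
        rw [Finset.mem_filter] at ha'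
        exact ⟨fun _ => Or.inl rfl, fun _ => ha'.2⟩
      · constructor
        · intro h; exact Or.inr (h1.1 ⟨hxa, Finset.mem_univ _, h⟩)
        · rintro (h | h)
          · exact absurd h hxa
          · exact (h1.2 h).2.2
    have hne : ∀ x, x ∈ ({b, c, d} : Finset V) → a ≠ x := by
      intro x hx
      rw [← hset, Finset.mem_erase] at hx
      exact fun h => hx.1 h.symm
    have hab : a ≠ b := hne b (by simp)
    have hac : a ≠ c := hne c (by simp)
    have had : a ≠ d := hne d (by simp)
    have hK := K4_not G hG v a b c d ((hmem a).2 (by simp)) ((hmem b).2 (by simp)) ((hmem c).2 (by simp))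
      ((hmem d).2 (by simp)) hab hac had hbc hbd hcd
    have hnd : ∀ x y z w : V, x ≠ y → x ≠ z → x ≠ w → y ≠ z → y ≠ w → z ≠ w → [x, y, z, w].Nodup := by
      intro x y z w h1 h2 h3 h4 h5 h6
      simp [h1, h2, h3, h4, h5, h6]
    by_cases j1 : J (del G {v}) a b
    swap
    · exact step4 G hG IH v a b c d (hnd _ _ _ _ hab hac had hbc hbd hcd) hv hmem j1
    by_cases j2 : J (del G {v}) a c
    swap
    · exact step4 G hG IH v a c b d (hnd _ _ _ _ hac hab had hbc.symm hcd hbd) hv
        (fun x => by rw [hmem]; tauto) j2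
    by_cases j3 : J (del G {v}) a d
    swap
    · exact step4 G hG IH v a d b c (hnd _ _ _ _ had hab hac hbd.symm hcd.symm hbc) hv
        (fun x => by rw [hmem]; tauto) j3
    by_cases j4 : J (del G {v}) b c
    swap
    · exact step4 G hG IH v b c a d (hnd _ _ _ _ hbc hab.symm hbd hac.symm hcd had) hv
        (fun x => by rw [hmem]; tauto) j4
    by_cases j5 : J (del G {v}) b d
    swap
    · exact step4 G hG IH v b d a c (hnd _ _ _ _ hbd hab.symm hbc had.symm hcd.symm hac) hv
        (fun x => by rw [hmem]; tauto) j5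
    by_cases j6 : J (del G {v}) c d
    swap
    · exact step4 G hG IH v c d a b (hnd _ _ _ _ hcd hac.symm hbc.symm had.symm hbd.symm hab) hv
        (fun x => by rw [hmem]; tauto) j6
    exact absurd ⟨j1, j2, j3, j4, j5, j6⟩ hK
  push Not at hb
  have hdeg : ∀ a, dg G Finset.univ a = 0 ∨ dg G Finset.univ a = 5 := by
    intro a
    have h1 := hG.2 a
    have h2 := hb a
    have h3 := ha a
    omega
  by_cases h5 : ∃ v, dg G Finset.univ v = 5
  · obtain ⟨v, hv⟩ := h5
    by_contra hnI
    exact core G hG hnI hdeg IH v hv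
  · push Not at h5
    refine ⟨fun _ => 0, fun w _ hw _ a b => ?_⟩
    apply hw
    intro hab
    have h0 : dg G Finset.univ a = 0 := (hdeg a).resolve_right (h5 a)
    have := dg_ge G Finset.univ {b} a (Finset.subset_univ _) (by
      intro x hx
      rw [Finset.mem_singleton] at hx
      rw [hx]; exact hab)
    rw [Finset.card_singleton, h0] at this
    omega

end Pool.Agent.Reg5.J2542
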