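import Pool.Agent.Helper927.R5Defs
set_option autoImplicit false
set_option maxHeartbeats 4000000

namespace Pool.Agent.Reg5.J2553
open Pool.Agent.Reg5





theorem basis_infinite {s : Set ℝ} (hs : IsTranscendenceBasis ℚ ((↑) : s → ℝ)) : s.Infinite := by
  intro hfin
  have halg := hs.isAlgebraic_field
  have h1 := Algebra.IsAlgebraic.cardinalMk_le_max
    (IntermediateField.adjoin ℚ (Set.range ((↑) : s → ℝ))) ℝ
  have h2 := IntermediateField.cardinalMk_adjoin_le ℚ (Set.range ((↑) : s → ℝ))
  have h3 : Cardinal.mk (Set.range ((↑) : s → ℝ)) ≤ Cardinal.aleph0 := by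
    rw [Subtype.range_coe]
    exact hfin.countable.le_aleph0
  have h4 : Cardinal.mk (IntermediateField.adjoin ℚ (Set.range ((↑) : s → ℝ))) ≤ Cardinal.aleph0 := by
    refine h2.trans (max_le (max_le ?_ h3) le_rfl)
    simp
  have h5 : Cardinal.mk ℝ ≤ Cardinal.aleph0 := by
    exact h1.trans (max_le h4 le_rfl)
  exact absurd h5 (not_le.2 (by rw [Cardinal.mk_real]; exact Cardinal.aleph0_lt_continuum))

theorem exists_generic (V : Type) [Fintype V] : ∃ p : V → Fin 3 → ℝ, IsGeneric p := by
  obtain ⟨s, hs⟩ := exists_isTranscendenceBasis ℚ ℝ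
  have hinf : Infinite s := (basis_infinite hs).to_subtype
  obtain ⟨f⟩ : Nonempty (V × Fin 3 ↪ s) := by
    classical
    have e := Fintype.equivFin (V × Fin 3)
    exact ⟨e.toEmbedding.trans ((Fin.valEmbedding).trans (Infinite.natEmbedding s))⟩
  refine ⟨fun v i => (f (v, i) : ℝ), ?_⟩
  have h := hs.1.comp f f.injective
  exact h

end Pool.Agent.Reg5.J2553
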