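import Pool.Agent.Helper927.R5Defs
set_option autoImplicit false
set_option maxHeartbeats 4000000

namespace Pool.Agent.Reg5.J2554
open Pool.Agent.Reg5


/-- main computation: the combination of the rows at the coordinate `(a,i)` -/
theorem rows_SF_aux {V : Type} [Fintype V] [DecidableEq V] (G : SimpleGraph V) (p : V → Fin 3 → ℝ)
    [Fintype G.edgeSet] (g : G.edgeSet → ℝ) (g' : Sym2 V → ℝ) (hg : ∀ e : G.edgeSet, g' e.1 = g e)
    (hg' : ∀ e : Sym2 V, e ∉ G.edgeSet → g' e = 0) (a : V) (i : Fin 3) :
    (∑ e : G.edgeSet, g e • rigidityMatrix G p e) (a, i) = ∑ b, g' s(a, b) * (p a i - p b i) := by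
  classical
  have h1 : (∑ e : G.edgeSet, g e • rigidityMatrix G p e) (a, i)
      = ∑ e : G.edgeSet, g' e.1 * rigidityRow p e.1 (a, i) := by
    rw [Finset.sum_apply]
    refine Finset.sum_congr rfl fun e _ => ?_
    rw [hg e]
    rfl
  rw [h1]
  have h2 : ∑ e : G.edgeSet, g' e.1 * rigidityRow p e.1 (a, i)
      = ∑ e : Sym2 V, g' e * rigidityRow p e (a, i) := by
    refine Finset.sum_of_injOn (fun e : G.edgeSet => e.1) (fun x _ y _ h => Subtype.ext h)
      (fun _ _ => by simp) (fun e _ he => ?_) (fun _ _ => rfl)
    have : e ∉ G.edgeSet := fun h => he ⟨⟨e, h⟩, by simp, rfl⟩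
    rw [hg' e this, zero_mul]
  rw [h2]
  symm
  refine Finset.sum_of_injOn (fun b : V => s(a, b)) (fun x _ y _ h => ?_)
      (fun _ _ => by simp) (fun e _ he => ?_) (fun b _ => ?_)
  · exact Sym2.congr_right.mp h
  · induction e using Sym2.ind with
    | _ x y =>
      have hx : a ≠ x := fun h => he ⟨y, by simp, by simp [h]⟩
      have hy : a ≠ y := fun h => he ⟨x, by simp, by simp [h, Sym2.eq_swap]⟩
      have : rigidityRow p s(x, y) (a, i) = 0 := by
        simp [rigidityRow, hx, hy]
      rw [this, mul_zero]
  · have : rigidityRow p s(a, b) (a, i) = p a i - p b i := by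
      by_cases hab : a = b
      · subst hab
        simp [rigidityRow]
      · simp [rigidityRow, hab]
    rw [this]

theorem rows_SF {V : Type} [Fintype V] [DecidableEq V] (G : SimpleGraph V) (p : V → Fin 3 → ℝ) :
    RowsIndependent G p ↔ SF G p := by
  classical
  unfold RowsIndependent SF
  rw [Fintype.linearIndependent_iff]
  constructor
  · intro h w hs h0 hw a b
    by_cases hab : G.Adj a b
    · let g' : Sym2 V → ℝ := Sym2.lift ⟨w, hs⟩
      have hz : ∀ e : Sym2 V, e ∉ G.edgeSet → g' e = 0 := by
        intro e he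
        induction e using Sym2.ind with
        | _ x y => exact h0 x y (by simpa using he)
      have := h (fun e => g' e.1) ?_ ⟨s(a, b), by simpa using hab⟩
      · simpa [g'] using this
      · funext ai
        obtain ⟨a, i⟩ := ai
        rw [rows_SF_aux G p (fun e => g' e.1) g' (fun _ => rfl) hz a i]
        have h3 := congrFun (hw a) i
        rw [Finset.sum_apply] at h3
        simpa [g'] using h3
    · exact h0 a b hab
  · intro h g hg e
    let g' : Sym2 V → ℝ := fun e => if h : e ∈ G.edgeSet then g ⟨e, h⟩ else 0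
    have hz : ∀ e : Sym2 V, e ∉ G.edgeSet → g' e = 0 := fun e he => by simp only [g', dif_neg he]
    have hgg : ∀ e : G.edgeSet, g' e.1 = g e := fun e => by simp only [g', dif_pos e.2]
    have key := h (fun a b => g' s(a, b)) (fun a b => by rw [Sym2.eq_swap])
      (fun a b hab => hz _ (by simpa using hab)) ?_
    · obtain ⟨e, he⟩ := e
      induction e using Sym2.ind with
      | _ x y =>
        have := key x y
        rw [← hgg]
        exact this
    · intro a
      funext i
      rw [Finset.sum_apply]
      have h4 := rows_SF_aux G p g g' hgg hz a i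
      rw [hg] at h4
      simpa using h4.symm

end Pool.Agent.Reg5.J2554
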