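import Pool.Agent.Helper927.R5Defs
set_option autoImplicit false
set_option maxHeartbeats 4000000

namespace Pool.Agent.Reg5.J2555
open Pool.Agent.Reg5





/-- rows of a real matrix are independent iff the Gram determinant is nonzero -/
theorem gr_rows_iff_gram {m n : Type} [Fintype m] [DecidableEq m] [Fintype n] (A : Matrix m n ℝ) :
    LinearIndependent ℝ (fun i => A i) ↔ (A * A.transpose).det ≠ 0 := by
  have key : ∀ B : Matrix m m ℝ, B.rank = Fintype.card m ↔ B.det ≠ 0 := by
    intro B
    constructor
    · intro h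
      have h1 : LinearIndependent ℝ B.row := by
        rw [linearIndependent_iff_card_eq_finrank_span, Set.finrank,
          ← Matrix.rank_eq_finrank_span_row, h]
      rw [Matrix.linearIndependent_rows_iff_isUnit, Matrix.isUnit_iff_isUnit_det] at h1
      exact h1.ne_zero
    · intro h
      exact Matrix.rank_of_isUnit B ((Matrix.isUnit_iff_isUnit_det B).mpr (isUnit_iff_ne_zero.mpr h))
  rw [← key, Matrix.rank_self_mul_transpose]
  change LinearIndependent ℝ A.row ↔ _
  rw [linearIndependent_iff_card_eq_finrank_span, Set.finrank, ← Matrix.rank_eq_finrank_span_row]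
  exact eq_comm

/-- the polynomial row -/
noncomputable def gr_prow {V : Type} [DecidableEq V] :
    Sym2 V → (V × Fin 3 → MvPolynomial (V × Fin 3) ℚ) :=
  Sym2.lift ⟨fun u v => fun w =>
    (if w.1 = u then MvPolynomial.X (u, w.2) - MvPolynomial.X (v, w.2) else 0) +
      (if w.1 = v then MvPolynomial.X (v, w.2) - MvPolynomial.X (u, w.2) else 0),
    fun u v => by funext w; exact add_comm _ _⟩

theorem gr_aeval_prow {V : Type} [DecidableEq V] (p : V → Fin 3 → ℝ) (e : Sym2 V) (w : V × Fin 3) :
    MvPolynomial.aeval (fun w : V × Fin 3 => p w.1 w.2) (gr_prow e w) = rigidityRow p e w := by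
  induction e using Sym2.ind with
  | _ u v =>
    simp only [gr_prow, rigidityRow, Sym2.lift_mk, map_add]
    split_ifs <;> simp

theorem gr_aeval_det {V : Type} [Fintype V] [DecidableEq V] (G : SimpleGraph V)
    [Fintype G.edgeSet] [DecidableEq G.edgeSet] (p : V → Fin 3 → ℝ) :
    MvPolynomial.aeval (fun w : V × Fin 3 => p w.1 w.2)
      (((Matrix.of fun (e : G.edgeSet) w => gr_prow e.1 w) *
        (Matrix.of fun (e : G.edgeSet) w => gr_prow e.1 w).transpose).det) =
      (rigidityMatrix G p * (rigidityMatrix G p).transpose).det := by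
  rw [AlgHom.map_det]
  congr 1
  ext e f
  simp only [AlgHom.mapMatrix_apply, Matrix.map_apply, Matrix.mul_apply, Matrix.transpose_apply,
    Matrix.of_apply, map_sum, map_mul, gr_aeval_prow]
  rfl

theorem generic_rows {V : Type} [Fintype V] [DecidableEq V] (G : SimpleGraph V) (p q : V → Fin 3 → ℝ)
    (hp : IsGeneric p) (hq : RowsIndependent G q) : RowsIndependent G p := by
  classical
  unfold RowsIndependent at *
  rw [gr_rows_iff_gram] at hq ⊢
  rw [← gr_aeval_det] at hq ⊢
  intro h0
  apply hq
  have h1 : _ = (0 : MvPolynomial (V × Fin 3) ℚ) :=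
    (injective_iff_map_eq_zero _).mp hp _ h0
  rw [h1, map_zero]

end Pool.Agent.Reg5.J2555
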