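import Pool.Agent.Helper927.R5Defs
set_option autoImplicit false
set_option maxHeartbeats 4000000

namespace Pool.Agent.Reg5.J2556
open Pool.Agent.Reg5





theorem sparse_iff {V : Type} [Fintype V] [DecidableEq V] (G : SimpleGraph V) : IsSparse36 G ↔ Sparse G := by
  classical
  constructor
  · intro h X hX
    have h1 := h ((⊤ : G.Subgraph).induce (X : Set V))
    have hv : ((⊤ : G.Subgraph).induce (X : Set V)).verts.ncard = X.card := by
      show (X : Set V).ncard = X.card
      exact Set.ncard_coe_finset X
    have he : ((⊤ : G.Subgraph).induce (X : Set V)).edgeSet.ncard = ie G X := by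
      unfold ie
      rw [← Set.ncard_coe_finset]
      congr 1
      ext e
      induction e using Sym2.ind with
      | _ a b =>
        simp only [SimpleGraph.Subgraph.mem_edgeSet, SimpleGraph.Subgraph.induce_adj,
          SimpleGraph.Subgraph.top_adj, Finset.coe_filter, Finset.mem_univ, true_and,
          Set.mem_setOf_eq, SimpleGraph.mem_edgeSet, Sym2.mem_iff, forall_eq_or_imp, forall_eq,
          Finset.mem_coe]
        tauto
    rw [hv, he] at h1
    have := h1 hX
    omega
  · intro h H hH
    have hfin : H.verts.Finite := Set.toFinite _
    have hc : hfin.toFinset.card = H.verts.ncard := (Set.ncard_eq_toFinset_card H.verts hfin).symm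
    have h1 := h hfin.toFinset (by rw [hc]; exact hH)
    have h2 : H.edgeSet.ncard ≤ ie G hfin.toFinset := by
      unfold ie
      rw [← Set.ncard_coe_finset]
      refine Set.ncard_le_ncard ?_ (Finset.finite_toSet _)
      intro e
      induction e using Sym2.ind with
      | _ a b =>
        intro hab
        have hab' : H.Adj a b := hab
        simp only [Finset.coe_filter, Finset.mem_univ, true_and,
          Set.mem_setOf_eq, SimpleGraph.mem_edgeSet, Sym2.mem_iff, forall_eq_or_imp, forall_eq,
          Set.Finite.mem_toFinset]
        exact ⟨H.adj_sub hab', H.edge_vert hab', H.edge_vert hab'.symm⟩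
    rw [hc] at h1
    omega

theorem dg_degree {V : Type} [Fintype V] [DecidableEq V] (G : SimpleGraph V) [DecidableRel G.Adj] (v : V) :
    dg G Finset.univ v = G.degree v := by
  unfold dg
  rw [← SimpleGraph.card_neighborFinset_eq_degree, SimpleGraph.neighborFinset_eq_filter]
  congr 1
  ext x
  simp

end Pool.Agent.Reg5.J2556
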