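import Pool.Agent.Helper927.R5Defs
import Pool.Agent.Helper927.R5x2272
import Pool.Agent.Helper927.R5x2542
import Pool.Agent.Helper927.R5x2553
import Pool.Agent.Helper927.R5x2554
import Pool.Agent.Helper927.R5x2555
import Pool.Agent.Helper927.R5x2556
set_option autoImplicit false
set_option maxHeartbeats 4000000

namespace Pool.Agent.Reg5
open Pool.Agent.Reg5.J2272 (ind_sparse)
open Pool.Agent.Reg5.J2542 (main_ind)
open Pool.Agent.Reg5.J2553 (exists_generic)
open Pool.Agent.Reg5.J2554 (rows_SF)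
open Pool.Agent.Reg5.J2555 (generic_rows)
open Pool.Agent.Reg5.J2556 (sparse_iff dg_degree)

theorem final_all {V : Type} [Fintype V] [DecidableEq V] (G : SimpleGraph V) [DecidableRel G.Adj]
    (hd : ∀ v, G.degree v ≤ 5) :
    (Independent3 G ↔ IsSparse36 G) ∧ ((∃ p : V → Fin 3 → ℝ, IsGeneric p ∧ RowsIndependent G p) ↔ IsSparse36 G) ∧
      ((∃ p : V → Fin 3 → ℝ, RowsIndependent G p) ↔ IsSparse36 G) := by
  have key : IsSparse36 G → ∃ q : V → Fin 3 → ℝ, RowsIndependent G q := by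
    intro h
    have hc : Cls G := ⟨(sparse_iff G).1 h, fun a => by rw [dg_degree]; exact hd a⟩
    obtain ⟨q, hq⟩ := main_ind G hc
    exact ⟨q, (rows_SF G q).2 hq⟩
  have nec : (∃ q : V → Fin 3 → ℝ, RowsIndependent G q) → IsSparse36 G := by
    rintro ⟨q, hq⟩
    exact (sparse_iff G).2 (ind_sparse G ⟨q, (rows_SF G q).1 hq⟩)
  obtain ⟨p0, hp0⟩ := exists_generic V
  refine ⟨⟨fun h => nec ⟨p0, h p0 hp0⟩, fun h p hp => ?_⟩, ⟨fun ⟨p, _, h⟩ => nec ⟨p, h⟩, fun h => ?_⟩, ⟨nec, key⟩⟩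
  · obtain ⟨q, hq⟩ := key h
    exact generic_rows G p q hp hq
  · obtain ⟨q, hq⟩ := key h
    exact ⟨p0, hp0, generic_rows G p0 q hp0 hq⟩

end Pool.Agent.Reg5
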